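import Pool.Agent.X22.CC1

set_option autoImplicit false

/-! The mean of the cubic residue symbol. -/

namespace Pool.Agent.X22.CC

open Finset
open Pool.Agent.Y692.QS
open Pool.Agent.Y715.T.Rec (cs nn nr_of_assoc fld ftp mw mk mk_eq_zero)
open Pool.Agent.Y715.T.RecG (Pq cs_spec cs_of cs_congr cs_mul cs_one cs_neg mk_three cs_chi)
open Pool.Agent.Y715.T.RecC (star_prime star_dvd)
open Pool.Agent.TH894.NE (box mem_box)
open Pool.Agent.X22.MT (PerC)

/-- the Eisenstein integer with given coordinates -/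
def toE (m : Fin 2 → ℕ) : Ei := ⟨m 0, m 1⟩

lemma exists_nontriv {ρ : Ei} (hρ : Prime ρ) (h3 : ¬ ρ ∣ 3) : ∃ x, loc ρ x ≠ 0 ∧ loc ρ x ≠ 1 := by
  let i1 := fld hρ
  let i2 := ftp hρ
  have h1 := Pool.Agent.Y715.T.Cub.chi_ne_one (mw ρ) (mk_three h3)
  by_contra hcon
  push Not at hcon
  apply h1
  refine MulChar.ext fun t => ?_
  obtain ⟨x, hx⟩ := Ideal.Quotient.mk_surjective (t : Pool.Agent.Y715.T.Rec.FF ρ)
  have hx' : mk ρ x = (t : Pool.Agent.Y715.T.Rec.FF ρ) := hx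
  have hxd : ¬ ρ ∣ x := by
    intro h
    rw [← mk_eq_zero] at h
    exact t.ne_zero (hx'.symm.trans h)
  have h2 := hcon x (by
    rw [loc_ne hxd]
    apply pow_ne_zero
    intro h
    have := wC_norm
    rw [h, norm_zero] at this
    exact zero_ne_one this)
  have h4 : cs ρ x = 0 := by
    rw [loc_ne hxd] at h2
    have key : ∀ c : ZMod 3, c ≠ 0 → c.val = 1 ∨ c.val = 2 := by decide
    by_contra hc
    rcases key _ hc with h | h
    · rw [h, pow_one] at h2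
      exact wC_ne.1 h2
    · rw [h] at h2
      exact wC_ne.2 h2
  have h5 := cs_chi hρ h3 hxd
  rw [h4, ZMod.val_zero, pow_zero] at h5
  rw [MulChar.one_apply_coe, ← hx']
  exact h5

/-- the change of variables -/
lemma sum_shift (ℓ : ℕ) (hℓ : 1 ≤ ℓ) (β : Ei) (hβ : ∀ z : Ei, (ℓ : Ei) ∣ β * z → (ℓ : Ei) ∣ z) (G : Ei → ℂ)
    (hG : ∀ x y : Ei, (ℓ : Ei) ∣ x - y → G x = G y) : ∑ m ∈ box 2 ℓ, G (β * toE m) = ∑ m ∈ box 2 ℓ, G (toE m) := by
  classical
  obtain ⟨φ, hφ⟩ : ∃ φ : (Fin 2 → ℕ) → (Fin 2 → ℕ), φ = fun m => ![((β * toE m).re % (ℓ : ℤ)).toNat, ((β * toE m).im % (ℓ : ℤ)).toNat] := ⟨_, rfl⟩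
  have hℓ0 : (ℓ : ℤ) ≠ 0 := by omega
  have hℓp : (0 : ℤ) < ℓ := by omega
  have hco : ∀ m, ((φ m 0 : ℕ) : ℤ) = (β * toE m).re % (ℓ : ℤ) ∧ ((φ m 1 : ℕ) : ℤ) = (β * toE m).im % (ℓ : ℤ) := by
    intro m
    rw [hφ]
    constructor
    · simp only [Matrix.cons_val_zero]
      exact Int.toNat_of_nonneg (Int.emod_nonneg _ hℓ0)
    · simp only [Matrix.cons_val_one]
      exact Int.toNat_of_nonneg (Int.emod_nonneg _ hℓ0)
  have hdiv : ∀ m, (ℓ : Ei) ∣ β * toE m - toE (φ m) := by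
    intro m
    have h1 : (((ℓ : ℤ) : Ei)) ∣ β * toE m - toE (φ m) := by
      rw [int_dvd, QuadraticAlgebra.re_sub, QuadraticAlgebra.im_sub]
      have e1 : (toE (φ m)).re = ((φ m 0 : ℕ) : ℤ) := rfl
      have e2 : (toE (φ m)).im = ((φ m 1 : ℕ) : ℤ) := rfl
      rw [e1, e2, (hco m).1, (hco m).2]
      exact ⟨Int.dvd_self_sub_emod, Int.dvd_self_sub_emod⟩
    exact_mod_cast h1
  have hmaps : ∀ m ∈ box 2 ℓ, φ m ∈ box 2 ℓ := by
    intro m _
    rw [mem_box]
    intro i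
    have h1 := hco m
    have h2 := Int.emod_lt_of_pos (β * toE m).re hℓp
    have h3 := Int.emod_lt_of_pos (β * toE m).im hℓp
    fin_cases i
    · show φ m 0 < ℓ
      omega
    · show φ m 1 < ℓ
      omega
  have hinj : Set.InjOn φ (box 2 ℓ : Set (Fin 2 → ℕ)) := by
    intro m hm m' hm' h
    rw [mem_coe, mem_box] at hm hm'
    have h1 : (ℓ : Ei) ∣ β * (toE m - toE m') := by
      have h2 := dvd_sub (hdiv m) (hdiv m')
      rw [h] at h2
      have e : β * (toE m - toE m') = β * toE m - toE (φ m') - (β * toE m' - toE (φ m')) := by ring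
      rw [e]
      exact h2
    have h2 := hβ _ h1
    have h3 : (((ℓ : ℤ) : Ei)) ∣ toE m - toE m' := by exact_mod_cast h2
    rw [int_dvd, QuadraticAlgebra.re_sub, QuadraticAlgebra.im_sub] at h3
    have e1 : ∀ m, (toE m).re = ((m 0 : ℕ) : ℤ) := fun _ => rfl
    have e2 : ∀ m, (toE m).im = ((m 1 : ℕ) : ℤ) := fun _ => rfl
    rw [e1, e1, e2, e2] at h3
    have hm0 := hm 0
    have hm1 := hm 1
    have hm0' := hm' 0
    have hm1' := hm' 1
    have key : ∀ a b : ℕ, a < ℓ → b < ℓ → (ℓ : ℤ) ∣ (a : ℤ) - b → a = b := by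
      intro a b ha hb h
      have h4 : (b : ℤ) ≡ a [ZMOD ℓ] := (Int.modEq_iff_dvd).2 h
      have h5 : b ≡ a [MOD ℓ] := (Int.natCast_modEq_iff).1 h4
      exact (Nat.ModEq.eq_of_lt_of_lt h5 hb ha).symm
    funext i
    fin_cases i
    · exact key _ _ hm0 hm0' h3.1
    · exact key _ _ hm1 hm1' h3.2
  have hsurj : Set.SurjOn φ (box 2 ℓ : Set (Fin 2 → ℕ)) (box 2 ℓ : Set (Fin 2 → ℕ)) :=
    surjOn_of_injOn_of_card_le _ (fun n hn => hmaps n hn) hinj le_rfl
  refine sum_nbij φ hmaps hinj hsurj ?_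
  intro m _
  exact hG _ _ (hdiv m)

lemma FF_nontriv (ℓ : ℕ) (hℓ : ℓ.Prime) (h3 : ℓ ≠ 3) : ∃ β : Ei, (∀ z : Ei, (ℓ : Ei) ∣ β * z → (ℓ : Ei) ∣ z) ∧ FF ℓ β ≠ 1 := by
  have h3' : ¬ 3 ∣ ℓ := fun h => h3 (((Nat.prime_dvd_prime_iff_eq Nat.prime_three hℓ).1 h).symm)
  have hℓ0 : ℓ ≠ 0 := hℓ.ne_zero
  have hnu : ¬ IsUnit (ℓ : Ei) := by
    rw [isUnit_iff, nr_nat]
    have := hℓ.one_lt
    intro h
    have h1 : (1 : ℤ) < ℓ := by exact_mod_cast this
    nlinarith
  obtain ⟨ρ, hρm⟩ := UniqueFactorizationMonoid.exists_mem_factors (nat_ne hℓ0) hnu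
  obtain ⟨hρ, hρd, hρ3⟩ := factor_three hℓ0 h3' hρm
  have hnr : nr ρ = ℓ ∨ nr ρ = (ℓ : ℤ) ^ 2 := by
    have h1 := nr_dvd hρd
    rw [nr_nat] at h1
    have h2 := nr_nonneg ρ
    obtain ⟨k, hk⟩ : ∃ k : ℕ, nr ρ = k := ⟨(nr ρ).toNat, (Int.toNat_of_nonneg h2).symm⟩
    rw [hk] at h1 ⊢
    have h4 : k ∣ ℓ ^ 2 := by exact_mod_cast h1
    obtain ⟨j, hj, hkj⟩ := (Nat.dvd_prime_pow hℓ).1 h4
    interval_cases j
    · exfalso
      rw [pow_zero] at hkj
      apply hρ.not_isUnit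
      rw [isUnit_iff, hk, hkj]
      rfl
    · left
      rw [hkj, pow_one]
    · right
      rw [hkj]
      push_cast
      rfl
  obtain ⟨x, hx0, hx1⟩ := exists_nontriv hρ (not_three hρ3 hρ)
  rcases hnr with hnr | hnr
  · -- the split case
    have hmul : ρ * star ρ = (ℓ : Ei) := by
      rw [Pool.Agent.Y692.QS.mul_star, hnr]
      push_cast
      rfl
    have hσ : Prime (star ρ) := star_prime hρ
    have hnd : ¬ ρ ∣ star ρ := by
      intro h
      have h1 : ρ ∣ ρ - star ρ := dvd_sub_self_left.2 h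
      have h2 := nr_dvd h1
      have h4 : nr (ρ - star ρ) = 3 * ρ.im ^ 2 := by
        unfold nr
        rw [QuadraticAlgebra.re_sub, QuadraticAlgebra.im_sub, star_re, star_im]
        ring
      rw [hnr, h4] at h2
      have hℓZ : Prime (ℓ : ℤ) := Nat.prime_iff_prime_int.1 hℓ
      have h5 : (ℓ : ℤ) ∣ ρ.im := by
        rcases hℓZ.dvd_or_dvd h2 with h6 | h6
        · exfalso
          have h7 : ℓ ∣ 3 := by exact_mod_cast h6
          exact h3 ((Nat.prime_dvd_prime_iff_eq hℓ Nat.prime_three).1 h7)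
        · exact hℓZ.dvd_of_dvd_pow h6
      have h6 : (ℓ : ℤ) ∣ ρ.re := by
        have h7 : (ℓ : ℤ) ∣ ρ.re ^ 2 := by
          have h8 : ρ.re ^ 2 = ℓ + (ρ.re - ρ.im) * ρ.im := by
            rw [← hnr]
            unfold nr
            ring
          rw [h8]
          exact dvd_add (dvd_refl _) (h5.mul_left _)
        exact hℓZ.dvd_of_dvd_pow h7
      have h7 : (ℓ : Ei) ∣ ρ := by
        have : (((ℓ : ℤ) : Ei)) ∣ ρ := int_dvd.2 ⟨h6, h5⟩
        exact_mod_cast this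
      have h8 := nr_dvd h7
      rw [nr_nat, hnr] at h8
      have h9 := Int.le_of_dvd (by exact_mod_cast hℓ.pos) h8
      have h10 : (1 : ℤ) < ℓ := by exact_mod_cast hℓ.one_lt
      nlinarith
    have hcop : IsCoprime ρ (star ρ) := (hρ.irreducible.coprime_iff_not_dvd).2 hnd
    obtain ⟨u, v, huv⟩ := hcop
    have hF : ∀ z, FF ℓ z = loc ρ z * loc (star ρ) z := by
      intro z
      rw [FF_of hℓ0 h3' {ρ, star ρ}]
      · simp
      · intro τ hτ
        simp only [Multiset.insert_eq_cons, Multiset.mem_cons, Multiset.mem_singleton] at hτ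
        rcases hτ with h | h
        · rw [h]; exact hρ
        · rw [h]; exact hσ
      · simp only [Multiset.insert_eq_cons, Multiset.prod_cons, Multiset.prod_singleton]
        rw [hmul]
    have h3σ : ¬ star ρ ∣ 3 := not_three (by rw [nr_star]; exact hρ3) hσ
    refine ⟨x * (v * star ρ) + u * ρ, ?_, ?_⟩
    · have hb1 : ¬ ρ ∣ x * (v * star ρ) + u * ρ := by
        intro h
        have h1 : ρ ∣ x := by
          have e : x = (x * (v * star ρ) + u * ρ) + ρ * (x * u - u) := by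
            linear_combination x * (-huv)
          rw [e]
          exact dvd_add h (dvd_mul_right _ _)
        exact hx0 (loc_zero h1)
      have hb2 : ¬ star ρ ∣ x * (v * star ρ) + u * ρ := by
        intro h
        have h1 : star ρ ∣ 1 := by
          have e : (1 : Ei) = (x * (v * star ρ) + u * ρ) + star ρ * (v - x * v) := by
            linear_combination -huv
          rw [e]
          exact dvd_add h (dvd_mul_right _ _)
        exact hσ.not_isUnit (isUnit_of_dvd_one h1)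
      intro z hz
      have hz1 : ρ ∣ z := (hρ.dvd_or_dvd (hρd.trans hz)).resolve_left hb1
      have hz2 : star ρ ∣ z := (hσ.dvd_or_dvd (((dvd_mul_left _ _).trans hmul.dvd).trans hz)).resolve_left hb2
      rw [← hmul]
      exact (IsCoprime.mul_dvd ⟨u, v, huv⟩ hz1 hz2)
    · rw [hF]
      have e1 : loc ρ (x * (v * star ρ) + u * ρ) = loc ρ x := by
        apply loc_congr hρ (not_three hρ3 hρ)
        refine ⟨u - x * u, ?_⟩
        linear_combination x * huv
      have e2 : loc (star ρ) (x * (v * star ρ) + u * ρ) = loc (star ρ) 1 := by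
        apply loc_congr hσ h3σ
        refine ⟨x * v - v, ?_⟩
        linear_combination huv
      rw [e1, e2, loc_one hσ h3σ, mul_one]
      exact hx1
  · -- the inert case
    have hass : Associated ρ (ℓ : Ei) := by
      obtain ⟨c, hc⟩ := hρd
      have h1 : nr c = 1 := by
        have h2 := congrArg nr hc
        rw [nr_nat, nr_mul, hnr] at h2
        have h4 : (ℓ : ℤ) ^ 2 ≠ 0 := pow_ne_zero _ (by exact_mod_cast hℓ0)
        exact mul_left_cancel₀ h4 (by rw [← h2, mul_one])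
      obtain ⟨u, hu⟩ := isUnit_iff.2 h1
      exact ⟨u, by rw [hu, hc]⟩
    refine ⟨x, ?_, ?_⟩
    · intro z hz
      have h1 : ρ ∣ z := (hρ.dvd_or_dvd (hρd.trans hz)).resolve_left (fun h => hx0 (loc_zero h))
      exact hass.dvd'.trans h1
    · rw [FF_of hℓ0 h3' {ρ}]
      · simpa using hx1
      · intro τ hτ
        rw [Multiset.mem_singleton] at hτ
        rw [hτ]
        exact hρ
      · rw [Multiset.prod_singleton]
        exact hass

lemma FF_mean (ℓ : ℕ) (hℓ : ℓ.Prime) (h3 : ℓ ≠ 3) : ∑ m ∈ box 2 ℓ, FF ℓ (toE m) = 0 := by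
  have h3' : ¬ 3 ∣ ℓ := fun h => h3 (((Nat.prime_dvd_prime_iff_eq Nat.prime_three hℓ).1 h).symm)
  obtain ⟨β, hβ, hβ1⟩ := FF_nontriv ℓ hℓ h3
  have h1 := sum_shift ℓ hℓ.one_lt.le β hβ (FF ℓ) (fun x y h => FF_congr hℓ.ne_zero h3' h)
  have h2 : ∀ m ∈ box 2 ℓ, FF ℓ (β * toE m) = FF ℓ β * FF ℓ (toE m) := fun m _ => FF_mul_right hℓ.ne_zero h3' _ _
  rw [sum_congr rfl h2, ← mul_sum] at h1
  have h4 : (FF ℓ β - 1) * ∑ m ∈ box 2 ℓ, FF ℓ (toE m) = 0 := by
    rw [sub_mul, h1, one_mul, sub_self]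
  rcases mul_eq_zero.1 h4 with h | h
  · exact absurd (sub_eq_zero.1 h) hβ1
  · exact h

lemma FF_per (n : ℕ) (hn : n ≠ 0) (h3 : ¬ 3 ∣ n) : PerC n (fun m => FF n (toE m)) := by
  intro m
  apply FF_congr hn h3
  have h1 : (((n : ℤ) : Ei)) ∣ toE m - toE (fun i => m i % n) := by
    rw [int_dvd, QuadraticAlgebra.re_sub, QuadraticAlgebra.im_sub]
    have e1 : ∀ m, (toE m).re = ((m 0 : ℕ) : ℤ) := fun _ => rfl
    have e2 : ∀ m, (toE m).im = ((m 1 : ℕ) : ℤ) := fun _ => rfl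
    rw [e1, e1, e2, e2]
    push_cast
    exact ⟨Int.dvd_self_sub_emod, Int.dvd_self_sub_emod⟩
  exact_mod_cast h1

/-- the family -/
lemma fam (L x : ℕ) (h3L : 3 ∣ L) : Pool.Agent.X22.MT.Fam 2 L x 1 (fun n m => FF n (toE m)) where
  per n hn := by
    rw [Pool.Agent.X22.MT.mem_nn] at hn
    refine FF_per n (by omega) ?_
    intro h
    exact Nat.not_coprime_of_dvd_of_dvd (by norm_num : 1 < 3) h h3L hn.2
  mul p n hp hpn hmem m := by
    have h3 : ¬ 3 ∣ p * n := by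
      intro h
      rw [Pool.Agent.X22.MT.mem_nn] at hmem
      exact Nat.not_coprime_of_dvd_of_dvd (by norm_num : 1 < 3) h h3L hmem.2
    rw [Pool.Agent.X22.MT.mem_nn] at hmem
    refine FF_mul hp.ne_zero ?_ (fun h => h3 (h.mul_right n)) (fun h => h3 (h.mul_left p)) _
    rintro rfl
    simp at hmem
  bnd n _ m := FF_norm n _
  mean p hp hp' := by
    rw [Pool.Agent.X22.MT.mem_nn] at hp
    refine FF_mean p hp' ?_
    rintro rfl
    exact Nat.not_coprime_of_dvd_of_dvd (by norm_num : 1 < 3) (dvd_refl 3) h3L hp.2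

end Pool.Agent.X22.CC
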