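import Pool.Agent.X22.CM

/-!
# The determinants of the blocks of the Cartier–Manin matrix of a superelliptic curve
-/

set_option autoImplicit false

namespace Pool.Agent.X22.CM

open Finset Polynomial

/-- The matrix of the coefficients of `X ^ (i p - j)` in `f ^ e`. -/
noncomputable def cmg (p e : ℕ) {R : Type} [CommRing R] (f : R[X]) (g : ℕ) : Matrix (Fin g) (Fin g) R :=
  fun i j => (f ^ e).coeff (((i : ℕ) + 1) * p - ((j : ℕ) + 1))

lemma cmg_map (p e : ℕ) {R S : Type} [CommRing R] [CommRing S] (φ : R →+* S) (f : R[X]) (g : ℕ) :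
    φ (cmg p e f g).det = (cmg p e (f.map φ) g).det := by
  rw [RingHom.map_det]
  congr 1
  ext i j
  rw [RingHom.mapMatrix_apply, Matrix.map_apply]
  unfold cmg
  rw [← Polynomial.map_pow, coeff_map]

section
variable {p : ℕ} [hf : Fact p.Prime]

/-- the degree of the determinant, general exponent -/
theorem det_deg' (n g e t : ℕ) (hgn : g < n) (he1 : 1 ≤ e) (hep : e < p) (ht : p = n * t + 1) (hgt : g * t ≤ e) (hgp : g * p ≤ n * e + 1)
    (h : (ZMod p)[X]) (hh : h.natDegree ≤ n - 1) :
    (cmg p e (FM n h) g).det ≠ 0 ∧ 2 * n * (cmg p e (FM n h) g).det.natDegree + (p - 1) * (g * (g + 1)) ≤ 2 * g * (n * e) := by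
  classical
  have hp1 := hf.out.one_lt
  -- the entries
  obtain ⟨K, hK⟩ : ∃ K : Fin g → Fin g → ℕ, ∀ i j, K i j = ((i : ℕ) + 1) * p - ((j : ℕ) + 1) := ⟨_, fun _ _ => rfl⟩
  have hKle : ∀ i j, K i j ≤ n * e := by
    intro i j
    rw [hK]
    have h3 : ((i : ℕ) + 1) * p ≤ g * p := Nat.mul_le_mul_right _ i.2
    omega
  obtain ⟨v, hv⟩ : ∃ v : Fin g → Fin g → ℕ, ∀ i j, v i j = n * e - K i j := ⟨_, fun _ _ => rfl⟩
  have hvz : ∀ i j, (v i j : ℤ) = n * e - ((i : ℕ) + 1) * p + ((j : ℕ) + 1) := by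
    intro i j
    have h3 : (j : ℕ) + 1 ≤ ((i : ℕ) + 1) * p := by
      have : (j : ℕ) + 1 ≤ g := j.2
      have h5 : g ≤ p := by
        have h6 : 1 ≤ t := by
          by_contra h0
          have : t = 0 := by omega
          rw [this, mul_zero] at ht
          omega
        have h7 : n * 1 ≤ n * t := Nat.mul_le_mul_left _ h6
        omega
      calc (j : ℕ) + 1 ≤ 1 * p := by omega
        _ ≤ ((i : ℕ) + 1) * p := Nat.mul_le_mul_right _ (by omega)
    rw [hv, Nat.cast_sub (hKle i j), hK, Nat.cast_sub h3]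
    push_cast
    ring
  obtain ⟨u, hu⟩ : ∃ u : Fin g → Fin g → ℕ, ∀ i j, u i j = v i j / n := ⟨_, fun _ _ => rfl⟩
  have hn0 : 0 < n := by omega
  have hnu : ∀ i j, n * u i j ≤ v i j := fun i j => by rw [hu]; exact Nat.mul_div_le _ _
  have hdeg : ∀ i j, (cmg p e (FM n h) g i j).natDegree ≤ u i j := by
    intro i j
    rw [natDegree_le_iff_coeff_eq_zero]
    intro d hd
    unfold cmg
    rw [← hK]
    apply W_pow n (W_FM n h (by omega)) e
    rw [hu] at hd
    have h3 : v i j < n * d := by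
      have := Nat.lt_mul_div_succ (v i j) hn0
      have h4 : n * (v i j / n + 1) ≤ n * d := Nat.mul_le_mul_left _ (by omega)
      omega
    rw [hv] at h3
    have := hKle i j
    rw [mul_comm e n]
    omega
  -- the diagonal
  have hdiag : ∀ i : Fin g, u i i = e - ((i : ℕ) + 1) * t ∧ ((i : ℕ) + 1) * t ≤ e := by
    intro i
    have h3 : ((i : ℕ) + 1) * t ≤ e := (Nat.mul_le_mul_right _ i.2).trans hgt
    refine ⟨?_, h3⟩
    have h4 : (v i i : ℤ) = ((n * (e - ((i : ℕ) + 1) * t) : ℕ) : ℤ) := by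
      rw [hvz, Nat.cast_mul, Nat.cast_sub h3]
      have : (p : ℤ) = n * t + 1 := by exact_mod_cast ht
      rw [this]
      push_cast
      ring
    have h5 : v i i = n * (e - ((i : ℕ) + 1) * t) := by exact_mod_cast h4
    rw [hu, h5, Nat.mul_div_cancel_left _ hn0]
  have hdiagv : ∀ i : Fin g, v i i = n * u i i := by
    intro i
    have h4 : (v i i : ℤ) = ((n * (e - ((i : ℕ) + 1) * t) : ℕ) : ℤ) := by
      rw [hvz, Nat.cast_mul, Nat.cast_sub (hdiag i).2]
      have : (p : ℤ) = n * t + 1 := by exact_mod_cast ht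
      rw [this]
      push_cast
      ring
    rw [(hdiag i).1]
    exact_mod_cast h4
  have hcoef : ∀ i : Fin g, (cmg p e (FM n h) g i i).coeff (u i i) = ((e.choose (u i i) : ℕ) : ZMod p) := by
    intro i
    have h3 : n * (e - u i i) = K i i := by
      have h4 := hdiagv i
      rw [hv] at h4
      have h5 := hKle i i
      rw [Nat.mul_sub]
      omega
    unfold cmg
    rw [← hK, ← h3]
    exact coeff_FM_pow n h (by omega) (by omega) e (u i i) (by rw [(hdiag i).1]; omega) (by omega)
  obtain ⟨D, hD⟩ : ∃ D, D = ∑ i, u i i := ⟨_, rfl⟩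
  have hsum : ∀ σ : Equiv.Perm (Fin g), ∑ i, (v (σ i) i : ℤ) = n * D := by
    intro σ
    have h3 : ∑ i, (v (σ i) i : ℤ) = ∑ i, (v i i : ℤ) := by
      simp only [hvz]
      have h4 := Equiv.sum_comp σ (fun i : Fin g => (((i : ℕ) : ℤ) + 1) * (p : ℤ))
      rw [sum_add_distrib, sum_sub_distrib, h4, ← sum_sub_distrib, ← sum_add_distrib]
    rw [h3, hD]
    push_cast
    rw [mul_sum]
    apply sum_congr rfl
    intro i _
    rw [hdiagv i]
    push_cast
    rfl
  have hle : ∀ σ : Equiv.Perm (Fin g), ∑ i, u (σ i) i ≤ D := by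
    intro σ
    have h3 : (n : ℤ) * ((∑ i, u (σ i) i : ℕ) : ℤ) ≤ n * D := by
      rw [← hsum σ]
      push_cast
      rw [mul_sum]
      apply sum_le_sum
      intro i _
      exact_mod_cast hnu (σ i) i
    have h4 : n * (∑ i, u (σ i) i) ≤ n * D := by exact_mod_cast h3
    exact Nat.le_of_mul_le_mul_left h4 hn0
  have hlt : ∀ σ : Equiv.Perm (Fin g), σ ≠ 1 → ∑ i, u (σ i) i < D := by
    intro σ hσ
    obtain ⟨i, hi⟩ : ∃ i, σ i ≠ i := by
      by_contra hcon
      push Not at hcon
      exact hσ (Equiv.ext hcon)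
    have h3 : (n : ℤ) * ((∑ i, u (σ i) i : ℕ) : ℤ) < n * D := by
      rw [← hsum σ]
      push_cast
      rw [mul_sum]
      apply sum_lt_sum
      · intro i _
        exact_mod_cast hnu (σ i) i
      · refine ⟨i, mem_univ i, ?_⟩
        have h4 := hnu (σ i) i
        rcases h4.lt_or_eq with h5 | h5
        · exact_mod_cast h5
        · exfalso
          have h6 := hvz (σ i) i
          rw [← h5] at h6
          have hpz : (p : ℤ) = n * t + 1 := by exact_mod_cast ht
          rw [hpz] at h6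
          push_cast at h6
          have h7 : (n : ℤ) ∣ ((σ i : ℕ) : ℤ) - ((i : ℕ) : ℤ) := by
            refine ⟨e - u (σ i) i - (((σ i : ℕ) : ℤ) + 1) * t, ?_⟩
            linarith
          have h8 : ((σ i : ℕ) : ℤ) - ((i : ℕ) : ℤ) = 0 := by
            apply Int.eq_zero_of_abs_lt_dvd h7
            have := (σ i).2
            have := i.2
            rw [abs_lt]
            constructor <;> omega
          apply hi
          apply Fin.ext
          omega
    have h4 : n * (∑ i, u (σ i) i) < n * D := by exact_mod_cast h3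
    exact Nat.lt_of_mul_lt_mul_left h4
  have hprod : ∀ σ : Equiv.Perm (Fin g), (∏ i, cmg p e (FM n h) g (σ i) i).natDegree ≤ ∑ i, u (σ i) i := fun σ =>
    (coeff_prod univ (fun i => cmg p e (FM n h) g (σ i) i) (fun i => u (σ i) i) (fun i _ => hdeg (σ i) i)).1
  have hcoefD : (cmg p e (FM n h) g).det.coeff D = ∏ i, ((e.choose (u i i) : ℕ) : ZMod p) := by
    rw [Matrix.det_apply, finset_sum_coeff, sum_eq_single (1 : Equiv.Perm (Fin g))]
    · rw [Equiv.Perm.sign_one, one_smul]
      have h3 := (coeff_prod univ (fun i => cmg p e (FM n h) g i i) (fun i => u i i) (fun i _ => hdeg i i)).2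
      rw [← hD] at h3
      simp only [Equiv.Perm.coe_one, id]
      rw [h3]
      exact prod_congr rfl (fun i _ => hcoef i)
    · intro σ _ hσ
      rw [Units.smul_def, coeff_smul]
      rw [coeff_eq_zero_of_natDegree_lt ((hprod σ).trans_lt (hlt σ hσ)), smul_zero]
    · intro h0
      exact absurd (mem_univ _) h0
  have hne0 : (∏ i : Fin g, ((e.choose (u i i) : ℕ) : ZMod p)) ≠ 0 := by
    rw [prod_ne_zero_iff]
    intro i _
    exact choose_ne e (u i i) (by omega) (by rw [(hdiag i).1]; omega)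
  have hdegD : (cmg p e (FM n h) g).det.natDegree ≤ D := by
    rw [Matrix.det_apply]
    apply natDegree_sum_le_of_forall_le
    intro σ _
    rw [Units.smul_def]
    refine (natDegree_smul_le _ _).trans ((hprod σ).trans (hle σ))
  refine ⟨?_, ?_⟩
  · intro h0
    rw [h0, coeff_zero] at hcoefD
    exact hne0 hcoefD.symm
  · have h3 : (2 * n * D : ℤ) + (p - 1) * (g * (g + 1)) = 2 * g * (n * e) := by
      have h4 := hsum 1
      simp only [Equiv.Perm.coe_one, id, hvz] at h4
      have h5 : (2 * n * D : ℤ) = 2 * (n * D) := by ring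
      rw [h5, ← h4]
      have h6 : ∀ i : Fin g, (n : ℤ) * e - (((i : ℕ) : ℤ) + 1) * p + (((i : ℕ) : ℤ) + 1) = n * e - (((i : ℕ) : ℤ) + 1) * (p - 1) := by
        intro i
        ring
      rw [sum_congr rfl (fun i _ => h6 i), sum_sub_distrib, sum_const, card_univ, Fintype.card_fin, nsmul_eq_mul, ← sum_mul]
      have h7 : (2 : ℤ) * ∑ i : Fin g, (((i : ℕ) : ℤ) + 1) = g * (g + 1) := by
        have h9 : ∑ i : Fin g, (((i : ℕ) : ℤ) + 1) = ∑ i ∈ range g, ((i : ℤ) + 1) := Fin.sum_univ_eq_sum_range (fun i => (i : ℤ) + 1) g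
        rw [h9]
        clear * -
        induction g with
        | zero => simp
        | succ g ih =>
          rw [sum_range_succ, mul_add, ih]
          push_cast
          ring
      rw [mul_sub, ← mul_assoc 2 (∑ i : Fin g, (((i : ℕ) : ℤ) + 1)), h7]
      ring
    have h4 : 2 * n * D + (p - 1) * (g * (g + 1)) = 2 * g * (n * e) := by
      have : ((2 * n * D + (p - 1) * (g * (g + 1)) : ℕ) : ℤ) = ((2 * g * (n * e) : ℕ) : ℤ) := by
        push_cast [Nat.cast_sub hp1.le]
        exact h3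
      exact_mod_cast this
    rw [← h4]
    exact Nat.add_le_add_right (Nat.mul_le_mul_left _ hdegD) _

end

end Pool.Agent.X22.CM
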