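import Mathlib

/-!
# The determinant of the Cartier–Manin matrix of `Y ^ 2 = X ^ n + h (X) + m` as a polynomial in `m`
-/

set_option autoImplicit false

namespace Pool.Agent.X22.CM

open Finset Polynomial

section weight
variable {R : Type} [CommRing R] (n : ℕ)

/-- the terms of weight greater than `w` vanish (`X` has the weight `1` and the inner variable the weight `n`) -/
def W (w : ℕ) (G : R[X][X]) : Prop := ∀ k d, w < n * d + k → (G.coeff k).coeff d = 0

lemma W_mul {w w' : ℕ} {G G' : R[X][X]} (h : W n w G) (h' : W n w' G') : W n (w + w') (G * G') := by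
  intro k d hkd
  rw [coeff_mul, finset_sum_coeff]
  apply sum_eq_zero
  rintro ⟨i, j⟩ hij
  rw [HasAntidiagonal.mem_antidiagonal] at hij
  rw [coeff_mul]
  apply sum_eq_zero
  rintro ⟨a, c⟩ hac
  rw [HasAntidiagonal.mem_antidiagonal] at hac
  simp only at hij hac ⊢
  by_cases h1 : w < n * a + i
  · rw [h i a h1, zero_mul]
  · rw [h' j c (by
      rw [← hij, ← hac, mul_add] at hkd
      omega), mul_zero]

lemma W_add {w : ℕ} {G G' : R[X][X]} (h : W n w G) (h' : W n w G') : W n w (G + G') := by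
  intro k d hkd
  rw [coeff_add, coeff_add, h k d hkd, h' k d hkd, add_zero]

lemma W_sub {w : ℕ} {G G' : R[X][X]} (h : W n w G) (h' : W n w G') : W n w (G - G') := by
  intro k d hkd
  rw [coeff_sub, coeff_sub, h k d hkd, h' k d hkd, sub_zero]

lemma W_mono {w w' : ℕ} (hw : w ≤ w') {G : R[X][X]} (h : W n w G) : W n w' G := fun k d hkd => h k d (by omega)

lemma W_one : W n 0 (1 : R[X][X]) := by
  intro k d hkd
  rw [coeff_one]
  split_ifs with h0
  · rw [coeff_one]
    rw [h0, add_zero] at hkd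
    split_ifs with h1
    · rw [h1, mul_zero] at hkd
      omega
    · rfl
  · rfl

/-- the leading part -/
noncomputable def F0 : R[X][X] := X ^ n + C X

lemma W_F0 : W n n (F0 n : R[X][X]) := by
  intro k d hkd
  unfold F0
  rw [coeff_add, coeff_X_pow, coeff_C, coeff_add]
  have h1 : (if k = n then (1 : R[X]) else 0).coeff d = 0 := by
    split_ifs with h2
    · rw [coeff_one, if_neg]
      rintro rfl
      rw [mul_zero] at hkd
      omega
    · rfl
  have h3 : (if k = 0 then (X : R[X]) else 0).coeff d = 0 := by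
    split_ifs with h2
    · rw [coeff_X, if_neg]
      rintro rfl
      omega
    · rfl
  rw [h1, h3, add_zero]

lemma W_map (h : R[X]) {w : ℕ} (hh : h.natDegree ≤ w) : W n w (h.map (C : R →+* R[X])) := by
  intro k d hkd
  rw [coeff_map, coeff_C]
  split_ifs with h0
  · apply coeff_eq_zero_of_natDegree_lt
    rw [h0, mul_zero] at hkd
    omega
  · rfl

/-- `X ^ n + h (X) + M` -/
noncomputable def FM (h : R[X]) : R[X][X] := F0 n + h.map (C : R →+* R[X])

lemma W_FM (h : R[X]) (hh : h.natDegree ≤ n) : W n n (FM n h) := W_add n (W_F0 n) (W_map n h hh)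

lemma W_pow {w : ℕ} {G : R[X][X]} (h : W n w G) (e : ℕ) : W n (e * w) (G ^ e) := by
  induction e with
  | zero =>
    rw [pow_zero, zero_mul]
    exact W_one n
  | succ e ih =>
    rw [pow_succ, add_mul, one_mul]
    exact W_mul n ih h

/-- the terms of the top weight -/
lemma top_weight (h : R[X]) (hn : 1 ≤ n) (hh : h.natDegree ≤ n - 1) (e : ℕ) : W n (e * n - 1) (FM n h ^ e - F0 n ^ e) := by
  induction e with
  | zero =>
    rw [pow_zero, pow_zero, sub_self]
    intro k d _
    rw [coeff_zero, coeff_zero]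
  | succ e ih =>
    have e1 : FM n h ^ (e + 1) - F0 n ^ (e + 1) = FM n h * (FM n h ^ e - F0 n ^ e) + h.map (C : R →+* R[X]) * F0 n ^ e := by
      unfold FM
      ring
    rw [e1]
    by_cases he : e = 0
    · subst he
      rw [pow_zero, pow_zero, sub_self, mul_zero, zero_add, mul_one, zero_add, one_mul]
      exact W_map n h hh
    · have he1 : 1 ≤ e * n := Nat.one_le_iff_ne_zero.2 (by
        have : 0 < e * n := Nat.mul_pos (Nat.pos_of_ne_zero he) hn
        omega)
      apply W_add
      · exact W_mono n (by rw [add_mul, one_mul]; omega) (W_mul n (W_FM n h (by omega)) ih)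
      · exact W_mono n (by rw [add_mul, one_mul]; omega) (W_mul n (W_map n h hh) (W_pow n (W_F0 n) e))

/-- the coefficients of the leading part -/
lemma coeff_F0_pow (e d : ℕ) (hd : d ≤ e) : ((F0 n ^ e : R[X][X]).coeff (n * (e - d))).coeff d = (e.choose d : R) := by
  unfold F0
  rw [add_comm, add_pow, finset_sum_coeff, finset_sum_coeff, sum_eq_single d]
  · rw [← C_pow, ← pow_mul, mul_assoc, mul_comm (X ^ (n * (e - d)) : R[X][X]), ← mul_assoc, coeff_mul_X_pow', if_pos le_rfl, Nat.sub_self]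
    rw [← C_eq_natCast, ← C_mul, coeff_C_zero, mul_comm, ← C_eq_natCast, coeff_C_mul, coeff_X_pow_self, mul_one]
  · intro a _ had
    rw [← C_pow, ← pow_mul, mul_assoc, mul_comm (X ^ (n * (e - a)) : R[X][X]), ← mul_assoc, coeff_mul_X_pow']
    split_ifs with h1
    · rw [← C_eq_natCast, ← C_mul, coeff_C]
      split_ifs with h2
      · rw [mul_comm, ← C_eq_natCast, coeff_C_mul, coeff_X_pow, if_neg (Ne.symm had), mul_zero]
      · rfl
    · rfl
  · intro h
    exact absurd (mem_range.2 (by omega)) h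

/-- the top coefficient -/
lemma coeff_FM_pow (h : R[X]) (hn : 1 ≤ n) (hh : h.natDegree ≤ n - 1) (e d : ℕ) (hd : d ≤ e) (he : 1 ≤ e) :
    ((FM n h ^ e).coeff (n * (e - d))).coeff d = (e.choose d : R) := by
  have h1 := top_weight n h hn hh e (n * (e - d)) d (by
    have : n * d + n * (e - d) = n * e := by
      rw [← mul_add]
      congr 1
      omega
    rw [this, mul_comm]
    have : 0 < n * e := Nat.mul_pos hn he
    omega)
  rw [coeff_sub, coeff_sub, sub_eq_zero] at h1
  rw [h1, coeff_F0_pow n e d hd]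

end weight

/-- the product of leading coefficients -/
lemma coeff_prod {R : Type} [CommRing R] {ι : Type} (s : Finset ι) (f : ι → R[X]) (u : ι → ℕ) (h : ∀ i ∈ s, (f i).natDegree ≤ u i) :
    (∏ i ∈ s, f i).natDegree ≤ ∑ i ∈ s, u i ∧ (∏ i ∈ s, f i).coeff (∑ i ∈ s, u i) = ∏ i ∈ s, (f i).coeff (u i) := by
  classical
  induction s using Finset.induction_on with
  | empty => simp
  | insert a s ha ih =>
    have ih' := ih (fun i hi => h i (mem_insert_of_mem hi))
    have ha' := h a (mem_insert_self a s)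
    rw [prod_insert ha, sum_insert ha, prod_insert ha]
    refine ⟨natDegree_mul_le_of_le ha' ih'.1, ?_⟩
    rw [coeff_mul_add_eq_of_natDegree_le ha' ih'.1, ih'.2]

/-- The Cartier–Manin matrix of the curve `Y ^ 2 = f (X)`. -/
noncomputable def cm (p : ℕ) {R : Type} [CommRing R] (f : R[X]) (g : ℕ) : Matrix (Fin g) (Fin g) R :=
  fun i j => (f ^ (p / 2)).coeff (((i : ℕ) + 1) * p - ((j : ℕ) + 1))

lemma cm_map (p : ℕ) {R S : Type} [CommRing R] [CommRing S] (φ : R →+* S) (f : R[X]) (g : ℕ) :
    φ (cm p f g).det = (cm p (f.map φ) g).det := by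
  rw [RingHom.map_det]
  congr 1
  ext i j
  rw [RingHom.mapMatrix_apply, Matrix.map_apply]
  unfold cm
  rw [← Polynomial.map_pow, coeff_map]

lemma FM_map {R : Type} [CommRing R] (n : ℕ) (h : R[X]) (m : R) : (FM n h).map (evalRingHom m) = X ^ n + h + C m := by
  unfold FM F0
  rw [Polynomial.map_add, Polynomial.map_add, Polynomial.map_pow, map_X, map_C, Polynomial.map_map]
  have e : (evalRingHom m).comp (C : R →+* R[X]) = RingHom.id R := by
    ext x
    simp
  rw [e, Polynomial.map_id, coe_evalRingHom, eval_X]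
  ring

section
variable {p : ℕ} [hf : Fact p.Prime]

lemma choose_ne (e d : ℕ) (he : e < p) (hd : d ≤ e) : ((e.choose d : ℕ) : ZMod p) ≠ 0 := by
  rw [Ne, ZMod.natCast_eq_zero_iff]
  intro h
  have h1 : p ∣ e.factorial := by
    rw [← Nat.choose_mul_factorial_mul_factorial hd, mul_assoc]
    exact h.mul_right _
  exact absurd ((hf.out.dvd_factorial).1 h1) (by omega)

/-- the degree of the determinant -/
theorem det_deg (g : ℕ) (hg : 1 ≤ g) (h2 : p ≠ 2) (hp : p % (2 * g + 1) = 1) (h : (ZMod p)[X]) (hh : h.natDegree ≤ 2 * g) :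
    (cm p (FM (2 * g + 1) h) g).det ≠ 0 ∧ 2 * (2 * g + 1) * (cm p (FM (2 * g + 1) h) g).det.natDegree ≤ (p - 1) * g ^ 2 := by
  classical
  obtain ⟨n, hn⟩ : ∃ n, n = 2 * g + 1 := ⟨_, rfl⟩
  obtain ⟨e, he⟩ : ∃ e, e = p / 2 := ⟨_, rfl⟩
  obtain ⟨t, ht⟩ : ∃ t, p = n * t + 1 := ⟨p / (2 * g + 1), by
    have := Nat.div_add_mod p (2 * g + 1)
    rw [hp] at this
    rw [hn]
    exact this.symm⟩
  have hodd := hf.out.eq_two_or_odd
  have hpe : p = 2 * e + 1 := by omega
  have hp1 := hf.out.one_lt
  rw [← hn]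
  have ht2 : n * t = 2 * e := by omega
  -- `t` is even
  obtain ⟨s, hs⟩ : ∃ s, t = 2 * s := by
    have h3 : 2 ∣ n * t := ⟨e, ht2⟩
    have h4 : ¬ 2 ∣ n := by omega
    rcases (Nat.prime_two.dvd_mul).1 h3 with h5 | h5
    · exact absurd h5 h4
    · exact h5
  have hs1 : 1 ≤ s := by
    by_contra h0
    have : s = 0 := by omega
    rw [this] at hs
    rw [hs, mul_zero, mul_zero] at ht2
    omega
  have hes : e = n * s := by
    have : n * t = 2 * (n * s) := by rw [hs]; ring
    omega
  have hne : n ≤ e := by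
    rw [hes]
    exact Nat.le_mul_of_pos_right n hs1
  -- the entries
  obtain ⟨K, hK⟩ : ∃ K : Fin g → Fin g → ℕ, ∀ i j, K i j = ((i : ℕ) + 1) * p - ((j : ℕ) + 1) := ⟨_, fun _ _ => rfl⟩
  have hKle : ∀ i j, K i j ≤ n * e := by
    intro i j
    rw [hK]
    have h3 : ((i : ℕ) + 1) * p ≤ g * p := Nat.mul_le_mul_right _ i.2
    have h4 : g * p ≤ n * e := by
      rw [hpe, hn]
      nlinarith
    omega
  obtain ⟨v, hv⟩ : ∃ v : Fin g → Fin g → ℕ, ∀ i j, v i j = n * e - K i j := ⟨_, fun _ _ => rfl⟩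
  have hvz : ∀ i j, (v i j : ℤ) = n * e - ((i : ℕ) + 1) * p + ((j : ℕ) + 1) := by
    intro i j
    have h3 : (j : ℕ) + 1 ≤ ((i : ℕ) + 1) * p := by
      have : (j : ℕ) + 1 ≤ g := j.2
      have h5 : g ≤ p := by omega
      calc (j : ℕ) + 1 ≤ 1 * p := by omega
        _ ≤ ((i : ℕ) + 1) * p := Nat.mul_le_mul_right _ (by omega)
    rw [hv, Nat.cast_sub (hKle i j), hK, Nat.cast_sub h3]
    push_cast
    ring
  obtain ⟨u, hu⟩ : ∃ u : Fin g → Fin g → ℕ, ∀ i j, u i j = v i j / n := ⟨_, fun _ _ => rfl⟩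
  have hn0 : 0 < n := by omega
  have hnu : ∀ i j, n * u i j ≤ v i j := fun i j => by rw [hu]; exact Nat.mul_div_le _ _
  have hdeg : ∀ i j, (cm p (FM n h) g i j).natDegree ≤ u i j := by
    intro i j
    rw [natDegree_le_iff_coeff_eq_zero]
    intro d hd
    unfold cm
    rw [← he, ← hK]
    apply W_pow n (W_FM n h (by omega)) e
    rw [hu] at hd
    have h3 : v i j < n * d := by
      have := Nat.lt_mul_div_succ (v i j) hn0
      have h4 : n * (v i j / n + 1) ≤ n * d := Nat.mul_le_mul_left _ (by omega)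
      omega
    rw [hv] at h3
    have := hKle i j
    rw [mul_comm e n]
    omega
  -- the diagonal
  have hdiag : ∀ i : Fin g, u i i = e - ((i : ℕ) + 1) * t ∧ ((i : ℕ) + 1) * t ≤ e := by
    intro i
    have h3 : ((i : ℕ) + 1) * t ≤ e := by
      have h4 : 2 * ((i : ℕ) + 1) ≤ n := by
        have := i.2
        omega
      have h5 : 2 * (((i : ℕ) + 1) * t) ≤ n * t := by
        calc 2 * (((i : ℕ) + 1) * t) = (2 * ((i : ℕ) + 1)) * t := by ring
          _ ≤ n * t := Nat.mul_le_mul_right _ h4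
      omega
    refine ⟨?_, h3⟩
    have h4 : (v i i : ℤ) = ((n * (e - ((i : ℕ) + 1) * t) : ℕ) : ℤ) := by
      rw [hvz, Nat.cast_mul, Nat.cast_sub h3]
      have : (p : ℤ) = n * t + 1 := by exact_mod_cast ht
      rw [this]
      push_cast
      ring
    have h5 : v i i = n * (e - ((i : ℕ) + 1) * t) := by exact_mod_cast h4
    rw [hu, h5, Nat.mul_div_cancel_left _ hn0]
  have hdiagv : ∀ i : Fin g, v i i = n * u i i := by
    intro i
    have h4 : (v i i : ℤ) = ((n * (e - ((i : ℕ) + 1) * t) : ℕ) : ℤ) := by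
      rw [hvz, Nat.cast_mul, Nat.cast_sub (hdiag i).2]
      have : (p : ℤ) = n * t + 1 := by exact_mod_cast ht
      rw [this]
      push_cast
      ring
    rw [(hdiag i).1]
    exact_mod_cast h4
  have hcoef : ∀ i : Fin g, (cm p (FM n h) g i i).coeff (u i i) = ((e.choose (u i i) : ℕ) : ZMod p) := by
    intro i
    have h3 : n * (e - u i i) = K i i := by
      have h4 := hdiagv i
      rw [hv] at h4
      have h5 := hKle i i
      rw [Nat.mul_sub]
      omega
    unfold cm
    rw [← he, ← hK, ← h3]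
    exact coeff_FM_pow n h (by omega) (by omega) e (u i i) (by rw [(hdiag i).1]; omega) (by omega)
  obtain ⟨D, hD⟩ : ∃ D, D = ∑ i, u i i := ⟨_, rfl⟩
  have hsum : ∀ σ : Equiv.Perm (Fin g), ∑ i, (v (σ i) i : ℤ) = n * D := by
    intro σ
    have h3 : ∑ i, (v (σ i) i : ℤ) = ∑ i, (v i i : ℤ) := by
      simp only [hvz]
      have h4 := Equiv.sum_comp σ (fun i : Fin g => (((i : ℕ) : ℤ) + 1) * (p : ℤ))
      rw [sum_add_distrib, sum_sub_distrib, h4, ← sum_sub_distrib, ← sum_add_distrib]
    rw [h3, hD]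
    push_cast
    rw [mul_sum]
    apply sum_congr rfl
    intro i _
    rw [hdiagv i]
    push_cast
    rfl
  have hle : ∀ σ : Equiv.Perm (Fin g), ∑ i, u (σ i) i ≤ D := by
    intro σ
    have h3 : (n : ℤ) * ((∑ i, u (σ i) i : ℕ) : ℤ) ≤ n * D := by
      rw [← hsum σ]
      push_cast
      rw [mul_sum]
      apply sum_le_sum
      intro i _
      exact_mod_cast hnu (σ i) i
    have h4 : n * (∑ i, u (σ i) i) ≤ n * D := by exact_mod_cast h3
    exact Nat.le_of_mul_le_mul_left h4 hn0
  have hlt : ∀ σ : Equiv.Perm (Fin g), σ ≠ 1 → ∑ i, u (σ i) i < D := by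
    intro σ hσ
    obtain ⟨i, hi⟩ : ∃ i, σ i ≠ i := by
      by_contra hcon
      push Not at hcon
      exact hσ (Equiv.ext hcon)
    have h3 : (n : ℤ) * ((∑ i, u (σ i) i : ℕ) : ℤ) < n * D := by
      rw [← hsum σ]
      push_cast
      rw [mul_sum]
      apply sum_lt_sum
      · intro i _
        exact_mod_cast hnu (σ i) i
      · refine ⟨i, mem_univ i, ?_⟩
        have h4 := hnu (σ i) i
        rcases h4.lt_or_eq with h5 | h5
        · exact_mod_cast h5
        · exfalso
          have h6 := hvz (σ i) i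
          rw [← h5] at h6
          have hpz : (p : ℤ) = n * t + 1 := by exact_mod_cast ht
          rw [hpz] at h6
          push_cast at h6
          have h7 : (n : ℤ) ∣ ((σ i : ℕ) : ℤ) - ((i : ℕ) : ℤ) := by
            refine ⟨e - u (σ i) i - (((σ i : ℕ) : ℤ) + 1) * t, ?_⟩
            linarith
          have h8 : ((σ i : ℕ) : ℤ) - ((i : ℕ) : ℤ) = 0 := by
            apply Int.eq_zero_of_abs_lt_dvd h7
            have := (σ i).2
            have := i.2
            rw [abs_lt]
            constructor <;> omega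
          apply hi
          apply Fin.ext
          omega
    have h4 : n * (∑ i, u (σ i) i) < n * D := by exact_mod_cast h3
    exact Nat.lt_of_mul_lt_mul_left h4
  have hprod : ∀ σ : Equiv.Perm (Fin g), (∏ i, cm p (FM n h) g (σ i) i).natDegree ≤ ∑ i, u (σ i) i := fun σ =>
    (coeff_prod univ (fun i => cm p (FM n h) g (σ i) i) (fun i => u (σ i) i) (fun i _ => hdeg (σ i) i)).1
  have hcoefD : (cm p (FM n h) g).det.coeff D = ∏ i, ((e.choose (u i i) : ℕ) : ZMod p) := by
    rw [Matrix.det_apply, finset_sum_coeff, sum_eq_single (1 : Equiv.Perm (Fin g))]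
    · rw [Equiv.Perm.sign_one, one_smul]
      have h3 := (coeff_prod univ (fun i => cm p (FM n h) g i i) (fun i => u i i) (fun i _ => hdeg i i)).2
      rw [← hD] at h3
      simp only [Equiv.Perm.coe_one, id]
      rw [h3]
      exact prod_congr rfl (fun i _ => hcoef i)
    · intro σ _ hσ
      rw [Units.smul_def, coeff_smul]
      rw [coeff_eq_zero_of_natDegree_lt ((hprod σ).trans_lt (hlt σ hσ)), smul_zero]
    · intro h0
      exact absurd (mem_univ _) h0
  have hne0 : (∏ i : Fin g, ((e.choose (u i i) : ℕ) : ZMod p)) ≠ 0 := by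
    rw [prod_ne_zero_iff]
    intro i _
    exact choose_ne e (u i i) (by omega) (by rw [(hdiag i).1]; omega)
  have hdegD : (cm p (FM n h) g).det.natDegree ≤ D := by
    rw [Matrix.det_apply]
    apply natDegree_sum_le_of_forall_le
    intro σ _
    rw [Units.smul_def]
    refine (natDegree_smul_le _ _).trans ((hprod σ).trans (hle σ))
  refine ⟨?_, ?_⟩
  · intro h0
    rw [h0, coeff_zero] at hcoefD
    exact hne0 hcoefD.symm
  · have h3 : (2 * n * D : ℤ) = (p - 1) * g ^ 2 := by
      have h4 := hsum 1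
      simp only [Equiv.Perm.coe_one, id, hvz] at h4
      have h5 : (2 * n * D : ℤ) = 2 * (n * D) := by ring
      rw [h5, ← h4]
      have h6 : ∀ i : Fin g, (n : ℤ) * e - (((i : ℕ) : ℤ) + 1) * p + (((i : ℕ) : ℤ) + 1) = n * e - (((i : ℕ) : ℤ) + 1) * (p - 1) := by
        intro i
        ring
      rw [sum_congr rfl (fun i _ => h6 i), sum_sub_distrib, sum_const, card_univ, Fintype.card_fin, nsmul_eq_mul, ← sum_mul]
      have h7 : (2 : ℤ) * ∑ i : Fin g, (((i : ℕ) : ℤ) + 1) = g * (g + 1) := by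
        have h8 := Finset.sum_range_id_mul_two g
        have h9 : ∑ i : Fin g, (((i : ℕ) : ℤ) + 1) = (∑ i ∈ range g, (i : ℤ)) + g := by
          rw [sum_add_distrib, sum_const, card_univ, Fintype.card_fin, nsmul_eq_mul, mul_one, Fin.sum_univ_eq_sum_range (fun i => (i : ℤ))]
        rw [h9]
        have h10 : (∑ i ∈ range g, (i : ℤ)) * 2 = g * (g - 1) := by
          have := congrArg (fun z : ℕ => (z : ℤ)) h8
          push_cast [Nat.cast_sub hg] at this
          exact this
        linarith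
      have hpz : (p : ℤ) = 2 * e + 1 := by exact_mod_cast hpe
      have hnz : (n : ℤ) = 2 * g + 1 := by exact_mod_cast hn
      rw [mul_sub, ← mul_assoc 2 (∑ i : Fin g, (((i : ℕ) : ℤ) + 1)), h7, hpz, hnz]
      ring
    have h4 : 2 * n * D = (p - 1) * g ^ 2 := by
      have : ((2 * n * D : ℕ) : ℤ) = (((p - 1) * g ^ 2 : ℕ) : ℤ) := by
        push_cast [Nat.cast_sub hp1.le]
        exact h3
      exact_mod_cast this
    rw [← h4]
    exact Nat.mul_le_mul_left _ hdegD

end

end Pool.Agent.X22.CM
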