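import Pool.Agent.X22.EQ9

set_option autoImplicit false

/-! Twisted Euler products of degree two at the central point: local computations. -/

namespace Pool.Agent.X22.EQ
open Finset Filter
open Pool.Agent.TH894.ND Pool.Agent.TH894.NE
open Pool.Agent.X22.ND (chi chi_abs chi_mod)

/-- the inverse of the local factor -/
noncomputable def tw (lam χ : ℝ) (p : ℕ) : ℝ := 1 - χ * lam / Real.sqrt p + χ ^ 2 / p

lemma tw_zero (lam : ℝ) (p : ℕ) : tw lam 0 p = 1 := by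
  unfold tw
  simp

lemma tw_pos (lam χ : ℝ) (p : ℕ) (hp : 2 ≤ p) (hl : |lam| ≤ 2) (hχ : |χ| ≤ 1) : 0 < tw lam χ p ∧ |Real.log (tw lam χ p)| ≤ 3 := by
  have hpr : (2 : ℝ) ≤ p := by exact_mod_cast hp
  have hp0 : (0 : ℝ) < p := by linarith
  obtain ⟨s, hs⟩ : ∃ s : ℝ, s = Real.sqrt p := ⟨_, rfl⟩
  have hs1 : 1.4 ≤ s := by rw [hs]; exact Real.le_sqrt_of_sq_le (by norm_num; linarith)
  have hs0 : 0 < s := by linarith
  have hss : s ^ 2 = p := by rw [hs]; exact Real.sq_sqrt hp0.le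
  obtain ⟨τ, hτ⟩ : ∃ τ : ℝ, τ = |χ| / s := ⟨_, rfl⟩
  have hτ0 : 0 ≤ τ := by rw [hτ]; positivity
  have hτ1 : τ ≤ 0.72 := by
    rw [hτ, div_le_iff₀ hs0]
    nlinarith
  have e1 : χ ^ 2 / p = τ ^ 2 := by rw [hτ, div_pow, hss, sq_abs]
  have e2 : |χ * lam / s| ≤ 2 * τ := by
    rw [abs_div, abs_mul, abs_of_pos hs0, hτ]
    calc |χ| * |lam| / s ≤ |χ| * 2 / s := by gcongr
      _ = _ := by ring
  have h1 : (1 - τ) ^ 2 ≤ tw lam χ p := by
    unfold tw
    rw [e1, ← hs]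
    have := (abs_le.1 e2).2
    nlinarith
  have h2 : tw lam χ p ≤ (1 + τ) ^ 2 := by
    unfold tw
    rw [e1, ← hs]
    have := (abs_le.1 e2).1
    nlinarith
  have h3 : 0.07 ≤ tw lam χ p := by
    refine le_trans ?_ h1
    nlinarith
  have h4 : tw lam χ p ≤ 3 := by
    refine h2.trans ?_
    nlinarith
  refine ⟨by linarith, ?_⟩
  rw [abs_le]
  constructor
  · rw [Real.le_log_iff_exp_le (by linarith)]
    refine le_trans ?_ h3
    have h5 := Real.exp_one_gt_d9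
    have h6 : Real.exp (-3) * (Real.exp 1 * Real.exp 1 * Real.exp 1) = 1 := by
      rw [← Real.exp_add, ← Real.exp_add, ← Real.exp_add]
      norm_num
    have h7 : (2.7 : ℝ) * 2.7 * 2.7 ≤ Real.exp 1 * Real.exp 1 * Real.exp 1 := by
      have h8 : (2.7 : ℝ) ≤ Real.exp 1 := by linarith
      gcongr
    have h9 := Real.exp_pos (-3)
    nlinarith
  · have h5 := Real.log_le_sub_one_of_pos (show 0 < tw lam χ p by linarith)
    linarith

lemma tw_exp (lam χ : ℝ) (p : ℕ) (hp : 64 ≤ p) (hl : |lam| ≤ 2) (hχ : χ ^ 2 = 1) :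
    |-Real.log (tw lam χ p) - (χ * lam / Real.sqrt p + (lam ^ 2 - 2) / 2 / p)| ≤ 57 / (p : ℝ) ^ (3 / 2 : ℝ) := by
  have hpr : (64 : ℝ) ≤ p := by exact_mod_cast hp
  have hp0 : (0 : ℝ) < p := by linarith
  rw [rpow_three_half]
  obtain ⟨s, hs⟩ : ∃ s : ℝ, s = Real.sqrt p := ⟨_, rfl⟩
  have hs1 : 8 ≤ s := by rw [hs]; exact Real.le_sqrt_of_sq_le (by norm_num; linarith)
  have hs0 : 0 < s := by linarith
  have hss : s ^ 2 = p := by rw [hs]; exact Real.sq_sqrt hp0.le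
  have hχ1 : |χ| = 1 := by
    have h1 : |χ| ^ 2 = 1 := by rw [sq_abs]; exact hχ
    have h2 : (|χ| - 1) * (|χ| + 1) = 0 := by linarith
    rcases mul_eq_zero.1 h2 with h | h
    · linarith
    · have := abs_nonneg χ
      linarith
  rw [← hs, ← hss]
  obtain ⟨t, ht⟩ : ∃ t : ℝ, t = χ * lam / s - 1 / s ^ 2 := ⟨_, rfl⟩
  have e1 : tw lam χ p = 1 - t := by
    unfold tw
    rw [← hs, ← hss, hχ, ht]
    ring
  have h0 : |χ * lam / s| ≤ 2 / s := by
    rw [abs_div, abs_mul, hχ1, one_mul, abs_of_pos hs0]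
    exact div_le_div_of_nonneg_right hl hs0.le
  have h1 : |t| ≤ 3 / s := by
    rw [ht]
    refine (abs_sub _ _).trans ?_
    rw [abs_of_pos (by positivity : 0 < 1 / s ^ 2)]
    have h2 : 1 / s ^ 2 ≤ 1 / s := by
      apply one_div_le_one_div_of_le hs0
      nlinarith
    have h3 : (3 : ℝ) / s = 2 / s + 1 / s := by ring
    rw [h3]
    linarith
  have h2 : |t| ≤ 1 / 2 := by
    refine h1.trans ?_
    rw [div_le_iff₀ hs0]
    linarith
  have h3 := log_exp t h2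
  have h4 : 2 * |t| ^ 3 ≤ 54 / s ^ 3 := by
    calc 2 * |t| ^ 3 ≤ 2 * (3 / s) ^ 3 := by gcongr
      _ = _ := by ring
  have e2 : -Real.log (tw lam χ p) - (χ * lam / s + (lam ^ 2 - 2) / 2 / s ^ 2) =
      -(Real.log (1 - t) + t + t ^ 2 / 2) + (-(χ * lam / s) / s ^ 2 + 1 / (2 * s ^ 4)) := by
    rw [e1]
    have e3 : t + t ^ 2 / 2 = χ * lam / s + (lam ^ 2 - 2) / 2 / s ^ 2 + (-(χ * lam / s) / s ^ 2 + 1 / (2 * s ^ 4)) := by
      have e4 : t ^ 2 = lam ^ 2 / s ^ 2 - 2 * (χ * lam / s) / s ^ 2 + 1 / s ^ 4 := by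
        have e5 : t ^ 2 = χ ^ 2 * lam ^ 2 / s ^ 2 - 2 * (χ * lam / s) / s ^ 2 + 1 / s ^ 4 := by
          rw [ht]
          field_simp
          ring
        rw [e5, hχ, one_mul]
      rw [e4, ht]
      field_simp
      ring
    linarith
  rw [e2]
  refine (abs_add_le _ _).trans ?_
  rw [abs_neg]
  have h5 : |-(χ * lam / s) / s ^ 2 + 1 / (2 * s ^ 4)| ≤ 3 / s ^ 3 := by
    refine (abs_add_le _ _).trans ?_
    rw [abs_div, abs_neg, abs_of_pos (by positivity : 0 < s ^ 2), abs_of_pos (by positivity : 0 < 1 / (2 * s ^ 4))]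
    have h6 : |χ * lam / s| / s ^ 2 ≤ 2 / s / s ^ 2 := div_le_div_of_nonneg_right h0 (by positivity)
    have h7 : 1 / (2 * s ^ 4) ≤ 1 / s ^ 3 := by
      apply one_div_le_one_div_of_le (by positivity)
      have : 0 < s ^ 3 := by positivity
      nlinarith
    have h8 : 2 / s / s ^ 2 = 2 / s ^ 3 := by
      field_simp
    rw [h8] at h6
    have h9 : (3 : ℝ) / s ^ 3 = 2 / s ^ 3 + 1 / s ^ 3 := by ring
    rw [h9]
    linarith
  have h6 : (57 : ℝ) / s ^ 3 = 54 / s ^ 3 + 3 / s ^ 3 := by ring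
  rw [h6]
  linarith

section
variable {κ : Type} (L : Finset κ) (u lam : κ → ℝ) (p : ℕ)

/-- the logarithm of a product of powers of the local factors -/
noncomputable def hf (χ : ℝ) : ℝ := ∑ l ∈ L, u l * -Real.log (tw (lam l) χ p)

lemma hf_zero : hf L u lam p 0 = 0 := by
  unfold hf
  refine sum_eq_zero fun l _ => ?_
  rw [tw_zero, Real.log_one, neg_zero, mul_zero]

lemma hf_size (U : ℝ) (hU : ∑ l ∈ L, |u l| ≤ U) (hlam : ∀ l ∈ L, |lam l| ≤ 2) (hp : 2 ≤ p) (χ : ℝ) (hχ : |χ| ≤ 1) : |hf L u lam p χ| ≤ 3 * U := by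
  unfold hf
  refine (abs_sum_le_sum_abs _ _).trans ?_
  have h1 : ∀ l ∈ L, |u l * -Real.log (tw (lam l) χ p)| ≤ |u l| * 3 := by
    intro l hl
    rw [abs_mul, abs_neg]
    exact mul_le_mul_of_nonneg_left (tw_pos (lam l) χ p hp (hlam l hl) hχ).2 (abs_nonneg _)
  refine (sum_le_sum h1).trans ?_
  rw [← sum_mul]
  linarith

lemma hf_exp (U : ℝ) (hU : ∑ l ∈ L, |u l| ≤ U) (hlam : ∀ l ∈ L, |lam l| ≤ 2) (hp : 64 ≤ p) (χ : ℝ) (hχ : χ ^ 2 = 1) :
    |hf L u lam p χ - (χ * (∑ l ∈ L, u l * lam l) / Real.sqrt p + (∑ l ∈ L, u l * ((lam l ^ 2 - 2) / 2)) / p)| ≤ 57 * U / (p : ℝ) ^ (3 / 2 : ℝ) := by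
  have h1 : hf L u lam p χ - (χ * (∑ l ∈ L, u l * lam l) / Real.sqrt p + (∑ l ∈ L, u l * ((lam l ^ 2 - 2) / 2)) / p) =
      ∑ l ∈ L, u l * (-Real.log (tw (lam l) χ p) - (χ * lam l / Real.sqrt p + (lam l ^ 2 - 2) / 2 / p)) := by
    unfold hf
    rw [mul_sum, sum_div, sum_div, ← sum_add_distrib, ← sum_sub_distrib]
    refine sum_congr rfl fun l _ => ?_
    ring
  rw [h1]
  refine (abs_sum_le_sum_abs _ _).trans ?_
  have h2 : ∀ l ∈ L, |u l * (-Real.log (tw (lam l) χ p) - (χ * lam l / Real.sqrt p + (lam l ^ 2 - 2) / 2 / p))| ≤ |u l| * (57 / (p : ℝ) ^ (3 / 2 : ℝ)) := by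
    intro l hl
    rw [abs_mul]
    exact mul_le_mul_of_nonneg_left (tw_exp (lam l) χ p hp (hlam l hl) hχ) (abs_nonneg _)
  refine (sum_le_sum h2).trans ?_
  rw [← sum_mul]
  calc (∑ l ∈ L, |u l|) * (57 / (p : ℝ) ^ (3 / 2 : ℝ)) ≤ U * (57 / (p : ℝ) ^ (3 / 2 : ℝ)) := by gcongr
    _ = _ := by ring

lemma WQ_size (U : ℝ) (hU : ∑ l ∈ L, |u l| ≤ U) (hlam : ∀ l ∈ L, |lam l| ≤ 2) :
    |∑ l ∈ L, u l * lam l| ≤ 2 * U ∧ |∑ l ∈ L, u l * ((lam l ^ 2 - 2) / 2)| ≤ U := by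
  constructor
  · refine (abs_sum_le_sum_abs _ _).trans ?_
    have h2 : ∀ l ∈ L, |u l * lam l| ≤ |u l| * 2 := by
      intro l hl
      rw [abs_mul]
      exact mul_le_mul_of_nonneg_left (hlam l hl) (abs_nonneg _)
    refine (sum_le_sum h2).trans ?_
    rw [← sum_mul]
    linarith
  · refine (abs_sum_le_sum_abs _ _).trans ?_
    have h2 : ∀ l ∈ L, |u l * ((lam l ^ 2 - 2) / 2)| ≤ |u l| := by
      intro l hl
      rw [abs_mul]
      have h3 : |(lam l ^ 2 - 2) / 2| ≤ 1 := by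
        have h4 : lam l ^ 2 ≤ 4 := by
          rw [← sq_abs]
          have := hlam l hl
          nlinarith [abs_nonneg (lam l)]
        rw [abs_le]
        constructor <;> nlinarith [sq_nonneg (lam l)]
      calc |u l| * |(lam l ^ 2 - 2) / 2| ≤ |u l| * 1 := mul_le_mul_of_nonneg_left h3 (abs_nonneg _)
        _ = _ := mul_one _
    exact (sum_le_sum h2).trans hU

lemma hf_local (U : ℝ) (hU : ∑ l ∈ L, |u l| ≤ U) (hlam : ∀ l ∈ L, |lam l| ≤ 2) (hp' : p.Prime) (hp : 64 ≤ p) :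
    (∀ n : ℕ, |hf L u lam p (chi p n)| ≤ |∑ l ∈ L, u l * lam l| / Real.sqrt p + 58 * U / p) ∧
    |mean 1 p (fun m => hf L u lam p (chi p (m 0))) - (∑ l ∈ L, u l * ((lam l ^ 2 - 2) / 2)) / p| ≤ 58 * U / (p : ℝ) ^ (3 / 2 : ℝ) ∧
    |mean 1 p (fun m => hf L u lam p (chi p (m 0)) ^ 2) - (∑ l ∈ L, u l * lam l) ^ 2 / p| ≤ 3600 * U ^ 2 / (p : ℝ) ^ (3 / 2 : ℝ) := by
  have hpr : (64 : ℝ) ≤ p := by exact_mod_cast hp
  have hp0 : (0 : ℝ) < p := by linarith
  have hU0 : 0 ≤ U := (sum_nonneg fun l _ => abs_nonneg (u l)).trans hU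
  obtain ⟨hW, hQ⟩ := WQ_size L u lam U hU hlam
  have he1 := hf_exp L u lam p U hU hlam hp 1 (by norm_num)
  have he2 := hf_exp L u lam p U hU hlam hp (-1) (by norm_num)
  obtain ⟨W, hWe⟩ : ∃ W : ℝ, W = ∑ l ∈ L, u l * lam l := ⟨_, rfl⟩
  obtain ⟨Q, hQe⟩ : ∃ Q : ℝ, Q = ∑ l ∈ L, u l * ((lam l ^ 2 - 2) / 2) := ⟨_, rfl⟩
  rw [← hWe] at hW he1 he2 ⊢
  rw [← hQe] at hQ he1 he2 ⊢
  obtain ⟨s, hs⟩ : ∃ s : ℝ, s = Real.sqrt p := ⟨_, rfl⟩
  have hs1 : 8 ≤ s := by rw [hs]; exact Real.le_sqrt_of_sq_le (by norm_num; linarith)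
  have hs0 : 0 < s := by linarith
  have hss : s ^ 2 = p := by rw [hs]; exact Real.sq_sqrt hp0.le
  rw [rpow_three_half, ← hs, ← hss] at he1 he2 ⊢
  rw [one_mul] at he1
  rw [neg_one_mul, neg_div] at he2
  obtain ⟨a, ha⟩ : ∃ a : ℝ, a = hf L u lam p 1 := ⟨_, rfl⟩
  obtain ⟨c, hc⟩ : ∃ c : ℝ, c = hf L u lam p (-1) := ⟨_, rfl⟩
  rw [← ha] at he1
  rw [← hc] at he2
  obtain ⟨R, hR⟩ : ∃ R : ℝ, R = 57 * U / s ^ 3 := ⟨_, rfl⟩
  rw [← hR] at he1 he2
  have hR0 : 0 ≤ R := by rw [hR]; positivity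
  have hQs : |Q / s ^ 2| ≤ U / s ^ 2 := by
    rw [abs_div, abs_of_pos (by positivity : 0 < s ^ 2)]
    exact div_le_div_of_nonneg_right hQ (by positivity)
  have hRs : R ≤ 57 * U / s ^ 2 := by
    rw [hR]
    apply div_le_div_of_nonneg_left (by positivity) (by positivity)
    nlinarith [sq_nonneg s]
  have hUs : 58 * U / s ^ 2 = 57 * U / s ^ 2 + U / s ^ 2 := by ring
  -- the differences from the main terms
  have ha1 : |a - W / s| ≤ 58 * U / s ^ 2 := by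
    have : a - W / s = (a - (W / s + Q / s ^ 2)) + Q / s ^ 2 := by ring
    rw [this]
    refine (abs_add_le _ _).trans ?_
    linarith
  have hc1 : |c - -(W / s)| ≤ 58 * U / s ^ 2 := by
    have : c - -(W / s) = (c - (-(W / s) + Q / s ^ 2)) + Q / s ^ 2 := by ring
    rw [this]
    refine (abs_add_le _ _).trans ?_
    linarith
  have hWs : |W / s| = |W| / s := by rw [abs_div, abs_of_pos hs0]
  have hWs2 : |W| / s ≤ 2 * U / s := div_le_div_of_nonneg_right hW hs0.le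
  have haa : |a| ≤ |W| / s + 58 * U / s ^ 2 := by
    have : a = W / s + (a - W / s) := by ring
    rw [this]
    refine (abs_add_le _ _).trans ?_
    rw [hWs]
    linarith
  have hcc : |c| ≤ |W| / s + 58 * U / s ^ 2 := by
    have : c = -(W / s) + (c - -(W / s)) := by ring
    rw [this]
    refine (abs_add_le _ _).trans ?_
    rw [abs_neg, hWs]
    linarith
  refine ⟨?_, ?_, ?_⟩
  · intro n
    rcases chi_three p n with h | h | h
    · rw [h, hf_zero, abs_zero]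
      positivity
    · rw [h, ← ha]
      exact haa
    · rw [h, ← hc]
      exact hcc
  · rw [mean_chi p hp' (by omega) (fun χ => hf L u lam p χ), hf_zero, ← ha, ← hc, ← hss]
    have e1 : ((s ^ 2 - 1) / 2 * (a + c) + 0) / s ^ 2 - Q / s ^ 2 =
        (1 - 1 / s ^ 2) * (((a - (W / s + Q / s ^ 2)) + (c - (-(W / s) + Q / s ^ 2))) / 2) - (Q / s ^ 2) / s ^ 2 := by
      field_simp
      ring
    rw [e1]
    refine (abs_sub _ _).trans ?_
    rw [abs_mul, abs_div, abs_of_pos (by norm_num : (0 : ℝ) < 2), abs_div (Q / s ^ 2), abs_of_pos (by positivity : 0 < s ^ 2)]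
    have h1 : |(a - (W / s + Q / s ^ 2)) + (c - (-(W / s) + Q / s ^ 2))| / 2 ≤ R := by
      have := abs_add_le (a - (W / s + Q / s ^ 2)) (c - (-(W / s) + Q / s ^ 2))
      linarith
    have h2 : |1 - 1 / s ^ 2| ≤ 1 := by
      have h3 : 1 / s ^ 2 ≤ 1 := by
        rw [div_le_one (by positivity)]
        nlinarith
      have h4 : 0 < 1 / s ^ 2 := by positivity
      rw [abs_le]
      constructor <;> linarith
    have h3 : |1 - 1 / s ^ 2| * (|(a - (W / s + Q / s ^ 2)) + (c - (-(W / s) + Q / s ^ 2))| / 2) ≤ 1 * R :=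
      mul_le_mul h2 h1 (by positivity) (by norm_num)
    have h4 : |Q / s ^ 2| / s ^ 2 ≤ U / s ^ 3 := by
      calc |Q / s ^ 2| / s ^ 2 ≤ (U / s ^ 2) / s ^ 2 := div_le_div_of_nonneg_right hQs (by positivity)
        _ = U / s ^ 4 := by field_simp
        _ ≤ U / s ^ 3 := by
            apply div_le_div_of_nonneg_left hU0 (by positivity)
            have : 0 < s ^ 3 := by positivity
            nlinarith
    have h5 : 58 * U / s ^ 3 = R + U / s ^ 3 := by rw [hR]; ring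
    rw [h5]
    linarith
  · rw [mean_chi p hp' (by omega) (fun χ => hf L u lam p χ ^ 2), hf_zero, ← ha, ← hc, ← hss]
    have e1 : ((s ^ 2 - 1) / 2 * (a ^ 2 + c ^ 2) + 0 ^ 2) / s ^ 2 - W ^ 2 / s ^ 2 =
        (1 - 1 / s ^ 2) * (((a ^ 2 - (W / s) ^ 2) + (c ^ 2 - (W / s) ^ 2)) / 2) - (W / s) ^ 2 / s ^ 2 := by
      field_simp
      ring
    rw [e1]
    refine (abs_sub _ _).trans ?_
    rw [abs_mul, abs_div, abs_of_pos (by norm_num : (0 : ℝ) < 2), abs_of_nonneg (by positivity : 0 ≤ (W / s) ^ 2 / s ^ 2)]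
    have hsq : ∀ x : ℝ, (|x - W / s| ≤ 58 * U / s ^ 2 ∨ |x - -(W / s)| ≤ 58 * U / s ^ 2) → |x ^ 2 - (W / s) ^ 2| ≤ 3596 * U ^ 2 / s ^ 3 := by
      intro x hx
      have h1 : |x - W / s| * |x + W / s| ≤ (58 * U / s ^ 2) * (4 * U / s + 58 * U / s ^ 2) := by
        rcases hx with hx | hx
        · apply mul_le_mul hx _ (abs_nonneg _) (by positivity)
          have : x + W / s = (x - W / s) + 2 * (W / s) := by ring
          rw [this]
          refine (abs_add_le _ _).trans ?_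
          rw [abs_mul, hWs, abs_of_pos (by norm_num : (0 : ℝ) < 2)]
          have e3 : 4 * U / s = 2 * (2 * U / s) := by ring
          rw [e3]
          linarith
        · rw [mul_comm]
          have e4 : x + W / s = x - -(W / s) := by ring
          rw [e4]
          apply mul_le_mul hx _ (abs_nonneg _) (by positivity)
          have : x - W / s = (x - -(W / s)) - 2 * (W / s) := by ring
          rw [this]
          refine (abs_sub _ _).trans ?_
          rw [abs_mul, hWs, abs_of_pos (by norm_num : (0 : ℝ) < 2)]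
          have e3 : 4 * U / s = 2 * (2 * U / s) := by ring
          rw [e3]
          linarith
      have h2 : x ^ 2 - (W / s) ^ 2 = (x - W / s) * (x + W / s) := by ring
      rw [h2, abs_mul]
      refine h1.trans ?_
      have h3 : (58 * U / s ^ 2) * (4 * U / s + 58 * U / s ^ 2) = 232 * U ^ 2 / s ^ 3 + 3364 * U ^ 2 / s ^ 4 := by
        field_simp
        ring
      rw [h3]
      have h4 : 3364 * U ^ 2 / s ^ 4 ≤ 3364 * U ^ 2 / s ^ 3 := by
        apply div_le_div_of_nonneg_left (by positivity) (by positivity)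
        have : 0 < s ^ 3 := by positivity
        nlinarith
      have h5 : 3596 * U ^ 2 / s ^ 3 = 232 * U ^ 2 / s ^ 3 + 3364 * U ^ 2 / s ^ 3 := by ring
      rw [h5]
      linarith
    have h1 := hsq a (Or.inl ha1)
    have h2 := hsq c (Or.inr hc1)
    have h3 : |(a ^ 2 - (W / s) ^ 2) + (c ^ 2 - (W / s) ^ 2)| / 2 ≤ 3596 * U ^ 2 / s ^ 3 := by
      have := abs_add_le (a ^ 2 - (W / s) ^ 2) (c ^ 2 - (W / s) ^ 2)
      linarith
    have h4 : |1 - 1 / s ^ 2| ≤ 1 := by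
      have h3 : 1 / s ^ 2 ≤ 1 := by
        rw [div_le_one (by positivity)]
        nlinarith
      have h4 : 0 < 1 / s ^ 2 := by positivity
      rw [abs_le]
      constructor <;> linarith
    have h5 : |1 - 1 / s ^ 2| * (|(a ^ 2 - (W / s) ^ 2) + (c ^ 2 - (W / s) ^ 2)| / 2) ≤ 1 * (3596 * U ^ 2 / s ^ 3) :=
      mul_le_mul h4 h3 (by positivity) (by norm_num)
    have h6 : (W / s) ^ 2 / s ^ 2 ≤ 4 * U ^ 2 / s ^ 3 := by
      have h7 : (W / s) ^ 2 ≤ (2 * U / s) ^ 2 := by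
        rw [← sq_abs, hWs]
        exact pow_le_pow_left₀ (by positivity) hWs2 2
      calc (W / s) ^ 2 / s ^ 2 ≤ (2 * U / s) ^ 2 / s ^ 2 := div_le_div_of_nonneg_right h7 (by positivity)
        _ = 4 * U ^ 2 / s ^ 4 := by
            field_simp
            ring
        _ ≤ 4 * U ^ 2 / s ^ 3 := by
            apply div_le_div_of_nonneg_left (by positivity) (by positivity)
            have : 0 < s ^ 3 := by positivity
            nlinarith
    have h7 : 3600 * U ^ 2 / s ^ 3 = 3596 * U ^ 2 / s ^ 3 + 4 * U ^ 2 / s ^ 3 := by ring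
    rw [h7]
    linarith

end

end Pool.Agent.X22.EQ
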