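import Pool.Agent.X22.ND4

/-!
# Sums over the primes of a number field: reduction to the primes of degree one
-/

set_option autoImplicit false

namespace Pool.Agent.X22.NF

open NumberField IsDedekindDomain Finset Module
open Pool.Agent.X22.ND (op mem_op)

section
variable (F : Type) [Field F] [NumberField F]

lemma finite_pr (x : ℕ) : {v : HeightOneSpectrum (𝓞 F) | Ideal.absNorm v.asIdeal ≤ x ∧ (2 : 𝓞 F) ∉ v.asIdeal}.Finite := by
  have h1 := Ideal.finite_setOfPred_absNorm_le (S := 𝓞 F) x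
  refine Set.Finite.of_finite_image (f := fun v : HeightOneSpectrum (𝓞 F) => v.asIdeal) (h1.subset ?_) ?_
  · rintro _ ⟨v, hv, rfl⟩
    exact hv.1
  · intro v _ w _ h
    exact HeightOneSpectrum.ext h

/-- the primes of norm at most `x` not above `2` -/
noncomputable def pr (x : ℕ) : Finset (HeightOneSpectrum (𝓞 F)) := (finite_pr F x).toFinset

lemma mem_pr (x : ℕ) (v : HeightOneSpectrum (𝓞 F)) : v ∈ pr F x ↔ Ideal.absNorm v.asIdeal ≤ x ∧ (2 : 𝓞 F) ∉ v.asIdeal := by
  unfold pr
  rw [Set.Finite.mem_toFinset]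
  rfl

variable {F}

lemma card_above (p : ℕ) (hp : p.Prime) (S : Finset (HeightOneSpectrum (𝓞 F))) (hS : ∀ v ∈ S, (p : 𝓞 F) ∈ v.asIdeal) :
    S.card ≤ finrank ℚ F := by
  classical
  have hpm : (Ideal.span {(p : ℤ)} : Ideal ℤ).IsMaximal :=
    PrincipalIdealRing.isMaximal_of_irreducible (Nat.prime_iff_prime_int.1 hp).irreducible
  have hp0 : (Ideal.span {(p : ℤ)} : Ideal ℤ) ≠ ⊥ := by
    rw [Ne, Ideal.span_singleton_eq_bot]
    exact_mod_cast hp.ne_zero
  have hle := Ideal.card_primesOverFinset_le_finrank (𝓞 F) ℚ F hp0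
  refine le_trans ?_ hle
  apply Finset.card_le_card_of_injOn (fun v : HeightOneSpectrum (𝓞 F) => v.asIdeal)
  · intro v hv
    rw [Finset.mem_coe, IsDedekindDomain.mem_primesOverFinset_iff hp0]
    refine ⟨v.isPrime, ⟨?_⟩⟩
    have h1 : Ideal.span {(p : ℤ)} ≤ v.asIdeal.under ℤ := by
      rw [Ideal.span_singleton_le_iff_mem, Ideal.mem_comap]
      have := hS v hv
      simpa using this
    refine hpm.eq_of_le ?_ h1
    have := v.isPrime
    exact (Ideal.IsPrime.under ℤ v.asIdeal).ne_top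
  · intro v _ w _ h
    exact HeightOneSpectrum.ext h

lemma exists_char (v : HeightOneSpectrum (𝓞 F)) : ∃ p f : ℕ, p.Prime ∧ 1 ≤ f ∧ (p : 𝓞 F) ∈ v.asIdeal ∧ Ideal.absNorm v.asIdeal = p ^ f := by
  classical
  have hmax : v.asIdeal.IsMaximal := v.isMaximal
  letI : Field (𝓞 F ⧸ v.asIdeal) := Ideal.Quotient.field v.asIdeal
  have hfin : Finite (𝓞 F ⧸ v.asIdeal) := Ideal.finiteQuotientOfFreeOfNeBot v.asIdeal v.ne_bot
  letI := Fintype.ofFinite (𝓞 F ⧸ v.asIdeal)
  obtain ⟨p, hc, n, hp, hn⟩ := FiniteField.card' (𝓞 F ⧸ v.asIdeal)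
  refine ⟨p, n, hp, n.pos, ?_, ?_⟩
  · rw [← Ideal.Quotient.eq_zero_iff_mem, map_natCast]
    exact CharP.cast_eq_zero _ p
  · rw [← hn, ← Nat.card_eq_fintype_card]
    rfl

lemma two_notMem {v : HeightOneSpectrum (𝓞 F)} (h : (2 : 𝓞 F) ∉ v.asIdeal) {p : ℕ} (hpv : (p : 𝓞 F) ∈ v.asIdeal) : p ≠ 2 := by
  rintro rfl
  exact h (by exact_mod_cast hpv)

lemma natCast_absNorm (v : HeightOneSpectrum (𝓞 F)) (hp : (Ideal.absNorm v.asIdeal).Prime) :
    ((Ideal.absNorm v.asIdeal : ℕ) : 𝓞 F) ∈ v.asIdeal := Ideal.absNorm_mem v.asIdeal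

/-- the residue field of a prime of degree one -/
noncomputable def resEquiv (v : HeightOneSpectrum (𝓞 F)) (p : ℕ) (hp : p.Prime) (h : Ideal.absNorm v.asIdeal = p) :
    ZMod p ≃+* (𝓞 F ⧸ v.asIdeal) :=
  haveI : Finite (𝓞 F ⧸ v.asIdeal) := Ideal.finiteQuotientOfFreeOfNeBot v.asIdeal v.ne_bot
  letI := Fintype.ofFinite (𝓞 F ⧸ v.asIdeal)
  ZMod.ringEquivOfPrime (𝓞 F ⧸ v.asIdeal) hp (by
    rw [← h, ← Nat.card_eq_fintype_card]
    rfl)

lemma card_fiber_le (x : ℕ) (p : ℕ) (hp : p.Prime) : ((pr F x).filter (fun v => Ideal.absNorm v.asIdeal = p)).card ≤ finrank ℚ F := by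
  apply card_above p hp
  intro v hv
  rw [mem_filter] at hv
  rw [← hv.2]
  exact Ideal.absNorm_mem v.asIdeal

open Classical in
lemma card_nonprime_le (x : ℕ) : ((pr F x).filter (fun v => ¬ (Ideal.absNorm v.asIdeal).Prime)).card ≤ finrank ℚ F * (Nat.sqrt x + 1) := by
  choose q f hq hf hqv hN using fun v : HeightOneSpectrum (𝓞 F) => exists_char v
  have h1 : ((pr F x).filter (fun v => ¬ (Ideal.absNorm v.asIdeal).Prime)).card ≤
      finrank ℚ F * (range (Nat.sqrt x + 1)).card := by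
    apply card_le_mul_card_image_of_maps_to (f := q)
    · intro v hv
      rw [mem_filter, mem_pr] at hv
      rw [mem_range, Nat.lt_succ_iff, Nat.le_sqrt]
      have h2 : 2 ≤ f v := by
        by_contra hcon
        have h3 : f v = 1 := by have := hf v; omega
        apply hv.2
        rw [hN v, h3, pow_one]
        exact hq v
      calc q v * q v = q v ^ 2 := by ring
        _ ≤ q v ^ f v := Nat.pow_le_pow_right (hq v).pos h2
        _ ≤ x := by rw [← hN v]; exact hv.1.1
    · intro p hp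
      by_cases hpp : p.Prime
      · apply card_above p hpp
        intro v hv
        rw [mem_filter] at hv
        rw [← hv.2]
        exact hqv v
      · rw [filter_false_of_mem, card_empty]
        · exact Nat.zero_le _
        · intro v _ h
          exact hpp (h ▸ hq v)
  rwa [card_range] at h1

open Classical in
/-- reduction to the primes of degree one -/
lemma split (x : ℕ) (T : HeightOneSpectrum (𝓞 F) → ℝ) (B : ℝ) (hB : ∀ v ∈ pr F x, |T v| ≤ B) (hB0 : 0 ≤ B) :
    |∑ v ∈ pr F x, T v - ∑ p ∈ op x, ∑ v ∈ (pr F x).filter (fun v => Ideal.absNorm v.asIdeal = p), T v| ≤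
      finrank ℚ F * (Nat.sqrt x + 1) * B := by
  have h1 : ∑ p ∈ op x, ∑ v ∈ (pr F x).filter (fun v => Ideal.absNorm v.asIdeal = p), T v =
      ∑ v ∈ (pr F x).filter (fun v => (Ideal.absNorm v.asIdeal).Prime), T v := by
    rw [← sum_fiberwise_of_maps_to (g := fun v : HeightOneSpectrum (𝓞 F) => Ideal.absNorm v.asIdeal) (t := op x)]
    · apply sum_congr rfl
      intro p hp
      rw [mem_op] at hp
      apply sum_congr _ (fun _ _ => rfl)
      rw [filter_filter]
      apply filter_congr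
      intro v _
      constructor
      · intro h
        exact ⟨h ▸ hp.2.1, h⟩
      · intro h
        exact h.2
    · intro v hv
      rw [mem_filter, mem_pr] at hv
      rw [mem_op]
      exact ⟨hv.1.1, hv.2, two_notMem hv.1.2 (Ideal.absNorm_mem v.asIdeal)⟩
  rw [h1, ← sum_filter_add_sum_filter_not (pr F x) (fun v => (Ideal.absNorm v.asIdeal).Prime), add_sub_cancel_left]
  refine (abs_sum_le_sum_abs _ _).trans ?_
  refine (sum_le_sum (fun v hv => hB v (mem_filter.1 hv).1)).trans ?_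
  rw [sum_const, nsmul_eq_mul]
  apply mul_le_mul_of_nonneg_right _ hB0
  have := card_nonprime_le (F := F) x
  exact_mod_cast this

open Classical in
/-- reduction to the primes of degree one -/
lemma splitC (x : ℕ) (T : HeightOneSpectrum (𝓞 F) → ℂ) (B : ℝ) (hB : ∀ v ∈ pr F x, ‖T v‖ ≤ B) (hB0 : 0 ≤ B) :
    ‖∑ v ∈ pr F x, T v - ∑ p ∈ op x, ∑ v ∈ (pr F x).filter (fun v => Ideal.absNorm v.asIdeal = p), T v‖ ≤
      finrank ℚ F * (Nat.sqrt x + 1) * B := by
  have h1 : ∑ p ∈ op x, ∑ v ∈ (pr F x).filter (fun v => Ideal.absNorm v.asIdeal = p), T v =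
      ∑ v ∈ (pr F x).filter (fun v => (Ideal.absNorm v.asIdeal).Prime), T v := by
    rw [← sum_fiberwise_of_maps_to (g := fun v : HeightOneSpectrum (𝓞 F) => Ideal.absNorm v.asIdeal) (t := op x)]
    · apply sum_congr rfl
      intro p hp
      rw [mem_op] at hp
      apply sum_congr _ (fun _ _ => rfl)
      rw [filter_filter]
      apply filter_congr
      intro v _
      constructor
      · intro h
        exact ⟨h ▸ hp.2.1, h⟩
      · intro h
        exact h.2
    · intro v hv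
      rw [mem_filter, mem_pr] at hv
      rw [mem_op]
      exact ⟨hv.1.1, hv.2, two_notMem hv.1.2 (Ideal.absNorm_mem v.asIdeal)⟩
  rw [h1, ← sum_filter_add_sum_filter_not (pr F x) (fun v => (Ideal.absNorm v.asIdeal).Prime), add_sub_cancel_left]
  refine (norm_sum_le _ _).trans ?_
  refine (sum_le_sum (fun v hv => hB v (mem_filter.1 hv).1)).trans ?_
  rw [sum_const, nsmul_eq_mul]
  apply mul_le_mul_of_nonneg_right _ hB0
  have := card_nonprime_le (F := F) x
  exact_mod_cast this

end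

end Pool.Agent.X22.NF
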