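import Pool.Agent.X22.EQ6

set_option autoImplicit false

/-! The second moment of the logarithm of the local factor; the curves with bad reduction left out. -/

namespace Pool.Agent.X22.EQ
open Finset Filter
open Pool.Agent.TH894.ND Pool.Agent.TH894.NE
open Pool.Agent.X22.EC (tq tq_eq sum_two sum_odd lf lf_single)

/-- the second moment of the logarithm of the local factor -/
lemma mean_log_sq (p : ℕ) (hp' : p.Prime) (hp : 64 ≤ p) (w : ℝ) (hw : |w| ≤ 1) : haveI : Fact p.Prime := ⟨hp'⟩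
    |(∑ z : ZMod p × ZMod p, Real.log (1 - w * (tq z.1 z.2 : ℝ) / p + 1 / p) ^ 2) / (p : ℝ) ^ 2 - w ^ 2 / p| ≤ 123 / (p : ℝ) ^ (3 / 2 : ℝ) := by
  have hf : Fact p.Prime := ⟨hp'⟩
  have h2 : p ≠ 2 := by omega
  have h3 : ringChar (ZMod p) ≠ 2 := by
    rw [ZMod.ringChar_zmod_n]
    exact h2
  have hpr : (64 : ℝ) ≤ p := by exact_mod_cast hp
  have hp0 : (0 : ℝ) < p := by linarith
  have hs1 : 8 ≤ Real.sqrt p := Real.le_sqrt_of_sq_le (by norm_num; linarith)
  have hs0 : 0 < Real.sqrt p := by linarith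
  have hss : Real.sqrt p * Real.sqrt p = p := Real.mul_self_sqrt hp0.le
  have hbd : ∀ z : ZMod p × ZMod p, |(tq z.1 z.2 : ℝ)| ≤ 2 * Real.sqrt p := by
    intro z
    have := Pool.Agent.X22.EC.tq_bound h3 z.1 z.2
    rwa [Nat.card_eq_fintype_card, ZMod.card] at this
  obtain ⟨x, hx⟩ : ∃ x : ZMod p × ZMod p → ℝ, x = fun z => (w * (tq z.1 z.2 : ℝ) - 1) / p := ⟨_, rfl⟩
  have hR : ∀ z, |Real.log (1 - x z) ^ 2 - x z ^ 2| ≤ 122 / (p : ℝ) ^ (3 / 2 : ℝ) := by
    intro z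
    obtain ⟨h4, h5⟩ := var_le p hp w _ hw (hbd z)
    have h6 : |x z| ≤ 3 / Real.sqrt p := by rw [hx]; exact h4
    have h7 : |x z| ≤ 1 / 2 := by rw [hx]; exact h5
    have h8 := log_exp (x z) h7
    have h9 : 0 ≤ |x z| := abs_nonneg _
    have h10 : |Real.log (1 - x z) + x z| ≤ 3 / 2 * |x z| ^ 2 := by
      have e1 : Real.log (1 - x z) + x z = (Real.log (1 - x z) + x z + x z ^ 2 / 2) - x z ^ 2 / 2 := by ring
      rw [e1]
      refine (abs_sub _ _).trans ?_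
      rw [abs_of_nonneg (by positivity : (0 : ℝ) ≤ x z ^ 2 / 2)]
      have e4 : x z ^ 2 = |x z| ^ 2 := (sq_abs (x z)).symm
      have e5 : |x z| ^ 3 ≤ |x z| ^ 2 / 2 := by nlinarith [mul_nonneg (mul_nonneg h9 h9) (sub_nonneg.2 h7)]
      linarith
    have h11 : |Real.log (1 - x z) - x z| ≤ 3 * |x z| := by
      have e1 : Real.log (1 - x z) - x z = (Real.log (1 - x z) + x z) - 2 * x z := by ring
      rw [e1]
      refine (abs_sub _ _).trans ?_
      rw [abs_mul, abs_of_pos (by norm_num : (0 : ℝ) < 2)]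
      nlinarith [mul_nonneg h9 (sub_nonneg.2 h7)]
    have e2 : Real.log (1 - x z) ^ 2 - x z ^ 2 = (Real.log (1 - x z) + x z) * (Real.log (1 - x z) - x z) := by ring
    rw [e2, abs_mul, rpow_three_half]
    calc |Real.log (1 - x z) + x z| * |Real.log (1 - x z) - x z| ≤ (3 / 2 * |x z| ^ 2) * (3 * |x z|) :=
          mul_le_mul h10 h11 (abs_nonneg _) (by positivity)
      _ = 9 / 2 * |x z| ^ 3 := by ring
      _ ≤ 9 / 2 * (3 / Real.sqrt p) ^ 3 := by gcongr
      _ = (243 / 2) / Real.sqrt p ^ 3 := by ring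
      _ ≤ _ := by
          apply div_le_div_of_nonneg_right (by norm_num)
          positivity
  have hS2 : ∑ z, x z ^ 2 = w ^ 2 * (p - 1) + 1 := by
    have h4 : ∑ z : ZMod p × ZMod p, ((tq z.1 z.2 : ℤ) : ℝ) = 0 := Pool.Agent.X22.EC.sum_odd h3 (fun n => (n : ℝ)) (fun n => by push_cast; ring)
    have h5 := sum_tq_sq (p := p) h2
    have h6 : ∀ z : ZMod p × ZMod p, x z ^ 2 = (w ^ 2 / (p : ℝ) ^ 2) * (tq z.1 z.2 : ℝ) ^ 2 - (2 * w / (p : ℝ) ^ 2) * (tq z.1 z.2 : ℝ) + 1 / (p : ℝ) ^ 2 := by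
      intro z
      rw [hx]
      field_simp
      ring
    rw [sum_congr rfl fun z _ => h6 z, sum_add_distrib, sum_sub_distrib, ← mul_sum, ← mul_sum, h4, h5, mul_zero, sum_const, card_univ,
      Fintype.card_prod, ZMod.card, nsmul_eq_mul]
    push_cast
    field_simp
    ring
  have hlog : ∀ z : ZMod p × ZMod p, Real.log (1 - w * (tq z.1 z.2 : ℝ) / p + 1 / p) ^ 2 =
      (Real.log (1 - x z) ^ 2 - x z ^ 2) + x z ^ 2 := by
    intro z
    have e1 : 1 - w * (tq z.1 z.2 : ℝ) / p + 1 / p = 1 - x z := by rw [hx]; ring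
    rw [e1]
    ring
  rw [sum_congr rfl fun z _ => hlog z, sum_add_distrib, hS2]
  obtain ⟨R, hRe⟩ : ∃ R : ℝ, R = ∑ z, (Real.log (1 - x z) ^ 2 - x z ^ 2) := ⟨_, rfl⟩
  have hR1 : |R| ≤ (p : ℝ) ^ 2 * (122 / (p : ℝ) ^ (3 / 2 : ℝ)) := by
    rw [hRe]
    refine (abs_sum_le_sum_abs _ _).trans ((sum_le_sum fun z _ => hR z).trans (le_of_eq ?_))
    rw [sum_const, card_univ, Fintype.card_prod, ZMod.card, nsmul_eq_mul]
    push_cast
    ring
  rw [← hRe]
  have e2 : (R + (w ^ 2 * (p - 1) + 1)) / (p : ℝ) ^ 2 - w ^ 2 / p = R / (p : ℝ) ^ 2 + (1 - w ^ 2) / (p : ℝ) ^ 2 := by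
    field_simp
    ring
  rw [e2]
  have h8 : |R / (p : ℝ) ^ 2| ≤ 122 / (p : ℝ) ^ (3 / 2 : ℝ) := by
    rw [abs_div, abs_of_pos (by positivity : (0 : ℝ) < (p : ℝ) ^ 2), div_le_iff₀ (by positivity)]
    linarith
  have h9 : |(1 - w ^ 2) / (p : ℝ) ^ 2| ≤ 1 / (p : ℝ) ^ (3 / 2 : ℝ) := by
    rw [abs_div, abs_of_pos (by positivity : (0 : ℝ) < (p : ℝ) ^ 2), rpow_three_half]
    have hw2 : w ^ 2 ≤ 1 := by
      rw [← sq_abs]
      exact pow_le_one₀ (abs_nonneg _) hw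
    have h10 : |1 - w ^ 2| ≤ 1 := by
      rw [abs_le]
      constructor <;> nlinarith [sq_nonneg w]
    have h11 : Real.sqrt p ^ 3 ≤ (p : ℝ) ^ 2 := by
      have e3 : (p : ℝ) ^ 2 = Real.sqrt p ^ 3 * Real.sqrt p := by
        calc (p : ℝ) ^ 2 = (Real.sqrt p * Real.sqrt p) ^ 2 := by rw [hss]
          _ = _ := by ring
      rw [e3]
      have : 0 < Real.sqrt p ^ 3 := by positivity
      nlinarith
    rw [div_le_div_iff₀ (by positivity) (by positivity)]
    have h12 : 0 < Real.sqrt p ^ 3 := by positivity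
    nlinarith [abs_nonneg (1 - w ^ 2)]
  refine (abs_add_le _ _).trans ((add_le_add h8 h9).trans (le_of_eq (by ring)))

section
variable {p : ℕ} [hf : Fact p.Prime]

open Classical in
/-- the number of the singular curves -/
lemma card_sing (hp : 3 < p) : ((univ : Finset (ZMod p × ZMod p)).filter (fun z => 4 * z.1 ^ 3 + 27 * z.2 ^ 2 = 0)).card ≤ 2 * p := by
  have h27 : (27 : ZMod p) ≠ 0 := by
    have h1 : ((27 : ℕ) : ZMod p) ≠ 0 := by
      rw [Ne, ZMod.natCast_eq_zero_iff]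
      intro h
      have h2 : p ∣ 3 ^ 3 := by norm_num; exact h
      have h3 := hf.out.dvd_of_dvd_pow h2
      have := Nat.le_of_dvd (by norm_num) h3
      omega
    exact_mod_cast h1
  rw [card_filter, ← univ_product_univ, sum_product]
  have h1 : ∀ s : ZMod p, ∑ t : ZMod p, (if 4 * s ^ 3 + 27 * t ^ 2 = 0 then 1 else 0) ≤ 2 := by
    intro s
    rw [← card_filter]
    by_cases h : ∃ t₁ : ZMod p, 4 * s ^ 3 + 27 * t₁ ^ 2 = 0
    · obtain ⟨t₁, ht₁⟩ := h
      have h2 : (univ : Finset (ZMod p)).filter (fun t => 4 * s ^ 3 + 27 * t ^ 2 = 0) ⊆ {t₁, -t₁} := by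
        intro t ht
        rw [mem_filter] at ht
        have h3 : 27 * ((t - t₁) * (t + t₁)) = 0 := by linear_combination ht.2 - ht₁
        rcases mul_eq_zero.1 h3 with h4 | h4
        · exact absurd h4 h27
        · rw [mem_insert, mem_singleton]
          rcases mul_eq_zero.1 h4 with h5 | h5
          · left
            linear_combination h5
          · right
            linear_combination h5
      exact (card_le_card h2).trans card_le_two
    · push Not at h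
      rw [filter_false_of_mem (fun t _ => h t), card_empty]
      omega
  calc ∑ s : ZMod p, ∑ t : ZMod p, (if 4 * s ^ 3 + 27 * t ^ 2 = 0 then 1 else 0) ≤ ∑ s : ZMod p, 2 := sum_le_sum fun s _ => h1 s
    _ = 2 * p := by rw [sum_const, card_univ, ZMod.card, smul_eq_mul, mul_comm]

end

open Classical in
/-- the logarithm of the local factor, and zero if the curve is singular -/
noncomputable def gl (p : ℕ) [Fact p.Prime] (w : ℝ) (s t : ZMod p) : ℝ :=
  if 4 * s ^ 3 + 27 * t ^ 2 = 0 then 0 else Real.log (1 - w * (tq s t : ℝ) / p + 1 / p)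

lemma gl_size (p : ℕ) (hp' : p.Prime) (hp : 64 ≤ p) (w : ℝ) (hw : |w| ≤ 1) : haveI : Fact p.Prime := ⟨hp'⟩
    ∀ s t : ZMod p, 0 < 1 - w * (tq s t : ℝ) / p + 1 / p ∧ |Real.log (1 - w * (tq s t : ℝ) / p + 1 / p)| ≤ 6 / Real.sqrt p ∧
      |gl p w s t| ≤ 6 / Real.sqrt p := by
  have hf : Fact p.Prime := ⟨hp'⟩
  intro s t
  have h3 : ringChar (ZMod p) ≠ 2 := by
    rw [ZMod.ringChar_zmod_n]
    omega
  have hbd : |(tq s t : ℝ)| ≤ 2 * Real.sqrt p := by
    have := Pool.Agent.X22.EC.tq_bound h3 s t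
    rwa [Nat.card_eq_fintype_card, ZMod.card] at this
  obtain ⟨h1, h2⟩ := log_size p hp w _ hw hbd
  refine ⟨h1, h2, ?_⟩
  unfold gl
  split_ifs
  · rw [abs_zero]
    positivity
  · exact h2

/-- the means -/
lemma mean_gl (p : ℕ) (hp' : p.Prime) (hp : 64 ≤ p) (w : ℝ) (hw : |w| ≤ 1) : haveI : Fact p.Prime := ⟨hp'⟩
    |(∑ z : ZMod p × ZMod p, gl p w z.1 z.2) / (p : ℝ) ^ 2 - (1 - w ^ 2 / 2) / p| ≤ 67 / (p : ℝ) ^ (3 / 2 : ℝ) ∧
    |(∑ z : ZMod p × ZMod p, gl p w z.1 z.2 ^ 2) / (p : ℝ) ^ 2 - w ^ 2 / p| ≤ 195 / (p : ℝ) ^ (3 / 2 : ℝ) := by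
  classical
  have hf : Fact p.Prime := ⟨hp'⟩
  have hpr : (64 : ℝ) ≤ p := by exact_mod_cast hp
  have hp0 : (0 : ℝ) < p := by linarith
  have hs1 : 8 ≤ Real.sqrt p := Real.le_sqrt_of_sq_le (by norm_num; linarith)
  have hs0 : 0 < Real.sqrt p := by linarith
  have hss : Real.sqrt p * Real.sqrt p = p := Real.mul_self_sqrt hp0.le
  have hsz := gl_size p hp' hp w hw
  have hcard := card_sing (p := p) (by omega)
  have hcr : (((univ : Finset (ZMod p × ZMod p)).filter (fun z => 4 * z.1 ^ 3 + 27 * z.2 ^ 2 = 0)).card : ℝ) ≤ 2 * p := by exact_mod_cast hcard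
  have key : ∀ (k : ℕ) (R : ℝ), 0 ≤ R → 0 < k → (6 / Real.sqrt p) ^ k ≤ R / Real.sqrt p →
      |(∑ z : ZMod p × ZMod p, gl p w z.1 z.2 ^ k) / (p : ℝ) ^ 2 - (∑ z : ZMod p × ZMod p, Real.log (1 - w * (tq z.1 z.2 : ℝ) / p + 1 / p) ^ k) / (p : ℝ) ^ 2| ≤
        2 * R / (p : ℝ) ^ (3 / 2 : ℝ) := by
    intro k R hR hk hkR
    rw [← sub_div, ← sum_sub_distrib, abs_div, abs_of_pos (by positivity : (0 : ℝ) < (p : ℝ) ^ 2)]
    have h1 : ∀ z : ZMod p × ZMod p, |gl p w z.1 z.2 ^ k - Real.log (1 - w * (tq z.1 z.2 : ℝ) / p + 1 / p) ^ k| ≤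
        if 4 * z.1 ^ 3 + 27 * z.2 ^ 2 = 0 then R / Real.sqrt p else 0 := by
      intro z
      unfold gl
      split_ifs with h
      · rw [zero_pow hk.ne', zero_sub, abs_neg, abs_pow]
        exact (pow_le_pow_left₀ (abs_nonneg _) (hsz z.1 z.2).2.1 k).trans hkR
      · rw [sub_self, abs_zero]
    have h2 : |∑ z : ZMod p × ZMod p, (gl p w z.1 z.2 ^ k - Real.log (1 - w * (tq z.1 z.2 : ℝ) / p + 1 / p) ^ k)| ≤ (2 * p) * (R / Real.sqrt p) := by
      refine (abs_sum_le_sum_abs _ _).trans ((sum_le_sum fun z _ => h1 z).trans ?_)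
      rw [← sum_filter, sum_const, nsmul_eq_mul]
      exact mul_le_mul_of_nonneg_right hcr (by positivity)
    rw [div_le_iff₀ (by positivity), rpow_three_half]
    refine h2.trans (le_of_eq ?_)
    have e1 : (p : ℝ) ^ 2 = Real.sqrt p ^ 3 * Real.sqrt p := by
      calc (p : ℝ) ^ 2 = (Real.sqrt p * Real.sqrt p) ^ 2 := by rw [hss]
        _ = _ := by ring
    rw [e1]
    have e2 : (2 * (p : ℝ)) * (R / Real.sqrt p) = 2 * (Real.sqrt p * Real.sqrt p) * (R / Real.sqrt p) := by rw [hss]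
    rw [e2]
    field_simp
  have e3 : ∀ A B C D E : ℝ, |A - B| ≤ D → |B - C| ≤ E → |A - C| ≤ D + E := by
    intro A B C D E h1 h2
    have : A - C = (A - B) + (B - C) := by ring
    rw [this]
    exact (abs_add_le _ _).trans (add_le_add h1 h2)
  constructor
  · have h1 := key 1 6 (by norm_num) (by norm_num) (by rw [pow_one])
    simp only [pow_one] at h1
    have h2 := mean_log p hp' hp w hw
    refine (e3 _ _ _ _ _ h1 h2).trans (le_of_eq ?_)
    ring
  · have h1 := key 2 36 (by norm_num) (by norm_num) (by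
      rw [div_pow, sq (Real.sqrt (p : ℝ)), hss]
      norm_num
      apply div_le_div_of_nonneg_left (by norm_num) hs0
      nlinarith)
    have h2 := mean_log_sq p hp' hp w hw
    refine (e3 _ _ _ _ _ h1 h2).trans (le_of_eq ?_)
    ring

end Pool.Agent.X22.EQ
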