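import Pool.Agent.X22.EQ22
import Pool.Agent.X22.EQ16

set_option autoImplicit false

/-! The logarithm of the Euler factor of `ζ_K / ζ` at `1 / 2` for the fields of the polynomials `h + a X + b`. -/

namespace Pool.Agent.X22.EQ
open Finset Polynomial

/-- the logarithm of the local factor -/
noncomputable def lk (p n : ℕ) (f : (ZMod p)[X]) : ℝ :=
  Real.log (1 - 1 / Real.sqrt p) - ∑ k ∈ Icc 1 n, (nk p k f : ℝ) * Real.log (1 - 1 / Real.sqrt p ^ k)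

lemma log_small (u : ℝ) (h0 : 0 ≤ u) (h1 : u ≤ 3 / 4) : |Real.log (1 - u)| ≤ 3 := by
  have h2 := Real.abs_log_sub_add_sum_range_le (x := u) (by rw [abs_of_nonneg h0]; linarith) 0
  rw [sum_range_zero, zero_add, abs_of_nonneg h0, zero_add, pow_one] at h2
  refine h2.trans ?_
  rw [div_le_iff₀ (by linarith)]
  linarith

section
variable {p : ℕ} [hf : Fact p.Prime]

lemma nk_le' (k n : ℕ) (hk : 1 ≤ k) (f : (ZMod p)[X]) (h0 : f ≠ 0) (hn : f.natDegree = n) : (nk p k f : ℝ) ≤ n := by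
  have h1 := nk_le k f h0
  have h2 : nk p k f ≤ k * nk p k f := Nat.le_mul_of_pos_left _ hk
  rw [hn] at h1
  exact_mod_cast h2.trans h1

lemma lk_crude (n : ℕ) (f : (ZMod p)[X]) (h0 : f ≠ 0) (hn : f.natDegree = n) : |lk p n f| ≤ 3 + 3 * (n : ℝ) ^ 2 := by
  have hp2 : (2 : ℝ) ≤ p := by exact_mod_cast hf.out.two_le
  have hs : 4 / 3 ≤ Real.sqrt p := Real.le_sqrt_of_sq_le (by norm_num; linarith)
  have hs0 : 0 < Real.sqrt p := by linarith
  have h1 : ∀ k : ℕ, 1 ≤ k → |Real.log (1 - 1 / Real.sqrt p ^ k)| ≤ 3 := by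
    intro k hk
    apply log_small _ (by positivity)
    rw [div_le_iff₀ (by positivity)]
    have h2 : Real.sqrt p ≤ Real.sqrt p ^ k := le_self_pow₀ (by linarith) (by omega)
    linarith
  unfold lk
  refine (abs_sub _ _).trans ?_
  refine add_le_add ?_ ?_
  · have := h1 1 le_rfl
    rwa [pow_one] at this
  · refine (abs_sum_le_sum_abs _ _).trans ?_
    have h3 : ∀ k ∈ Icc 1 n, |(nk p k f : ℝ) * Real.log (1 - 1 / Real.sqrt p ^ k)| ≤ (n : ℝ) * 3 := by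
      intro k hk
      rw [abs_mul, abs_of_nonneg (Nat.cast_nonneg _)]
      exact mul_le_mul (nk_le' k n (mem_Icc.1 hk).1 f h0 hn) (h1 k (mem_Icc.1 hk).1) (abs_nonneg _) (Nat.cast_nonneg _)
    refine (sum_le_sum h3).trans (le_of_eq ?_)
    rw [sum_const, Nat.card_Icc, Nat.add_sub_cancel, nsmul_eq_mul]
    ring

/-- the expansion of the logarithm -/
lemma lk_expand (hp : 64 ≤ p) (n : ℕ) (hn2 : 2 ≤ n) (f : (ZMod p)[X]) (h0 : f ≠ 0) (hn : f.natDegree = n) :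
    |lk p n f - (((nk p 1 f : ℝ) - 1) * (1 / Real.sqrt p + (1 / Real.sqrt p) ^ 2 / 2) + (nk p 2 f : ℝ) * (1 / Real.sqrt p) ^ 2)| ≤
      3 * ((n : ℝ) + 1) ^ 2 * (1 / Real.sqrt p) ^ 3 := by
  have hpr : (64 : ℝ) ≤ p := by exact_mod_cast hp
  have hs1 : 8 ≤ Real.sqrt p := Real.le_sqrt_of_sq_le (by norm_num; linarith)
  have hs0 : 0 < Real.sqrt p := by linarith
  obtain ⟨t, ht⟩ : ∃ t : ℝ, t = 1 / Real.sqrt p := ⟨_, rfl⟩
  have ht0 : 0 < t := by rw [ht]; positivity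
  have ht1 : t ≤ 1 / 8 := by
    rw [ht, div_le_div_iff₀ hs0 (by norm_num)]
    linarith
  have hpow : ∀ k : ℕ, 1 / Real.sqrt p ^ k = t ^ k := by
    intro k
    rw [ht, div_pow, one_pow]
  have hnr : (2 : ℝ) ≤ n := by exact_mod_cast hn2
  obtain ⟨A, hA⟩ : ∃ A : ℝ, A = (nk p 1 f : ℝ) := ⟨_, rfl⟩
  obtain ⟨Q, hQ⟩ : ∃ Q : ℝ, Q = (nk p 2 f : ℝ) := ⟨_, rfl⟩
  have hA0 : 0 ≤ A := by rw [hA]; exact Nat.cast_nonneg _
  have hQ0 : 0 ≤ Q := by rw [hQ]; exact Nat.cast_nonneg _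
  have hAn : A ≤ n := by rw [hA]; exact nk_le' 1 n le_rfl f h0 hn
  have hQn : Q ≤ n := by rw [hQ]; exact nk_le' 2 n (by norm_num) f h0 hn
  have hsplit : ∑ k ∈ Icc 1 n, (nk p k f : ℝ) * Real.log (1 - 1 / Real.sqrt p ^ k) =
      A * Real.log (1 - t) + Q * Real.log (1 - t ^ 2) + ∑ k ∈ Icc 3 n, (nk p k f : ℝ) * Real.log (1 - t ^ k) := by
    have h1 : Icc 1 n = insert 1 (insert 2 (Icc 3 n)) := by
      ext k
      rw [mem_insert, mem_insert, mem_Icc, mem_Icc]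
      omega
    rw [h1, sum_insert (by rw [mem_insert, mem_Icc]; omega), sum_insert (by rw [mem_Icc]; omega), hpow, hpow, pow_one, ← hA, ← hQ, add_assoc]
    congr 2
    exact sum_congr rfl fun k _ => by rw [hpow]
  have hlk : lk p n f = Real.log (1 - t) - (A * Real.log (1 - t) + Q * Real.log (1 - t ^ 2) + ∑ k ∈ Icc 3 n, (nk p k f : ℝ) * Real.log (1 - t ^ k)) := by
    unfold lk
    rw [hsplit, ← ht]
  have e1 : |t + t ^ 2 / 2 + Real.log (1 - t)| ≤ 2 * t ^ 3 := by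
    have h2 := Real.abs_log_sub_add_sum_range_le (x := t) (by rw [abs_of_pos ht0]; linarith) 2
    rw [sum_range_succ, sum_range_one, abs_of_pos ht0] at h2
    norm_num at h2
    have h3 : t ^ (2 + 1) / (1 - t) ≤ 2 * t ^ 3 := by
      rw [div_le_iff₀ (by linarith)]
      have h9 : 0 ≤ t ^ 3 * (1 - 2 * t) := mul_nonneg (by positivity) (by linarith)
      have h10 : t ^ (2 + 1) = t ^ 3 := rfl
      rw [h10]
      linarith
    have h4 : t + t ^ 2 / 2 + Real.log (1 - t) = t + t ^ 2 / (1 + 1) + Real.log (1 - t) := by norm_num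
    refine le_trans ?_ h3
    convert h2 using 2
  have e2 : |t ^ 2 + Real.log (1 - t ^ 2)| ≤ t ^ 3 := by
    have ht2 : t ^ 2 ≤ 1 / 64 := by nlinarith
    have h2 := Real.abs_log_sub_add_sum_range_le (x := t ^ 2) (by rw [abs_of_pos (by positivity)]; linarith) 1
    rw [sum_range_one, abs_of_pos (by positivity : 0 < t ^ 2)] at h2
    norm_num at h2
    refine h2.trans ?_
    rw [div_le_iff₀ (by linarith)]
    have h3 : (t ^ 2) ^ 2 = t ^ 3 * t := by ring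
    rw [h3]
    apply mul_le_mul_of_nonneg_left _ (by positivity)
    linarith
  have e3 : ∀ k ∈ Icc 3 n, |(nk p k f : ℝ) * Real.log (1 - t ^ k)| ≤ (n : ℝ) * (2 * t ^ 3) := by
    intro k hk
    have hk3 := (mem_Icc.1 hk).1
    rw [abs_mul, abs_of_nonneg (Nat.cast_nonneg _)]
    refine mul_le_mul (nk_le' k n (by omega) f h0 hn) ?_ (abs_nonneg _) (Nat.cast_nonneg _)
    have hk1 : t ^ k ≤ t ^ 3 := pow_le_pow_of_le_one ht0.le (by linarith) hk3
    have hk0 : 0 < t ^ k := by positivity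
    have ht3 : t ^ 3 ≤ 1 / 2 := by
      have : t ^ 3 ≤ t := pow_le_of_le_one ht0.le (by linarith) (by norm_num)
      linarith
    have h2 := Real.abs_log_sub_add_sum_range_le (x := t ^ k) (by rw [abs_of_pos hk0]; linarith) 0
    rw [sum_range_zero, zero_add, abs_of_pos hk0, zero_add, pow_one] at h2
    refine h2.trans ?_
    rw [div_le_iff₀ (by linarith)]
    nlinarith
  have e4 : |∑ k ∈ Icc 3 n, (nk p k f : ℝ) * Real.log (1 - t ^ k)| ≤ (n : ℝ) * ((n : ℝ) * (2 * t ^ 3)) := by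
    refine (abs_sum_le_sum_abs _ _).trans ((sum_le_sum e3).trans ?_)
    rw [sum_const, nsmul_eq_mul]
    apply mul_le_mul_of_nonneg_right _ (by positivity)
    have : (Icc 3 n).card ≤ n := by
      rw [Nat.card_Icc]
      omega
    exact_mod_cast this
  rw [← ht, hlk, ← hA, ← hQ]
  have h5 : Real.log (1 - t) - (A * Real.log (1 - t) + Q * Real.log (1 - t ^ 2) + ∑ k ∈ Icc 3 n, (nk p k f : ℝ) * Real.log (1 - t ^ k)) -
      ((A - 1) * (t + t ^ 2 / 2) + Q * t ^ 2) =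
      -((A - 1) * (t + t ^ 2 / 2 + Real.log (1 - t))) - Q * (t ^ 2 + Real.log (1 - t ^ 2)) - ∑ k ∈ Icc 3 n, (nk p k f : ℝ) * Real.log (1 - t ^ k) := by ring
  rw [h5]
  have h6 : |-((A - 1) * (t + t ^ 2 / 2 + Real.log (1 - t)))| ≤ ((n : ℝ) + 1) * (2 * t ^ 3) := by
    rw [abs_neg, abs_mul]
    apply mul_le_mul _ e1 (abs_nonneg _) (by positivity)
    rw [abs_le]
    constructor <;> linarith
  have h7 : |Q * (t ^ 2 + Real.log (1 - t ^ 2))| ≤ (n : ℝ) * t ^ 3 := by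
    rw [abs_mul, abs_of_nonneg hQ0]
    exact mul_le_mul hQn e2 (abs_nonneg _) (by positivity)
  refine (abs_sub _ _).trans ((add_le_add ((abs_sub _ _).trans (add_le_add h6 h7)) e4).trans ?_)
  nlinarith [pow_pos ht0 3, mul_nonneg (sub_nonneg.2 hnr) (pow_pos ht0 3).le]

/-- the size and the first and second moments -/
lemma lk_size (hp : 64 ≤ p) (n : ℕ) (hn2 : 2 ≤ n) (f : (ZMod p)[X]) (h0 : f ≠ 0) (hn : f.natDegree = n) :
    |lk p n f - ((nk p 1 f : ℝ) - 1) * (1 / Real.sqrt p)| ≤ 5 * ((n : ℝ) + 1) ^ 2 * (1 / Real.sqrt p) ^ 2 ∧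
    |lk p n f| ≤ 2 * ((n : ℝ) + 1) ^ 2 / Real.sqrt p ∧
    |lk p n f ^ 2 - ((nk p 1 f : ℝ) - 1) ^ 2 * (1 / Real.sqrt p) ^ 2| ≤ 35 * ((n : ℝ) + 1) ^ 4 * (1 / Real.sqrt p) ^ 3 := by
  have hpr : (64 : ℝ) ≤ p := by exact_mod_cast hp
  have hs1 : 8 ≤ Real.sqrt p := Real.le_sqrt_of_sq_le (by norm_num; linarith)
  have hs0 : 0 < Real.sqrt p := by linarith
  have hexp := lk_expand hp n hn2 f h0 hn
  obtain ⟨t, ht⟩ : ∃ t : ℝ, t = 1 / Real.sqrt p := ⟨_, rfl⟩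
  have ht0 : 0 < t := by rw [ht]; positivity
  have ht1 : t ≤ 1 / 8 := by
    rw [ht, div_le_div_iff₀ hs0 (by norm_num)]
    linarith
  have hnr : (2 : ℝ) ≤ n := by exact_mod_cast hn2
  obtain ⟨A, hA⟩ : ∃ A : ℝ, A = (nk p 1 f : ℝ) := ⟨_, rfl⟩
  obtain ⟨Q, hQ⟩ : ∃ Q : ℝ, Q = (nk p 2 f : ℝ) := ⟨_, rfl⟩
  have hA0 : 0 ≤ A := by rw [hA]; exact Nat.cast_nonneg _
  have hQ0 : 0 ≤ Q := by rw [hQ]; exact Nat.cast_nonneg _
  have hAn : A ≤ n := by rw [hA]; exact nk_le' 1 n le_rfl f h0 hn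
  have hQn : Q ≤ n := by rw [hQ]; exact nk_le' 2 n (by norm_num) f h0 hn
  obtain ⟨N, hN⟩ : ∃ N : ℝ, N = (n : ℝ) + 1 := ⟨_, rfl⟩
  have hN3 : 3 ≤ N := by linarith
  rw [← ht, ← hA, ← hQ, ← hN] at hexp
  rw [← ht, ← hA, ← hN]
  obtain ⟨L, hL⟩ : ∃ L : ℝ, L = lk p n f := ⟨_, rfl⟩
  rw [← hL] at hexp ⊢
  have hA1 : |A - 1| ≤ N := by
    rw [abs_le]
    constructor <;> linarith
  have h1 : |L - (A - 1) * t| ≤ 5 * N ^ 2 * t ^ 2 := by
    have e1 : L - (A - 1) * t = (L - ((A - 1) * (t + t ^ 2 / 2) + Q * t ^ 2)) + ((A - 1) * (t ^ 2 / 2) + Q * t ^ 2) := by ring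
    rw [e1]
    refine (abs_add_le _ _).trans ?_
    have e2 : |(A - 1) * (t ^ 2 / 2) + Q * t ^ 2| ≤ N * (t ^ 2 / 2) + N * t ^ 2 := by
      refine (abs_add_le _ _).trans (add_le_add ?_ ?_)
      · rw [abs_mul, abs_of_pos (by positivity : 0 < t ^ 2 / 2)]
        exact mul_le_mul_of_nonneg_right hA1 (by positivity)
      · rw [abs_mul, abs_of_pos (by positivity : 0 < t ^ 2), abs_of_nonneg hQ0]
        exact mul_le_mul_of_nonneg_right (by linarith) (by positivity)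
    have e3 : 3 * N ^ 2 * t ^ 3 ≤ 3 * N ^ 2 * (t ^ 2 / 8) := by
      apply mul_le_mul_of_nonneg_left _ (by positivity)
      have : t ^ 3 = t ^ 2 * t := by ring
      rw [this]
      nlinarith [sq_nonneg t]
    have e4 : N * (t ^ 2 / 2) + N * t ^ 2 ≤ N ^ 2 * t ^ 2 := by
      have : N * (t ^ 2 / 2) + N * t ^ 2 = (3 / 2 * N) * t ^ 2 := by ring
      rw [this]
      apply mul_le_mul_of_nonneg_right _ (by positivity)
      nlinarith
    have e5 : 0 ≤ N ^ 2 * t ^ 2 := by positivity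
    linarith
  have h2 : |L| ≤ 2 * N ^ 2 * t := by
    have e1 : L = (L - (A - 1) * t) + (A - 1) * t := by ring
    rw [e1]
    refine (abs_add_le _ _).trans ?_
    have e2 : |(A - 1) * t| ≤ N * t := by
      rw [abs_mul, abs_of_pos ht0]
      exact mul_le_mul_of_nonneg_right hA1 ht0.le
    have e3 : 5 * N ^ 2 * t ^ 2 ≤ 5 * N ^ 2 * (t / 8) := by
      apply mul_le_mul_of_nonneg_left _ (by positivity)
      nlinarith
    have e4 : N * t ≤ N ^ 2 / 3 * t := by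
      apply mul_le_mul_of_nonneg_right _ ht0.le
      nlinarith
    have e5 : 0 ≤ N ^ 2 * t := by positivity
    linarith
  refine ⟨h1, ?_, ?_⟩
  · have : 2 * N ^ 2 / Real.sqrt p = 2 * N ^ 2 * t := by rw [ht]; ring
    rw [this]
    exact h2
  · have e1 : L ^ 2 - (A - 1) ^ 2 * t ^ 2 = (L - (A - 1) * t) * (2 * ((A - 1) * t) + (L - (A - 1) * t)) := by ring
    rw [e1, abs_mul]
    have e2 : |2 * ((A - 1) * t) + (L - (A - 1) * t)| ≤ 7 * N ^ 2 * t := by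
      refine (abs_add_le _ _).trans ?_
      have e3 : |2 * ((A - 1) * t)| ≤ 2 * (N * t) := by
        rw [abs_mul, abs_mul, abs_of_pos ht0, abs_of_pos (by norm_num : (0 : ℝ) < 2)]
        exact mul_le_mul_of_nonneg_left (mul_le_mul_of_nonneg_right hA1 ht0.le) (by norm_num)
      have e4 : 5 * N ^ 2 * t ^ 2 ≤ 5 * N ^ 2 * t := by
        apply mul_le_mul_of_nonneg_left _ (by positivity)
        nlinarith
      have e5 : N * t ≤ N ^ 2 * t := by
        apply mul_le_mul_of_nonneg_right _ ht0.le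
        nlinarith
      linarith
    calc |L - (A - 1) * t| * |2 * ((A - 1) * t) + (L - (A - 1) * t)| ≤ (5 * N ^ 2 * t ^ 2) * (7 * N ^ 2 * t) :=
          mul_le_mul h1 e2 (abs_nonneg _) (by positivity)
      _ = 35 * N ^ 4 * t ^ 3 := by ring

lemma fam_deg (n : ℕ) (hn2 : 2 ≤ n) (h : (ZMod p)[X]) (hm : h.Monic) (hn : h.natDegree = n) (z : ZMod p × ZMod p) :
    fam h z ≠ 0 ∧ (fam h z).natDegree = n := by
  have h1 : fam h z = h + (C z.1 * X + C z.2) := by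
    unfold fam
    ring
  have h2 : (C z.1 * X + C z.2).degree < h.degree := by
    rw [degree_eq_natDegree hm.ne_zero, hn]
    refine lt_of_le_of_lt degree_linear_le ?_
    exact_mod_cast (by omega : 1 < n)
  have h3 : (fam h z).Monic := by
    rw [h1]
    exact hm.add_of_left h2
  refine ⟨h3.ne_zero, ?_⟩
  rw [h1, ← hn]
  exact natDegree_eq_of_degree_eq (degree_add_eq_left_of_degree_lt h2)

lemma lk_mom (hp : 64 ≤ p) (n : ℕ) (hn2 : 2 ≤ n) (h : (ZMod p)[X]) (hm : h.Monic) (hn : h.natDegree = n) :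
    |(∑ z : ZMod p × ZMod p, lk p n (fam h z)) / (p : ℝ) ^ 2 - 1 / 2 / p| ≤ 40 * ((n : ℝ) + 1) ^ 4 / (p : ℝ) ^ (3 / 2 : ℝ) ∧
    |(∑ z : ZMod p × ZMod p, lk p n (fam h z) ^ 2) / (p : ℝ) ^ 2 - 1 / p| ≤ 40 * ((n : ℝ) + 1) ^ 4 / (p : ℝ) ^ (3 / 2 : ℝ) := by
  have hpr : (64 : ℝ) ≤ p := by exact_mod_cast hp
  have hp0 : (0 : ℝ) < p := by linarith
  have hs1 : 8 ≤ Real.sqrt p := Real.le_sqrt_of_sq_le (by norm_num; linarith)
  have hs0 : 0 < Real.sqrt p := by linarith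
  have hss : Real.sqrt p * Real.sqrt p = p := Real.mul_self_sqrt hp0.le
  obtain ⟨t, ht⟩ : ∃ t : ℝ, t = 1 / Real.sqrt p := ⟨_, rfl⟩
  have ht0 : 0 < t := by rw [ht]; positivity
  have ht1 : t ≤ 1 / 8 := by
    rw [ht, div_le_div_iff₀ hs0 (by norm_num)]
    linarith
  have htp : t ^ 2 = 1 / p := by
    rw [ht, div_pow, one_pow, sq, hss]
  have ht3 : ∀ B : ℝ, B / (p : ℝ) ^ (3 / 2 : ℝ) = B * t ^ 3 := by
    intro B
    rw [rpow_three_half, ht, div_pow, one_pow]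
    ring
  have hnr : (2 : ℝ) ≤ n := by exact_mod_cast hn2
  obtain ⟨N, hN⟩ : ∃ N : ℝ, N = (n : ℝ) + 1 := ⟨_, rfl⟩
  have hN3 : 3 ≤ N := by linarith
  have hN4 : 1 ≤ N ^ 4 := by
    have : 1 ≤ N := by linarith
    exact one_le_pow₀ this
  have hN24 : N ^ 2 ≤ N ^ 4 := pow_le_pow_right₀ (by linarith) (by norm_num)
  rw [ht3, ← hN]
  have hdeg := fam_deg n hn2 h hm hn
  have hcard : (Fintype.card (ZMod p × ZMod p) : ℝ) = (p : ℝ) ^ 2 := by
    rw [Fintype.card_prod, ZMod.card]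
    push_cast
    ring
  have hp2 : (0 : ℝ) < (p : ℝ) ^ 2 := by positivity
  have havg : ∀ (u v : ZMod p × ZMod p → ℝ) (E : ℝ), (∀ z, |u z - v z| ≤ E) → |(∑ z, u z) / (p : ℝ) ^ 2 - (∑ z, v z) / (p : ℝ) ^ 2| ≤ E := by
    intro u v E huv
    rw [← sub_div, ← sum_sub_distrib, abs_div, abs_of_pos hp2, div_le_iff₀ hp2]
    refine (abs_sum_le_sum_abs _ _).trans ((sum_le_sum fun z _ => huv z).trans (le_of_eq ?_))
    rw [sum_const, card_univ, nsmul_eq_mul, hcard]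
    ring
  have ht43 : t ^ 4 ≤ t ^ 3 := pow_le_pow_of_le_one ht0.le (by linarith) (by norm_num)
  have ht3pos : 0 < t ^ 3 := by positivity
  constructor
  · have h1 := havg (fun z => lk p n (fam h z)) (fun z => ((nk p 1 (fam h z) : ℝ) - 1) * (t + t ^ 2 / 2) + (nk p 2 (fam h z) : ℝ) * t ^ 2)
      (3 * N ^ 2 * t ^ 3) (fun z => by
        have := lk_expand hp n hn2 (fam h z) (hdeg z).1 (hdeg z).2
        rw [← ht, ← hN] at this
        exact this)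
    have h2 : (∑ z : ZMod p × ZMod p, (((nk p 1 (fam h z) : ℝ) - 1) * (t + t ^ 2 / 2) + (nk p 2 (fam h z) : ℝ) * t ^ 2)) / (p : ℝ) ^ 2 =
        1 / 2 / p - t ^ 4 / 2 := by
      rw [sum_add_distrib, ← sum_mul, ← sum_mul, sum_sub_distrib, mom_one, mom_quad, sum_const, card_univ, nsmul_eq_mul, hcard]
      have e1 : t ^ 4 = (1 / p) ^ 2 := by rw [← htp]; ring
      rw [e1, htp]
      field_simp
      ring
    rw [h2] at h1
    have h3 : |(∑ z : ZMod p × ZMod p, lk p n (fam h z)) / (p : ℝ) ^ 2 - 1 / 2 / p| ≤ 3 * N ^ 2 * t ^ 3 + t ^ 4 / 2 := by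
      have e1 : (∑ z : ZMod p × ZMod p, lk p n (fam h z)) / (p : ℝ) ^ 2 - 1 / 2 / p =
          ((∑ z : ZMod p × ZMod p, lk p n (fam h z)) / (p : ℝ) ^ 2 - (1 / 2 / p - t ^ 4 / 2)) + -(t ^ 4 / 2) := by ring
      rw [e1]
      refine (abs_add_le _ _).trans (add_le_add h1 ?_)
      rw [abs_neg, abs_of_nonneg (by positivity)]
    refine h3.trans ?_
    have e2 : 3 * N ^ 2 * t ^ 3 ≤ 3 * N ^ 4 * t ^ 3 := by
      apply mul_le_mul_of_nonneg_right _ ht3pos.le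
      linarith
    have e3 : t ^ 3 ≤ N ^ 4 * t ^ 3 := by
      calc t ^ 3 = 1 * t ^ 3 := (one_mul _).symm
        _ ≤ N ^ 4 * t ^ 3 := mul_le_mul_of_nonneg_right hN4 ht3pos.le
    linarith
  · have h1 := havg (fun z => lk p n (fam h z) ^ 2) (fun z => ((nk p 1 (fam h z) : ℝ) - 1) ^ 2 * t ^ 2)
      (35 * N ^ 4 * t ^ 3) (fun z => by
        have := (lk_size hp n hn2 (fam h z) (hdeg z).1 (hdeg z).2).2.2
        rw [← ht, ← hN] at this
        exact this)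
    have h2 : (∑ z : ZMod p × ZMod p, (((nk p 1 (fam h z) : ℝ) - 1) ^ 2 * t ^ 2)) / (p : ℝ) ^ 2 = 1 / p - t ^ 4 := by
      have e0 : ∀ z : ZMod p × ZMod p, ((nk p 1 (fam h z) : ℝ) - 1) ^ 2 * t ^ 2 = (nk p 1 (fam h z) : ℝ) ^ 2 * t ^ 2 + ((nk p 1 (fam h z) : ℝ) * (-2 * t ^ 2) + t ^ 2) := by
        intro z
        ring
      rw [sum_congr rfl fun z _ => e0 z, sum_add_distrib, sum_add_distrib, ← sum_mul, ← sum_mul, mom_one, mom_two, sum_const, card_univ, nsmul_eq_mul, hcard]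
      have e1 : t ^ 4 = (1 / p) ^ 2 := by rw [← htp]; ring
      rw [e1, htp]
      field_simp
      ring
    rw [h2] at h1
    have h3 : |(∑ z : ZMod p × ZMod p, lk p n (fam h z) ^ 2) / (p : ℝ) ^ 2 - 1 / p| ≤ 35 * N ^ 4 * t ^ 3 + t ^ 4 := by
      have e1 : (∑ z : ZMod p × ZMod p, lk p n (fam h z) ^ 2) / (p : ℝ) ^ 2 - 1 / p =
          ((∑ z : ZMod p × ZMod p, lk p n (fam h z) ^ 2) / (p : ℝ) ^ 2 - (1 / p - t ^ 4)) + -(t ^ 4) := by ring
      rw [e1]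
      refine (abs_add_le _ _).trans (add_le_add h1 ?_)
      rw [abs_neg, abs_of_nonneg (by positivity)]
    refine h3.trans ?_
    have e3 : t ^ 3 ≤ N ^ 4 * t ^ 3 := by
      calc t ^ 3 = 1 * t ^ 3 := (one_mul _).symm
        _ ≤ N ^ 4 * t ^ 3 := mul_le_mul_of_nonneg_right hN4 ht3pos.le
    linarith

end

end Pool.Agent.X22.EQ
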