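import Pool.Agent.X22.EC
import Pool.Agent.W529.ST.Curve

/-!
# Double covers of arbitrary sets over finite fields and their twists
-/

set_option autoImplicit false

namespace Pool.Agent.X22.DC

open Finset

lemma card_dc {E : Type} [Field E] [Fintype E] [DecidableEq E] (hE : ringChar E ≠ 2) (X : Type) [Fintype X] (P : X → Prop)
    [DecidablePred P] (φ : X → E) :
    ((Nat.card {Q : X × E // P Q.1 ∧ Q.2 ^ 2 = φ Q.1} : ℕ) : ℤ) =
      Nat.card {x : X // P x} + ∑ x ∈ univ.filter P, quadraticChar E (φ x) := by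
  classical
  have h1 : ∀ x, (∑ w : E, if w ^ 2 = φ x then (1 : ℤ) else 0) = quadraticChar E (φ x) + 1 := by
    intro x
    rw [← quadraticChar_card_sqrts hE (φ x)]
    rw [Finset.sum_boole]
    congr 2
    ext w
    simp
  rw [Nat.card_eq_fintype_card, Nat.card_eq_fintype_card, Fintype.card_subtype, Fintype.card_subtype]
  rw [card_filter, ← univ_product_univ, sum_product]
  push_cast
  have h2 : ∀ x : X, (∑ w : E, if P x ∧ w ^ 2 = φ x then (1 : ℤ) else 0) = if P x then quadraticChar E (φ x) + 1 else 0 := by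
    intro x
    by_cases hx : P x
    · simp only [hx, true_and, if_true]
      exact h1 x
    · simp [hx]
  rw [sum_congr rfl (fun x _ => h2 x), ← sum_filter, sum_add_distrib, sum_const, nsmul_eq_mul, mul_one]
  ring

/-- the quadratic twist of a double cover -/
lemma card_twist {E : Type} [Field E] [Fintype E] (hE : ringChar E ≠ 2) (X : Type) [Fintype X] (P : X → Prop)
    (φ : X → E) (D : E) : haveI := Classical.decEq E;
    ((Nat.card {Q : X × E // P Q.1 ∧ Q.2 ^ 2 = D * φ Q.1} : ℕ) : ℤ) - Nat.card {x : X // P x} =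
      quadraticChar E D * (((Nat.card {Q : X × E // P Q.1 ∧ Q.2 ^ 2 = φ Q.1} : ℕ) : ℤ) - Nat.card {x : X // P x}) := by
  classical
  have hinst : (Classical.decEq E) = (fun a b => Classical.propDecidable (a = b)) := Subsingleton.elim _ _
  have h1 := card_dc hE X P φ
  have h2 := card_dc hE X P (fun x => D * φ x)
  rw [h1, h2]
  simp only [map_mul]
  rw [add_sub_cancel_left, add_sub_cancel_left, ← mul_sum]

/-- the twist over the extension of degree `r` -/
lemma card_twist_ext (p : ℕ) [Fact p.Prime] (h2 : p ≠ 2) {E : Type} [Field E] [Fintype E] [Algebra (ZMod p) E] {r : ℕ}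
    (hE : Nat.card E = p ^ r) (X : Type) [Fintype X] (P : X → Prop) (φ : X → E) (D : ZMod p) (hD : D ≠ 0) :
    ((Nat.card {Q : X × E // P Q.1 ∧ Q.2 ^ 2 = algebraMap (ZMod p) E D * φ Q.1} : ℕ) : ℝ) - Nat.card {x : X // P x} =
      (quadraticChar (ZMod p) D : ℝ) ^ r * (((Nat.card {Q : X × E // P Q.1 ∧ Q.2 ^ 2 = φ Q.1} : ℕ) : ℝ) - Nat.card {x : X // P x}) := by
  let _ := Classical.decEq E
  have h3 : ringChar (ZMod p) ≠ 2 := by
    rw [ZMod.ringChar_zmod_n]
    exact h2
  have h4 : ringChar E ≠ 2 := by rwa [← Algebra.ringChar_eq (ZMod p) E]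
  have h5 := card_twist h4 X P φ (algebraMap (ZMod p) E D)
  rw [Pool.Agent.W529.ST.quadraticChar_ext h3 (by rw [Nat.card_zmod]; exact hE) hD] at h5
  exact_mod_cast h5

end Pool.Agent.X22.DC
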