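import Mathlib

/-!
# Simple roots modulo `p` of the polynomials `f + m g`
-/

set_option autoImplicit false

namespace Pool.Agent.X22.RP

open Finset Polynomial

section
variable {F : Type} [Field F] [Fintype F] [DecidableEq F]

lemma wron (n : ℕ) (hn : 1 ≤ n) (f g : F[X]) (hf : f.Monic) (hfn : f.natDegree = n) (hg : g.natDegree < n) (hg0 : g ≠ 0)
    (hchar : ∀ k : ℕ, 0 < k → k ≤ n → (k : F) ≠ 0) : (derivative f * g - f * derivative g) ≠ 0 ∧
    (derivative f * g - f * derivative g).natDegree ≤ 2 * n := by
  constructor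
  · intro h0
    obtain ⟨d, hd⟩ : ∃ d, d = g.natDegree := ⟨_, rfl⟩
    have h1 := congrArg (fun P : F[X] => P.coeff ((n - 1) + d)) h0
    simp only [coeff_sub, coeff_zero] at h1
    have h2 : (derivative f * g).coeff ((n - 1) + d) = (n : F) * g.leadingCoeff := by
      rw [coeff_mul_add_eq_of_natDegree_le ((natDegree_derivative_le f).trans (by omega)) (le_of_eq hd.symm), coeff_derivative]
      have e : n - 1 + 1 = n := by omega
      have e2 : ((n - 1 : ℕ) : F) + 1 = n := by
        rw [← Nat.cast_succ]
        exact congrArg _ e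
      rw [e, e2, ← hfn, hf.coeff_natDegree, one_mul, leadingCoeff, hd]
    have h3 : (f * derivative g).coeff ((n - 1) + d) = (d : F) * g.leadingCoeff := by
      rcases Nat.eq_zero_or_pos d with h4 | h4
      · have h5 : derivative g = 0 := by
          rw [hd, natDegree_eq_zero] at h4
          obtain ⟨a, rfl⟩ := h4
          exact derivative_C
        rw [h5, mul_zero, coeff_zero, h4, Nat.cast_zero, zero_mul]
      · have e : n - 1 + d = n + (d - 1) := by omega
        rw [e, coeff_mul_add_eq_of_natDegree_le (le_of_eq hfn) ((natDegree_derivative_le g).trans (by omega)), coeff_derivative]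
        have e1 : d - 1 + 1 = d := by omega
        have e2 : ((d - 1 : ℕ) : F) + 1 = d := by
          rw [← Nat.cast_succ]
          exact congrArg _ e1
        rw [e1, e2, ← hfn, hf.coeff_natDegree, one_mul, leadingCoeff, hd, mul_comm]
    rw [h2, h3, ← sub_mul] at h1
    rcases mul_eq_zero.1 h1 with h4 | h4
    · have h5 : ((n - d : ℕ) : F) = 0 := by
        rw [Nat.cast_sub (by omega)]
        exact h4
      exact hchar (n - d) (by omega) (by omega) h5
    · exact hg0 (leadingCoeff_eq_zero.1 h4)
  · refine (natDegree_sub_le _ _).trans (max_le ?_ ?_)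
    · refine natDegree_mul_le.trans ?_
      have := natDegree_derivative_le f
      omega
    · refine natDegree_mul_le.trans ?_
      have := natDegree_derivative_le g
      omega

lemma deg_pencil (n : ℕ) (f g : F[X]) (hf : f.Monic) (hfn : f.natDegree = n) (hg : g.natDegree < n) (m : F) :
    (f + C m * g).Monic ∧ (f + C m * g).natDegree = n := by
  have h1 : (C m * g).degree < f.degree := by
    apply degree_lt_degree
    rw [hfn]
    exact lt_of_le_of_lt (natDegree_C_mul_le _ _) hg
  have h2 := hf.add_of_left h1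
  refine ⟨h2, ?_⟩
  rw [natDegree_add_eq_left_of_degree_lt h1, hfn]

/-- many members of the pencil have a simple root -/
lemma count (n : ℕ) (hn : 1 ≤ n) (f g : F[X]) (hf : f.Monic) (hfn : f.natDegree = n) (hg : g.natDegree < n) (hg0 : g ≠ 0)
    (hchar : ∀ k : ℕ, 0 < k → k ≤ n → (k : F) ≠ 0) :
    Fintype.card F ≤ n * (univ.filter (fun m : F => ∃ t : F, (f + C m * g).eval t = 0 ∧ (derivative (f + C m * g)).eval t ≠ 0)).card + 3 * n := by
  obtain ⟨W, hW⟩ : ∃ W, W = derivative f * g - f * derivative g := ⟨_, rfl⟩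
  have hw := wron n hn f g hf hfn hg hg0 hchar
  rw [← hW] at hw
  obtain ⟨T, hT⟩ : ∃ T, T = univ.filter (fun t : F => g.eval t ≠ 0 ∧ W.eval t ≠ 0) := ⟨_, rfl⟩
  have hcov : (univ : Finset F) ⊆ T ∪ (g.roots.toFinset ∪ W.roots.toFinset) := by
    intro t _
    rw [mem_union, mem_union, hT, mem_filter, Multiset.mem_toFinset, Multiset.mem_toFinset, mem_roots hg0, mem_roots hw.1, IsRoot.def, IsRoot.def]
    by_cases h1 : g.eval t = 0
    · right; left
      exact h1
    · by_cases h2 : W.eval t = 0
      · right; right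
        exact h2
      · left
        exact ⟨mem_univ _, h1, h2⟩
  have h1 : Fintype.card F ≤ T.card + 3 * n := by
    have h2 := (card_le_card hcov).trans ((card_union_le _ _).trans (Nat.add_le_add_left (card_union_le _ _) _))
    rw [card_univ] at h2
    have h3 : g.roots.toFinset.card ≤ n := (Multiset.toFinset_card_le _).trans ((card_roots' g).trans hg.le)
    have h4 : W.roots.toFinset.card ≤ 2 * n := (Multiset.toFinset_card_le _).trans ((card_roots' W).trans hw.2)
    omega
  obtain ⟨S, hS⟩ : ∃ S, S = univ.filter (fun m : F => ∃ t : F, (f + C m * g).eval t = 0 ∧ (derivative (f + C m * g)).eval t ≠ 0) := ⟨_, rfl⟩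
  have hmap : ∀ t ∈ T, -(f.eval t) / g.eval t ∈ S := by
    intro t ht
    rw [hT, mem_filter] at ht
    rw [hS, mem_filter]
    refine ⟨mem_univ _, t, ?_, ?_⟩
    · rw [eval_add, eval_mul, eval_C, div_mul_cancel₀ _ ht.2.1]
      ring
    · intro h3
      apply ht.2.2
      rw [derivative_add, derivative_mul, derivative_C, zero_mul, zero_add, eval_add, eval_mul, eval_C, div_mul_eq_mul_div, ← sub_neg_eq_add] at h3
      rw [hW, eval_sub, eval_mul, eval_mul]
      have hgt := ht.2.1
      field_simp at h3
      linear_combination h3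
  have hfib : ∀ m ∈ S, (T.filter (fun t => -(f.eval t) / g.eval t = m)).card ≤ n := by
    intro m _
    have hd := deg_pencil n f g hf hfn hg m
    have hsub : T.filter (fun t => -(f.eval t) / g.eval t = m) ⊆ (f + C m * g).roots.toFinset := by
      intro t ht
      rw [mem_filter, hT, mem_filter] at ht
      rw [Multiset.mem_toFinset, mem_roots hd.1.ne_zero, IsRoot.def, eval_add, eval_mul, eval_C, ← ht.2, div_mul_cancel₀ _ ht.1.2.1]
      ring
    exact (card_le_card hsub).trans ((Multiset.toFinset_card_le _).trans ((card_roots' _).trans hd.2.le))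
  have h2 : T.card ≤ n * S.card := by
    exact card_le_mul_card_image_of_maps_to hmap n hfib
  rw [← hS]
  omega

end

lemma deg_pencil' (n : ℕ) (f g : ℤ[X]) (hf : f.Monic) (hfn : f.natDegree = n) (hg : g.natDegree < n) (m : ℤ) :
    (f + C m * g).Monic ∧ (f + C m * g).natDegree = n := by
  have h1 : (C m * g).degree < f.degree := by
    apply degree_lt_degree
    rw [hfn]
    exact lt_of_le_of_lt (natDegree_C_mul_le _ _) hg
  have h2 := hf.add_of_left h1
  refine ⟨h2, ?_⟩
  rw [natDegree_add_eq_left_of_degree_lt h1, hfn]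

/-- The polynomial `f + m g` has a simple root modulo `p`. -/
def HasSimple (p : ℕ) (f g : ℤ[X]) (m : ℕ) : Prop :=
  ∃ t : ZMod p, (f + C (m : ℤ) * g).eval₂ (Int.castRingHom (ZMod p)) t = 0 ∧ (derivative (f + C (m : ℤ) * g)).eval₂ (Int.castRingHom (ZMod p)) t ≠ 0

lemma hasSimple_iff (p : ℕ) (f g : ℤ[X]) (m : ℕ) : HasSimple p f g m ↔ ∃ t : ZMod p,
    (f.map (Int.castRingHom (ZMod p)) + C (m : ZMod p) * g.map (Int.castRingHom (ZMod p))).eval t = 0 ∧
    (derivative (f.map (Int.castRingHom (ZMod p)) + C (m : ZMod p) * g.map (Int.castRingHom (ZMod p)))).eval t ≠ 0 := by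
  have e : (f + C (m : ℤ) * g).map (Int.castRingHom (ZMod p)) = f.map (Int.castRingHom (ZMod p)) + C (m : ZMod p) * g.map (Int.castRingHom (ZMod p)) := by
    rw [Polynomial.map_add, Polynomial.map_mul, map_C]
    simp
  unfold HasSimple
  simp only [← e, derivative_map, eval_map]

lemma hasSimple_mod (p : ℕ) (f g : ℤ[X]) (m : ℕ) : HasSimple p f g m ↔ HasSimple p f g (m % p) := by
  rw [hasSimple_iff, hasSimple_iff, ZMod.natCast_mod]

/-- few of the residue classes are bad -/
lemma bad_card (p n : ℕ) (hp' : p.Prime) (hn : 1 ≤ n) (hpn : n < p) (f g : ℤ[X]) (hf : f.Monic) (hfn : f.natDegree = n) (hg : g.natDegree < n)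
    (hg0 : g.map (Int.castRingHom (ZMod p)) ≠ 0) (D : DecidablePred fun m => ¬ HasSimple p f g m) :
    ((@Finset.filter ℕ (fun m => ¬ HasSimple p f g m) D (range p)).card : ℝ) ≤ (1 - 1 / (n : ℝ)) * p + 3 := by
  classical
  have hfp : Fact p.Prime := ⟨hp'⟩
  have h1 := count (F := ZMod p) n hn (f.map (Int.castRingHom (ZMod p))) (g.map (Int.castRingHom (ZMod p))) (hf.map _)
    ((hf.natDegree_map _).trans hfn) (lt_of_le_of_lt natDegree_map_le hg) hg0 (by
      intro k hk1 hk2 h0
      rw [ZMod.natCast_eq_zero_iff] at h0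
      exact absurd (Nat.le_of_dvd hk1 h0) (by omega))
  rw [ZMod.card] at h1
  have h2 : ((range p).filter (fun m => HasSimple p f g m)).card = (univ.filter (fun m : ZMod p => ∃ t : ZMod p,
      (f.map (Int.castRingHom (ZMod p)) + C m * g.map (Int.castRingHom (ZMod p))).eval t = 0 ∧
      (derivative (f.map (Int.castRingHom (ZMod p)) + C m * g.map (Int.castRingHom (ZMod p)))).eval t ≠ 0)).card := by
    apply card_nbij' (fun m : ℕ => (m : ZMod p)) (fun a : ZMod p => a.val)
    · intro m hm
      rw [mem_coe, mem_filter] at hm ⊢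
      exact ⟨mem_univ _, (hasSimple_iff p f g m).1 hm.2⟩
    · intro a ha
      rw [mem_coe, mem_filter] at ha ⊢
      refine ⟨mem_range.2 (ZMod.val_lt a), ?_⟩
      rw [hasSimple_iff, ZMod.natCast_zmod_val]
      exact ha.2
    · intro m hm
      rw [mem_coe, mem_filter, mem_range] at hm
      exact ZMod.val_cast_of_lt hm.1
    · intro a _
      exact ZMod.natCast_zmod_val a
  have h3 : (@Finset.filter ℕ (fun m => ¬ HasSimple p f g m) D (range p)).card + ((range p).filter (fun m => HasSimple p f g m)).card = p := by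
    have := card_filter_add_card_filter_not (s := range p) (fun m => HasSimple p f g m)
    rw [card_range] at this
    rw [add_comm]
    convert this
  rw [← h2] at h1
  have hn0 : (0 : ℝ) < n := by exact_mod_cast (by omega : 0 < n)
  have h4 : (p : ℝ) ≤ n * ((range p).filter (fun m => HasSimple p f g m)).card + 3 * n := by exact_mod_cast h1
  have h5 : ((@Finset.filter ℕ (fun m => ¬ HasSimple p f g m) D (range p)).card : ℝ) + ((range p).filter (fun m => HasSimple p f g m)).card = p := by
    exact_mod_cast h3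
  have h6 : (p : ℝ) / n ≤ ((range p).filter (fun m => HasSimple p f g m)).card + 3 := by
    rw [div_le_iff₀ hn0]
    linarith
  have h7 : (1 - 1 / (n : ℝ)) * p = p - p / n := by
    field_simp
  rw [h7]
  linarith

end Pool.Agent.X22.RP
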