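import Pool.Agent.X9.EV.Tor
import Pool.Agent.TH869.EVF.Norm
import Pool.Agent.TH869.EVF.Fin1

/-!
# Torsion in the class group of a field with many small primes that are norms, exponent of Ellenberg and Venkatesh
-/

set_option autoImplicit false

namespace Pool.Agent.X22.TL

open NumberField Finset

/-- the size condition -/
lemma size (n l : ℕ) (hn2 : 2 ≤ n) (hl : 1 ≤ l) (ε : ℝ) (hε : 0 < ε) (x D : ℝ) (hx : 1 < x) (hD0 : 0 < D)
    (hxD : x ≤ D ^ (1 / (2 * (l : ℝ) * (n - 1)) - ε)) (hDB : (n : ℝ) * Real.log 300 < ε * Real.log D) :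
    (2 * (150 * x) ^ l) ^ (n * (n - 1)) < D * ((x ^ (1 - ε)) ^ l) ^ ((n - 1) * (n - 2)) := by
  have hnr : (2 : ℝ) ≤ n := by exact_mod_cast hn2
  have hlr : (1 : ℝ) ≤ l := by exact_mod_cast hl
  have hx0 : 0 < x := by linarith
  have h300 : 0 < Real.log 300 := Real.log_pos (by norm_num)
  have hΛ : 0 < Real.log D := by
    by_contra hcon
    push Not at hcon
    have h1 : ε * Real.log D ≤ 0 := mul_nonpos_of_nonneg_of_nonpos hε.le hcon
    have h2 : 0 < (n : ℝ) * Real.log 300 := by positivity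
    linarith
  obtain ⟨θ, hθ⟩ : ∃ θ : ℝ, θ = 1 / (2 * (l : ℝ) * (n - 1)) - ε := ⟨_, rfl⟩
  obtain ⟨s, hs⟩ : ∃ s : ℝ, s = l * (n - 1) := ⟨_, rfl⟩
  have hs1 : (n : ℝ) - 1 ≤ s := by
    rw [hs]
    nlinarith
  have hs0 : 0 < s := by linarith
  have hsθ : s * θ = 1 / 2 - s * ε := by
    have e : 2 * (l : ℝ) * (n - 1) = 2 * s := by
      rw [hs]
      ring
    rw [hθ, e]
    field_simp
  have hL : Real.log x ≤ θ * Real.log D := by
    have h1 := Real.log_le_log hx0 hxD
    rwa [Real.log_rpow hD0, ← hθ] at h1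
  have hL0 : 0 < Real.log x := Real.log_pos hx
  rw [← Real.log_lt_log_iff (by positivity) (by positivity)]
  have e1 : Real.log ((2 * (150 * x) ^ l) ^ (n * (n - 1))) = (n : ℝ) * (n - 1) * (Real.log 2 + l * (Real.log 150 + Real.log x)) := by
    rw [Real.log_pow, Real.log_mul (by norm_num) (by positivity), Real.log_pow, Real.log_mul (by norm_num) hx0.ne']
    rw [Nat.cast_mul, Nat.cast_sub (by omega : 1 ≤ n)]
    push_cast
    ring
  have e2 : Real.log (D * ((x ^ (1 - ε)) ^ l) ^ ((n - 1) * (n - 2))) = Real.log D + ((n : ℝ) - 1) * (n - 2) * (l * ((1 - ε) * Real.log x)) := by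
    rw [Real.log_mul hD0.ne' (by positivity), Real.log_pow, Real.log_pow, Real.log_rpow hx0, Nat.cast_mul, Nat.cast_sub (by omega : 1 ≤ n),
      Nat.cast_sub (by omega : 2 ≤ n)]
    push_cast
    ring
  rw [e1, e2]
  have e3 : Real.log 300 = Real.log 2 + Real.log 150 := by
    rw [← Real.log_mul (by norm_num) (by norm_num)]
    norm_num
  have h2 : Real.log 2 + l * (Real.log 150 + Real.log x) ≤ l * (Real.log 300 + Real.log x) := by
    have : 0 ≤ ((l : ℝ) - 1) * Real.log 2 := mul_nonneg (by linarith) (Real.log_nonneg (by norm_num))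
    rw [e3]
    nlinarith
  have h3 : (n : ℝ) * (n - 1) * (Real.log 2 + l * (Real.log 150 + Real.log x)) ≤ n * s * (Real.log 300 + Real.log x) := by
    have h4 : 0 ≤ (n : ℝ) * (n - 1) := mul_nonneg (by linarith) (by linarith)
    calc (n : ℝ) * (n - 1) * (Real.log 2 + l * (Real.log 150 + Real.log x)) ≤ (n : ℝ) * (n - 1) * (l * (Real.log 300 + Real.log x)) :=
          mul_le_mul_of_nonneg_left h2 h4
      _ = n * s * (Real.log 300 + Real.log x) := by
          rw [hs]
          ring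
  have h5 : ((n : ℝ) - 1) * (n - 2) * (l * ((1 - ε) * Real.log x)) = s * (n - 2) * ((1 - ε) * Real.log x) := by
    rw [hs]
    ring
  rw [h5]
  refine h3.trans_lt ?_
  have h6 : s * Real.log x * (2 + ε * (n - 2)) ≤ (1 - s * ε) * Real.log D := by
    have h7 : 0 ≤ 2 + ε * ((n : ℝ) - 2) := by
      have : 0 ≤ ε * ((n : ℝ) - 2) := mul_nonneg hε.le (by linarith)
      linarith
    calc s * Real.log x * (2 + ε * (n - 2)) ≤ s * (θ * Real.log D) * (2 + ε * (n - 2)) := by gcongr
      _ = (s * θ) * (2 + ε * (n - 2)) * Real.log D := by ring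
      _ = (1 / 2 - s * ε) * (2 + ε * (n - 2)) * Real.log D := by rw [hsθ]
      _ ≤ (1 - s * ε) * Real.log D := by
        apply mul_le_mul_of_nonneg_right _ hΛ.le
        have h8 : 0 ≤ s * ε * (ε * ((n : ℝ) - 2)) := by
          apply mul_nonneg (by positivity)
          exact mul_nonneg hε.le (by linarith)
        have h9 : ε * ((n : ℝ) - 2) / 2 ≤ ε * s := by
          have : ((n : ℝ) - 2) / 2 ≤ s := by linarith
          nlinarith
        nlinarith
  have h10 : n * s * Real.log 300 < s * (ε * Real.log D) := by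
    have := mul_lt_mul_of_pos_left hDB hs0
    linarith
  nlinarith

/-- many small primes that are norms -/
theorem tor_x (n : ℕ) (hn2 : 2 ≤ n) (ε : ℝ) (hε : 0 < ε) : ∃ C : ℝ, 0 < C ∧ ∀ l : ℕ, 1 ≤ l →
    ∀ (K : Type) [Field K] [NumberField K], Module.finrank ℚ K = n → ∀ x : ℕ, 2 ≤ x →
    (x : ℝ) ≤ ((discr K).natAbs : ℝ) ^ (1 / (2 * (l : ℝ) * (n - 1)) - ε) →
    ∀ G : Finset ℕ, (∀ p ∈ G, p.Prime ∧ p ≤ x ∧ ∃ P : Ideal (𝓞 K), Ideal.absNorm P = p) →
    (Nat.card {c : ClassGroup (𝓞 K) // c ^ l = 1} : ℝ) * ((G.card : ℝ) - (x : ℝ) ^ (1 - ε)) ≤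
      C * ((discr K).natAbs : ℝ) ^ (1 / 2 + ε) := by
  classical
  obtain ⟨C₀, hC₀, h⟩ := Pool.Agent.X9.EV.tor_ev n hn2 (ε / 2) (by positivity)
  -- the logarithm is at most a power
  have hlog : ∀ D : ℝ, 3 ≤ D → 1 + 2 * Real.log D ≤ (1 + 4 / ε) * D ^ (ε / 2) := by
    intro D hD
    have h1 : 1 ≤ D ^ (ε / 2) := Real.one_le_rpow (by linarith) (by positivity)
    have h2 := Real.log_le_rpow_div (show 0 ≤ D by linarith) (show 0 < ε / 2 by positivity)
    have h4 : 2 * Real.log D ≤ 4 / ε * D ^ (ε / 2) := by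
      refine (mul_le_mul_of_nonneg_left h2 (by norm_num)).trans (le_of_eq ?_)
      field_simp
      ring
    linarith
  obtain ⟨B, hB⟩ : ∃ B : ℝ, B = Real.exp ((n : ℝ) * Real.log 300 / ε) := ⟨_, rfl⟩
  have hB0 : 0 < B := by
    rw [hB]
    positivity
  refine ⟨C₀ * (1 + 4 / ε) + C₀ * B, by positivity, ?_⟩
  intro l hl K _ _ hn x hx2 hxD G hG
  obtain ⟨D, hD⟩ : ∃ D : ℝ, D = ((discr K).natAbs : ℝ) := ⟨_, rfl⟩
  have hD3 : 3 ≤ D := by
    have := abs_discr_gt_two (K := K) (by rw [hn]; omega)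
    rw [Int.abs_eq_natAbs] at this
    rw [hD]
    exact_mod_cast this
  have hD0 : 0 < D := by linarith
  obtain ⟨T, hT⟩ : ∃ T : ℝ, T = (Nat.card {c : ClassGroup (𝓞 K) // c ^ l = 1} : ℝ) := ⟨_, rfl⟩
  have hT0 : 0 ≤ T := by
    rw [hT]
    positivity
  rw [← hD] at hxD
  have hx0 : (0 : ℝ) < x := by exact_mod_cast (by omega : 0 < x)
  have hx1 : (1 : ℝ) < x := by exact_mod_cast (by omega : 1 < x)
  have hnr : (2 : ℝ) ≤ n := by exact_mod_cast hn2
  have hlr : (1 : ℝ) ≤ l := by exact_mod_cast hl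
  have hxp : 0 < (x : ℝ) ^ (1 - ε) := by positivity
  have hGx : (G.card : ℝ) ≤ x := by
    have : G ⊆ (range (x + 1)).erase 0 := by
      intro p hp
      rw [mem_erase, mem_range]
      have := hG p hp
      exact ⟨this.1.ne_zero, by omega⟩
    have := card_le_card this
    rw [card_erase_of_mem (by rw [mem_range]; omega), card_range] at this
    exact_mod_cast this
  by_cases hDB : (n : ℝ) * Real.log 300 < ε * Real.log D
  · have h1 := h l hl K hn ((x : ℝ) ^ (1 - ε)) x hxp (by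
      rw [← hD]
      exact size n l hn2 hl ε hε x D hx1 hD0 hxD hDB)
      (G.filter (fun p : ℕ => (x : ℝ) ^ (1 - ε) ≤ p ∧ ¬ p ∣ (discr K).natAbs)) (by
        intro p hp
        rw [mem_filter] at hp
        have := hG p hp.1
        exact ⟨this.1, hp.2.1, by exact_mod_cast this.2.1, hp.2.2, this.2.2⟩)
    rw [← hT, ← hD] at h1
    rw [← hD, ← hT]
    obtain ⟨G', hG'⟩ : ∃ G', G' = G.filter (fun p : ℕ => (x : ℝ) ^ (1 - ε) ≤ p ∧ ¬ p ∣ (discr K).natAbs) := ⟨_, rfl⟩
    rw [← hG'] at h1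
    have hcard : (G.card : ℝ) ≤ G'.card + (x : ℝ) ^ (1 - ε) + 2 * Real.log D := by
      have hsub : G ⊆ G' ∪ (Icc 1 ⌊(x : ℝ) ^ (1 - ε)⌋₊ ∪ (discr K).natAbs.primeFactors) := by
        intro p hp
        have hpG := hG p hp
        rw [mem_union, mem_union, hG', mem_filter, mem_Icc, Nat.mem_primeFactors]
        by_cases h2 : (x : ℝ) ^ (1 - ε) ≤ p
        · by_cases h3 : p ∣ (discr K).natAbs
          · right; right
            exact ⟨hpG.1, h3, Int.natAbs_ne_zero.2 (discr_ne_zero K)⟩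
          · left
            exact ⟨hp, h2, h3⟩
        · right; left
          push Not at h2
          exact ⟨hpG.1.one_lt.le, Nat.le_floor h2.le⟩
      have h2 := (card_le_card hsub).trans ((card_union_le _ _).trans (Nat.add_le_add_left (card_union_le _ _) _))
      have h3 := Pool.Agent.TH869.EVF.card_primeFactors_le (discr K).natAbs (Int.natAbs_ne_zero.2 (discr_ne_zero K))
      rw [← hD] at h3
      have h4 : ((Icc 1 ⌊(x : ℝ) ^ (1 - ε)⌋₊).card : ℝ) ≤ (x : ℝ) ^ (1 - ε) := by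
        rw [Nat.card_Icc, Nat.add_sub_cancel]
        exact Nat.floor_le hxp.le
      have h5 : (G.card : ℝ) ≤ G'.card + ((Icc 1 ⌊(x : ℝ) ^ (1 - ε)⌋₊).card + (discr K).natAbs.primeFactors.card) := by exact_mod_cast h2
      linarith
    have hlD : 0 ≤ Real.log D := Real.log_nonneg (by linarith)
    have hGc : (0 : ℝ) ≤ G'.card := Nat.cast_nonneg _
    calc T * ((G.card : ℝ) - (x : ℝ) ^ (1 - ε)) ≤ T * ((G'.card + 1) * (1 + 2 * Real.log D)) := by
          apply mul_le_mul_of_nonneg_left _ hT0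
          nlinarith
      _ = T * ((G'.card : ℝ) + 1) * (1 + 2 * Real.log D) := by ring
      _ ≤ (C₀ * D ^ (1 / 2 + ε / 2)) * ((1 + 4 / ε) * D ^ (ε / 2)) := by
          have := hlog D hD3
          gcongr
      _ = C₀ * (1 + 4 / ε) * (D ^ (1 / 2 + ε / 2) * D ^ (ε / 2)) := by ring
      _ = C₀ * (1 + 4 / ε) * D ^ (1 / 2 + ε) := by
          rw [← Real.rpow_add hD0]
          congr 2
          ring
      _ ≤ (C₀ * (1 + 4 / ε) + C₀ * B) * D ^ (1 / 2 + ε) := by
          apply mul_le_mul_of_nonneg_right _ (by positivity)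
          have : 0 < C₀ * B := by positivity
          linarith
  · -- small discriminants
    push Not at hDB
    have h1 := h l hl K hn 1 0 one_pos (by
      rw [← hD, mul_zero, zero_pow (by omega), mul_zero, zero_pow (Nat.mul_ne_zero (by omega) (by omega))]
      positivity) ∅ (by simp)
    rw [← hT, ← hD, card_empty, Nat.cast_zero, zero_add, mul_one] at h1
    rw [← hD, ← hT]
    have hDB' : D ≤ B := by
      rw [hB, ← Real.log_le_iff_le_exp hD0, le_div_iff₀ hε]
      linarith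
    have hxB : (x : ℝ) ≤ B := by
      refine (hxD.trans ?_).trans hDB'
      have h2 : D ^ (1 / (2 * (l : ℝ) * (n - 1)) - ε) ≤ D ^ (1 : ℝ) := by
        apply Real.rpow_le_rpow_of_exponent_le (by linarith)
        have h3 : 1 / (2 * (l : ℝ) * (n - 1)) ≤ 1 := by
          rw [div_le_one (by
            apply mul_pos (by linarith)
            linarith)]
          nlinarith
        linarith
      rwa [Real.rpow_one] at h2
    have h2 : D ^ (1 / 2 + ε / 2) ≤ D ^ (1 / 2 + ε) := Real.rpow_le_rpow_of_exponent_le (by linarith) (by linarith)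
    calc T * ((G.card : ℝ) - (x : ℝ) ^ (1 - ε)) ≤ T * B := by
          apply mul_le_mul_of_nonneg_left _ hT0
          linarith
      _ ≤ (C₀ * D ^ (1 / 2 + ε)) * B := by
          apply mul_le_mul_of_nonneg_right _ hB0.le
          exact h1.trans (mul_le_mul_of_nonneg_left h2 hC₀.le)
      _ = (C₀ * B) * D ^ (1 / 2 + ε) := by ring
      _ ≤ _ := by
          apply mul_le_mul_of_nonneg_right _ (by positivity)
          have : 0 < C₀ * (1 + 4 / ε) := by positivity
          linarith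

end Pool.Agent.X22.TL
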