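import Mathlib

/-!
# The number of the points modulo `p` of affine hypersurfaces of degree `n` in `n` variables, as a function of the coefficients of the pure powers
-/

set_option autoImplicit false

namespace Pool.Agent.X22.HS

open Finset MvPolynomial

section
variable {p : ℕ} [hf : Fact p.Prime] {n : ℕ}

/-- sums of polynomials of small degree divisible by a large power of a variable vanish -/
lemma kill (R : MvPolynomial (Fin n) (ZMod p)) (w : Fin n → ℕ) (j : Fin n) (hw : p - 1 < w j)
    (hdeg : R.totalDegree + ∑ i, w i ≤ n * (p - 1)) : ∑ x : Fin n → ZMod p, (∏ i, x i ^ w i) * eval x R = 0 := by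
  have h1 : ∀ x : Fin n → ZMod p, (∏ i, x i ^ w i) * eval x R = ∑ d ∈ R.support, R.coeff d * ∏ i, x i ^ (w i + d i) := by
    intro x
    rw [eval_eq', mul_sum]
    apply sum_congr rfl
    intro d _
    rw [mul_left_comm, ← prod_mul_distrib]
    congr 1
    apply prod_congr rfl
    intro i _
    rw [pow_add]
  rw [sum_congr rfl (fun x _ => h1 x), sum_comm]
  apply sum_eq_zero
  intro d hd
  rw [← mul_sum]
  have h2 : ∑ x : Fin n → ZMod p, ∏ i, x i ^ (w i + d i) = ∏ i, ∑ t : ZMod p, t ^ (w i + d i) := by
    rw [prod_univ_sum, Fintype.piFinset_univ]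
  have h3 : ∑ i, d i ≤ R.totalDegree := by
    have := le_totalDegree hd
    rwa [Finsupp.sum_fintype _ _ (fun _ => rfl)] at this
  obtain ⟨i, hi⟩ : ∃ i, w i + d i < p - 1 := by
    by_contra hcon
    push Not at hcon
    have h4 : ∑ _i : Fin n, (p - 1) < ∑ i, (w i + d i) := by
      apply sum_lt_sum (fun i _ => hcon i)
      exact ⟨j, mem_univ j, by omega⟩
    rw [sum_const, card_univ, Fintype.card_fin, smul_eq_mul, sum_add_distrib] at h4
    omega
  rw [h2, prod_eq_zero (mem_univ i), mul_zero]
  apply FiniteField.sum_pow_lt_card_sub_one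
  rw [ZMod.card]
  exact hi

lemma sum_one_var : ∑ t : ZMod p, t ^ (p - 1) = (-1 : ZMod p) := by
  have h4 : ∀ t : ZMod p, t ^ (p - 1) = if t = 0 then 0 else 1 := by
    intro t
    split_ifs with h0
    · rw [h0, zero_pow]
      have := hf.out.one_lt
      omega
    · exact ZMod.pow_card_sub_one_eq_one h0
  rw [sum_congr rfl (fun t _ => h4 t), ← sum_filter_add_sum_filter_not univ (fun t : ZMod p => t = 0)]
  rw [sum_congr rfl (g := fun _ => (0 : ZMod p)) (fun t ht => by rw [if_pos (mem_filter.1 ht).2]), sum_const_zero, zero_add,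
    sum_congr rfl (g := fun _ => (1 : ZMod p)) (fun t ht => by rw [if_neg (mem_filter.1 ht).2]), sum_const, nsmul_eq_mul, mul_one]
  have h5 : (univ.filter (fun t : ZMod p => ¬ t = 0)).card = p - 1 := by
    rw [filter_ne', card_erase_of_mem (mem_univ _), card_univ, ZMod.card]
  rw [h5, Nat.cast_sub hf.out.one_lt.le]
  simp

/-- the form without the pure powers of the variables in `J` -/
noncomputable def R (g : MvPolynomial (Fin n) (ZMod p)) (J : Finset (Fin n)) (m : Fin n → ZMod p) : MvPolynomial (Fin n) (ZMod p) :=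
  ∑ i ∈ Jᶜ, C (m i) * X i ^ n + g

lemma R_deg (g : MvPolynomial (Fin n) (ZMod p)) (hg : g.totalDegree ≤ n) (J : Finset (Fin n)) (m : Fin n → ZMod p) : (R g J m).totalDegree ≤ n := by
  unfold R
  refine (totalDegree_add _ _).trans (max_le ?_ hg)
  refine (totalDegree_finset_sum _ _).trans (Finset.sup_le (fun i _ => ?_))
  refine (totalDegree_mul _ _).trans ?_
  rw [totalDegree_C, zero_add]
  refine (totalDegree_pow _ _).trans ?_
  rw [totalDegree_X, mul_one]

/-- the sums -/
noncomputable def U (g : MvPolynomial (Fin n) (ZMod p)) (κ : ℕ) (J : Finset (Fin n)) (m : Fin n → ZMod p) : ZMod p :=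
  ∑ x : Fin n → ZMod p, (∏ i ∈ J, x i ^ (p - 1)) * eval x (R g J m) ^ ((n - J.card) * κ)

lemma choose_ne (e d : ℕ) (he : e < p) (hd : d ≤ e) : ((e.choose d : ℕ) : ZMod p) ≠ 0 := by
  rw [Ne, ZMod.natCast_eq_zero_iff]
  intro h
  have h1 : p ∣ e.factorial := by
    rw [← Nat.choose_mul_factorial_mul_factorial hd, mul_assoc]
    exact h.mul_right _
  exact absurd ((hf.out.dvd_factorial).1 h1) (by omega)

lemma R_update (g : MvPolynomial (Fin n) (ZMod p)) (J : Finset (Fin n)) (j : Fin n) (hj : j ∉ J) (m : Fin n → ZMod p) (s : ZMod p) :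
    R g J (Function.update m j s) = C s * X j ^ n + R g (insert j J) m := by
  unfold R
  rw [← add_assoc]
  congr 1
  have h1 : Jᶜ = insert j (insert j J)ᶜ := by
    ext i
    rw [mem_insert, mem_compl, mem_compl, mem_insert]
    by_cases hi : i = j
    · subst hi
      simp [hj]
    · simp [hi]
  rw [h1, sum_insert (by simp)]
  rw [Function.update_self]
  congr 1
  apply sum_congr rfl
  intro i hi
  have : i ≠ j := by
    rintro rfl
    simp at hi
  rw [Function.update_of_ne this]

/-- on a line few points are zeros -/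
lemma line (g : MvPolynomial (Fin n) (ZMod p)) (hg : g.totalDegree ≤ n) (κ : ℕ) (hκ : n * κ = p - 1) (J : Finset (Fin n)) (j : Fin n) (hj : j ∉ J)
    (m : Fin n → ZMod p) (hU : U g κ (insert j J) m ≠ 0) (D : DecidablePred fun s : ZMod p => U g κ J (Function.update m j s) = 0) :
    (@Finset.filter (ZMod p) (fun s => U g κ J (Function.update m j s) = 0) D univ).card ≤ κ := by
  classical
  have hn0 : 0 < n := by
    have := j.2
    omega
  obtain ⟨E, hE⟩ : ∃ E, E = (n - J.card) * κ := ⟨_, rfl⟩
  have hJ : J.card < n := by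
    have h1 : J.card < (insert j J).card := by
      rw [card_insert_of_notMem hj]
      omega
    have h2 : (insert j J).card ≤ n := by
      have := card_le_univ (insert j J)
      rwa [Fintype.card_fin] at this
    omega
  have hκE : κ ≤ E := by
    rw [hE]
    calc κ = 1 * κ := (one_mul κ).symm
      _ ≤ (n - J.card) * κ := Nat.mul_le_mul_right _ (by omega)
  have hEp : E < p := by
    have h1 : E ≤ n * κ := by
      rw [hE]
      exact Nat.mul_le_mul_right _ (by omega)
    have := hf.out.one_lt
    omega
  obtain ⟨V, hV⟩ : ∃ V : ℕ → ZMod p, ∀ k, V k = ∑ x : Fin n → ZMod p, (∏ i ∈ J, x i ^ (p - 1)) * (x j ^ (n * k) * eval x (R g (insert j J) m) ^ (E - k)) :=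
    ⟨_, fun _ => rfl⟩
  have hVk : ∀ k, k ≤ E → κ < k → V k = 0 := by
    intro k hkE hk
    rw [hV]
    have h1 := kill (R g (insert j J) m ^ (E - k)) (fun i => if i ∈ J then p - 1 else if i = j then n * k else 0) j (by
      rw [if_neg hj, if_pos rfl, ← hκ]
      exact Nat.mul_lt_mul_of_pos_left hk hn0) (by
      have h2 : (R g (insert j J) m ^ (E - k)).totalDegree ≤ (E - k) * n :=
        (totalDegree_pow _ _).trans (Nat.mul_le_mul_left _ (R_deg g hg _ m))
      have h3 : ∑ i : Fin n, (if i ∈ J then p - 1 else if i = j then n * k else 0) = J.card * (p - 1) + n * k := by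
        have h4 : ∀ i : Fin n, (if i ∈ J then p - 1 else if i = j then n * k else 0) = (if i ∈ J then p - 1 else 0) + (if i = j then n * k else 0) := by
          intro i
          by_cases hi : i ∈ J
          · have : i ≠ j := by
              rintro rfl
              exact hj hi
            simp [hi, this]
          · simp [hi]
        rw [sum_congr rfl (fun i _ => h4 i), sum_add_distrib, sum_ite_eq' univ j, if_pos (mem_univ j), sum_ite_mem, univ_inter, sum_const, smul_eq_mul]
      rw [h3]
      have h5 : (E - k) * n + n * k = E * n := by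
        rw [mul_comm n k, ← add_mul, Nat.sub_add_cancel hkE]
      have h6 : E * n = (n - J.card) * (p - 1) := by
        rw [hE, mul_assoc, mul_comm κ n, hκ]
      have h7 : (n - J.card) * (p - 1) + J.card * (p - 1) = n * (p - 1) := by
        rw [← add_mul, Nat.sub_add_cancel hJ.le]
      omega)
    rw [← h1]
    apply sum_congr rfl
    intro x _
    rw [map_pow, ← mul_assoc]
    congr 1
    have h8 : ∀ i : Fin n, x i ^ (if i ∈ J then p - 1 else if i = j then n * k else 0) =
        (if i ∈ J then x i ^ (p - 1) else 1) * (if i = j then x j ^ (n * k) else 1) := by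
      intro i
      by_cases hi : i ∈ J
      · have : i ≠ j := by
          rintro rfl
          exact hj hi
        simp [hi, this]
      · by_cases hij : i = j
        · subst hij
          simp [hj]
        · simp [hi, hij]
    rw [prod_congr rfl (fun i _ => h8 i), prod_mul_distrib, prod_ite_eq' univ j, if_pos (mem_univ j), prod_ite_mem, univ_inter]
  have hVκ : V κ = U g κ (insert j J) m := by
    rw [hV]
    unfold U
    apply sum_congr rfl
    intro x _
    rw [prod_insert hj, card_insert_of_notMem hj, hκ]
    have h1 : E - κ = (n - (J.card + 1)) * κ := by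
      rw [hE]
      have h2 : n - J.card = (n - (J.card + 1)) + 1 := by omega
      rw [h2, add_mul, one_mul, Nat.add_sub_cancel]
    rw [h1]
    ring
  obtain ⟨Q, hQ⟩ : ∃ Q : Polynomial (ZMod p), Q = ∑ k ∈ range (κ + 1), Polynomial.C ((E.choose k : ZMod p) * V k) * Polynomial.X ^ k := ⟨_, rfl⟩
  have hdeg : Q.natDegree ≤ κ := by
    rw [hQ]
    apply Polynomial.natDegree_sum_le_of_forall_le
    intro k hk
    rw [mem_range] at hk
    exact (Polynomial.natDegree_C_mul_X_pow_le _ _).trans (by omega)
  have hcoef : Q.coeff κ = (E.choose κ : ZMod p) * V κ := by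
    rw [hQ, Polynomial.finset_sum_coeff, sum_eq_single κ]
    · rw [Polynomial.coeff_C_mul, Polynomial.coeff_X_pow_self, mul_one]
    · intro k _ hk
      rw [Polynomial.coeff_C_mul, Polynomial.coeff_X_pow, if_neg (Ne.symm hk), mul_zero]
    · intro h0
      exact absurd (mem_range.2 (Nat.lt_succ_self κ)) h0
  have hQ0 : Q ≠ 0 := by
    intro h0
    rw [h0, Polynomial.coeff_zero, hVκ] at hcoef
    rcases mul_eq_zero.1 hcoef.symm with h1 | h1
    · exact choose_ne E κ hEp hκE h1
    · exact hU h1
  have hev : ∀ s, U g κ J (Function.update m j s) = Q.eval s := by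
    intro s
    have h1 : U g κ J (Function.update m j s) = ∑ k ∈ range (E + 1), (E.choose k : ZMod p) * V k * s ^ k := by
      unfold U
      have h2 : ∀ x : Fin n → ZMod p, (∏ i ∈ J, x i ^ (p - 1)) * eval x (R g J (Function.update m j s)) ^ ((n - J.card) * κ) =
          ∑ k ∈ range (E + 1), (E.choose k : ZMod p) * ((∏ i ∈ J, x i ^ (p - 1)) * (x j ^ (n * k) * eval x (R g (insert j J) m) ^ (E - k))) * s ^ k := by
        intro x
        rw [R_update g J j hj, map_add, map_mul, eval_C, map_pow, eval_X, ← hE, add_pow, mul_sum]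
        apply sum_congr rfl
        intro k _
        rw [mul_pow, ← pow_mul]
        ring
      rw [sum_congr rfl (fun x _ => h2 x), sum_comm]
      apply sum_congr rfl
      intro k _
      rw [hV, mul_sum, sum_mul]
    rw [h1, hQ, Polynomial.eval_finset_sum]
    have h3 : ∀ k ∈ range (E + 1), k ∉ range (κ + 1) → (E.choose k : ZMod p) * V k * s ^ k = 0 := by
      intro k hk hk'
      rw [mem_range] at hk hk'
      rw [hVk k (by omega) (by omega), mul_zero, zero_mul]
    rw [← sum_subset (range_subset_range.2 (by omega : κ + 1 ≤ E + 1)) h3]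
    apply sum_congr rfl
    intro k _
    rw [Polynomial.eval_mul, Polynomial.eval_C, Polynomial.eval_pow, Polynomial.eval_X]
  have hsub : @Finset.filter (ZMod p) (fun s => U g κ J (Function.update m j s) = 0) D univ ⊆ Q.roots.toFinset := by
    intro s hs
    rw [mem_filter] at hs
    rw [Multiset.mem_toFinset, Polynomial.mem_roots hQ0, Polynomial.IsRoot.def, ← hev]
    exact hs.2
  exact (card_le_card hsub).trans ((Multiset.toFinset_card_le _).trans ((Polynomial.card_roots' Q).trans hdeg))

lemma sum_update (φ : (Fin n → ZMod p) → ℕ) (j : Fin n) :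
    ∑ m : Fin n → ZMod p, ∑ s : ZMod p, φ (Function.update m j s) = p * ∑ m, φ m := by
  classical
  obtain ⟨ε, hε⟩ : ∃ ε : ((Fin n → ZMod p) × ZMod p) ≃ ((Fin n → ZMod p) × ZMod p), ∀ q, ε q = (Function.update q.1 j q.2, q.1 j) :=
    ⟨⟨fun q => (Function.update q.1 j q.2, q.1 j), fun q => (Function.update q.1 j q.2, q.1 j), fun q => by simp, fun q => by simp⟩, fun _ => rfl⟩
  have h1 : ∑ m : Fin n → ZMod p, ∑ s : ZMod p, φ (Function.update m j s) = ∑ q : (Fin n → ZMod p) × ZMod p, φ (ε q).1 := by
    rw [Fintype.sum_prod_type]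
    apply sum_congr rfl
    intro m _
    apply sum_congr rfl
    intro s _
    rw [hε]
  rw [h1, Equiv.sum_comp ε (fun q => φ q.1), Fintype.sum_prod_type]
  simp only [sum_const, card_univ, ZMod.card, smul_eq_mul]
  rw [← mul_sum]

open Classical in
/-- the number of the coefficients with nonzero sum -/
lemma count (g : MvPolynomial (Fin n) (ZMod p)) (hg : g.totalDegree ≤ n) (κ : ℕ) (hκ : n * κ = p - 1) (hn : 1 ≤ n) (k : ℕ) :
    ∀ J : Finset (Fin n), J.card + k = n → (p - κ) ^ k * p ^ n ≤ (univ.filter (fun m : Fin n → ZMod p => U g κ J m ≠ 0)).card * p ^ k := by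
  have hκp : κ ≤ p := by
    have : κ ≤ n * κ := Nat.le_mul_of_pos_left κ hn
    omega
  induction k with
  | zero =>
    intro J hJ
    rw [pow_zero, pow_zero, one_mul, mul_one]
    have h1 : J = univ := by
      rw [← card_eq_iff_eq_univ, Fintype.card_fin]
      omega
    have h2 : ∀ m, U g κ J m ≠ 0 := by
      intro m
      unfold U
      rw [h1, card_univ, Fintype.card_fin, Nat.sub_self, zero_mul]
      simp only [pow_zero, mul_one]
      have h3 : ∏ _i : Fin n, ∑ t : ZMod p, t ^ (p - 1) = ∑ x : Fin n → ZMod p, ∏ i, x i ^ (p - 1) := by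
        rw [prod_univ_sum, Fintype.piFinset_univ]
      rw [← h3, sum_one_var, prod_const]
      exact pow_ne_zero _ (neg_ne_zero.2 one_ne_zero)
    rw [filter_true_of_mem (fun m _ => h2 m), card_univ, Fintype.card_fun, Fintype.card_fin, ZMod.card]
  | succ k ih =>
    intro J hJ
    obtain ⟨j, hj⟩ : ∃ j, j ∉ J := by
      by_contra hcon
      push Not at hcon
      have : J = univ := by
        ext i
        simp [hcon i]
      rw [this, card_univ, Fintype.card_fin] at hJ
      omega
    have h1 := ih (insert j J) (by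
      rw [card_insert_of_notMem hj]
      omega)
    have h2 : (p - κ) * (univ.filter (fun m : Fin n → ZMod p => U g κ (insert j J) m ≠ 0)).card ≤
        p * (univ.filter (fun m : Fin n → ZMod p => U g κ J m ≠ 0)).card := by
      rw [card_filter, card_filter, ← sum_update _ j, mul_sum]
      apply sum_le_sum
      intro m _
      by_cases hm : U g κ (insert j J) m ≠ 0
      · rw [if_pos hm, mul_one, ← card_filter]
        have h3 := line g hg κ hκ J j hj m hm (fun s => inferInstance)
        have h4 : (univ.filter (fun s : ZMod p => U g κ J (Function.update m j s) = 0)).card +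
            (univ.filter (fun s : ZMod p => ¬ U g κ J (Function.update m j s) = 0)).card = p := by
          rw [card_filter_add_card_filter_not, card_univ, ZMod.card]
        have h5 : (univ.filter (fun s : ZMod p => U g κ J (Function.update m j s) = 0)).card ≤ κ := by
          convert h3
        have h6 : p - κ ≤ (univ.filter (fun s : ZMod p => ¬ U g κ J (Function.update m j s) = 0)).card := by omega
        convert h6
      · rw [if_neg hm, mul_zero]
        exact Nat.zero_le _
    calc (p - κ) ^ (k + 1) * p ^ n = (p - κ) * ((p - κ) ^ k * p ^ n) := by ring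
      _ ≤ (p - κ) * ((univ.filter (fun m : Fin n → ZMod p => U g κ (insert j J) m ≠ 0)).card * p ^ k) := Nat.mul_le_mul_left _ h1
      _ = ((p - κ) * (univ.filter (fun m : Fin n → ZMod p => U g κ (insert j J) m ≠ 0)).card) * p ^ k := by ring
      _ ≤ (p * (univ.filter (fun m : Fin n → ZMod p => U g κ J m ≠ 0)).card) * p ^ k := Nat.mul_le_mul_right _ h2
      _ = _ := by ring

/-- the number of the points modulo `p` -/
lemma points_eq (g : MvPolynomial (Fin n) (ZMod p)) (κ : ℕ) (hκ : n * κ = p - 1) (hn : 1 ≤ n) (m : Fin n → ZMod p) :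
    ((Nat.card {x : Fin n → ZMod p // ∑ i, m i * x i ^ n + eval x g = 0} : ℕ) : ZMod p) = -U g κ ∅ m := by
  classical
  have h1 : ∀ x : Fin n → ZMod p, eval x (R g ∅ m) = ∑ i, m i * x i ^ n + eval x g := by
    intro x
    unfold R
    rw [map_add, compl_empty, map_sum]
    congr 1
    apply sum_congr rfl
    intro i _
    rw [map_mul, eval_C, map_pow, eval_X]
  have hp1 := hf.out.one_lt
  unfold U
  simp only [prod_empty, one_mul, card_empty, Nat.sub_zero, hκ, h1]
  have h2 : ∀ x : Fin n → ZMod p, (∑ i, m i * x i ^ n + eval x g) ^ (p - 1) = 1 - if (∑ i, m i * x i ^ n + eval x g = 0) then 1 else 0 := by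
    intro x
    split_ifs with h0
    · rw [h0, zero_pow (by omega), sub_self]
    · rw [ZMod.pow_card_sub_one_eq_one h0, sub_zero]
  rw [sum_congr rfl (fun x _ => h2 x), sum_sub_distrib, sum_const, card_univ, Fintype.card_fun, ZMod.card, Fintype.card_fin, nsmul_eq_mul, mul_one,
    sum_boole, Nat.card_eq_fintype_card, Fintype.card_subtype]
  push_cast
  rw [CharP.cast_eq_zero (ZMod p) p, zero_pow (by omega)]
  ring

end

end Pool.Agent.X22.HS
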