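import Pool.Agent.X22.MuRT

/-!
Library X22.AllLin (helper22): one function with small exponential sums in short windows at a random linear form,
multiplied by an arbitrary function of the other random linear forms.
-/

set_option autoImplicit false

namespace Pool.Agent.X22.MuRT

open Finset Pool.Agent.TH892.RT
open Pool.Agent.TH823.MRS (ExpoSmall)

theorem all_lin {ι : Type} [Fintype ι] (h : ℕ → ℂ) (hb : ∀ n, ‖h n‖ ≤ 1) (hE : ExpoSmall h) (k : ℕ) (ε : ℝ)
    (hε : 0 < ε) :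
    ∃ x₀ : ℕ, ∃ δ : ℝ, 0 < δ ∧ ∀ N x : ℕ, x₀ ≤ x → (x : ℝ) ≤ δ * N →
    ∀ (i0 : ι → Fin k) (Ψ : ι → (Fin k → ℕ × ℕ) → ℕ → ℂ), (∀ l p n, ‖Ψ l p n‖ ≤ 1) →
    (∀ l p v n, Ψ l (Function.update p (i0 l) v) n = Ψ l p n) →
      ∃ E ⊆ pairs k N, (E.card : ℝ) ≤ ε * (pairs k N).card ∧ ∀ p ∈ pairs k N, p ∉ E → ∀ y ≤ x, ∀ l,
        ‖∑ n ∈ Icc 1 y, Ψ l p n * hz h ((p (i0 l)).1 * n + (p (i0 l)).2)‖ ≤ ε * x := by
  classical
  obtain ⟨x₀, δ, hδ0, hδ1, hS⟩ := all_gen (ι := ι) h hb hE k 1 le_rfl 3 (min ε (ε / 9 ^ k)) (by positivity)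
  refine ⟨max x₀ 1, min (δ / 2) 1, by positivity, fun N x hx0 hxN i0 Ψ hΨ hΨu => ?_⟩
  have hx1 : x₀ ≤ x := (le_max_left _ _).trans hx0
  have hx2 : 1 ≤ x := (le_max_right _ _).trans hx0
  have hN0 : (0 : ℝ) ≤ N := by positivity
  have hxN1 : (x : ℝ) ≤ N := hxN.trans (by
    have := min_le_right (δ / 2) 1
    nlinarith)
  have hN1 : 1 ≤ N := hx2.trans (by exact_mod_cast hxN1)
  set H : ℕ := (N + 1) / 2 with hH
  have hH1 : N ≤ 2 * H := by omega
  have hH2 : 2 * H ≤ N + 1 := by omega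
  have hHr : (N : ℝ) ≤ 2 * H := by exact_mod_cast hH1
  have hHr1 : (1 : ℝ) ≤ H := by
    have : 1 ≤ H := by omega
    exact_mod_cast this
  have hxH : (x : ℝ) ≤ δ * H := by
    refine hxN.trans ?_
    calc min (δ / 2) 1 * (N : ℝ) ≤ δ / 2 * (2 * H) := by
          have := min_le_left (δ / 2) 1
          gcongr
      _ = _ := by ring
  set φ : (Fin k → ℕ × ℕ) → (Fin k → Fin (1 + 1) → ℤ) := fun p i j =>
    if j = 0 then ((p i).2 : ℤ) - H else ((p i).1 : ℤ) - (H + 1) with hφ
  set ψ0 : (Fin (1 + 1) → ℤ) → ℕ × ℕ := fun v => ((v 1 + (H + 1)).toNat, (v 0 + H).toNat) with hψ0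
  have hψφ : ∀ p, (fun i => ψ0 (φ p i)) = p := by
    intro p
    funext i
    rw [hψ0, hφ]
    simp only [if_true, Fin.isValue, one_ne_zero, if_false]
    ext <;> simp
  obtain ⟨E, hE', hEc, hEg⟩ := hS H x hx1 hxH (fun _ n => ((H : ℤ) + 1) * n + H) (by
    intro i n hn _
    have hn' : (1 : ℝ) ≤ n := by exact_mod_cast hn
    push_cast
    rw [abs_of_nonneg (by positivity), pow_one]
    nlinarith) i0 (fun l a n => Ψ l (fun i => ψ0 (a i)) n) (fun l a n => hΨ l _ n) (by
    intro l a v n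
    have e1 : (fun i => ψ0 (Function.update a (i0 l) v i)) = Function.update (fun i => ψ0 (a i)) (i0 l) (ψ0 v) := by
      funext i
      by_cases hi : i = i0 l
      · subst hi
        simp only [Function.update_self]
      · simp only [Function.update_of_ne hi]
    rw [e1, hΨu])
  have hφi : ∀ p q, φ p = φ q → p = q := by
    intro p q hpq
    funext i
    have h0 := congrFun (congrFun hpq i) 0
    have h1 := congrFun (congrFun hpq i) 1
    rw [hφ] at h0 h1
    simp only [if_true, Fin.isValue, one_ne_zero, if_false] at h0 h1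
    ext <;> omega
  have hφB : ∀ p ∈ pairs k N, φ p ∈ Bk k 1 H := by
    intro p hp
    unfold pairs at hp
    rw [Fintype.mem_piFinset] at hp
    unfold Bk Bx
    rw [Fintype.mem_piFinset]
    intro i
    rw [Fintype.mem_piFinset]
    intro j
    have := hp i
    rw [mem_product, mem_Icc, mem_range] at this
    rw [hφ, mem_Icc]
    simp only
    split_ifs <;> omega
  have hval : ∀ (p : Fin k → ℕ × ℕ) (i : Fin k) (n : ℕ), pv (φ p i) n + (((H : ℤ) + 1) * n + H) =
      ((p i).1 * n + (p i).2 : ℤ) := by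
    intro p i n
    unfold pv
    rw [hφ]
    rw [Fin.sum_univ_two]
    simp only [Fin.isValue, if_true, Fin.val_zero, pow_zero, mul_one, one_ne_zero, if_false, Fin.val_one, pow_one]
    push_cast
    ring
  refine ⟨(pairs k N).filter (fun p => φ p ∈ E), filter_subset _ _, ?_, ?_⟩
  · have h1 : ((pairs k N).filter (fun p => φ p ∈ E)).card ≤ E.card := by
      apply card_le_card_of_injOn φ
      · intro p hp
        rw [mem_coe, mem_filter] at hp
        exact hp.2
      · intro p _ q _ hpq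
        exact hφi p q hpq
    have h2 : ((Bk k 1 H).card : ℝ) ≤ 9 ^ k * (pairs k N).card := by
      rw [card_Bk, card_pairs]
      push_cast
      rw [card_Bx, ← mul_pow]
      apply pow_le_pow_left₀ (by positivity)
      have h3 : (2 * (H : ℝ) + 1) ≤ N + 2 := by
        have : (2 * (H : ℝ)) ≤ N + 1 := by exact_mod_cast hH2
        linarith
      have h4 : (1 : ℝ) ≤ N := by exact_mod_cast hN1
      have h5 : (0 : ℝ) ≤ 2 * (H : ℝ) + 1 := by positivity
      have h6 : (2 * (H : ℝ) + 1) ≤ 3 * N := by linarith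
      calc (2 * (H : ℝ) + 1) ^ (1 + 1) ≤ (3 * (N : ℝ)) ^ (1 + 1) := pow_le_pow_left₀ h5 h6 _
        _ = 9 * (N * N) := by ring
        _ ≤ 9 * ((N : ℝ) * (N + 1)) := by
            have : (N : ℝ) ≤ N + 1 := by linarith
            gcongr
    calc ((((pairs k N).filter (fun p => φ p ∈ E)).card : ℕ) : ℝ) ≤ E.card := by exact_mod_cast h1
      _ ≤ min ε (ε / 9 ^ k) * (Bk k 1 H).card := hEc
      _ ≤ ε / 9 ^ k * (9 ^ k * (pairs k N).card) := by
          have := min_le_right ε (ε / 9 ^ k)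
          gcongr
      _ = _ := by field_simp
  · intro p hp hpE y hy l
    have hpE' : φ p ∉ E := fun h => hpE (mem_filter.2 ⟨hp, h⟩)
    have g1 := hEg (φ p) (hφB p hp) hpE' y hy l
    have hle : min ε (ε / 9 ^ k) * (x : ℝ) ≤ ε * x := by
      have := min_le_left ε (ε / 9 ^ k)
      gcongr
    simp only [hval, hψφ] at g1
    exact g1.trans hle

end Pool.Agent.X22.MuRT
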