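import Pool.Agent.X22.ND4

/-!
# Complex quantities with mean zero, twisted by `p ^ (-i τ)` at all heights
-/

set_option autoImplicit false

namespace Pool.Agent.X22.ND

open Finset Pool.Agent.TH894.NE
open Pool.Agent.TH894.SM (change)

lemma mean_add' (d p : ℕ) (F G : (Fin d → ℕ) → ℝ) : mean d p (fun m => F m + G m) = mean d p F + mean d p G := by
  unfold mean
  rw [sum_add_distrib, mul_add]

lemma mean_mono (d p : ℕ) (F G : (Fin d → ℕ) → ℝ) (h : ∀ m, F m ≤ G m) : mean d p F ≤ mean d p G := by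
  unfold mean
  exact mul_le_mul_of_nonneg_left (sum_le_sum (fun m _ => h m)) (by positivity)

lemma cardop_le (x : ℕ) : ((op x).card : ℝ) ≤ x := by
  have : (op x).card ≤ (Icc 1 x).card := by
    apply card_le_card
    intro p hp
    rw [mem_op] at hp
    rw [mem_Icc]
    exact ⟨hp.2.1.one_lt.le, hp.1⟩
  rw [Nat.card_Icc, Nat.add_sub_cancel] at this
  exact_mod_cast this

/-- `p ^ (-i τ)` -/
noncomputable def hp (τ : ℝ) (p : ℕ) : ℂ := Complex.exp (((-(τ * Real.log p) : ℝ) : ℂ) * Complex.I)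

lemma norm_hp (τ : ℝ) (p : ℕ) : ‖hp τ p‖ = 1 := Complex.norm_exp_ofReal_mul_I _

lemma hp_re (τ : ℝ) (p : ℕ) : (hp τ p).re = Real.cos (-(τ * Real.log p)) := Complex.exp_ofReal_mul_I_re _
lemma hp_im (τ : ℝ) (p : ℕ) : (hp τ p).im = Real.sin (-(τ * Real.log p)) := Complex.exp_ofReal_mul_I_im _

lemma hp_sub (τ σ : ℝ) (p : ℕ) (hp1 : 1 ≤ p) : ‖hp τ p - hp σ p‖ ≤ |τ - σ| * Real.log p := by
  have e1 : hp τ p = hp σ p * Complex.exp (((-((τ - σ) * Real.log p) : ℝ) : ℂ) * Complex.I) := by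
    unfold hp
    rw [← Complex.exp_add]
    congr 1
    push_cast
    ring
  have e2 : hp τ p - hp σ p = hp σ p * (Complex.exp (((-((τ - σ) * Real.log p) : ℝ) : ℂ) * Complex.I) - 1) := by
    rw [e1]
    ring
  rw [e2, norm_mul, norm_hp, one_mul]
  have e3 := Real.norm_exp_I_mul_ofReal_sub_one_le (x := -((τ - σ) * Real.log p))
  rw [mul_comm Complex.I] at e3
  refine e3.trans (le_of_eq ?_)
  rw [Real.norm_eq_abs, abs_neg, abs_mul, abs_of_nonneg (Real.log_nonneg (by exact_mod_cast hp1))]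

open Classical in
/-- **Complex quantities with mean zero at all heights.** -/
theorem mzc_law (b d : ℕ) (hb : 2 ≤ b) (hd : 1 ≤ d) (δ : ℝ) (hδ : 0 < δ) (A B C : ℕ) : ∃ c : ℝ, 0 < c ∧ ∃ y₀ : ℕ,
    ∀ (K r : Fin d → ℕ) (y : ℕ), (∀ l, 2 * r l ≤ K l) → y₀ ≤ y →
    ∀ N : Fin d → ℕ, (∀ l, N l < b ^ K l) → ∀ f : Fin d → ℕ → ℕ, (∀ l j, f l j < b ∧ f l j ≠ N l / b ^ j % b) →
    ∀ (κ : Type) (Λ : ℕ → Finset κ), (∀ x, 2 ≤ x → (Λ x).card ≤ x ^ B) →
    ∀ (Z : ℕ → κ → ℕ → (Fin d → ℕ) → ℂ), (∀ x l p m, p.Prime → Z x l p m = Z x l p (fun i => m i % p)) →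
    ∀ (M : ℕ → κ → ℝ), (∀ x, 2 ≤ x → ∀ l ∈ Λ x, 0 ≤ M x l) →
    (∀ x, 2 ≤ x → ∀ l ∈ Λ x, ∀ p ∈ op x, ∀ m, ‖Z x l p m‖ ≤ M x l) →
    (∀ x, 2 ≤ x → ∀ l ∈ Λ x, ∀ p ∈ op x, mean d p (fun m => (Z x l p m).re) = 0) →
    (∀ x, 2 ≤ x → ∀ l ∈ Λ x, ∀ p ∈ op x, mean d p (fun m => (Z x l p m).im) = 0) →
    (∀ x, 2 ≤ x → ∀ l ∈ Λ x, ∑ p ∈ op x, mean d p (fun m => ‖Z x l p m‖ ^ 2) ≤ M x l ^ 2) →
    ∀ E : (Fin d → ℕ) → Prop,
    (∀ m, (∀ x : ℕ, y ≤ x → (∀ l, (x : ℝ) ≤ Real.exp (c * r l)) → ∀ l ∈ Λ x, ∀ τ : ℝ, |τ| ≤ (x : ℝ) ^ C →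
      ‖∑ p ∈ op x, Z x l p m * hp τ p‖ ≤ M x l * (x : ℝ) ^ δ) → E m) →
      ((((Fintype.piFinset (fun l => powersetCard (r l) (range (K l)))).filter
        (fun T => ¬ E (fun l => change b (K l) (N l) (f l) (T l)))).card : ℕ) : ℝ) ≤ 1 / (y : ℝ) ^ A * ∏ l, ((K l).choose (r l) : ℝ) := by
  obtain ⟨c, hc, y₀, h⟩ := mz_law b d hb hd (δ / 2) (by positivity) A (B + (C + 6))
  obtain ⟨x₁, hx₁⟩ := absorb 3 (δ / 2) (by positivity) (by positivity)
  refine ⟨c, hc, y₀ + x₁ + 2, fun K r y hrK hy N hN f hf κ Λ hΛ Z hZ M hM0 hM hmr hmi hvar E hE => ?_⟩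
  obtain ⟨W, hW⟩ : ∃ W : ℕ → κ × (Bool × ℤ) → ℕ → (Fin d → ℕ) → ℝ, W = fun x q p m =>
      if q.2.1 then (Z x q.1 p m * hp ((q.2.2 : ℝ) / (x : ℝ) ^ 2) p).re else (Z x q.1 p m * hp ((q.2.2 : ℝ) / (x : ℝ) ^ 2) p).im := ⟨_, rfl⟩
  have hW1 : ∀ x q p m, |W x q p m| ≤ ‖Z x q.1 p m‖ := by
    intro x q p m
    rw [hW]
    show |if q.2.1 then _ else _| ≤ _
    have e1 : ‖Z x q.1 p m * hp ((q.2.2 : ℝ) / (x : ℝ) ^ 2) p‖ = ‖Z x q.1 p m‖ := by
      rw [norm_mul, norm_hp, mul_one]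
    rw [← e1]
    split_ifs
    · exact Complex.abs_re_le_norm _
    · exact Complex.abs_im_le_norm _
  refine h K r y hrK (by omega) N hN f hf (κ × (Bool × ℤ))
    (fun x => (Λ x) ×ˢ ((univ : Finset Bool) ×ˢ (Icc (-((x : ℤ) ^ (C + 2))) ((x : ℤ) ^ (C + 2))))) ?_ W ?_ (fun x q => M x q.1) ?_ ?_ ?_ ?_ E ?_
  · intro x hx
    rw [card_product, card_product, card_univ, Fintype.card_bool, Int.card_Icc, pow_add x B (C + 6)]
    apply Nat.mul_le_mul (hΛ x hx)
    have e2 : ((x : ℤ) ^ (C + 2) + 1 - -((x : ℤ) ^ (C + 2))).toNat = 2 * x ^ (C + 2) + 1 := by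
      have e3 : (x : ℤ) ^ (C + 2) + 1 - -((x : ℤ) ^ (C + 2)) = ((2 * x ^ (C + 2) + 1 : ℕ) : ℤ) := by
        push_cast
        ring
      rw [e3, Int.toNat_natCast]
    rw [e2]
    have e4 : 1 ≤ x ^ (C + 2) := Nat.one_le_pow _ _ (by omega)
    have e5 : x ^ (C + 6) = x ^ (C + 2) * x ^ 4 := by ring
    have e6 : 16 ≤ x ^ 4 := by
      have := Nat.pow_le_pow_left hx 4
      simpa using this
    rw [e5]
    nlinarith
  · intro x q p m hp'
    rw [hW]
    simp only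
    rw [← hZ x q.1 p m hp']
  · intro x hx q hq
    rw [mem_product] at hq
    exact hM0 x hx q.1 hq.1
  · intro x hx q hq p hp' m
    rw [mem_product] at hq
    exact (hW1 x q p m).trans (hM x hx q.1 hq.1 p hp' m)
  · intro x hx q hq p hp'
    rw [mem_product] at hq
    have hr := hmr x hx q.1 hq.1 p hp'
    have hi := hmi x hx q.1 hq.1 p hp'
    obtain ⟨e, he⟩ : ∃ e, e = hp ((q.2.2 : ℝ) / (x : ℝ) ^ 2) p := ⟨_, rfl⟩
    by_cases hb' : q.2.1 = true
    · have e1 : W x q p = fun m => e.re * (Z x q.1 p m).re + (-e.im) * (Z x q.1 p m).im := by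
        funext m
        rw [hW]
        simp only [hb', if_true]
        rw [Complex.mul_re, ← he]
        ring
      rw [e1, mean_add', mean_mul, mean_mul, hr, hi]
      simp
    · have e1 : W x q p = fun m => e.im * (Z x q.1 p m).re + e.re * (Z x q.1 p m).im := by
        funext m
        rw [hW]
        simp only [hb', Bool.false_eq_true, if_false]
        rw [Complex.mul_im, ← he]
        ring
      rw [e1, mean_add', mean_mul, mean_mul, hr, hi]
      simp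
  · intro x hx q hq
    rw [mem_product] at hq
    refine le_trans (sum_le_sum (fun p _ => mean_mono d p _ _ (fun m => ?_))) (hvar x hx q.1 hq.1)
    rw [← sq_abs]
    exact pow_le_pow_left₀ (abs_nonneg _) (hW1 x q p m) 2
  · intro m hm
    apply hE
    intro x hyx hxr l hl τ hτ
    have hx2 : 2 ≤ x := by omega
    have hx0 : (0 : ℝ) < x := by exact_mod_cast (by omega : 0 < x)
    have hx1 : (1 : ℝ) ≤ x := by exact_mod_cast (by omega : 1 ≤ x)
    have hM0' := hM0 x hx2 l hl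
    obtain ⟨j, hj⟩ : ∃ j : ℤ, j = ⌊τ * (x : ℝ) ^ 2⌋ := ⟨_, rfl⟩
    have hj1 : (j : ℝ) ≤ τ * (x : ℝ) ^ 2 := by rw [hj]; exact Int.floor_le _
    have hj2 : τ * (x : ℝ) ^ 2 < j + 1 := by rw [hj]; exact Int.lt_floor_add_one _
    obtain ⟨σ, hσ⟩ : ∃ σ : ℝ, σ = (j : ℝ) / (x : ℝ) ^ 2 := ⟨_, rfl⟩
    have hστ : |τ - σ| ≤ 1 / (x : ℝ) ^ 2 := by
      have hx2p : (0 : ℝ) < (x : ℝ) ^ 2 := by positivity
      have e1 : τ - σ = (τ * (x : ℝ) ^ 2 - j) / (x : ℝ) ^ 2 := by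
        rw [hσ]
        field_simp
      rw [e1, abs_div, abs_of_pos hx2p, abs_of_nonneg (by linarith)]
      apply div_le_div_of_nonneg_right _ hx2p.le
      linarith
    have hjmem : j ∈ Icc (-((x : ℤ) ^ (C + 2))) ((x : ℤ) ^ (C + 2)) := by
      rw [abs_le] at hτ
      rw [mem_Icc]
      constructor
      · have h3 : -((x : ℝ) ^ (C + 2)) < (j : ℝ) + 1 := by
          calc -((x : ℝ) ^ (C + 2)) = -((x : ℝ) ^ C) * (x : ℝ) ^ 2 := by ring
            _ ≤ τ * (x : ℝ) ^ 2 := mul_le_mul_of_nonneg_right hτ.1 (by positivity)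
            _ < _ := hj2
        have h4 : -((x : ℤ) ^ (C + 2)) < j + 1 := by exact_mod_cast h3
        omega
      · have h3 : (j : ℝ) ≤ (x : ℝ) ^ (C + 2) := by
          calc (j : ℝ) ≤ τ * (x : ℝ) ^ 2 := hj1
            _ ≤ (x : ℝ) ^ C * (x : ℝ) ^ 2 := mul_le_mul_of_nonneg_right hτ.2 (by positivity)
            _ = _ := by ring
        exact_mod_cast h3
    have hre := hm x hyx hxr (l, true, j) (by
      rw [mem_product, mem_product]
      exact ⟨hl, mem_univ _, hjmem⟩)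
    have him := hm x hyx hxr (l, false, j) (by
      rw [mem_product, mem_product]
      exact ⟨hl, mem_univ _, hjmem⟩)
    have e1 : (∑ p ∈ op x, Z x l p m * hp σ p).re = ∑ p ∈ op x, W x (l, true, j) p m := by
      rw [Complex.re_sum]
      apply sum_congr rfl
      intro p _
      rw [hW, hσ]
      simp only [if_true]
    have e2 : (∑ p ∈ op x, Z x l p m * hp σ p).im = ∑ p ∈ op x, W x (l, false, j) p m := by
      rw [Complex.im_sum]
      apply sum_congr rfl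
      intro p _
      rw [hW, hσ]
      simp only [Bool.false_eq_true, if_false]
    have e3 : ‖∑ p ∈ op x, Z x l p m * hp σ p‖ ≤ 2 * (M x l * (x : ℝ) ^ (δ / 2)) := by
      refine (Complex.norm_le_abs_re_add_abs_im _).trans ?_
      rw [e1, e2]
      have := add_le_add hre him
      simp only at this
      linarith
    have e4 : ‖∑ p ∈ op x, Z x l p m * hp τ p - ∑ p ∈ op x, Z x l p m * hp σ p‖ ≤ M x l := by
      rw [← sum_sub_distrib]
      refine (norm_sum_le _ _).trans ?_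
      have hone : ∀ p ∈ op x, ‖Z x l p m * hp τ p - Z x l p m * hp σ p‖ ≤ M x l * (1 / x) := by
        intro p hp'
        have hp'' := hp'
        rw [mem_op] at hp''
        have hp1 : (1 : ℝ) ≤ p := by exact_mod_cast hp''.2.1.one_lt.le
        have hpx : (p : ℝ) ≤ x := by exact_mod_cast hp''.1
        have hlx : Real.log p ≤ Real.log x := Real.log_le_log (by linarith) hpx
        have hlxx : Real.log x ≤ x := (Real.log_le_sub_one_of_pos hx0).trans (by linarith)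
        rw [← mul_sub, norm_mul]
        apply mul_le_mul (hM x hx2 l hl p hp' m) _ (norm_nonneg _) hM0'
        refine (hp_sub τ σ p hp''.2.1.one_lt.le).trans ?_
        calc |τ - σ| * Real.log p ≤ (1 / (x : ℝ) ^ 2) * x := by
              apply mul_le_mul hστ (hlx.trans hlxx) (Real.log_nonneg hp1) (by positivity)
          _ = 1 / x := by
              field_simp
      refine (sum_le_sum hone).trans ?_
      rw [sum_const, nsmul_eq_mul]
      calc ((op x).card : ℝ) * (M x l * (1 / x)) ≤ x * (M x l * (1 / x)) :=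
            mul_le_mul_of_nonneg_right (cardop_le x) (by positivity)
        _ = M x l := by
            field_simp
    have h3 := hx₁ x (by omega)
    have hlx0 : 0 ≤ Real.log x := Real.log_natCast_nonneg x
    have hpow : (x : ℝ) ^ δ = (x : ℝ) ^ (δ / 2) * (x : ℝ) ^ (δ / 2) := by
      rw [← Real.rpow_add hx0]
      congr 1
      ring
    have hge1 : (1 : ℝ) ≤ (x : ℝ) ^ (δ / 2) := Real.one_le_rpow hx1 (by positivity)
    have h33 : (3 : ℝ) ≤ (x : ℝ) ^ (δ / 2) := by nlinarith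
    calc ‖∑ p ∈ op x, Z x l p m * hp τ p‖ ≤ ‖∑ p ∈ op x, Z x l p m * hp σ p‖ +
          ‖∑ p ∈ op x, Z x l p m * hp τ p - ∑ p ∈ op x, Z x l p m * hp σ p‖ := norm_le_norm_add_norm_sub' _ _
      _ ≤ 2 * (M x l * (x : ℝ) ^ (δ / 2)) + M x l := add_le_add e3 e4
      _ ≤ 2 * (M x l * (x : ℝ) ^ (δ / 2)) + M x l * (x : ℝ) ^ (δ / 2) := by
          have := mul_le_mul_of_nonneg_left hge1 hM0'
          linarith
      _ = M x l * (3 * (x : ℝ) ^ (δ / 2)) := by ring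
      _ ≤ M x l * ((x : ℝ) ^ (δ / 2) * (x : ℝ) ^ (δ / 2)) := by gcongr
      _ = M x l * (x : ℝ) ^ δ := by rw [hpow]

end Pool.Agent.X22.ND
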