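import Pool.Agent.X22.MT3
import Pool.Agent.X22.ND5

set_option autoImplicit false

/-! Sums of multiplicative functions at few-digit vectors: all lengths. -/

namespace Pool.Agent.X22.MT
open Finset
open Pool.Agent.TH894.ND Pool.Agent.TH894.NE
open Pool.Agent.TH894.SM (change)
open Pool.Agent.X22.ND (hp norm_hp hp_sub absorb)

open Classical in
/-- **Sums of multiplicative functions at few-digit vectors.** -/
theorem mt_law (b d : ℕ) (hb : 2 ≤ b) (hd : 1 ≤ d) (δ : ℝ) (hδ : 0 < δ) (A B C : ℕ) : ∃ c : ℝ, 0 < c ∧ ∃ y₀ : ℕ,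
    ∀ (K r : Fin d → ℕ) (y : ℕ), (∀ l, 2 * r l ≤ K l) → y₀ ≤ y →
    ∀ N : Fin d → ℕ, (∀ l, N l < b ^ K l) → ∀ f : Fin d → ℕ → ℕ, (∀ l j, f l j < b ∧ f l j ≠ N l / b ^ j % b) →
    ∀ (κ : Type) (Λ : ℕ → Finset κ), (∀ x, y ≤ x → (Λ x).card ≤ x ^ B) →
    ∀ (F : ℕ → κ → ℕ → (Fin d → ℕ) → ℂ), (∀ x, y ≤ x → ∀ l ∈ Λ x, Fam d (b * b).factorial x ((x : ℝ) ^ (δ / 8)) (F x l)) →
    ∀ (w : ℕ → κ → ℕ → ℂ), (∀ x l n, ‖w x l n‖ ≤ 1) →
    ∀ E : (Fin d → ℕ) → Prop,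
    (∀ m, (∀ x : ℕ, y ≤ x → (∀ l, (x : ℝ) ≤ Real.exp (c * r l)) → ∀ l ∈ Λ x, ∀ τ : ℝ, |τ| ≤ (x : ℝ) ^ C →
      ‖∑ n ∈ nn (b * b).factorial x, w x l n * F x l n m * hp τ n‖ ≤ (x : ℝ) ^ (1 / 2 + δ)) → E m) →
      ((((Fintype.piFinset (fun l => powersetCard (r l) (range (K l)))).filter
        (fun T => ¬ E (fun l => change b (K l) (N l) (f l) (T l)))).card : ℕ) : ℝ) ≤ 1 / (y : ℝ) ^ A * ∏ l, ((K l).choose (r l) : ℝ) := by
  obtain ⟨c, hc, x₀, h⟩ := mt_one b d hb hd (δ / 2) (by positivity) (A + B + C + 8)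
  obtain ⟨x₁, hx₁⟩ := absorb 2 (δ / 2) (by positivity) (by positivity)
  refine ⟨c, hc, x₀ + x₁ + 2, fun K r y hrK hy N hN f hf κ Λ hΛ F hF w hw E hE => ?_⟩
  have hy0 : (0 : ℝ) < y := by exact_mod_cast (by omega : 0 < y)
  obtain ⟨L, hL⟩ : ∃ L, L = (b * b).factorial := ⟨_, rfl⟩
  obtain ⟨P, hP⟩ : ∃ P : ℝ, P = ∏ i, ((K i).choose (r i) : ℝ) := ⟨_, rfl⟩
  have hP0 : 0 ≤ P := by rw [hP]; exact prod_nonneg fun i _ => Nat.cast_nonneg _
  -- the exceptions for one length, one system and one height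
  obtain ⟨ex, hex⟩ : ∃ ex : ℕ → κ × ℤ → Finset (Fin d → Finset ℕ), ex = fun (x : ℕ) (q : κ × ℤ) =>
      (Fintype.piFinset (fun l => powersetCard (r l) (range (K l)))).filter (fun T => (∀ l, (x : ℝ) ≤ Real.exp (c * r l)) ∧
        (x : ℝ) ^ (1 / 2 + δ / 2) < ‖∑ n ∈ nn L x, (w x q.1 n * hp ((q.2 : ℝ) / (x : ℝ) ^ 2) n) * F x q.1 n (fun l => change b (K l) (N l) (f l) (T l))‖) := ⟨_, rfl⟩
  have hexc : ∀ x, y ≤ x → ∀ q : κ × ℤ, q.1 ∈ Λ x → ((ex x q).card : ℝ) ≤ (x : ℝ) ^ (-((A + B + C + 8 : ℕ) : ℝ)) * P := by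
    intro x hyx q hq
    have hx0 : (0 : ℝ) < x := by exact_mod_cast (by omega : 0 < x)
    by_cases hxr : ∀ l, (x : ℝ) ≤ Real.exp (c * r l)
    · rw [hP]
      refine h r K x hrK (by omega) (fun i => (Real.log_le_iff_le_exp hx0).2 (hxr i)) N hN f hf (F x q.1) ?_
        (fun n => w x q.1 n * hp ((q.2 : ℝ) / (x : ℝ) ^ 2) n) ?_ (ex x q) ?_ ?_
      · have := hF x hyx q.1 hq
        have e : δ / 2 / 4 = δ / 8 := by ring
        rw [e]
        exact this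
      · intro n
        rw [norm_mul, norm_hp, mul_one]
        exact hw x q.1 n
      · rw [hex]
        exact filter_subset _ _
      · intro S hS
        rw [hex, mem_filter] at hS
        rw [← hL]
        exact hS.2.2
    · have : ex x q = ∅ := by
        rw [hex]
        apply filter_false_of_mem
        intro T _ hT
        exact hxr hT.1
      rw [this, card_empty, Nat.cast_zero]
      positivity
  -- the heights
  obtain ⟨J, hJ⟩ : ∃ J : ℕ → Finset ℤ, J = fun (x : ℕ) => Icc (-((x : ℤ) ^ (C + 2))) ((x : ℤ) ^ (C + 2)) := ⟨_, rfl⟩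
  have hJc : ∀ x, 2 ≤ x → (J x).card ≤ x ^ (C + 4) := by
    intro x hx
    rw [hJ]
    show (Icc (-((x : ℤ) ^ (C + 2))) ((x : ℤ) ^ (C + 2))).card ≤ _
    rw [Int.card_Icc]
    have e2 : ((x : ℤ) ^ (C + 2) + 1 - -((x : ℤ) ^ (C + 2))).toNat = 2 * x ^ (C + 2) + 1 := by
      have e3 : (x : ℤ) ^ (C + 2) + 1 - -((x : ℤ) ^ (C + 2)) = ((2 * x ^ (C + 2) + 1 : ℕ) : ℤ) := by
        push_cast
        ring
      rw [e3, Int.toNat_natCast]
    rw [e2]
    have e4 : 1 ≤ x ^ (C + 2) := Nat.one_le_pow _ _ (by omega)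
    have e5 : x ^ (C + 4) = x ^ (C + 2) * x ^ 2 := by ring
    have e6 : 4 ≤ x ^ 2 := by
      have := Nat.pow_le_pow_left hx 2
      simpa using this
    rw [e5]
    nlinarith
  -- the largest length
  obtain ⟨X, hX⟩ := exists_nat_ge (Real.exp (c * r ⟨0, hd⟩))
  have hsub : ((Fintype.piFinset (fun l => powersetCard (r l) (range (K l)))).filter
        (fun T => ¬ E (fun l => change b (K l) (N l) (f l) (T l)))) ⊆ (Icc y X).biUnion (fun x => ((Λ x) ×ˢ (J x)).biUnion (fun q => ex x q)) := by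
    intro T hT
    rw [mem_filter] at hT
    by_contra hcon
    apply hT.2
    apply hE
    intro x hyx hxr l hl τ hτ
    have hx2 : 2 ≤ x := by omega
    have hx0 : (0 : ℝ) < x := by exact_mod_cast (by omega : 0 < x)
    have hx1 : (1 : ℝ) ≤ x := by exact_mod_cast (by omega : 1 ≤ x)
    obtain ⟨j, hj⟩ : ∃ j : ℤ, j = ⌊τ * (x : ℝ) ^ 2⌋ := ⟨_, rfl⟩
    have hj1 : (j : ℝ) ≤ τ * (x : ℝ) ^ 2 := by rw [hj]; exact Int.floor_le _
    have hj2 : τ * (x : ℝ) ^ 2 < j + 1 := by rw [hj]; exact Int.lt_floor_add_one _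
    obtain ⟨σ, hσ⟩ : ∃ σ : ℝ, σ = (j : ℝ) / (x : ℝ) ^ 2 := ⟨_, rfl⟩
    have hστ : |τ - σ| ≤ 1 / (x : ℝ) ^ 2 := by
      have hx2p : (0 : ℝ) < (x : ℝ) ^ 2 := by positivity
      have e1 : τ - σ = (τ * (x : ℝ) ^ 2 - j) / (x : ℝ) ^ 2 := by
        rw [hσ]
        field_simp
      rw [e1, abs_div, abs_of_pos hx2p, abs_of_nonneg (by linarith)]
      apply div_le_div_of_nonneg_right _ hx2p.le
      linarith
    have hjmem : j ∈ J x := by
      rw [hJ]
      show j ∈ Icc (-((x : ℤ) ^ (C + 2))) ((x : ℤ) ^ (C + 2))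
      rw [abs_le] at hτ
      rw [mem_Icc]
      constructor
      · have h3 : -((x : ℝ) ^ (C + 2)) < (j : ℝ) + 1 := by
          calc -((x : ℝ) ^ (C + 2)) = -((x : ℝ) ^ C) * (x : ℝ) ^ 2 := by ring
            _ ≤ τ * (x : ℝ) ^ 2 := mul_le_mul_of_nonneg_right hτ.1 (by positivity)
            _ < _ := hj2
        have h4 : -((x : ℤ) ^ (C + 2)) < j + 1 := by exact_mod_cast h3
        omega
      · have h3 : (j : ℝ) ≤ (x : ℝ) ^ (C + 2) := by
          calc (j : ℝ) ≤ τ * (x : ℝ) ^ 2 := hj1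
            _ ≤ (x : ℝ) ^ C * (x : ℝ) ^ 2 := mul_le_mul_of_nonneg_right hτ.2 (by positivity)
            _ = _ := by ring
        exact_mod_cast h3
    have hxX : x ∈ Icc y X := by
      rw [mem_Icc]
      refine ⟨hyx, ?_⟩
      have := (hxr ⟨0, hd⟩).trans hX
      exact_mod_cast this
    obtain ⟨m, hm⟩ : ∃ m : Fin d → ℕ, m = fun l => change b (K l) (N l) (f l) (T l) := ⟨_, rfl⟩
    have hσb : ‖∑ n ∈ nn L x, (w x l n * hp σ n) * F x l n m‖ ≤ (x : ℝ) ^ (1 / 2 + δ / 2) := by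
      by_contra hcon2
      push Not at hcon2
      apply hcon
      rw [mem_biUnion]
      refine ⟨x, hxX, ?_⟩
      rw [mem_biUnion]
      refine ⟨(l, j), mem_product.2 ⟨hl, hjmem⟩, ?_⟩
      rw [hex, mem_filter]
      refine ⟨hT.1, hxr, ?_⟩
      rw [hm, hσ] at hcon2
      exact hcon2
    rw [← hL, ← hm]
    have hFB : ∀ n ∈ nn L x, ‖F x l n m‖ ≤ (x : ℝ) ^ (δ / 8) := by
      intro n hn
      rw [hL] at hn
      exact (hF x hyx l hl).bnd n hn m
    have e4 : ‖∑ n ∈ nn L x, w x l n * F x l n m * hp τ n - ∑ n ∈ nn L x, (w x l n * hp σ n) * F x l n m‖ ≤ (x : ℝ) ^ (δ / 8) := by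
      rw [← sum_sub_distrib]
      refine (norm_sum_le _ _).trans ?_
      have hone : ∀ n ∈ nn L x, ‖w x l n * F x l n m * hp τ n - (w x l n * hp σ n) * F x l n m‖ ≤ (x : ℝ) ^ (δ / 8) * (1 / x) := by
        intro n hn
        have hn' := mem_nn.1 hn
        have hn1 : (1 : ℝ) ≤ n := by exact_mod_cast hn'.1.1
        have hnx : (n : ℝ) ≤ x := by exact_mod_cast hn'.1.2
        have hlx : Real.log n ≤ Real.log x := Real.log_le_log (by linarith) hnx
        have hlxx : Real.log x ≤ x := (Real.log_le_sub_one_of_pos hx0).trans (by linarith)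
        have e5 : w x l n * F x l n m * hp τ n - (w x l n * hp σ n) * F x l n m = (w x l n * F x l n m) * (hp τ n - hp σ n) := by ring
        rw [e5, norm_mul, norm_mul]
        have e6 : ‖w x l n‖ * ‖F x l n m‖ ≤ (x : ℝ) ^ (δ / 8) := by
          calc ‖w x l n‖ * ‖F x l n m‖ ≤ 1 * (x : ℝ) ^ (δ / 8) := mul_le_mul (hw _ _ _) (hFB n hn) (norm_nonneg _) zero_le_one
            _ = _ := one_mul _
        apply mul_le_mul e6 _ (norm_nonneg _) (by positivity)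
        refine (hp_sub τ σ n hn'.1.1).trans ?_
        calc |τ - σ| * Real.log n ≤ (1 / (x : ℝ) ^ 2) * x := by
              apply mul_le_mul hστ (hlx.trans hlxx) (Real.log_nonneg hn1) (by positivity)
          _ = 1 / x := by
              field_simp
      refine (sum_le_sum hone).trans ?_
      rw [sum_const, nsmul_eq_mul]
      have hc1 : ((nn L x).card : ℝ) ≤ x := by
        have : (nn L x).card ≤ x := by
          unfold nn
          refine (card_filter_le _ _).trans ?_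
          rw [Nat.card_Icc, Nat.add_sub_cancel]
        exact_mod_cast this
      calc ((nn L x).card : ℝ) * ((x : ℝ) ^ (δ / 8) * (1 / x)) ≤ x * ((x : ℝ) ^ (δ / 8) * (1 / x)) :=
            mul_le_mul_of_nonneg_right hc1 (by positivity)
        _ = (x : ℝ) ^ (δ / 8) := by
            field_simp
    have h3 := hx₁ x (by omega)
    have hlx0 : 0 ≤ Real.log x := Real.log_natCast_nonneg x
    have h22 : (2 : ℝ) ≤ (x : ℝ) ^ (δ / 2) := by nlinarith
    have h8 : (x : ℝ) ^ (δ / 8) ≤ (x : ℝ) ^ (1 / 2 + δ / 2) := Real.rpow_le_rpow_of_exponent_le hx1 (by linarith)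
    calc ‖∑ n ∈ nn L x, w x l n * F x l n m * hp τ n‖ ≤ ‖∑ n ∈ nn L x, (w x l n * hp σ n) * F x l n m‖ +
          ‖∑ n ∈ nn L x, w x l n * F x l n m * hp τ n - ∑ n ∈ nn L x, (w x l n * hp σ n) * F x l n m‖ := norm_le_norm_add_norm_sub' _ _
      _ ≤ (x : ℝ) ^ (1 / 2 + δ / 2) + (x : ℝ) ^ (1 / 2 + δ / 2) := add_le_add hσb (e4.trans h8)
      _ = 2 * (x : ℝ) ^ (1 / 2 + δ / 2) := by ring
      _ ≤ (x : ℝ) ^ (δ / 2) * (x : ℝ) ^ (1 / 2 + δ / 2) := by gcongr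
      _ = (x : ℝ) ^ (1 / 2 + δ) := by
          rw [← Real.rpow_add hx0]
          congr 1
          ring
  have hone : ∀ x ∈ Icc y X, ((((Λ x) ×ˢ (J x)).biUnion (fun q => ex x q)).card : ℝ) ≤ (x : ℝ) ^ (-((A + 4 : ℕ) : ℝ)) * P := by
    intro x hx
    rw [mem_Icc] at hx
    have hx0 : (0 : ℝ) < x := by exact_mod_cast (by omega : 0 < x)
    have h1 : ((((Λ x) ×ˢ (J x)).biUnion (fun q => ex x q)).card : ℝ) ≤ ∑ q ∈ (Λ x) ×ˢ (J x), ((ex x q).card : ℝ) := by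
      exact_mod_cast card_biUnion_le
    refine h1.trans ((sum_le_sum (fun q hq => hexc x hx.1 q (mem_product.1 hq).1)).trans ?_)
    rw [sum_const, nsmul_eq_mul, card_product]
    have h2 : (((Λ x).card * (J x).card : ℕ) : ℝ) ≤ (x : ℝ) ^ ((B + (C + 4) : ℕ) : ℝ) := by
      rw [Real.rpow_natCast, pow_add]
      push_cast
      have h3 : ((Λ x).card : ℝ) ≤ (x : ℝ) ^ B := by exact_mod_cast hΛ x hx.1
      have h4 : ((J x).card : ℝ) ≤ (x : ℝ) ^ (C + 4) := by exact_mod_cast hJc x (by omega)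
      exact mul_le_mul h3 h4 (Nat.cast_nonneg _) (by positivity)
    calc (((Λ x).card * (J x).card : ℕ) : ℝ) * ((x : ℝ) ^ (-((A + B + C + 8 : ℕ) : ℝ)) * P) ≤
          (x : ℝ) ^ ((B + (C + 4) : ℕ) : ℝ) * ((x : ℝ) ^ (-((A + B + C + 8 : ℕ) : ℝ)) * P) :=
          mul_le_mul_of_nonneg_right h2 (by positivity)
      _ = (x : ℝ) ^ (-((A + 4 : ℕ) : ℝ)) * P := by
          rw [← mul_assoc, ← Real.rpow_add hx0]
          congr 2
          push_cast
          ring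
  have hcard : (((Fintype.piFinset (fun l => powersetCard (r l) (range (K l)))).filter
        (fun T => ¬ E (fun l => change b (K l) (N l) (f l) (T l)))).card : ℝ) ≤ ∑ x ∈ Icc y X, (x : ℝ) ^ (-((A + 4 : ℕ) : ℝ)) * P := by
    have h1 := (card_le_card hsub).trans card_biUnion_le
    have h2 : (((Fintype.piFinset (fun l => powersetCard (r l) (range (K l)))).filter
        (fun T => ¬ E (fun l => change b (K l) (N l) (f l) (T l)))).card : ℝ) ≤ ∑ x ∈ Icc y X, ((((Λ x) ×ˢ (J x)).biUnion (fun q => ex x q)).card : ℝ) := by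
      exact_mod_cast h1
    exact h2.trans (sum_le_sum hone)
  refine hcard.trans ?_
  rw [← sum_mul, ← hP]
  apply mul_le_mul_of_nonneg_right _ hP0
  have hy2 : (2 : ℝ) ≤ y := by exact_mod_cast (by omega : 2 ≤ y)
  have h1 : ∀ x ∈ Icc y X, (x : ℝ) ^ (-((A + 4 : ℕ) : ℝ)) ≤ 1 / (y : ℝ) ^ (A + 2) * (1 / (x : ℝ) ^ 2) := by
    intro x hx
    rw [mem_Icc] at hx
    have hx0 : (0 : ℝ) < x := by exact_mod_cast (by omega : 0 < x)
    have hyx : (y : ℝ) ≤ x := by exact_mod_cast hx.1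
    rw [Real.rpow_neg hx0.le, Real.rpow_natCast, show A + 4 = (A + 2) + 2 by ring, pow_add, mul_inv, ← one_div, ← one_div]
    apply mul_le_mul_of_nonneg_right _ (by positivity)
    apply one_div_le_one_div_of_le (by positivity)
    gcongr
  refine (sum_le_sum h1).trans ?_
  rw [← mul_sum]
  have h2 : ∑ x ∈ Icc y X, 1 / (x : ℝ) ^ 2 ≤ 1 := by
    rcases Nat.lt_or_ge X y with hXy | hXy
    · rw [Icc_eq_empty (by omega), sum_empty]
      exact zero_le_one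
    · have h3 : Icc y X = Ioc (y - 1) X := by
        ext t
        rw [mem_Icc, mem_Ioc]
        omega
      have h4 := sum_Ioc_inv_sq_le_sub (α := ℝ) (k := y - 1) (n := X) (by omega) (by omega)
      rw [h3]
      have h5 : ∑ x ∈ Ioc (y - 1) X, 1 / (x : ℝ) ^ 2 = ∑ i ∈ Ioc (y - 1) X, ((i : ℝ) ^ 2)⁻¹ :=
        sum_congr rfl fun x _ => by rw [one_div]
      rw [h5]
      refine h4.trans ?_
      have h6 : (((y - 1 : ℕ) : ℝ))⁻¹ ≤ 1 := by
        apply inv_le_one_of_one_le₀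
        exact_mod_cast (by omega : 1 ≤ y - 1)
      have h7 : 0 ≤ ((X : ℝ))⁻¹ := by positivity
      linarith
  have h8 : 1 / (y : ℝ) ^ (A + 2) ≤ 1 / (y : ℝ) ^ A := by
    apply one_div_le_one_div_of_le (by positivity)
    apply pow_le_pow_right₀ (by linarith) (by omega)
  calc 1 / (y : ℝ) ^ (A + 2) * ∑ x ∈ Icc y X, 1 / (x : ℝ) ^ 2 ≤ 1 / (y : ℝ) ^ (A + 2) * 1 :=
        mul_le_mul_of_nonneg_left h2 (by positivity)
    _ ≤ 1 / (y : ℝ) ^ A := by rw [mul_one]; exact h8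

end Pool.Agent.X22.MT
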