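import Pool.Agent.Y350.CT.REC
import Pool.Agent.X22.MT4

set_option autoImplicit false

/-! Cubic residue symbols as functions of both arguments. -/

namespace Pool.Agent.X22.CC

open Finset
open Pool.Agent.Y692.QS
open Pool.Agent.Y715.T.Rec (cs nn nr_of_assoc)
open Pool.Agent.Y715.T.RecG (Pq cs_spec cs_of cs_congr cs_mul cs_one cs_neg)
open Pool.Agent.Y350.CT (eq_of_dvd)

lemma wC_cube : wC ^ 3 = 1 := by
  have h := wC_sq
  linear_combination (wC - 1) * h

lemma wC_norm : ‖wC‖ = 1 := Complex.norm_eq_one_of_pow_eq_one wC_cube (by norm_num)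

lemma wC_ne : wC ≠ 1 ∧ wC ^ 2 ≠ 1 := by
  have h1 := wC_im
  have h2 : wC ≠ 1 := by
    intro h
    rw [h] at h1
    simp at h1
  refine ⟨h2, ?_⟩
  intro h
  apply h2
  have := wC_cube
  rw [pow_succ, h, one_mul] at this
  exact this

open Classical in
/-- the cubic residue symbol -/
noncomputable def loc (ρ x : Ei) : ℂ := if ρ ∣ x then 0 else wC ^ (cs ρ x).val

lemma loc_norm (ρ x : Ei) : ‖loc ρ x‖ ≤ 1 := by
  unfold loc
  split_ifs
  · rw [norm_zero]
    exact zero_le_one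
  · rw [norm_pow, wC_norm, one_pow]

lemma loc_zero {ρ x : Ei} (h : ρ ∣ x) : loc ρ x = 0 := by
  unfold loc
  rw [if_pos h]

lemma loc_ne {ρ x : Ei} (h : ¬ ρ ∣ x) : loc ρ x = wC ^ (cs ρ x).val := by
  unfold loc
  rw [if_neg h]

lemma wC_add (a b : ZMod 3) : wC ^ (a + b).val = wC ^ a.val * wC ^ b.val := by
  have h3 := wC_cube
  rw [ZMod.val_add, ← pow_add]
  conv_rhs => rw [← Nat.mod_add_div (a.val + b.val) 3, pow_add, pow_mul, h3, one_pow, mul_one]

section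
variable {ρ : Ei} (hρ : Prime ρ) (h3 : ¬ ρ ∣ 3)
include hρ h3

lemma loc_mul (x y : Ei) : loc ρ (x * y) = loc ρ x * loc ρ y := by
  by_cases hx : ρ ∣ x
  · rw [loc_zero hx, loc_zero (hx.mul_right y), zero_mul]
  · by_cases hy : ρ ∣ y
    · rw [loc_zero hy, loc_zero (hy.mul_left x), mul_zero]
    · have hxy : ¬ ρ ∣ x * y := fun h => (hρ.dvd_or_dvd h).elim hx hy
      rw [loc_ne hx, loc_ne hy, loc_ne hxy, cs_mul hρ h3 hx hy, wC_add]

lemma loc_one : loc ρ 1 = 1 := by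
  have h : ¬ ρ ∣ 1 := fun h => hρ.not_isUnit (isUnit_of_dvd_one h)
  rw [loc_ne h, cs_one hρ h3, ZMod.val_zero, pow_zero]

lemma loc_congr {x y : Ei} (h : ρ ∣ x - y) : loc ρ x = loc ρ y := by
  by_cases hx : ρ ∣ x
  · have hy : ρ ∣ y := by
      have := dvd_sub hx h
      rwa [sub_sub_cancel] at this
    rw [loc_zero hx, loc_zero hy]
  · have hy : ¬ ρ ∣ y := fun hy => hx (by
      have := dvd_add h hy
      rwa [sub_add_cancel] at this)
    rw [loc_ne hx, loc_ne hy, cs_congr hρ h3 hx h]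

lemma loc_neg (x : Ei) : loc ρ (-x) = loc ρ x := by
  by_cases hx : ρ ∣ x
  · rw [loc_zero hx, loc_zero ((dvd_neg).2 hx)]
  · rw [loc_ne hx, loc_ne (fun h => hx ((dvd_neg).1 h)), cs_neg hρ h3 hx]

lemma loc_prod (s : Multiset Ei) : loc ρ s.prod = (s.map (loc ρ)).prod := by
  induction s using Multiset.induction_on with
  | empty => simp [loc_one hρ h3]
  | cons a s ih => rw [Multiset.prod_cons, Multiset.map_cons, Multiset.prod_cons, loc_mul hρ h3, ih]

lemma loc_assoc {ρ' : Ei} (h : Associated ρ ρ') (x : Ei) : loc ρ x = loc ρ' x := by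
  have hρ' : Prime ρ' := h.prime hρ
  have h3' : ¬ ρ' ∣ 3 := fun h' => h3 (h.dvd.trans h')
  have hnn : nn ρ = nn ρ' := by
    have : nr ρ = nr ρ' := nr_of_assoc hρ hρ' h.dvd
    unfold nn
    rw [this]
  by_cases hx : ρ ∣ x
  · rw [loc_zero hx, loc_zero (h.dvd'.trans hx)]
  · have hx' : ¬ ρ' ∣ x := fun h' => hx (h.dvd.trans h')
    rw [loc_ne hx, loc_ne hx']
    congr 2
    have h1 := cs_spec hρ h3 hx
    symm
    apply cs_of hρ' h3'
    rw [← hnn]
    exact h.dvd'.trans h1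

end

/-- reciprocity -/
lemma loc_rec {π ρ : Ei} (h : Pq π) (h' : Pq ρ) : loc ρ π = loc π ρ := by
  by_cases hd : ρ ∣ π
  · have := eq_of_dvd h h' hd
    rw [this]
  · have hd' : ¬ π ∣ ρ := by
      intro hd'
      apply hd
      rw [eq_of_dvd h' h hd']
    rw [loc_ne hd, loc_ne hd', Pool.Agent.Y350.CT.rec π ρ h h' hd]

lemma not_three {ρ : Ei} (h : ¬ (3 : ℤ) ∣ nr ρ) (hρ : Prime ρ) : ¬ ρ ∣ 3 := by
  rintro ⟨x, hx⟩
  have h1 : nr ρ * nr x = 9 := by
    rw [← nr_mul, ← hx]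
    decide
  have h2 : nr ρ ≠ 1 := fun h => hρ.not_isUnit (isUnit_iff.2 h)
  have h3 := nr_nonneg ρ
  have h5 : nr ρ ∣ 9 := ⟨_, h1.symm⟩
  have h6 : nr ρ ≤ 9 := Int.le_of_dvd (by norm_num) h5
  interval_cases h : nr ρ <;> omega

lemma assoc_ns {ρ : Ei} (h : ¬ (3 : ℤ) ∣ nr ρ) : Associated ρ (ns ρ) := by
  have h1 := (ep_cases ρ h).2
  have hu : IsUnit (star (ep ρ)) := IsUnit.of_mul_eq_one _ h1
  obtain ⟨u, hu⟩ := hu
  refine ⟨u, ?_⟩
  rw [hu]
  unfold ns
  ring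

lemma pq_ns {ρ : Ei} (h : ¬ (3 : ℤ) ∣ nr ρ) (hρ : Prime ρ) : Pq (ns ρ) := ⟨(assoc_ns h).prime hρ, ns_one h⟩

lemma ns_prod (s : Multiset Ei) : ns s.prod = (s.map ns).prod := by
  induction s using Multiset.induction_on with
  | empty => simp [ns_unit isUnit_one]
  | cons a s ih => rw [Multiset.prod_cons, Multiset.map_cons, Multiset.prod_cons, ns_mul, ih]

lemma nr_dvd {x y : Ei} (h : x ∣ y) : nr x ∣ nr y := by
  obtain ⟨c, rfl⟩ := h
  rw [nr_mul]
  exact dvd_mul_right _ _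

lemma ns_nat {n : ℕ} (hn : ¬ 3 ∣ n) : ns (n : Ei) = n ∨ ns (n : Ei) = -n := by
  have key : ∀ x : ZMod 3, x ≠ 0 → epz x 0 = 1 ∨ epz x 0 = -1 := by decide
  have e1 : ((n : Ei)).re = (n : ℤ) := by simp
  have e2 : ((n : Ei)).im = 0 := by simp
  have h0 : (n : ZMod 3) ≠ 0 := by
    rw [Ne, ZMod.natCast_eq_zero_iff]
    exact hn
  have h1 : ep (n : Ei) = epz (n : ZMod 3) 0 := by
    unfold ep
    rw [e1, e2]
    push_cast
    rfl
  unfold ns
  rw [h1]
  rcases key _ h0 with h | h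
  · left
    rw [h, star_one, one_mul]
  · right
    rw [h, star_neg, star_one, neg_one_mul]

/-- the function -/
noncomputable def FF (n : ℕ) (x : Ei) : ℂ := ((UniqueFactorizationMonoid.factors (n : Ei)).map (fun ρ => loc ρ x)).prod

lemma nat_ne {n : ℕ} (hn : n ≠ 0) : (n : Ei) ≠ 0 := by
  intro h
  have := congrArg nr h
  rw [nr_nat] at this
  have h0 : nr (0 : Ei) = 0 := by decide
  rw [h0] at this
  apply hn
  have h2 : (n : ℤ) = 0 := by
    rcases Int.mul_eq_zero.1 (by rw [← sq]; exact this : (n : ℤ) * n = 0) with h | h <;> exact h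
  exact_mod_cast h2

lemma factor_three {n : ℕ} (hn : n ≠ 0) (h3 : ¬ 3 ∣ n) {ρ : Ei} (h : ρ ∈ UniqueFactorizationMonoid.factors (n : Ei)) :
    Prime ρ ∧ ρ ∣ (n : Ei) ∧ ¬ (3 : ℤ) ∣ nr ρ := by
  have h1 := UniqueFactorizationMonoid.prime_of_factor ρ h
  have h2 := UniqueFactorizationMonoid.dvd_of_mem_factors h
  refine ⟨h1, h2, fun h4 => h3 ?_⟩
  have h5 := h4.trans (nr_dvd h2)
  rw [nr_nat] at h5
  exact_mod_cast Int.Prime.dvd_pow' (by norm_num) h5

lemma prod_rel {s t : Multiset Ei} (h : Multiset.Rel Associated s t) (hs : ∀ ρ ∈ s, Prime ρ ∧ ¬ ρ ∣ 3) (x : Ei) :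
    (s.map (fun ρ => loc ρ x)).prod = (t.map (fun ρ => loc ρ x)).prod := by
  induction h with
  | zero => rfl
  | @cons a b s t hab _ ih =>
    rw [Multiset.map_cons, Multiset.map_cons, Multiset.prod_cons, Multiset.prod_cons, ih (fun ρ hρ => hs ρ (Multiset.mem_cons_of_mem hρ))]
    have := hs a (Multiset.mem_cons_self a s)
    rw [loc_assoc this.1 this.2 hab]

/-- the function by any factorization -/
lemma FF_of {n : ℕ} (hn : n ≠ 0) (h3 : ¬ 3 ∣ n) (s : Multiset Ei) (hs : ∀ ρ ∈ s, Prime ρ) (h : Associated s.prod (n : Ei)) (x : Ei) :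
    FF n x = (s.map (fun ρ => loc ρ x)).prod := by
  unfold FF
  apply prod_rel
  · apply UniqueFactorizationMonoid.factors_unique
    · intro ρ hρ
      exact UniqueFactorizationMonoid.irreducible_of_factor ρ hρ
    · intro ρ hρ
      exact (hs ρ hρ).irreducible
    · exact (UniqueFactorizationMonoid.factors_prod (nat_ne hn)).trans h.symm
  · intro ρ hρ
    obtain ⟨h1, _, h4⟩ := factor_three hn h3 hρ
    exact ⟨h1, not_three h4 h1⟩

lemma FF_mul {m n : ℕ} (hm : m ≠ 0) (hn : n ≠ 0) (h3m : ¬ 3 ∣ m) (h3n : ¬ 3 ∣ n) (x : Ei) : FF (m * n) x = FF m x * FF n x := by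
  have h3 : ¬ 3 ∣ m * n := fun h => ((Nat.Prime.dvd_mul Nat.prime_three).1 h).elim h3m h3n
  rw [FF_of (Nat.mul_ne_zero hm hn) h3 (UniqueFactorizationMonoid.factors (m : Ei) + UniqueFactorizationMonoid.factors (n : Ei))]
  · rw [Multiset.map_add, Multiset.prod_add]
    rfl
  · intro ρ hρ
    rcases Multiset.mem_add.1 hρ with h | h
    · exact UniqueFactorizationMonoid.prime_of_factor ρ h
    · exact UniqueFactorizationMonoid.prime_of_factor ρ h
  · rw [Multiset.prod_add, Nat.cast_mul]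
    exact (UniqueFactorizationMonoid.factors_prod (nat_ne hm)).mul_mul (UniqueFactorizationMonoid.factors_prod (nat_ne hn))

lemma FF_norm (n : ℕ) (x : Ei) : ‖FF n x‖ ≤ 1 := by
  unfold FF
  generalize UniqueFactorizationMonoid.factors (n : Ei) = s
  induction s using Multiset.induction_on with
  | empty => simp
  | cons a s ih =>
    rw [Multiset.map_cons, Multiset.prod_cons, norm_mul]
    calc ‖loc a x‖ * ‖(s.map (fun ρ => loc ρ x)).prod‖ ≤ 1 * 1 := mul_le_mul (loc_norm a x) ih (norm_nonneg _) zero_le_one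
      _ = 1 := one_mul 1

lemma FF_congr {n : ℕ} (hn : n ≠ 0) (h3 : ¬ 3 ∣ n) {x y : Ei} (h : (n : Ei) ∣ x - y) : FF n x = FF n y := by
  unfold FF
  congr 1
  apply Multiset.map_congr rfl
  intro ρ hρ
  obtain ⟨h1, h2, h4⟩ := factor_three hn h3 hρ
  exact loc_congr h1 (not_three h4 h1) (h2.trans h)

lemma FF_mul_right {n : ℕ} (hn : n ≠ 0) (h3 : ¬ 3 ∣ n) (x y : Ei) : FF n (x * y) = FF n x * FF n y := by
  unfold FF
  rw [← Multiset.prod_map_mul]
  congr 1
  apply Multiset.map_congr rfl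
  intro ρ hρ
  obtain ⟨h1, h2, h4⟩ := factor_three hn h3 hρ
  exact loc_mul h1 (not_three h4 h1) x y

/-- **Reciprocity** -/
theorem recip {n : ℕ} (hn : n ≠ 0) (h3 : ¬ 3 ∣ n) (x : Ei) (hx : ¬ (3 : ℤ) ∣ nr x) (P : Multiset Ei) (hP : ∀ π ∈ P, Prime π)
    (hPx : Associated P.prod x) : (P.map (fun π => loc π (n : Ei))).prod = FF n (star (ep x)) * FF n x := by
  obtain ⟨R, hR⟩ : ∃ R, R = UniqueFactorizationMonoid.factors (n : Ei) := ⟨_, rfl⟩
  have hRp : ∀ ρ ∈ R, Prime ρ ∧ ¬ (3 : ℤ) ∣ nr ρ := by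
    intro ρ hρ
    rw [hR] at hρ
    obtain ⟨h1, h2, h4⟩ := factor_three hn h3 hρ
    exact ⟨h1, h4⟩
  have hPp : ∀ π ∈ P, Prime π ∧ ¬ (3 : ℤ) ∣ nr π := by
    intro π hπ
    refine ⟨hP π hπ, fun h => hx (h.trans (nr_dvd ?_))⟩
    exact (Multiset.dvd_prod hπ).trans hPx.dvd
  have hnx : ns x = (P.map ns).prod := by
    obtain ⟨u, hu⟩ := hPx
    rw [← hu, ns_mul, ns_unit u.isUnit, mul_one, ns_prod]
  have hnn : ns (n : Ei) = (R.map ns).prod := by
    obtain ⟨u, hu⟩ := UniqueFactorizationMonoid.factors_prod (nat_ne hn)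
    rw [← hu, ns_mul, ns_unit u.isUnit, mul_one, ns_prod, hR]
  have e1 : (P.map (fun π => loc π (n : Ei))).prod = (P.map (fun π => (R.map (fun ρ => loc (ns π) (ns ρ))).prod)).prod := by
    congr 1
    apply Multiset.map_congr rfl
    intro π hπ
    obtain ⟨h1, h2⟩ := hPp π hπ
    have h4 := pq_ns h2 h1
    have h5 : loc π (n : Ei) = loc (ns π) (ns (n : Ei)) := by
      rw [loc_assoc h1 (not_three h2 h1) (assoc_ns h2)]
      rcases ns_nat h3 with h | h
      · rw [h]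
      · rw [h, loc_neg h4.prime h4.norm]
    rw [h5, hnn, loc_prod h4.prime h4.norm, Multiset.map_map]
    rfl
  have e2 : (P.map (fun π => (R.map (fun ρ => loc (ns π) (ns ρ))).prod)).prod =
      (R.map (fun ρ => (P.map (fun π => loc (ns π) (ns ρ))).prod)).prod := Multiset.prod_map_prod_map _ _
  rw [e1, e2]
  unfold FF
  rw [← hR, ← Multiset.prod_map_mul]
  congr 1
  apply Multiset.map_congr rfl
  intro ρ hρ
  obtain ⟨h1, h2⟩ := hRp ρ hρ
  have h4 := pq_ns h2 h1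
  have h5 : loc ρ (star (ep x)) * loc ρ x = loc (ns ρ) (ns x) := by
    rw [← loc_mul h1 (not_three h2 h1), ← loc_assoc h1 (not_three h2 h1) (assoc_ns h2)]
    rfl
  rw [h5, hnx, loc_prod h4.prime h4.norm, Multiset.map_map]
  congr 1
  apply Multiset.map_congr rfl
  intro π hπ
  obtain ⟨h6, h7⟩ := hPp π hπ
  exact loc_rec h4 (pq_ns h7 h6)

end Pool.Agent.X22.CC
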