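import Pool.Agent.X22.MO2

/-!
# The moments of sums of independent characters, uniformly in the number of the summands
-/

set_option autoImplicit false

namespace Pool.Agent.X22.DP

open Finset
open Pool.Agent.X22.MO (Me df df_pos pow_diff S S_eq mu mu_even mu_odd)

set_option maxHeartbeats 4000000 in
/-- the asymptotic formula for the moments -/
lemma Me_gen (j : ℕ) : ∃ C : ℝ, 0 ≤ C ∧ ∀ (P : ℕ) (θ η : ℝ), 1 ≤ P → 0 ≤ θ → θ ≤ 1 → 1 - θ ≤ η → 1 / (P : ℝ) ≤ η → η ≤ 2 → ∀ i ≤ j, ∀ N : ℕ, N ≤ P →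
    |Me θ N i - df i * (N : ℝ) ^ i| ≤ C * ((P : ℝ) ^ i * η) := by
  induction j with
  | zero =>
    refine ⟨0, le_rfl, fun P θ η hP _ _ _ _ _ i hi N hN => ?_⟩
    obtain rfl : i = 0 := by omega
    have h1 : ∀ N : ℕ, Me θ N 0 = 1 := by
      intro N
      induction N with
      | zero => rw [Me, if_pos rfl]
      | succ N ih => rw [Me, ih, range_zero, sum_empty, mul_zero, add_zero]
    rw [h1, df, pow_zero, mul_one, sub_self, abs_zero, zero_mul]
  | succ j ih =>
    obtain ⟨C, hC, h⟩ := ih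
    obtain ⟨c, hc, hpd⟩ := pow_diff j
    obtain ⟨B, hB⟩ : ∃ B : ℝ, B = ∑ i ∈ range (j + 1), df i + 2 * C := ⟨_, rfl⟩
    have hdB : ∀ i ≤ j, df i + 2 * C ≤ B := by
      intro i hi
      rw [hB]
      have := single_le_sum (f := df) (s := range (j + 1)) (fun a _ => (df_pos a).le) (mem_range.2 (by omega : i < j + 1))
      linarith
    have hB0 : 0 ≤ B := by
      have := hdB 0 (Nat.zero_le _)
      have := df_pos 0
      linarith
    obtain ⟨Q, hQ⟩ : ∃ Q : ℝ, Q = ∑ i ∈ range (j + 1), ((2 * (j + 1)).choose (2 * i + 2) : ℝ) := ⟨_, rfl⟩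
    have hQ0 : 0 ≤ Q := by
      rw [hQ]
      positivity
    refine ⟨C + (((2 * (j + 1)).choose 2 : ℝ) * (C + B) + Q * B + df (j + 1) * c), by
      have := df_pos (j + 1)
      positivity, fun P θ η hP hθ0 hθ1 hη1 hη2 hη3 i hi N hN => ?_⟩
    have hP1 : (1 : ℝ) ≤ P := by exact_mod_cast hP
    have hP0 : (0 : ℝ) < P := by linarith
    have hη0 : 0 < η := lt_of_lt_of_le (by positivity) hη2
    rcases Nat.lt_or_ge j i with hji | hji
    swap
    · refine (h P θ η hP hθ0 hθ1 hη1 hη2 hη3 i hji N hN).trans ?_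
      have h1 : 0 ≤ ((2 * (j + 1)).choose 2 : ℝ) * (C + B) + Q * B + df (j + 1) * c := by
        have := df_pos (j + 1)
        positivity
      have h2 : 0 ≤ (P : ℝ) ^ i * η := by positivity
      nlinarith
    obtain rfl : i = j + 1 := by omega
    -- the sizes
    have hsize : ∀ i ≤ j, ∀ N : ℕ, N ≤ P → |Me θ N i| ≤ B * (P : ℝ) ^ i := by
      intro i hi N hN
      have h1 := h P θ η hP hθ0 hθ1 hη1 hη2 hη3 i hi N hN
      have h2 : |df i * (N : ℝ) ^ i| ≤ df i * (P : ℝ) ^ i := by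
        have hNP : (N : ℝ) ≤ P := by exact_mod_cast hN
        have := df_pos i
        rw [abs_of_nonneg (by positivity)]
        gcongr
      have h3 : (P : ℝ) ^ i * η ≤ (P : ℝ) ^ i * 2 := by gcongr
      have h4 := abs_sub_abs_le_abs_sub (Me θ N i) (df i * (N : ℝ) ^ i)
      have h5 := hdB i hi
      have h6 : 0 ≤ (P : ℝ) ^ i := by positivity
      nlinarith
    obtain ⟨Δ, hΔ⟩ : ∃ Δ : ℕ → ℝ, ∀ N, Δ N = Me θ N (j + 1) - df (j + 1) * (N : ℝ) ^ (j + 1) := ⟨_, fun _ => rfl⟩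
    obtain ⟨C', hC'⟩ : ∃ C' : ℝ, C' = ((2 * (j + 1)).choose 2 : ℝ) * (C + B) + Q * B + df (j + 1) * c := ⟨_, rfl⟩
    have hC'0 : 0 ≤ C' := by
      rw [hC']
      have := df_pos (j + 1)
      positivity
    have hPη : (P : ℝ) ^ j / P ≤ (P : ℝ) ^ j * η := by
      rw [div_eq_mul_one_div]
      gcongr
    have hinc : ∀ N : ℕ, N < P → |Δ (N + 1) - Δ N| ≤ C' * ((P : ℝ) ^ j * η) := by
      intro N hN
      have hNP : (N : ℝ) ≤ P := by exact_mod_cast hN.le
      have hch : ((2 * (j + 1)).choose 2 : ℝ) * df j = (j + 1) * df (j + 1) := by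
        have e : ((2 * (j + 1)).choose 2 : ℝ) = (j + 1) * (2 * j + 1) := by
          rw [Nat.cast_choose_two]
          push_cast
          ring
        rw [e, df]
        ring
      have e1 : Δ (N + 1) - Δ N = ((2 * (j + 1)).choose 2 : ℝ) * (Me θ N j - df j * (N : ℝ) ^ j) -
          ((2 * (j + 1)).choose 2 : ℝ) * ((1 - θ) * Me θ N j) +
          θ * ∑ i ∈ range j, ((2 * (j + 1)).choose (2 * (i + 1) + 2) : ℝ) * Me θ N (j + 1 - 1 - (i + 1)) -
          df (j + 1) * (((N : ℝ) + 1) ^ (j + 1) - (N : ℝ) ^ (j + 1) - (j + 1) * (N : ℝ) ^ j) := by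
        rw [hΔ, hΔ, Me, sum_range_succ']
        have e2 : ((2 * (j + 1)).choose 2 : ℝ) * (df j * (N : ℝ) ^ j) = df (j + 1) * ((j + 1) * (N : ℝ) ^ j) := by
          rw [← mul_assoc, hch]
          ring
        simp only [Nat.mul_zero, Nat.zero_add, Nat.add_sub_cancel, Nat.sub_zero]
        push_cast
        linear_combination e2
      have b1 : |((2 * (j + 1)).choose 2 : ℝ) * (Me θ N j - df j * (N : ℝ) ^ j)| ≤ ((2 * (j + 1)).choose 2 : ℝ) * (C * ((P : ℝ) ^ j * η)) := by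
        rw [abs_mul, abs_of_nonneg (Nat.cast_nonneg _)]
        exact mul_le_mul_of_nonneg_left (h P θ η hP hθ0 hθ1 hη1 hη2 hη3 j le_rfl N hN.le) (Nat.cast_nonneg _)
      have b2 : |((2 * (j + 1)).choose 2 : ℝ) * ((1 - θ) * Me θ N j)| ≤ ((2 * (j + 1)).choose 2 : ℝ) * (B * ((P : ℝ) ^ j * η)) := by
        rw [abs_mul, abs_of_nonneg (Nat.cast_nonneg _), abs_mul, abs_of_nonneg (by linarith : 0 ≤ 1 - θ)]
        apply mul_le_mul_of_nonneg_left _ (Nat.cast_nonneg _)
        have := hsize j le_rfl N hN.le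
        calc (1 - θ) * |Me θ N j| ≤ η * (B * (P : ℝ) ^ j) := by gcongr
          _ = _ := by ring
      have b3 : |θ * ∑ i ∈ range j, ((2 * (j + 1)).choose (2 * (i + 1) + 2) : ℝ) * Me θ N (j + 1 - 1 - (i + 1))| ≤
          Q * (B * ((P : ℝ) ^ j * η)) := by
        rw [abs_mul, abs_of_nonneg hθ0]
        have h5 : |∑ i ∈ range j, ((2 * (j + 1)).choose (2 * (i + 1) + 2) : ℝ) * Me θ N (j + 1 - 1 - (i + 1))| ≤
            ∑ i ∈ range j, ((2 * (j + 1)).choose (2 * (i + 1) + 2) : ℝ) * (B * ((P : ℝ) ^ j * η)) := by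
          refine (abs_sum_le_sum_abs _ _).trans (sum_le_sum (fun i hi => ?_))
          rw [mem_range] at hi
          rw [abs_mul, abs_of_nonneg (Nat.cast_nonneg _)]
          apply mul_le_mul_of_nonneg_left _ (Nat.cast_nonneg _)
          refine (hsize (j + 1 - 1 - (i + 1)) (by omega) N hN.le).trans ?_
          apply mul_le_mul_of_nonneg_left _ hB0
          refine le_trans ?_ hPη
          rw [le_div_iff₀ hP0, ← pow_succ]
          exact pow_le_pow_right₀ hP1 (by omega)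
        have h6 : ∑ i ∈ range j, ((2 * (j + 1)).choose (2 * (i + 1) + 2) : ℝ) ≤ Q := by
          rw [hQ, sum_range_succ']
          have : (0 : ℝ) ≤ ((2 * (j + 1)).choose (2 * 0 + 2) : ℝ) := Nat.cast_nonneg _
          linarith
        calc θ * |∑ i ∈ range j, ((2 * (j + 1)).choose (2 * (i + 1) + 2) : ℝ) * Me θ N (j + 1 - 1 - (i + 1))|
            ≤ 1 * (∑ i ∈ range j, ((2 * (j + 1)).choose (2 * (i + 1) + 2) : ℝ) * (B * ((P : ℝ) ^ j * η))) := by gcongr
          _ = (∑ i ∈ range j, ((2 * (j + 1)).choose (2 * (i + 1) + 2) : ℝ)) * (B * ((P : ℝ) ^ j * η)) := by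
              rw [one_mul, sum_mul]
          _ ≤ _ := by
              apply mul_le_mul_of_nonneg_right h6
              positivity
      have b4 : |df (j + 1) * (((N : ℝ) + 1) ^ (j + 1) - (N : ℝ) ^ (j + 1) - (j + 1) * (N : ℝ) ^ j)| ≤ df (j + 1) * (c * ((P : ℝ) ^ j * η)) := by
        rw [abs_mul, abs_of_pos (df_pos _)]
        refine mul_le_mul_of_nonneg_left ?_ (df_pos _).le
        exact (hpd P N hP1 (Nat.cast_nonneg _) hNP).trans (mul_le_mul_of_nonneg_left hPη hc)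
      rw [e1]
      refine (abs_sub _ _).trans ?_
      refine (add_le_add ((abs_add_le _ _).trans (add_le_add (abs_sub _ _) le_rfl)) le_rfl).trans ?_
      rw [hC']
      linarith
    have hfin : ∀ N : ℕ, N ≤ P → |Δ N| ≤ N * (C' * ((P : ℝ) ^ j * η)) := by
      intro N
      induction N with
      | zero =>
        intro _
        rw [hΔ, Me, if_neg (by omega)]
        simp
      | succ N ihN =>
        intro hN
        have h5 := ihN (by omega)
        have h6 := hinc N (by omega)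
        have h7 : |Δ (N + 1)| ≤ |Δ N| + |Δ (N + 1) - Δ N| := by
          have := abs_add_le (Δ N) (Δ (N + 1) - Δ N)
          rwa [add_sub_cancel] at this
        push_cast
        linarith
    have h8 := hfin N hN
    rw [hΔ] at h8
    rw [← hC']
    have hNP : (N : ℝ) ≤ P := by exact_mod_cast hN
    calc |Me θ N (j + 1) - df (j + 1) * (N : ℝ) ^ (j + 1)| ≤ N * (C' * ((P : ℝ) ^ j * η)) := h8
      _ ≤ P * (C' * ((P : ℝ) ^ j * η)) := by gcongr
      _ = C' * ((P : ℝ) ^ (j + 1) * η) := by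
          rw [pow_succ]
          ring
      _ ≤ (C + C') * ((P : ℝ) ^ (j + 1) * η) := by
          apply mul_le_mul_of_nonneg_right _ (by positivity)
          linarith

/-- the normalised moments of the sum of `N` independent characters -/
lemma S_asymp (k : ℕ) : ∃ C : ℝ, 0 ≤ C ∧ ∀ (p : ℕ) (hp : p.Prime), p ≠ 2 → ∀ N : ℕ, 1 ≤ N → haveI : Fact p.Prime := ⟨hp⟩
    |S p N k / ((p : ℝ) ^ N * √N ^ k) - mu k| ≤ C * (1 / p + 1 / N) := by
  obtain ⟨C, hC, h⟩ := Me_gen k
  refine ⟨C, hC, fun p hp' h2 N hN => ?_⟩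
  have hf : Fact p.Prime := ⟨hp'⟩
  have hp0 : (0 : ℝ) < p := by exact_mod_cast hp'.pos
  have hp1 : (1 : ℝ) ≤ p := by exact_mod_cast hp'.one_lt.le
  have hN1 : (1 : ℝ) ≤ N := by exact_mod_cast hN
  have hN0 : (0 : ℝ) < N := by linarith
  have hs0 : 0 < √(N : ℝ) := Real.sqrt_pos.2 hN0
  have i1 : 1 / (p : ℝ) ≤ 1 := (div_le_one hp0).2 hp1
  have i2 : 1 / (N : ℝ) ≤ 1 := (div_le_one hN0).2 hN1
  have i3 : 0 < 1 / (p : ℝ) := by positivity
  have i4 : 0 < 1 / (N : ℝ) := by positivity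
  rcases Nat.even_or_odd k with he | ho
  · obtain ⟨j, hj⟩ := he
    obtain rfl : k = 2 * j := by omega
    rw [(S_eq h2 N).1 j, mu_even, pow_mul (√(N : ℝ)), Real.sq_sqrt hN0.le]
    have e3 : (p : ℝ) ^ N * Me (1 - 1 / p) N j / ((p : ℝ) ^ N * (N : ℝ) ^ j) - df j = (Me (1 - 1 / p) N j - df j * (N : ℝ) ^ j) / (N : ℝ) ^ j := by
      field_simp
    rw [e3, abs_div, abs_of_pos (pow_pos hN0 j), div_le_iff₀ (pow_pos hN0 j)]
    refine (h N (1 - 1 / p) (1 / p + 1 / N) hN (by linarith) (by linarith) (by linarith) (by linarith) (by linarith) j (by omega) N le_rfl).trans (le_of_eq ?_)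
    ring
  · obtain ⟨j, rfl⟩ := ho
    rw [(S_eq h2 N).2 j, zero_div, mu_odd, sub_zero, abs_zero]
    positivity

end Pool.Agent.X22.DP
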