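import Pool.Agent.X22.DP1
import Pool.Agent.X22.DC
import Mathlib.LinearAlgebra.Projectivization.Cardinality

/-!
# Values of random forms at projective points
-/

set_option autoImplicit false

namespace Pool.Agent.X22.DP

open Finset
open Pool.Agent.X22.MO (avg S mu)

/-- the values of the forms of degree `D` -/
def ev {R : Type} [CommRing R] {n D d : ℕ} (E : Fin d ≃ {μ : Fin (n + 1) → ℕ // ∑ i, μ i = D}) (v : Fin d → R) (x : Fin (n + 1) → R) : R :=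
  ∑ l, v l * ∏ i, x i ^ (E l).1 i

lemma ev_scale {R : Type} [CommRing R] {n D d : ℕ} (E : Fin d ≃ {μ : Fin (n + 1) → ℕ // ∑ i, μ i = D}) (v : Fin d → R) (x : Fin (n + 1) → R) (c : R) :
    ev E v (fun i => c * x i) = c ^ D * ev E v x := by
  unfold ev
  rw [mul_sum]
  apply sum_congr rfl
  intro l _
  have h : ∏ i, (c * x i) ^ (E l).1 i = c ^ D * ∏ i, x i ^ (E l).1 i := by
    simp only [mul_pow]
    rw [prod_mul_distrib, prod_pow_eq_pow_sum, (E l).2]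
  rw [h]
  ring

/-- homogeneous polynomials give forms -/
lemma of_hom {R : Type} [CommRing R] {n D d : ℕ} (E : Fin d ≃ {μ : Fin (n + 1) → ℕ // ∑ i, μ i = D}) (Q : MvPolynomial (Fin (n + 1)) R) (hQ : Q.IsHomogeneous D) :
    ∃ v : Fin d → R, ∀ x, ev E v x = MvPolynomial.eval x Q := by
  classical
  obtain ⟨ε, hε⟩ : ∃ ε : Fin d → (Fin (n + 1) →₀ ℕ), ∀ l, ε l = Finsupp.equivFunOnFinite.symm (E l).1 := ⟨_, fun _ => rfl⟩
  have hinj : Function.Injective ε := by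
    intro l l' h
    rw [hε, hε] at h
    exact E.injective (Subtype.ext (Finsupp.equivFunOnFinite.symm.injective h))
  refine ⟨fun l => Q.coeff (ε l), fun x => ?_⟩
  rw [MvPolynomial.eval_eq']
  unfold ev
  have h1 : ∀ l, Q.coeff (ε l) * ∏ i, x i ^ (E l).1 i = (fun μ : Fin (n + 1) →₀ ℕ => Q.coeff μ * ∏ i, x i ^ μ i) (ε l) := by
    intro l
    simp only
    congr 1
    apply prod_congr rfl
    intro i _
    rw [hε]
    rfl
  rw [sum_congr rfl (fun l _ => h1 l), ← sum_image (s := univ) (g := ε) (f := fun μ : Fin (n + 1) →₀ ℕ => Q.coeff μ * ∏ i, x i ^ μ i) (fun a _ b _ h => hinj h)]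
  symm
  apply sum_subset
  · intro μ hμ
    have h2 : ∑ i, μ i = D := by
      have h3 := hQ (MvPolynomial.mem_support_iff.1 hμ)
      rw [← h3]
      rw [Finsupp.weight_apply, Finsupp.sum_fintype _ _ (by simp)]
      simp
    rw [mem_image]
    refine ⟨E.symm ⟨fun i => μ i, h2⟩, mem_univ _, ?_⟩
    rw [hε, Equiv.apply_symm_apply]
    ext i
    rfl
  · intro μ _ hμ
    rw [MvPolynomial.notMem_support_iff.1 hμ, zero_mul]

section
variable {p : ℕ} [hf : Fact p.Prime] {n D d : ℕ} (E : Fin d ≃ {μ : Fin (n + 1) → ℕ // ∑ i, μ i = D})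

/-- separation of a point from at most `D` others -/
lemma separate {T : Type} (ρ : T → Fin (n + 1) → ZMod p) (hρ : ∀ t, ρ t ≠ 0)
    (hne : ∀ t t', t ≠ t' → ∃ a b, ρ t a * ρ t' b ≠ ρ t b * ρ t' a) (t₀ : T) (J : Finset T) (hJ : t₀ ∉ J) (hc : J.card ≤ D) :
    ∃ v : Fin d → ZMod p, ev E v (ρ t₀) ≠ 0 ∧ ∀ t ∈ J, ev E v (ρ t) = 0 := by
  classical
  have hs : ∀ t : T, t ≠ t₀ → ∃ ab : Fin (n + 1) × Fin (n + 1), ρ t₀ ab.1 * ρ t ab.2 ≠ ρ t₀ ab.2 * ρ t ab.1 := by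
    intro t ht
    obtain ⟨a, b, h⟩ := hne t₀ t (Ne.symm ht)
    exact ⟨(a, b), h⟩
  choose! g hg using hs
  obtain ⟨c, hc0⟩ : ∃ c, ρ t₀ c ≠ 0 := Function.ne_iff.1 (hρ t₀)
  obtain ⟨ℓ, hℓ⟩ : ∃ ℓ : T → MvPolynomial (Fin (n + 1)) (ZMod p), ∀ t, ℓ t = MvPolynomial.C (ρ t (g t).2) * MvPolynomial.X (g t).1 -
    MvPolynomial.C (ρ t (g t).1) * MvPolynomial.X (g t).2 := ⟨_, fun _ => rfl⟩
  have hℓh : ∀ t, (ℓ t).IsHomogeneous 1 := by
    intro t
    rw [hℓ]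
    have h1 := (MvPolynomial.isHomogeneous_C (Fin (n + 1)) (ρ t (g t).2)).mul (MvPolynomial.isHomogeneous_X (ZMod p) (g t).1)
    have h2 := (MvPolynomial.isHomogeneous_C (Fin (n + 1)) (ρ t (g t).1)).mul (MvPolynomial.isHomogeneous_X (ZMod p) (g t).2)
    rw [zero_add] at h1 h2
    exact h1.sub h2
  have hev : ∀ t x, MvPolynomial.eval x (ℓ t) = ρ t (g t).2 * x (g t).1 - ρ t (g t).1 * x (g t).2 := by
    intro t x
    rw [hℓ]
    simp
  obtain ⟨Q, hQ⟩ : ∃ Q, Q = (∏ t ∈ J, ℓ t) * MvPolynomial.X c ^ (D - J.card) := ⟨_, rfl⟩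
  have hQh : Q.IsHomogeneous D := by
    rw [hQ]
    have h1 := MvPolynomial.IsHomogeneous.prod J ℓ (fun _ => 1) (fun t _ => hℓh t)
    have h2 := (MvPolynomial.isHomogeneous_X (ZMod p) c).pow (D - J.card)
    have h3 := h1.mul h2
    rw [sum_const, smul_eq_mul, mul_one, one_mul] at h3
    have e : J.card + (D - J.card) = D := by omega
    rwa [e] at h3
  obtain ⟨v, hv⟩ := of_hom E Q hQh
  refine ⟨v, ?_, fun t ht => ?_⟩
  · rw [hv, hQ, map_mul, map_prod, map_pow, MvPolynomial.eval_X]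
    apply mul_ne_zero _ (pow_ne_zero _ hc0)
    rw [prod_ne_zero_iff]
    intro t ht
    rw [hev]
    have h1 := hg t (fun h => hJ (h ▸ ht))
    intro h2
    apply h1
    rw [sub_eq_zero] at h2
    rw [mul_comm, h2, mul_comm]
  · rw [hv, hQ, map_mul, map_prod]
    rw [prod_eq_zero ht, zero_mul]
    rw [hev]
    ring

/-- the values at at most `D + 1` points are independent -/
lemma ev_surj {T : Type} (ρ : T → Fin (n + 1) → ZMod p) (hρ : ∀ t, ρ t ≠ 0)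
    (hne : ∀ t t', t ≠ t' → ∃ a b, ρ t a * ρ t' b ≠ ρ t b * ρ t' a) (I : Finset T) (hI : I.card ≤ D + 1)
    (L : (Fin d → ZMod p) →+ ({t // t ∈ I} → ZMod p)) (hL : ∀ v t, L v t = ev E v (ρ t)) : Function.Surjective L := by
  classical
  have h1 : ∀ t₀ : {t // t ∈ I}, ∃ v : Fin d → ZMod p, ev E v (ρ t₀) ≠ 0 ∧ ∀ t ∈ I.erase t₀, ev E v (ρ t) = 0 := by
    intro t₀
    apply separate E ρ hρ hne t₀ (I.erase t₀) (notMem_erase _ _)
    rw [card_erase_of_mem t₀.2]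
    omega
  choose v hv0 hv using h1
  intro u
  refine ⟨fun l => ∑ t₀ : {t // t ∈ I}, u t₀ / ev E (v t₀) (ρ t₀) * v t₀ l, ?_⟩
  funext t
  rw [hL]
  have h2 : ev E (fun l => ∑ t₀ : {t // t ∈ I}, u t₀ / ev E (v t₀) (ρ t₀) * v t₀ l) (ρ t) =
      ∑ t₀ : {t // t ∈ I}, u t₀ / ev E (v t₀) (ρ t₀) * ev E (v t₀) (ρ t) := by
    unfold ev
    simp only [sum_mul, mul_sum]
    rw [sum_comm]
    apply sum_congr rfl
    intro t₀ _
    apply sum_congr rfl
    intro l _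
    ring
  rw [h2, sum_eq_single t]
  · rw [div_mul_cancel₀ _ (hv0 t)]
  · intro t₀ _ hne'
    rw [hv t₀ t (mem_erase.2 ⟨fun h => hne' (Subtype.ext h.symm), t.2⟩), mul_zero]
  · intro h
    exact absurd (mem_univ _) h

/-- comparison with independent random variables -/
lemma compare' {T : Type} [Fintype T] [DecidableEq T] (ρ : T → Fin (n + 1) → ZMod p) (hρ : ∀ t, ρ t ≠ 0)
    (hne : ∀ t t', t ≠ t' → ∃ a b, ρ t a * ρ t' b ≠ ρ t b * ρ t' a) {k : ℕ} (hk : k ≤ D + 1) :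
    (p : ℝ) ^ Fintype.card T * ∑ v : Fin d → ZMod p, (∑ t, (quadraticChar (ZMod p) (ev E v (ρ t)) : ℝ)) ^ k =
      (p : ℝ) ^ d * ∑ ω : T → ZMod p, (∑ t, (quadraticChar (ZMod p) (ω t) : ℝ)) ^ k := by
  have hp0 : (0 : ℝ) < p := by exact_mod_cast hf.out.pos
  have e1 : ∀ v : Fin d → ZMod p, (∑ t, (quadraticChar (ZMod p) (ev E v (ρ t)) : ℝ)) ^ k = ∑ x : Fin k → T, ∏ i, (quadraticChar (ZMod p) (ev E v (ρ (x i))) : ℝ) :=
    fun v => Fintype.sum_pow _ _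
  rw [sum_congr rfl (fun v _ => e1 v), sum_comm]
  have e2 : ∀ ω : T → ZMod p, (∑ t, (quadraticChar (ZMod p) (ω t) : ℝ)) ^ k = ∑ x : Fin k → T, ∏ i, (quadraticChar (ZMod p) (ω (x i)) : ℝ) :=
    fun ω => Fintype.sum_pow _ _
  rw [sum_congr rfl (fun ω _ => e2 ω), sum_comm (s := (univ : Finset (T → ZMod p)))]
  rw [mul_sum, mul_sum]
  apply sum_congr rfl
  intro x _
  obtain ⟨I, hI⟩ : ∃ I, I = univ.image x := ⟨_, rfl⟩
  have hIc : I.card ≤ D + 1 := by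
    rw [hI]
    refine card_image_le.trans ?_
    rw [card_univ, Fintype.card_fin]
    exact hk
  have hx : ∀ i, x i ∈ I := by
    intro i
    rw [hI]
    exact mem_image_of_mem _ (mem_univ _)
  obtain ⟨Ψ, hΨ⟩ : ∃ Ψ : ({t // t ∈ I} → ZMod p) → ℝ, ∀ u, Ψ u = ∏ i, (quadraticChar (ZMod p) (u ⟨x i, hx i⟩) : ℝ) := ⟨_, fun _ => rfl⟩
  -- the forms
  obtain ⟨L, hL⟩ : ∃ L : (Fin d → ZMod p) →+ ({t // t ∈ I} → ZMod p), ∀ v t, L v t = ev E v (ρ t) := by
    refine ⟨⟨⟨fun v t => ev E v (ρ t), ?_⟩, ?_⟩, fun v t => rfl⟩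
    · funext t
      simp [ev]
    · intro v v'
      funext t
      simp only [ev, Pi.add_apply, add_mul, sum_add_distrib]
  have h3 := avg L (ev_surj E ρ hρ hne I hIc L hL) 0 Ψ
  have h4 : ∀ v, Ψ (L v + 0) = ∏ i, (quadraticChar (ZMod p) (ev E v (ρ (x i))) : ℝ) := by
    intro v
    rw [hΨ]
    apply prod_congr rfl
    intro i _
    rw [add_zero, hL]
  rw [sum_congr rfl (fun v _ => h4 v)] at h3
  -- the functions
  obtain ⟨L', hL'⟩ : ∃ L' : (T → ZMod p) →+ ({t // t ∈ I} → ZMod p), ∀ v t, L' v t = v t := by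
    refine ⟨⟨⟨fun v t => v t, ?_⟩, ?_⟩, fun v t => rfl⟩
    · funext t
      rfl
    · intro v v'
      funext t
      rfl
  have hs' : Function.Surjective L' := by
    intro u
    refine ⟨fun t => if h : t ∈ I then u ⟨t, h⟩ else 0, ?_⟩
    funext t
    rw [hL']
    simp only [dif_pos t.2]
  have h5 := avg L' hs' 0 Ψ
  have h6 : ∀ v, Ψ (L' v + 0) = ∏ i, (quadraticChar (ZMod p) (v (x i)) : ℝ) := by
    intro v
    rw [hΨ]
    apply prod_congr rfl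
    intro i _
    rw [add_zero, hL']
  rw [sum_congr rfl (fun v _ => h6 v)] at h5
  have hc : (Fintype.card ({t // t ∈ I} → ZMod p) : ℝ) ≠ 0 := by
    exact_mod_cast Fintype.card_ne_zero
  have c1 : (Fintype.card (Fin d → ZMod p) : ℝ) = (p : ℝ) ^ d := by
    rw [Fintype.card_fun, Fintype.card_fin, ZMod.card]
    push_cast
    rfl
  have c2 : (Fintype.card (T → ZMod p) : ℝ) = (p : ℝ) ^ Fintype.card T := by
    rw [Fintype.card_fun, ZMod.card]
    push_cast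
    rfl
  rw [c1] at h3
  rw [c2] at h5
  apply mul_left_cancel₀ hc
  rw [mul_left_comm, h3, mul_left_comm, ← h5]
  ring

lemma fun_S' (T : Type) [Fintype T] [DecidableEq T] (k : ℕ) : ∑ ω : T → ZMod p, (∑ t, (quadraticChar (ZMod p) (ω t) : ℝ)) ^ k = S p (Fintype.card T) k := by
  obtain ⟨e, -⟩ : ∃ e : T ≃ Fin (Fintype.card T), True := ⟨Fintype.equivFin T, trivial⟩
  unfold S
  rw [← Equiv.sum_comp (Equiv.arrowCongr e (Equiv.refl (ZMod p)))]
  apply sum_congr rfl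
  intro ω _
  congr 1
  rw [← Equiv.sum_comp e]
  apply sum_congr rfl
  intro t _
  simp [Equiv.arrowCongr]

end

/-- the moments of the normalised character sum over a set of points -/
lemma moment' (k : ℕ) : ∃ C : ℝ, 0 ≤ C ∧ ∀ (p : ℕ) (hp : p.Prime), p ≠ 2 → haveI : Fact p.Prime := ⟨hp⟩
    ∀ (n D d : ℕ) (E : Fin d ≃ {μ : Fin (n + 1) → ℕ // ∑ i, μ i = D}) (T : Type) [Fintype T] (ρ : T → Fin (n + 1) → ZMod p),
    (∀ t, ρ t ≠ 0) → (∀ t t', t ≠ t' → ∃ a b, ρ t a * ρ t' b ≠ ρ t b * ρ t' a) → k ≤ D + 1 → 1 ≤ Fintype.card T →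
    |(∑ v : Fin d → ZMod p, ((∑ t, (quadraticChar (ZMod p) (ev E v (ρ t)) : ℝ)) / √(Fintype.card T : ℝ)) ^ k) / (p : ℝ) ^ d - mu k| ≤
      C * (1 / p + 1 / (Fintype.card T : ℝ)) := by
  classical
  obtain ⟨C, hC, h⟩ := S_asymp k
  refine ⟨C, hC, fun p hp' h2 => ?_⟩
  have hf : Fact p.Prime := ⟨hp'⟩
  intro n D d E T _ ρ hρ hne hk hT
  have hp0 : (0 : ℝ) < p := by exact_mod_cast hp'.pos
  have hT0 : (0 : ℝ) < Fintype.card T := by exact_mod_cast hT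
  have hs0 : 0 < √(Fintype.card T : ℝ) := Real.sqrt_pos.2 hT0
  have h3 := compare' E ρ hρ hne hk
  rw [fun_S'] at h3
  have h4 : (∑ v : Fin d → ZMod p, ((∑ t, (quadraticChar (ZMod p) (ev E v (ρ t)) : ℝ)) / √(Fintype.card T : ℝ)) ^ k) / (p : ℝ) ^ d =
      S p (Fintype.card T) k / ((p : ℝ) ^ Fintype.card T * √(Fintype.card T : ℝ) ^ k) := by
    rw [div_eq_div_iff (pow_pos hp0 d).ne' (by positivity)]
    have e1 : ∑ v : Fin d → ZMod p, ((∑ t, (quadraticChar (ZMod p) (ev E v (ρ t)) : ℝ)) / √(Fintype.card T : ℝ)) ^ k =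
        (∑ v : Fin d → ZMod p, (∑ t, (quadraticChar (ZMod p) (ev E v (ρ t)) : ℝ)) ^ k) / √(Fintype.card T : ℝ) ^ k := by
      rw [sum_div]
      apply sum_congr rfl
      intro v _
      rw [div_pow]
    rw [e1]
    have e2 : (∑ v : Fin d → ZMod p, (∑ t, (quadraticChar (ZMod p) (ev E v (ρ t)) : ℝ)) ^ k) / √(Fintype.card T : ℝ) ^ k *
        ((p : ℝ) ^ Fintype.card T * √(Fintype.card T : ℝ) ^ k) = (p : ℝ) ^ Fintype.card T * ∑ v : Fin d → ZMod p, (∑ t, (quadraticChar (ZMod p) (ev E v (ρ t)) : ℝ)) ^ k := by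
      field_simp
    rw [e2, h3]
    ring
  rw [h4]
  exact h p hp' h2 _ hT

end Pool.Agent.X22.DP
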