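import Pool.Agent.X22.DP2
import Pool.Agent.X22.DC

/-!
# Double covers of sets of projective points
-/

set_option autoImplicit false

namespace Pool.Agent.X22.DP

open Finset
open scoped LinearAlgebra.Projectivization
open Pool.Agent.X22.MO (mu)

section
variable {p : ℕ} [hf : Fact p.Prime] {n : ℕ}

noncomputable instance instFP : Fintype (ℙ (ZMod p) (Fin (n + 1) → ZMod p)) := Fintype.ofFinite _

lemma card_units' : (Fintype.card (ZMod p)ˣ : ℝ) = p - 1 := by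
  rw [ZMod.card_units, Nat.cast_sub hf.out.one_lt.le]
  simp

/-- the sums over cones -/
lemma cone (f : (Fin (n + 1) → ZMod p) → ℝ) (hs : ∀ x (c : ZMod p), c ≠ 0 → f (fun i => c * x i) = f x) :
    ∑ x : {x : Fin (n + 1) → ZMod p // x ≠ 0}, f x = (p - 1) * ∑ P : ℙ (ZMod p) (Fin (n + 1) → ZMod p), f P.rep := by
  classical
  obtain ⟨φ, hφ⟩ : ∃ φ : ℙ (ZMod p) (Fin (n + 1) → ZMod p) × (ZMod p)ˣ → {x : Fin (n + 1) → ZMod p // x ≠ 0}, ∀ q, (φ q : Fin (n + 1) → ZMod p) = (q.2 : ZMod p) • q.1.rep :=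
    ⟨fun q => ⟨(q.2 : ZMod p) • q.1.rep, smul_ne_zero q.2.ne_zero q.1.rep_nonzero⟩, fun _ => rfl⟩
  have hbij : Function.Bijective φ := by
    constructor
    · rintro ⟨P, u⟩ ⟨P', u'⟩ h
      have h1 : (u : ZMod p) • P.rep = (u' : ZMod p) • P'.rep := by
        have := congrArg Subtype.val h
        rwa [hφ, hφ] at this
      have h2 : P = P' := by
        rw [← P.mk_rep, ← P'.mk_rep, Projectivization.mk_eq_mk_iff']
        refine ⟨(u : ZMod p)⁻¹ * u', ?_⟩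
        rw [mul_smul, ← h1, smul_smul, inv_mul_cancel₀ u.ne_zero, one_smul]
      subst h2
      have h3 : (u : ZMod p) = u' := by
        obtain ⟨i, hi⟩ := Function.ne_iff.1 P.rep_nonzero
        have h4 := congrFun h1 i
        simp only [Pi.smul_apply, smul_eq_mul] at h4
        exact mul_right_cancel₀ hi h4
      rw [Units.ext h3]
    · rintro ⟨x, hx⟩
      obtain ⟨a, ha⟩ := Projectivization.exists_smul_eq_mk_rep (ZMod p) x hx
      refine ⟨(Projectivization.mk (ZMod p) x hx, a⁻¹), Subtype.ext ?_⟩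
      rw [hφ]
      simp only
      rw [← ha, Units.smul_def, smul_smul, Units.inv_mul, one_smul]
  rw [← Equiv.sum_comp (Equiv.ofBijective φ hbij), Fintype.sum_prod_type, mul_sum]
  apply sum_congr rfl
  intro P _
  have h5 : ∀ u : (ZMod p)ˣ, f ((Equiv.ofBijective φ hbij) (P, u)) = f P.rep := by
    intro u
    rw [Equiv.ofBijective_apply, hφ]
    exact hs P.rep u u.ne_zero
  rw [sum_congr rfl (fun u _ => h5 u), sum_const, card_univ, nsmul_eq_mul, card_units']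

open Classical in
/-- the points of a projective set -/
def Pt (V : Set (Fin (n + 1) → ZMod p)) : Type := {P : ℙ (ZMod p) (Fin (n + 1) → ZMod p) // P.rep ∈ V}

noncomputable instance instPt (V : Set (Fin (n + 1) → ZMod p)) : Fintype (Pt V) := by
  classical
  unfold Pt
  infer_instance

lemma cone_set (V : Set (Fin (n + 1) → ZMod p)) (hV : ∀ x (c : ZMod p), x ∈ V → (fun i => c * x i) ∈ V)
    (g : (Fin (n + 1) → ZMod p) → ℝ) (hs : ∀ x (c : ZMod p), c ≠ 0 → g (fun i => c * x i) = g x) [DecidablePred (fun x : Fin (n + 1) → ZMod p => x ∈ V ∧ x ≠ 0)] :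
    ∑ x ∈ univ.filter (fun x : Fin (n + 1) → ZMod p => x ∈ V ∧ x ≠ 0), g x = (p - 1) * ∑ t : Pt V, g t.1.rep := by
  classical
  have h1 := cone (fun x => if x ∈ V then g x else 0) (by
    intro x c hc
    have : (fun i => c * x i) ∈ V ↔ x ∈ V := by
      constructor
      · intro h
        have h2 := hV _ c⁻¹ h
        convert h2 using 2 with i
        rw [inv_mul_cancel_left₀ hc]
      · exact hV x c
    by_cases hx : x ∈ V
    · rw [if_pos hx, if_pos (this.2 hx), hs x c hc]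
    · rw [if_neg hx, if_neg (fun h => hx (this.1 h))])
  have e1 : ∑ x : {x : Fin (n + 1) → ZMod p // x ≠ 0}, (fun x => if x ∈ V then g x else 0) (x : Fin (n + 1) → ZMod p) =
      ∑ x ∈ univ.filter (fun x : Fin (n + 1) → ZMod p => x ∈ V ∧ x ≠ 0), g x := by
    rw [← Finset.sum_subtype (univ.filter (fun x : Fin (n + 1) → ZMod p => x ≠ 0)) (by simp) (fun x => if x ∈ V then g x else 0)]
    rw [← sum_filter, filter_filter]
    apply sum_congr _ (fun _ _ => rfl)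
    ext x
    simp only [mem_filter, mem_univ, true_and]
    tauto
  have e2 : ∑ P : ℙ (ZMod p) (Fin (n + 1) → ZMod p), (if P.rep ∈ V then g P.rep else 0) = ∑ t : Pt V, g t.1.rep := by
    rw [← sum_filter]
    exact Finset.sum_subtype (univ.filter (fun P : ℙ (ZMod p) (Fin (n + 1) → ZMod p) => P.rep ∈ V)) (by simp) (fun P => g P.rep)
  rw [e1, e2] at h1
  exact h1

/-- the number of the points -/
lemma points_eq (V : Set (Fin (n + 1) → ZMod p)) (hV : ∀ x (c : ZMod p), x ∈ V → (fun i => c * x i) ∈ V) :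
    (Nat.card {x : Fin (n + 1) → ZMod p // x ∈ V ∧ x ≠ 0} : ℝ) / (p - 1) = Fintype.card (Pt V) := by
  classical
  have h1 := cone_set V hV (fun _ => 1) (fun _ _ _ => rfl)
  rw [sum_const, sum_const, card_univ, nsmul_eq_mul, nsmul_eq_mul, mul_one, mul_one] at h1
  have hp1 : (1 : ℝ) < p := by exact_mod_cast hf.out.one_lt
  rw [Nat.card_eq_fintype_card, Fintype.card_subtype, h1]
  rw [mul_div_cancel_left₀ _ (by linarith)]

/-- the number of the points of the double cover -/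
lemma cover_eq (h2 : p ≠ 2) (V : Set (Fin (n + 1) → ZMod p)) (hV : ∀ x (c : ZMod p), x ∈ V → (fun i => c * x i) ∈ V)
    (φ : (Fin (n + 1) → ZMod p) → ZMod p) (D : ℕ) (hD : Even D) (hφ : ∀ x (c : ZMod p), φ (fun i => c * x i) = c ^ D * φ x) :
    (Nat.card {P : (Fin (n + 1) → ZMod p) × ZMod p // (P.1 ∈ V ∧ P.1 ≠ 0) ∧ P.2 ^ 2 = φ P.1} : ℝ) / (p - 1) - Fintype.card (Pt V) =
      ∑ t : Pt V, (quadraticChar (ZMod p) (φ t.1.rep) : ℝ) := by
  classical
  have h3 : ringChar (ZMod p) ≠ 2 := by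
    rw [ZMod.ringChar_zmod_n]
    exact h2
  have h4 := DC.card_dc h3 (Fin (n + 1) → ZMod p) (fun x => x ∈ V ∧ x ≠ 0) φ
  have h5 := cone_set V hV (fun x => (quadraticChar (ZMod p) (φ x) : ℝ)) (by
    intro x c hc
    rw [hφ, map_mul, map_pow]
    obtain ⟨j, hj⟩ := hD
    have : quadraticChar (ZMod p) c ^ D = 1 := by
      rw [hj, ← two_mul, pow_mul, quadraticChar_sq_one hc, one_pow]
    rw [this, one_mul])
  have h6 := points_eq V hV
  have hp1 : (1 : ℝ) < p := by exact_mod_cast hf.out.one_lt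
  have hp0 : (p : ℝ) - 1 ≠ 0 := by linarith
  have h7 : (Nat.card {P : (Fin (n + 1) → ZMod p) × ZMod p // (P.1 ∈ V ∧ P.1 ≠ 0) ∧ P.2 ^ 2 = φ P.1} : ℝ) =
      Nat.card {x : Fin (n + 1) → ZMod p // x ∈ V ∧ x ≠ 0} + ∑ x ∈ univ.filter (fun x : Fin (n + 1) → ZMod p => x ∈ V ∧ x ≠ 0), (quadraticChar (ZMod p) (φ x) : ℝ) := by
    have := congrArg (Int.cast : ℤ → ℝ) h4
    push_cast at this
    exact this
  rw [h7, h5, add_div, h6, mul_div_cancel_left₀ _ hp0]
  ring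

lemma rep_sep (V : Set (Fin (n + 1) → ZMod p)) (t t' : Pt V) (h : t ≠ t') : ∃ a b, t.1.rep a * t'.1.rep b ≠ t.1.rep b * t'.1.rep a := by
  by_contra hcon
  push Not at hcon
  apply h
  apply Subtype.ext
  obtain ⟨b, hb⟩ := Function.ne_iff.1 t'.1.rep_nonzero
  rw [← t.1.mk_rep, ← t'.1.mk_rep, Projectivization.mk_eq_mk_iff']
  refine ⟨t.1.rep b / t'.1.rep b, ?_⟩
  funext a
  simp only [Pi.smul_apply, smul_eq_mul]
  have h1 := hcon a b
  have hb' : t'.1.rep b ≠ 0 := hb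
  rw [div_mul_eq_mul_div, div_eq_iff hb', h1]

end

/-- the moments of the normalised traces -/
lemma moment_dc (k : ℕ) : ∃ C : ℝ, 0 ≤ C ∧ ∀ (p : ℕ) (hp : p.Prime), p ≠ 2 → haveI : Fact p.Prime := ⟨hp⟩
    ∀ (n D d : ℕ) (E : Fin d ≃ {μ : Fin (n + 1) → ℕ // ∑ i, μ i = D}) (V : Set (Fin (n + 1) → ZMod p)), Even D →
    (∀ x (c : ZMod p), x ∈ V → (fun i => c * x i) ∈ V) → k ≤ D + 1 → 1 ≤ (Nat.card {x : Fin (n + 1) → ZMod p // x ∈ V ∧ x ≠ 0} : ℝ) / (p - 1) →
    |(∑ v : Fin d → ZMod p, (((Nat.card {P : (Fin (n + 1) → ZMod p) × ZMod p // (P.1 ∈ V ∧ P.1 ≠ 0) ∧ P.2 ^ 2 = ev E v P.1} : ℝ) / (p - 1) -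
      (Nat.card {x : Fin (n + 1) → ZMod p // x ∈ V ∧ x ≠ 0} : ℝ) / (p - 1)) / √((Nat.card {x : Fin (n + 1) → ZMod p // x ∈ V ∧ x ≠ 0} : ℝ) / (p - 1))) ^ k) /
        (p : ℝ) ^ d - mu k| ≤
      C * (1 / p + 1 / ((Nat.card {x : Fin (n + 1) → ZMod p // x ∈ V ∧ x ≠ 0} : ℝ) / (p - 1))) := by
  classical
  obtain ⟨C, hC, h⟩ := moment' k
  refine ⟨C, hC, fun p hp' h2 => ?_⟩
  have hf : Fact p.Prime := ⟨hp'⟩
  intro n D d E V hD hV hk hN
  rw [points_eq V hV] at hN ⊢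
  have hN' : 1 ≤ Fintype.card (Pt V) := by exact_mod_cast hN
  have h3 := h p hp' h2 n D d E (Pt V) (fun t => t.1.rep) (fun t => t.1.rep_nonzero) (rep_sep V) hk hN'
  have h4 : ∀ v : Fin d → ZMod p, (Nat.card {P : (Fin (n + 1) → ZMod p) × ZMod p // (P.1 ∈ V ∧ P.1 ≠ 0) ∧ P.2 ^ 2 = ev E v P.1} : ℝ) / (p - 1) - Fintype.card (Pt V) =
      ∑ t : Pt V, (quadraticChar (ZMod p) (ev E v t.1.rep) : ℝ) := fun v => cover_eq h2 V hV (ev E v) D hD (fun x c => ev_scale E v x c)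
  simp only [h4]
  exact h3

end Pool.Agent.X22.DP
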