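import Pool.Agent.X22.DP3

/-!
# Joint moments of several double covers
-/

set_option autoImplicit false

namespace Pool.Agent.X22.DP

open Finset
open Pool.Agent.X22.MO (mu blocks prod_close)
open Pool.Agent.X22.ND (mean_zmod)
open Pool.Agent.TH894.NE (mean)

/-- the normalised trace -/
noncomputable def tr (p : ℕ) {n D d : ℕ} (E : Fin d ≃ {μ : Fin (n + 1) → ℕ // ∑ i, μ i = D}) (V : Set (Fin (n + 1) → ZMod p)) (v : Fin d → ZMod p) : ℝ :=
  ((Nat.card {P : (Fin (n + 1) → ZMod p) × ZMod p // (P.1 ∈ V ∧ P.1 ≠ 0) ∧ P.2 ^ 2 = ev E v P.1} : ℝ) / (p - 1) -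
      (Nat.card {x : Fin (n + 1) → ZMod p // x ∈ V ∧ x ≠ 0} : ℝ) / (p - 1)) / √((Nat.card {x : Fin (n + 1) → ZMod p // x ∈ V ∧ x ≠ 0} : ℝ) / (p - 1))

section
variable {r : ℕ} (n D d k : Fin r → ℕ) (hk : ∀ i, k i ≤ D i + 1) (hD : ∀ i, Even (D i)) (E : ∀ i, Fin (d i) ≃ {μ : Fin (n i + 1) → ℕ // ∑ j, μ j = D i})
include hk hD

lemma single (i : Fin r) : ∃ C : ℝ, 0 ≤ C ∧ ∀ (p : ℕ) (hp : p.Prime), p ≠ 2 → haveI : Fact p.Prime := ⟨hp⟩
    ∀ (V : Set (Fin (n i + 1) → ZMod p)), (∀ x (c : ZMod p), x ∈ V → (fun i => c * x i) ∈ V) →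
    (p : ℝ) ≤ (Nat.card {x : Fin (n i + 1) → ZMod p // x ∈ V ∧ x ≠ 0} : ℝ) / (p - 1) →
    |(∑ v : Fin (d i) → ZMod p, tr p (E i) V v ^ k i) / (p : ℝ) ^ d i - mu (k i)| ≤ C / p := by
  obtain ⟨C, hC, h⟩ := moment_dc (k i)
  refine ⟨2 * C, by positivity, fun p hp' h2 V hV hN => ?_⟩
  have hf : Fact p.Prime := ⟨hp'⟩
  have hp0 : (0 : ℝ) < p := by exact_mod_cast hp'.pos
  have hp1 : (1 : ℝ) ≤ p := by exact_mod_cast hp'.one_lt.le
  refine (h p hp' h2 (n i) (D i) (d i) (E i) V (hD i) hV (hk i) (hp1.trans hN)).trans ?_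
  have h3 : 1 / ((Nat.card {x : Fin (n i + 1) → ZMod p // x ∈ V ∧ x ≠ 0} : ℝ) / (p - 1)) ≤ 1 / p := one_div_le_one_div_of_le hp0 hN
  calc C * (1 / p + 1 / ((Nat.card {x : Fin (n i + 1) → ZMod p // x ∈ V ∧ x ≠ 0} : ℝ) / (p - 1))) ≤ C * (1 / p + 1 / p) := by gcongr
    _ = 2 * C / p := by ring

/-- the joint moments -/
lemma joint_dc : ∃ C : ℝ, 0 ≤ C ∧ ∀ (p : ℕ) (hp : p.Prime), p ≠ 2 → haveI : Fact p.Prime := ⟨hp⟩
    ∀ (dd : ℕ) (e : (Σ i, Fin (d i)) ≃ Fin dd) (V : ∀ i, Set (Fin (n i + 1) → ZMod p)), (∀ i x (c : ZMod p), x ∈ V i → (fun j => c * x j) ∈ V i) →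
    (∀ i, (p : ℝ) ≤ (Nat.card {x : Fin (n i + 1) → ZMod p // x ∈ V i ∧ x ≠ 0} : ℝ) / (p - 1)) →
    |mean dd p (fun m => ∏ i, tr p (E i) (V i) (fun j => (m (e ⟨i, j⟩) : ZMod p)) ^ k i) - ∏ i, mu (k i)| ≤ C / p := by
  classical
  choose C hC h using single n D d k hk hD E
  obtain ⟨C₁, hC₁⟩ : ∃ C₁, C₁ = ∑ i, C i := ⟨_, rfl⟩
  have hC₁0 : 0 ≤ C₁ := by
    rw [hC₁]
    exact sum_nonneg (fun i _ => hC i)
  have hCi : ∀ i, C i ≤ C₁ := by
    intro i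
    rw [hC₁]
    exact single_le_sum (fun i _ => hC i) (mem_univ i)
  obtain ⟨B, hB⟩ : ∃ B, B = 1 + ∑ i, |mu (k i)| + C₁ := ⟨_, rfl⟩
  have hs0 : 0 ≤ ∑ i, |mu (k i)| := sum_nonneg (fun i _ => abs_nonneg _)
  have hB1 : 1 ≤ B := by
    rw [hB]
    linarith
  have hmu : ∀ i, |mu (k i)| ≤ ∑ i, |mu (k i)| := fun i => single_le_sum (f := fun i => |mu (k i)|) (fun i _ => abs_nonneg _) (mem_univ i)
  refine ⟨r * B ^ r * C₁, by positivity, fun p hp' h2 => ?_⟩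
  have hf : Fact p.Prime := ⟨hp'⟩
  intro dd e V hV hN
  have hp0 : (0 : ℝ) < p := by exact_mod_cast hp'.pos
  have hp1 : (1 : ℝ) ≤ p := by exact_mod_cast hp'.one_lt.le
  have h3 := mean_zmod dd p hp' (fun v => ∏ i, tr p (E i) (V i) (fun j => v (e ⟨i, j⟩)) ^ k i)
  rw [blocks e (fun i u => tr p (E i) (V i) u ^ k i)] at h3
  have hd : dd = ∑ i, d i := by
    have := Fintype.card_congr e
    rw [Fintype.card_sigma, Fintype.card_fin] at this
    rw [← this]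
    simp
  have h4 : (∏ i, ∑ u : Fin (d i) → ZMod p, tr p (E i) (V i) u ^ k i) / (p : ℝ) ^ dd =
      ∏ i, ((∑ u : Fin (d i) → ZMod p, tr p (E i) (V i) u ^ k i) / (p : ℝ) ^ d i) := by
    rw [prod_div_distrib, prod_pow_eq_pow_sum, ← hd]
  rw [h4] at h3
  have h5 := prod_close univ (fun i => (∑ u : Fin (d i) → ZMod p, tr p (E i) (V i) u ^ k i) / (p : ℝ) ^ d i) (fun i => mu (k i))
    B (C₁ / p) hB1 (by positivity) (by
      intro i _
      have h6 := h i p hp' h2 (V i) (hV i) (hN i)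
      have h7 : C i / p ≤ C₁ := (div_le_self (hC i) hp1).trans (hCi i)
      have h8 := abs_sub_abs_le_abs_sub ((∑ u : Fin (d i) → ZMod p, tr p (E i) (V i) u ^ k i) / (p : ℝ) ^ d i) (mu (k i))
      have h9 := hmu i
      rw [hB]
      linarith) (by
      intro i _
      have h9 := hmu i
      rw [hB]
      linarith) (by
      intro i _
      refine (h i p hp' h2 (V i) (hV i) (hN i)).trans ?_
      have := hCi i
      gcongr)
  rw [card_univ, Fintype.card_fin] at h5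
  rw [← h3] at h5
  refine h5.trans (le_of_eq ?_)
  ring

end

/-- the high moments -/
lemma high {r : ℕ} (n D d : Fin r → ℕ) (hD : ∀ i, Even (D i)) (E : ∀ i, Fin (d i) ≃ {μ : Fin (n i + 1) → ℕ // ∑ j, μ j = D i}) :
    ∃ C : ℝ, 0 ≤ C ∧ ∀ (p : ℕ) (hp : p.Prime), p ≠ 2 → haveI : Fact p.Prime := ⟨hp⟩
    ∀ (dd : ℕ) (e : (Σ i, Fin (d i)) ≃ Fin dd) (V : ∀ i, Set (Fin (n i + 1) → ZMod p)), (∀ i x (c : ZMod p), x ∈ V i → (fun j => c * x j) ∈ V i) →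
    (∀ i, (p : ℝ) ≤ (Nat.card {x : Fin (n i + 1) → ZMod p // x ∈ V i ∧ x ≠ 0} : ℝ) / (p - 1)) →
    mean dd p (fun m => ∏ i, (1 + tr p (E i) (V i) (fun j => (m (e ⟨i, j⟩) : ZMod p)) ^ D i)) ≤ C := by
  classical
  choose C hC h using single n D d D (fun i => Nat.le_succ _) hD E
  refine ⟨∏ i, (1 + (|mu (D i)| + C i)), prod_nonneg (fun i _ => by
    have := hC i
    positivity), fun p hp' h2 => ?_⟩
  have hf : Fact p.Prime := ⟨hp'⟩
  intro dd e V hV hN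
  have hp0 : (0 : ℝ) < p := by exact_mod_cast hp'.pos
  have hp1 : (1 : ℝ) ≤ p := by exact_mod_cast hp'.one_lt.le
  have h3 := mean_zmod dd p hp' (fun v => ∏ i, (1 + tr p (E i) (V i) (fun j => v (e ⟨i, j⟩)) ^ D i))
  rw [blocks e (fun i u => 1 + tr p (E i) (V i) u ^ D i)] at h3
  have hd : dd = ∑ i, d i := by
    have := Fintype.card_congr e
    rw [Fintype.card_sigma, Fintype.card_fin] at this
    rw [← this]
    simp
  have h4 : (∏ i, ∑ u : Fin (d i) → ZMod p, (1 + tr p (E i) (V i) u ^ D i)) / (p : ℝ) ^ dd =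
      ∏ i, (1 + (∑ u : Fin (d i) → ZMod p, tr p (E i) (V i) u ^ D i) / (p : ℝ) ^ d i) := by
    rw [hd, ← prod_pow_eq_pow_sum, ← prod_div_distrib]
    apply prod_congr rfl
    intro i _
    rw [sum_add_distrib, sum_const, card_univ, Fintype.card_fun, ZMod.card, Fintype.card_fin, nsmul_eq_mul, mul_one, add_div]
    push_cast
    rw [div_self (pow_pos hp0 _).ne']
  rw [h3, h4]
  apply prod_le_prod
  · intro i _
    have : 0 ≤ (∑ u : Fin (d i) → ZMod p, tr p (E i) (V i) u ^ D i) / (p : ℝ) ^ d i := by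
      apply div_nonneg _ (by positivity)
      exact sum_nonneg (fun u _ => (hD i).pow_nonneg _)
    linarith
  · intro i _
    have h6 := h i p hp' h2 (V i) (hV i) (hN i)
    have h7 : C i / p ≤ C i := div_le_self (hC i) hp1
    have h8 := (abs_le.1 h6).2
    have h9 := le_abs_self (mu (D i))
    linarith

end Pool.Agent.X22.DP
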