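import Pool.Agent.X22.ND5
import Pool.Agent.X22.NF

/-!
# Traces of Frobenius of elliptic curves over finite fields: bound, twists, odd functions; Chebyshev polynomials
-/

set_option autoImplicit false

namespace Pool.Agent.X22.EC

open Finset
open Pool.Agent.TH894.NE (mean mean_mul)

open Polynomial in
lemma U_bound (k : ℕ) (x : ℝ) (hx : |x| ≤ 1) : |(Polynomial.Chebyshev.U ℝ k).eval x| ≤ k + 1 := by
  induction k with
  | zero => simp
  | succ k ih =>
    have h1 : Polynomial.Chebyshev.U ℝ ((k + 1 : ℕ) : ℤ) = X * Polynomial.Chebyshev.U ℝ k + Polynomial.Chebyshev.T ℝ (k + 1) := by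
      push_cast
      exact Polynomial.Chebyshev.U_eq_X_mul_U_add_T ℝ k
    rw [h1, eval_add, eval_mul, eval_X]
    have h2 : |(Polynomial.Chebyshev.T ℝ (k + 1)).eval x| ≤ 1 := by
      rw [← Real.cos_arccos (abs_le.1 hx).1 (abs_le.1 hx).2, Polynomial.Chebyshev.T_real_cos]
      exact Real.abs_cos_le_one _
    calc |x * eval x (Polynomial.Chebyshev.U ℝ k) + eval x (Polynomial.Chebyshev.T ℝ (k + 1))| ≤
          |x * eval x (Polynomial.Chebyshev.U ℝ k)| + |eval x (Polynomial.Chebyshev.T ℝ (k + 1))| := abs_add_le _ _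
      _ ≤ 1 * (k + 1) + 1 := by
          rw [abs_mul]
          gcongr
      _ = ((k + 1 : ℕ) : ℝ) + 1 := by
          push_cast
          ring

lemma U_odd (k : ℕ) (hk : Odd k) (x : ℝ) : (Polynomial.Chebyshev.U ℝ k).eval (-x) = -(Polynomial.Chebyshev.U ℝ k).eval x := by
  rw [Polynomial.Chebyshev.U_eval_neg]
  have : ((k : ℤ).negOnePow : ℤ) = -1 := by
    rw [Int.negOnePow_odd _ (by exact_mod_cast hk)]
    rfl
  rw [this]
  push_cast
  ring

/-- the trace of Frobenius of `Y ^ 2 = X ^ 3 + s X + t` -/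
noncomputable def tq {k : Type} [Field k] (s t : k) : ℤ :=
  (Nat.card k : ℤ) - Nat.card {P : k × k // P.2 ^ 2 = P.1 ^ 3 + s * P.1 + t}

lemma tq_equiv {k k' : Type} [Field k] [Field k'] (e : k ≃+* k') (s t : k) : tq (e s) (e t) = tq s t := by
  unfold tq
  rw [Nat.card_congr e.toEquiv]
  congr 2
  refine (Nat.card_congr ((e.toEquiv.prodCongr e.toEquiv).subtypeEquiv ?_)).symm
  rintro ⟨X, Y⟩
  show Y ^ 2 = X ^ 3 + s * X + t ↔ (e Y) ^ 2 = (e X) ^ 3 + e s * e X + e t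
  rw [← map_pow, ← map_pow, ← map_mul, ← map_add, ← map_add]
  exact e.injective.eq_iff.symm

section
variable {k : Type} [Field k] [Fintype k] [DecidableEq k]

lemma tq_eq (h2 : ringChar k ≠ 2) (s t : k) : tq s t = -∑ x : k, quadraticChar k (x ^ 3 + s * x + t) := by
  have h1 := Pool.Agent.H126T.card_aff h2 (Polynomial.X ^ 3 + Polynomial.C s * Polynomial.X + Polynomial.C t) (1 : k) one_ne_zero
  simp only [one_mul, map_one, Polynomial.eval_add, Polynomial.eval_pow, Polynomial.eval_X, Polynomial.eval_mul, Polynomial.eval_C] at h1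
  unfold tq
  rw [h1, Nat.card_eq_fintype_card]
  ring

lemma tq_bound (h2 : ringChar k ≠ 2) (s t : k) : |(tq s t : ℝ)| ≤ 2 * Real.sqrt (Nat.card k) := by
  obtain ⟨g, hg⟩ : ∃ g : Polynomial k, g = Polynomial.X ^ 3 + Polynomial.C s * Polynomial.X + Polynomial.C t := ⟨_, rfl⟩
  have hgd : g.natDegree = 3 := by
    rw [hg]
    compute_degree!
  have hev : ∀ x : k, g.eval x = x ^ 3 + s * x + t := by
    intro x
    rw [hg]
    simp
  have h5 := Pool.Agent.H341R2.Sharp.weil_sharp h2 g (by rw [hgd]; norm_num) (by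
    intro c h' hgh
    by_cases hc : c = 0
    · rw [hc] at hgh
      simp at hgh
      rw [hgh, Polynomial.natDegree_zero] at hgd
      omega
    · have h6 : g.natDegree = 2 * h'.natDegree := by
        rw [hgh, Polynomial.natDegree_C_mul hc, Polynomial.natDegree_pow]
      omega)
  rw [hgd] at h5
  simp only [hev] at h5
  rw [tq_eq h2, Nat.card_eq_fintype_card]
  push_cast
  rw [abs_neg]
  refine h5.trans (le_of_eq ?_)
  norm_num

lemma tq_twist (h2 : ringChar k ≠ 2) (D : k) (hD : quadraticChar k D = -1) (s t : k) : tq (D ^ 2 * s) (D ^ 3 * t) = -tq s t := by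
  have hD0 : D ≠ 0 := by
    rintro rfl
    rw [quadraticChar_zero] at hD
    omega
  rw [tq_eq h2, tq_eq h2]
  congr 1
  rw [← Equiv.sum_comp (Equiv.mulLeft₀ D hD0) (fun x => quadraticChar k (x ^ 3 + D ^ 2 * s * x + D ^ 3 * t)), ← sum_neg_distrib]
  apply sum_congr rfl
  intro x _
  show quadraticChar k ((D * x) ^ 3 + D ^ 2 * s * (D * x) + D ^ 3 * t) = _
  have e : (D * x) ^ 3 + D ^ 2 * s * (D * x) + D ^ 3 * t = D ^ 3 * (x ^ 3 + s * x + t) := by ring
  rw [e, map_mul, map_pow, hD]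
  ring

lemma sum_odd (h2 : ringChar k ≠ 2) (Φ : ℤ → ℝ) (hΦ : ∀ n, Φ (-n) = -Φ n) : ∑ z : k × k, Φ (tq z.1 z.2) = 0 := by
  obtain ⟨D, hD⟩ : ∃ D : k, quadraticChar k D = -1 := quadraticChar_exists_neg_one h2
  have hD0 : D ≠ 0 := by
    rintro rfl
    rw [quadraticChar_zero] at hD
    omega
  obtain ⟨F, hF⟩ : ∃ F : k × k → ℝ, F = fun z => Φ (tq z.1 z.2) := ⟨_, rfl⟩
  obtain ⟨σ, hσ⟩ : ∃ σ : k × k ≃ k × k, ∀ z, σ z = (D ^ 2 * z.1, D ^ 3 * z.2) :=
    ⟨(Equiv.mulLeft₀ (D ^ 2) (pow_ne_zero 2 hD0)).prodCongr (Equiv.mulLeft₀ (D ^ 3) (pow_ne_zero 3 hD0)), fun z => rfl⟩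
  have h1 : ∀ z, F (σ z) = -F z := by
    intro z
    rw [hσ, hF]
    simp only
    rw [tq_twist h2 D hD, hΦ]
  have h3 : ∑ z : k × k, F z = -∑ z : k × k, F z := by
    calc ∑ z : k × k, F z = ∑ z : k × k, F (σ z) := (Equiv.sum_comp σ F).symm
      _ = ∑ z : k × k, -F z := sum_congr rfl (fun z _ => h1 z)
      _ = _ := sum_neg_distrib _
  have h4 : ∑ z : k × k, F z = 0 := by linarith
  rw [hF] at h4
  exact h4

end

/-- averages of functions of two independent linear forms -/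
lemma sum_two {p : ℕ} [hf : Fact p.Prime] {V : Type} [AddCommGroup V] [Fintype V] [Module (ZMod p) V] (La Lb : V →ₗ[ZMod p] ZMod p)
    (u v : V) (h1 : La u = 1) (h2 : Lb u = 0) (h3 : La v = 0) (h4 : Lb v = 1) (Ψ : ZMod p → ZMod p → ℝ)
    (hΨ : ∑ z : ZMod p × ZMod p, Ψ z.1 z.2 = 0) : ∑ m : V, Ψ (La m) (Lb m) = 0 := by
  have e1 : ∀ z : ZMod p × ZMod p, ∑ m : V, Ψ (La m) (Lb m) = ∑ m : V, Ψ (La m + z.1) (Lb m + z.2) := by
    intro z
    rw [← Equiv.sum_comp (Equiv.addRight (z.1 • u + z.2 • v)) (fun m => Ψ (La m) (Lb m))]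
    apply sum_congr rfl
    intro m _
    show Ψ (La (m + (z.1 • u + z.2 • v))) (Lb (m + (z.1 • u + z.2 • v))) = _
    simp only [map_add, map_smul, h1, h2, h3, h4, smul_eq_mul, mul_one, mul_zero, add_zero, zero_add]
  have e2 : (Fintype.card (ZMod p × ZMod p) : ℝ) * ∑ m : V, Ψ (La m) (Lb m) = 0 := by
    have e3 : (Fintype.card (ZMod p × ZMod p) : ℝ) * ∑ m : V, Ψ (La m) (Lb m) =
        ∑ z : ZMod p × ZMod p, ∑ m : V, Ψ (La m + z.1) (Lb m + z.2) := by
      rw [← sum_congr rfl (fun z _ => e1 z), sum_const, nsmul_eq_mul, card_univ]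
    rw [e3, sum_comm]
    apply sum_eq_zero
    intro m _
    rw [← hΨ]
    exact Equiv.sum_comp ((Equiv.addLeft (La m)).prodCongr (Equiv.addLeft (Lb m))) (fun z : ZMod p × ZMod p => Ψ z.1 z.2)
  have e4 : (Fintype.card (ZMod p × ZMod p) : ℝ) ≠ 0 := by
    exact_mod_cast Fintype.card_ne_zero
  exact (mul_eq_zero.1 e2).resolve_left e4

/-- the linear form with coefficients `a` -/
def lf {p d : ℕ} (a : Fin d → ZMod p) : (Fin d → ZMod p) →ₗ[ZMod p] ZMod p where
  toFun m := ∑ l, m l * a l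
  map_add' v w := by
    rw [← sum_add_distrib]
    apply sum_congr rfl
    intro l _
    rw [Pi.add_apply]
    ring
  map_smul' c v := by
    rw [RingHom.id_apply, smul_eq_mul, mul_sum]
    apply sum_congr rfl
    intro l _
    rw [Pi.smul_apply, smul_eq_mul]
    ring

lemma lf_single {p d : ℕ} (a : Fin d → ZMod p) (l : Fin d) : lf a (Pi.single l 1) = a l := by
  unfold lf
  simp only [LinearMap.coe_mk, AddHom.coe_mk]
  rw [sum_eq_single l]
  · rw [Pi.single_eq_same, one_mul]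
  · intro l' _ hne
    rw [Pi.single_eq_of_ne hne, zero_mul]
  · intro h
    exact absurd (mem_univ l) h

/-- the mean of an odd function of the trace is zero -/
lemma mean_odd (p : ℕ) (hp' : p.Prime) (h2 : p ≠ 2) {d : ℕ} (a b : Fin d → ZMod p) (l₀ l₁ : Fin d) (ha0 : a l₀ = 1) (hb0 : b l₀ = 0)
    (ha1 : a l₁ = 0) (hb1 : b l₁ = 1) (Φ : ℤ → ℝ) (hΦ : ∀ n, Φ (-n) = -Φ n) : haveI : Fact p.Prime := ⟨hp'⟩
    mean d p (fun m => Φ (tq (∑ l, (m l : ZMod p) * a l) (∑ l, (m l : ZMod p) * b l))) = 0 := by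
  have hf : Fact p.Prime := ⟨hp'⟩
  have h3 : ringChar (ZMod p) ≠ 2 := by
    rw [ZMod.ringChar_zmod_n]
    exact h2
  have h4 := Pool.Agent.X22.ND.mean_zmod d p hp' (fun v => Φ (tq (lf a v) (lf b v)))
  have h5 := sum_two (lf a) (lf b) (Pi.single l₀ 1) (Pi.single l₁ 1) (by rw [lf_single, ha0]) (by rw [lf_single, hb0])
    (by rw [lf_single, ha1]) (by rw [lf_single, hb1]) (fun s t => Φ (tq s t)) (sum_odd h3 Φ hΦ)
  rw [h5, zero_div] at h4
  exact h4

end Pool.Agent.X22.EC
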