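import Pool.Agent.X22.MT1

set_option autoImplicit false

/-! Exponential sums over the numbers obtained by few changes of digits, at all fractions with small denominators. -/

namespace Pool.Agent.X22.EQ
open Finset Filter
open Pool.Agent.TH894.ND Pool.Agent.TH894.NE
open Pool.Agent.TH894.SM (change change_eq)

/-- in every window there is a place where the number is far from the integers -/
lemma window (Z W : ℕ) (hZ : 2 ≤ Z) (hW : 1 ≤ W) (θ : ℝ) (hθ : ∀ n : ℤ, 1 / (Z : ℝ) ^ W ≤ |θ - n|) :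
    ∃ i < W, ∀ n : ℤ, 1 / ((Z : ℝ) + 1) ≤ |(Z : ℝ) ^ i * θ - n| := by
  by_contra hcon
  push Not at hcon
  have hZr : (2 : ℝ) ≤ Z := by exact_mod_cast hZ
  have hZ0 : (0 : ℝ) < Z := by linarith
  obtain ⟨n₀, hn₀⟩ := hcon 0 (by omega)
  rw [pow_zero, one_mul] at hn₀
  have key : ∀ i, i < W → ∃ n : ℤ, |(Z : ℝ) ^ i * θ - n| < 1 / ((Z : ℝ) + 1) ∧ |(Z : ℝ) ^ i * θ - n| = (Z : ℝ) ^ i * |θ - n₀| := by
    intro i
    induction i with
    | zero => exact fun _ => ⟨n₀, by rw [pow_zero, one_mul]; exact hn₀, by rw [pow_zero, one_mul, one_mul]⟩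
    | succ i ih =>
        intro hi
        obtain ⟨n, h1, h2⟩ := ih (by omega)
        obtain ⟨n', h3⟩ := hcon (i + 1) hi
        have h4 : |(Z : ℝ) ^ (i + 1) * θ - (Z : ℝ) * n| < Z / ((Z : ℝ) + 1) := by
          have : (Z : ℝ) ^ (i + 1) * θ - (Z : ℝ) * n = Z * ((Z : ℝ) ^ i * θ - n) := by ring
          rw [this, abs_mul, abs_of_pos hZ0]
          calc (Z : ℝ) * |(Z : ℝ) ^ i * θ - n| < Z * (1 / ((Z : ℝ) + 1)) := mul_lt_mul_of_pos_left h1 hZ0
            _ = _ := by ring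
        have h5 : |((n' - Z * n : ℤ) : ℝ)| < 1 := by
          have e1 : ((n' - Z * n : ℤ) : ℝ) = ((Z : ℝ) ^ (i + 1) * θ - (Z : ℝ) * n) - ((Z : ℝ) ^ (i + 1) * θ - n') := by
            push_cast
            ring
          rw [e1]
          refine (abs_sub _ _).trans_lt ?_
          have e2 : (Z : ℝ) / ((Z : ℝ) + 1) + 1 / ((Z : ℝ) + 1) = 1 := by field_simp
          linarith
        have h6 : n' = Z * n := by
          have : |(n' - Z * n : ℤ)| < 1 := by exact_mod_cast h5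
          rw [Int.abs_lt_one_iff] at this
          linarith
        refine ⟨n', h3, ?_⟩
        rw [h6]
        push_cast
        have : (Z : ℝ) ^ (i + 1) * θ - (Z : ℝ) * n = Z * ((Z : ℝ) ^ i * θ - n) := by ring
        rw [this, abs_mul, abs_of_pos hZ0, h2]
        ring
  obtain ⟨n, h1, h2⟩ := key (W - 1) (by omega)
  rw [h2] at h1
  have h3 := hθ n₀
  have h4 : (Z : ℝ) ^ (W - 1) * (1 / (Z : ℝ) ^ W) ≤ (Z : ℝ) ^ (W - 1) * |θ - n₀| := mul_le_mul_of_nonneg_left h3 (by positivity)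
  have h5 : (Z : ℝ) ^ (W - 1) * (1 / (Z : ℝ) ^ W) = 1 / Z := by
    obtain ⟨w, rfl⟩ : ∃ w, W = w + 1 := ⟨W - 1, by omega⟩
    rw [Nat.add_sub_cancel, pow_succ]
    field_simp
  rw [h5] at h4
  have h6 : 1 / ((Z : ℝ) + 1) < 1 / (Z : ℝ) := one_div_lt_one_div_of_lt hZ0 (by linarith)
  linarith

open Classical in
/-- there are many such places -/
lemma good_card (Z W T : ℕ) (hZ : 2 ≤ Z) (hW : 1 ≤ W) (θ : ℝ) (hθ : ∀ (i : ℕ) (n : ℤ), 1 / (Z : ℝ) ^ W ≤ |(Z : ℝ) ^ i * θ - n|) :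
    T / W ≤ ((range T).filter (fun i => ∀ n : ℤ, 1 / ((Z : ℝ) + 1) ≤ |(Z : ℝ) ^ i * θ - n|)).card := by
  have h1 : ∀ j : ℕ, ∃ i < W, ∀ n : ℤ, 1 / ((Z : ℝ) + 1) ≤ |(Z : ℝ) ^ (j * W + i) * θ - n| := by
    intro j
    obtain ⟨i, hi, h⟩ := window Z W hZ hW ((Z : ℝ) ^ (j * W) * θ) (hθ (j * W))
    refine ⟨i, hi, fun n => ?_⟩
    have := h n
    rwa [← mul_assoc, ← pow_add, add_comm i] at this
  choose g hg1 hg2 using h1
  have h2 : (range (T / W)).card = T / W := card_range _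
  rw [← h2]
  refine card_le_card_of_injOn (fun j => j * W + g j) ?_ ?_
  · intro j hj
    rw [mem_coe, mem_range] at hj
    rw [mem_coe, mem_filter, mem_range]
    refine ⟨?_, hg2 j⟩
    have h3 := hg1 j
    have h4 : (j + 1) * W ≤ T := by
      calc (j + 1) * W ≤ (T / W) * W := Nat.mul_le_mul_right _ (by omega)
        _ ≤ T := Nat.div_mul_le_self T W
    show j * W + g j < T
    nlinarith
  · intro j _ j' _ h
    have h3 : (j * W + g j) / W = j := by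
      rw [add_comm, Nat.add_mul_div_right _ _ (by omega), Nat.div_eq_of_lt (hg1 j), zero_add]
    have h4 : (j' * W + g j') / W = j' := by
      rw [add_comm, Nat.add_mul_div_right _ _ (by omega), Nat.div_eq_of_lt (hg1 j'), zero_add]
    have h5 : j * W + g j = j' * W + g j' := h
    rw [← h3, ← h4, h5]

/-- fractions with small denominators are far from the integers -/
lemma frac_away (Z W Q D L k : ℕ) (hQ : 1 ≤ Q) (hD : D ≤ Z ^ W) (hL : Nat.Coprime L Q) (hZQ : Nat.Coprime Z Q)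
    (hk : k ∈ Fr Q D) (hk0 : k ≠ 0) (i : ℕ) (n : ℤ) : 1 / (Z : ℝ) ^ W ≤ |(Z : ℝ) ^ i * ((L : ℝ) * k / Q) - n| := by
  unfold Fr at hk
  simp only [mem_filter, mem_range] at hk
  obtain ⟨hkQ, M', hM1, hMD, hMk⟩ := hk
  obtain ⟨g, hg⟩ : ∃ g, g = Nat.gcd k Q := ⟨_, rfl⟩
  have hg0 : 0 < g := by rw [hg]; exact Nat.gcd_pos_of_pos_right k (by omega)
  obtain ⟨a, ha⟩ : g ∣ k := by rw [hg]; exact Nat.gcd_dvd_left k Q
  obtain ⟨M, hM⟩ : g ∣ Q := by rw [hg]; exact Nat.gcd_dvd_right k Q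
  have hM0 : 0 < M := by
    rcases Nat.eq_zero_or_pos M with h | h
    · rw [h, mul_zero] at hM; omega
    · exact h
  have hcop : Nat.Coprime a M := by
    have h1 : Nat.gcd k Q = g * Nat.gcd a M := by
      conv_lhs => rw [ha, hM]
      rw [Nat.gcd_mul_left]
    rw [← hg] at h1
    have h2 : g * 1 = g * Nat.gcd a M := by rw [mul_one]; exact h1
    exact (Nat.eq_of_mul_eq_mul_left hg0 h2).symm
  have hMM : M ∣ M' := by
    have h1 : g * M ∣ g * (a * M') := by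
      rw [← hM, ← mul_assoc, ← ha]
      exact hMk
    have h2 : M ∣ a * M' := Nat.dvd_of_mul_dvd_mul_left hg0 h1
    exact hcop.symm.dvd_of_dvd_mul_left h2
  have hMD' : M ≤ D := (Nat.le_of_dvd (by omega) hMM).trans hMD
  have hMQ : M ∣ Q := ⟨g, by rw [hM]; ring⟩
  have hMne : M ≠ 1 := by
    intro h
    rw [h, mul_one] at hM
    rw [hM] at hkQ
    have : g ≤ k := Nat.le_of_dvd (by omega) ⟨a, ha⟩
    omega
  have hMr : (0 : ℝ) < M := by exact_mod_cast hM0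
  have hgr : (0 : ℝ) < g := by exact_mod_cast hg0
  have e1 : (Z : ℝ) ^ i * ((L : ℝ) * k / Q) - n = (((Z : ℤ) ^ i * L * a - n * M : ℤ) : ℝ) / M := by
    rw [ha, hM]
    push_cast
    field_simp
  have hu : ((Z : ℤ) ^ i * L * a - n * M : ℤ) ≠ 0 := by
    intro h
    have h1 : (M : ℤ) ∣ ((Z ^ i * L * a : ℕ) : ℤ) := ⟨n, by push_cast; linarith⟩
    have h2 : M ∣ Z ^ i * L * a := by exact_mod_cast h1
    have h3 : Nat.Coprime (Z ^ i * L * a) M := by
      refine Nat.Coprime.mul_left (Nat.Coprime.mul_left ?_ ?_) hcop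
      · exact (hZQ.coprime_dvd_right hMQ).pow_left i
      · exact hL.coprime_dvd_right hMQ
    exact hMne (Nat.Coprime.eq_one_of_dvd h3.symm h2)
  rw [e1, abs_div, abs_of_pos hMr]
  have h4 : (1 : ℝ) ≤ |(((Z : ℤ) ^ i * L * a - n * M : ℤ) : ℝ)| := by
    have : (1 : ℤ) ≤ |((Z : ℤ) ^ i * L * a - n * M : ℤ)| := Int.one_le_abs hu
    exact_mod_cast this
  have h5 : (M : ℝ) ≤ (Z : ℝ) ^ W := by
    have : M ≤ Z ^ W := hMD'.trans hD
    exact_mod_cast this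
  calc 1 / (Z : ℝ) ^ W ≤ 1 / (M : ℝ) := one_div_le_one_div_of_le hMr h5
    _ ≤ _ := div_le_div_of_nonneg_right h4 hMr.le


open Classical in
/-- **the exponential sums at all fractions with small denominators** -/
theorem few_exp (b : ℕ) (hb : 2 ≤ b) : ∃ η : ℝ, 0 < η ∧ ∀ (K r W Q D k : ℕ), 1 ≤ r → 2 * r ≤ K → 1 ≤ W → 4 * W ≤ K → 1 ≤ Q →
    Nat.Coprime (b * b).factorial Q → D ≤ (b ^ 2) ^ W → k ∈ Fr Q D → k ≠ 0 → ∀ N : ℕ, N < b ^ K →
    ∀ f : ℕ → ℕ, (∀ j, f j < b ∧ f j ≠ N / b ^ j % b) →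
    ‖∑ S ∈ powersetCard r (range K), ee ((k : ℝ) * (change b K N f S : ℕ) / Q)‖ ≤
      ((4 * r + 2) * Real.exp (-(η * r / W))) * ((powersetCard r (range K)).card : ℝ) := by
  obtain ⟨L, hL⟩ : ∃ L, L = (b * b).factorial := ⟨_, rfl⟩
  obtain ⟨Z, hZ⟩ : ∃ Z, Z = b ^ 2 := ⟨_, rfl⟩
  have hb2 : (2 : ℝ) ≤ b := by exact_mod_cast hb
  have hZr : (4 : ℝ) ≤ Z := by
    rw [hZ]
    push_cast
    nlinarith
  have hZ2 : 2 ≤ Z := by
    have : (2 : ℝ) ≤ Z := by linarith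
    exact_mod_cast this
  have hL1 : (1 : ℝ) ≤ L := by rw [hL]; exact_mod_cast Nat.factorial_pos _
  have hL0 : (0 : ℝ) < L := by linarith
  obtain ⟨d, hd⟩ : ∃ d : ℝ, d = 1 / (((Z : ℝ) + 1) * L) := ⟨_, rfl⟩
  have hd0 : 0 < d := by rw [hd]; positivity
  have hd1 : d ≤ 1 / 2 := by
    rw [hd]
    apply one_div_le_one_div_of_le (by norm_num)
    nlinarith
  refine ⟨2 * d ^ 2 / 16, by positivity, fun K r W Q D k hr hrK hW hWK hQ hLQ hDW hk hk0 N hN f hf => ?_⟩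
  have hbL : b ∣ L := by rw [hL]; exact Nat.dvd_factorial (by omega) (by nlinarith)
  have hbQ : Nat.Coprime b Q := Nat.Coprime.coprime_dvd_left (by rw [← hL]; exact hbL) hLQ
  have hZQ : Nat.Coprime Z Q := by rw [hZ]; exact hbQ.pow_left _
  rw [← hL] at hLQ
  rw [← hZ] at hDW
  obtain ⟨cd, hcd⟩ : ∃ cd : ℕ → ℤ, cd = fun j => (f j : ℤ) - ((N / b ^ j % b : ℕ) : ℤ) := ⟨_, rfl⟩
  have hcdb : ∀ j, cd j ≠ 0 ∧ (cd j).natAbs < b := by
    intro i
    obtain ⟨h1, h2⟩ := hf i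
    have h3 : N / b ^ i % b < b := Nat.mod_lt _ (by omega)
    rw [hcd]
    show (f i : ℤ) - ((N / b ^ i % b : ℕ) : ℤ) ≠ 0 ∧ ((f i : ℤ) - ((N / b ^ i % b : ℕ) : ℤ)).natAbs < b
    constructor
    · omega
    · omega
  have hexpS : ‖∑ S ∈ powersetCard r (range K), ee ((k : ℝ) * (change b K N f S : ℕ) / Q)‖ =
      ‖∑ S ∈ powersetCard r (range K), ∏ i ∈ S, ee ((k : ℝ) * (cd i : ℝ) * (b : ℝ) ^ i / Q)‖ := by
    have h1 : ∀ S ∈ powersetCard r (range K), ee ((k : ℝ) * (change b K N f S : ℕ) / Q) =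
        ee ((k : ℝ) * N / Q) * ∏ i ∈ S, ee ((k : ℝ) * (cd i : ℝ) * (b : ℝ) ^ i / Q) := by
      intro S hS
      rw [mem_powersetCard] at hS
      have h2 := change_eq b K N hN f S hS.1
      have h3 : ((change b K N f S : ℕ) : ℝ) = N + ∑ i ∈ S, (cd i : ℝ) * (b : ℝ) ^ i := by
        have h4 : (((change b K N f S : ℕ) : ℤ) : ℝ) = ((N + ∑ i ∈ S, Pool.Agent.TH894.SM.dl b (Pool.Agent.TH894.SM.ed b N f) i : ℤ) : ℝ) := by
          rw [h2]
        push_cast at h4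
        rw [h4]
        congr 1
        refine sum_congr rfl fun i _ => ?_
        unfold Pool.Agent.TH894.SM.dl Pool.Agent.TH894.SM.ed
        rw [hcd]
        push_cast
        ring
      rw [h3, ← ee_sum, ← ee_add]
      congr 1
      rw [mul_add, add_div, mul_sum, sum_div]
      congr 1
      exact sum_congr rfl fun i _ => by ring
    rw [sum_congr rfl h1, ← mul_sum, norm_mul, ee_norm, one_mul]
  rw [hexpS, card_powersetCard, card_range]
  obtain ⟨J, hJ⟩ : ∃ J : Finset ℕ, J = (range (K / 2)).filter (fun i => ∀ n : ℤ, 1 / ((Z : ℝ) + 1) ≤ |(Z : ℝ) ^ i * ((L : ℝ) * k / Q) - n|) := ⟨_, rfl⟩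
  have hJc : K / 2 / W ≤ J.card := by
    rw [hJ]
    exact good_card Z W (K / 2) hZ2 hW _ (fun i n => frac_away Z W Q D L k hQ hDW hLQ hZQ hk hk0 i n)
  have hKr : (0 : ℝ) < K := by exact_mod_cast (by omega : 0 < K)
  have hWr : (1 : ℝ) ≤ W := by exact_mod_cast hW
  have hrr : (0 : ℝ) < r := by exact_mod_cast (by omega : 0 < r)
  have hJK : (K : ℝ) / (8 * W) ≤ J.card := by
    have h1 : (K / 2 : ℕ) < W * (K / 2 / W + 1) := Nat.lt_mul_div_succ _ (by omega)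
    have h2 : K < 2 * (K / 2 + 1) := Nat.lt_mul_div_succ K (by norm_num)
    have h3 : K + 1 ≤ 2 * (W * (K / 2 / W + 1)) := by omega
    have h4 : (K : ℝ) + 1 ≤ 2 * (W * ((K / 2 / W : ℕ) + 1)) := by exact_mod_cast h3
    have h5 : ((K / 2 / W : ℕ) : ℝ) ≤ J.card := by exact_mod_cast hJc
    have h6 : (4 : ℝ) * W ≤ K := by exact_mod_cast hWK
    rw [div_le_iff₀ (by positivity)]
    nlinarith
  have hη0 : 0 ≤ 2 * d ^ 2 := by positivity
  have hη1 : 2 * d ^ 2 ≤ 1 := by nlinarith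
  have hmain := esymm_bound K r 1 hr hrK le_rfl (fun j => ee ((k : ℝ) * (cd j : ℝ) * (b : ℝ) ^ j / Q))
    (fun j => (ee_norm _).le) J ?_ (2 * d ^ 2) hη0 hη1 ?_
  · refine hmain.trans ?_
    have h1 : Real.exp (-(2 * d ^ 2 * r * J.card / (2 * K))) ≤ Real.exp (-(2 * d ^ 2 / 16 * r / W)) := by
      apply Real.exp_le_exp.2
      apply neg_le_neg
      have h2 : 2 * d ^ 2 / 16 * r / W = (2 * d ^ 2 * r / (2 * K)) * ((K : ℝ) / (8 * W)) := by
        field_simp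
        ring
      have h3 : 2 * d ^ 2 * r * J.card / (2 * K) = (2 * d ^ 2 * r / (2 * K)) * J.card := by ring
      rw [h2, h3]
      exact mul_le_mul_of_nonneg_left hJK (by positivity)
    calc (4 * (r : ℝ) + 2) * (K.choose r : ℝ) * Real.exp (-(2 * d ^ 2 * r * J.card / (2 * K))) ≤
          (4 * (r : ℝ) + 2) * (K.choose r : ℝ) * Real.exp (-(2 * d ^ 2 / 16 * r / W)) :=
          mul_le_mul_of_nonneg_left h1 (by positivity)
      _ = _ := by ring
  · intro i hi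
    rw [hJ, mem_filter, mem_range] at hi
    have := hi.1
    omega
  · intro i hi
    rw [hJ, mem_filter, mem_range] at hi
    obtain ⟨j, hj⟩ : ∃ j, j = 2 * 1 * i := ⟨_, rfl⟩
    obtain ⟨τ, hτ⟩ : ∃ τ : ℤ, τ = b * cd (j + 1) - cd j := ⟨_, rfl⟩
    have hτ0 : τ ≠ 0 := by
      intro h
      rw [hτ] at h
      have h1 : cd j = b * cd (j + 1) := by linarith
      have h2 : (cd j).natAbs = b * (cd (j + 1)).natAbs := by
        rw [h1, Int.natAbs_mul, Int.natAbs_natCast]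
      have h3 := (hcdb j).2
      have h4 : 0 < (cd (j + 1)).natAbs := Int.natAbs_pos.2 (hcdb (j + 1)).1
      have h5 : b * 1 ≤ b * (cd (j + 1)).natAbs := Nat.mul_le_mul_left b h4
      omega
    have hτb : τ.natAbs ≤ b * b := by
      have h3 := (hcdb j).2
      have h4 := (hcdb (j + 1)).2
      have h5 : τ.natAbs ≤ b * (cd (j + 1)).natAbs + (cd j).natAbs := by
        rw [hτ]
        refine (Int.natAbs_sub_le _ _).trans ?_
        rw [Int.natAbs_mul, Int.natAbs_natCast]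
      have h6 : (cd (j + 1)).natAbs ≤ b - 1 := by omega
      have h7 : b * (cd (j + 1)).natAbs ≤ b * (b - 1) := Nat.mul_le_mul_left b h6
      have h8 : b * (b - 1) + b = b * b := by
        obtain ⟨b', rfl⟩ : ∃ b', b = b' + 1 := ⟨b - 1, by omega⟩
        rw [Nat.add_sub_cancel]
        ring
      omega
    have hτL : τ ∣ (L : ℤ) := by
      rw [Int.dvd_natCast, hL]
      exact Nat.dvd_factorial (Int.natAbs_pos.2 hτ0) hτb
    obtain ⟨τ', hτ'⟩ := hτL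
    have hτr : (L : ℝ) = τ * τ' := by exact_mod_cast hτ'
    have haway : ∀ n : ℤ, d ≤ |(k : ℝ) * (τ : ℝ) * (Z : ℝ) ^ i / Q - n| := by
      intro n
      have h1 := hi.2 (τ' * n)
      have e1 : (Z : ℝ) ^ i * ((L : ℝ) * k / Q) - ((τ' * n : ℤ) : ℝ) = τ' * ((k : ℝ) * (τ : ℝ) * (Z : ℝ) ^ i / Q - n) := by
        push_cast
        rw [hτr]
        ring
      rw [e1, abs_mul] at h1
      have h2 : |(τ' : ℝ)| ≤ L := by
        have h3 : (1 : ℝ) ≤ |(τ : ℝ)| := by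
          have : (1 : ℤ) ≤ |τ| := Int.one_le_abs hτ0
          exact_mod_cast this
        calc |(τ' : ℝ)| = 1 * |(τ' : ℝ)| := (one_mul _).symm
          _ ≤ |(τ : ℝ)| * |(τ' : ℝ)| := mul_le_mul_of_nonneg_right h3 (abs_nonneg _)
          _ = L := by rw [← abs_mul, ← hτr, abs_of_pos hL0]
      rw [hd, div_le_iff₀ (by positivity)]
      rw [div_le_iff₀ (by positivity)] at h1
      calc (1 : ℝ) ≤ |(τ' : ℝ)| * |(k : ℝ) * (τ : ℝ) * (Z : ℝ) ^ i / Q - n| * ((Z : ℝ) + 1) := h1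
        _ ≤ L * |(k : ℝ) * (τ : ℝ) * (Z : ℝ) ^ i / Q - n| * ((Z : ℝ) + 1) := by gcongr
        _ = _ := by ring
    have e2 : ee ((k : ℝ) * (cd j : ℝ) * (b : ℝ) ^ j / Q) + ee ((k : ℝ) * (cd (j + 1) : ℝ) * (b : ℝ) ^ (j + 1) / Q) =
        ee ((k : ℝ) * (cd j : ℝ) * (b : ℝ) ^ j / Q) * (1 + ee ((k : ℝ) * (τ : ℝ) * (Z : ℝ) ^ i / Q)) := by
      rw [mul_add, mul_one, ← ee_add]
      congr 2
      have e3 : (Z : ℝ) ^ i = (b : ℝ) ^ j := by
        rw [hZ, hj]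
        push_cast
        rw [← pow_mul]
      rw [e3, hτ, pow_succ]
      push_cast
      ring
    show ‖ee ((k : ℝ) * (cd (2 * 1 * i) : ℝ) * (b : ℝ) ^ (2 * 1 * i) / Q) + ee ((k : ℝ) * (cd (2 * 1 * i + 1) : ℝ) * (b : ℝ) ^ (2 * 1 * i + 1) / Q)‖ ≤ _
    rw [← hj, e2, norm_mul, ee_norm, one_mul]
    exact one_add_ee _ d hd0.le haway

end Pool.Agent.X22.EQ
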