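import Pool.Agent.X22.EQ7

set_option autoImplicit false

/-! Powers of sums of local functions over few-digit changes: comparison of the averages with the means. -/

namespace Pool.Agent.X22.EQ
open Finset Filter
open Pool.Agent.TH894.ND Pool.Agent.TH894.NE
open Pool.Agent.TH894.SM (change change_eq)

lemma Fr_mono (Q D D' : ℕ) (h : D ≤ D') {k : ℕ} (hk : k ∉ Fr Q D') : k ∉ Fr Q D := by
  classical
  intro h1
  apply hk
  unfold Fr at h1 ⊢
  simp only [mem_filter] at h1 ⊢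
  refine ⟨h1.1, ?_⟩
  obtain ⟨D₁, h2, h3, h4⟩ := h1.2
  exact ⟨D₁, h2, h3.trans h, h4⟩

/-- **Averages of powers over few-digit changes.** -/
theorem few_pow (b d j : ℕ) (hb : 2 ≤ b) (hd : 1 ≤ d) (hj1 : 1 ≤ j) : ∃ c : ℝ, 0 < c ∧
    ∀ (r K : Fin d → ℕ) (x : ℕ), (∀ i, 2 * r i ≤ K i) → 3 ≤ x → (∀ i, Real.log x ^ 2 ≤ c * r i) →
    ∀ N : Fin d → ℕ, (∀ i, N i < b ^ K i) → ∀ f : Fin d → ℕ → ℕ, (∀ i j, f i j < b ∧ f i j ≠ N i / b ^ j % b) →
    ∀ {ι : Type} (I : Finset ι) (q : ι → ℕ), (∀ a ∈ I, 1 ≤ q a ∧ q a ≤ x ∧ Nat.Coprime (q a) (b * b).factorial) →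
    ∀ F : ι → (Fin d → ℕ) → ℝ, (∀ a ∈ I, Per (q a) (F a)) → ∀ k ≤ 2 * j,
    |∑ S ∈ Fintype.piFinset (fun i => powersetCard (r i) (range (K i))),
      (∑ a ∈ I, F a (fun i => change b (K i) (N i) (f i) (S i))) ^ k -
      mean d (∏ a ∈ I, q a) (fun n => (∑ a ∈ I, F a n) ^ k) * ∏ i, ((K i).choose (r i) : ℝ)| ≤
      mean d (∏ a ∈ I, q a) (fun n => |∑ a ∈ I, F a n| ^ k) * (1 / x) * ∏ i, ((K i).choose (r i) : ℝ) := by
  classical
  have hjr : (1 : ℝ) ≤ j := by exact_mod_cast hj1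
  have hdr : (1 : ℝ) ≤ d := by exact_mod_cast hd
  obtain ⟨η, hη, hexp⟩ := few_avg b d hb
  obtain ⟨a₀, ha₀⟩ : ∃ a₀ : ℝ, a₀ = η / (4 * j) := ⟨_, rfl⟩
  have ha0 : 0 < a₀ := by rw [ha₀]; positivity
  obtain ⟨c, hc⟩ : ∃ c : ℝ, c = min (1 / (8 * (j : ℝ))) (min (a₀ / (2 * (4 * (j : ℝ) * d + 1))) (a₀ ^ 2 / 48)) := ⟨_, rfl⟩
  have hc0 : 0 < c := by rw [hc]; exact lt_min (by positivity) (lt_min (by positivity) (by positivity))
  have hc1 : c ≤ 1 / (8 * (j : ℝ)) := by rw [hc]; exact min_le_left _ _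
  have hc2 : c ≤ a₀ / (2 * (4 * (j : ℝ) * d + 1)) := by rw [hc]; exact (min_le_right _ _).trans (min_le_left _ _)
  have hc3 : c ≤ a₀ ^ 2 / 48 := by rw [hc]; exact (min_le_right _ _).trans (min_le_right _ _)
  refine ⟨c, hc0, fun r K x hrK hx hxr N hN f hf ι I q hq F hF k hk => ?_⟩
  have hx3 : (3 : ℝ) ≤ x := by exact_mod_cast hx
  have hx0 : (0 : ℝ) < x := by linarith
  have hx1' : (1 : ℝ) ≤ x := by linarith
  obtain ⟨l, hl⟩ : ∃ l : ℝ, l = Real.log x := ⟨_, rfl⟩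
  have hl1 : 1 ≤ l := by
    rw [hl, Real.le_log_iff_exp_le hx0]
    have := Real.exp_one_lt_d9
    linarith
  rw [← hl] at hxr
  obtain ⟨Q, hQ⟩ : ∃ Q, Q = ∏ a ∈ I, q a := ⟨_, rfl⟩
  have hQ1 : 1 ≤ Q := by
    rw [hQ]
    exact Nat.one_le_iff_ne_zero.2 (prod_ne_zero_iff.2 fun a ha => by have := (hq a ha).1; omega)
  have hLQ : Nat.Coprime (b * b).factorial Q := by
    rw [hQ]
    apply Nat.Coprime.prod_right
    intro a ha
    exact (hq a ha).2.2.symm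
  obtain ⟨D, hD⟩ : ∃ D, D = x ^ (2 * j) := ⟨_, rfl⟩
  have hD0 : D ≠ 0 := by
    rw [hD]
    exact pow_ne_zero _ (by omega)
  obtain ⟨W, hW⟩ : ∃ W, W = Nat.log 2 D + 1 := ⟨_, rfl⟩
  have hW1 : 1 ≤ W := by omega
  have hDW : D ≤ (b ^ 2) ^ W := by
    have h1 : D < 2 ^ W := by rw [hW]; exact Nat.lt_pow_succ_log_self (by norm_num) D
    refine h1.le.trans (Nat.pow_le_pow_left ?_ W)
    nlinarith
  have hWl : (W : ℝ) ≤ 4 * j * l := by
    have h1 : 2 ^ Nat.log 2 D ≤ D := Nat.pow_log_le_self 2 hD0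
    have h2 : ((2 : ℝ) ^ Nat.log 2 D) ≤ (x : ℝ) ^ (2 * j) := by
      rw [hD] at h1 ⊢
      exact_mod_cast h1
    have h3 := Real.log_le_log (by positivity) h2
    rw [Real.log_pow, Real.log_pow, ← hl] at h3
    have h4 := Real.log_two_gt_d9
    have h5 : (Nat.log 2 D : ℝ) * 0.69 ≤ 2 * j * l := by
      have : (0 : ℝ) ≤ (Nat.log 2 D : ℝ) := Nat.cast_nonneg _
      push_cast at h3
      nlinarith
    have h6 : (1 : ℝ) ≤ j * l := by nlinarith
    rw [hW]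
    push_cast
    nlinarith
  have hWr : (1 : ℝ) ≤ W := by exact_mod_cast hW1
  have hrl : ∀ i, l ^ 2 ≤ c * r i := hxr
  have hr1 : ∀ i, 1 ≤ r i := by
    intro i
    have h1 : 0 < c * (r i : ℝ) := by
      have := hrl i
      nlinarith
    have h2 : (0 : ℝ) < r i := by
      by_contra h
      push Not at h
      have := mul_nonpos_of_nonneg_of_nonpos hc0.le h
      linarith
    have h3 : 0 < r i := by exact_mod_cast h2
    omega
  have hWK : ∀ i, 4 * W ≤ K i := by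
    intro i
    have h1 : (2 : ℝ) * r i ≤ K i := by exact_mod_cast hrK i
    have h2 := hrl i
    have h3 : 8 * (j : ℝ) * l ≤ r i := by
      have h4 : l ≤ c * r i := by nlinarith
      have h5 : c * (r i : ℝ) ≤ 1 / (8 * j) * r i := mul_le_mul_of_nonneg_right hc1 (Nat.cast_nonneg _)
      have h6 : l ≤ 1 / (8 * j) * r i := h4.trans h5
      rw [one_div, inv_mul_eq_div, le_div_iff₀ (by positivity)] at h6
      linarith
    have h7 : (4 : ℝ) * W ≤ K i := by linarith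
    exact_mod_cast h7
  obtain ⟨ε, hε⟩ : ∃ ε : ℝ, ε = (x : ℝ) ^ (-(4 * (j : ℝ) * d + 1)) := ⟨_, rfl⟩
  have hε0 : 0 ≤ ε := by rw [hε]; positivity
  have hbound : ∀ i, (4 * (r i : ℝ) + 2) * Real.exp (-(η * r i / W)) ≤ ε := by
    intro i
    have hri : (1 : ℝ) ≤ r i := by exact_mod_cast hr1 i
    obtain ⟨ρ, hρ⟩ : ∃ ρ : ℝ, ρ = r i / l := ⟨_, rfl⟩
    have hl0 : 0 < l := by linarith
    have hρ0 : 0 < ρ := by rw [hρ]; positivity
    have hρl : ρ * l = r i := by rw [hρ]; field_simp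
    have h1 : a₀ * ρ ≤ η * r i / W := by
      rw [ha₀, hρ, le_div_iff₀ (by positivity)]
      have e1 : η / (4 * j) * (r i / l) * W = (η * r i) * (W / (4 * j * l)) := by field_simp
      rw [e1]
      have e2 : (W : ℝ) / (4 * j * l) ≤ 1 := by rw [div_le_one (by positivity)]; exact hWl
      calc (η * r i) * (W / (4 * j * l)) ≤ (η * r i) * 1 := mul_le_mul_of_nonneg_left e2 (by positivity)
        _ = _ := mul_one _
    have h2 : l ≤ c * ρ := by
      have := hrl i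
      rw [← hρl] at this
      have h3 : l * l ≤ (c * ρ) * l := by nlinarith
      exact le_of_mul_le_mul_right h3 hl0
    have h3 : (4 * (j : ℝ) * d + 1) * l ≤ a₀ / 2 * ρ := by
      calc (4 * (j : ℝ) * d + 1) * l ≤ (4 * j * d + 1) * (c * ρ) := mul_le_mul_of_nonneg_left h2 (by positivity)
        _ ≤ (4 * j * d + 1) * ((a₀ / (2 * (4 * (j : ℝ) * d + 1))) * ρ) := by gcongr
        _ = a₀ / 2 * ρ := by field_simp
    have h4 : 4 * (r i : ℝ) + 2 ≤ Real.exp (a₀ / 2 * ρ) := by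
      have h5 := Real.pow_div_factorial_le_exp (x := a₀ / 2 * ρ) (by positivity) 2
      have h6 : (r i : ℝ) ≤ c * ρ ^ 2 := by
        calc (r i : ℝ) = ρ * l := hρl.symm
          _ ≤ ρ * (c * ρ) := mul_le_mul_of_nonneg_left h2 hρ0.le
          _ = _ := by ring
      have h7 : c * ρ ^ 2 ≤ a₀ ^ 2 / 48 * ρ ^ 2 := mul_le_mul_of_nonneg_right hc3 (sq_nonneg _)
      have h8 : ((2 : ℕ).factorial : ℝ) = 2 := by norm_num [Nat.factorial]
      rw [h8] at h5
      nlinarith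
    rw [hε, Real.rpow_def_of_pos hx0, ← hl]
    calc (4 * (r i : ℝ) + 2) * Real.exp (-(η * r i / W)) ≤ Real.exp (a₀ / 2 * ρ) * Real.exp (-(a₀ * ρ)) := by
          apply mul_le_mul h4 (Real.exp_le_exp.2 (by linarith)) (Real.exp_pos _).le (Real.exp_pos _).le
      _ = Real.exp (-(a₀ / 2 * ρ)) := by
          rw [← Real.exp_add]
          congr 1
          ring
      _ ≤ _ := by
          apply Real.exp_le_exp.2
          linarith
  have hper : Per Q (fun n => (∑ a ∈ I, F a n) ^ k) := by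
    intro m
    show (∑ a ∈ I, F a m) ^ k = (∑ a ∈ I, F a (fun i => m i % Q)) ^ k
    congr 1
    refine sum_congr rfl fun a ha => ?_
    exact ((hF a ha).of_dvd (by rw [hQ]; exact dvd_prod_of_mem q ha)) m
  have hFs : ∀ k' ∈ box d Q, (∃ i, k' i ∉ Fr Q D) → cfd Q (fun n => (∑ a ∈ I, F a n) ^ k) k' = 0 := by
    intro k' hk' hkF
    obtain ⟨i₀, hi₀⟩ := hkF
    have hDk : x ^ k ≤ D := by rw [hD]; exact Nat.pow_le_pow_right (by omega) hk
    exact cfd_zero I q F Q k x hQ1 (fun a ha => ⟨(hq a ha).1, (hq a ha).2.1,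
      by rw [hQ]; exact dvd_prod_of_mem q ha⟩) hF k' hk' i₀ (Fr_mono Q _ _ hDk hi₀)
  have key := hexp r K W Q D hr1 hrK hW1 hWK hQ1 hLQ hDW N hN f hf ε hbound hε0 _ hper hFs
  rw [← hQ]
  refine key.trans ?_
  have hC0 : 0 ≤ ∏ i, ((K i).choose (r i) : ℝ) := prod_nonneg fun i _ => Nat.cast_nonneg _
  have habs : mean d Q (fun n => |(∑ a ∈ I, F a n) ^ k|) = mean d Q (fun n => |∑ a ∈ I, F a n| ^ k) := by
    congr 1
    funext n
    exact abs_pow _ _
  rw [habs]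
  have hm0 : 0 ≤ mean d Q (fun n => |∑ a ∈ I, F a n| ^ k) := by
    unfold mean
    exact mul_nonneg (by positivity) (sum_nonneg fun _ _ => by positivity)
  apply mul_le_mul_of_nonneg_right _ hC0
  apply mul_le_mul_of_nonneg_left _ hm0
  have h2 : ((Fr Q D).card : ℝ) ≤ ((D * D : ℕ) : ℝ) := by exact_mod_cast Fr_card Q D hQ1
  have h3 : ((D * D : ℕ) : ℝ) = (x : ℝ) ^ (4 * (j : ℝ)) := by
    rw [hD]
    push_cast
    rw [← pow_add, ← Real.rpow_natCast]
    congr 1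
    push_cast
    ring
  rw [h3] at h2
  calc ((Fr Q D).card : ℝ) ^ d * ε ≤ ((x : ℝ) ^ (4 * (j : ℝ))) ^ d * ε := by gcongr
    _ = 1 / x := by
        rw [hε, ← Real.rpow_natCast ((x : ℝ) ^ (4 * (j : ℝ))), ← Real.rpow_mul hx0.le, ← Real.rpow_add hx0]
        have : 4 * (j : ℝ) * d + -(4 * (j : ℝ) * d + 1) = -1 := by ring
        rw [this, Real.rpow_neg_one, one_div]

end Pool.Agent.X22.EQ
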