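import Pool.Agent.X22.EQ10

set_option autoImplicit false

/-! Characteristic functions of sums of local functions over few-digit changes. -/

namespace Pool.Agent.X22.EQ
open Finset Filter
open Pool.Agent.TH894.ND Pool.Agent.TH894.NE
open Pool.Agent.TH894.SM (change change_eq)

/-- the remainder of the exponential series in a half plane -/
lemma taylor_half (c : ℂ) (hc : c.re ≤ 0) (hc1 : ‖c‖ ≤ 1) (n : ℕ) : ∀ t : ℝ, 0 ≤ t →
    ‖Complex.exp (c * t) - ∑ k ∈ range n, (c * t) ^ k / (k.factorial : ℂ)‖ ≤ t ^ n / (n.factorial : ℝ) := by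
  induction n with
  | zero =>
      intro t ht
      simp only [range_zero, sum_empty, sub_zero, pow_zero, Nat.factorial_zero, Nat.cast_one, div_one]
      rw [Complex.norm_exp, Real.exp_le_one_iff]
      simp only [Complex.mul_re, Complex.ofReal_re, Complex.ofReal_im, mul_zero, sub_zero]
      exact mul_nonpos_of_nonpos_of_nonneg hc ht
  | succ n ih =>
      intro t ht
      obtain ⟨g, hg⟩ : ∃ g : ℝ → ℂ, g = fun t : ℝ => Complex.exp (c * (t : ℂ)) - ∑ k ∈ range (n + 1), (c * (t : ℂ)) ^ k / (k.factorial : ℂ) := ⟨_, rfl⟩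
      have hder : ∀ s : ℝ, HasDerivAt g (c * (Complex.exp (c * s) - ∑ k ∈ range n, (c * s) ^ k / (k.factorial : ℂ))) s := by
        intro s
        have h1 : HasDerivAt (fun s : ℝ => c * (s : ℂ)) c s := by
          have := (Complex.ofRealCLM.hasDerivAt (x := s)).const_mul c
          simpa using this
        have h2 : HasDerivAt (fun s : ℝ => Complex.exp (c * s)) (Complex.exp (c * s) * c) s := h1.cexp
        have h3 : HasDerivAt (fun s : ℝ => ∑ k ∈ range (n + 1), (c * (s : ℂ)) ^ k / (k.factorial : ℂ))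
            (∑ k ∈ range (n + 1), ((k : ℂ) * (c * s) ^ (k - 1) * c) / (k.factorial : ℂ)) s := by
          apply HasDerivAt.fun_sum
          intro k _
          exact (h1.pow k).div_const _
        have h4 : ∑ k ∈ range (n + 1), ((k : ℂ) * (c * s) ^ (k - 1) * c) / (k.factorial : ℂ) = c * ∑ k ∈ range n, (c * s) ^ k / (k.factorial : ℂ) := by
          rw [sum_range_succ', Nat.cast_zero, zero_mul, zero_mul, zero_div, add_zero, mul_sum]
          refine sum_congr rfl fun k _ => ?_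
          rw [Nat.add_sub_cancel, Nat.factorial_succ]
          have h5 : ((k : ℂ) + 1) ≠ 0 := by exact_mod_cast Nat.succ_ne_zero k
          have h6 : (k.factorial : ℂ) ≠ 0 := by exact_mod_cast Nat.factorial_ne_zero k
          push_cast
          field_simp
        rw [h4] at h3
        rw [hg]
        have h5 : c * (Complex.exp (c * s) - ∑ k ∈ range n, (c * s) ^ k / (k.factorial : ℂ)) =
            Complex.exp (c * s) * c - c * ∑ k ∈ range n, (c * s) ^ k / (k.factorial : ℂ) := by ring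
        rw [h5]
        exact h2.fun_sub h3
      have key := image_norm_le_of_norm_deriv_right_le_deriv_boundary (f := g) (a := 0) (b := t)
        (f' := fun s => c * (Complex.exp (c * s) - ∑ k ∈ range n, (c * s) ^ k / (k.factorial : ℂ)))
        (fun s _ => (hder s).continuousAt.continuousWithinAt) (fun s _ => (hder s).hasDerivWithinAt)
        (B := fun s => s ^ (n + 1) / ((n + 1).factorial : ℝ)) (B' := fun s => s ^ n / (n.factorial : ℝ)) ?_ ?_ ?_
        (x := t) ⟨ht, le_rfl⟩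
      · rw [hg] at key
        exact key
      · rw [hg]
        simp [sum_range_succ']
      · intro s
        have h1 := (hasDerivAt_pow (n + 1) s).div_const ((n + 1).factorial : ℝ)
        have h2 : ((n + 1 : ℕ) : ℝ) * s ^ (n + 1 - 1) / ((n + 1).factorial : ℝ) = s ^ n / (n.factorial : ℝ) := by
          rw [Nat.factorial_succ, Nat.add_sub_cancel]
          have h5 : ((n : ℝ) + 1) ≠ 0 := by positivity
          have h6 : (n.factorial : ℝ) ≠ 0 := by exact_mod_cast Nat.factorial_ne_zero n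
          push_cast
          field_simp
        rw [h2] at h1
        exact h1
      · intro s hs
        rw [norm_mul]
        calc ‖c‖ * _ ≤ 1 * (s ^ n / (n.factorial : ℝ)) := mul_le_mul hc1 (ih s hs.1) (norm_nonneg _) zero_le_one
          _ = _ := one_mul _

/-- the remainder of the exponential series at an imaginary number -/
lemma taylor_im (θ : ℝ) (n : ℕ) : ‖Complex.exp (θ * Complex.I) - ∑ k ∈ range n, (θ * Complex.I) ^ k / (k.factorial : ℂ)‖ ≤ |θ| ^ n / (n.factorial : ℝ) := by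
  rcases le_total 0 θ with h | h
  · have := taylor_half Complex.I (by simp) (by simp) n θ h
    rw [abs_of_nonneg h]
    simpa [mul_comm] using this
  · have := taylor_half (-Complex.I) (by simp) (by simp) n (-θ) (by linarith)
    rw [abs_of_nonpos h]
    have e1 : -Complex.I * ((-θ : ℝ) : ℂ) = θ * Complex.I := by
      push_cast
      ring
    rw [e1] at this
    exact this

/-- the mean of a complex function -/
noncomputable def cmean (d q : ℕ) (F : (Fin d → ℕ) → ℂ) : ℂ := 1 / (q : ℂ) ^ d * ∑ n ∈ box d q, F n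

lemma cmean_real (d q : ℕ) (F : (Fin d → ℕ) → ℝ) : cmean d q (fun n => ((F n : ℝ) : ℂ)) = ((mean d q F : ℝ) : ℂ) := by
  unfold cmean mean
  push_cast
  ring

lemma cmean_add (d q : ℕ) (F G : (Fin d → ℕ) → ℂ) : cmean d q (fun n => F n + G n) = cmean d q F + cmean d q G := by
  unfold cmean
  rw [sum_add_distrib]
  ring

lemma cmean_sub (d q : ℕ) (F G : (Fin d → ℕ) → ℂ) : cmean d q (fun n => F n - G n) = cmean d q F - cmean d q G := by
  unfold cmean
  rw [sum_sub_distrib]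
  ring

lemma cmean_mul (d q : ℕ) (c : ℂ) (F : (Fin d → ℕ) → ℂ) : cmean d q (fun n => c * F n) = c * cmean d q F := by
  unfold cmean
  rw [← mul_sum]
  ring

lemma cmean_norm (d q : ℕ) (F : (Fin d → ℕ) → ℂ) (G : (Fin d → ℕ) → ℝ) (h : ∀ n, ‖F n‖ ≤ G n) : ‖cmean d q F‖ ≤ mean d q G := by
  unfold cmean mean
  rw [norm_mul, norm_div, norm_one, norm_pow, Complex.norm_natCast]
  apply mul_le_mul_of_nonneg_left _ (by positivity)
  exact (norm_sum_le _ _).trans (sum_le_sum fun n _ => h n)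

/-- two coprime moduli -/
lemma two_modC {d : ℕ} (u v : ℕ) (hu : 1 ≤ u) (hv : 1 ≤ v) (huv : Nat.Coprime u v) (A B : (Fin d → ℕ) → ℂ)
    (hA : ∀ n, A n = A (fun i => n i % u)) (hB : ∀ n, B n = B (fun i => n i % v)) :
    ∑ n ∈ box d (u * v), A n * B n = (∑ n ∈ box d u, A n) * ∑ n ∈ box d v, B n := by
  classical
  rw [sum_mul_sum, ← sum_product']
  obtain ⟨φ, hφ⟩ : ∃ φ : (Fin d → ℕ) → (Fin d → ℕ) × (Fin d → ℕ), φ = fun n => (fun i => n i % u, fun i => n i % v) := ⟨_, rfl⟩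
  have hmaps : ∀ n ∈ box d (u * v), φ n ∈ box d u ×ˢ box d v := by
    intro n _
    rw [hφ, mem_product, mem_box, mem_box]
    exact ⟨fun i => Nat.mod_lt _ (by omega), fun i => Nat.mod_lt _ (by omega)⟩
  have hinj : Set.InjOn φ (box d (u * v) : Set (Fin d → ℕ)) := by
    intro n hn n' hn' h
    rw [mem_coe, mem_box] at hn hn'
    rw [hφ] at h
    have h1 := (Prod.mk.injEq _ _ _ _ ▸ h : (fun i => n i % u) = (fun i => n' i % u) ∧ (fun i => n i % v) = (fun i => n' i % v))
    funext i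
    have h2 : n i ≡ n' i [MOD u] := congrFun h1.1 i
    have h3 : n i ≡ n' i [MOD v] := congrFun h1.2 i
    have h4 : n i ≡ n' i [MOD (u * v)] := (Nat.modEq_and_modEq_iff_modEq_mul huv).1 ⟨h2, h3⟩
    exact Nat.ModEq.eq_of_lt_of_lt h4 (hn i) (hn' i)
  have hsurj : Set.SurjOn φ (box d (u * v) : Set (Fin d → ℕ)) ((box d u ×ˢ box d v : Finset _) : Set ((Fin d → ℕ) × (Fin d → ℕ))) := by
    apply surjOn_of_injOn_of_card_le φ (fun n hn => hmaps n hn) hinj
    rw [card_product, card_box, card_box, card_box, mul_pow]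
  refine sum_nbij φ hmaps hinj hsurj ?_
  intro n _
  rw [hφ]
  show A n * B n = A (fun i => n i % u) * B (fun i => n i % v)
  rw [← hA n, ← hB n]

lemma cmean_prod {d : ℕ} {ι : Type*} [DecidableEq ι] (I : Finset ι) (q : ι → ℕ) (hq : ∀ a ∈ I, 1 ≤ q a)
    (hcop : ∀ a ∈ I, ∀ a' ∈ I, a ≠ a' → Nat.Coprime (q a) (q a')) (G : ι → (Fin d → ℕ) → ℂ) (hG : ∀ a ∈ I, ∀ n, G a n = G a (fun i => n i % q a)) :
    cmean d (∏ a ∈ I, q a) (fun n => ∏ a ∈ I, G a n) = ∏ a ∈ I, cmean d (q a) (G a) := by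
  classical
  induction I using Finset.induction_on with
  | empty =>
      unfold cmean
      simp only [prod_empty, Nat.cast_one, one_pow, div_one, one_mul, sum_const, nsmul_eq_mul, mul_one]
      rw [card_box]
      simp
  | insert a I ha ih =>
      have ih' := ih (fun a' h => hq a' (mem_insert_of_mem h))
        (fun a' h a'' h' => hcop a' (mem_insert_of_mem h) a'' (mem_insert_of_mem h')) (fun a' h => hG a' (mem_insert_of_mem h))
      rw [prod_insert ha, prod_insert ha, ← ih']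
      obtain ⟨Q, hQ⟩ : ∃ Q, Q = ∏ a ∈ I, q a := ⟨_, rfl⟩
      rw [← hQ]
      have hQ1 : 1 ≤ Q := by
        rw [hQ]
        exact Nat.one_le_iff_ne_zero.2 (prod_ne_zero_iff.2 fun a' h => by have := hq a' (mem_insert_of_mem h); omega)
      have hc : Nat.Coprime (q a) Q := by
        rw [hQ]
        apply Nat.Coprime.prod_right
        intro a' h
        exact hcop a (mem_insert_self a I) a' (mem_insert_of_mem h) (fun h' => ha (h' ▸ h))
      have hP : ∀ n : Fin d → ℕ, ∏ a ∈ I, G a n = ∏ a ∈ I, G a (fun i => n i % Q) := by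
        intro n
        refine prod_congr rfl fun a' h => ?_
        have hdv : q a' ∣ Q := by rw [hQ]; exact dvd_prod_of_mem q h
        rw [hG a' (mem_insert_of_mem h) n, hG a' (mem_insert_of_mem h) (fun i => n i % Q)]
        congr 1
        funext i
        exact (Nat.mod_mod_of_dvd (n i) hdv).symm
      unfold cmean
      have h1 := two_modC (q a) Q (hq a (mem_insert_self a I)) hQ1 hc (G a) (fun n => ∏ a ∈ I, G a n) (hG a (mem_insert_self a I)) hP
      have h2 : ∑ n ∈ box d (q a * Q), ∏ a' ∈ insert a I, G a' n = ∑ n ∈ box d (q a * Q), G a n * ∏ a ∈ I, G a n :=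
        sum_congr rfl fun n _ => prod_insert ha
      rw [h2, h1]
      push_cast
      rw [mul_pow]
      have h3 : (q a : ℂ) ≠ 0 := by
        have := hq a (mem_insert_self a I)
        exact_mod_cast (by omega : q a ≠ 0)
      have h4 : (Q : ℂ) ≠ 0 := by exact_mod_cast (by omega : Q ≠ 0)
      field_simp

lemma prod_diff {ι : Type*} [DecidableEq ι] (I : Finset ι) (z w : ι → ℂ) (hz : ∀ a ∈ I, ‖z a‖ ≤ 1) (hw : ∀ a ∈ I, ‖w a‖ ≤ 1) :
    ‖∏ a ∈ I, z a - ∏ a ∈ I, w a‖ ≤ ∑ a ∈ I, ‖z a - w a‖ := by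
  induction I using Finset.induction_on with
  | empty => simp
  | insert a I ha ih =>
      rw [prod_insert ha, prod_insert ha, sum_insert ha]
      have h1 := ih (fun a' h => hz a' (mem_insert_of_mem h)) (fun a' h => hw a' (mem_insert_of_mem h))
      have h2 : ‖∏ a ∈ I, z a‖ ≤ 1 := by
        rw [norm_prod]
        exact prod_le_one (fun _ _ => norm_nonneg _) fun a' h => hz a' (mem_insert_of_mem h)
      have h3 : z a * ∏ a ∈ I, z a - w a * ∏ a ∈ I, w a = (z a - w a) * ∏ a ∈ I, z a + w a * (∏ a ∈ I, z a - ∏ a ∈ I, w a) := by ring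
      rw [h3]
      refine (norm_add_le _ _).trans ?_
      rw [norm_mul, norm_mul]
      have h4 : ‖z a - w a‖ * ‖∏ a ∈ I, z a‖ ≤ ‖z a - w a‖ * 1 := mul_le_mul_of_nonneg_left h2 (norm_nonneg _)
      have h5 : ‖w a‖ * ‖∏ a ∈ I, z a - ∏ a ∈ I, w a‖ ≤ 1 * ∑ a ∈ I, ‖z a - w a‖ :=
        mul_le_mul (hw a (mem_insert_self a I)) h1 (norm_nonneg _) zero_le_one
      linarith

/-- the local characteristic function -/
lemma loc_char (d q : ℕ) (hq : 1 ≤ q) (F : (Fin d → ℕ) → ℝ) (h0 : mean d q F = 0) (M : ℝ) (hM : ∀ n, |F n| ≤ M) (u : ℝ) (hu : |u| * M ≤ 1) :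
    ‖cmean d q (fun n => Complex.exp ((u * F n : ℝ) * Complex.I)) - ((Real.exp (-(u ^ 2 / 2 * mean d q (fun n => F n ^ 2))) : ℝ) : ℂ)‖ ≤
      |u| ^ 3 * M ^ 3 + u ^ 4 * M ^ 4 := by
  have hM0 : 0 ≤ M := (abs_nonneg _).trans (hM (fun _ => 0))
  obtain ⟨v, hv⟩ : ∃ v : ℝ, v = mean d q (fun n => F n ^ 2) := ⟨_, rfl⟩
  rw [← hv]
  have hv0 : 0 ≤ v := by
    rw [hv]
    unfold mean
    exact mul_nonneg (by positivity) (sum_nonneg fun _ _ => sq_nonneg _)
  have hv1 : v ≤ M ^ 2 := by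
    rw [hv]
    refine (mean_mono (G := fun _ => M ^ 2) fun n => ?_).trans (le_of_eq (mean_const d q hq _))
    rw [← sq_abs]
    exact pow_le_pow_left₀ (abs_nonneg _) (hM n) 2
  have h1 : cmean d q (fun n => Complex.exp ((u * F n : ℝ) * Complex.I)) - ((1 - u ^ 2 / 2 * v : ℝ) : ℂ) =
      cmean d q (fun n => Complex.exp ((u * F n : ℝ) * Complex.I) - ∑ k ∈ range 3, (((u * F n : ℝ) : ℂ) * Complex.I) ^ k / (k.factorial : ℂ)) := by
    rw [cmean_sub]
    congr 1
    have h2 : (fun n : Fin d → ℕ => ∑ k ∈ range 3, (((u * F n : ℝ) : ℂ) * Complex.I) ^ k / (k.factorial : ℂ)) =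
        fun n => (((1 : ℝ) : ℂ) + (u * Complex.I) * ((F n : ℝ) : ℂ)) + (-(u ^ 2 / 2 : ℝ) : ℂ) * ((F n ^ 2 : ℝ) : ℂ) := by
      funext n
      simp only [sum_range_succ, range_zero, sum_empty, zero_add, pow_zero, pow_one, Nat.factorial, Nat.cast_one, div_one, mul_one, mul_pow, Complex.I_sq]
      push_cast
      ring
    rw [h2, cmean_add d q (fun n => ((1 : ℝ) : ℂ) + (u * Complex.I) * ((F n : ℝ) : ℂ)) (fun n => (-(u ^ 2 / 2 : ℝ) : ℂ) * ((F n ^ 2 : ℝ) : ℂ)),
      cmean_add d q (fun _ => ((1 : ℝ) : ℂ)) (fun n => (u * Complex.I) * ((F n : ℝ) : ℂ)), cmean_mul, cmean_mul,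
      cmean_real d q (fun _ => 1), cmean_real d q F, cmean_real d q (fun n => F n ^ 2), h0, mean_const d q hq, ← hv]
    push_cast
    ring
  have h3 : ‖cmean d q (fun n => Complex.exp ((u * F n : ℝ) * Complex.I)) - ((1 - u ^ 2 / 2 * v : ℝ) : ℂ)‖ ≤ |u| ^ 3 * M ^ 3 := by
    rw [h1]
    refine (cmean_norm d q _ (fun _ => |u| ^ 3 * M ^ 3) fun n => ?_).trans (le_of_eq (mean_const d q hq _))
    refine (taylor_im (u * F n) 3).trans ?_
    have h4 : |u * F n| ^ 3 ≤ |u| ^ 3 * M ^ 3 := by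
      rw [abs_mul, ← mul_pow]
      exact pow_le_pow_left₀ (by positivity) (mul_le_mul_of_nonneg_left (hM n) (abs_nonneg _)) 3
    have h5 : (0 : ℝ) ≤ |u * F n| ^ 3 := by positivity
    have h6 : ((3 : ℕ).factorial : ℝ) = 6 := by norm_num [Nat.factorial]
    rw [h6]
    linarith
  obtain ⟨y, hy⟩ : ∃ y : ℝ, y = u ^ 2 / 2 * v := ⟨_, rfl⟩
  have huM : (|u| * M) ^ 2 ≤ 1 := pow_le_one₀ (by positivity) hu
  have hy0 : 0 ≤ y := by rw [hy]; positivity
  have hy1 : y ≤ u ^ 2 * M ^ 2 := by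
    rw [hy]
    have : u ^ 2 / 2 * v ≤ u ^ 2 / 2 * M ^ 2 := mul_le_mul_of_nonneg_left hv1 (by positivity)
    nlinarith [sq_nonneg (u * M)]
  have hy2 : y ≤ 1 := by
    rw [mul_pow, sq_abs] at huM
    linarith
  have h4 : ‖((1 - y : ℝ) : ℂ) - ((Real.exp (-y) : ℝ) : ℂ)‖ ≤ u ^ 4 * M ^ 4 := by
    rw [← Complex.ofReal_sub, Complex.norm_real, Real.norm_eq_abs]
    have h5 := Real.abs_exp_sub_one_sub_id_le (x := -y) (by rw [abs_neg, abs_of_nonneg hy0]; exact hy2)
    have h6 : |1 - y - Real.exp (-y)| = |Real.exp (-y) - 1 - -y| := by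
      rw [← abs_neg]
      congr 1
      ring
    rw [h6]
    refine h5.trans ?_
    rw [neg_sq]
    calc y ^ 2 ≤ (u ^ 2 * M ^ 2) ^ 2 := pow_le_pow_left₀ hy0 hy1 2
      _ = _ := by ring
  rw [← hy] at h3 ⊢
  have h5 := norm_sub_le_norm_sub_add_norm_sub (cmean d q (fun n => Complex.exp ((u * F n : ℝ) * Complex.I))) ((1 - y : ℝ) : ℂ) ((Real.exp (-y) : ℝ) : ℂ)
  linarith

/-- the two-sided exponential moment -/
lemma exp_two {d : ℕ} {ι : Type*} [DecidableEq ι] (I : Finset ι) (q : ι → ℕ) (hq : ∀ a ∈ I, 1 ≤ q a)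
    (hcop : ∀ a ∈ I, ∀ a' ∈ I, a ≠ a' → Nat.Coprime (q a) (q a')) (F : ι → (Fin d → ℕ) → ℝ) (hF : ∀ a ∈ I, Per (q a) (F a))
    (hF0 : ∀ a ∈ I, mean d (q a) (F a) = 0) (M : ι → ℝ) (hM : ∀ a ∈ I, ∀ n, |F a n| ≤ M a) (V : ℝ) (hV : ∑ a ∈ I, M a ^ 2 ≤ V)
    (L : ℝ) (hL : 0 ≤ L) (hLM : ∀ a ∈ I, L * M a ≤ 1) :
    mean d (∏ a ∈ I, q a) (fun n => Real.exp (L * ∑ a ∈ I, F a n) + Real.exp (-(L * ∑ a ∈ I, F a n))) ≤ 2 * Real.exp (L ^ 2 * V) := by
  have hMn : ∀ a ∈ I, 0 ≤ M a := fun a ha => (abs_nonneg _).trans (hM a ha (fun _ => 0))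
  have h1 : ∀ s : ℝ, |s| ≤ 1 → s ^ 2 = 1 → mean d (∏ a ∈ I, q a) (fun n => Real.exp (s * ∑ a ∈ I, L * F a n)) ≤ Real.exp (L ^ 2 * V) := by
    intro s hs hs2
    have h2 := exp_moment I q hq hcop (fun a n => L * F a n) (fun a ha n => by
      show L * F a n = L * F a (fun i => n i % q a)
      rw [← hF a ha n]) (fun a ha n => by
      rw [abs_mul, abs_of_nonneg hL]
      exact (mul_le_mul_of_nonneg_left (hM a ha n) hL).trans (hLM a ha)) (fun a ha => by
      show mean d (q a) (fun n => L * F a n) = 0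
      rw [mean_mul, hF0 a ha, mul_zero]) (L ^ 2 * V) (by
      calc ∑ a ∈ I, mean d (q a) (fun n => (L * F a n) ^ 2) ≤ ∑ a ∈ I, L ^ 2 * M a ^ 2 := by
            refine sum_le_sum fun a ha => ?_
            refine (mean_mono (G := fun _ => L ^ 2 * M a ^ 2) fun n => ?_).trans (le_of_eq (mean_const d (q a) (hq a ha) _))
            rw [mul_pow]
            apply mul_le_mul_of_nonneg_left _ (by positivity)
            rw [← sq_abs]
            exact pow_le_pow_left₀ (abs_nonneg _) (hM a ha n) 2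
        _ = L ^ 2 * ∑ a ∈ I, M a ^ 2 := by rw [mul_sum]
        _ ≤ _ := mul_le_mul_of_nonneg_left hV (by positivity)) s hs
    rw [hs2, one_mul] at h2
    exact h2
  rw [mean_add]
  have h2 := h1 1 (by simp) (by norm_num)
  have h3 := h1 (-1) (by simp) (by norm_num)
  have e1 : (fun n : Fin d → ℕ => Real.exp (L * ∑ a ∈ I, F a n)) = fun n => Real.exp (1 * ∑ a ∈ I, L * F a n) := by
    funext n
    rw [one_mul, mul_sum]
  have e2 : (fun n : Fin d → ℕ => Real.exp (-(L * ∑ a ∈ I, F a n))) = fun n => Real.exp (-1 * ∑ a ∈ I, L * F a n) := by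
    funext n
    rw [neg_one_mul, mul_sum]
  rw [e1, e2]
  linarith

lemma abs_pow_exp (x : ℝ) (k : ℕ) : |x| ^ k / (k.factorial : ℝ) ≤ Real.exp x + Real.exp (-x) := by
  have h4 := Real.pow_div_factorial_le_exp (x := |x|) (abs_nonneg _) k
  refine h4.trans ?_
  rcases abs_choice x with h | h
  · rw [h]
    have := Real.exp_pos (-x)
    linarith
  · rw [h]
    have := Real.exp_pos x
    linarith

end Pool.Agent.X22.EQ
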