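import Pool.Agent.X22.EQ11

set_option autoImplicit false

/-! Characteristic functions of sums of local functions over few-digit changes: the limit. -/

namespace Pool.Agent.X22.EQ
open Finset Filter
open Pool.Agent.TH894.ND Pool.Agent.TH894.NE
open Pool.Agent.TH894.SM (change change_eq)

/-- **Characteristic functions over few-digit changes.** -/
theorem few_char (b d : ℕ) (hb : 2 ≤ b) (hd : 1 ≤ d) (u V δ : ℝ) (hV : 0 ≤ V) (hδ : 0 < δ) : ∃ c : ℝ, 0 < c ∧
    ∀ (r K : Fin d → ℕ) (x : ℕ), (∀ i, 2 * r i ≤ K i) → 1 / c ≤ (x : ℝ) → (∀ i, Real.log x ^ 2 ≤ c * r i) →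
    ∀ N : Fin d → ℕ, (∀ i, N i < b ^ K i) → ∀ f : Fin d → ℕ → ℕ, (∀ i j, f i j < b ∧ f i j ≠ N i / b ^ j % b) →
    ∀ {ι : Type} (I : Finset ι) (q : ι → ℕ), (∀ a ∈ I, 1 ≤ q a ∧ q a ≤ x ∧ Nat.Coprime (q a) (b * b).factorial) →
    (∀ a ∈ I, ∀ a' ∈ I, a ≠ a' → Nat.Coprime (q a) (q a')) → ∀ F : ι → (Fin d → ℕ) → ℝ,
    (∀ a ∈ I, Per (q a) (F a) ∧ mean d (q a) (F a) = 0) →
    ∀ M : ι → ℝ, (∀ a ∈ I, ∀ n, |F a n| ≤ M a) → (∀ a ∈ I, M a ≤ c) → ∑ a ∈ I, M a ^ 2 ≤ V →
    ‖∑ S ∈ Fintype.piFinset (fun i => powersetCard (r i) (range (K i))),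
      Complex.exp ((u * ∑ a ∈ I, F a (fun i => change b (K i) (N i) (f i) (S i)) : ℝ) * Complex.I) -
      ((Real.exp (-(u ^ 2 / 2 * ∑ a ∈ I, mean d (q a) (fun n => F a n ^ 2))) : ℝ) : ℂ) * ((∏ i, ((K i).choose (r i) : ℝ) : ℝ) : ℂ)‖ ≤
      δ * ∏ i, ((K i).choose (r i) : ℝ) := by
  classical
  obtain ⟨L, hL⟩ : ∃ L : ℝ, L = 2 * |u| + 1 := ⟨_, rfl⟩
  have hu0 : 0 ≤ |u| := abs_nonneg u
  have hL1 : 1 ≤ L := by rw [hL]; linarith
  obtain ⟨E, hE⟩ : ∃ E : ℝ, E = Real.exp (L ^ 2 * V) := ⟨_, rfl⟩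
  have hE0 : 0 < E := by rw [hE]; exact Real.exp_pos _
  have hE1 : 1 ≤ E := by rw [hE]; exact Real.one_le_exp (by positivity)
  obtain ⟨J, hJ⟩ : ∃ J : ℕ, (1 / 4 : ℝ) ^ J < δ / (18 * E) := exists_pow_lt_of_lt_one (by positivity) (by norm_num)
  obtain ⟨j, hj⟩ : ∃ j, j = J + 1 := ⟨_, rfl⟩
  have hj1 : 1 ≤ j := by omega
  have hj4 : (1 / 4 : ℝ) ^ j ≤ δ / (18 * E) := by
    rw [hj, pow_succ]
    have : (0 : ℝ) < (1 / 4 : ℝ) ^ J := by positivity
    linarith
  obtain ⟨c₁, hc₁, hpow⟩ := few_pow b d j hb hd hj1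
  obtain ⟨B, hB⟩ : ∃ B : ℝ, B = (|u| ^ 3 + u ^ 4) * V + 1 := ⟨_, rfl⟩
  have hB1 : 1 ≤ B := by rw [hB]; nlinarith [show 0 ≤ (|u| ^ 3 + u ^ 4) * V by positivity]
  obtain ⟨c, hc⟩ : ∃ c : ℝ, c = min c₁ (min (1 / 3) (min (1 / L) (min (δ / (12 * j * E)) (δ / (3 * B))))) := ⟨_, rfl⟩
  have hjr : (1 : ℝ) ≤ j := by exact_mod_cast hj1
  have hc0 : 0 < c := by
    rw [hc]
    exact lt_min hc₁ (lt_min (by norm_num) (lt_min (by positivity) (lt_min (by positivity) (by positivity))))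
  have hca : c ≤ c₁ := by rw [hc]; exact min_le_left _ _
  have hcb : c ≤ 1 / 3 := by rw [hc]; exact (min_le_right _ _).trans (min_le_left _ _)
  have hcc : c ≤ 1 / L := by rw [hc]; exact (min_le_right _ _).trans ((min_le_right _ _).trans (min_le_left _ _))
  have hcd : c ≤ δ / (12 * j * E) := by
    rw [hc]; exact (min_le_right _ _).trans ((min_le_right _ _).trans ((min_le_right _ _).trans (min_le_left _ _)))
  have hce : c ≤ δ / (3 * B) := by
    rw [hc]; exact (min_le_right _ _).trans ((min_le_right _ _).trans ((min_le_right _ _).trans (min_le_right _ _)))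
  refine ⟨c, hc0, fun r K x hrK hx hxr N hN f hf ι I q hq hcop F hF M hM hMc hMV => ?_⟩
  have hx3r : (3 : ℝ) ≤ x := by
    refine le_trans ?_ hx
    rw [le_div_iff₀ hc0]
    linarith
  have hx3 : 3 ≤ x := by exact_mod_cast hx3r
  have hx0 : (0 : ℝ) < x := by linarith
  have hxc : 1 / (x : ℝ) ≤ c := by
    rw [div_le_iff₀ hx0]
    rw [div_le_iff₀ hc0] at hx
    linarith
  have hx1 : 1 / (x : ℝ) ≤ 1 := by rw [div_le_one hx0]; linarith
  have hMn : ∀ a ∈ I, 0 ≤ M a := fun a ha => (abs_nonneg _).trans (hM a ha (fun _ => 0))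
  have hLM : ∀ a ∈ I, L * M a ≤ 1 := by
    intro a ha
    have h1 := (hMc a ha).trans hcc
    rw [le_div_iff₀ (by linarith)] at h1
    linarith
  have huM : ∀ a ∈ I, |u| * M a ≤ 1 := by
    intro a ha
    refine le_trans ?_ (hLM a ha)
    exact mul_le_mul_of_nonneg_right (by rw [hL]; linarith) (hMn a ha)
  have hq1 : ∀ a ∈ I, 1 ≤ q a := fun a ha => (hq a ha).1
  have hper : ∀ a ∈ I, Per (q a) (F a) := fun a ha => (hF a ha).1
  have h00 : ∀ a ∈ I, mean d (q a) (F a) = 0 := fun a ha => (hF a ha).2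
  obtain ⟨C, hC⟩ : ∃ C : ℝ, C = ∏ i, ((K i).choose (r i) : ℝ) := ⟨_, rfl⟩
  have hC0 : 0 ≤ C := by rw [hC]; exact prod_nonneg fun i _ => Nat.cast_nonneg _
  obtain ⟨O, hO⟩ : ∃ O, O = Fintype.piFinset (fun i => powersetCard (r i) (range (K i))) := ⟨_, rfl⟩
  obtain ⟨X, hX⟩ : ∃ X : (Fin d → ℕ) → ℝ, X = fun n => ∑ a ∈ I, F a n := ⟨_, rfl⟩
  obtain ⟨g, hg⟩ : ∃ g : (Fin d → Finset ℕ) → (Fin d → ℕ), g = fun S i => change b (K i) (N i) (f i) (S i) := ⟨_, rfl⟩
  obtain ⟨Q, hQ⟩ : ∃ Q, Q = ∏ a ∈ I, q a := ⟨_, rfl⟩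
  have hpow' : ∀ k ≤ 2 * j, |∑ S ∈ O, X (g S) ^ k - mean d Q (fun n => X n ^ k) * C| ≤ mean d Q (fun n => |X n| ^ k) * (1 / x) * C := by
    intro k hk
    have h1 := hpow r K x hrK hx3 (fun i => (hxr i).trans (mul_le_mul_of_nonneg_right hca (Nat.cast_nonneg _))) N hN f hf I q hq F hper k hk
    rw [hO, hX, hg, hQ, hC]
    exact h1
  have goal : ‖∑ S ∈ O, Complex.exp ((u * X (g S) : ℝ) * Complex.I) - ((Real.exp (-(u ^ 2 / 2 * ∑ a ∈ I, mean d (q a) (fun n => F a n ^ 2))) : ℝ) : ℂ) * ((C : ℝ) : ℂ)‖ ≤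
      δ * C := by
    obtain ⟨Tn, hTn⟩ : ∃ Tn : (Fin d → ℕ) → ℂ, Tn = fun n => ∑ k ∈ range (2 * j), (((u * X n : ℝ) : ℂ) * Complex.I) ^ k / (k.factorial : ℂ) := ⟨_, rfl⟩
    obtain ⟨Rn, hRn⟩ : ∃ Rn : (Fin d → ℕ) → ℂ, Rn = fun n => Complex.exp ((u * X n : ℝ) * Complex.I) - Tn n := ⟨_, rfl⟩
    obtain ⟨P, hP⟩ : ∃ P : ℝ, P = |u| ^ (2 * j) / ((2 * j).factorial : ℝ) := ⟨_, rfl⟩
    have hP0 : 0 ≤ P := by rw [hP]; positivity
    have hRb : ∀ n, ‖Rn n‖ ≤ P * X n ^ (2 * j) := by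
      intro n
      rw [hRn, hTn]
      refine (taylor_im (u * X n) (2 * j)).trans (le_of_eq ?_)
      rw [abs_mul, mul_pow, (even_two_mul j).pow_abs (X n), hP]
      ring
    -- exponential moments
    have hexpL := exp_two I q hq1 hcop F hper h00 M hM V hMV L (by linarith) hLM
    have hexpu := exp_two I q hq1 hcop F hper h00 M hM V hMV |u| hu0 huM
    rw [← hQ] at hexpL hexpu
    have hEu : Real.exp (|u| ^ 2 * V) ≤ E := by
      rw [hE]
      apply Real.exp_le_exp.2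
      apply mul_le_mul_of_nonneg_right _ hV
      exact pow_le_pow_left₀ hu0 (by rw [hL]; linarith) 2
    have hmX : ∀ k, |u| ^ k / (k.factorial : ℝ) * mean d Q (fun n => |X n| ^ k) ≤ 2 * E := by
      intro k
      rw [← mean_mul]
      refine le_trans (mean_mono fun n => ?_) (hexpu.trans (by linarith))
      have h1 := abs_pow_exp (|u| * X n) k
      rw [abs_mul, abs_abs, mul_pow] at h1
      rw [hX] at h1 ⊢
      refine le_trans (le_of_eq ?_) h1
      ring
    have hmR : P * mean d Q (fun n => X n ^ (2 * j)) ≤ (1 / 4) ^ j * (2 * E) := by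
      rw [← mean_mul]
      have h1 : mean d Q (fun n => P * X n ^ (2 * j)) ≤ mean d Q (fun n => (1 / 4 : ℝ) ^ j * (Real.exp (L * ∑ a ∈ I, F a n) + Real.exp (-(L * ∑ a ∈ I, F a n)))) := by
        apply mean_mono
        intro n
        have h2 := abs_pow_exp (L * X n) (2 * j)
        have h3 : P * X n ^ (2 * j) ≤ (1 / 4 : ℝ) ^ j * (|L * X n| ^ (2 * j) / ((2 * j).factorial : ℝ)) := by
          rw [hP, abs_mul, mul_pow, (even_two_mul j).pow_abs (X n), abs_of_nonneg (by linarith : (0 : ℝ) ≤ L)]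
          have h4 : |u| ^ (2 * j) ≤ (1 / 4 : ℝ) ^ j * L ^ (2 * j) := by
            have h5 : |u| ≤ L / 2 := by rw [hL]; linarith
            calc |u| ^ (2 * j) ≤ (L / 2) ^ (2 * j) := pow_le_pow_left₀ hu0 h5 _
              _ = (1 / 4 : ℝ) ^ j * L ^ (2 * j) := by
                  rw [pow_mul, pow_mul L, ← mul_pow]
                  congr 1
                  ring
          have h6 : (0 : ℝ) ≤ X n ^ (2 * j) := (even_two_mul j).pow_nonneg _
          have h7 : |u| ^ (2 * j) / ((2 * j).factorial : ℝ) * X n ^ (2 * j) ≤ ((1 / 4 : ℝ) ^ j * L ^ (2 * j)) / ((2 * j).factorial : ℝ) * X n ^ (2 * j) := by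
            gcongr
          refine h7.trans (le_of_eq (by ring))
        refine h3.trans (mul_le_mul_of_nonneg_left ?_ (by positivity))
        rw [hX] at h2 ⊢
        exact h2
      refine h1.trans ?_
      rw [mean_mul]
      apply mul_le_mul_of_nonneg_left _ (by positivity)
      rw [hE]
      exact hexpL
    -- the main comparison
    have hTs : ‖∑ S ∈ O, Tn (g S) - cmean d Q Tn * (C : ℂ)‖ ≤ (2 * j) * (2 * E) * (1 / x) * C := by
      have h1 : ∑ S ∈ O, Tn (g S) - cmean d Q Tn * (C : ℂ) = ∑ k ∈ range (2 * j), (((u : ℂ) * Complex.I) ^ k / (k.factorial : ℂ)) *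
          ((∑ S ∈ O, X (g S) ^ k - mean d Q (fun n => X n ^ k) * C : ℝ) : ℂ) := by
        have h2 : ∀ n, Tn n = ∑ k ∈ range (2 * j), (((u : ℂ) * Complex.I) ^ k / (k.factorial : ℂ)) * ((X n ^ k : ℝ) : ℂ) := by
          intro n
          rw [hTn]
          refine sum_congr rfl fun k _ => ?_
          push_cast
          rw [mul_pow, mul_pow, mul_pow]
          ring
        have h3 : cmean d Q Tn = ∑ k ∈ range (2 * j), (((u : ℂ) * Complex.I) ^ k / (k.factorial : ℂ)) * ((mean d Q (fun n => X n ^ k) : ℝ) : ℂ) := by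
          have h4 : Tn = fun n => ∑ k ∈ range (2 * j), (((u : ℂ) * Complex.I) ^ k / (k.factorial : ℂ)) * ((X n ^ k : ℝ) : ℂ) := funext h2
          rw [h4]
          unfold cmean
          rw [sum_comm, mul_sum]
          refine sum_congr rfl fun k _ => ?_
          rw [← mul_sum, ← cmean_real]
          unfold cmean
          ring
        rw [h3, sum_congr rfl fun S _ => h2 (g S), sum_comm, sum_mul, ← sum_sub_distrib]
        refine sum_congr rfl fun k _ => ?_
        rw [← mul_sum]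
        push_cast
        ring
      rw [h1]
      refine (norm_sum_le _ _).trans ?_
      have h2 : ∀ k ∈ range (2 * j), ‖(((u : ℂ) * Complex.I) ^ k / (k.factorial : ℂ)) * ((∑ S ∈ O, X (g S) ^ k - mean d Q (fun n => X n ^ k) * C : ℝ) : ℂ)‖ ≤
          (2 * E) * (1 / x) * C := by
        intro k hk
        rw [norm_mul, norm_div, norm_pow, norm_mul, Complex.norm_I, mul_one, Complex.norm_real, Complex.norm_real, Complex.norm_natCast,
          Real.norm_eq_abs, Real.norm_eq_abs]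
        have h3 := hpow' k (mem_range.1 hk).le
        calc |u| ^ k / (k.factorial : ℝ) * |∑ S ∈ O, X (g S) ^ k - mean d Q (fun n => X n ^ k) * C| ≤
              |u| ^ k / (k.factorial : ℝ) * (mean d Q (fun n => |X n| ^ k) * (1 / x) * C) := mul_le_mul_of_nonneg_left h3 (by positivity)
          _ = (|u| ^ k / (k.factorial : ℝ) * mean d Q (fun n => |X n| ^ k)) * ((1 / x) * C) := by ring
          _ ≤ (2 * E) * ((1 / x) * C) := mul_le_mul_of_nonneg_right (hmX k) (by positivity)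
          _ = _ := by ring
      refine (sum_le_sum h2).trans (le_of_eq ?_)
      rw [sum_const, card_range, nsmul_eq_mul]
      push_cast
      ring
    have hRs : ‖∑ S ∈ O, Rn (g S)‖ ≤ 2 * ((1 / 4) ^ j * (2 * E)) * C := by
      refine (norm_sum_le _ _).trans ((sum_le_sum fun S _ => hRb (g S)).trans ?_)
      rw [← mul_sum]
      have h1 := hpow' (2 * j) le_rfl
      have h2 : mean d Q (fun n => |X n| ^ (2 * j)) = mean d Q (fun n => X n ^ (2 * j)) := by
        congr 1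
        funext n
        exact (even_two_mul j).pow_abs _
      rw [h2] at h1
      obtain ⟨m2, hm2⟩ : ∃ m2, m2 = mean d Q (fun n => X n ^ (2 * j)) := ⟨_, rfl⟩
      rw [← hm2] at h1 hmR
      have hm20 : 0 ≤ m2 := by
        rw [hm2]
        unfold mean
        exact mul_nonneg (by positivity) (sum_nonneg fun _ _ => (even_two_mul j).pow_nonneg _)
      have h3 : ∑ S ∈ O, X (g S) ^ (2 * j) ≤ 2 * m2 * C := by
        have h4 := (abs_le.1 h1).2
        have h5 : m2 * (1 / x) * C ≤ m2 * 1 * C := by gcongr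
        linarith
      calc P * ∑ S ∈ O, X (g S) ^ (2 * j) ≤ P * (2 * m2 * C) := mul_le_mul_of_nonneg_left h3 hP0
        _ = 2 * (P * m2) * C := by ring
        _ ≤ _ := by gcongr
    have hRm : ‖cmean d Q Rn‖ ≤ (1 / 4) ^ j * (2 * E) := by
      refine (cmean_norm d Q Rn (fun n => P * X n ^ (2 * j)) hRb).trans ?_
      rw [mean_mul]
      exact hmR
    -- the means
    have hcm : ‖cmean d Q (fun n => Complex.exp ((u * X n : ℝ) * Complex.I)) - ((Real.exp (-(u ^ 2 / 2 * ∑ a ∈ I, mean d (q a) (fun n => F a n ^ 2))) : ℝ) : ℂ)‖ ≤ δ / 3 := by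
      have h1 : (fun n : Fin d → ℕ => Complex.exp ((u * X n : ℝ) * Complex.I)) = fun n => ∏ a ∈ I, Complex.exp ((u * F a n : ℝ) * Complex.I) := by
        funext n
        rw [← Complex.exp_sum, hX, ← sum_mul]
        congr 2
        push_cast
        rw [mul_sum]
      have h2 : ((Real.exp (-(u ^ 2 / 2 * ∑ a ∈ I, mean d (q a) (fun n => F a n ^ 2))) : ℝ) : ℂ) =
          ∏ a ∈ I, ((Real.exp (-(u ^ 2 / 2 * mean d (q a) (fun n => F a n ^ 2))) : ℝ) : ℂ) := by
        rw [← Complex.ofReal_prod, ← Real.exp_sum, sum_neg_distrib, mul_sum]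
      rw [h1, h2, hQ, cmean_prod I q hq1 hcop (fun a n => Complex.exp ((u * F a n : ℝ) * Complex.I)) (fun a ha n => by
        show Complex.exp ((u * F a n : ℝ) * Complex.I) = Complex.exp ((u * F a (fun i => n i % q a) : ℝ) * Complex.I)
        rw [← hper a ha n])]
      refine (prod_diff I _ _ (fun a ha => ?_) (fun a ha => ?_)).trans ?_
      · refine (cmean_norm d (q a) _ (fun _ => 1) fun n => ?_).trans (le_of_eq (mean_const d (q a) (hq1 a ha) 1))
        rw [Complex.norm_exp_ofReal_mul_I]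
      · rw [Complex.norm_real, Real.norm_eq_abs, abs_of_pos (Real.exp_pos _), Real.exp_le_one_iff]
        have h3 : 0 ≤ mean d (q a) (fun n => F a n ^ 2) := by
          unfold mean
          exact mul_nonneg (by positivity) (sum_nonneg fun _ _ => sq_nonneg _)
        have h4 : 0 ≤ u ^ 2 / 2 * mean d (q a) (fun n => F a n ^ 2) := by positivity
        linarith
      · refine (sum_le_sum fun a ha => loc_char d (q a) (hq1 a ha) (F a) (h00 a ha) (M a) (hM a ha) u (huM a ha)).trans ?_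
        have h3 : ∀ a ∈ I, |u| ^ 3 * M a ^ 3 + u ^ 4 * M a ^ 4 ≤ c * ((|u| ^ 3 + u ^ 4) * M a ^ 2) := by
          intro a ha
          have h4 := hMn a ha
          have h5 := hMc a ha
          have h6 : M a ^ 3 ≤ c * M a ^ 2 := by
            calc M a ^ 3 = M a * M a ^ 2 := by ring
              _ ≤ _ := mul_le_mul_of_nonneg_right h5 (sq_nonneg _)
          have h7 : M a ^ 4 ≤ c * M a ^ 2 := by
            have h8 : M a ^ 2 ≤ 1 := pow_le_one₀ h4 (by linarith)
            calc M a ^ 4 = M a ^ 2 * M a ^ 2 := by ring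
              _ ≤ M a * M a ^ 2 := by
                  apply mul_le_mul_of_nonneg_right _ (sq_nonneg _)
                  nlinarith
              _ ≤ _ := mul_le_mul_of_nonneg_right h5 (sq_nonneg _)
          have h9 : |u| ^ 3 * M a ^ 3 ≤ |u| ^ 3 * (c * M a ^ 2) := mul_le_mul_of_nonneg_left h6 (by positivity)
          have h10 : u ^ 4 * M a ^ 4 ≤ u ^ 4 * (c * M a ^ 2) := mul_le_mul_of_nonneg_left h7 (by positivity)
          linarith
        refine (sum_le_sum h3).trans ?_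
        rw [← mul_sum, ← mul_sum]
        have h11 : (|u| ^ 3 + u ^ 4) * ∑ a ∈ I, M a ^ 2 ≤ B := by
          have : (|u| ^ 3 + u ^ 4) * ∑ a ∈ I, M a ^ 2 ≤ (|u| ^ 3 + u ^ 4) * V := mul_le_mul_of_nonneg_left hMV (by positivity)
          rw [hB]
          linarith
        calc c * ((|u| ^ 3 + u ^ 4) * ∑ a ∈ I, M a ^ 2) ≤ δ / (3 * B) * B := mul_le_mul hce h11 (by positivity) (by positivity)
          _ = δ / 3 := by field_simp
    -- assembling
    have e1 : ∑ S ∈ O, Complex.exp ((u * X (g S) : ℝ) * Complex.I) = ∑ S ∈ O, Tn (g S) + ∑ S ∈ O, Rn (g S) := by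
      rw [← sum_add_distrib]
      refine sum_congr rfl fun S _ => ?_
      rw [hRn]
      ring
    have e2 : cmean d Q (fun n => Complex.exp ((u * X n : ℝ) * Complex.I)) = cmean d Q Tn + cmean d Q Rn := by
      rw [← cmean_add]
      congr 1
      funext n
      rw [hRn]
      ring
    have e3 : ∑ S ∈ O, Complex.exp ((u * X (g S) : ℝ) * Complex.I) - ((Real.exp (-(u ^ 2 / 2 * ∑ a ∈ I, mean d (q a) (fun n => F a n ^ 2))) : ℝ) : ℂ) * ((C : ℝ) : ℂ) =
        (∑ S ∈ O, Tn (g S) - cmean d Q Tn * (C : ℂ)) + ∑ S ∈ O, Rn (g S) - cmean d Q Rn * (C : ℂ) +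
        (cmean d Q (fun n => Complex.exp ((u * X n : ℝ) * Complex.I)) - ((Real.exp (-(u ^ 2 / 2 * ∑ a ∈ I, mean d (q a) (fun n => F a n ^ 2))) : ℝ) : ℂ)) * (C : ℂ) := by
      rw [e1, e2]
      ring
    rw [e3]
    have hCn : ‖(C : ℂ)‖ = C := by rw [Complex.norm_real, Real.norm_eq_abs, abs_of_nonneg hC0]
    refine (norm_add_le _ _).trans ?_
    have h1 := norm_sub_le ((∑ S ∈ O, Tn (g S) - cmean d Q Tn * (C : ℂ)) + ∑ S ∈ O, Rn (g S)) (cmean d Q Rn * (C : ℂ))
    have h2 := norm_add_le (∑ S ∈ O, Tn (g S) - cmean d Q Tn * (C : ℂ)) (∑ S ∈ O, Rn (g S))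
    rw [norm_mul, hCn] at h1
    rw [norm_mul, hCn]
    have h3 : ‖cmean d Q Rn‖ * C ≤ ((1 / 4) ^ j * (2 * E)) * C := mul_le_mul_of_nonneg_right hRm hC0
    have h4 := mul_le_mul_of_nonneg_right hcm hC0
    have h5 : (2 * j) * (2 * E) * (1 / x) * C ≤ δ / 3 * C := by
      apply mul_le_mul_of_nonneg_right _ hC0
      calc (2 * j) * (2 * E) * (1 / x) ≤ (2 * j) * (2 * E) * (δ / (12 * j * E)) := by
            apply mul_le_mul_of_nonneg_left (hxc.trans hcd) (by positivity)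
        _ = δ / 3 := by field_simp; norm_num
    have h6 : 3 * ((1 / 4) ^ j * (2 * E)) * C ≤ δ / 3 * C := by
      apply mul_le_mul_of_nonneg_right _ hC0
      calc 3 * ((1 / 4 : ℝ) ^ j * (2 * E)) ≤ 3 * (δ / (18 * E) * (2 * E)) := by gcongr
        _ = δ / 3 := by field_simp; norm_num
    linarith
  rw [hO, hX, hg, hC] at goal
  exact goal

end Pool.Agent.X22.EQ
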