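import Mathlib

set_option autoImplicit false

/-! From characteristic functions to distribution functions, for finite sets. -/

namespace Pool.Agent.X22.EQ
open Finset Filter MeasureTheory ProbabilityTheory
open scoped Topology ENNReal NNReal

/-- the standard normal distribution function -/
noncomputable def Phi (t : ℝ) : ℝ := (gaussianReal 0 1).real (Set.Iic t)

lemma Phi_cdf (t : ℝ) : Phi t = cdf (gaussianReal 0 1) t := (cdf_eq_real _ t).symm

lemma Phi_mono : Monotone Phi := fun s t h => by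
  rw [Phi_cdf, Phi_cdf]
  exact monotone_cdf _ h

lemma Phi_nonneg (t : ℝ) : 0 ≤ Phi t := by
  rw [Phi_cdf]
  exact cdf_nonneg _ _

lemma Phi_le_one (t : ℝ) : Phi t ≤ 1 := by
  rw [Phi_cdf]
  exact cdf_le_one _ _

lemma Phi_bot : Tendsto Phi atBot (𝓝 0) := by
  have : Phi = fun t => cdf (gaussianReal 0 1) t := funext Phi_cdf
  rw [this]
  exact tendsto_cdf_atBot _

lemma Phi_top : Tendsto Phi atTop (𝓝 1) := by
  have : Phi = fun t => cdf (gaussianReal 0 1) t := funext Phi_cdf
  rw [this]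
  exact tendsto_cdf_atTop _

lemma Phi_cont : Continuous Phi := by
  have h0 : Phi = fun t => cdf (gaussianReal 0 1) t := funext Phi_cdf
  rw [continuous_iff_continuousAt]
  intro x
  rw [h0]
  have h1 : ContinuousAt (cdf (gaussianReal 0 1)) x := by
    rw [(monotone_cdf (gaussianReal 0 1)).continuousAt_iff_leftLim_eq_rightLim, StieltjesFunction.rightLim_eq]
    have h2 : (gaussianReal 0 1 : Measure ℝ) {x} = 0 := by
      have := nullSingletonClass_gaussianReal (μ := 0) (v := 1) one_ne_zero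
      exact measure_singleton x
    rw [← measure_cdf (gaussianReal 0 1), StieltjesFunction.measure_singleton, ENNReal.ofReal_eq_zero] at h2
    have h3 := (monotone_cdf (gaussianReal 0 1)).leftLim_le (le_refl x)
    linarith
  exact h1

/-- the uniform measure on the values of a function on a finite set -/
noncomputable def emp {α : Type} (O : Finset α) (X : α → ℝ) : Measure ℝ :=
  ((O.card : ℝ≥0∞)⁻¹) • ∑ S ∈ O, Measure.dirac (X S)

lemma emp_prob {α : Type} (O : Finset α) (hO : O.Nonempty) (X : α → ℝ) : IsProbabilityMeasure (emp O X) := by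
  constructor
  unfold emp
  rw [Measure.smul_apply, Measure.finsetSum_apply]
  simp only [measure_univ, sum_const, nsmul_eq_mul, mul_one, smul_eq_mul]
  apply ENNReal.inv_mul_cancel
  · have := hO.card_pos
    exact_mod_cast this.ne'
  · exact ENNReal.natCast_ne_top _

lemma emp_charFun {α : Type} (O : Finset α) (X : α → ℝ) (u : ℝ) :
    charFun (emp O X) u = (1 / (O.card : ℂ)) * ∑ S ∈ O, Complex.exp ((u * X S : ℝ) * Complex.I) := by
  rw [charFun_apply_real]
  unfold emp
  rw [integral_smul_measure, integral_finsetSum_measure (fun S _ => by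
    refine (integrable_dirac ?_)
    simp)]
  simp only [integral_dirac, ENNReal.toReal_inv, ENNReal.toReal_natCast]
  rw [Complex.real_smul]
  push_cast
  rw [one_div]

lemma emp_Iic {α : Type} (O : Finset α) (X : α → ℝ) (t : ℝ) [DecidablePred fun S => X S ≤ t] :
    (emp O X).real (Set.Iic t) = ((O.filter (fun S => X S ≤ t)).card : ℝ) / O.card := by
  unfold emp
  rw [measureReal_def, Measure.smul_apply, Measure.finsetSum_apply]
  have h1 : ∀ S ∈ O, (Measure.dirac (X S) : Measure ℝ) (Set.Iic t) = if X S ≤ t then 1 else 0 := by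
    intro S _
    rw [Measure.dirac_apply' _ measurableSet_Iic]
    by_cases h : X S ≤ t
    · rw [if_pos h, Set.indicator_of_mem (show X S ∈ Set.Iic t from h)]
      rfl
    · rw [if_neg h, Set.indicator_of_notMem (show X S ∉ Set.Iic t from h)]
  rw [sum_congr rfl h1, ← sum_filter, sum_const, nsmul_eq_mul, mul_one, smul_eq_mul, ENNReal.toReal_mul, ENNReal.toReal_inv,
    ENNReal.toReal_natCast, ENNReal.toReal_natCast]
  ring

/-- **Convergence theorem for characteristic functions**, sequences of functions on finite sets -/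
theorem levy_seq {α : Type} (O : ℕ → Finset α) (hO : ∀ n, (O n).Nonempty) (X : ℕ → α → ℝ)
    (h : ∀ u : ℝ, Tendsto (fun n => (1 / ((O n).card : ℂ)) * ∑ S ∈ O n, Complex.exp ((u * X n S : ℝ) * Complex.I)) atTop
      (𝓝 ((Real.exp (-(u ^ 2 / 2)) : ℝ) : ℂ))) (t : ℝ) :
    Tendsto (fun n => (emp (O n) (X n)).real (Set.Iic t)) atTop (𝓝 (Phi t)) := by
  obtain ⟨μ, hμ⟩ : ∃ μ : ℕ → ProbabilityMeasure ℝ, μ = fun n => ⟨emp (O n) (X n), emp_prob (O n) (hO n) (X n)⟩ := ⟨_, rfl⟩
  obtain ⟨γ, hγ⟩ : ∃ γ : ProbabilityMeasure ℝ, γ = ⟨gaussianReal 0 1, inferInstance⟩ := ⟨_, rfl⟩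
  have h1 : Tendsto μ atTop (𝓝 γ) := by
    rw [ProbabilityMeasure.tendsto_iff_tendsto_charFun]
    intro u
    have h2 : charFun (γ : Measure ℝ) u = ((Real.exp (-(u ^ 2 / 2)) : ℝ) : ℂ) := by
      rw [hγ]
      show charFun (gaussianReal 0 1) u = _
      rw [charFun_gaussianReal]
      push_cast
      congr 1
      ring
    rw [h2]
    have h3 : (fun n => charFun (μ n : Measure ℝ) u) = fun n => (1 / ((O n).card : ℂ)) * ∑ S ∈ O n, Complex.exp ((u * X n S : ℝ) * Complex.I) := by
      funext n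
      rw [hμ]
      exact emp_charFun (O n) (X n) u
    rw [h3]
    exact h u
  have h4 : γ (frontier (Set.Iic t)) = 0 := by
    have := nullSingletonClass_gaussianReal (μ := 0) (v := 1) one_ne_zero
    rw [frontier_Iic, ProbabilityMeasure.null_iff_toMeasure_null, hγ]
    show (gaussianReal 0 1 : Measure ℝ) {t} = 0
    exact measure_singleton t
  have h5 := ProbabilityMeasure.tendsto_measure_of_null_frontier_of_tendsto h1 h4
  have h6 : Tendsto (fun n => ((μ n (Set.Iic t) : ℝ≥0) : ℝ)) atTop (𝓝 ((γ (Set.Iic t) : ℝ≥0) : ℝ)) := by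
    exact (NNReal.continuous_coe.tendsto _).comp h5
  have h7 : ((γ (Set.Iic t) : ℝ≥0) : ℝ) = Phi t := by
    rw [hγ]
    rfl
  have h8 : ∀ n, ((μ n (Set.Iic t) : ℝ≥0) : ℝ) = (emp (O n) (X n)).real (Set.Iic t) := by
    intro n
    rw [hμ]
    rfl
  rw [h7] at h6
  simp only [h8] at h6
  exact h6

/-- the version with a family of conditions -/
theorem levy_pred {α : Type} (G : ℝ → Finset α → (α → ℝ) → Prop) (hmono : ∀ c c' O X, c ≤ c' → G c O X → G c' O X)
    (hne : ∀ c O X, G c O X → O.Nonempty)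
    (hchar : ∀ u δ : ℝ, 0 < δ → ∃ c : ℝ, 0 < c ∧ ∀ O X, G c O X →
      ‖∑ S ∈ O, Complex.exp ((u * X S : ℝ) * Complex.I) - ((Real.exp (-(u ^ 2 / 2)) : ℝ) : ℂ) * (O.card : ℂ)‖ ≤ δ * O.card) (t ε : ℝ) (hε : 0 < ε) :
    ∃ c : ℝ, 0 < c ∧ ∀ O X, G c O X → |(emp O X).real (Set.Iic t) - Phi t| ≤ ε := by
  by_contra hcon
  push Not at hcon
  have h1 : ∀ n : ℕ, ∃ O X, G (1 / ((n : ℝ) + 1)) O X ∧ ε < |(emp O X).real (Set.Iic t) - Phi t| := fun n => hcon _ (by positivity)
  choose O X hG hlt using h1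
  have h2 := levy_seq O (fun n => hne _ _ _ (hG n)) X (fun u => by
    rw [Metric.tendsto_atTop]
    intro δ hδ
    obtain ⟨c, hc, h3⟩ := hchar u (δ / 2) (by linarith)
    obtain ⟨n₀, hn₀⟩ := exists_nat_gt (1 / c)
    refine ⟨n₀, fun n hn => ?_⟩
    have hnr : (n₀ : ℝ) ≤ n := by exact_mod_cast hn
    have h4 : 1 / ((n : ℝ) + 1) ≤ c := by
      rw [div_le_iff₀ (by positivity)]
      rw [div_lt_iff₀ hc] at hn₀
      nlinarith
    have h5 := h3 (O n) (X n) (hmono _ _ _ _ h4 (hG n))
    have hcard : (0 : ℝ) < (O n).card := by exact_mod_cast (hne _ _ _ (hG n)).card_pos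
    have hcc : ((O n).card : ℂ) ≠ 0 := by exact_mod_cast hcard.ne'
    have h6 : (1 / ((O n).card : ℂ)) * ∑ S ∈ O n, Complex.exp ((u * X n S : ℝ) * Complex.I) - ((Real.exp (-(u ^ 2 / 2)) : ℝ) : ℂ) =
        (1 / ((O n).card : ℂ)) * (∑ S ∈ O n, Complex.exp ((u * X n S : ℝ) * Complex.I) - ((Real.exp (-(u ^ 2 / 2)) : ℝ) : ℂ) * ((O n).card : ℂ)) := by
      generalize ∑ S ∈ O n, Complex.exp ((u * X n S : ℝ) * Complex.I) = Z
      field_simp
    rw [dist_eq_norm, h6, norm_mul, norm_div, norm_one, Complex.norm_natCast]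
    calc 1 / ((O n).card : ℝ) * ‖∑ S ∈ O n, Complex.exp ((u * X n S : ℝ) * Complex.I) - ((Real.exp (-(u ^ 2 / 2)) : ℝ) : ℂ) * ((O n).card : ℂ)‖ ≤
          1 / ((O n).card : ℝ) * (δ / 2 * (O n).card) := mul_le_mul_of_nonneg_left h5 (by positivity)
      _ = δ / 2 := by field_simp
      _ < δ := by linarith) t
  rw [Metric.tendsto_atTop] at h2
  obtain ⟨n, hn⟩ := h2 ε hε
  have h3 := hn n le_rfl
  rw [Real.dist_eq] at h3
  exact absurd (hlt n) (not_lt.2 h3.le)

/-- uniformity in the argument -/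
theorem levy_unif {α : Type} (G : ℝ → Finset α → (α → ℝ) → Prop) (hmono : ∀ c c' O X, c ≤ c' → G c O X → G c' O X)
    (hne : ∀ c O X, G c O X → O.Nonempty)
    (hpt : ∀ t ε : ℝ, 0 < ε → ∃ c : ℝ, 0 < c ∧ ∀ O X, G c O X → |(emp O X).real (Set.Iic t) - Phi t| ≤ ε) (ε : ℝ) (hε : 0 < ε) :
    ∃ c : ℝ, 0 < c ∧ ∀ O X, G c O X → ∀ t, |(emp O X).real (Set.Iic t) - Phi t| ≤ ε := by
  obtain ⟨N, hN⟩ := exists_nat_gt (2 / ε + 1)
  have h2ε : 0 < 2 / ε := by positivity
  have hN1 : (1 : ℝ) < N := by linarith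
  have hN0 : (0 : ℝ) < N := by linarith
  have hNε : 1 / (N : ℝ) ≤ ε / 2 := by
    rw [div_le_iff₀ hN0]
    have h1 : 2 / ε < N := by linarith
    rw [div_lt_iff₀ hε] at h1
    linarith
  have hpts : ∀ k : ℕ, 0 < k → k < N → ∃ s, Phi s = (k : ℝ) / N := by
    intro k hk0 hkN
    have hk0r : (0 : ℝ) < k := by exact_mod_cast hk0
    have hkNr : (k : ℝ) < N := by exact_mod_cast hkN
    have h1 : ∃ a, Phi a ≤ (k : ℝ) / N := ((Phi_bot.eventually_lt_const (show (0 : ℝ) < (k : ℝ) / N by positivity)).exists).imp fun _ h => le_of_lt h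
    have h2 : ∃ a, (k : ℝ) / N ≤ Phi a := ((Phi_top.eventually_const_lt (show (k : ℝ) / N < 1 by rw [div_lt_one hN0]; exact hkNr)).exists).imp fun _ h => le_of_lt h
    exact mem_range_of_exists_le_of_exists_ge Phi_cont h1 h2
  have hpts' : ∀ k : ℕ, ∃ s, (0 < k → k < N → Phi s = (k : ℝ) / N) := by
    intro k
    by_cases h : 0 < k ∧ k < N
    · obtain ⟨s, hs⟩ := hpts k h.1 h.2
      exact ⟨s, fun _ _ => hs⟩
    · exact ⟨0, fun h1 h2 => absurd ⟨h1, h2⟩ h⟩
  choose s hs using hpts'
  have hc : ∀ m : ℕ, ∃ c : ℝ, 0 < c ∧ ∀ k < m, ∀ O X, G c O X → |(emp O X).real (Set.Iic (s k)) - Phi (s k)| ≤ ε / 2 := by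
    intro m
    induction m with
    | zero => exact ⟨1, one_pos, fun k hk => absurd hk (Nat.not_lt_zero k)⟩
    | succ m ih =>
        obtain ⟨c₁, hc₁, h1⟩ := ih
        obtain ⟨c₂, hc₂, h2⟩ := hpt (s m) (ε / 2) (by linarith)
        refine ⟨min c₁ c₂, lt_min hc₁ hc₂, fun k hk O X hG => ?_⟩
        rcases Nat.lt_succ_iff_lt_or_eq.1 hk with h | h
        · exact h1 k h O X (hmono _ _ _ _ (min_le_left _ _) hG)
        · subst h
          exact h2 O X (hmono _ _ _ _ (min_le_right _ _) hG)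
  obtain ⟨c, hc0, hcN⟩ := hc N
  refine ⟨c, hc0, fun O X hG t => ?_⟩
  have := emp_prob O (hne c O X hG) X
  obtain ⟨P, hP⟩ : ∃ P : ℝ → ℝ, P = fun t => (emp O X).real (Set.Iic t) := ⟨_, rfl⟩
  have hPm : Monotone P := by
    intro a b hab
    rw [hP]
    exact measureReal_mono (Set.Iic_subset_Iic.2 hab)
  have hP0 : ∀ t, 0 ≤ P t := fun t => by rw [hP]; exact measureReal_nonneg
  have hP1 : ∀ t, P t ≤ 1 := fun t => by rw [hP]; exact measureReal_le_one
  have hPs : ∀ k < N, |P (s k) - Phi (s k)| ≤ ε / 2 := by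
    intro k hk
    rw [hP]
    exact hcN k hk O X hG
  have goal : |P t - Phi t| ≤ ε := by
    have hΦ0 := Phi_nonneg t
    have hΦ1 := Phi_le_one t
    rw [abs_le]
    constructor
    · -- lower bound
      obtain ⟨k, hk⟩ : ∃ k : ℕ, k = ⌈(N : ℝ) * Phi t⌉₊ := ⟨_, rfl⟩
      have h1 : (N : ℝ) * Phi t ≤ k := by rw [hk]; exact Nat.le_ceil _
      have h2 : (k : ℝ) < N * Phi t + 1 := by rw [hk]; exact Nat.ceil_lt_add_one (by positivity)
      by_cases hk1 : k ≤ 1
      · have h3 : (k : ℝ) ≤ 1 := by exact_mod_cast hk1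
        have h4 : Phi t ≤ 1 / N := by
          rw [le_div_iff₀ hN0]
          linarith
        have := hP0 t
        linarith
      · push Not at hk1
        have hkN : k - 1 < N := by
          have h3 : (k : ℝ) < N + 1 := by nlinarith
          have h4 : k < N + 1 := by exact_mod_cast h3
          omega
        have h5 : Phi (s (k - 1)) = ((k - 1 : ℕ) : ℝ) / N := hs (k - 1) (by omega) hkN
        have h6 : ((k - 1 : ℕ) : ℝ) = (k : ℝ) - 1 := by
          rw [Nat.cast_sub (by omega), Nat.cast_one]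
        rw [h6] at h5
        have h7 : Phi (s (k - 1)) < Phi t := by
          rw [h5, div_lt_iff₀ hN0]
          linarith
        have h8 : s (k - 1) ≤ t := by
          by_contra h
          push Not at h
          have := Phi_mono h.le
          linarith
        have h9 := hPm h8
        have h10 := (abs_le.1 (hPs (k - 1) hkN)).1
        have h11 : Phi t - 1 / N ≤ Phi (s (k - 1)) := by
          rw [h5, sub_div]
          have : Phi t ≤ k / N := by rw [le_div_iff₀ hN0]; linarith
          linarith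
        linarith
    · -- upper bound
      obtain ⟨k, hk⟩ : ∃ k : ℕ, k = ⌊(N : ℝ) * Phi t⌋₊ + 1 := ⟨_, rfl⟩
      have h1 : (N : ℝ) * Phi t < k := by
        rw [hk]
        push_cast
        exact Nat.lt_floor_add_one _
      have h2 : (k : ℝ) ≤ N * Phi t + 1 := by
        rw [hk]
        push_cast
        have := Nat.floor_le (show 0 ≤ (N : ℝ) * Phi t by positivity)
        linarith
      by_cases hkN : k < N
      · have h5 : Phi (s k) = (k : ℝ) / N := hs k (by omega) hkN
        have h7 : Phi t < Phi (s k) := by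
          rw [h5, lt_div_iff₀ hN0]
          linarith
        have h8 : t ≤ s k := by
          by_contra h
          push Not at h
          have := Phi_mono h.le
          linarith
        have h9 := hPm h8
        have h10 := (abs_le.1 (hPs k hkN)).2
        have h11 : Phi (s k) ≤ Phi t + 1 / N := by
          rw [h5, div_le_iff₀ hN0]
          have : (Phi t + 1 / N) * N = N * Phi t + 1 := by field_simp
          linarith
        linarith
      · push Not at hkN
        have h3 : (N : ℝ) ≤ k := by exact_mod_cast hkN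
        have h4 : 1 - 1 / N ≤ Phi t := by
          have : (1 - 1 / (N : ℝ)) * N ≤ Phi t * N := by
            have e1 : (1 - 1 / (N : ℝ)) * N = N - 1 := by field_simp
            rw [e1]
            linarith
          exact le_of_mul_le_mul_right this hN0
        have := hP1 t
        linarith
  rw [hP] at goal
  exact goal

end Pool.Agent.X22.EQ
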