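import Pool.Agent.X22.EQ12
import Pool.Agent.X22.EQ13

set_option autoImplicit false

/-! The normal law for sums of local functions over few-digit changes. -/

namespace Pool.Agent.X22.EQ
open Finset Filter
open Pool.Agent.TH894.ND Pool.Agent.TH894.NE
open Pool.Agent.TH894.SM (change change_eq)

/-- the data -/
def Dat (b d : ℕ) (V : ℝ) (c : ℝ) (O : Finset (Fin d → Finset ℕ)) (Y : (Fin d → Finset ℕ) → ℝ) : Prop :=
  0 < c ∧ ∃ (r K : Fin d → ℕ) (x : ℕ), (∀ i, 2 * r i ≤ K i) ∧ 1 / c ≤ (x : ℝ) ∧ (∀ i, Real.log x ^ 2 ≤ c * r i) ∧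
    ∃ N : Fin d → ℕ, (∀ i, N i < b ^ K i) ∧ ∃ f : Fin d → ℕ → ℕ, (∀ i j, f i j < b ∧ f i j ≠ N i / b ^ j % b) ∧
    ∃ (ι : Type) (I : Finset ι) (q : ι → ℕ), (∀ a ∈ I, 1 ≤ q a ∧ q a ≤ x ∧ Nat.Coprime (q a) (b * b).factorial) ∧
    (∀ a ∈ I, ∀ a' ∈ I, a ≠ a' → Nat.Coprime (q a) (q a')) ∧ ∃ F : ι → (Fin d → ℕ) → ℝ,
    (∀ a ∈ I, Per (q a) (F a) ∧ mean d (q a) (F a) = 0) ∧
    ∃ M : ι → ℝ, (∀ a ∈ I, ∀ n, |F a n| ≤ M a) ∧ (∀ a ∈ I, M a ≤ c) ∧ ∑ a ∈ I, M a ^ 2 ≤ V ∧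
    |∑ a ∈ I, mean d (q a) (fun n => F a n ^ 2) - 1| ≤ c ∧
    O = Fintype.piFinset (fun i => powersetCard (r i) (range (K i))) ∧
    (∀ S ∈ O, |Y S - ∑ a ∈ I, F a (fun i => change b (K i) (N i) (f i) (S i))| ≤ c)

/-- **The normal law over few-digit changes.** -/
theorem few_clt (b d : ℕ) (hb : 2 ≤ b) (hd : 1 ≤ d) (V ε : ℝ) (hV : 0 ≤ V) (hε : 0 < ε) : ∃ c : ℝ, 0 < c ∧
    ∀ (r K : Fin d → ℕ) (x : ℕ), (∀ i, 2 * r i ≤ K i) → 1 / c ≤ (x : ℝ) → (∀ i, Real.log x ^ 2 ≤ c * r i) →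
    ∀ N : Fin d → ℕ, (∀ i, N i < b ^ K i) → ∀ f : Fin d → ℕ → ℕ, (∀ i j, f i j < b ∧ f i j ≠ N i / b ^ j % b) →
    ∀ {ι : Type} (I : Finset ι) (q : ι → ℕ), (∀ a ∈ I, 1 ≤ q a ∧ q a ≤ x ∧ Nat.Coprime (q a) (b * b).factorial) →
    (∀ a ∈ I, ∀ a' ∈ I, a ≠ a' → Nat.Coprime (q a) (q a')) → ∀ F : ι → (Fin d → ℕ) → ℝ,
    (∀ a ∈ I, Per (q a) (F a) ∧ mean d (q a) (F a) = 0) →
    ∀ M : ι → ℝ, (∀ a ∈ I, ∀ n, |F a n| ≤ M a) → (∀ a ∈ I, M a ≤ c) → ∑ a ∈ I, M a ^ 2 ≤ V →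
    |∑ a ∈ I, mean d (q a) (fun n => F a n ^ 2) - 1| ≤ c →
    ∀ Y : (Fin d → ℕ) → ℝ, (∀ n, |Y n - ∑ a ∈ I, F a n| ≤ c) → ∀ t : ℝ,
    |(((Fintype.piFinset (fun i => powersetCard (r i) (range (K i)))).filter
      (fun S => Y (fun i => change b (K i) (N i) (f i) (S i)) ≤ t)).card : ℝ) - Phi t * ∏ i, ((K i).choose (r i) : ℝ)| ≤
      ε * ∏ i, ((K i).choose (r i) : ℝ) := by
  classical
  have hmono : ∀ c c' O X, c ≤ c' → Dat b d V c O X → Dat b d V c' O X := by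
    rintro c c' O X hcc ⟨hc0, r, K, x, h1, h2, h3, N, h4, f, h5, ι, I, q, h6, h7, F, h8, M, h9, h10, h11, h12, h13, h14⟩
    refine ⟨by linarith, r, K, x, h1, le_trans ?_ h2, fun i => (h3 i).trans (mul_le_mul_of_nonneg_right hcc (Nat.cast_nonneg _)), N, h4, f, h5, ι, I, q, h6, h7,
      F, h8, M, h9, fun a ha => (h10 a ha).trans hcc, h11, h12.trans hcc, h13, fun S hS => (h14 S hS).trans hcc⟩
    exact one_div_le_one_div_of_le hc0 hcc
  have hne : ∀ c O X, Dat b d V c O X → O.Nonempty := by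
    rintro c O X ⟨hc0, r, K, x, h1, h2, h3, N, h4, f, h5, ι, I, q, h6, h7, F, h8, M, h9, h10, h11, h12, h13, h14⟩
    rw [h13]
    rw [Fintype.piFinset_nonempty]
    intro i
    rw [powersetCard_nonempty, card_range]
    have := h1 i
    omega
  have hchar : ∀ u δ : ℝ, 0 < δ → ∃ c : ℝ, 0 < c ∧ ∀ O X, Dat b d V c O X →
      ‖∑ S ∈ O, Complex.exp ((u * X S : ℝ) * Complex.I) - ((Real.exp (-(u ^ 2 / 2)) : ℝ) : ℂ) * (O.card : ℂ)‖ ≤ δ * O.card := by
    intro u δ hδ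
    obtain ⟨c₁, hc₁, key⟩ := few_char b d hb hd u V (δ / 3) hV (by linarith)
    obtain ⟨B, hB⟩ : ∃ B : ℝ, B = |u| + u ^ 2 + 1 := ⟨_, rfl⟩
    have hB0 : 0 < B := by rw [hB]; positivity
    refine ⟨min c₁ (min 1 (δ / (3 * B))), lt_min hc₁ (lt_min one_pos (by positivity)), ?_⟩
    obtain ⟨c, hc⟩ : ∃ c, c = min c₁ (min 1 (δ / (3 * B))) := ⟨_, rfl⟩
    rw [← hc]
    have hca : c ≤ c₁ := by rw [hc]; exact min_le_left _ _
    have hcb : c ≤ 1 := by rw [hc]; exact (min_le_right _ _).trans (min_le_left _ _)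
    have hcd : c ≤ δ / (3 * B) := by rw [hc]; exact (min_le_right _ _).trans (min_le_right _ _)
    rintro O X ⟨hc0, r, K, x, h1, h2, h3, N, h4, f, h5, ι, I, q, h6, h7, F, h8, M, h9, h10, h11, h12, h13, h14⟩
    have h15 := key r K x h1 ((one_div_le_one_div_of_le hc0 hca).trans h2) (fun i => (h3 i).trans (mul_le_mul_of_nonneg_right hca (Nat.cast_nonneg _))) N h4 f h5
      I q h6 h7 F h8 M h9 (fun a ha => (h10 a ha).trans hca) h11
    have hcard : (O.card : ℝ) = ∏ i, ((K i).choose (r i) : ℝ) := by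
      rw [h13, Fintype.card_piFinset]
      push_cast
      exact prod_congr rfl fun i _ => by rw [card_powersetCard, card_range]
    have hcardc : ((∏ i, ((K i).choose (r i) : ℝ) : ℝ) : ℂ) = (O.card : ℂ) := by
      rw [← hcard]
      exact Complex.ofReal_natCast _
    rw [hcardc, ← hcard, ← h13] at h15
    obtain ⟨v, hv⟩ : ∃ v : ℝ, v = ∑ a ∈ I, mean d (q a) (fun n => F a n ^ 2) := ⟨_, rfl⟩
    rw [← hv] at h12 h15
    have hv0 : 0 ≤ v := by
      rw [hv]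
      refine sum_nonneg fun a _ => ?_
      unfold mean
      exact mul_nonneg (by positivity) (sum_nonneg fun _ _ => sq_nonneg _)
    -- the difference of the exponentials
    have hexp1 : ∀ s s' : ℝ, 0 ≤ s → 0 ≤ s' → |Real.exp (-s) - Real.exp (-s')| ≤ |s - s'| := by
      have h16 : ∀ s s' : ℝ, 0 ≤ s → s ≤ s' → Real.exp (-s) - Real.exp (-s') ≤ s' - s := by
        intro s s' hs hss
        have h17 : Real.exp (-s') = Real.exp (-s) * Real.exp (-(s' - s)) := by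
          rw [← Real.exp_add]
          congr 1
          ring
        have h18 : 1 - (s' - s) ≤ Real.exp (-(s' - s)) := by
          have := Real.add_one_le_exp (-(s' - s))
          linarith
        have h19 : Real.exp (-s) ≤ 1 := by rw [Real.exp_le_one_iff]; linarith
        have h20 := Real.exp_pos (-s)
        rw [h17]
        nlinarith
      intro s s' hs hs'
      rcases le_total s s' with h | h
      · have h17 := h16 s s' hs h
        rw [abs_of_nonneg (by have := Real.exp_le_exp.2 (neg_le_neg h); linarith), abs_of_nonpos (by linarith)]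
        linarith
      · have h17 := h16 s' s hs' h
        rw [abs_of_nonpos (by have := Real.exp_le_exp.2 (neg_le_neg h); linarith), abs_of_nonneg (by linarith)]
        linarith
    have h16 : ‖((Real.exp (-(u ^ 2 / 2 * v)) : ℝ) : ℂ) * (O.card : ℂ) - ((Real.exp (-(u ^ 2 / 2)) : ℝ) : ℂ) * (O.card : ℂ)‖ ≤ u ^ 2 * c * O.card := by
      rw [← sub_mul, norm_mul, Complex.norm_natCast, ← Complex.ofReal_sub, Complex.norm_real, Real.norm_eq_abs]
      apply mul_le_mul_of_nonneg_right _ (Nat.cast_nonneg _)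
      refine (hexp1 (u ^ 2 / 2 * v) (u ^ 2 / 2) (by positivity) (by positivity)).trans ?_
      have e1 : u ^ 2 / 2 * v - u ^ 2 / 2 = u ^ 2 / 2 * (v - 1) := by ring
      rw [e1, abs_mul, abs_of_nonneg (by positivity : (0 : ℝ) ≤ u ^ 2 / 2)]
      have : u ^ 2 / 2 * |v - 1| ≤ u ^ 2 / 2 * c := mul_le_mul_of_nonneg_left h12 (by positivity)
      have h17 : 0 ≤ u ^ 2 * c := by positivity
      linarith
    have h17 : ‖∑ S ∈ O, Complex.exp ((u * X S : ℝ) * Complex.I) -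
        ∑ S ∈ O, Complex.exp ((u * ∑ a ∈ I, F a (fun i => change b (K i) (N i) (f i) (S i)) : ℝ) * Complex.I)‖ ≤ |u| * c * O.card := by
      rw [← sum_sub_distrib]
      refine (norm_sum_le _ _).trans ((sum_le_sum fun S hS => ?_).trans (le_of_eq (by rw [sum_const, nsmul_eq_mul, mul_comm])))
      · obtain ⟨z, hz⟩ : ∃ z : ℝ, z = ∑ a ∈ I, F a (fun i => change b (K i) (N i) (f i) (S i)) := ⟨_, rfl⟩
        have h18 := h14 S hS
        rw [← hz] at h18 ⊢
        have e1 : Complex.exp ((u * X S : ℝ) * Complex.I) - Complex.exp ((u * z : ℝ) * Complex.I) =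
            Complex.exp ((u * z : ℝ) * Complex.I) * (Complex.exp (((u * (X S - z) : ℝ) : ℂ) * Complex.I) - 1) := by
          rw [mul_sub, mul_one, ← Complex.exp_add]
          congr 2
          push_cast
          ring
        rw [e1, norm_mul, Complex.norm_exp_ofReal_mul_I, one_mul]
        have h19 := taylor_im (u * (X S - z)) 1
        simp only [range_one, sum_singleton, pow_zero, pow_one, Nat.factorial_zero, Nat.factorial_one, Nat.cast_one, div_one] at h19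
        refine h19.trans ?_
        rw [abs_mul]
        exact mul_le_mul_of_nonneg_left h18 (abs_nonneg _)
    have h18 : ∑ S ∈ O, Complex.exp ((u * X S : ℝ) * Complex.I) - ((Real.exp (-(u ^ 2 / 2)) : ℝ) : ℂ) * (O.card : ℂ) =
        (∑ S ∈ O, Complex.exp ((u * X S : ℝ) * Complex.I) -
          ∑ S ∈ O, Complex.exp ((u * ∑ a ∈ I, F a (fun i => change b (K i) (N i) (f i) (S i)) : ℝ) * Complex.I)) +
        (∑ S ∈ O, Complex.exp ((u * ∑ a ∈ I, F a (fun i => change b (K i) (N i) (f i) (S i)) : ℝ) * Complex.I) -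
          ((Real.exp (-(u ^ 2 / 2 * v)) : ℝ) : ℂ) * (O.card : ℂ)) +
        (((Real.exp (-(u ^ 2 / 2 * v)) : ℝ) : ℂ) * (O.card : ℂ) - ((Real.exp (-(u ^ 2 / 2)) : ℝ) : ℂ) * (O.card : ℂ)) := by ring
    rw [h18]
    refine (norm_add_le _ _).trans ((add_le_add (norm_add_le _ _) le_rfl).trans ?_)
    have h19 : (|u| + u ^ 2) * c * O.card ≤ δ / 3 * O.card := by
      apply mul_le_mul_of_nonneg_right _ (Nat.cast_nonneg _)
      calc (|u| + u ^ 2) * c ≤ B * (δ / (3 * B)) := mul_le_mul (by rw [hB]; linarith) hcd hc0.le hB0.le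
        _ = δ / 3 := by field_simp
    have h20 : (0 : ℝ) ≤ δ / 3 * O.card := by positivity
    linarith
  obtain ⟨c, hc, key⟩ := levy_unif (Dat b d V) hmono hne (levy_pred (Dat b d V) hmono hne hchar) ε hε
  refine ⟨c, hc, fun r K x h1 h2 h3 N h4 f h5 ι I q h6 h7 F h8 M h9 h10 h11 h12 Y h13 t => ?_⟩
  obtain ⟨O, hO⟩ : ∃ O, O = Fintype.piFinset (fun i => powersetCard (r i) (range (K i))) := ⟨_, rfl⟩
  have hD : Dat b d V c O (fun S => Y (fun i => change b (K i) (N i) (f i) (S i))) :=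
    ⟨hc, r, K, x, h1, h2, h3, N, h4, f, h5, ι, I, q, h6, h7, F, h8, M, h9, h10, h11, h12, hO, fun S _ => h13 _⟩
  have h14 := key O _ hD t
  rw [emp_Iic] at h14
  have hcard : (O.card : ℝ) = ∏ i, ((K i).choose (r i) : ℝ) := by
    rw [hO, Fintype.card_piFinset]
    push_cast
    exact prod_congr rfl fun i _ => by rw [card_powersetCard, card_range]
  have hpos : (0 : ℝ) < O.card := by exact_mod_cast (hne c O _ hD).card_pos
  rw [← hcard, ← hO]
  have h15 : ((O.filter (fun S => Y (fun i => change b (K i) (N i) (f i) (S i)) ≤ t)).card : ℝ) - Phi t * O.card =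
      (((O.filter (fun S => Y (fun i => change b (K i) (N i) (f i) (S i)) ≤ t)).card : ℝ) / O.card - Phi t) * O.card := by
    field_simp
  rw [h15, abs_mul, abs_of_pos hpos]
  exact mul_le_mul_of_nonneg_right h14 hpos.le

end Pool.Agent.X22.EQ
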