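import Pool.Agent.X22.EQ14

set_option autoImplicit false

/-! The normal law for sums over primes over few-digit changes. -/

namespace Pool.Agent.X22.EQ
open Finset Filter
open Pool.Agent.TH894.ND Pool.Agent.TH894.NE
open Pool.Agent.TH894.SM (change change_eq)

/-- **The normal law for sums over primes.** -/
theorem clt_pin (b d : ℕ) (hb : 2 ≤ b) (hd : 1 ≤ d) (κ v M B C₂ ε : ℝ) (hv : 0 < v) (hM : 0 ≤ M) (hB : 0 ≤ B) (hC₂ : 0 ≤ C₂) (hε : 0 < ε) : ∃ c : ℝ, 0 < c ∧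
    ∀ (r K : Fin d → ℕ) (y x : ℕ), (∀ i, 2 * r i ≤ K i) → b * b ≤ y → 3 ≤ y → y ≤ x → ∀ l : ℝ, |l - la y x| ≤ C₂ → 1 / c ≤ l → (∀ i, Real.log x ^ 2 ≤ c * r i) →
    ∀ N : Fin d → ℕ, (∀ i, N i < b ^ K i) → ∀ f : Fin d → ℕ → ℕ, (∀ i j, f i j < b ∧ f i j ≠ N i / b ^ j % b) →
    ∀ G : ℕ → (Fin d → ℕ) → ℝ, (∀ p, p.Prime → y < p → Per p (G p)) → (∀ p, p.Prime → y < p → ∀ n, |G p n| ≤ M / Real.sqrt p) →
    (∀ p, p.Prime → y < p → |mean d p (G p) - κ / p| ≤ B / (p : ℝ) ^ (3 / 2 : ℝ)) →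
    (∀ p, p.Prime → y < p → |mean d p (fun n => G p n ^ 2) - v / p| ≤ B / (p : ℝ) ^ (3 / 2 : ℝ)) →
    ∀ Z : (Fin d → ℕ) → ℝ, (∀ m, |Z m - ∑ p ∈ pin y x, G p m| ≤ C₂) → ∀ t : ℝ,
    |(((Fintype.piFinset (fun i => powersetCard (r i) (range (K i)))).filter
      (fun S => (Z (fun i => change b (K i) (N i) (f i) (S i)) - κ * l) / Real.sqrt (v * l) ≤ t)).card : ℝ) -
      Phi t * ∏ i, ((K i).choose (r i) : ℝ)| ≤ ε * ∏ i, ((K i).choose (r i) : ℝ) := by
  classical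
  obtain ⟨C₃, hC₃, hmer₀⟩ := hs_la
  obtain ⟨C₀, hC₀e⟩ : ∃ C₀ : ℝ, C₀ = C₃ + C₂ := ⟨_, rfl⟩
  have hC₀ : 0 ≤ C₀ := by rw [hC₀e]; positivity
  obtain ⟨S₀, hS₀⟩ : ∃ S₀ : ℝ, S₀ = ∑' n : ℕ, 1 / (n : ℝ) ^ (3 / 2 : ℝ) := ⟨_, rfl⟩
  have hsum : Summable (fun n : ℕ => 1 / (n : ℝ) ^ (3 / 2 : ℝ)) := Real.summable_one_div_nat_rpow.2 (by norm_num)
  have hS₀0 : 0 ≤ S₀ := by rw [hS₀]; exact tsum_nonneg fun n => by positivity
  obtain ⟨V, hV⟩ : ∃ V : ℝ, V = 4 * M ^ 2 * (1 + C₀) / v := ⟨_, rfl⟩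
  have hV0 : 0 ≤ V := by rw [hV]; positivity
  obtain ⟨c₁, hc₁, key⟩ := few_clt b d hb hd V ε hV0 hε
  obtain ⟨B₁, hB₁⟩ : ∃ B₁ : ℝ, B₁ = (B + (|κ| + B) ^ 2) * S₀ + v * C₀ := ⟨_, rfl⟩
  have hB₁0 : 0 ≤ B₁ := by rw [hB₁]; positivity
  obtain ⟨B₂, hB₂⟩ : ∃ B₂ : ℝ, B₂ = B * S₀ + |κ| * C₀ + C₂ := ⟨_, rfl⟩
  have hB₂0 : 0 ≤ B₂ := by rw [hB₂]; positivity
  -- the required size of λ
  obtain ⟨Λ, hΛ⟩ : ∃ Λ : ℝ, Λ = 1 + 1 / c₁ + (2 * M / c₁) ^ 2 / v + B₁ / (v * c₁) + (B₂ / c₁) ^ 2 / v + C₂ := ⟨_, rfl⟩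
  have hΛ1 : 1 ≤ Λ := by
    rw [hΛ]
    have : 0 ≤ 1 / c₁ + (2 * M / c₁) ^ 2 / v + B₁ / (v * c₁) + (B₂ / c₁) ^ 2 / v + C₂ := by positivity
    linarith
  have hΛ0 : 0 < Λ := by linarith
  refine ⟨min c₁ (1 / Λ), lt_min hc₁ (by positivity), fun r K y x hrK hby hy3 hyx l hl hla hxr N hN f hf G hper hGM hG1 hG2 Z hZ t => ?_⟩
  have hlΛ : Λ ≤ l := by
    refine le_trans ?_ hla
    rw [le_div_iff₀ (lt_min hc₁ (by positivity))]
    calc Λ * min c₁ (1 / Λ) ≤ Λ * (1 / Λ) := mul_le_mul_of_nonneg_left (min_le_right _ _) hΛ0.le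
      _ = 1 := by field_simp
  have hl0 : 0 < l := by linarith
  have hl1 : 1 ≤ l := by linarith
  have hp1 : 0 ≤ 1 / c₁ := by positivity
  have hp2 : 0 ≤ (2 * M / c₁) ^ 2 / v := by positivity
  have hp3 : 0 ≤ B₁ / (v * c₁) := by positivity
  have hp4 : 0 ≤ (B₂ / c₁) ^ 2 / v := by positivity
  have hl2 : 1 / c₁ + C₂ ≤ l := by rw [hΛ] at hlΛ; linarith
  have hl3 : (2 * M / c₁) ^ 2 / v ≤ l := by rw [hΛ] at hlΛ; linarith
  have hl4 : B₁ / (v * c₁) ≤ l := by rw [hΛ] at hlΛ; linarith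
  have hl5 : (B₂ / c₁) ^ 2 / v ≤ l := by rw [hΛ] at hlΛ; linarith
  have hvl : 0 < v * l := by positivity
  obtain ⟨s, hse⟩ : ∃ s : ℝ, s = Real.sqrt (v * l) := ⟨_, rfl⟩
  have hs0 : 0 < s := by rw [hse]; exact Real.sqrt_pos.2 hvl
  have hss : s ^ 2 = v * l := by rw [hse]; exact Real.sq_sqrt hvl.le
  have hsM : 2 * M / s ≤ c₁ := by
    rw [div_le_iff₀ hs0]
    have h1 : 2 * M / c₁ ≤ s := by
      rw [hse]
      apply Real.le_sqrt_of_sq_le
      rw [div_le_iff₀ hv] at hl3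
      linarith
    rw [div_le_iff₀ hc₁] at h1
    linarith
  have hsB : B₂ / s ≤ c₁ := by
    rw [div_le_iff₀ hs0]
    have h1 : B₂ / c₁ ≤ s := by
      rw [hse]
      apply Real.le_sqrt_of_sq_le
      rw [div_le_iff₀ hv] at hl5
      linarith
    rw [div_le_iff₀ hc₁] at h1
    linarith
  have hsB1 : B₁ / (v * l) ≤ c₁ := by
    rw [div_le_iff₀ hvl]
    rw [div_le_iff₀ (by positivity)] at hl4
    nlinarith
  have hpin : ∀ p ∈ pin y x, p.Prime ∧ y < p ∧ p ≤ x := by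
    intro p hp
    rw [mem_pin] at hp
    exact ⟨hp.2, hp.1.1, hp.1.2⟩
  have hh : |hs y x - l| ≤ C₀ := by
    have h1 := hmer₀ y x hy3 hyx
    have h2 : hs y x - l = (hs y x - la y x) - (l - la y x) := by ring
    rw [h2, hC₀e]
    exact (abs_sub _ _).trans (add_le_add h1 hl)
  have hhs : hs y x ≤ (1 + C₀) * l := by
    have := (abs_le.1 hh).2
    nlinarith
  -- the size of `x`
  have hx1 : 1 / c₁ ≤ (x : ℝ) := by
    have hl2' : 1 / c₁ ≤ la y x := by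
      have := (abs_le.1 hl).2
      linarith
    refine hl2'.trans ?_
    have hy0 : (0 : ℝ) < y := by exact_mod_cast (by omega : 0 < y)
    have hx0 : (0 : ℝ) < x := by exact_mod_cast (by omega : 0 < x)
    have hly : 1 ≤ Real.log y := by
      rw [Real.le_log_iff_exp_le hy0]
      have h3 := Real.exp_one_lt_d9
      have h4 : (3 : ℝ) ≤ y := by exact_mod_cast hy3
      linarith
    have hlx : Real.log y ≤ Real.log x := Real.log_le_log hy0 (by exact_mod_cast hyx)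
    have h1 : 0 < Real.log x / Real.log y := div_pos (by linarith) (by linarith)
    have h2 : la y x ≤ Real.log x / Real.log y := by
      unfold la
      have := Real.log_le_sub_one_of_pos h1
      linarith
    have h3 : Real.log x / Real.log y ≤ Real.log x := div_le_self (by linarith) hly
    have h4 : Real.log x ≤ x := by
      have := Real.log_le_sub_one_of_pos hx0
      linarith
    linarith
  obtain ⟨F, hF⟩ : ∃ F : ℕ → (Fin d → ℕ) → ℝ, F = fun p m => (1 / s) * (G p m - mean d p (G p)) := ⟨_, rfl⟩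
  obtain ⟨Mp, hMp⟩ : ∃ Mp : ℕ → ℝ, Mp = fun p : ℕ => 2 * M / s / Real.sqrt (p : ℝ) := ⟨_, rfl⟩
  have hq : ∀ p ∈ pin y x, 1 ≤ p ∧ p ≤ x ∧ Nat.Coprime p (b * b).factorial := by
    intro p hp
    obtain ⟨h1, h2, h3⟩ := hpin p hp
    refine ⟨h1.one_lt.le, h3, ?_⟩
    rw [Nat.Prime.coprime_iff_not_dvd h1, h1.dvd_factorial]
    omega
  have hcop : ∀ p ∈ pin y x, ∀ p' ∈ pin y x, p ≠ p' → Nat.Coprime p p' :=
    fun p hp p' hp' hne => (Nat.coprime_primes (hpin p hp).1 (hpin p' hp').1).2 hne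
  have hF0 : ∀ p ∈ pin y x, Per p (F p) ∧ mean d p (F p) = 0 := by
    intro p hp
    obtain ⟨h1, h2, h3⟩ := hpin p hp
    constructor
    · intro m
      rw [hF]
      show 1 / s * (G p m - mean d p (G p)) = 1 / s * (G p (fun i => m i % p) - mean d p (G p))
      rw [← hper p h1 h2 m]
    · rw [hF]
      show mean d p (fun m => 1 / s * (G p m - mean d p (G p))) = 0
      rw [mean_mul]
      have h4 : (fun m => G p m - mean d p (G p)) = fun m => G p m + (fun _ : Fin d → ℕ => -mean d p (G p)) m := by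
        funext m
        ring
      rw [h4, Pool.Agent.TH894.NE.mean_add, mean_const d p h1.one_lt.le]
      ring
  have hFM : ∀ p ∈ pin y x, ∀ m, |F p m| ≤ Mp p := by
    intro p hp m
    obtain ⟨h1, h2, h3⟩ := hpin p hp
    have h4 : |G p m - mean d p (G p)| ≤ 2 * M / Real.sqrt p := by
      refine (abs_sub _ _).trans ?_
      have h5 := abs_mean_le d p h1.one_lt.le (G p) _ (hGM p h1 h2)
      calc |G p m| + |mean d p (G p)| ≤ M / Real.sqrt p + M / Real.sqrt p := add_le_add (hGM p h1 h2 m) h5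
        _ = _ := by ring
    rw [hF, hMp]
    show |1 / s * (G p m - mean d p (G p))| ≤ 2 * M / s / Real.sqrt p
    rw [abs_mul, abs_of_pos (by positivity : 0 < 1 / s)]
    calc 1 / s * |G p m - mean d p (G p)| ≤ 1 / s * (2 * M / Real.sqrt p) := mul_le_mul_of_nonneg_left h4 (by positivity)
      _ = _ := by ring
  have hMc : ∀ p ∈ pin y x, Mp p ≤ c₁ := by
    intro p hp
    obtain ⟨h1, h2, h3⟩ := hpin p hp
    rw [hMp]
    refine le_trans (div_le_self (by positivity) ?_) hsM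
    rw [Real.one_le_sqrt]
    exact_mod_cast h1.one_lt.le
  have hMV : ∑ p ∈ pin y x, Mp p ^ 2 ≤ V := by
    have h1 : ∀ p ∈ pin y x, Mp p ^ 2 = (4 * M ^ 2 / (v * l)) * (1 / p) := by
      intro p _
      rw [hMp]
      show (2 * M / s / Real.sqrt p) ^ 2 = _
      rw [div_pow, div_pow, hss, Real.sq_sqrt (Nat.cast_nonneg _)]
      ring
    rw [sum_congr rfl h1, ← mul_sum]
    show 4 * M ^ 2 / (v * l) * hs y x ≤ V
    calc 4 * M ^ 2 / (v * l) * hs y x ≤ 4 * M ^ 2 / (v * l) * ((1 + C₀) * l) := mul_le_mul_of_nonneg_left hhs (by positivity)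
      _ = V := by rw [hV]; field_simp
  have hS32 : ∀ (g : ℕ → ℝ) (R : ℝ), 0 ≤ R → (∀ p ∈ pin y x, |g p| ≤ R / (p : ℝ) ^ (3 / 2 : ℝ)) → |∑ p ∈ pin y x, g p| ≤ R * S₀ := by
    intro g R hR hg
    refine (abs_sum_le_sum_abs _ _).trans ?_
    have h6 : ∀ p ∈ pin y x, |g p| ≤ R * (1 / (p : ℝ) ^ (3 / 2 : ℝ)) := fun p hp => (hg p hp).trans (le_of_eq (by ring))
    refine (sum_le_sum h6).trans ?_
    rw [← mul_sum, hS₀]
    exact mul_le_mul_of_nonneg_left (hsum.sum_le_tsum _ fun n _ => by positivity) hR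
  have hm1 : ∀ p ∈ pin y x, |mean d p (G p)| ≤ (|κ| + B) / p := by
    intro p hp
    obtain ⟨h1, h2, h3⟩ := hpin p hp
    have hpr : (1 : ℝ) ≤ p := by exact_mod_cast h1.one_lt.le
    have h4 := hG1 p h1 h2
    have h5 : B / (p : ℝ) ^ (3 / 2 : ℝ) ≤ B / p := by
      apply div_le_div_of_nonneg_left hB (by linarith)
      calc (p : ℝ) = (p : ℝ) ^ (1 : ℝ) := (Real.rpow_one _).symm
        _ ≤ _ := Real.rpow_le_rpow_of_exponent_le hpr (by norm_num)
    have h6 : |κ / (p : ℝ)| = |κ| / p := by rw [abs_div, abs_of_pos (by linarith : (0 : ℝ) < p)]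
    have h7 : mean d p (G p) = (mean d p (G p) - κ / p) + κ / p := by ring
    rw [h7]
    refine (abs_add_le _ _).trans ?_
    rw [h6, add_div]
    linarith
  have hvar : |∑ p ∈ pin y x, mean d p (fun m => F p m ^ 2) - 1| ≤ c₁ := by
    have h1 : ∀ p ∈ pin y x, mean d p (fun m => F p m ^ 2) = (1 / (v * l)) * (v / p) +
        (1 / (v * l)) * ((mean d p (fun m => G p m ^ 2) - v / p) - mean d p (G p) ^ 2) := by
      intro p hp
      obtain ⟨h1, h2, h3⟩ := hpin p hp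
      have h4 : (fun m => F p m ^ 2) = fun m => (fun m => (1 / (v * l)) * G p m ^ 2) m +
          (fun m => (fun m => (-(2 * mean d p (G p)) / (v * l)) * G p m) m + (fun _ : Fin d → ℕ => mean d p (G p) ^ 2 / (v * l)) m) m := by
        funext m
        rw [hF]
        show (1 / s * (G p m - mean d p (G p))) ^ 2 = 1 / (v * l) * G p m ^ 2 + (-(2 * mean d p (G p)) / (v * l) * G p m + mean d p (G p) ^ 2 / (v * l))
        rw [mul_pow, div_pow, hss]
        ring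
      rw [h4, Pool.Agent.TH894.NE.mean_add, Pool.Agent.TH894.NE.mean_add, mean_const d p h1.one_lt.le, mean_mul, mean_mul]
      ring
    rw [sum_congr rfl h1, sum_add_distrib, ← mul_sum, ← mul_sum]
    have h2 : ∑ p ∈ pin y x, v / (p : ℝ) = v * hs y x := by
      unfold hs
      rw [mul_sum]
      exact sum_congr rfl fun p _ => by ring
    rw [h2]
    obtain ⟨R, hR⟩ : ∃ R : ℝ, R = ∑ p ∈ pin y x, ((mean d p (fun m => G p m ^ 2) - v / p) - mean d p (G p) ^ 2) := ⟨_, rfl⟩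
    have hRb : |R| ≤ (B + (|κ| + B) ^ 2) * S₀ := by
      rw [hR]
      apply hS32 _ _ (by positivity)
      intro p hp
      obtain ⟨h1, h2, h3⟩ := hpin p hp
      have hpr : (1 : ℝ) ≤ p := by exact_mod_cast h1.one_lt.le
      refine (abs_sub _ _).trans ?_
      have h4 := hG2 p h1 h2
      have h5 : |mean d p (G p) ^ 2| ≤ (|κ| + B) ^ 2 / (p : ℝ) ^ (3 / 2 : ℝ) := by
        rw [abs_pow]
        calc |mean d p (G p)| ^ 2 ≤ ((|κ| + B) / p) ^ 2 := pow_le_pow_left₀ (abs_nonneg _) (hm1 p hp) 2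
          _ = (|κ| + B) ^ 2 / (p : ℝ) ^ 2 := by rw [div_pow]
          _ ≤ _ := by
              apply div_le_div_of_nonneg_left (by positivity) (by positivity)
              calc (p : ℝ) ^ (3 / 2 : ℝ) ≤ (p : ℝ) ^ (2 : ℝ) := Real.rpow_le_rpow_of_exponent_le hpr (by norm_num)
                _ = _ := by norm_num
      rw [add_div]
      exact add_le_add h4 h5
    rw [← hR]
    have h3 : 1 / (v * l) * (v * hs y x) + 1 / (v * l) * R - 1 = (v * (hs y x - l) + R) / (v * l) := by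
      field_simp
      ring
    rw [h3, abs_div, abs_of_pos hvl]
    refine le_trans (div_le_div_of_nonneg_right ?_ hvl.le) hsB1
    refine (abs_add_le _ _).trans ?_
    rw [abs_mul, abs_of_pos hv, hB₁]
    have : v * |hs y x - l| ≤ v * C₀ := mul_le_mul_of_nonneg_left hh hv.le
    linarith
  obtain ⟨Y, hY⟩ : ∃ Y : (Fin d → ℕ) → ℝ, Y = fun m => (Z m - κ * l) / s := ⟨_, rfl⟩
  have hYF : ∀ m, |Y m - ∑ p ∈ pin y x, F p m| ≤ c₁ := by
    intro m
    have h1 : Y m - ∑ p ∈ pin y x, F p m = (∑ p ∈ pin y x, (mean d p (G p) - κ / p) + κ * (hs y x - l) + (Z m - ∑ p ∈ pin y x, G p m)) / s := by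
      rw [hY, hF]
      show (Z m - κ * l) / s - ∑ p ∈ pin y x, 1 / s * (G p m - mean d p (G p)) = _
      rw [← mul_sum, sum_sub_distrib, sum_sub_distrib]
      have h2 : ∑ p ∈ pin y x, κ / (p : ℝ) = κ * hs y x := by
        unfold hs
        rw [mul_sum]
        exact sum_congr rfl fun p _ => by ring
      rw [h2]
      field_simp
      ring
    rw [h1, abs_div, abs_of_pos hs0]
    refine le_trans (div_le_div_of_nonneg_right ?_ hs0.le) hsB
    refine (abs_add_le _ _).trans ((add_le_add (abs_add_le _ _) (hZ m)).trans ?_)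
    rw [abs_mul, hB₂]
    have h3 := hS32 (fun p => mean d p (G p) - κ / p) B hB (fun p hp => hG1 p (hpin p hp).1 (hpin p hp).2.1)
    have : |κ| * |hs y x - l| ≤ |κ| * C₀ := mul_le_mul_of_nonneg_left hh (abs_nonneg _)
    linarith
  have h := key r K x hrK hx1 (fun i => (hxr i).trans (mul_le_mul_of_nonneg_right (min_le_left _ _) (Nat.cast_nonneg _))) N hN f hf (pin y x) (fun p => p)
    hq hcop F hF0 Mp hFM hMc hMV hvar Y hYF t
  rw [hY] at h
  rw [← hse]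
  exact h

end Pool.Agent.X22.EQ
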