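import Pool.Agent.X22.MT6
import Pool.Agent.X22.EC

set_option autoImplicit false

/-! Euler factors of tensor products of symmetric powers of elliptic curves. -/

namespace Pool.Agent.X22.SP

open Finset
open Pool.Agent.TH894.NE (box mem_box mean)
open Pool.Agent.X22.MT (Loc coeff_prod_bound)
open Pool.Agent.X22.EC (tq tq_bound tq_twist lf lf_single)

lemma coeff_zero_prod {ι : Type*} (S : Finset ι) (f : ι → PowerSeries ℂ) (h : ∀ i ∈ S, PowerSeries.coeff 0 (f i) = 1) :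
    PowerSeries.coeff 0 (∏ i ∈ S, f i) = 1 := by
  rw [PowerSeries.coeff_zero_eq_constantCoeff_apply, map_prod]
  exact prod_eq_one fun i hi => by
    have := h i hi
    rwa [PowerSeries.coeff_zero_eq_constantCoeff_apply] at this

lemma coeff_one_prod {ι : Type*} (S : Finset ι) (f : ι → PowerSeries ℂ) (h : ∀ i ∈ S, PowerSeries.coeff 0 (f i) = 1) :
    PowerSeries.coeff 1 (∏ i ∈ S, f i) = ∑ i ∈ S, PowerSeries.coeff 1 (f i) := by
  classical
  induction S using Finset.induction_on with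
  | empty =>
    rw [prod_empty, sum_empty, PowerSeries.coeff_one, if_neg one_ne_zero]
  | insert a S ha ih =>
    have h1 := fun i hi => h i (mem_insert_of_mem hi)
    rw [prod_insert ha, sum_insert ha, PowerSeries.coeff_mul, ← ih h1]
    have e : HasAntidiagonal.antidiagonal 1 = {((0 : ℕ), (1 : ℕ)), ((1 : ℕ), (0 : ℕ))} := rfl
    rw [e, sum_pair (by decide), h a (mem_insert_self a S), coeff_zero_prod S f h1, one_mul, mul_one, add_comm]

/-- the geometric series -/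
noncomputable def geo (α : ℂ) : PowerSeries ℂ := PowerSeries.mk (fun j => α ^ j)

lemma geo_coeff (α : ℂ) (j : ℕ) : PowerSeries.coeff j (geo α) = α ^ j := by
  unfold geo
  rw [PowerSeries.coeff_mk]

/-- the eigenvalue with the given cosine -/
noncomputable def ev (c : ℝ) : ℂ := ⟨c, Real.sqrt (1 - c ^ 2)⟩

lemma ev_norm (c : ℝ) (hc : |c| ≤ 1) : ‖ev c‖ = 1 := by
  have h1 : c ^ 2 ≤ 1 := by
    rw [← sq_abs]
    exact pow_le_one₀ (abs_nonneg _) hc
  have h2 : Complex.normSq (ev c) = 1 := by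
    unfold ev
    rw [Complex.normSq_mk, Real.mul_self_sqrt (by linarith)]
    ring
  rw [Complex.norm_def, h2, Real.sqrt_one]

/-- the character of the symmetric power -/
noncomputable def sy (k : ℕ) (c : ℝ) : ℂ := ∑ j ∈ range (k + 1), ev c ^ (k - j) * (starRingEnd ℂ) (ev c) ^ j

lemma sy_odd (k : ℕ) (hk : Odd k) (c : ℝ) : sy k (-c) = -sy k c := by
  have h1 : ev (-c) = -(starRingEnd ℂ) (ev c) := by
    unfold ev
    apply Complex.ext
    · simp
    · simp
  have h2 : (starRingEnd ℂ) (ev (-c)) = -ev c := by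
    rw [h1, map_neg, Complex.conj_conj]
  unfold sy
  rw [h2, h1, ← sum_neg_distrib, ← sum_range_reflect]
  apply sum_congr rfl
  intro j hj
  rw [mem_range] at hj
  have e1 : k + 1 - 1 - j = k - j := by omega
  have e2 : k - (k - j) = j := by omega
  rw [e1, e2, neg_pow ((starRingEnd ℂ) (ev c)), neg_pow (ev c)]
  have e3 : ((-1 : ℂ)) ^ j * (-1) ^ (k - j) = -1 := by
    rw [← pow_add, show j + (k - j) = k by omega, hk.neg_one_pow]
  linear_combination ((starRingEnd ℂ) (ev c)) ^ j * (ev c) ^ (k - j) * e3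

section
variable {p : ℕ} [hf : Fact p.Prime]

lemma sum_odd' (h2 : p ≠ 2) (Φ : ℤ → ℂ) (hΦ : ∀ n, Φ (-n) = -Φ n) : ∑ z : ZMod p × ZMod p, Φ (tq z.1 z.2) = 0 := by
  have h3 : ringChar (ZMod p) ≠ 2 := by
    rw [ZMod.ringChar_zmod_n]
    exact h2
  apply Complex.ext
  · rw [Complex.re_sum, Complex.zero_re]
    exact Pool.Agent.X22.EC.sum_odd h3 (fun n => (Φ n).re) (fun n => by show (Φ (-n)).re = -(Φ n).re; rw [hΦ, Complex.neg_re])
  · rw [Complex.im_sum, Complex.zero_im]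
    exact Pool.Agent.X22.EC.sum_odd h3 (fun n => (Φ n).im) (fun n => by show (Φ (-n)).im = -(Φ n).im; rw [hΦ, Complex.neg_im])

lemma sum_twoG {V : Type} [AddCommGroup V] [Fintype V] [Module (ZMod p) V] (La Lb : V →ₗ[ZMod p] ZMod p)
    (u v : V) (h1 : La u = 1) (h2 : Lb u = 0) (h3 : La v = 0) (h4 : Lb v = 1) (G : V → ℂ) (hG : ∀ m (a b : ZMod p), G (m + (a • u + b • v)) = G m)
    (Ψ : ZMod p → ZMod p → ℂ) (hΨ : ∑ z : ZMod p × ZMod p, Ψ z.1 z.2 = 0) : ∑ m : V, G m * Ψ (La m) (Lb m) = 0 := by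
  have e1 : ∀ z : ZMod p × ZMod p, ∑ m : V, G m * Ψ (La m) (Lb m) = ∑ m : V, G m * Ψ (La m + z.1) (Lb m + z.2) := by
    intro z
    rw [← Equiv.sum_comp (Equiv.addRight (z.1 • u + z.2 • v)) (fun m => G m * Ψ (La m) (Lb m))]
    apply sum_congr rfl
    intro m _
    show G (m + (z.1 • u + z.2 • v)) * Ψ (La (m + (z.1 • u + z.2 • v))) (Lb (m + (z.1 • u + z.2 • v))) = _
    rw [hG]
    simp only [map_add, map_smul, h1, h2, h3, h4, smul_eq_mul, mul_one, mul_zero, add_zero, zero_add]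
  have e2 : (Fintype.card (ZMod p × ZMod p) : ℂ) * ∑ m : V, G m * Ψ (La m) (Lb m) = 0 := by
    have e3 : (Fintype.card (ZMod p × ZMod p) : ℂ) * ∑ m : V, G m * Ψ (La m) (Lb m) =
        ∑ z : ZMod p × ZMod p, ∑ m : V, G m * Ψ (La m + z.1) (Lb m + z.2) := by
      rw [← sum_congr rfl (fun z _ => e1 z), sum_const, nsmul_eq_mul, card_univ]
    rw [e3, sum_comm]
    apply sum_eq_zero
    intro m _
    rw [← mul_sum]
    have e5 : ∑ z : ZMod p × ZMod p, Ψ (La m + z.1) (Lb m + z.2) = 0 := by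
      rw [← hΨ]
      exact Equiv.sum_comp ((Equiv.addLeft (La m)).prodCongr (Equiv.addLeft (Lb m))) (fun z : ZMod p × ZMod p => Ψ z.1 z.2)
    rw [e5, mul_zero]
  have e4 : (Fintype.card (ZMod p × ZMod p) : ℂ) ≠ 0 := by
    exact_mod_cast Fintype.card_ne_zero
  exact (mul_eq_zero.1 e2).resolve_left e4

/-- the sum over the box as the sum over the residues -/
lemma box_zmod (d : ℕ) (Φ : (Fin d → ZMod p) → ℂ) : ∑ m ∈ box d p, Φ (fun i => (m i : ZMod p)) = ∑ v, Φ v := by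
  have h := fun Ψ : (Fin d → ZMod p) → ℝ => Pool.Agent.X22.ND.mean_zmod d p hf.out Ψ
  have hp0 : ((p : ℝ) ^ d) ≠ 0 := pow_ne_zero _ (by exact_mod_cast hf.out.ne_zero)
  have key : ∀ Ψ : (Fin d → ZMod p) → ℝ, ∑ m ∈ box d p, Ψ (fun i => (m i : ZMod p)) = ∑ v, Ψ v := by
    intro Ψ
    have h1 := h Ψ
    unfold mean at h1
    rw [eq_div_iff hp0] at h1
    rw [← h1]
    field_simp
  apply Complex.ext
  · rw [Complex.re_sum, Complex.re_sum]
    exact key (fun v => (Φ v).re)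
  · rw [Complex.im_sum, Complex.im_sum]
    exact key (fun v => (Φ v).im)

end

/-- the cosine of the Frobenius angle -/
noncomputable def cosf (p : ℕ) (s t : ZMod p) : ℝ :=
  (((p : ℤ) - Nat.card {P : ZMod p × ZMod p // P.2 ^ 2 = P.1 ^ 3 + s * P.1 + t} : ℤ) : ℝ) / (2 * Real.sqrt p)

lemma cosf_eq (p : ℕ) [Fact p.Prime] (s t : ZMod p) : cosf p s t = ((tq s t : ℤ) : ℝ) / (2 * Real.sqrt p) := by
  unfold cosf tq
  rw [Nat.card_zmod]

lemma tq_char2 {k : Type} [Field k] [Finite k] (h : ringChar k = 2) (s t : k) : tq s t = 0 := by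
  have hch : CharP k 2 := by
    rw [← h]
    exact ringChar.charP k
  unfold tq
  have h1 : Nat.card {P : k × k // P.2 ^ 2 = P.1 ^ 3 + s * P.1 + t} = Nat.card k := by
    apply Nat.card_congr
    refine Equiv.ofBijective (fun P => P.1.1) ⟨?_, ?_⟩
    · rintro ⟨⟨X, Y⟩, hP⟩ ⟨⟨X', Y'⟩, hP'⟩ hX
      have hX' : X = X' := hX
      subst hX'
      have h2 : Y ^ 2 = Y' ^ 2 := by
        have h3 : Y ^ 2 = X ^ 3 + s * X + t := hP
        have h4 : Y' ^ 2 = X ^ 3 + s * X + t := hP'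
        rw [h3, h4]
      have h3 : (Y - Y') ^ 2 = 0 := by
        rw [sub_pow_char, h2, sub_self]
      have h4 : Y = Y' := sub_eq_zero.1 (pow_eq_zero_iff (two_ne_zero) |>.1 h3)
      subst h4
      rfl
    · intro X
      obtain ⟨Y, hY⟩ := FiniteField.isSquare_of_char_two h (X ^ 3 + s * X + t)
      exact ⟨⟨(X, Y), by show Y ^ 2 = X ^ 3 + s * X + t; rw [hY, sq]⟩, rfl⟩
  rw [h1, sub_self]

lemma tq_two (p : ℕ) (hp : p.Prime) (h2 : p = 2) (s t : ZMod p) : haveI : Fact p.Prime := ⟨hp⟩; tq s t = 0 := by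
  have hf : Fact p.Prime := ⟨hp⟩
  apply tq_char2
  rw [ZMod.ringChar_zmod_n]
  exact h2

lemma cosf_le (p : ℕ) (hp : p.Prime) (s t : ZMod p) : |cosf p s t| ≤ 1 := by
  have hf : Fact p.Prime := ⟨hp⟩
  have hs : 0 < Real.sqrt p := Real.sqrt_pos.2 (by exact_mod_cast hp.pos)
  rw [cosf_eq, abs_div, abs_of_pos (by positivity : (0 : ℝ) < 2 * Real.sqrt p), div_le_one (by positivity)]
  by_cases h2 : p = 2
  · rw [tq_two p hp h2 s t]
    simp
  · have h3 : ringChar (ZMod p) ≠ 2 := by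
      rw [ZMod.ringChar_zmod_n]
      exact h2
    have := tq_bound h3 s t
    rwa [Nat.card_zmod] at this

section
variable {d s : ℕ} (a b : Fin s → Fin d → ℤ) (k : Fin s → ℕ)

/-- the linear forms -/
def lin {d : ℕ} (a : Fin d → ℤ) (p : ℕ) (m : Fin d → ℕ) : ZMod p := ∑ l, (m l : ZMod p) * (a l : ZMod p)

/-- the eigenvalues -/
noncomputable def eig (p : ℕ) (m : Fin d → ℕ) (ν : Fin s → ℕ) : ℂ :=
  ∏ i, (ev (cosf p (lin (a i) p m) (lin (b i) p m)) ^ (k i - ν i) *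
    (starRingEnd ℂ) (ev (cosf p (lin (a i) p m) (lin (b i) p m))) ^ ν i)

/-- the Euler factor -/
noncomputable def fac (p : ℕ) (m : Fin d → ℕ) : PowerSeries ℂ :=
  ∏ ν ∈ Fintype.piFinset (fun i => range (k i + 1)), geo (eig a b k p m ν)

lemma lin_mod (a : Fin d → ℤ) (p : ℕ) (m : Fin d → ℕ) : lin a p m = lin a p (fun i => m i % p) := by
  unfold lin
  apply sum_congr rfl
  intro l _
  rw [ZMod.natCast_mod]

lemma eig_norm (p : ℕ) (hp : p.Prime) (m : Fin d → ℕ) (ν : Fin s → ℕ) : ‖eig a b k p m ν‖ = 1 := by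
  unfold eig
  rw [norm_prod]
  apply prod_eq_one
  intro i _
  rw [norm_mul, norm_pow, norm_pow, RCLike.norm_conj, ev_norm _ (cosf_le p hp _ _), one_pow, one_pow, one_mul]

lemma fac_loc (R : ℕ) (hR : ∏ i, (k i + 1) ≤ R) (i₀ : Fin s) (hk : Odd (k i₀)) (l₀ l₁ : Fin d) (ha0 : a i₀ l₀ = 1) (hb0 : b i₀ l₀ = 0)
    (ha1 : a i₀ l₁ = 0) (hb1 : b i₀ l₁ = 1) (h : ∀ i, i ≠ i₀ → a i l₀ = 0 ∧ b i l₀ = 0 ∧ a i l₁ = 0 ∧ b i l₁ = 0) (L : ℕ) (hL : 2 ∣ L) :
    Loc d L R (fac a b k) where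
  per p _ m := by
    unfold fac eig
    simp only [← lin_mod]
  one p _ m := by
    unfold fac
    apply coeff_zero_prod
    intro ν _
    rw [geo_coeff, pow_zero]
  bnd p hp m j := by
    unfold fac
    refine (coeff_prod_bound _ _ 0 (fun ν _ j => ?_) j).trans ?_
    · rw [geo_coeff, norm_pow, eig_norm a b k p hp, one_pow, pow_zero]
    · rw [Fintype.card_piFinset]
      simp only [card_range, zero_add, one_mul]
      apply pow_le_pow_right₀ _ hR
      have : (0 : ℝ) ≤ j := Nat.cast_nonneg j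
      linarith
  mean p hp hpL := by
    have hf : Fact p.Prime := ⟨hp⟩
    have h2 : p ≠ 2 := by
      rintro rfl
      exact hpL hL
    obtain ⟨G, hG⟩ : ∃ G : (Fin d → ZMod p) → ℂ, G = fun v => ∏ i ∈ univ.erase i₀, sy (k i) (cosf p (lf (fun l => (a i l : ZMod p)) v) (lf (fun l => (b i l : ZMod p)) v)) := ⟨_, rfl⟩
    have e1 : ∀ m ∈ box d p, PowerSeries.coeff 1 (fac a b k p m) =
        (fun v : Fin d → ZMod p => G v * sy (k i₀) (cosf p (lf (fun l => (a i₀ l : ZMod p)) v) (lf (fun l => (b i₀ l : ZMod p)) v))) (fun i => (m i : ZMod p)) := by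
      intro m _
      unfold fac
      rw [coeff_one_prod _ _ (fun ν _ => by rw [geo_coeff, pow_zero])]
      have e2 : ∀ ν ∈ Fintype.piFinset (fun i => range (k i + 1)), PowerSeries.coeff 1 (geo (eig a b k p m ν)) = eig a b k p m ν :=
        fun ν _ => by rw [geo_coeff, pow_one]
      rw [sum_congr rfl e2]
      unfold eig
      rw [← Finset.prod_univ_sum (fun i => range (k i + 1)) (fun i j => ev (cosf p (lin (a i) p m) (lin (b i) p m)) ^ (k i - j) *
        (starRingEnd ℂ) (ev (cosf p (lin (a i) p m) (lin (b i) p m))) ^ j)]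
      rw [hG, ← prod_erase_mul univ _ (mem_univ i₀)]
      rfl
    rw [sum_congr rfl e1, box_zmod d (fun v : Fin d → ZMod p => G v * sy (k i₀) (cosf p (lf (fun l => (a i₀ l : ZMod p)) v) (lf (fun l => (b i₀ l : ZMod p)) v)))]
    have hΨ : ∑ z : ZMod p × ZMod p, sy (k i₀) (cosf p z.1 z.2) = 0 := by
      have e3 : ∀ z : ZMod p × ZMod p, sy (k i₀) (cosf p z.1 z.2) = (fun n : ℤ => sy (k i₀) ((n : ℝ) / (2 * Real.sqrt p))) (tq z.1 z.2) := by
        intro z
        rw [cosf_eq]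
      rw [sum_congr rfl (fun z _ => e3 z)]
      exact sum_odd' h2 (fun n : ℤ => sy (k i₀) ((n : ℝ) / (2 * Real.sqrt p))) (fun n => by
        show sy (k i₀) (((-n : ℤ) : ℝ) / (2 * Real.sqrt p)) = -sy (k i₀) ((n : ℝ) / (2 * Real.sqrt p))
        rw [Int.cast_neg, neg_div, sy_odd _ hk])
    refine sum_twoG (lf (fun l => (a i₀ l : ZMod p))) (lf (fun l => (b i₀ l : ZMod p))) (Pi.single l₀ 1) (Pi.single l₁ 1) ?_ ?_ ?_ ?_ G ?_
      (fun x y => sy (k i₀) (cosf p x y)) hΨ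
    · rw [lf_single, ha0, Int.cast_one]
    · rw [lf_single, hb0, Int.cast_zero]
    · rw [lf_single, ha1, Int.cast_zero]
    · rw [lf_single, hb1, Int.cast_one]
    · intro m x y
      rw [hG]
      apply prod_congr rfl
      intro i hi
      obtain ⟨h3, h4, h5, h6⟩ := h i (ne_of_mem_erase hi)
      simp only [map_add, map_smul, lf_single, h3, h4, h5, h6, Int.cast_zero, smul_zero, add_zero]

end

end Pool.Agent.X22.SP
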