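import Pool.Agent.X22.EQ4
import Pool.Agent.Helper923.HMertens
import Pool.Agent.X22.SP

set_option autoImplicit false

/-! Sums over primes at the central point: main terms, and the means of functions of the trace of Frobenius. -/

namespace Pool.Agent.X22.EQ
open Finset Filter
open Pool.Agent.TH894.ND Pool.Agent.TH894.NE
open Pool.Agent.TH894.SM (change change_eq)
open Pool.Agent.X22.EC (tq tq_eq)

/-- the logarithm of `log x / log y` -/
noncomputable def la (y x : ℕ) : ℝ := Real.log (Real.log x / Real.log y)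

lemma la_nonneg (y x : ℕ) (hy : 2 ≤ y) (hx : y ≤ x) : 0 ≤ la y x := by
  unfold la
  apply Real.log_nonneg
  have h1 : 0 < Real.log y := Real.log_pos (by exact_mod_cast (by omega : 1 < y))
  rw [one_le_div h1]
  exact Real.log_le_log (by exact_mod_cast (by omega : 0 < y)) (by exact_mod_cast hx)

lemma hs_la : ∃ C : ℝ, 0 ≤ C ∧ ∀ y x : ℕ, 3 ≤ y → y ≤ x → |hs y x - la y x| ≤ C := by
  obtain ⟨C, hC, h⟩ := Pool.Agent.Helper923.HMertens.mertens_ratio
  refine ⟨C, hC, fun y x hy hx => ?_⟩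
  have h1 := h y x (by omega) hx
  have h2 : (1 : ℝ) ≤ Real.log y := by
    rw [Real.le_log_iff_exp_le (by exact_mod_cast (by omega : 0 < y))]
    have h3 := Real.exp_one_lt_d9
    have h4 : (3 : ℝ) ≤ y := by exact_mod_cast hy
    linarith
  refine h1.trans ?_
  rw [div_le_iff₀ (by linarith)]
  nlinarith

lemma per_sub {d p : ℕ} (G : (Fin d → ℕ) → ℝ) (h : Per p G) (c : ℝ) : Per p (fun n => G n - c) := by
  intro n
  show G n - c = G (fun i => n i % p) - c
  rw [h n]

lemma abs_mean_le (d p : ℕ) (hp : 1 ≤ p) (G : (Fin d → ℕ) → ℝ) (B : ℝ) (h : ∀ n, |G n| ≤ B) : |mean d p G| ≤ B := by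
  rw [abs_le]
  constructor
  · have h1 := Pool.Agent.TH894.NE.mean_mono (d := d) (q := p) (F := fun _ => -B) (G := G) (fun n => (abs_le.1 (h n)).1)
    rw [mean_const d p hp] at h1
    exact h1
  · have h1 := Pool.Agent.TH894.NE.mean_mono (d := d) (q := p) (F := G) (G := fun _ => B) (fun n => (abs_le.1 (h n)).2)
    rw [mean_const d p hp] at h1
    exact h1

open Classical in
/-- **Sums over primes at the central point, with main terms.** -/
theorem central_main (b d A : ℕ) (hb : 2 ≤ b) (hd : 1 ≤ d) (δ : ℝ) (hδ : 0 < δ) (M B C₁ : ℝ) (hM : 0 ≤ M) (hB : 0 ≤ B) (hC₁ : 0 ≤ C₁) :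
    ∃ c : ℝ, 0 < c ∧ ∃ C : ℝ, 0 < C ∧ ∃ y₀ : ℕ,
    ∀ (K r : Fin d → ℕ) (y : ℕ), (∀ l, 2 * r l ≤ K l) → y₀ ≤ y →
    ∀ N : Fin d → ℕ, (∀ l, N l < b ^ K l) → ∀ f : Fin d → ℕ → ℕ, (∀ l j, f l j < b ∧ f l j ≠ N l / b ^ j % b) →
    ∀ (κ : Type) (L : Finset κ) (G : κ → ℕ → (Fin d → ℕ) → ℝ) (μ : κ → ℕ → ℝ),
    (∀ l ∈ L, ∀ p, p.Prime → y < p → Per p (G l p)) →
    (∀ l ∈ L, ∀ p, p.Prime → y < p → ∀ n, |G l p n| ≤ M / Real.sqrt p) →
    (∀ l ∈ L, ∀ p, p.Prime → y < p → |mean d p (G l p) - μ l p| ≤ B / (p : ℝ) ^ (3 / 2 : ℝ)) →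
    ∀ T : ℝ, 0 < T → ∀ E : (Fin d → ℕ) → Prop,
    (∀ m, (∀ x : ℕ, y ≤ x → (∀ i, Real.log x ^ 2 ≤ c * r i) → ∀ l ∈ L,
      |∑ p ∈ pin y x, (G l p m - μ l p)| + C₁ ≤ T * (1 + la y x) ^ (1 / 2 + δ)) → E m) →
      ((((Fintype.piFinset (fun l => powersetCard (r l) (range (K l)))).filter
        (fun S => ¬ E (fun l => change b (K l) (N l) (f l) (S l)))).card : ℕ) : ℝ) ≤ C * L.card / T ^ A * ∏ l, ((K l).choose (r l) : ℝ) := by
  obtain ⟨c, hc, C, hC, y₀, hlaw⟩ := central_law b d A hb hd δ hδ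
  obtain ⟨C₀, hC₀, hmer⟩ := hs_la
  obtain ⟨S₀, hS₀⟩ : ∃ S₀ : ℝ, S₀ = ∑' n : ℕ, 1 / (n : ℝ) ^ (3 / 2 : ℝ) := ⟨_, rfl⟩
  have hsum : Summable (fun n : ℕ => 1 / (n : ℝ) ^ (3 / 2 : ℝ)) := Real.summable_one_div_nat_rpow.2 (by norm_num)
  have hS₀0 : 0 ≤ S₀ := by rw [hS₀]; exact tsum_nonneg fun n => by positivity
  obtain ⟨Q, hQ⟩ : ∃ Q : ℝ, Q = 4 * M * (1 + C₀) ^ (1 / 2 + δ) + 2 * (B * S₀ + C₁) + 1 := ⟨_, rfl⟩
  have hQ1 : 1 ≤ Q := by
    rw [hQ]
    have : 0 ≤ 4 * M * (1 + C₀) ^ (1 / 2 + δ) + 2 * (B * S₀ + C₁) := by positivity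
    linarith
  have hQ0 : 0 < Q := by linarith
  have hQM : 4 * M * (1 + C₀) ^ (1 / 2 + δ) ≤ Q := by
    rw [hQ]
    have : 0 ≤ 2 * (B * S₀ + C₁) := by positivity
    linarith
  have hQB : 2 * (B * S₀ + C₁) ≤ Q := by
    rw [hQ]
    have : 0 ≤ 4 * M * (1 + C₀) ^ (1 / 2 + δ) := by positivity
    linarith
  refine ⟨c, hc, (C + 1) * Q ^ A, by positivity, y₀ + 3, fun K r y hrK hy N hN f hf κ L G μ hper hGM hGmean T hT E hE => ?_⟩
  obtain ⟨P, hP⟩ : ∃ P : ℝ, P = ∏ l, ((K l).choose (r l) : ℝ) := ⟨_, rfl⟩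
  have hP0 : 0 ≤ P := by rw [hP]; exact prod_nonneg fun i _ => Nat.cast_nonneg _
  obtain ⟨O, hO⟩ : ∃ O, O = Fintype.piFinset (fun l => powersetCard (r l) (range (K l))) := ⟨_, rfl⟩
  have hOP : (O.card : ℝ) = P := by
    rw [hO, hP, Fintype.card_piFinset]
    push_cast
    exact prod_congr rfl fun i _ => by rw [card_powersetCard, card_range]
  rw [← hO, ← hP]
  rcases L.eq_empty_or_nonempty with hL | hL
  · have h1 : O.filter (fun S => ¬ E (fun l => change b (K l) (N l) (f l) (S l))) = ∅ := by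
      rw [filter_eq_empty_iff]
      intro S _
      rw [not_not]
      apply hE
      intro x _ _ l hl
      rw [hL] at hl
      exact absurd hl (notMem_empty _)
    rw [h1, card_empty, Nat.cast_zero]
    positivity
  have hLc : (1 : ℝ) ≤ L.card := by exact_mod_cast hL.card_pos
  rcases lt_or_ge T Q with hTQ | hTQ
  · -- the trivial bound
    have h1 : (((O.filter (fun S => ¬ E (fun l => change b (K l) (N l) (f l) (S l)))).card : ℕ) : ℝ) ≤ P := by
      rw [← hOP]
      exact_mod_cast card_filter_le _ _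
    refine h1.trans ?_
    have h2 : 1 ≤ (C + 1) * Q ^ A * L.card / T ^ A := by
      rw [le_div_iff₀ (by positivity), one_mul]
      have h3 : T ^ A ≤ Q ^ A := pow_le_pow_left₀ hT.le hTQ.le A
      have h4 : 0 < Q ^ A := by positivity
      calc T ^ A ≤ 1 * Q ^ A * 1 := by linarith
        _ ≤ (C + 1) * Q ^ A * L.card := by
            apply mul_le_mul _ hLc (by norm_num) (by positivity)
            apply mul_le_mul_of_nonneg_right _ h4.le
            linarith
    calc P = 1 * P := (one_mul P).symm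
      _ ≤ _ := mul_le_mul_of_nonneg_right h2 hP0
  · have hT1 : 1 ≤ T / Q := by rw [le_div_iff₀ hQ0, one_mul]; exact hTQ
    obtain ⟨El, hEl⟩ : ∃ El : κ → (Fin d → ℕ) → Prop, El = fun l m => ∀ x : ℕ, y ≤ x → (∀ i, Real.log x ^ 2 ≤ c * r i) →
      |∑ p ∈ pin y x, (G l p m - μ l p)| + C₁ ≤ T * (1 + la y x) ^ (1 / 2 + δ) := ⟨_, rfl⟩
    have hone : ∀ l ∈ L, (((O.filter (fun S => ¬ El l (fun l => change b (K l) (N l) (f l) (S l)))).card : ℕ) : ℝ) ≤ C / (T / Q) ^ A * P := by
      intro l hl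
      rw [hO, hP]
      refine hlaw K r y hrK (by omega) N hN f hf (fun p m => G l p m - mean d p (G l p)) ?_ (2 * M) (by positivity) ?_ (T / Q) hT1 (El l) ?_
      · intro p hp hyp
        refine ⟨per_sub _ (hper l hl p hp hyp) _, ?_⟩
        have h1 : (fun m => G l p m - mean d p (G l p)) = fun m => G l p m + (fun _ : Fin d → ℕ => -mean d p (G l p)) m := by
          funext m
          ring
        rw [h1, Pool.Agent.TH894.NE.mean_add, mean_const d p hp.one_lt.le]
        ring
      · intro p hp hyp n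
        refine (abs_sub _ _).trans ?_
        have h1 := abs_mean_le d p hp.one_lt.le (G l p) _ (hGM l hl p hp hyp)
        have h2 := hGM l hl p hp hyp n
        calc |G l p n| + |mean d p (G l p)| ≤ M / Real.sqrt p + M / Real.sqrt p := add_le_add h2 h1
          _ = _ := by ring
      · intro m hm
        rw [hEl]
        intro x hx1 hx2
        have h1 := hm x hx1 hx2
        have hla0 := la_nonneg y x (by omega) hx1
        have hh := hmer y x (by omega) hx1
        have h2 : 1 + hs y x ≤ (1 + C₀) * (1 + la y x) := by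
          have := (abs_le.1 hh).2
          nlinarith
        have h3 : (1 + hs y x) ^ (1 / 2 + δ) ≤ (1 + C₀) ^ (1 / 2 + δ) * (1 + la y x) ^ (1 / 2 + δ) := by
          rw [← Real.mul_rpow (by positivity) (by positivity)]
          exact Real.rpow_le_rpow (by have := hs_nonneg y x; linarith) h2 (by positivity)
        have h4 : ∑ p ∈ pin y x, (G l p m - μ l p) = ∑ p ∈ pin y x, (G l p m - mean d p (G l p)) + ∑ p ∈ pin y x, (mean d p (G l p) - μ l p) := by
          rw [← sum_add_distrib]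
          exact sum_congr rfl fun p _ => by ring
        have h5 : |∑ p ∈ pin y x, (mean d p (G l p) - μ l p)| ≤ B * S₀ := by
          refine (abs_sum_le_sum_abs _ _).trans ?_
          have h6 : ∀ p ∈ pin y x, |mean d p (G l p) - μ l p| ≤ B * (1 / (p : ℝ) ^ (3 / 2 : ℝ)) := by
            intro p hp
            rw [mem_pin] at hp
            refine (hGmean l hl p hp.2 hp.1.1).trans (le_of_eq (by ring))
          refine (sum_le_sum h6).trans ?_
          rw [← mul_sum, hS₀]
          exact mul_le_mul_of_nonneg_left (hsum.sum_le_tsum _ fun n _ => by positivity) hB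
        have h7 : (1 : ℝ) ≤ (1 + la y x) ^ (1 / 2 + δ) := Real.one_le_rpow (by linarith) (by positivity)
        rw [h4]
        refine (add_le_add_left (abs_add_le _ _) C₁).trans ?_
        have h8 : T / Q * (2 * M) * (1 + hs y x) ^ (1 / 2 + δ) ≤ T / 2 * (1 + la y x) ^ (1 / 2 + δ) := by
          calc T / Q * (2 * M) * (1 + hs y x) ^ (1 / 2 + δ) ≤ T / Q * (2 * M) * ((1 + C₀) ^ (1 / 2 + δ) * (1 + la y x) ^ (1 / 2 + δ)) :=
                mul_le_mul_of_nonneg_left h3 (by positivity)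
            _ = T / (2 * Q) * (4 * M * (1 + C₀) ^ (1 / 2 + δ)) * (1 + la y x) ^ (1 / 2 + δ) := by field_simp; ring
            _ ≤ T / (2 * Q) * Q * (1 + la y x) ^ (1 / 2 + δ) := by
                apply mul_le_mul_of_nonneg_right _ (by positivity)
                exact mul_le_mul_of_nonneg_left hQM (by positivity)
            _ = _ := by field_simp
        have h9 : B * S₀ + C₁ ≤ T / 2 * (1 + la y x) ^ (1 / 2 + δ) := by
          calc B * S₀ + C₁ ≤ T / 2 := by linarith
            _ = T / 2 * 1 := (mul_one _).symm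
            _ ≤ _ := mul_le_mul_of_nonneg_left h7 (by positivity)
        linarith
    have hsub : O.filter (fun S => ¬ E (fun l => change b (K l) (N l) (f l) (S l))) ⊆
        L.biUnion (fun l => O.filter (fun S => ¬ El l (fun l => change b (K l) (N l) (f l) (S l)))) := by
      intro S hS
      rw [mem_filter] at hS
      rw [mem_biUnion]
      by_contra hcon
      push Not at hcon
      apply hS.2
      apply hE
      intro x hx1 hx2 l hl
      have h1 := hcon l hl
      rw [mem_filter, not_and, not_not] at h1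
      have h2 := h1 hS.1
      rw [hEl] at h2
      exact h2 x hx1 hx2
    have h1 := (card_le_card hsub).trans card_biUnion_le
    have h2 : (((O.filter (fun S => ¬ E (fun l => change b (K l) (N l) (f l) (S l)))).card : ℕ) : ℝ) ≤ ∑ l ∈ L, C / (T / Q) ^ A * P := by
      refine le_trans ?_ (sum_le_sum hone)
      exact_mod_cast h1
    refine h2.trans ?_
    rw [sum_const, nsmul_eq_mul]
    have hTA : 0 < T ^ A := by positivity
    have hQA : 0 < Q ^ A := by positivity
    calc (L.card : ℝ) * (C / (T / Q) ^ A * P) = C * Q ^ A * L.card / T ^ A * P := by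
          rw [div_pow]
          field_simp
      _ ≤ (C + 1) * Q ^ A * L.card / T ^ A * P := by
          apply mul_le_mul_of_nonneg_right _ hP0
          apply div_le_div_of_nonneg_right _ hTA.le
          apply mul_le_mul_of_nonneg_right _ (by positivity)
          apply mul_le_mul_of_nonneg_right _ hQA.le
          linarith

end Pool.Agent.X22.EQ
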