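import Pool.Agent.X22.EQ14
import Pool.Agent.X22.EQ5

set_option autoImplicit false

/-! The normal law for general sums over primes over few-digit changes. -/

namespace Pool.Agent.X22.EQ
open Finset Filter
open Pool.Agent.TH894.ND Pool.Agent.TH894.NE
open Pool.Agent.TH894.SM (change change_eq)

/-- **The normal law for general sums over primes.** -/
theorem clt_gen (b d : ℕ) (hb : 2 ≤ b) (hd : 1 ≤ d) (A B C₂ ε : ℝ) (hA : 1 ≤ A) (hB : 0 ≤ B) (hC₂ : 0 ≤ C₂) (hε : 0 < ε) : ∃ c : ℝ, 0 < c ∧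
    ∀ (r K : Fin d → ℕ) (y x : ℕ), (∀ i, 2 * r i ≤ K i) → b * b ≤ y → (∀ i, Real.log x ^ 2 ≤ c * r i) →
    ∀ N : Fin d → ℕ, (∀ i, N i < b ^ K i) → ∀ f : Fin d → ℕ → ℕ, (∀ i j, f i j < b ∧ f i j ≠ N i / b ^ j % b) →
    ∀ (μ v : ℕ → ℝ), (∀ p, 0 ≤ v p ∧ v p ≤ A ^ 2) → ∀ l : ℝ, |l - ∑ p ∈ pin y x, v p / p| ≤ C₂ → 1 / c ≤ l → ∀ z : ℝ, |z - ∑ p ∈ pin y x, μ p| ≤ C₂ →
    ∀ G : ℕ → (Fin d → ℕ) → ℝ, (∀ p, p.Prime → y < p → Per p (G p)) → (∀ p, p.Prime → y < p → ∀ n, |G p n| ≤ A * Real.sqrt (v p) / Real.sqrt p + B / p) →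
    (∀ p, p.Prime → y < p → |mean d p (G p) - μ p| ≤ B / (p : ℝ) ^ (3 / 2 : ℝ)) → (∀ p, p.Prime → y < p → |μ p| ≤ B / p) →
    (∀ p, p.Prime → y < p → |mean d p (fun n => G p n ^ 2) - v p / p| ≤ B / (p : ℝ) ^ (3 / 2 : ℝ)) →
    ∀ Z : (Fin d → ℕ) → ℝ, (∀ m, |Z m - ∑ p ∈ pin y x, G p m| ≤ C₂) → ∀ t : ℝ,
    |(((Fintype.piFinset (fun i => powersetCard (r i) (range (K i)))).filter
      (fun S => (Z (fun i => change b (K i) (N i) (f i) (S i)) - z) / Real.sqrt l ≤ t)).card : ℝ) -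
      Phi t * ∏ i, ((K i).choose (r i) : ℝ)| ≤ ε * ∏ i, ((K i).choose (r i) : ℝ) := by
  classical
  obtain ⟨S₀, hS₀⟩ : ∃ S₀ : ℝ, S₀ = ∑' n : ℕ, 1 / (n : ℝ) ^ (3 / 2 : ℝ) := ⟨_, rfl⟩
  have hsum : Summable (fun n : ℕ => 1 / (n : ℝ) ^ (3 / 2 : ℝ)) := Real.summable_one_div_nat_rpow.2 (by norm_num)
  have hS₀0 : 0 ≤ S₀ := by rw [hS₀]; exact tsum_nonneg fun n => by positivity
  have hA0 : 0 ≤ A := by linarith
  obtain ⟨V, hV⟩ : ∃ V : ℝ, V = 8 * (A ^ 2 * (1 + C₂) + B ^ 2 * S₀) := ⟨_, rfl⟩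
  have hV0 : 0 ≤ V := by rw [hV]; positivity
  obtain ⟨c₁, hc₁, key⟩ := few_clt b d hb hd V ε hV0 hε
  obtain ⟨B₁, hB₁⟩ : ∃ B₁ : ℝ, B₁ = (B + (2 * B) ^ 2) * S₀ + C₂ := ⟨_, rfl⟩
  have hB₁0 : 0 ≤ B₁ := by rw [hB₁]; positivity
  obtain ⟨B₂, hB₂⟩ : ∃ B₂ : ℝ, B₂ = B * S₀ + 2 * C₂ := ⟨_, rfl⟩
  have hB₂0 : 0 ≤ B₂ := by rw [hB₂]; positivity
  obtain ⟨B₃, hB₃⟩ : ∃ B₃ : ℝ, B₃ = 2 * (A * A + B) := ⟨_, rfl⟩
  have hB₃0 : 0 ≤ B₃ := by rw [hB₃]; positivity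
  -- the required size of `l`
  obtain ⟨Λ, hΛ⟩ : ∃ Λ : ℝ, Λ = 1 + (B₃ / c₁) ^ 2 + B₁ / c₁ + (B₂ / c₁) ^ 2 + C₂ + A ^ 2 / c₁ := ⟨_, rfl⟩
  have hΛ1 : 1 ≤ Λ := by
    rw [hΛ]
    have : 0 ≤ (B₃ / c₁) ^ 2 + B₁ / c₁ + (B₂ / c₁) ^ 2 + C₂ + A ^ 2 / c₁ := by positivity
    linarith
  have hΛ0 : 0 < Λ := by linarith
  refine ⟨min c₁ (1 / Λ), lt_min hc₁ (by positivity), fun r K y x hrK hby hxr N hN f hf μ v hv l hl hla z hz G hper hGM hG1 hμ hG2 Z hZ t => ?_⟩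
  have hlΛ : Λ ≤ l := by
    refine le_trans ?_ hla
    rw [le_div_iff₀ (lt_min hc₁ (by positivity))]
    calc Λ * min c₁ (1 / Λ) ≤ Λ * (1 / Λ) := mul_le_mul_of_nonneg_left (min_le_right _ _) hΛ0.le
      _ = 1 := by field_simp
  have hl0 : 0 < l := by linarith
  have hl1 : 1 ≤ l := by linarith
  have hp2 : 0 ≤ (B₃ / c₁) ^ 2 := by positivity
  have hp3 : 0 ≤ B₁ / c₁ := by positivity
  have hp4 : 0 ≤ (B₂ / c₁) ^ 2 := by positivity
  have hp5 : 0 ≤ A ^ 2 / c₁ := by positivity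
  have hl2 : A ^ 2 / c₁ + C₂ ≤ l := by rw [hΛ] at hlΛ; linarith
  have hl3 : (B₃ / c₁) ^ 2 ≤ l := by rw [hΛ] at hlΛ; linarith
  have hl4 : B₁ / c₁ ≤ l := by rw [hΛ] at hlΛ; linarith
  have hl5 : (B₂ / c₁) ^ 2 ≤ l := by rw [hΛ] at hlΛ; linarith
  obtain ⟨s, hse⟩ : ∃ s : ℝ, s = Real.sqrt l := ⟨_, rfl⟩
  have hs0 : 0 < s := by rw [hse]; exact Real.sqrt_pos.2 hl0
  have hss : s ^ 2 = l := by rw [hse]; exact Real.sq_sqrt hl0.le
  have hsM : B₃ / s ≤ c₁ := by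
    rw [div_le_iff₀ hs0]
    have h1 : B₃ / c₁ ≤ s := by
      rw [hse]
      exact Real.le_sqrt_of_sq_le hl3
    rw [div_le_iff₀ hc₁] at h1
    linarith
  have hsB : B₂ / s ≤ c₁ := by
    rw [div_le_iff₀ hs0]
    have h1 : B₂ / c₁ ≤ s := by
      rw [hse]
      exact Real.le_sqrt_of_sq_le hl5
    rw [div_le_iff₀ hc₁] at h1
    linarith
  have hsB1 : B₁ / l ≤ c₁ := by
    rw [div_le_iff₀ hl0]
    rw [div_le_iff₀ hc₁] at hl4
    linarith
  have hpin : ∀ p ∈ pin y x, p.Prime ∧ y < p ∧ p ≤ x := by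
    intro p hp
    rw [mem_pin] at hp
    exact ⟨hp.2, hp.1.1, hp.1.2⟩
  obtain ⟨W, hW⟩ : ∃ W : ℝ, W = ∑ p ∈ pin y x, v p / (p : ℝ) := ⟨_, rfl⟩
  rw [← hW] at hl
  have hWl : W ≤ (1 + C₂) * l := by
    have := (abs_le.1 hl).1
    nlinarith
  -- the size of `x`
  have hx1 : 1 / c₁ ≤ (x : ℝ) := by
    have h1 : W ≤ A ^ 2 * x := by
      rw [hW]
      have h2 : ∀ p ∈ pin y x, v p / (p : ℝ) ≤ A ^ 2 := by
        intro p hp
        have h3 : (1 : ℝ) ≤ p := by exact_mod_cast (hpin p hp).1.one_lt.le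
        exact (div_le_self (hv p).1 h3).trans (hv p).2
      refine (sum_le_sum h2).trans ?_
      rw [sum_const, nsmul_eq_mul, mul_comm]
      apply mul_le_mul_of_nonneg_left _ (by positivity)
      have h4 : (pin y x).card ≤ x := by
        unfold pin
        refine (card_filter_le _ _).trans ?_
        rw [Nat.card_Ioc]
        omega
      exact_mod_cast h4
    have h2 : A ^ 2 / c₁ ≤ A ^ 2 * x := by
      have := (abs_le.1 hl).2
      linarith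
    have h3 : A ^ 2 * (1 / c₁) ≤ A ^ 2 * x := by
      calc A ^ 2 * (1 / c₁) = A ^ 2 / c₁ := by ring
        _ ≤ _ := h2
    exact le_of_mul_le_mul_left h3 (by positivity)
  obtain ⟨F, hF⟩ : ∃ F : ℕ → (Fin d → ℕ) → ℝ, F = fun p m => (1 / s) * (G p m - mean d p (G p)) := ⟨_, rfl⟩
  obtain ⟨Mp, hMp⟩ : ∃ Mp : ℕ → ℝ, Mp = fun p : ℕ => 2 * (A * Real.sqrt (v p) / Real.sqrt (p : ℝ) + B / p) / s := ⟨_, rfl⟩
  have hq : ∀ p ∈ pin y x, 1 ≤ p ∧ p ≤ x ∧ Nat.Coprime p (b * b).factorial := by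
    intro p hp
    obtain ⟨h1, h2, h3⟩ := hpin p hp
    refine ⟨h1.one_lt.le, h3, ?_⟩
    rw [Nat.Prime.coprime_iff_not_dvd h1, h1.dvd_factorial]
    omega
  have hcop : ∀ p ∈ pin y x, ∀ p' ∈ pin y x, p ≠ p' → Nat.Coprime p p' :=
    fun p hp p' hp' hne => (Nat.coprime_primes (hpin p hp).1 (hpin p' hp').1).2 hne
  have hF0 : ∀ p ∈ pin y x, Per p (F p) ∧ mean d p (F p) = 0 := by
    intro p hp
    obtain ⟨h1, h2, h3⟩ := hpin p hp
    constructor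
    · intro m
      rw [hF]
      show 1 / s * (G p m - mean d p (G p)) = 1 / s * (G p (fun i => m i % p) - mean d p (G p))
      rw [← hper p h1 h2 m]
    · rw [hF]
      show mean d p (fun m => 1 / s * (G p m - mean d p (G p))) = 0
      rw [mean_mul]
      have h4 : (fun m => G p m - mean d p (G p)) = fun m => G p m + (fun _ : Fin d → ℕ => -mean d p (G p)) m := by
        funext m
        ring
      rw [h4, Pool.Agent.TH894.NE.mean_add, mean_const d p h1.one_lt.le]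
      ring
  have hFM : ∀ p ∈ pin y x, ∀ m, |F p m| ≤ Mp p := by
    intro p hp m
    obtain ⟨h1, h2, h3⟩ := hpin p hp
    have h4 : |G p m - mean d p (G p)| ≤ 2 * (A * Real.sqrt (v p) / Real.sqrt (p : ℝ) + B / p) := by
      refine (abs_sub _ _).trans ?_
      have h5 := abs_mean_le d p h1.one_lt.le (G p) _ (hGM p h1 h2)
      have h6 := hGM p h1 h2 m
      linarith
    rw [hF, hMp]
    show |1 / s * (G p m - mean d p (G p))| ≤ 2 * (A * Real.sqrt (v p) / Real.sqrt (p : ℝ) + B / p) / s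
    rw [abs_mul, abs_of_pos (by positivity : 0 < 1 / s)]
    calc 1 / s * |G p m - mean d p (G p)| ≤ 1 / s * (2 * (A * Real.sqrt (v p) / Real.sqrt (p : ℝ) + B / p)) := mul_le_mul_of_nonneg_left h4 (by positivity)
      _ = _ := by ring
  have hMc : ∀ p ∈ pin y x, Mp p ≤ c₁ := by
    intro p hp
    obtain ⟨h1, h2, h3⟩ := hpin p hp
    have hpr : (1 : ℝ) ≤ p := by exact_mod_cast h1.one_lt.le
    rw [hMp]
    refine le_trans (div_le_div_of_nonneg_right ?_ hs0.le) hsM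
    rw [hB₃]
    apply mul_le_mul_of_nonneg_left _ (by norm_num)
    have h4 : Real.sqrt (v p) ≤ A := Real.sqrt_le_iff.2 ⟨hA0, (hv p).2⟩
    have h5 : A * Real.sqrt (v p) / Real.sqrt (p : ℝ) ≤ A * A := by
      refine (div_le_self (by positivity) (Real.one_le_sqrt.2 hpr)).trans ?_
      exact mul_le_mul_of_nonneg_left h4 hA0
    have h6 : B / (p : ℝ) ≤ B := div_le_self hB hpr
    linarith
  have hS32 : ∀ (g : ℕ → ℝ) (R : ℝ), 0 ≤ R → (∀ p ∈ pin y x, |g p| ≤ R / (p : ℝ) ^ (3 / 2 : ℝ)) → |∑ p ∈ pin y x, g p| ≤ R * S₀ := by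
    intro g R hR hg
    refine (abs_sum_le_sum_abs _ _).trans ?_
    have h6 : ∀ p ∈ pin y x, |g p| ≤ R * (1 / (p : ℝ) ^ (3 / 2 : ℝ)) := fun p hp => (hg p hp).trans (le_of_eq (by ring))
    refine (sum_le_sum h6).trans ?_
    rw [← mul_sum, hS₀]
    exact mul_le_mul_of_nonneg_left (hsum.sum_le_tsum _ fun n _ => by positivity) hR
  have hMV : ∑ p ∈ pin y x, Mp p ^ 2 ≤ V := by
    have h1 : ∀ p ∈ pin y x, Mp p ^ 2 ≤ (8 / l) * (A ^ 2 * (v p / p)) + (8 / l) * (B ^ 2 / (p : ℝ) ^ 2) := by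
      intro p _
      rw [hMp]
      show (2 * (A * Real.sqrt (v p) / Real.sqrt (p : ℝ) + B / p) / s) ^ 2 ≤ _
      rw [div_pow, hss, mul_pow]
      obtain ⟨α, hα⟩ : ∃ α : ℝ, α = A * Real.sqrt (v p) / Real.sqrt (p : ℝ) := ⟨_, rfl⟩
      obtain ⟨β, hβ⟩ : ∃ β : ℝ, β = B / (p : ℝ) := ⟨_, rfl⟩
      have h2 : α ^ 2 = A ^ 2 * (v p / p) := by
        rw [hα, div_pow, mul_pow, Real.sq_sqrt (hv p).1, Real.sq_sqrt (Nat.cast_nonneg _)]
        ring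
      have h3 : β ^ 2 = B ^ 2 / (p : ℝ) ^ 2 := by rw [hβ, div_pow]
      rw [← hα, ← hβ, ← h2, ← h3]
      have h4 : 8 / l * α ^ 2 + 8 / l * β ^ 2 = (8 * (α ^ 2 + β ^ 2)) / l := by ring
      rw [h4]
      apply div_le_div_of_nonneg_right _ hl0.le
      nlinarith [sq_nonneg (α - β)]
    refine (sum_le_sum h1).trans ?_
    rw [sum_add_distrib, ← mul_sum, ← mul_sum, ← mul_sum, ← hW]
    have h2 : ∑ p ∈ pin y x, B ^ 2 / (p : ℝ) ^ 2 ≤ B ^ 2 * S₀ := by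
      have h3 := hS32 (fun p => B ^ 2 / (p : ℝ) ^ 2) (B ^ 2) (by positivity) (fun p hp => by
        have hpr : (1 : ℝ) ≤ p := by exact_mod_cast (hpin p hp).1.one_lt.le
        rw [abs_of_nonneg (by positivity)]
        apply div_le_div_of_nonneg_left (by positivity) (by positivity)
        calc (p : ℝ) ^ (3 / 2 : ℝ) ≤ (p : ℝ) ^ (2 : ℝ) := Real.rpow_le_rpow_of_exponent_le hpr (by norm_num)
          _ = _ := by norm_num)
      exact (le_abs_self _).trans h3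
    have h4 : 8 / l * (A ^ 2 * W) ≤ 8 * (A ^ 2 * (1 + C₂)) := by
      calc 8 / l * (A ^ 2 * W) ≤ 8 / l * (A ^ 2 * ((1 + C₂) * l)) := by gcongr
        _ = _ := by field_simp
    have h5 : 8 / l * ∑ p ∈ pin y x, B ^ 2 / (p : ℝ) ^ 2 ≤ 8 * (B ^ 2 * S₀) := by
      calc 8 / l * ∑ p ∈ pin y x, B ^ 2 / (p : ℝ) ^ 2 ≤ 8 / 1 * (B ^ 2 * S₀) := by gcongr
        _ = _ := by ring
    rw [hV]
    linarith
  have hm1 : ∀ p ∈ pin y x, |mean d p (G p)| ≤ 2 * B / p := by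
    intro p hp
    obtain ⟨h1, h2, h3⟩ := hpin p hp
    have hpr : (1 : ℝ) ≤ p := by exact_mod_cast h1.one_lt.le
    have h4 := hG1 p h1 h2
    have h5 : B / (p : ℝ) ^ (3 / 2 : ℝ) ≤ B / p := by
      apply div_le_div_of_nonneg_left hB (by linarith)
      calc (p : ℝ) = (p : ℝ) ^ (1 : ℝ) := (Real.rpow_one _).symm
        _ ≤ _ := Real.rpow_le_rpow_of_exponent_le hpr (by norm_num)
    have h6 := hμ p h1 h2
    have h7 : mean d p (G p) = (mean d p (G p) - μ p) + μ p := by ring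
    rw [h7]
    refine (abs_add_le _ _).trans ?_
    have h8 : 2 * B / (p : ℝ) = B / p + B / p := by ring
    rw [h8]
    linarith
  have hvar : |∑ p ∈ pin y x, mean d p (fun m => F p m ^ 2) - 1| ≤ c₁ := by
    have h1 : ∀ p ∈ pin y x, mean d p (fun m => F p m ^ 2) = (1 / l) * (v p / p) +
        (1 / l) * ((mean d p (fun m => G p m ^ 2) - v p / p) - mean d p (G p) ^ 2) := by
      intro p hp
      obtain ⟨h1, h2, h3⟩ := hpin p hp
      have h4 : (fun m => F p m ^ 2) = fun m => (fun m => (1 / l) * G p m ^ 2) m +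
          (fun m => (fun m => (-(2 * mean d p (G p)) / l) * G p m) m + (fun _ : Fin d → ℕ => mean d p (G p) ^ 2 / l) m) m := by
        funext m
        rw [hF]
        show (1 / s * (G p m - mean d p (G p))) ^ 2 = 1 / l * G p m ^ 2 + (-(2 * mean d p (G p)) / l * G p m + mean d p (G p) ^ 2 / l)
        rw [mul_pow, div_pow, hss]
        ring
      rw [h4, Pool.Agent.TH894.NE.mean_add, Pool.Agent.TH894.NE.mean_add, mean_const d p h1.one_lt.le, mean_mul, mean_mul]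
      ring
    rw [sum_congr rfl h1, sum_add_distrib, ← mul_sum, ← mul_sum, ← hW]
    obtain ⟨R, hR⟩ : ∃ R : ℝ, R = ∑ p ∈ pin y x, ((mean d p (fun m => G p m ^ 2) - v p / p) - mean d p (G p) ^ 2) := ⟨_, rfl⟩
    have hRb : |R| ≤ (B + (2 * B) ^ 2) * S₀ := by
      rw [hR]
      apply hS32 _ _ (by positivity)
      intro p hp
      obtain ⟨h1, h2, h3⟩ := hpin p hp
      have hpr : (1 : ℝ) ≤ p := by exact_mod_cast h1.one_lt.le
      refine (abs_sub _ _).trans ?_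
      have h4 := hG2 p h1 h2
      have h5 : |mean d p (G p) ^ 2| ≤ (2 * B) ^ 2 / (p : ℝ) ^ (3 / 2 : ℝ) := by
        rw [abs_pow]
        calc |mean d p (G p)| ^ 2 ≤ (2 * B / p) ^ 2 := pow_le_pow_left₀ (abs_nonneg _) (hm1 p hp) 2
          _ = (2 * B) ^ 2 / (p : ℝ) ^ 2 := by rw [div_pow]
          _ ≤ _ := by
              apply div_le_div_of_nonneg_left (by positivity) (by positivity)
              calc (p : ℝ) ^ (3 / 2 : ℝ) ≤ (p : ℝ) ^ (2 : ℝ) := Real.rpow_le_rpow_of_exponent_le hpr (by norm_num)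
                _ = _ := by norm_num
      rw [add_div]
      exact add_le_add h4 h5
    rw [← hR]
    have h3 : 1 / l * W + 1 / l * R - 1 = (-(l - W) + R) / l := by
      field_simp
      ring
    rw [h3, abs_div, abs_of_pos hl0]
    refine le_trans (div_le_div_of_nonneg_right ?_ hl0.le) hsB1
    refine (abs_add_le _ _).trans ?_
    rw [abs_neg, hB₁]
    linarith
  obtain ⟨Y, hY⟩ : ∃ Y : (Fin d → ℕ) → ℝ, Y = fun m => (Z m - z) / s := ⟨_, rfl⟩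
  have hYF : ∀ m, |Y m - ∑ p ∈ pin y x, F p m| ≤ c₁ := by
    intro m
    have h1 : Y m - ∑ p ∈ pin y x, F p m = (∑ p ∈ pin y x, (mean d p (G p) - μ p) + (-(z - ∑ p ∈ pin y x, μ p)) + (Z m - ∑ p ∈ pin y x, G p m)) / s := by
      rw [hY, hF]
      show (Z m - z) / s - ∑ p ∈ pin y x, 1 / s * (G p m - mean d p (G p)) = _
      rw [← mul_sum, sum_sub_distrib, sum_sub_distrib]
      field_simp
      ring
    rw [h1, abs_div, abs_of_pos hs0]
    refine le_trans (div_le_div_of_nonneg_right ?_ hs0.le) hsB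
    refine (abs_add_le _ _).trans ((add_le_add (abs_add_le _ _) (hZ m)).trans ?_)
    rw [abs_neg, hB₂]
    have h3 := hS32 (fun p => mean d p (G p) - μ p) B hB (fun p hp => hG1 p (hpin p hp).1 (hpin p hp).2.1)
    linarith
  have h := key r K x hrK hx1 (fun i => (hxr i).trans (mul_le_mul_of_nonneg_right (min_le_left _ _) (Nat.cast_nonneg _))) N hN f hf (pin y x) (fun p => p)
    hq hcop F hF0 Mp hFM hMc hMV hvar Y hYF t
  rw [hY] at h
  rw [← hse]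
  exact h

end Pool.Agent.X22.EQ
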