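import Pool.Agent.X22.EQ5

set_option autoImplicit false

/-! The means of functions of the trace of Frobenius. -/

namespace Pool.Agent.X22.EQ
open Finset Filter
open Pool.Agent.TH894.ND Pool.Agent.TH894.NE
open Pool.Agent.X22.EC (tq tq_eq sum_two sum_odd lf lf_single)

section
variable {p : ℕ} [hf : Fact p.Prime]

/-- two values of the cubic polynomial at different places are independent -/
lemma pair_zero (h2 : p ≠ 2) (x y : ZMod p) (hxy : x ≠ y) :
    ∑ z : ZMod p × ZMod p, (quadraticChar (ZMod p) (x ^ 3 + z.1 * x + z.2) : ℝ) * (quadraticChar (ZMod p) (y ^ 3 + z.1 * y + z.2) : ℝ) = 0 := by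
  have h3 : ringChar (ZMod p) ≠ 2 := by
    rw [ZMod.ringChar_zmod_n]
    exact h2
  have hne : x - y ≠ 0 := sub_ne_zero.2 hxy
  have h1 : ∑ z : ZMod p × ZMod p, (quadraticChar (ZMod p) (x ^ 3 + z.1 * x + z.2) : ℝ) * (quadraticChar (ZMod p) (y ^ 3 + z.1 * y + z.2) : ℝ) =
      ∑ w : ZMod p × ZMod p, (quadraticChar (ZMod p) w.1 : ℝ) * (quadraticChar (ZMod p) w.2 : ℝ) := by
    refine sum_nbij' (fun z => (x ^ 3 + z.1 * x + z.2, y ^ 3 + z.1 * y + z.2))
      (fun w => ((w.1 - w.2 - x ^ 3 + y ^ 3) / (x - y), w.1 - x ^ 3 - (w.1 - w.2 - x ^ 3 + y ^ 3) / (x - y) * x)) ?_ ?_ ?_ ?_ ?_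
    · exact fun _ _ => mem_univ _
    · exact fun _ _ => mem_univ _
    · rintro ⟨s, t⟩ _
      have e1 : ((x ^ 3 + s * x + t) - (y ^ 3 + s * y + t) - x ^ 3 + y ^ 3) / (x - y) = s := by
        rw [div_eq_iff hne]
        ring
      simp only [e1]
      refine Prod.ext rfl ?_
      show x ^ 3 + s * x + t - x ^ 3 - s * x = t
      ring
    · rintro ⟨u, v⟩ _
      have e1 : (u - v - x ^ 3 + y ^ 3) / (x - y) * (x - y) = u - v - x ^ 3 + y ^ 3 := div_mul_cancel₀ _ hne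
      refine Prod.ext ?_ ?_
      · show x ^ 3 + (u - v - x ^ 3 + y ^ 3) / (x - y) * x + (u - x ^ 3 - (u - v - x ^ 3 + y ^ 3) / (x - y) * x) = u
        ring
      · show y ^ 3 + (u - v - x ^ 3 + y ^ 3) / (x - y) * y + (u - x ^ 3 - (u - v - x ^ 3 + y ^ 3) / (x - y) * x) = v
        linear_combination -e1
    · exact fun _ _ => rfl
  rw [h1, ← univ_product_univ, sum_product]
  have h4 : ∑ v : ZMod p, (quadraticChar (ZMod p) v : ℝ) = 0 := by
    have := quadraticChar_sum_zero h3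
    exact_mod_cast this
  apply sum_eq_zero
  intro u _
  show ∑ v : ZMod p, (quadraticChar (ZMod p) u : ℝ) * (quadraticChar (ZMod p) v : ℝ) = 0
  rw [← mul_sum, h4, mul_zero]

/-- the second moment of the trace -/
lemma sum_tq_sq (h2 : p ≠ 2) : ∑ z : ZMod p × ZMod p, (tq z.1 z.2 : ℝ) ^ 2 = (p : ℝ) ^ 3 - (p : ℝ) ^ 2 := by
  classical
  have h3 : ringChar (ZMod p) ≠ 2 := by
    rw [ZMod.ringChar_zmod_n]
    exact h2
  have h1 : ∀ z : ZMod p × ZMod p, (tq z.1 z.2 : ℝ) ^ 2 =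
      ∑ x : ZMod p, ∑ y : ZMod p, (quadraticChar (ZMod p) (x ^ 3 + z.1 * x + z.2) : ℝ) * (quadraticChar (ZMod p) (y ^ 3 + z.1 * y + z.2) : ℝ) := by
    intro z
    rw [tq_eq h3]
    push_cast
    rw [neg_sq, sq, sum_mul_sum]
  rw [sum_congr rfl fun z _ => h1 z, sum_comm]
  have h4 : ∀ x : ZMod p, ∑ z : ZMod p × ZMod p, ∑ y : ZMod p, (quadraticChar (ZMod p) (x ^ 3 + z.1 * x + z.2) : ℝ) * (quadraticChar (ZMod p) (y ^ 3 + z.1 * y + z.2) : ℝ) =
      (p : ℝ) * (p - 1) := by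
    intro x
    rw [sum_comm, sum_eq_single x]
    · have h5 : ∀ z : ZMod p × ZMod p, (quadraticChar (ZMod p) (x ^ 3 + z.1 * x + z.2) : ℝ) * (quadraticChar (ZMod p) (x ^ 3 + z.1 * x + z.2) : ℝ) =
          if x ^ 3 + z.1 * x + z.2 = 0 then 0 else 1 := by
        intro z
        split_ifs with h
        · rw [h, quadraticChar_zero]
          simp
        · have := quadraticChar_sq_one (F := ZMod p) h
          rw [sq] at this
          exact_mod_cast this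
      rw [sum_congr rfl fun z _ => h5 z, ← univ_product_univ, sum_product]
      have h6 : ∀ s : ZMod p, ∑ t : ZMod p, (if x ^ 3 + s * x + t = 0 then (0 : ℝ) else 1) = p - 1 := by
        intro s
        have h7 : ∀ t : ZMod p, (if x ^ 3 + s * x + t = 0 then (0 : ℝ) else 1) = 1 - if t = -(x ^ 3 + s * x) then 1 else 0 := by
          intro t
          by_cases h : t = -(x ^ 3 + s * x)
          · rw [if_pos h, if_pos (by rw [h]; ring)]
            ring
          · rw [if_neg h, if_neg (fun h' => h (by linear_combination h'))]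
            ring
        rw [sum_congr rfl fun t _ => h7 t, sum_sub_distrib, sum_ite_eq' univ, if_pos (mem_univ _), sum_const, card_univ, ZMod.card, nsmul_eq_mul,
          mul_one]
      rw [sum_congr rfl fun s _ => h6 s, sum_const, card_univ, ZMod.card, nsmul_eq_mul]
    · intro y _ hy
      exact pair_zero h2 x y (Ne.symm hy)
    · intro h
      exact absurd (mem_univ x) h
  rw [sum_congr rfl fun x _ => h4 x, sum_const, card_univ, ZMod.card, nsmul_eq_mul]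
  ring

/-- the mean over the box of a function of two independent forms -/
lemma mean_two {d : ℕ} (a b : Fin d → ZMod p) (l₀ l₁ : Fin d) (ha0 : a l₀ = 1) (hb0 : b l₀ = 0)
    (ha1 : a l₁ = 0) (hb1 : b l₁ = 1) (Φ : ZMod p → ZMod p → ℝ) :
    mean d p (fun m => Φ (∑ l, (m l : ZMod p) * a l) (∑ l, (m l : ZMod p) * b l)) = (∑ z : ZMod p × ZMod p, Φ z.1 z.2) / (p : ℝ) ^ 2 := by
  have hp0 : (p : ℝ) ≠ 0 := by exact_mod_cast hf.out.ne_zero
  obtain ⟨c, hc⟩ : ∃ c : ℝ, c = (∑ z : ZMod p × ZMod p, Φ z.1 z.2) / (p : ℝ) ^ 2 := ⟨_, rfl⟩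
  have h4 := Pool.Agent.X22.ND.mean_zmod d p hf.out (fun v => Φ (lf a v) (lf b v) - c)
  have h5 := sum_two (lf a) (lf b) (Pi.single l₀ 1) (Pi.single l₁ 1) (by rw [lf_single, ha0]) (by rw [lf_single, hb0])
    (by rw [lf_single, ha1]) (by rw [lf_single, hb1]) (fun s t => Φ s t - c) (by
      rw [sum_sub_distrib, sum_const, card_univ, Fintype.card_prod, ZMod.card, nsmul_eq_mul, hc]
      push_cast
      field_simp
      ring)
  rw [h5, zero_div] at h4
  rw [← hc]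
  have h6 : mean d p (fun m => Φ (∑ l, (m l : ZMod p) * a l) (∑ l, (m l : ZMod p) * b l)) =
      mean d p (fun m => (Φ (lf a (fun i => (m i : ZMod p))) (lf b (fun i => (m i : ZMod p))) - c) + (fun _ : Fin d → ℕ => c) m) := by
    congr 1
    funext m
    show Φ _ _ = Φ _ _ - c + c
    rw [sub_add_cancel]
    rfl
  rw [h6, Pool.Agent.TH894.NE.mean_add, mean_const d p hf.out.one_lt.le, h4, zero_add]

end

/-- the expansion of the logarithm -/
lemma log_exp (x : ℝ) (hx : |x| ≤ 1 / 2) : |Real.log (1 - x) + x + x ^ 2 / 2| ≤ 2 * |x| ^ 3 := by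
  have h1 := Real.abs_log_sub_add_sum_range_le (x := x) (by linarith) 2
  rw [sum_range_succ, sum_range_one] at h1
  norm_num at h1
  have h2 : x + x ^ 2 / 2 + Real.log (1 - x) = Real.log (1 - x) + x + x ^ 2 / 2 := by ring
  rw [h2] at h1
  refine h1.trans ?_
  rw [div_le_iff₀ (by linarith)]
  have h3 : 0 ≤ |x| ^ 3 := by positivity
  nlinarith

lemma rpow_three_half (p : ℕ) : (p : ℝ) ^ (3 / 2 : ℝ) = Real.sqrt p ^ 3 := by
  rw [Real.sqrt_eq_rpow, ← Real.rpow_natCast, ← Real.rpow_mul (Nat.cast_nonneg _)]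
  norm_num

/-- the size of the variable -/
lemma var_le (p : ℕ) (hp : 64 ≤ p) (w t : ℝ) (hw : |w| ≤ 1) (ht : |t| ≤ 2 * Real.sqrt p) :
    |(w * t - 1) / p| ≤ 3 / Real.sqrt p ∧ |(w * t - 1) / p| ≤ 1 / 2 := by
  have hpr : (64 : ℝ) ≤ p := by exact_mod_cast hp
  have hp0 : (0 : ℝ) < p := by linarith
  have hs : 8 ≤ Real.sqrt p := Real.le_sqrt_of_sq_le (by norm_num; linarith)
  have hs0 : 0 < Real.sqrt p := by linarith
  have hss : Real.sqrt p * Real.sqrt p = p := Real.mul_self_sqrt hp0.le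
  have h1 : |(w * t - 1) / p| ≤ 3 / Real.sqrt p := by
    rw [abs_div, abs_of_pos hp0, div_le_div_iff₀ hp0 hs0]
    have h2 : |w * t - 1| ≤ 2 * Real.sqrt p + 1 := by
      refine (abs_sub _ _).trans ?_
      rw [abs_mul, abs_one]
      have : |w| * |t| ≤ 1 * (2 * Real.sqrt p) := mul_le_mul hw ht (abs_nonneg _) (by norm_num)
      linarith
    have h3 : |w * t - 1| ≤ 3 * Real.sqrt p := by linarith
    calc |w * t - 1| * Real.sqrt p ≤ 3 * Real.sqrt p * Real.sqrt p := mul_le_mul_of_nonneg_right h3 hs0.le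
      _ = 3 * p := by rw [mul_assoc, hss]
  refine ⟨h1, h1.trans ?_⟩
  rw [div_le_iff₀ hs0]
  linarith

lemma log_size (p : ℕ) (hp : 64 ≤ p) (w t : ℝ) (hw : |w| ≤ 1) (ht : |t| ≤ 2 * Real.sqrt p) :
    0 < 1 - w * t / p + 1 / p ∧ |Real.log (1 - w * t / p + 1 / p)| ≤ 6 / Real.sqrt p := by
  obtain ⟨h1, h2⟩ := var_le p hp w t hw ht
  obtain ⟨x, hx⟩ : ∃ x : ℝ, x = (w * t - 1) / p := ⟨_, rfl⟩
  have hpr : (64 : ℝ) ≤ p := by exact_mod_cast hp
  have hs0 : 0 < Real.sqrt p := Real.sqrt_pos.2 (by linarith)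
  rw [← hx] at h1 h2
  have e1 : 1 - w * t / p + 1 / p = 1 - x := by rw [hx]; ring
  rw [e1]
  refine ⟨by have := (abs_le.1 h2).2; linarith, ?_⟩
  have h3 := log_exp x h2
  have h4 : |Real.log (1 - x)| ≤ |x| + x ^ 2 / 2 + 2 * |x| ^ 3 := by
    have e2 : Real.log (1 - x) = (Real.log (1 - x) + x + x ^ 2 / 2) - x - x ^ 2 / 2 := by ring
    rw [e2]
    refine (abs_sub _ _).trans ?_
    refine (add_le_add (abs_sub _ _) le_rfl).trans ?_
    rw [abs_of_nonneg (by positivity : (0 : ℝ) ≤ x ^ 2 / 2)]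
    linarith
  have h5 : x ^ 2 = |x| ^ 2 := (sq_abs x).symm
  have h6 : 0 ≤ |x| := abs_nonneg x
  have h7 : |x| + x ^ 2 / 2 + 2 * |x| ^ 3 ≤ 2 * |x| := by
    rw [h5]
    nlinarith [mul_nonneg h6 h6, mul_nonneg (mul_nonneg h6 h6) h6]
  calc |Real.log (1 - x)| ≤ 2 * |x| := h4.trans h7
    _ ≤ 2 * (3 / Real.sqrt p) := by linarith
    _ = _ := by ring

/-- the mean of the logarithm of the local factor -/
lemma mean_log (p : ℕ) (hp' : p.Prime) (hp : 64 ≤ p) (w : ℝ) (hw : |w| ≤ 1) : haveI : Fact p.Prime := ⟨hp'⟩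
    |(∑ z : ZMod p × ZMod p, Real.log (1 - w * (tq z.1 z.2 : ℝ) / p + 1 / p)) / (p : ℝ) ^ 2 - (1 - w ^ 2 / 2) / p| ≤ 55 / (p : ℝ) ^ (3 / 2 : ℝ) := by
  have hf : Fact p.Prime := ⟨hp'⟩
  have h2 : p ≠ 2 := by omega
  have h3 : ringChar (ZMod p) ≠ 2 := by
    rw [ZMod.ringChar_zmod_n]
    exact h2
  have hpr : (64 : ℝ) ≤ p := by exact_mod_cast hp
  have hp0 : (0 : ℝ) < p := by linarith
  have hs1 : 8 ≤ Real.sqrt p := Real.le_sqrt_of_sq_le (by norm_num; linarith)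
  have hs0 : 0 < Real.sqrt p := by linarith
  have hss : Real.sqrt p * Real.sqrt p = p := Real.mul_self_sqrt hp0.le
  have hbd : ∀ z : ZMod p × ZMod p, |(tq z.1 z.2 : ℝ)| ≤ 2 * Real.sqrt p := by
    intro z
    have := Pool.Agent.X22.EC.tq_bound h3 z.1 z.2
    rwa [Nat.card_eq_fintype_card, ZMod.card] at this
  obtain ⟨x, hx⟩ : ∃ x : ZMod p × ZMod p → ℝ, x = fun z => (w * (tq z.1 z.2 : ℝ) - 1) / p := ⟨_, rfl⟩
  have hR : ∀ z, |Real.log (1 - x z) + x z + x z ^ 2 / 2| ≤ 54 / (p : ℝ) ^ (3 / 2 : ℝ) := by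
    intro z
    obtain ⟨h4, h5⟩ := var_le p hp w _ hw (hbd z)
    have h6 : |x z| ≤ 3 / Real.sqrt p := by rw [hx]; exact h4
    have h7 : |x z| ≤ 1 / 2 := by rw [hx]; exact h5
    refine (log_exp (x z) h7).trans ?_
    rw [rpow_three_half]
    calc 2 * |x z| ^ 3 ≤ 2 * (3 / Real.sqrt p) ^ 3 := by gcongr
      _ = _ := by ring
  have hS1 : ∑ z, x z = -p := by
    have h4 : ∑ z : ZMod p × ZMod p, ((tq z.1 z.2 : ℤ) : ℝ) = 0 := Pool.Agent.X22.EC.sum_odd h3 (fun n => (n : ℝ)) (fun n => by push_cast; ring)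
    rw [hx]
    simp only [sub_div, mul_div_assoc]
    rw [sum_sub_distrib, ← mul_sum, ← sum_div, h4, zero_div, mul_zero, sum_const, card_univ, Fintype.card_prod, ZMod.card, nsmul_eq_mul]
    push_cast
    field_simp
    ring
  have hS2 : ∑ z, x z ^ 2 = w ^ 2 * (p - 1) + 1 := by
    have h4 : ∑ z : ZMod p × ZMod p, ((tq z.1 z.2 : ℤ) : ℝ) = 0 := Pool.Agent.X22.EC.sum_odd h3 (fun n => (n : ℝ)) (fun n => by push_cast; ring)
    have h5 := sum_tq_sq (p := p) h2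
    have h6 : ∀ z : ZMod p × ZMod p, x z ^ 2 = (w ^ 2 / (p : ℝ) ^ 2) * (tq z.1 z.2 : ℝ) ^ 2 - (2 * w / (p : ℝ) ^ 2) * (tq z.1 z.2 : ℝ) + 1 / (p : ℝ) ^ 2 := by
      intro z
      rw [hx]
      field_simp
      ring
    rw [sum_congr rfl fun z _ => h6 z, sum_add_distrib, sum_sub_distrib, ← mul_sum, ← mul_sum, h4, h5, mul_zero, sum_const, card_univ,
      Fintype.card_prod, ZMod.card, nsmul_eq_mul]
    push_cast
    field_simp
    ring
  have hlog : ∀ z : ZMod p × ZMod p, Real.log (1 - w * (tq z.1 z.2 : ℝ) / p + 1 / p) =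
      (Real.log (1 - x z) + x z + x z ^ 2 / 2) - x z - x z ^ 2 / 2 := by
    intro z
    have e1 : 1 - w * (tq z.1 z.2 : ℝ) / p + 1 / p = 1 - x z := by rw [hx]; ring
    rw [e1]
    ring
  rw [sum_congr rfl fun z _ => hlog z, sum_sub_distrib, sum_sub_distrib, ← sum_div, hS1, hS2]
  obtain ⟨R, hRe⟩ : ∃ R : ℝ, R = ∑ z, (Real.log (1 - x z) + x z + x z ^ 2 / 2) := ⟨_, rfl⟩
  have hR1 : |R| ≤ (p : ℝ) ^ 2 * (54 / (p : ℝ) ^ (3 / 2 : ℝ)) := by
    rw [hRe]
    refine (abs_sum_le_sum_abs _ _).trans ((sum_le_sum fun z _ => hR z).trans (le_of_eq ?_))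
    rw [sum_const, card_univ, Fintype.card_prod, ZMod.card, nsmul_eq_mul]
    push_cast
    ring
  rw [← hRe]
  have e2 : (R - -(p : ℝ) - (w ^ 2 * (p - 1) + 1) / 2) / (p : ℝ) ^ 2 - (1 - w ^ 2 / 2) / p = R / (p : ℝ) ^ 2 + (w ^ 2 - 1) / (2 * (p : ℝ) ^ 2) := by
    field_simp
    ring
  rw [e2]
  have h8 : |R / (p : ℝ) ^ 2| ≤ 54 / (p : ℝ) ^ (3 / 2 : ℝ) := by
    rw [abs_div, abs_of_pos (by positivity : (0 : ℝ) < (p : ℝ) ^ 2), div_le_iff₀ (by positivity)]
    linarith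
  have h9 : |(w ^ 2 - 1) / (2 * (p : ℝ) ^ 2)| ≤ 1 / (p : ℝ) ^ (3 / 2 : ℝ) := by
    rw [abs_div, abs_of_pos (by positivity : (0 : ℝ) < 2 * (p : ℝ) ^ 2), rpow_three_half]
    have hw2 : w ^ 2 ≤ 1 := by
      rw [← sq_abs]
      exact pow_le_one₀ (abs_nonneg _) hw
    have h10 : |w ^ 2 - 1| ≤ 1 := by
      rw [abs_le]
      constructor <;> nlinarith [sq_nonneg w]
    have h11 : Real.sqrt p ^ 3 ≤ 2 * (p : ℝ) ^ 2 := by
      have e3 : (p : ℝ) ^ 2 = Real.sqrt p ^ 3 * Real.sqrt p := by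
        calc (p : ℝ) ^ 2 = (Real.sqrt p * Real.sqrt p) ^ 2 := by rw [hss]
          _ = _ := by ring
      rw [e3]
      have : 0 < Real.sqrt p ^ 3 := by positivity
      nlinarith
    rw [div_le_div_iff₀ (by positivity) (by positivity)]
    have h12 : 0 < Real.sqrt p ^ 3 := by positivity
    nlinarith [abs_nonneg (w ^ 2 - 1)]
  refine (abs_add_le _ _).trans ((add_le_add h8 h9).trans (le_of_eq (by ring)))

end Pool.Agent.X22.EQ
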