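import Pool.Agent.X22.EQ14
import Pool.Agent.X22.EQ6

set_option autoImplicit false

/-! The sum of `(log p) ^ 2 / p`; the normal law for weighted sums of the traces of Frobenius over few-digit changes. -/

namespace Pool.Agent.X22.EQ
open Finset Filter
open Pool.Agent.TH894.ND Pool.Agent.TH894.NE
open Pool.Agent.TH894.SM (change change_eq)
open Pool.Agent.X22.EC (tq tq_eq sum_two sum_odd lf lf_single)
open Pool.Agent.Helper923.HMertens (PP AA sum_PP_succ mertens_log)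

lemma log_sq_parts (N : ℕ) (hN : 1 ≤ N) : ∑ p ∈ PP N, Real.log p ^ 2 / p =
    AA N * Real.log N - ∑ n ∈ Ico 1 N, AA n * (Real.log ((n + 1 : ℕ) : ℝ) - Real.log n) := by
  induction N, hN using Nat.le_induction with
  | base =>
      have h : PP 1 = ∅ := by decide
      rw [h]
      simp
  | succ N hN ih =>
      rw [sum_PP_succ (fun p => Real.log p ^ 2 / p), ih, sum_Ico_succ_top hN]
      have h1 : AA (N + 1) = AA N + if (N + 1).Prime then Real.log ((N + 1 : ℕ) : ℝ) / ((N + 1 : ℕ) : ℝ) else 0 := by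
        unfold AA
        rw [sum_PP_succ (fun p => Real.log p / p)]
      rw [h1]
      split_ifs with h
      · ring
      · ring

/-- the sum of `(log p) ^ 2 / p` -/
lemma sum_log_sq : ∃ C : ℝ, 0 ≤ C ∧ ∀ N : ℕ, 1 ≤ N → |∑ p ∈ PP N, Real.log p ^ 2 / p - Real.log N ^ 2 / 2| ≤ C * Real.log N := by
  obtain ⟨C, hC⟩ := mertens_log
  have hC0 : 0 ≤ C := (abs_nonneg _).trans (hC 1 le_rfl)
  refine ⟨2 * C + 1, by positivity, fun N hN => ?_⟩
  have hA : ∀ n : ℕ, 1 ≤ n → |AA n - Real.log n| ≤ C := fun n hn => hC n hn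
  obtain ⟨Δ, hΔ⟩ : ∃ Δ : ℕ → ℝ, Δ = fun n => Real.log ((n + 1 : ℕ) : ℝ) - Real.log n := ⟨_, rfl⟩
  have hΔ0 : ∀ n : ℕ, 1 ≤ n → 0 ≤ Δ n ∧ Δ n ≤ 1 := by
    intro n hn
    have hn0 : (0 : ℝ) < n := by exact_mod_cast hn
    have hn1 : (1 : ℝ) ≤ n := by exact_mod_cast hn
    rw [hΔ]
    constructor
    · have := Real.log_le_log hn0 (show (n : ℝ) ≤ ((n + 1 : ℕ) : ℝ) by push_cast; linarith)
      linarith
    · show Real.log ((n + 1 : ℕ) : ℝ) - Real.log n ≤ 1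
      rw [← Real.log_div (by positivity) hn0.ne']
      have h1 := Real.log_le_sub_one_of_pos (show 0 < ((n + 1 : ℕ) : ℝ) / n by positivity)
      have h2 : ((n + 1 : ℕ) : ℝ) / n ≤ 2 := by
        rw [div_le_iff₀ hn0]
        push_cast
        linarith
      linarith
  have htel : ∀ M : ℕ, 1 ≤ M → ∑ n ∈ Ico 1 M, Δ n = Real.log M := by
    intro M hM
    induction M, hM using Nat.le_induction with
    | base => simp
    | succ M hM ih =>
        rw [sum_Ico_succ_top hM, ih, hΔ]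
        ring
  have htel2 : ∀ M : ℕ, 1 ≤ M → ∑ n ∈ Ico 1 M, (2 * Real.log n * Δ n + Δ n ^ 2) = Real.log M ^ 2 := by
    intro M hM
    induction M, hM using Nat.le_induction with
    | base => simp
    | succ M hM ih =>
        rw [sum_Ico_succ_top hM, ih, hΔ]
        ring
  have h1 : ∑ n ∈ Ico 1 N, Real.log n * Δ n = Real.log N ^ 2 / 2 - (∑ n ∈ Ico 1 N, Δ n ^ 2) / 2 := by
    have h2 := htel2 N hN
    rw [sum_add_distrib] at h2
    have h3 : ∑ n ∈ Ico 1 N, 2 * Real.log n * Δ n = 2 * ∑ n ∈ Ico 1 N, Real.log n * Δ n := by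
      rw [mul_sum]
      exact sum_congr rfl fun n _ => by ring
    rw [h3] at h2
    linarith
  have h2 : 0 ≤ ∑ n ∈ Ico 1 N, Δ n ^ 2 ∧ ∑ n ∈ Ico 1 N, Δ n ^ 2 ≤ Real.log N := by
    refine ⟨sum_nonneg fun _ _ => sq_nonneg _, ?_⟩
    rw [← htel N hN]
    refine sum_le_sum fun n hn => ?_
    obtain ⟨h3, h4⟩ := hΔ0 n (mem_Ico.1 hn).1
    nlinarith
  have h3 : |∑ n ∈ Ico 1 N, (AA n - Real.log n) * Δ n| ≤ C * Real.log N := by
    refine (abs_sum_le_sum_abs _ _).trans ?_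
    rw [← htel N hN, mul_sum]
    refine sum_le_sum fun n hn => ?_
    have hn1 := (mem_Ico.1 hn).1
    rw [abs_mul, abs_of_nonneg (hΔ0 n hn1).1]
    exact mul_le_mul_of_nonneg_right (hA n hn1) (hΔ0 n hn1).1
  have hlN : 0 ≤ Real.log N := Real.log_nonneg (by exact_mod_cast hN)
  have h4 : |(AA N - Real.log N) * Real.log N| ≤ C * Real.log N := by
    rw [abs_mul, abs_of_nonneg hlN]
    exact mul_le_mul_of_nonneg_right (hA N hN) hlN
  rw [log_sq_parts N hN]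
  have h5 : ∑ n ∈ Ico 1 N, AA n * (Real.log ((n + 1 : ℕ) : ℝ) - Real.log n) =
      ∑ n ∈ Ico 1 N, Real.log n * Δ n + ∑ n ∈ Ico 1 N, (AA n - Real.log n) * Δ n := by
    rw [← sum_add_distrib, hΔ]
    exact sum_congr rfl fun n _ => by ring
  rw [h5, h1]
  have h6 : AA N * Real.log N - (Real.log N ^ 2 / 2 - (∑ n ∈ Ico 1 N, Δ n ^ 2) / 2 + ∑ n ∈ Ico 1 N, (AA n - Real.log n) * Δ n) - Real.log N ^ 2 / 2 =
      (AA N - Real.log N) * Real.log N + (∑ n ∈ Ico 1 N, Δ n ^ 2) / 2 - ∑ n ∈ Ico 1 N, (AA n - Real.log n) * Δ n := by ring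
  rw [h6]
  have h7 := abs_le.1 h3
  have h8 := abs_le.1 h4
  rw [abs_le]
  constructor <;> linarith [h7.1, h7.2, h8.1, h8.2, h2.1, h2.2]

lemma log_le_sqrt (p : ℕ) (hp : 1 ≤ p) : Real.log p ≤ Real.sqrt p := by
  have hp0 : (0 : ℝ) < p := by exact_mod_cast hp
  have h1 := Real.add_one_le_exp (Real.log p / 2)
  have h2 : Real.exp (Real.log p / 2) = Real.sqrt p := by
    rw [Real.exp_half, Real.exp_log hp0]
  -- a better bound: `exp (t) ≥ 1 + t + t ^ 2 / 2 ≥ 2 t`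
  have h3 := Real.quadratic_le_exp_of_nonneg (x := Real.log p / 2) (by
    have := Real.log_nonneg (show (1 : ℝ) ≤ p by exact_mod_cast hp)
    linarith)
  rw [h2] at h3
  nlinarith [sq_nonneg (Real.log p / 2 - 1)]

/-- **The normal law for weighted sums of the traces of Frobenius.** -/
theorem nagao_clt (b d : ℕ) (hb : 2 ≤ b) (hd : 1 ≤ d) (η ε : ℝ) (hη : 0 < η) (hε : 0 < ε) : ∃ c : ℝ, 0 < c ∧
    ∀ (r K : Fin d → ℕ) (x : ℕ), (∀ i, 2 * r i ≤ K i) → 1 / c ≤ (x : ℝ) → (∀ i, Real.log x ^ 2 ≤ c * r i) →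
    ∀ N : Fin d → ℕ, (∀ i, N i < b ^ K i) → ∀ f : Fin d → ℕ → ℕ, (∀ i j, f i j < b ∧ f i j ≠ N i / b ^ j % b) →
    ∀ w : ℕ → ℝ, (∀ p, |w p| ≤ 1) → ∀ s : ℝ, η ≤ s → |s ^ 2 - 1 / Real.log x ^ 2 * ∑ p ∈ PP x, w p ^ 2 * Real.log p ^ 2 / p| ≤ c →
    ∀ T : ℕ → (Fin d → ℕ) → ℝ, (∀ p, p.Prime → Per p (T p)) → (∀ p, p.Prime → ∀ m, |T p m| ≤ (p : ℝ) ^ 2) → (∀ p, p.Prime → p ≠ 2 → ∀ m, |T p m| ≤ 2 * Real.sqrt p) →
    (∀ p, p.Prime → p ≠ 2 → mean d p (T p) = 0) → (∀ p, p.Prime → p ≠ 2 → mean d p (fun m => T p m ^ 2) = p - 1) → ∀ t : ℝ,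
    |(((Fintype.piFinset (fun i => powersetCard (r i) (range (K i)))).filter
      (fun S => -(1 / Real.log x * ∑ p ∈ PP x, w p * T p (fun i => change b (K i) (N i) (f i) (S i)) * Real.log p / p) / s ≤ t)).card : ℝ) -
      Phi t * ∏ i, ((K i).choose (r i) : ℝ)| ≤ ε * ∏ i, ((K i).choose (r i) : ℝ) := by
  classical
  obtain ⟨C₀, hC₀, hls⟩ := sum_log_sq
  obtain ⟨y, hy⟩ : ∃ y : ℕ, y = b * b := ⟨_, rfl⟩
  obtain ⟨S₀, hS₀⟩ : ∃ S₀ : ℝ, S₀ = ∑' n : ℕ, 1 / (n : ℝ) ^ (3 / 2 : ℝ) := ⟨_, rfl⟩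
  have hsum : Summable (fun n : ℕ => 1 / (n : ℝ) ^ (3 / 2 : ℝ)) := Real.summable_one_div_nat_rpow.2 (by norm_num)
  have hS₀0 : 0 ≤ S₀ := by rw [hS₀]; exact tsum_nonneg fun n => by positivity
  obtain ⟨V, hV⟩ : ∃ V : ℝ, V = 4 / η ^ 2 * (1 / 2 + C₀) := ⟨_, rfl⟩
  have hV0 : 0 ≤ V := by rw [hV]; positivity
  obtain ⟨c₁, hc₁, key⟩ := few_clt b d hb hd V ε hV0 hε
  -- small primes
  obtain ⟨Y₀, hY₀⟩ : ∃ Y₀ : ℝ, Y₀ = ∑ p ∈ PP y, (p : ℝ) ^ 3 := ⟨_, rfl⟩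
  have hY₀0 : 0 ≤ Y₀ := by rw [hY₀]; positivity
  obtain ⟨R, hR⟩ : ∃ R : ℝ, R = Y₀ + 16 * S₀ + 1 := ⟨_, rfl⟩
  have hR1 : 1 ≤ R := by rw [hR]; linarith
  -- the conditions on `c`
  obtain ⟨Λ, hΛ⟩ : ∃ Λ : ℝ, Λ = 1 + 2 / (η * c₁) + R / (η * c₁) + 2 * R / (η ^ 2 * c₁) := ⟨_, rfl⟩
  have hΛ1 : 1 ≤ Λ := by
    rw [hΛ]
    have : 0 ≤ 2 / (η * c₁) + R / (η * c₁) + 2 * R / (η ^ 2 * c₁) := by positivity
    linarith
  obtain ⟨c, hc⟩ : ∃ c : ℝ, c = min c₁ (min (Real.exp (-(Λ + y + 3))) (η ^ 2 * c₁ / 2)) := ⟨_, rfl⟩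
  have hc0 : 0 < c := by rw [hc]; exact lt_min hc₁ (lt_min (Real.exp_pos _) (by positivity))
  have hca : c ≤ c₁ := by rw [hc]; exact min_le_left _ _
  have hcb : c ≤ Real.exp (-(Λ + y + 3)) := by rw [hc]; exact (min_le_right _ _).trans (min_le_left _ _)
  have hcd : c ≤ η ^ 2 * c₁ / 2 := by rw [hc]; exact (min_le_right _ _).trans (min_le_right _ _)
  refine ⟨c, hc0, fun r K x hrK hx hxr N hN f hf w hw s hs hsσ T hper hTp hTs hT0 hT2 t => ?_⟩
  have hlx : Λ + y + 3 ≤ Real.log x := by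
    have h1 : Real.exp (Λ + y + 3) ≤ x := by
      refine le_trans ?_ hx
      rw [le_div_iff₀ hc0]
      calc Real.exp (Λ + y + 3) * c ≤ Real.exp (Λ + y + 3) * Real.exp (-(Λ + y + 3)) := mul_le_mul_of_nonneg_left hcb (Real.exp_pos _).le
        _ = 1 := by rw [← Real.exp_add]; norm_num
    have h2 := Real.log_le_log (Real.exp_pos _) h1
    rwa [Real.log_exp] at h2
  obtain ⟨l, hl⟩ : ∃ l : ℝ, l = Real.log x := ⟨_, rfl⟩
  rw [← hl] at hlx hxr hsσ ⊢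
  have hy0 : (0 : ℝ) ≤ y := Nat.cast_nonneg _
  have hlΛ : Λ ≤ l := by linarith
  have hl1 : 1 ≤ l := by linarith
  have hl0 : 0 < l := by linarith
  have hx0 : (0 : ℝ) < x := by
    refine lt_of_lt_of_le ?_ hx
    positivity
  have hxl : l ≤ x := by
    rw [hl]
    have := Real.log_le_sub_one_of_pos hx0
    linarith
  have hyx : y ≤ x := by
    have : (y : ℝ) ≤ x := by linarith
    exact_mod_cast this
  have hs0 : 0 < s := by linarith
  have hp1 : 0 ≤ 2 / (η * c₁) := by positivity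
  have hp2 : 0 ≤ R / (η * c₁) := by positivity
  have hp3 : 0 ≤ 2 * R / (η ^ 2 * c₁) := by positivity
  have hl2 : 2 / (η * c₁) ≤ l := by rw [hΛ] at hlΛ; linarith
  have hl3 : R / (η * c₁) ≤ l := by rw [hΛ] at hlΛ; linarith
  have hl4 : 2 * R / (η ^ 2 * c₁) ≤ l := by rw [hΛ] at hlΛ; linarith
  have hPs : PP x = PP y ∪ pin y x := by
    ext p
    simp only [PP, mem_union, mem_filter, mem_Icc, mem_pin]
    constructor
    · rintro ⟨⟨h1, h2⟩, h3⟩
      by_cases h : p ≤ y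
      · exact Or.inl ⟨⟨h1, h⟩, h3⟩
      · exact Or.inr ⟨⟨by omega, h2⟩, h3⟩
    · rintro (⟨⟨h1, h2⟩, h3⟩ | ⟨⟨h1, h2⟩, h3⟩)
      · exact ⟨⟨h1, by omega⟩, h3⟩
      · exact ⟨⟨by omega, h2⟩, h3⟩
  have hdis : Disjoint (PP y) (pin y x) := by
    rw [disjoint_left]
    intro p hp hp'
    simp only [PP, mem_filter, mem_Icc, mem_pin] at hp hp'
    omega
  have hpin : ∀ p ∈ pin y x, p.Prime ∧ y < p ∧ p ≤ x ∧ p ≠ 2 := by
    intro p hp
    rw [mem_pin] at hp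
    refine ⟨hp.2, hp.1.1, hp.1.2, ?_⟩
    have : 2 * 2 ≤ b * b := Nat.mul_le_mul hb hb
    omega
  obtain ⟨F, hF⟩ : ∃ F : ℕ → (Fin d → ℕ) → ℝ, F = fun p m => (-(w p * Real.log p / (p * l * s))) * T p m := ⟨_, rfl⟩
  obtain ⟨Mp, hMp⟩ : ∃ Mp : ℕ → ℝ, Mp = fun p : ℕ => 2 * Real.log p / (Real.sqrt p * l * η) := ⟨_, rfl⟩
  have hq : ∀ p ∈ pin y x, 1 ≤ p ∧ p ≤ x ∧ Nat.Coprime p (b * b).factorial := by
    intro p hp
    obtain ⟨h1, h2, h3, _⟩ := hpin p hp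
    refine ⟨h1.one_lt.le, h3, ?_⟩
    rw [Nat.Prime.coprime_iff_not_dvd h1, h1.dvd_factorial]
    omega
  have hcop : ∀ p ∈ pin y x, ∀ p' ∈ pin y x, p ≠ p' → Nat.Coprime p p' :=
    fun p hp p' hp' hne => (Nat.coprime_primes (hpin p hp).1 (hpin p' hp').1).2 hne
  have hF0 : ∀ p ∈ pin y x, Per p (F p) ∧ mean d p (F p) = 0 := by
    intro p hp
    obtain ⟨h1, h2, h3, h4⟩ := hpin p hp
    constructor
    · intro m
      rw [hF]
      show (-(w p * Real.log p / (p * l * s))) * T p m = (-(w p * Real.log p / (p * l * s))) * T p (fun i => m i % p)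
      rw [← hper p h1 m]
    · rw [hF]
      show mean d p (fun m => (-(w p * Real.log p / (p * l * s))) * T p m) = 0
      rw [mean_mul, hT0 p h1 h4, mul_zero]
  have hFM : ∀ p ∈ pin y x, ∀ m, |F p m| ≤ Mp p := by
    intro p hp m
    obtain ⟨h1, h2, h3, h4⟩ := hpin p hp
    have hp0 : (0 : ℝ) < p := by exact_mod_cast h1.pos
    have hsp : 0 < Real.sqrt p := Real.sqrt_pos.2 hp0
    have hss : Real.sqrt p * Real.sqrt p = p := Real.mul_self_sqrt hp0.le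
    have hlp : 0 ≤ Real.log p := Real.log_nonneg (by exact_mod_cast h1.one_lt.le)
    rw [hF, hMp]
    show |-(w p * Real.log p / (p * l * s)) * T p m| ≤ 2 * Real.log p / (Real.sqrt p * l * η)
    rw [abs_mul, abs_neg, abs_div, abs_mul, abs_of_nonneg hlp, abs_of_pos (by positivity : 0 < (p : ℝ) * l * s)]
    calc |w p| * Real.log p / (p * l * s) * |T p m| ≤ 1 * Real.log p / (p * l * η) * (2 * Real.sqrt p) := by
          have h5 := hw p
          have h6 := hTs p h1 h4 m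
          gcongr
      _ = 2 * Real.log p / (Real.sqrt p * l * η) := by
          have e1 : (p : ℝ) * l * η = Real.sqrt p * Real.sqrt p * l * η := by rw [hss]
          rw [e1]
          field_simp
  have hMc : ∀ p ∈ pin y x, Mp p ≤ c₁ := by
    intro p hp
    obtain ⟨h1, h2, h3, h4⟩ := hpin p hp
    have hp0 : (0 : ℝ) < p := by exact_mod_cast h1.pos
    have hsp : 0 < Real.sqrt p := Real.sqrt_pos.2 hp0
    rw [hMp]
    show 2 * Real.log p / (Real.sqrt p * l * η) ≤ c₁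
    rw [div_le_iff₀ (by positivity)]
    rw [div_le_iff₀ (by positivity)] at hl2
    have h5 := log_le_sqrt p h1.one_lt.le
    nlinarith
  have hlogsum : ∑ p ∈ pin y x, Real.log p ^ 2 / p ≤ (1 / 2 + C₀) * l ^ 2 := by
    have h1 := (abs_le.1 (hls x (by have : 0 < x := by exact_mod_cast hx0
                                    omega))).2
    rw [← hl] at h1
    have h2 : ∑ p ∈ pin y x, Real.log p ^ 2 / (p : ℝ) ≤ ∑ p ∈ PP x, Real.log p ^ 2 / (p : ℝ) := by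
      rw [hPs, sum_union hdis]
      have : 0 ≤ ∑ p ∈ PP y, Real.log p ^ 2 / (p : ℝ) := sum_nonneg fun _ _ => by positivity
      linarith
    have h3 : C₀ * l ≤ C₀ * l ^ 2 := mul_le_mul_of_nonneg_left (by nlinarith) hC₀
    linarith
  have hMV : ∑ p ∈ pin y x, Mp p ^ 2 ≤ V := by
    have h1 : ∀ p ∈ pin y x, Mp p ^ 2 = 4 / (η ^ 2 * l ^ 2) * (Real.log p ^ 2 / p) := by
      intro p _
      rw [hMp]
      show (2 * Real.log p / (Real.sqrt p * l * η)) ^ 2 = _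
      rw [div_pow, mul_pow, mul_pow, mul_pow, Real.sq_sqrt (Nat.cast_nonneg _)]
      ring
    rw [sum_congr rfl h1, ← mul_sum]
    calc 4 / (η ^ 2 * l ^ 2) * ∑ p ∈ pin y x, Real.log p ^ 2 / (p : ℝ) ≤ 4 / (η ^ 2 * l ^ 2) * ((1 / 2 + C₀) * l ^ 2) :=
          mul_le_mul_of_nonneg_left hlogsum (by positivity)
      _ = V := by rw [hV]; field_simp
  have hS32 : ∀ (g : ℕ → ℝ) (R : ℝ), 0 ≤ R → (∀ p ∈ pin y x, |g p| ≤ R / (p : ℝ) ^ (3 / 2 : ℝ)) → |∑ p ∈ pin y x, g p| ≤ R * S₀ := by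
    intro g R hR hg
    refine (abs_sum_le_sum_abs _ _).trans ?_
    have h6 : ∀ p ∈ pin y x, |g p| ≤ R * (1 / (p : ℝ) ^ (3 / 2 : ℝ)) := fun p hp => (hg p hp).trans (le_of_eq (by ring))
    refine (sum_le_sum h6).trans ?_
    rw [← mul_sum, hS₀]
    exact mul_le_mul_of_nonneg_left (hsum.sum_le_tsum _ fun n _ => by positivity) hR
  have hvar : |∑ p ∈ pin y x, mean d p (fun m => F p m ^ 2) - 1| ≤ c₁ := by
    obtain ⟨σ, hσ⟩ : ∃ σ : ℝ, σ = ∑ p ∈ PP x, w p ^ 2 * Real.log p ^ 2 / p := ⟨_, rfl⟩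
    rw [← hσ] at hsσ
    have h1 : ∀ p ∈ pin y x, mean d p (fun m => F p m ^ 2) = 1 / (l ^ 2 * s ^ 2) * (w p ^ 2 * Real.log p ^ 2 / p) -
        1 / (l ^ 2 * s ^ 2) * (w p ^ 2 * Real.log p ^ 2 / (p : ℝ) ^ 2) := by
      intro p hp
      obtain ⟨h1, h2, h3, h4⟩ := hpin p hp
      have hp0 : (p : ℝ) ≠ 0 := by exact_mod_cast h1.ne_zero
      have h5 : (fun m => F p m ^ 2) = fun m => (w p * Real.log p / (p * l * s)) ^ 2 * T p m ^ 2 := by
        funext m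
        rw [hF]
        show (-(w p * Real.log p / (p * l * s)) * T p m) ^ 2 = _
        ring
      rw [h5, mean_mul, hT2 p h1 h4]
      field_simp
    rw [sum_congr rfl h1, sum_sub_distrib, ← mul_sum, ← mul_sum]
    have h2 : ∑ p ∈ pin y x, w p ^ 2 * Real.log p ^ 2 / (p : ℝ) = σ - ∑ p ∈ PP y, w p ^ 2 * Real.log p ^ 2 / (p : ℝ) := by
      rw [hσ, hPs, sum_union hdis]
      ring
    have hw2 : ∀ p, w p ^ 2 ≤ 1 := by
      intro p
      rw [← sq_abs]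
      exact pow_le_one₀ (abs_nonneg _) (hw p)
    have h3 : |∑ p ∈ PP y, w p ^ 2 * Real.log p ^ 2 / (p : ℝ)| ≤ Y₀ := by
      rw [abs_of_nonneg (sum_nonneg fun _ _ => by positivity), hY₀]
      refine sum_le_sum fun p hp => ?_
      have hpp : p.Prime := (mem_filter.1 hp).2
      have hp1 : (1 : ℝ) ≤ p := by exact_mod_cast hpp.one_lt.le
      have h4 : 0 ≤ Real.log p := Real.log_nonneg hp1
      have h5 : Real.log p ≤ p := by
        have := Real.log_le_sub_one_of_pos (show (0 : ℝ) < p by linarith)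
        linarith
      calc w p ^ 2 * Real.log p ^ 2 / (p : ℝ) ≤ 1 * (p : ℝ) ^ 2 / 1 := by
            have := hw2 p
            gcongr
        _ = (p : ℝ) ^ 2 := by ring
        _ ≤ (p : ℝ) ^ 3 := pow_le_pow_right₀ hp1 (by norm_num)
    have h4 : |∑ p ∈ pin y x, w p ^ 2 * Real.log p ^ 2 / (p : ℝ) ^ 2| ≤ 16 * S₀ := by
      apply hS32 _ _ (by norm_num)
      intro p hp
      obtain ⟨h1, h2, h3, h4⟩ := hpin p hp
      have hp1 : (1 : ℝ) ≤ p := by exact_mod_cast h1.one_lt.le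
      have hp0 : (0 : ℝ) < p := by linarith
      have hlp : 0 ≤ Real.log p := Real.log_nonneg hp1
      rw [abs_of_nonneg (by positivity), div_le_div_iff₀ (by positivity) (by positivity)]
      have h5 : Real.log p ^ 2 ≤ 16 * Real.sqrt p := by
        obtain ⟨q, hq⟩ : ∃ q : ℝ, q = Real.sqrt (Real.sqrt p) := ⟨_, rfl⟩
        have hq0 : 0 < q := by rw [hq]; positivity
        have hq2 : q ^ 2 = Real.sqrt p := by rw [hq]; exact Real.sq_sqrt (Real.sqrt_nonneg _)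
        have hq4 : q ^ 4 = p := by
          have : q ^ 4 = (q ^ 2) ^ 2 := by ring
          rw [this, hq2, Real.sq_sqrt hp0.le]
        have h6 : Real.log p = 4 * Real.log q := by
          rw [← hq4, Real.log_pow]
          norm_num
        have h7 := Real.log_le_sub_one_of_pos hq0
        have h8 : Real.log p ≤ 4 * q := by linarith
        have h9 : Real.log p ^ 2 ≤ (4 * q) ^ 2 := pow_le_pow_left₀ hlp h8 2
        rw [← hq2]
        linarith
      have h6 : (p : ℝ) ^ (3 / 2 : ℝ) = Real.sqrt p ^ 3 := rpow_three_half p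
      rw [h6]
      have hsp : 0 < Real.sqrt p := Real.sqrt_pos.2 hp0
      have hss : (p : ℝ) ^ 2 = Real.sqrt p ^ 4 := by
        have : Real.sqrt p ^ 4 = (Real.sqrt p ^ 2) ^ 2 := by ring
        rw [this, Real.sq_sqrt hp0.le]
      rw [hss]
      calc w p ^ 2 * Real.log p ^ 2 * Real.sqrt p ^ 3 ≤ 1 * (16 * Real.sqrt p) * Real.sqrt p ^ 3 := by
            have := hw2 p
            gcongr
        _ = _ := by ring
    rw [h2]
    obtain ⟨a, ha⟩ : ∃ a : ℝ, a = ∑ p ∈ PP y, w p ^ 2 * Real.log p ^ 2 / (p : ℝ) := ⟨_, rfl⟩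
    obtain ⟨a', ha'⟩ : ∃ a' : ℝ, a' = ∑ p ∈ pin y x, w p ^ 2 * Real.log p ^ 2 / (p : ℝ) ^ 2 := ⟨_, rfl⟩
    rw [← ha] at h3 ⊢
    rw [← ha'] at h4 ⊢
    have hls0 : 0 < l ^ 2 * s ^ 2 := by positivity
    have e1 : 1 / (l ^ 2 * s ^ 2) * (σ - a) - 1 / (l ^ 2 * s ^ 2) * a' - 1 = (-(l ^ 2 * (s ^ 2 - 1 / l ^ 2 * σ)) - a - a') / (l ^ 2 * s ^ 2) := by
      field_simp
      ring
    rw [e1, abs_div, abs_of_pos hls0, div_le_iff₀ hls0]
    refine (abs_sub _ _).trans ((add_le_add (abs_sub _ _) le_rfl).trans ?_)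
    rw [abs_neg, abs_mul, abs_of_pos (by positivity : 0 < l ^ 2)]
    have h5 : l ^ 2 * |s ^ 2 - 1 / l ^ 2 * σ| ≤ l ^ 2 * (η ^ 2 * c₁ / 2) := mul_le_mul_of_nonneg_left (hsσ.trans hcd) (by positivity)
    have h6 : R ≤ l ^ 2 * (η ^ 2 * c₁ / 2) := by
      rw [div_le_iff₀ (by positivity)] at hl4
      have h7 : l * (η ^ 2 * c₁) ≤ l ^ 2 * (η ^ 2 * c₁) := by
        apply mul_le_mul_of_nonneg_right _ (by positivity)
        nlinarith
      linarith
    have h7 : l ^ 2 * (η ^ 2 * c₁) ≤ l ^ 2 * (s ^ 2 * c₁) := by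
      have : η ^ 2 ≤ s ^ 2 := pow_le_pow_left₀ hη.le hs 2
      gcongr
    have h8 : |a| + |a'| ≤ R := by rw [hR]; linarith
    have h9 : c₁ * (l ^ 2 * s ^ 2) = l ^ 2 * (s ^ 2 * c₁) := by ring
    rw [h9]
    linarith
  obtain ⟨Y, hY⟩ : ∃ Y : (Fin d → ℕ) → ℝ, Y = fun m => -(1 / l * ∑ p ∈ PP x, w p * T p m * Real.log p / p) / s := ⟨_, rfl⟩
  have hYF : ∀ m, |Y m - ∑ p ∈ pin y x, F p m| ≤ c₁ := by
    intro m
    have h1 : ∑ p ∈ pin y x, F p m = -(1 / l * ∑ p ∈ pin y x, w p * T p m * Real.log p / p) / s := by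
      rw [hF, mul_sum, ← sum_neg_distrib, sum_div]
      refine sum_congr rfl fun p hp => ?_
      have hp0 : (p : ℝ) ≠ 0 := by exact_mod_cast (hpin p hp).1.ne_zero
      show -(w p * Real.log p / (p * l * s)) * T p m = _
      field_simp
    have h2 : Y m - ∑ p ∈ pin y x, F p m = -(1 / (l * s) * ∑ p ∈ PP y, w p * T p m * Real.log p / p) := by
      have h3 : Y m = -(1 / l * (∑ p ∈ PP y, w p * T p m * Real.log p / p + ∑ p ∈ pin y x, w p * T p m * Real.log p / p)) / s := by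
        rw [← sum_union hdis, ← hPs, hY]
      rw [h3, h1]
      field_simp
      ring
    rw [h2, abs_neg, abs_mul, abs_of_pos (by positivity : 0 < 1 / (l * s))]
    have h3 : |∑ p ∈ PP y, w p * T p m * Real.log p / (p : ℝ)| ≤ Y₀ := by
      refine (abs_sum_le_sum_abs _ _).trans ?_
      rw [hY₀]
      refine sum_le_sum fun p hp => ?_
      have hpp : p.Prime := (mem_filter.1 hp).2
      have hp1 : (1 : ℝ) ≤ p := by exact_mod_cast hpp.one_lt.le
      have h4 : 0 ≤ Real.log p := Real.log_nonneg hp1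
      have h5 : Real.log p ≤ p := by
        have := Real.log_le_sub_one_of_pos (show (0 : ℝ) < p by linarith)
        linarith
      rw [abs_div, abs_mul, abs_mul, abs_of_nonneg h4, abs_of_pos (by linarith : (0 : ℝ) < p)]
      calc |w p| * |T p m| * Real.log p / (p : ℝ) ≤ 1 * (p : ℝ) ^ 2 * p / 1 := by
            have := hw p
            have := hTp p hpp m
            gcongr
        _ = _ := by ring
    have h4 : Y₀ ≤ R := by rw [hR]; linarith
    rw [div_le_iff₀ (by positivity)] at hl3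
    rw [one_div, inv_mul_eq_div, div_le_iff₀ (by positivity)]
    have h5 : l * (η * c₁) ≤ l * (s * c₁) := by gcongr
    have h6 : c₁ * (l * s) = l * (s * c₁) := by ring
    rw [h6]
    linarith
  have h := key r K x hrK ((one_div_le_one_div_of_le hc0 hca).trans hx) (fun i => by
      rw [← hl]
      exact (hxr i).trans (mul_le_mul_of_nonneg_right hca (Nat.cast_nonneg _))) N hN f hf
    (pin y x) (fun p => p) hq hcop F hF0 Mp hFM hMc hMV hvar Y hYF t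
  rw [hY] at h
  exact h

end Pool.Agent.X22.EQ
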