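import Pool.Agent.X22.EQ1

set_option autoImplicit false

/-! Moments of sums of local functions over the vectors of numbers obtained by few changes of digits, without loss. -/

namespace Pool.Agent.X22.EQ
open Finset Filter
open Pool.Agent.TH894.ND Pool.Agent.TH894.NE
open Pool.Agent.TH894.SM (change change_eq)

/-- **Moments over few-digit changes.** -/
theorem moment_few (b d j : ℕ) (hb : 2 ≤ b) (hd : 1 ≤ d) (hj1 : 1 ≤ j) : ∃ c : ℝ, 0 < c ∧ ∃ x₀ : ℕ,
    ∀ (r K : Fin d → ℕ) (x : ℕ), (∀ i, 2 * r i ≤ K i) → x₀ ≤ x → (∀ i, Real.log x ^ 2 ≤ c * r i) →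
    ∀ N : Fin d → ℕ, (∀ i, N i < b ^ K i) → ∀ f : Fin d → ℕ → ℕ, (∀ i j, f i j < b ∧ f i j ≠ N i / b ^ j % b) →
    ∀ {ι : Type} (I : Finset ι) (q : ι → ℕ), (∀ a ∈ I, 1 ≤ q a ∧ q a ≤ x ∧ Nat.Coprime (q a) (b * b).factorial) →
    (∀ a ∈ I, ∀ a' ∈ I, a ≠ a' → Nat.Coprime (q a) (q a')) → ∀ F : ι → (Fin d → ℕ) → ℝ,
    (∀ a ∈ I, Per (q a) (F a) ∧ mean d (q a) (F a) = 0) →
    ∀ M : ι → ℝ, (∀ a ∈ I, ∀ n, |F a n| ≤ M a) →
    ∑ S ∈ Fintype.piFinset (fun i => powersetCard (r i) (range (K i))),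
      (∑ a ∈ I, F a (fun i => change b (K i) (N i) (f i) (S i))) ^ (2 * j) ≤
      12 * (2 * j).factorial * (∑ a ∈ I, M a ^ 2) ^ j * ∏ i, ((K i).choose (r i) : ℝ) := by
  classical
  have hjr : (1 : ℝ) ≤ j := by exact_mod_cast hj1
  have hdr : (1 : ℝ) ≤ d := by exact_mod_cast hd
  obtain ⟨η, hη, hexp⟩ := few_exp b hb
  obtain ⟨L, hL⟩ : ∃ L, L = (b * b).factorial := ⟨_, rfl⟩
  obtain ⟨a₀, ha₀⟩ : ∃ a₀ : ℝ, a₀ = η / (4 * j) := ⟨_, rfl⟩
  have ha0 : 0 < a₀ := by rw [ha₀]; positivity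
  obtain ⟨c, hc⟩ : ∃ c : ℝ, c = min (1 / (8 * (j : ℝ))) (min (a₀ / (8 * (j : ℝ) * d)) (a₀ ^ 2 / 48)) := ⟨_, rfl⟩
  have hc0 : 0 < c := by rw [hc]; exact lt_min (by positivity) (lt_min (by positivity) (by positivity))
  have hc1 : c ≤ 1 / (8 * (j : ℝ)) := by rw [hc]; exact min_le_left _ _
  have hc2 : c ≤ a₀ / (8 * j * d) := by rw [hc]; exact (min_le_right _ _).trans (min_le_left _ _)
  have hc3 : c ≤ a₀ ^ 2 / 48 := by rw [hc]; exact (min_le_right _ _).trans (min_le_right _ _)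
  refine ⟨c, hc0, 3, fun r K x hrK hx hxr N hN f hf ι I q hq hcop F hF M hM => ?_⟩
  have hx3 : (3 : ℝ) ≤ x := by exact_mod_cast hx
  have hx0 : (0 : ℝ) < x := by linarith
  have hx1' : (1 : ℝ) ≤ x := by linarith
  obtain ⟨l, hl⟩ : ∃ l : ℝ, l = Real.log x := ⟨_, rfl⟩
  have hl1 : 1 ≤ l := by
    rw [hl, Real.le_log_iff_exp_le hx0]
    have := Real.exp_one_lt_d9
    linarith
  rw [← hl] at hxr
  -- the case of vanishing bounds
  obtain ⟨V, hV⟩ : ∃ V : ℝ, V = ∑ a ∈ I, M a ^ 2 := ⟨_, rfl⟩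
  have hV0 : 0 ≤ V := by rw [hV]; exact sum_nonneg fun a _ => sq_nonneg _
  have hMV : ∀ a ∈ I, M a ^ 2 ≤ V := by
    intro a ha
    rw [hV]
    exact single_le_sum (f := fun a => M a ^ 2) (fun a _ => sq_nonneg _) ha
  have hMn : ∀ a ∈ I, 0 ≤ M a := fun a ha => (abs_nonneg _).trans (hM a ha (fun _ => 0))
  rw [← hV]
  rcases hV0.eq_or_lt with hV1 | hV1
  · rw [← hV1, zero_pow (by omega), mul_zero, zero_mul]
    refine le_of_eq (sum_eq_zero fun S _ => ?_)
    rw [sum_eq_zero (fun a ha => ?_), zero_pow (by omega)]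
    have h1 := hMV a ha
    rw [← hV1] at h1
    have h2 : M a = 0 := by
      have := le_antisymm h1 (sq_nonneg _)
      exact pow_eq_zero_iff (by norm_num) |>.1 this
    have h3 := hM a ha (fun i => change b (K i) (N i) (f i) (S i))
    rw [h2] at h3
    exact abs_nonpos_iff.1 h3
  -- the main case
  obtain ⟨Q, hQ⟩ : ∃ Q, Q = ∏ a ∈ I, q a := ⟨_, rfl⟩
  have hQ1 : 1 ≤ Q := by
    rw [hQ]
    exact Nat.one_le_iff_ne_zero.2 (prod_ne_zero_iff.2 fun a ha => by have := (hq a ha).1; omega)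
  have hLQ : Nat.Coprime (b * b).factorial Q := by
    rw [hQ]
    apply Nat.Coprime.prod_right
    intro a ha
    exact (hq a ha).2.2.symm
  obtain ⟨D, hD⟩ : ∃ D, D = x ^ (2 * j) := ⟨_, rfl⟩
  have hD0 : D ≠ 0 := by
    rw [hD]
    exact pow_ne_zero _ (by omega)
  obtain ⟨W, hW⟩ : ∃ W, W = Nat.log 2 D + 1 := ⟨_, rfl⟩
  have hW1 : 1 ≤ W := by omega
  have hDW : D ≤ (b ^ 2) ^ W := by
    have h1 : D < 2 ^ W := by rw [hW]; exact Nat.lt_pow_succ_log_self (by norm_num) D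
    refine h1.le.trans (Nat.pow_le_pow_left ?_ W)
    nlinarith
  have hWl : (W : ℝ) ≤ 4 * j * l := by
    have h1 : 2 ^ Nat.log 2 D ≤ D := Nat.pow_log_le_self 2 hD0
    have h2 : ((2 : ℝ) ^ Nat.log 2 D) ≤ (x : ℝ) ^ (2 * j) := by
      rw [hD] at h1 ⊢
      exact_mod_cast h1
    have h3 := Real.log_le_log (by positivity) h2
    rw [Real.log_pow, Real.log_pow, ← hl] at h3
    have h4 := Real.log_two_gt_d9
    have h5 : (Nat.log 2 D : ℝ) * 0.69 ≤ 2 * j * l := by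
      have : (0 : ℝ) ≤ (Nat.log 2 D : ℝ) := Nat.cast_nonneg _
      push_cast at h3
      nlinarith
    have h6 : (1 : ℝ) ≤ j * l := by nlinarith
    rw [hW]
    push_cast
    nlinarith
  have hWr : (1 : ℝ) ≤ W := by exact_mod_cast hW1
  have hrl : ∀ i, l ^ 2 ≤ c * r i := hxr
  have hr1 : ∀ i, 1 ≤ r i := by
    intro i
    have h1 : 0 < c * (r i : ℝ) := by
      have := hrl i
      nlinarith
    have h2 : (0 : ℝ) < r i := by
      by_contra h
      push Not at h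
      have := mul_nonpos_of_nonneg_of_nonpos hc0.le h
      linarith
    have h3 : 0 < r i := by exact_mod_cast h2
    omega
  have hWK : ∀ i, 4 * W ≤ K i := by
    intro i
    have h1 : (2 : ℝ) * r i ≤ K i := by exact_mod_cast hrK i
    have h2 := hrl i
    have h3 : 8 * (j : ℝ) * l ≤ r i := by
      have h4 : l ≤ c * r i := by nlinarith
      have h5 : c * (r i : ℝ) ≤ 1 / (8 * j) * r i := mul_le_mul_of_nonneg_right hc1 (Nat.cast_nonneg _)
      have h6 : l ≤ 1 / (8 * j) * r i := h4.trans h5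
      rw [one_div, inv_mul_eq_div, le_div_iff₀ (by positivity)] at h6
      linarith
    have h7 : (4 : ℝ) * W ≤ K i := by linarith
    exact_mod_cast h7
  obtain ⟨ε, hε⟩ : ∃ ε : ℝ, ε = (x : ℝ) ^ (-(4 * (j : ℝ) * d)) := ⟨_, rfl⟩
  have hε0 : 0 ≤ ε := by rw [hε]; positivity
  have hε1 : ε ≤ 1 := by
    rw [hε]
    apply Real.rpow_le_one_of_one_le_of_nonpos hx1'
    have : 0 ≤ 4 * (j : ℝ) * d := by positivity
    linarith
  have hbound : ∀ i, (4 * (r i : ℝ) + 2) * Real.exp (-(η * r i / W)) ≤ ε := by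
    intro i
    have hri : (1 : ℝ) ≤ r i := by exact_mod_cast hr1 i
    obtain ⟨ρ, hρ⟩ : ∃ ρ : ℝ, ρ = r i / l := ⟨_, rfl⟩
    have hl0 : 0 < l := by linarith
    have hρ0 : 0 < ρ := by rw [hρ]; positivity
    have hρl : ρ * l = r i := by rw [hρ]; field_simp
    have h1 : a₀ * ρ ≤ η * r i / W := by
      rw [ha₀, hρ, le_div_iff₀ (by positivity)]
      have e1 : η / (4 * j) * (r i / l) * W = (η * r i) * (W / (4 * j * l)) := by field_simp
      rw [e1]
      have e2 : (W : ℝ) / (4 * j * l) ≤ 1 := by rw [div_le_one (by positivity)]; exact hWl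
      calc (η * r i) * (W / (4 * j * l)) ≤ (η * r i) * 1 := mul_le_mul_of_nonneg_left e2 (by positivity)
        _ = _ := mul_one _
    have h2 : l ≤ c * ρ := by
      have := hrl i
      rw [← hρl] at this
      have h3 : l * l ≤ (c * ρ) * l := by nlinarith
      exact le_of_mul_le_mul_right h3 hl0
    have h3 : 4 * (j : ℝ) * d * l ≤ a₀ / 2 * ρ := by
      calc 4 * (j : ℝ) * d * l ≤ 4 * j * d * (c * ρ) := mul_le_mul_of_nonneg_left h2 (by positivity)
        _ ≤ 4 * j * d * ((a₀ / (8 * j * d)) * ρ) := by gcongr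
        _ = a₀ / 2 * ρ := by field_simp; ring
    have h4 : 4 * (r i : ℝ) + 2 ≤ Real.exp (a₀ / 2 * ρ) := by
      have h5 := Real.pow_div_factorial_le_exp (x := a₀ / 2 * ρ) (by positivity) 2
      have h6 : (r i : ℝ) ≤ c * ρ ^ 2 := by
        calc (r i : ℝ) = ρ * l := hρl.symm
          _ ≤ ρ * (c * ρ) := mul_le_mul_of_nonneg_left h2 hρ0.le
          _ = _ := by ring
      have h7 : c * ρ ^ 2 ≤ a₀ ^ 2 / 48 * ρ ^ 2 := mul_le_mul_of_nonneg_right hc3 (sq_nonneg _)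
      have h8 : ((2 : ℕ).factorial : ℝ) = 2 := by norm_num [Nat.factorial]
      rw [h8] at h5
      nlinarith
    rw [hε, Real.rpow_def_of_pos hx0, ← hl]
    calc (4 * (r i : ℝ) + 2) * Real.exp (-(η * r i / W)) ≤ Real.exp (a₀ / 2 * ρ) * Real.exp (-(a₀ * ρ)) := by
          apply mul_le_mul h4 (Real.exp_le_exp.2 (by linarith)) (Real.exp_pos _).le (Real.exp_pos _).le
      _ = Real.exp (-(a₀ / 2 * ρ)) := by
          rw [← Real.exp_add]
          congr 1
          ring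
      _ ≤ _ := by
          apply Real.exp_le_exp.2
          linarith
  have hgood : ∀ i, ∀ k ∈ Fr Q D, k ∉ (fun _ : Fin d => ({0} : Finset ℕ)) i →
      ‖∑ S ∈ powersetCard (r i) (range (K i)), ee ((k : ℝ) * (change b (K i) (N i) (f i) S : ℕ) / Q)‖ ≤
      ε * ((powersetCard (r i) (range (K i))).card : ℝ) := by
    intro i k hk hkB
    have hk0 : k ≠ 0 := by
      intro h
      apply hkB
      rw [h]
      exact mem_singleton_self _
    refine (hexp (K i) (r i) W Q D k (hr1 i) (hrK i) hW1 (hWK i) hQ1 hLQ hDW hk hk0 (N i) (hN i) (f i) (hf i)).trans ?_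
    exact mul_le_mul_of_nonneg_right (hbound i) (Nat.cast_nonneg _)
  -- the moment
  have hsV : 0 < Real.sqrt V := Real.sqrt_pos.2 hV1
  obtain ⟨G, hG⟩ : ∃ G : ι → (Fin d → ℕ) → ℝ, G = fun a n => F a n / Real.sqrt V := ⟨_, rfl⟩
  have hGper : ∀ a ∈ I, Per (q a) (G a) := by
    intro a ha n
    rw [hG]
    show F a n / Real.sqrt V = F a (fun i => n i % q a) / Real.sqrt V
    rw [(hF a ha).1 n]
  have hG1 : ∀ a ∈ I, ∀ n, |G a n| ≤ 1 := by
    intro a ha n
    rw [hG]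
    show |F a n / Real.sqrt V| ≤ 1
    rw [abs_div, abs_of_pos hsV, div_le_one hsV]
    exact (hM a ha n).trans (Real.le_sqrt_of_sq_le (hMV a ha))
  have hG0 : ∀ a ∈ I, mean d (q a) (G a) = 0 := by
    intro a ha
    have h1 : G a = fun n => (1 / Real.sqrt V) * F a n := by
      rw [hG]
      funext n
      ring
    rw [h1, mean_mul, (hF a ha).2, mul_zero]
  have hGV : ∑ a ∈ I, mean d (q a) (fun n => G a n ^ 2) ≤ 1 := by
    have h1 : ∀ a ∈ I, mean d (q a) (fun n => G a n ^ 2) ≤ M a ^ 2 / V := by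
      intro a ha
      refine (mean_mono (G := fun _ => M a ^ 2 / V) fun n => ?_).trans (le_of_eq (mean_const d (q a) (hq a ha).1 _))
      rw [hG]
      show (F a n / Real.sqrt V) ^ 2 ≤ M a ^ 2 / V
      rw [div_pow, Real.sq_sqrt hV1.le]
      apply div_le_div_of_nonneg_right _ hV1.le
      exact sq_le_sq' (by have := abs_le.1 (hM a ha n); linarith [this.1]) (abs_le.1 (hM a ha n)).2
    refine (sum_le_sum h1).trans ?_
    rw [← sum_div, ← hV, div_self hV1.ne']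
  obtain ⟨H, hH⟩ : ∃ H : (Fin d → ℕ) → ℝ, H = fun n => (∑ a ∈ I, G a n) ^ (2 * j) := ⟨_, rfl⟩
  have hHQ : Per Q H := by
    intro m
    rw [hH]
    show (∑ a ∈ I, G a m) ^ (2 * j) = (∑ a ∈ I, G a (fun i => m i % Q)) ^ (2 * j)
    congr 1
    refine sum_congr rfl fun a ha => ?_
    exact ((hGper a ha).of_dvd (by rw [hQ]; exact dvd_prod_of_mem q ha)) m
  have hH0 : ∀ n, 0 ≤ H n := by
    intro m
    rw [hH]
    exact (even_two_mul j).pow_nonneg _
  have havg := avgd_le (fun i => powersetCard (r i) (range (K i))) (fun i S => change b (K i) (N i) (f i) S) Q hQ1 H hHQ hH0 (Fr Q D)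
    (fun _ : Fin d => ({0} : Finset ℕ))
    (by
      intro k hk hkF
      obtain ⟨i₀, hi₀⟩ := hkF
      rw [hH]
      rw [hD] at hi₀
      exact cfd_zero I q G Q (2 * j) x hQ1 (fun a ha => ⟨(hq a ha).1, (hq a ha).2.1,
        by rw [hQ]; exact dvd_prod_of_mem q ha⟩) hGper k hk i₀ hi₀)
    ε hε0 hε1 hgood 1 (fun i => by simp)
  have hmom := momentd I q (fun a ha => (hq a ha).1) hcop G hGper hG1 hG0 1 le_rfl hGV j
  rw [← hQ, one_pow, mul_one] at hmom
  obtain ⟨C, hC⟩ : ∃ C : ℝ, C = ∏ i, ((K i).choose (r i) : ℝ) := ⟨_, rfl⟩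
  have hC0 : 0 ≤ C := by rw [hC]; exact prod_nonneg fun i _ => Nat.cast_nonneg _
  have hcard : ∏ i, (((powersetCard (r i) (range (K i))).card : ℕ) : ℝ) = C := by
    rw [hC]
    exact prod_congr rfl fun i _ => by rw [card_powersetCard, card_range]
  rw [hcard] at havg
  rw [← hC]
  have hFrd : ((Fr Q D).card : ℝ) ^ d * ε ≤ 1 := by
    have h2 : ((Fr Q D).card : ℝ) ≤ ((D * D : ℕ) : ℝ) := by exact_mod_cast Fr_card Q D hQ1
    have h3 : ((D * D : ℕ) : ℝ) = (x : ℝ) ^ (4 * (j : ℝ)) := by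
      rw [hD]
      push_cast
      rw [← pow_add, ← Real.rpow_natCast]
      congr 1
      push_cast
      ring
    rw [h3] at h2
    calc ((Fr Q D).card : ℝ) ^ d * ε ≤ ((x : ℝ) ^ (4 * (j : ℝ))) ^ d * ε := by gcongr
      _ = 1 := by
          rw [hε, ← Real.rpow_natCast ((x : ℝ) ^ (4 * (j : ℝ))), ← Real.rpow_mul hx0.le, ← Real.rpow_add hx0]
          have : 4 * (j : ℝ) * d + -(4 * (j : ℝ) * d) = 0 := by ring
          rw [this, Real.rpow_zero]
  have hHsum : 1 / (Q : ℝ) ^ d * ∑ n ∈ box d Q, H n ≤ 6 * (2 * j).factorial := by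
    have : 1 / (Q : ℝ) ^ d * ∑ n ∈ box d Q, H n = mean d Q (fun n => (∑ a ∈ I, G a n) ^ (2 * j)) := by
      rw [hH]
      rfl
    rw [this]
    exact hmom
  have hfac : (0 : ℝ) < (2 * j).factorial := by exact_mod_cast Nat.factorial_pos _
  have htot : ∑ S ∈ Fintype.piFinset (fun i => powersetCard (r i) (range (K i))), H (fun i => change b (K i) (N i) (f i) (S i)) ≤
      (6 * (2 * j).factorial) * (2 * C) := by
    refine havg.trans ?_
    apply mul_le_mul hHsum _ (by positivity) (by positivity)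
    apply mul_le_mul_of_nonneg_right _ hC0
    rw [one_pow]
    linarith
  have hfin : ∀ n, (∑ a ∈ I, F a n) ^ (2 * j) = V ^ j * H n := by
    intro n
    rw [hH, hG]
    show _ = V ^ j * (∑ a ∈ I, F a n / Real.sqrt V) ^ (2 * j)
    rw [← sum_div, div_pow, pow_mul (Real.sqrt V), Real.sq_sqrt hV1.le]
    field_simp
  rw [sum_congr rfl fun S _ => hfin _, ← mul_sum]
  calc V ^ j * ∑ S ∈ Fintype.piFinset (fun i => powersetCard (r i) (range (K i))), H (fun i => change b (K i) (N i) (f i) (S i)) ≤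
        V ^ j * ((6 * (2 * j).factorial) * (2 * C)) := mul_le_mul_of_nonneg_left htot (by positivity)
    _ = _ := by ring

end Pool.Agent.X22.EQ
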