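import Pool.Agent.X22.EQ14

set_option autoImplicit false

/-! The normal law over few-digit changes under the condition of Lindeberg. -/

namespace Pool.Agent.X22.EQ
open Finset Filter
open Pool.Agent.TH894.ND Pool.Agent.TH894.NE
open Pool.Agent.TH894.SM (change change_eq)

lemma mean_nonneg' {d q : ℕ} (F : (Fin d → ℕ) → ℝ) (h : ∀ n, 0 ≤ F n) : 0 ≤ mean d q F := by
  unfold mean
  exact mul_nonneg (by positivity) (sum_nonneg fun _ _ => h _)

/-- the local characteristic function -/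
lemma loc_char2 (d q : ℕ) (hq : 1 ≤ q) (F : (Fin d → ℕ) → ℝ) (h0 : mean d q F = 0) (M : ℝ) (hM : ∀ n, |F n| ≤ M) (u : ℝ) (hu : |u| * M ≤ 1) :
    ‖cmean d q (fun n => Complex.exp ((u * F n : ℝ) * Complex.I)) - ((Real.exp (-(u ^ 2 / 2 * mean d q (fun n => F n ^ 2))) : ℝ) : ℂ)‖ ≤
      (|u| ^ 3 * M + u ^ 4 * M ^ 2) * mean d q (fun n => F n ^ 2) := by
  have hM0 : 0 ≤ M := (abs_nonneg _).trans (hM (fun _ => 0))
  obtain ⟨v, hv⟩ : ∃ v : ℝ, v = mean d q (fun n => F n ^ 2) := ⟨_, rfl⟩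
  rw [← hv]
  have hv0 : 0 ≤ v := by
    rw [hv]
    exact mean_nonneg' _ fun n => sq_nonneg _
  have hv1 : v ≤ M ^ 2 := by
    rw [hv]
    refine (mean_mono (G := fun _ => M ^ 2) fun n => ?_).trans (le_of_eq (mean_const d q hq _))
    rw [← sq_abs]
    exact pow_le_pow_left₀ (abs_nonneg _) (hM n) 2
  have h1 : cmean d q (fun n => Complex.exp ((u * F n : ℝ) * Complex.I)) - ((1 - u ^ 2 / 2 * v : ℝ) : ℂ) =
      cmean d q (fun n => Complex.exp ((u * F n : ℝ) * Complex.I) - ∑ k ∈ range 3, (((u * F n : ℝ) : ℂ) * Complex.I) ^ k / (k.factorial : ℂ)) := by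
    rw [cmean_sub]
    congr 1
    have h2 : (fun n : Fin d → ℕ => ∑ k ∈ range 3, (((u * F n : ℝ) : ℂ) * Complex.I) ^ k / (k.factorial : ℂ)) =
        fun n => (((1 : ℝ) : ℂ) + (u * Complex.I) * ((F n : ℝ) : ℂ)) + (-(u ^ 2 / 2 : ℝ) : ℂ) * ((F n ^ 2 : ℝ) : ℂ) := by
      funext n
      simp only [sum_range_succ, range_zero, sum_empty, zero_add, pow_zero, pow_one, Nat.factorial, Nat.cast_one, div_one, mul_one, mul_pow, Complex.I_sq]
      push_cast
      ring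
    rw [h2, cmean_add d q (fun n => ((1 : ℝ) : ℂ) + (u * Complex.I) * ((F n : ℝ) : ℂ)) (fun n => (-(u ^ 2 / 2 : ℝ) : ℂ) * ((F n ^ 2 : ℝ) : ℂ)),
      cmean_add d q (fun _ => ((1 : ℝ) : ℂ)) (fun n => (u * Complex.I) * ((F n : ℝ) : ℂ)), cmean_mul, cmean_mul,
      cmean_real d q (fun _ => 1), cmean_real d q F, cmean_real d q (fun n => F n ^ 2), h0, mean_const d q hq, ← hv]
    push_cast
    ring
  have h3 : ‖cmean d q (fun n => Complex.exp ((u * F n : ℝ) * Complex.I)) - ((1 - u ^ 2 / 2 * v : ℝ) : ℂ)‖ ≤ |u| ^ 3 * M * v := by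
    rw [h1]
    refine (cmean_norm d q _ (fun n => |u| ^ 3 * M * F n ^ 2) fun n => ?_).trans (le_of_eq (by rw [mean_mul, ← hv]))
    refine (taylor_im (u * F n) 3).trans ?_
    have h4 : |u * F n| ^ 3 ≤ |u| ^ 3 * M * F n ^ 2 := by
      rw [abs_mul, mul_pow]
      have e1 : |F n| ^ 3 = |F n| * F n ^ 2 := by rw [← sq_abs (F n)]; ring
      rw [e1]
      calc |u| ^ 3 * (|F n| * F n ^ 2) ≤ |u| ^ 3 * (M * F n ^ 2) := by
            have := hM n
            gcongr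
        _ = _ := by ring
    have h5 : (0 : ℝ) ≤ |u * F n| ^ 3 := by positivity
    have h6 : ((3 : ℕ).factorial : ℝ) = 6 := by norm_num [Nat.factorial]
    rw [h6]
    linarith
  obtain ⟨y, hy⟩ : ∃ y : ℝ, y = u ^ 2 / 2 * v := ⟨_, rfl⟩
  have huM : (|u| * M) ^ 2 ≤ 1 := pow_le_one₀ (by positivity) hu
  have hy0 : 0 ≤ y := by rw [hy]; positivity
  have hy1 : y ≤ u ^ 2 * M ^ 2 := by
    rw [hy]
    have : u ^ 2 / 2 * v ≤ u ^ 2 / 2 * M ^ 2 := mul_le_mul_of_nonneg_left hv1 (by positivity)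
    nlinarith [sq_nonneg (u * M)]
  have hy2 : y ≤ 1 := by
    rw [mul_pow, sq_abs] at huM
    linarith
  have hy3 : y ≤ u ^ 2 * v := by
    rw [hy]
    have : 0 ≤ u ^ 2 * v := by positivity
    linarith
  have h4 : ‖((1 - y : ℝ) : ℂ) - ((Real.exp (-y) : ℝ) : ℂ)‖ ≤ u ^ 4 * M ^ 2 * v := by
    rw [← Complex.ofReal_sub, Complex.norm_real, Real.norm_eq_abs]
    have h5 := Real.abs_exp_sub_one_sub_id_le (x := -y) (by rw [abs_neg, abs_of_nonneg hy0]; exact hy2)
    have h6 : |1 - y - Real.exp (-y)| = |Real.exp (-y) - 1 - -y| := by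
      rw [← abs_neg]
      congr 1
      ring
    rw [h6]
    refine h5.trans ?_
    rw [neg_sq]
    calc y ^ 2 = y * y := by ring
      _ ≤ (u ^ 2 * M ^ 2) * (u ^ 2 * v) := mul_le_mul hy1 hy3 hy0 (by positivity)
      _ = _ := by ring
  rw [← hy] at h3 ⊢
  have h5 := norm_sub_le_norm_sub_add_norm_sub (cmean d q (fun n => Complex.exp ((u * F n : ℝ) * Complex.I))) ((1 - y : ℝ) : ℂ) ((Real.exp (-y) : ℝ) : ℂ)
  linarith

/-- the two-sided exponential moment -/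
lemma exp_two2 {d : ℕ} {ι : Type*} [DecidableEq ι] (I : Finset ι) (q : ι → ℕ) (hq : ∀ a ∈ I, 1 ≤ q a)
    (hcop : ∀ a ∈ I, ∀ a' ∈ I, a ≠ a' → Nat.Coprime (q a) (q a')) (F : ι → (Fin d → ℕ) → ℝ) (hF : ∀ a ∈ I, Per (q a) (F a))
    (hF0 : ∀ a ∈ I, mean d (q a) (F a) = 0) (M : ℝ) (hM : ∀ a ∈ I, ∀ n, |F a n| ≤ M) (V : ℝ) (hV : ∑ a ∈ I, mean d (q a) (fun n => F a n ^ 2) ≤ V)
    (L : ℝ) (hL : 0 ≤ L) (hLM : L * M ≤ 1) :
    mean d (∏ a ∈ I, q a) (fun n => Real.exp (L * ∑ a ∈ I, F a n) + Real.exp (-(L * ∑ a ∈ I, F a n))) ≤ 2 * Real.exp (L ^ 2 * V) := by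
  have h1 : ∀ s : ℝ, |s| ≤ 1 → s ^ 2 = 1 → mean d (∏ a ∈ I, q a) (fun n => Real.exp (s * ∑ a ∈ I, L * F a n)) ≤ Real.exp (L ^ 2 * V) := by
    intro s hs hs2
    have h2 := exp_moment I q hq hcop (fun a n => L * F a n) (fun a ha n => by
      show L * F a n = L * F a (fun i => n i % q a)
      rw [← hF a ha n]) (fun a ha n => by
      rw [abs_mul, abs_of_nonneg hL]
      exact (mul_le_mul_of_nonneg_left (hM a ha n) hL).trans hLM) (fun a ha => by
      show mean d (q a) (fun n => L * F a n) = 0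
      rw [mean_mul, hF0 a ha, mul_zero]) (L ^ 2 * V) (by
      calc ∑ a ∈ I, mean d (q a) (fun n => (L * F a n) ^ 2) = ∑ a ∈ I, L ^ 2 * mean d (q a) (fun n => F a n ^ 2) := by
            refine sum_congr rfl fun a ha => ?_
            rw [← mean_mul]
            congr 1
            funext n
            ring
        _ = L ^ 2 * ∑ a ∈ I, mean d (q a) (fun n => F a n ^ 2) := by rw [mul_sum]
        _ ≤ _ := mul_le_mul_of_nonneg_left hV (by positivity)) s hs
    rw [hs2, one_mul] at h2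
    exact h2
  rw [mean_add]
  have h2 := h1 1 (by simp) (by norm_num)
  have h3 := h1 (-1) (by simp) (by norm_num)
  have e1 : (fun n : Fin d → ℕ => Real.exp (L * ∑ a ∈ I, F a n)) = fun n => Real.exp (1 * ∑ a ∈ I, L * F a n) := by
    funext n
    rw [one_mul, mul_sum]
  have e2 : (fun n : Fin d → ℕ => Real.exp (-(L * ∑ a ∈ I, F a n))) = fun n => Real.exp (-1 * ∑ a ∈ I, L * F a n) := by
    funext n
    rw [neg_one_mul, mul_sum]
  rw [e1, e2]
  linarith

/-- **Characteristic functions over few-digit changes.** -/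
theorem few_char2 (b d : ℕ) (hb : 2 ≤ b) (hd : 1 ≤ d) (u V δ : ℝ) (hV : 0 ≤ V) (hδ : 0 < δ) : ∃ c : ℝ, 0 < c ∧
    ∀ (r K : Fin d → ℕ) (x : ℕ), (∀ i, 2 * r i ≤ K i) → 1 / c ≤ (x : ℝ) → (∀ i, Real.log x ^ 2 ≤ c * r i) →
    ∀ N : Fin d → ℕ, (∀ i, N i < b ^ K i) → ∀ f : Fin d → ℕ → ℕ, (∀ i j, f i j < b ∧ f i j ≠ N i / b ^ j % b) →
    ∀ {ι : Type} (I : Finset ι) (q : ι → ℕ), (∀ a ∈ I, 1 ≤ q a ∧ q a ≤ x ∧ Nat.Coprime (q a) (b * b).factorial) →
    (∀ a ∈ I, ∀ a' ∈ I, a ≠ a' → Nat.Coprime (q a) (q a')) → ∀ F : ι → (Fin d → ℕ) → ℝ,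
    (∀ a ∈ I, Per (q a) (F a) ∧ mean d (q a) (F a) = 0) →
    (∀ a ∈ I, ∀ n, |F a n| ≤ c) → ∑ a ∈ I, mean d (q a) (fun n => F a n ^ 2) ≤ V →
    ‖∑ S ∈ Fintype.piFinset (fun i => powersetCard (r i) (range (K i))),
      Complex.exp ((u * ∑ a ∈ I, F a (fun i => change b (K i) (N i) (f i) (S i)) : ℝ) * Complex.I) -
      ((Real.exp (-(u ^ 2 / 2 * ∑ a ∈ I, mean d (q a) (fun n => F a n ^ 2))) : ℝ) : ℂ) * ((∏ i, ((K i).choose (r i) : ℝ) : ℝ) : ℂ)‖ ≤
      δ * ∏ i, ((K i).choose (r i) : ℝ) := by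
  classical
  obtain ⟨L, hL⟩ : ∃ L : ℝ, L = 2 * |u| + 1 := ⟨_, rfl⟩
  have hu0 : 0 ≤ |u| := abs_nonneg u
  have hL1 : 1 ≤ L := by rw [hL]; linarith
  obtain ⟨E, hE⟩ : ∃ E : ℝ, E = Real.exp (L ^ 2 * V) := ⟨_, rfl⟩
  have hE0 : 0 < E := by rw [hE]; exact Real.exp_pos _
  have hE1 : 1 ≤ E := by rw [hE]; exact Real.one_le_exp (by positivity)
  obtain ⟨J, hJ⟩ : ∃ J : ℕ, (1 / 4 : ℝ) ^ J < δ / (18 * E) := exists_pow_lt_of_lt_one (by positivity) (by norm_num)
  obtain ⟨j, hj⟩ : ∃ j, j = J + 1 := ⟨_, rfl⟩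
  have hj1 : 1 ≤ j := by omega
  have hj4 : (1 / 4 : ℝ) ^ j ≤ δ / (18 * E) := by
    rw [hj, pow_succ]
    have : (0 : ℝ) < (1 / 4 : ℝ) ^ J := by positivity
    linarith
  obtain ⟨c₁, hc₁, hpow⟩ := few_pow b d j hb hd hj1
  obtain ⟨B, hB⟩ : ∃ B : ℝ, B = (|u| ^ 3 + u ^ 4) * V + 1 := ⟨_, rfl⟩
  have hB1 : 1 ≤ B := by rw [hB]; nlinarith [show 0 ≤ (|u| ^ 3 + u ^ 4) * V by positivity]
  obtain ⟨c, hc⟩ : ∃ c : ℝ, c = min c₁ (min (1 / 3) (min (1 / L) (min (δ / (12 * j * E)) (δ / (3 * B))))) := ⟨_, rfl⟩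
  have hjr : (1 : ℝ) ≤ j := by exact_mod_cast hj1
  have hc0 : 0 < c := by
    rw [hc]
    exact lt_min hc₁ (lt_min (by norm_num) (lt_min (by positivity) (lt_min (by positivity) (by positivity))))
  have hca : c ≤ c₁ := by rw [hc]; exact min_le_left _ _
  have hcb : c ≤ 1 / 3 := by rw [hc]; exact (min_le_right _ _).trans (min_le_left _ _)
  have hcc : c ≤ 1 / L := by rw [hc]; exact (min_le_right _ _).trans ((min_le_right _ _).trans (min_le_left _ _))
  have hcd : c ≤ δ / (12 * j * E) := by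
    rw [hc]; exact (min_le_right _ _).trans ((min_le_right _ _).trans ((min_le_right _ _).trans (min_le_left _ _)))
  have hce : c ≤ δ / (3 * B) := by
    rw [hc]; exact (min_le_right _ _).trans ((min_le_right _ _).trans ((min_le_right _ _).trans (min_le_right _ _)))
  refine ⟨c, hc0, fun r K x hrK hx hxr N hN f hf ι I q hq hcop F hF hM hMV => ?_⟩
  have hx3r : (3 : ℝ) ≤ x := by
    refine le_trans ?_ hx
    rw [le_div_iff₀ hc0]
    linarith
  have hx3 : 3 ≤ x := by exact_mod_cast hx3r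
  have hx0 : (0 : ℝ) < x := by linarith
  have hxc : 1 / (x : ℝ) ≤ c := by
    rw [div_le_iff₀ hx0]
    rw [div_le_iff₀ hc0] at hx
    linarith
  have hx1 : 1 / (x : ℝ) ≤ 1 := by rw [div_le_one hx0]; linarith
  have hLM : L * c ≤ 1 := by
    have h1 := hcc
    rw [le_div_iff₀ (by linarith)] at h1
    linarith
  have huM : |u| * c ≤ 1 := by
    refine le_trans ?_ hLM
    exact mul_le_mul_of_nonneg_right (by rw [hL]; linarith) hc0.le
  have hq1 : ∀ a ∈ I, 1 ≤ q a := fun a ha => (hq a ha).1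
  have hper : ∀ a ∈ I, Per (q a) (F a) := fun a ha => (hF a ha).1
  have h00 : ∀ a ∈ I, mean d (q a) (F a) = 0 := fun a ha => (hF a ha).2
  obtain ⟨C, hC⟩ : ∃ C : ℝ, C = ∏ i, ((K i).choose (r i) : ℝ) := ⟨_, rfl⟩
  have hC0 : 0 ≤ C := by rw [hC]; exact prod_nonneg fun i _ => Nat.cast_nonneg _
  obtain ⟨O, hO⟩ : ∃ O, O = Fintype.piFinset (fun i => powersetCard (r i) (range (K i))) := ⟨_, rfl⟩
  obtain ⟨X, hX⟩ : ∃ X : (Fin d → ℕ) → ℝ, X = fun n => ∑ a ∈ I, F a n := ⟨_, rfl⟩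
  obtain ⟨g, hg⟩ : ∃ g : (Fin d → Finset ℕ) → (Fin d → ℕ), g = fun S i => change b (K i) (N i) (f i) (S i) := ⟨_, rfl⟩
  obtain ⟨Q, hQ⟩ : ∃ Q, Q = ∏ a ∈ I, q a := ⟨_, rfl⟩
  have hpow' : ∀ k ≤ 2 * j, |∑ S ∈ O, X (g S) ^ k - mean d Q (fun n => X n ^ k) * C| ≤ mean d Q (fun n => |X n| ^ k) * (1 / x) * C := by
    intro k hk
    have h1 := hpow r K x hrK hx3 (fun i => (hxr i).trans (mul_le_mul_of_nonneg_right hca (Nat.cast_nonneg _))) N hN f hf I q hq F hper k hk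
    rw [hO, hX, hg, hQ, hC]
    exact h1
  have goal : ‖∑ S ∈ O, Complex.exp ((u * X (g S) : ℝ) * Complex.I) - ((Real.exp (-(u ^ 2 / 2 * ∑ a ∈ I, mean d (q a) (fun n => F a n ^ 2))) : ℝ) : ℂ) * ((C : ℝ) : ℂ)‖ ≤
      δ * C := by
    obtain ⟨Tn, hTn⟩ : ∃ Tn : (Fin d → ℕ) → ℂ, Tn = fun n => ∑ k ∈ range (2 * j), (((u * X n : ℝ) : ℂ) * Complex.I) ^ k / (k.factorial : ℂ) := ⟨_, rfl⟩
    obtain ⟨Rn, hRn⟩ : ∃ Rn : (Fin d → ℕ) → ℂ, Rn = fun n => Complex.exp ((u * X n : ℝ) * Complex.I) - Tn n := ⟨_, rfl⟩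
    obtain ⟨P, hP⟩ : ∃ P : ℝ, P = |u| ^ (2 * j) / ((2 * j).factorial : ℝ) := ⟨_, rfl⟩
    have hP0 : 0 ≤ P := by rw [hP]; positivity
    have hRb : ∀ n, ‖Rn n‖ ≤ P * X n ^ (2 * j) := by
      intro n
      rw [hRn, hTn]
      refine (taylor_im (u * X n) (2 * j)).trans (le_of_eq ?_)
      rw [abs_mul, mul_pow, (even_two_mul j).pow_abs (X n), hP]
      ring
    -- exponential moments
    have hexpL := exp_two2 I q hq1 hcop F hper h00 c hM V hMV L (by linarith) hLM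
    have hexpu := exp_two2 I q hq1 hcop F hper h00 c hM V hMV |u| hu0 huM
    rw [← hQ] at hexpL hexpu
    have hEu : Real.exp (|u| ^ 2 * V) ≤ E := by
      rw [hE]
      apply Real.exp_le_exp.2
      apply mul_le_mul_of_nonneg_right _ hV
      exact pow_le_pow_left₀ hu0 (by rw [hL]; linarith) 2
    have hmX : ∀ k, |u| ^ k / (k.factorial : ℝ) * mean d Q (fun n => |X n| ^ k) ≤ 2 * E := by
      intro k
      rw [← mean_mul]
      refine le_trans (mean_mono fun n => ?_) (hexpu.trans (by linarith))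
      have h1 := abs_pow_exp (|u| * X n) k
      rw [abs_mul, abs_abs, mul_pow] at h1
      rw [hX] at h1 ⊢
      refine le_trans (le_of_eq ?_) h1
      ring
    have hmR : P * mean d Q (fun n => X n ^ (2 * j)) ≤ (1 / 4) ^ j * (2 * E) := by
      rw [← mean_mul]
      have h1 : mean d Q (fun n => P * X n ^ (2 * j)) ≤ mean d Q (fun n => (1 / 4 : ℝ) ^ j * (Real.exp (L * ∑ a ∈ I, F a n) + Real.exp (-(L * ∑ a ∈ I, F a n)))) := by
        apply mean_mono
        intro n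
        have h2 := abs_pow_exp (L * X n) (2 * j)
        have h3 : P * X n ^ (2 * j) ≤ (1 / 4 : ℝ) ^ j * (|L * X n| ^ (2 * j) / ((2 * j).factorial : ℝ)) := by
          rw [hP, abs_mul, mul_pow, (even_two_mul j).pow_abs (X n), abs_of_nonneg (by linarith : (0 : ℝ) ≤ L)]
          have h4 : |u| ^ (2 * j) ≤ (1 / 4 : ℝ) ^ j * L ^ (2 * j) := by
            have h5 : |u| ≤ L / 2 := by rw [hL]; linarith
            calc |u| ^ (2 * j) ≤ (L / 2) ^ (2 * j) := pow_le_pow_left₀ hu0 h5 _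
              _ = (1 / 4 : ℝ) ^ j * L ^ (2 * j) := by
                  rw [pow_mul, pow_mul L, ← mul_pow]
                  congr 1
                  ring
          have h6 : (0 : ℝ) ≤ X n ^ (2 * j) := (even_two_mul j).pow_nonneg _
          have h7 : |u| ^ (2 * j) / ((2 * j).factorial : ℝ) * X n ^ (2 * j) ≤ ((1 / 4 : ℝ) ^ j * L ^ (2 * j)) / ((2 * j).factorial : ℝ) * X n ^ (2 * j) := by
            gcongr
          refine h7.trans (le_of_eq (by ring))
        refine h3.trans (mul_le_mul_of_nonneg_left ?_ (by positivity))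
        rw [hX] at h2 ⊢
        exact h2
      refine h1.trans ?_
      rw [mean_mul]
      apply mul_le_mul_of_nonneg_left _ (by positivity)
      rw [hE]
      exact hexpL
    -- the main comparison
    have hTs : ‖∑ S ∈ O, Tn (g S) - cmean d Q Tn * (C : ℂ)‖ ≤ (2 * j) * (2 * E) * (1 / x) * C := by
      have h1 : ∑ S ∈ O, Tn (g S) - cmean d Q Tn * (C : ℂ) = ∑ k ∈ range (2 * j), (((u : ℂ) * Complex.I) ^ k / (k.factorial : ℂ)) *
          ((∑ S ∈ O, X (g S) ^ k - mean d Q (fun n => X n ^ k) * C : ℝ) : ℂ) := by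
        have h2 : ∀ n, Tn n = ∑ k ∈ range (2 * j), (((u : ℂ) * Complex.I) ^ k / (k.factorial : ℂ)) * ((X n ^ k : ℝ) : ℂ) := by
          intro n
          rw [hTn]
          refine sum_congr rfl fun k _ => ?_
          push_cast
          rw [mul_pow, mul_pow, mul_pow]
          ring
        have h3 : cmean d Q Tn = ∑ k ∈ range (2 * j), (((u : ℂ) * Complex.I) ^ k / (k.factorial : ℂ)) * ((mean d Q (fun n => X n ^ k) : ℝ) : ℂ) := by
          have h4 : Tn = fun n => ∑ k ∈ range (2 * j), (((u : ℂ) * Complex.I) ^ k / (k.factorial : ℂ)) * ((X n ^ k : ℝ) : ℂ) := funext h2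
          rw [h4]
          unfold cmean
          rw [sum_comm, mul_sum]
          refine sum_congr rfl fun k _ => ?_
          rw [← mul_sum, ← cmean_real]
          unfold cmean
          ring
        rw [h3, sum_congr rfl fun S _ => h2 (g S), sum_comm, sum_mul, ← sum_sub_distrib]
        refine sum_congr rfl fun k _ => ?_
        rw [← mul_sum]
        push_cast
        ring
      rw [h1]
      refine (norm_sum_le _ _).trans ?_
      have h2 : ∀ k ∈ range (2 * j), ‖(((u : ℂ) * Complex.I) ^ k / (k.factorial : ℂ)) * ((∑ S ∈ O, X (g S) ^ k - mean d Q (fun n => X n ^ k) * C : ℝ) : ℂ)‖ ≤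
          (2 * E) * (1 / x) * C := by
        intro k hk
        rw [norm_mul, norm_div, norm_pow, norm_mul, Complex.norm_I, mul_one, Complex.norm_real, Complex.norm_real, Complex.norm_natCast,
          Real.norm_eq_abs, Real.norm_eq_abs]
        have h3 := hpow' k (mem_range.1 hk).le
        calc |u| ^ k / (k.factorial : ℝ) * |∑ S ∈ O, X (g S) ^ k - mean d Q (fun n => X n ^ k) * C| ≤
              |u| ^ k / (k.factorial : ℝ) * (mean d Q (fun n => |X n| ^ k) * (1 / x) * C) := mul_le_mul_of_nonneg_left h3 (by positivity)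
          _ = (|u| ^ k / (k.factorial : ℝ) * mean d Q (fun n => |X n| ^ k)) * ((1 / x) * C) := by ring
          _ ≤ (2 * E) * ((1 / x) * C) := mul_le_mul_of_nonneg_right (hmX k) (by positivity)
          _ = _ := by ring
      refine (sum_le_sum h2).trans (le_of_eq ?_)
      rw [sum_const, card_range, nsmul_eq_mul]
      push_cast
      ring
    have hRs : ‖∑ S ∈ O, Rn (g S)‖ ≤ 2 * ((1 / 4) ^ j * (2 * E)) * C := by
      refine (norm_sum_le _ _).trans ((sum_le_sum fun S _ => hRb (g S)).trans ?_)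
      rw [← mul_sum]
      have h1 := hpow' (2 * j) le_rfl
      have h2 : mean d Q (fun n => |X n| ^ (2 * j)) = mean d Q (fun n => X n ^ (2 * j)) := by
        congr 1
        funext n
        exact (even_two_mul j).pow_abs _
      rw [h2] at h1
      obtain ⟨m2, hm2⟩ : ∃ m2, m2 = mean d Q (fun n => X n ^ (2 * j)) := ⟨_, rfl⟩
      rw [← hm2] at h1 hmR
      have hm20 : 0 ≤ m2 := by
        rw [hm2]
        unfold mean
        exact mul_nonneg (by positivity) (sum_nonneg fun _ _ => (even_two_mul j).pow_nonneg _)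
      have h3 : ∑ S ∈ O, X (g S) ^ (2 * j) ≤ 2 * m2 * C := by
        have h4 := (abs_le.1 h1).2
        have h5 : m2 * (1 / x) * C ≤ m2 * 1 * C := by gcongr
        linarith
      calc P * ∑ S ∈ O, X (g S) ^ (2 * j) ≤ P * (2 * m2 * C) := mul_le_mul_of_nonneg_left h3 hP0
        _ = 2 * (P * m2) * C := by ring
        _ ≤ _ := by gcongr
    have hRm : ‖cmean d Q Rn‖ ≤ (1 / 4) ^ j * (2 * E) := by
      refine (cmean_norm d Q Rn (fun n => P * X n ^ (2 * j)) hRb).trans ?_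
      rw [mean_mul]
      exact hmR
    -- the means
    have hcm : ‖cmean d Q (fun n => Complex.exp ((u * X n : ℝ) * Complex.I)) - ((Real.exp (-(u ^ 2 / 2 * ∑ a ∈ I, mean d (q a) (fun n => F a n ^ 2))) : ℝ) : ℂ)‖ ≤ δ / 3 := by
      have h1 : (fun n : Fin d → ℕ => Complex.exp ((u * X n : ℝ) * Complex.I)) = fun n => ∏ a ∈ I, Complex.exp ((u * F a n : ℝ) * Complex.I) := by
        funext n
        rw [← Complex.exp_sum, hX, ← sum_mul]
        congr 2
        push_cast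
        rw [mul_sum]
      have h2 : ((Real.exp (-(u ^ 2 / 2 * ∑ a ∈ I, mean d (q a) (fun n => F a n ^ 2))) : ℝ) : ℂ) =
          ∏ a ∈ I, ((Real.exp (-(u ^ 2 / 2 * mean d (q a) (fun n => F a n ^ 2))) : ℝ) : ℂ) := by
        rw [← Complex.ofReal_prod, ← Real.exp_sum, sum_neg_distrib, mul_sum]
      rw [h1, h2, hQ, cmean_prod I q hq1 hcop (fun a n => Complex.exp ((u * F a n : ℝ) * Complex.I)) (fun a ha n => by
        show Complex.exp ((u * F a n : ℝ) * Complex.I) = Complex.exp ((u * F a (fun i => n i % q a) : ℝ) * Complex.I)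
        rw [← hper a ha n])]
      refine (prod_diff I _ _ (fun a ha => ?_) (fun a ha => ?_)).trans ?_
      · refine (cmean_norm d (q a) _ (fun _ => 1) fun n => ?_).trans (le_of_eq (mean_const d (q a) (hq1 a ha) 1))
        rw [Complex.norm_exp_ofReal_mul_I]
      · rw [Complex.norm_real, Real.norm_eq_abs, abs_of_pos (Real.exp_pos _), Real.exp_le_one_iff]
        have h3 : 0 ≤ mean d (q a) (fun n => F a n ^ 2) := by
          unfold mean
          exact mul_nonneg (by positivity) (sum_nonneg fun _ _ => sq_nonneg _)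
        have h4 : 0 ≤ u ^ 2 / 2 * mean d (q a) (fun n => F a n ^ 2) := by positivity
        linarith
      · refine (sum_le_sum fun a ha => loc_char2 d (q a) (hq1 a ha) (F a) (h00 a ha) c (hM a ha) u huM).trans ?_
        rw [← mul_sum]
        have h3 : |u| ^ 3 * c + u ^ 4 * c ^ 2 ≤ c * (|u| ^ 3 + u ^ 4) := by
          have h4 : c ^ 2 ≤ c := by nlinarith
          have h5 : u ^ 4 * c ^ 2 ≤ u ^ 4 * c := mul_le_mul_of_nonneg_left h4 (by positivity)
          linarith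
        have h11 : (|u| ^ 3 + u ^ 4) * ∑ a ∈ I, mean d (q a) (fun n => F a n ^ 2) ≤ B := by
          have : (|u| ^ 3 + u ^ 4) * ∑ a ∈ I, mean d (q a) (fun n => F a n ^ 2) ≤ (|u| ^ 3 + u ^ 4) * V := mul_le_mul_of_nonneg_left hMV (by positivity)
          rw [hB]
          linarith
        have h12 : 0 ≤ ∑ a ∈ I, mean d (q a) (fun n => F a n ^ 2) := sum_nonneg fun a _ => mean_nonneg' _ fun _ => sq_nonneg _
        calc (|u| ^ 3 * c + u ^ 4 * c ^ 2) * ∑ a ∈ I, mean d (q a) (fun n => F a n ^ 2) ≤ (c * (|u| ^ 3 + u ^ 4)) * ∑ a ∈ I, mean d (q a) (fun n => F a n ^ 2) :=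
              mul_le_mul_of_nonneg_right h3 h12
          _ = c * ((|u| ^ 3 + u ^ 4) * ∑ a ∈ I, mean d (q a) (fun n => F a n ^ 2)) := by ring
          _ ≤ δ / (3 * B) * B := mul_le_mul hce h11 (by positivity) (by positivity)
          _ = δ / 3 := by field_simp
    -- assembling
    have e1 : ∑ S ∈ O, Complex.exp ((u * X (g S) : ℝ) * Complex.I) = ∑ S ∈ O, Tn (g S) + ∑ S ∈ O, Rn (g S) := by
      rw [← sum_add_distrib]
      refine sum_congr rfl fun S _ => ?_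
      rw [hRn]
      ring
    have e2 : cmean d Q (fun n => Complex.exp ((u * X n : ℝ) * Complex.I)) = cmean d Q Tn + cmean d Q Rn := by
      rw [← cmean_add]
      congr 1
      funext n
      rw [hRn]
      ring
    have e3 : ∑ S ∈ O, Complex.exp ((u * X (g S) : ℝ) * Complex.I) - ((Real.exp (-(u ^ 2 / 2 * ∑ a ∈ I, mean d (q a) (fun n => F a n ^ 2))) : ℝ) : ℂ) * ((C : ℝ) : ℂ) =
        (∑ S ∈ O, Tn (g S) - cmean d Q Tn * (C : ℂ)) + ∑ S ∈ O, Rn (g S) - cmean d Q Rn * (C : ℂ) +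
        (cmean d Q (fun n => Complex.exp ((u * X n : ℝ) * Complex.I)) - ((Real.exp (-(u ^ 2 / 2 * ∑ a ∈ I, mean d (q a) (fun n => F a n ^ 2))) : ℝ) : ℂ)) * (C : ℂ) := by
      rw [e1, e2]
      ring
    rw [e3]
    have hCn : ‖(C : ℂ)‖ = C := by rw [Complex.norm_real, Real.norm_eq_abs, abs_of_nonneg hC0]
    refine (norm_add_le _ _).trans ?_
    have h1 := norm_sub_le ((∑ S ∈ O, Tn (g S) - cmean d Q Tn * (C : ℂ)) + ∑ S ∈ O, Rn (g S)) (cmean d Q Rn * (C : ℂ))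
    have h2 := norm_add_le (∑ S ∈ O, Tn (g S) - cmean d Q Tn * (C : ℂ)) (∑ S ∈ O, Rn (g S))
    rw [norm_mul, hCn] at h1
    rw [norm_mul, hCn]
    have h3 : ‖cmean d Q Rn‖ * C ≤ ((1 / 4) ^ j * (2 * E)) * C := mul_le_mul_of_nonneg_right hRm hC0
    have h4 := mul_le_mul_of_nonneg_right hcm hC0
    have h5 : (2 * j) * (2 * E) * (1 / x) * C ≤ δ / 3 * C := by
      apply mul_le_mul_of_nonneg_right _ hC0
      calc (2 * j) * (2 * E) * (1 / x) ≤ (2 * j) * (2 * E) * (δ / (12 * j * E)) := by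
            apply mul_le_mul_of_nonneg_left (hxc.trans hcd) (by positivity)
        _ = δ / 3 := by field_simp; norm_num
    have h6 : 3 * ((1 / 4) ^ j * (2 * E)) * C ≤ δ / 3 * C := by
      apply mul_le_mul_of_nonneg_right _ hC0
      calc 3 * ((1 / 4 : ℝ) ^ j * (2 * E)) ≤ 3 * (δ / (18 * E) * (2 * E)) := by gcongr
        _ = δ / 3 := by field_simp; norm_num
    linarith
  rw [hO, hX, hg, hC] at goal
  exact goal

/-- the data -/
def Dat2 (b d : ℕ) (c : ℝ) (O : Finset (Fin d → Finset ℕ)) (Y : (Fin d → Finset ℕ) → ℝ) : Prop :=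
  0 < c ∧ ∃ (r K : Fin d → ℕ) (x : ℕ), (∀ i, 2 * r i ≤ K i) ∧ 1 / c ≤ (x : ℝ) ∧ (∀ i, Real.log x ^ 2 ≤ c * r i) ∧
    ∃ N : Fin d → ℕ, (∀ i, N i < b ^ K i) ∧ ∃ f : Fin d → ℕ → ℕ, (∀ i j, f i j < b ∧ f i j ≠ N i / b ^ j % b) ∧
    ∃ (ι : Type) (I : Finset ι) (q : ι → ℕ), (∀ a ∈ I, 1 ≤ q a ∧ q a ≤ x ∧ Nat.Coprime (q a) (b * b).factorial) ∧
    (∀ a ∈ I, ∀ a' ∈ I, a ≠ a' → Nat.Coprime (q a) (q a')) ∧ ∃ F : ι → (Fin d → ℕ) → ℝ,
    (∀ a ∈ I, Per (q a) (F a) ∧ mean d (q a) (F a) = 0) ∧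
    (∀ a ∈ I, ∀ n, |F a n| ≤ c) ∧
    |∑ a ∈ I, mean d (q a) (fun n => F a n ^ 2) - 1| ≤ c ∧
    O = Fintype.piFinset (fun i => powersetCard (r i) (range (K i))) ∧
    (∀ S ∈ O, |Y S - ∑ a ∈ I, F a (fun i => change b (K i) (N i) (f i) (S i))| ≤ c)

/-- **The normal law over few-digit changes.** -/
theorem few_clt2 (b d : ℕ) (hb : 2 ≤ b) (hd : 1 ≤ d) (ε : ℝ) (hε : 0 < ε) : ∃ c : ℝ, 0 < c ∧
    ∀ (r K : Fin d → ℕ) (x : ℕ), (∀ i, 2 * r i ≤ K i) → 1 / c ≤ (x : ℝ) → (∀ i, Real.log x ^ 2 ≤ c * r i) →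
    ∀ N : Fin d → ℕ, (∀ i, N i < b ^ K i) → ∀ f : Fin d → ℕ → ℕ, (∀ i j, f i j < b ∧ f i j ≠ N i / b ^ j % b) →
    ∀ {ι : Type} (I : Finset ι) (q : ι → ℕ), (∀ a ∈ I, 1 ≤ q a ∧ q a ≤ x ∧ Nat.Coprime (q a) (b * b).factorial) →
    (∀ a ∈ I, ∀ a' ∈ I, a ≠ a' → Nat.Coprime (q a) (q a')) → ∀ F : ι → (Fin d → ℕ) → ℝ,
    (∀ a ∈ I, Per (q a) (F a) ∧ mean d (q a) (F a) = 0) →
    (∀ a ∈ I, ∀ n, |F a n| ≤ c) →
    |∑ a ∈ I, mean d (q a) (fun n => F a n ^ 2) - 1| ≤ c →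
    ∀ Y : (Fin d → ℕ) → ℝ, (∀ n, |Y n - ∑ a ∈ I, F a n| ≤ c) → ∀ t : ℝ,
    |(((Fintype.piFinset (fun i => powersetCard (r i) (range (K i)))).filter
      (fun S => Y (fun i => change b (K i) (N i) (f i) (S i)) ≤ t)).card : ℝ) - Phi t * ∏ i, ((K i).choose (r i) : ℝ)| ≤
      ε * ∏ i, ((K i).choose (r i) : ℝ) := by
  classical
  have hmono : ∀ c c' O X, c ≤ c' → Dat2 b d c O X → Dat2 b d c' O X := by
    rintro c c' O X hcc ⟨hc0, r, K, x, h1, h2, h3, N, h4, f, h5, ι, I, q, h6, h7, F, h8, h9, h12, h13, h14⟩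
    refine ⟨by linarith, r, K, x, h1, le_trans ?_ h2, fun i => (h3 i).trans (mul_le_mul_of_nonneg_right hcc (Nat.cast_nonneg _)), N, h4, f, h5, ι, I, q, h6, h7,
      F, h8, fun a ha n => (h9 a ha n).trans hcc, h12.trans hcc, h13, fun S hS => (h14 S hS).trans hcc⟩
    exact one_div_le_one_div_of_le hc0 hcc
  have hne : ∀ c O X, Dat2 b d c O X → O.Nonempty := by
    rintro c O X ⟨hc0, r, K, x, h1, h2, h3, N, h4, f, h5, ι, I, q, h6, h7, F, h8, h9, h12, h13, h14⟩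
    rw [h13]
    rw [Fintype.piFinset_nonempty]
    intro i
    rw [powersetCard_nonempty, card_range]
    have := h1 i
    omega
  have hchar : ∀ u δ : ℝ, 0 < δ → ∃ c : ℝ, 0 < c ∧ ∀ O X, Dat2 b d c O X →
      ‖∑ S ∈ O, Complex.exp ((u * X S : ℝ) * Complex.I) - ((Real.exp (-(u ^ 2 / 2)) : ℝ) : ℂ) * (O.card : ℂ)‖ ≤ δ * O.card := by
    intro u δ hδ
    obtain ⟨c₁, hc₁, key⟩ := few_char2 b d hb hd u 2 (δ / 3) (by norm_num) (by linarith)
    obtain ⟨B, hB⟩ : ∃ B : ℝ, B = |u| + u ^ 2 + 1 := ⟨_, rfl⟩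
    have hB0 : 0 < B := by rw [hB]; positivity
    refine ⟨min c₁ (min 1 (δ / (3 * B))), lt_min hc₁ (lt_min one_pos (by positivity)), ?_⟩
    obtain ⟨c, hc⟩ : ∃ c, c = min c₁ (min 1 (δ / (3 * B))) := ⟨_, rfl⟩
    rw [← hc]
    have hca : c ≤ c₁ := by rw [hc]; exact min_le_left _ _
    have hcb : c ≤ 1 := by rw [hc]; exact (min_le_right _ _).trans (min_le_left _ _)
    have hcd : c ≤ δ / (3 * B) := by rw [hc]; exact (min_le_right _ _).trans (min_le_right _ _)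
    rintro O X ⟨hc0, r, K, x, h1, h2, h3, N, h4, f, h5, ι, I, q, h6, h7, F, h8, h9, h12, h13, h14⟩
    have h15 := key r K x h1 ((one_div_le_one_div_of_le hc0 hca).trans h2) (fun i => (h3 i).trans (mul_le_mul_of_nonneg_right hca (Nat.cast_nonneg _))) N h4 f h5
      I q h6 h7 F h8 (fun a ha n => (h9 a ha n).trans hca) (by have := (abs_le.1 h12).2; linarith)
    have hcard : (O.card : ℝ) = ∏ i, ((K i).choose (r i) : ℝ) := by
      rw [h13, Fintype.card_piFinset]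
      push_cast
      exact prod_congr rfl fun i _ => by rw [card_powersetCard, card_range]
    have hcardc : ((∏ i, ((K i).choose (r i) : ℝ) : ℝ) : ℂ) = (O.card : ℂ) := by
      rw [← hcard]
      exact Complex.ofReal_natCast _
    rw [hcardc, ← hcard, ← h13] at h15
    obtain ⟨v, hv⟩ : ∃ v : ℝ, v = ∑ a ∈ I, mean d (q a) (fun n => F a n ^ 2) := ⟨_, rfl⟩
    rw [← hv] at h12 h15
    have hv0 : 0 ≤ v := by
      rw [hv]
      refine sum_nonneg fun a _ => ?_
      unfold mean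
      exact mul_nonneg (by positivity) (sum_nonneg fun _ _ => sq_nonneg _)
    -- the difference of the exponentials
    have hexp1 : ∀ s s' : ℝ, 0 ≤ s → 0 ≤ s' → |Real.exp (-s) - Real.exp (-s')| ≤ |s - s'| := by
      have h16 : ∀ s s' : ℝ, 0 ≤ s → s ≤ s' → Real.exp (-s) - Real.exp (-s') ≤ s' - s := by
        intro s s' hs hss
        have h17 : Real.exp (-s') = Real.exp (-s) * Real.exp (-(s' - s)) := by
          rw [← Real.exp_add]
          congr 1
          ring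
        have h18 : 1 - (s' - s) ≤ Real.exp (-(s' - s)) := by
          have := Real.add_one_le_exp (-(s' - s))
          linarith
        have h19 : Real.exp (-s) ≤ 1 := by rw [Real.exp_le_one_iff]; linarith
        have h20 := Real.exp_pos (-s)
        rw [h17]
        nlinarith
      intro s s' hs hs'
      rcases le_total s s' with h | h
      · have h17 := h16 s s' hs h
        rw [abs_of_nonneg (by have := Real.exp_le_exp.2 (neg_le_neg h); linarith), abs_of_nonpos (by linarith)]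
        linarith
      · have h17 := h16 s' s hs' h
        rw [abs_of_nonpos (by have := Real.exp_le_exp.2 (neg_le_neg h); linarith), abs_of_nonneg (by linarith)]
        linarith
    have h16 : ‖((Real.exp (-(u ^ 2 / 2 * v)) : ℝ) : ℂ) * (O.card : ℂ) - ((Real.exp (-(u ^ 2 / 2)) : ℝ) : ℂ) * (O.card : ℂ)‖ ≤ u ^ 2 * c * O.card := by
      rw [← sub_mul, norm_mul, Complex.norm_natCast, ← Complex.ofReal_sub, Complex.norm_real, Real.norm_eq_abs]
      apply mul_le_mul_of_nonneg_right _ (Nat.cast_nonneg _)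
      refine (hexp1 (u ^ 2 / 2 * v) (u ^ 2 / 2) (by positivity) (by positivity)).trans ?_
      have e1 : u ^ 2 / 2 * v - u ^ 2 / 2 = u ^ 2 / 2 * (v - 1) := by ring
      rw [e1, abs_mul, abs_of_nonneg (by positivity : (0 : ℝ) ≤ u ^ 2 / 2)]
      have : u ^ 2 / 2 * |v - 1| ≤ u ^ 2 / 2 * c := mul_le_mul_of_nonneg_left h12 (by positivity)
      have h17 : 0 ≤ u ^ 2 * c := by positivity
      linarith
    have h17 : ‖∑ S ∈ O, Complex.exp ((u * X S : ℝ) * Complex.I) -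
        ∑ S ∈ O, Complex.exp ((u * ∑ a ∈ I, F a (fun i => change b (K i) (N i) (f i) (S i)) : ℝ) * Complex.I)‖ ≤ |u| * c * O.card := by
      rw [← sum_sub_distrib]
      refine (norm_sum_le _ _).trans ((sum_le_sum fun S hS => ?_).trans (le_of_eq (by rw [sum_const, nsmul_eq_mul, mul_comm])))
      · obtain ⟨z, hz⟩ : ∃ z : ℝ, z = ∑ a ∈ I, F a (fun i => change b (K i) (N i) (f i) (S i)) := ⟨_, rfl⟩
        have h18 := h14 S hS
        rw [← hz] at h18 ⊢
        have e1 : Complex.exp ((u * X S : ℝ) * Complex.I) - Complex.exp ((u * z : ℝ) * Complex.I) =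
            Complex.exp ((u * z : ℝ) * Complex.I) * (Complex.exp (((u * (X S - z) : ℝ) : ℂ) * Complex.I) - 1) := by
          rw [mul_sub, mul_one, ← Complex.exp_add]
          congr 2
          push_cast
          ring
        rw [e1, norm_mul, Complex.norm_exp_ofReal_mul_I, one_mul]
        have h19 := taylor_im (u * (X S - z)) 1
        simp only [range_one, sum_singleton, pow_zero, pow_one, Nat.factorial_zero, Nat.factorial_one, Nat.cast_one, div_one] at h19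
        refine h19.trans ?_
        rw [abs_mul]
        exact mul_le_mul_of_nonneg_left h18 (abs_nonneg _)
    have h18 : ∑ S ∈ O, Complex.exp ((u * X S : ℝ) * Complex.I) - ((Real.exp (-(u ^ 2 / 2)) : ℝ) : ℂ) * (O.card : ℂ) =
        (∑ S ∈ O, Complex.exp ((u * X S : ℝ) * Complex.I) -
          ∑ S ∈ O, Complex.exp ((u * ∑ a ∈ I, F a (fun i => change b (K i) (N i) (f i) (S i)) : ℝ) * Complex.I)) +
        (∑ S ∈ O, Complex.exp ((u * ∑ a ∈ I, F a (fun i => change b (K i) (N i) (f i) (S i)) : ℝ) * Complex.I) -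
          ((Real.exp (-(u ^ 2 / 2 * v)) : ℝ) : ℂ) * (O.card : ℂ)) +
        (((Real.exp (-(u ^ 2 / 2 * v)) : ℝ) : ℂ) * (O.card : ℂ) - ((Real.exp (-(u ^ 2 / 2)) : ℝ) : ℂ) * (O.card : ℂ)) := by ring
    rw [h18]
    refine (norm_add_le _ _).trans ((add_le_add (norm_add_le _ _) le_rfl).trans ?_)
    have h19 : (|u| + u ^ 2) * c * O.card ≤ δ / 3 * O.card := by
      apply mul_le_mul_of_nonneg_right _ (Nat.cast_nonneg _)
      calc (|u| + u ^ 2) * c ≤ B * (δ / (3 * B)) := mul_le_mul (by rw [hB]; linarith) hcd hc0.le hB0.le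
        _ = δ / 3 := by field_simp
    have h20 : (0 : ℝ) ≤ δ / 3 * O.card := by positivity
    linarith
  obtain ⟨c, hc, key⟩ := levy_unif (Dat2 b d) hmono hne (levy_pred (Dat2 b d) hmono hne hchar) ε hε
  refine ⟨c, hc, fun r K x h1 h2 h3 N h4 f h5 ι I q h6 h7 F h8 h9 h12 Y h13 t => ?_⟩
  obtain ⟨O, hO⟩ : ∃ O, O = Fintype.piFinset (fun i => powersetCard (r i) (range (K i))) := ⟨_, rfl⟩
  have hD : Dat2 b d c O (fun S => Y (fun i => change b (K i) (N i) (f i) (S i))) :=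
    ⟨hc, r, K, x, h1, h2, h3, N, h4, f, h5, ι, I, q, h6, h7, F, h8, h9, h12, hO, fun S _ => h13 _⟩
  have h14 := key O _ hD t
  rw [emp_Iic] at h14
  have hcard : (O.card : ℝ) = ∏ i, ((K i).choose (r i) : ℝ) := by
    rw [hO, Fintype.card_piFinset]
    push_cast
    exact prod_congr rfl fun i _ => by rw [card_powersetCard, card_range]
  have hpos : (0 : ℝ) < O.card := by exact_mod_cast (hne c O _ hD).card_pos
  rw [← hcard, ← hO]
  have h15 : ((O.filter (fun S => Y (fun i => change b (K i) (N i) (f i) (S i)) ≤ t)).card : ℝ) - Phi t * O.card =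
      (((O.filter (fun S => Y (fun i => change b (K i) (N i) (f i) (S i)) ≤ t)).card : ℝ) / O.card - Phi t) * O.card := by
    field_simp
  rw [h15, abs_mul, abs_of_pos hpos]
  exact mul_le_mul_of_nonneg_right h14 hpos.le

end Pool.Agent.X22.EQ
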