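import Pool.Agent.X22.EQ20
import Pool.Agent.X22.EQ5

set_option autoImplicit false

/-! The normal law for sums of bounded local functions over few-digit changes. -/

namespace Pool.Agent.X22.EQ
open Finset Filter
open Pool.Agent.TH894.ND Pool.Agent.TH894.NE
open Pool.Agent.TH894.SM (change change_eq)

/-- the variance of a function over the residues -/
noncomputable def vari (d p : ℕ) (g : (Fin d → ℕ) → ℝ) : ℝ := mean d p (fun m => g m ^ 2) - mean d p g ^ 2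

lemma vari_eq (d p : ℕ) (hp : 1 ≤ p) (g : (Fin d → ℕ) → ℝ) : mean d p (fun m => (g m - mean d p g) ^ 2) = vari d p g := by
  have h4 : (fun m => (g m - mean d p g) ^ 2) = fun m => (fun m => g m ^ 2) m +
      (fun m => (fun m => (-(2 * mean d p g)) * g m) m + (fun _ : Fin d → ℕ => mean d p g ^ 2) m) m := by
    funext m
    ring
  rw [h4, Pool.Agent.TH894.NE.mean_add, Pool.Agent.TH894.NE.mean_add, mean_const d p hp, mean_mul]
  unfold vari
  ring

lemma vari_nonneg (d p : ℕ) (hp : 1 ≤ p) (g : (Fin d → ℕ) → ℝ) : 0 ≤ vari d p g := by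
  rw [← vari_eq d p hp g]
  exact mean_nonneg' _ fun _ => sq_nonneg _

/-- **The normal law for sums of bounded local functions.** -/
theorem clt_bdd (b d : ℕ) (hb : 2 ≤ b) (hd : 1 ≤ d) (A C₂ ε : ℝ) (hA : 0 < A) (hC₂ : 0 ≤ C₂) (hε : 0 < ε) : ∃ c : ℝ, 0 < c ∧
    ∀ (r K : Fin d → ℕ) (x : ℕ), (∀ i, 2 * r i ≤ K i) → (∀ i, Real.log x ^ 2 ≤ c * r i) →
    ∀ N : Fin d → ℕ, (∀ i, N i < b ^ K i) → ∀ f : Fin d → ℕ → ℕ, (∀ i j, f i j < b ∧ f i j ≠ N i / b ^ j % b) →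
    ∀ I : Finset ℕ, (∀ p ∈ I, p.Prime ∧ b * b < p ∧ p ≤ x) → ∀ g : ℕ → (Fin d → ℕ) → ℝ, (∀ p ∈ I, Per p (g p)) → (∀ p ∈ I, ∀ m, |g p m| ≤ A) →
    ∀ v : ℝ, |v - ∑ p ∈ I, vari d p (g p)| ≤ C₂ → 1 / c ≤ v → ∀ z : ℝ, |z - ∑ p ∈ I, mean d p (g p)| ≤ C₂ →
    ∀ Z : (Fin d → ℕ) → ℝ, (∀ m, |Z m - ∑ p ∈ I, g p m| ≤ C₂) → ∀ t : ℝ,
    |(((Fintype.piFinset (fun i => powersetCard (r i) (range (K i)))).filter
      (fun S => (Z (fun i => change b (K i) (N i) (f i) (S i)) - z) / Real.sqrt v ≤ t)).card : ℝ) -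
      Phi t * ∏ i, ((K i).choose (r i) : ℝ)| ≤ ε * ∏ i, ((K i).choose (r i) : ℝ) := by
  classical
  obtain ⟨c₁, hc₁, key⟩ := few_clt2 b d hb hd ε hε
  obtain ⟨Λ, hΛ⟩ : ∃ Λ : ℝ, Λ = 1 + (2 * A / c₁) ^ 2 + C₂ / c₁ + (2 * C₂ / c₁) ^ 2 + (C₂ + A ^ 2 / c₁) := ⟨_, rfl⟩
  have hΛ1 : 1 ≤ Λ := by
    rw [hΛ]
    have : 0 ≤ (2 * A / c₁) ^ 2 + C₂ / c₁ + (2 * C₂ / c₁) ^ 2 + (C₂ + A ^ 2 / c₁) := by positivity
    linarith
  have hΛ0 : 0 < Λ := by linarith
  refine ⟨min c₁ (1 / Λ), lt_min hc₁ (by positivity), fun r K x hrK hxr N hN f hf I hI g hper hgA v hv hcv z hz Z hZ t => ?_⟩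
  have hvΛ : Λ ≤ v := by
    refine le_trans ?_ hcv
    rw [le_div_iff₀ (lt_min hc₁ (by positivity))]
    calc Λ * min c₁ (1 / Λ) ≤ Λ * (1 / Λ) := mul_le_mul_of_nonneg_left (min_le_right _ _) hΛ0.le
      _ = 1 := by field_simp
  have hv0 : 0 < v := by linarith
  have hp1 : 0 ≤ (2 * A / c₁) ^ 2 := by positivity
  have hp2 : 0 ≤ C₂ / c₁ := by positivity
  have hp3 : 0 ≤ (2 * C₂ / c₁) ^ 2 := by positivity
  have hp4 : 0 ≤ C₂ + A ^ 2 / c₁ := by positivity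
  have hv1 : (2 * A / c₁) ^ 2 ≤ v := by rw [hΛ] at hvΛ; linarith
  have hv2 : C₂ / c₁ ≤ v := by rw [hΛ] at hvΛ; linarith
  have hv3 : (2 * C₂ / c₁) ^ 2 ≤ v := by rw [hΛ] at hvΛ; linarith
  have hv4 : C₂ + A ^ 2 / c₁ ≤ v := by rw [hΛ] at hvΛ; linarith
  obtain ⟨s, hse⟩ : ∃ s : ℝ, s = Real.sqrt v := ⟨_, rfl⟩
  have hs0 : 0 < s := by rw [hse]; exact Real.sqrt_pos.2 hv0
  have hss : s ^ 2 = v := by rw [hse]; exact Real.sq_sqrt hv0.le
  have hsA : 2 * A / s ≤ c₁ := by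
    rw [div_le_iff₀ hs0]
    have h1 : 2 * A / c₁ ≤ s := by
      rw [hse]
      exact Real.le_sqrt_of_sq_le hv1
    rw [div_le_iff₀ hc₁] at h1
    linarith
  have hsC : 2 * C₂ / s ≤ c₁ := by
    rw [div_le_iff₀ hs0]
    have h1 : 2 * C₂ / c₁ ≤ s := by
      rw [hse]
      exact Real.le_sqrt_of_sq_le hv3
    rw [div_le_iff₀ hc₁] at h1
    linarith
  -- the size of `x`
  have hvar_le : ∀ p ∈ I, vari d p (g p) ≤ A ^ 2 := by
    intro p hp
    have h1 : mean d p (fun m => g p m ^ 2) ≤ A ^ 2 := by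
      refine (mean_mono (G := fun _ => A ^ 2) fun m => ?_).trans (le_of_eq (mean_const d p (hI p hp).1.one_lt.le _))
      rw [← sq_abs]
      exact pow_le_pow_left₀ (abs_nonneg _) (hgA p hp m) 2
    unfold vari
    nlinarith [sq_nonneg (mean d p (g p))]
  have hcardI : (I.card : ℝ) ≤ x := by
    have h1 : I ⊆ Icc 1 x := by
      intro p hp
      rw [mem_Icc]
      exact ⟨(hI p hp).1.one_lt.le, (hI p hp).2.2⟩
    have h2 := card_le_card h1
    rw [Nat.card_Icc, Nat.add_sub_cancel] at h2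
    exact_mod_cast h2
  have hx1 : 1 / c₁ ≤ (x : ℝ) := by
    have h1 : ∑ p ∈ I, vari d p (g p) ≤ A ^ 2 * x := by
      refine (sum_le_sum hvar_le).trans ?_
      rw [sum_const, nsmul_eq_mul, mul_comm]
      exact mul_le_mul_of_nonneg_left hcardI (by positivity)
    have h2 := (abs_le.1 hv).2
    have h3 : A ^ 2 * (1 / c₁) ≤ A ^ 2 * x := by
      calc A ^ 2 * (1 / c₁) = A ^ 2 / c₁ := by ring
        _ ≤ _ := by linarith
    exact le_of_mul_le_mul_left h3 (by positivity)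
  obtain ⟨F, hF⟩ : ∃ F : ℕ → (Fin d → ℕ) → ℝ, F = fun p m => (1 / s) * (g p m - mean d p (g p)) := ⟨_, rfl⟩
  have hq : ∀ p ∈ I, 1 ≤ p ∧ p ≤ x ∧ Nat.Coprime p (b * b).factorial := by
    intro p hp
    obtain ⟨h1, h2, h3⟩ := hI p hp
    refine ⟨h1.one_lt.le, h3, ?_⟩
    rw [Nat.Prime.coprime_iff_not_dvd h1, h1.dvd_factorial]
    omega
  have hcop : ∀ p ∈ I, ∀ p' ∈ I, p ≠ p' → Nat.Coprime p p' :=
    fun p hp p' hp' hne => (Nat.coprime_primes (hI p hp).1 (hI p' hp').1).2 hne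
  have hF0 : ∀ p ∈ I, Per p (F p) ∧ mean d p (F p) = 0 := by
    intro p hp
    obtain ⟨h1, h2, h3⟩ := hI p hp
    constructor
    · intro m
      rw [hF]
      show 1 / s * (g p m - mean d p (g p)) = 1 / s * (g p (fun i => m i % p) - mean d p (g p))
      rw [← hper p hp m]
    · rw [hF]
      show mean d p (fun m => 1 / s * (g p m - mean d p (g p))) = 0
      rw [mean_mul]
      have h4 : (fun m => g p m - mean d p (g p)) = fun m => g p m + (fun _ : Fin d → ℕ => -mean d p (g p)) m := by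
        funext m
        ring
      rw [h4, Pool.Agent.TH894.NE.mean_add, mean_const d p h1.one_lt.le]
      ring
  have hFM : ∀ p ∈ I, ∀ m, |F p m| ≤ c₁ := by
    intro p hp m
    obtain ⟨h1, h2, h3⟩ := hI p hp
    have h4 : |g p m - mean d p (g p)| ≤ 2 * A := by
      refine (abs_sub _ _).trans ?_
      have h5 := abs_mean_le d p h1.one_lt.le (g p) _ (hgA p hp)
      have h6 := hgA p hp m
      linarith
    rw [hF]
    show |1 / s * (g p m - mean d p (g p))| ≤ c₁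
    rw [abs_mul, abs_of_pos (by positivity : 0 < 1 / s)]
    calc 1 / s * |g p m - mean d p (g p)| ≤ 1 / s * (2 * A) := mul_le_mul_of_nonneg_left h4 (by positivity)
      _ = 2 * A / s := by ring
      _ ≤ _ := hsA
  have hvar : |∑ p ∈ I, mean d p (fun m => F p m ^ 2) - 1| ≤ c₁ := by
    have h1 : ∀ p ∈ I, mean d p (fun m => F p m ^ 2) = (1 / v) * vari d p (g p) := by
      intro p hp
      rw [← vari_eq d p (hI p hp).1.one_lt.le, ← mean_mul]
      congr 1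
      funext m
      rw [hF]
      show (1 / s * (g p m - mean d p (g p))) ^ 2 = 1 / v * (g p m - mean d p (g p)) ^ 2
      rw [mul_pow, div_pow, hss, one_pow]
    rw [sum_congr rfl h1, ← mul_sum]
    have h2 : 1 / v * ∑ p ∈ I, vari d p (g p) - 1 = -(v - ∑ p ∈ I, vari d p (g p)) / v := by
      field_simp
      ring
    rw [h2, abs_div, abs_neg, abs_of_pos hv0, div_le_iff₀ hv0]
    rw [div_le_iff₀ hc₁] at hv2
    linarith
  obtain ⟨Y, hY⟩ : ∃ Y : (Fin d → ℕ) → ℝ, Y = fun m => (Z m - z) / s := ⟨_, rfl⟩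
  have hYF : ∀ m, |Y m - ∑ p ∈ I, F p m| ≤ c₁ := by
    intro m
    have h1 : Y m - ∑ p ∈ I, F p m = (-(z - ∑ p ∈ I, mean d p (g p)) + (Z m - ∑ p ∈ I, g p m)) / s := by
      rw [hY, hF]
      show (Z m - z) / s - ∑ p ∈ I, 1 / s * (g p m - mean d p (g p)) = _
      rw [← mul_sum, sum_sub_distrib]
      field_simp
      ring
    rw [h1, abs_div, abs_of_pos hs0]
    refine le_trans (div_le_div_of_nonneg_right ?_ hs0.le) hsC
    refine (abs_add_le _ _).trans ?_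
    rw [abs_neg]
    have := hZ m
    linarith
  have h := key r K x hrK hx1 (fun i => (hxr i).trans (mul_le_mul_of_nonneg_right (min_le_left _ _) (Nat.cast_nonneg _))) N hN f hf I (fun p => p)
    hq hcop F hF0 hFM hvar Y hYF t
  rw [hY] at h
  rw [← hse]
  exact h

end Pool.Agent.X22.EQ
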