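import Mathlib

set_option autoImplicit false

/-! Irreducible divisors of the polynomials `h + a X + b` over `ℤ/p`: the moments of the numbers of the divisors of degree one and two. -/

namespace Pool.Agent.X22.EQ
open Finset Polynomial

/-- the number of the monic irreducible divisors of degree `k` -/
noncomputable def nk (p k : ℕ) (f : (ZMod p)[X]) : ℕ := Nat.card {q : (ZMod p)[X] // q.Monic ∧ Irreducible q ∧ q.natDegree = k ∧ q ∣ f}

section
variable {p : ℕ} [hf : Fact p.Prime]

lemma nk_le (k : ℕ) (f : (ZMod p)[X]) (h0 : f ≠ 0) : k * nk p k f ≤ f.natDegree := by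
  classical
  by_cases hfin : Finite {q : (ZMod p)[X] // q.Monic ∧ Irreducible q ∧ q.natDegree = k ∧ q ∣ f}
  · haveI := Fintype.ofFinite {q : (ZMod p)[X] // q.Monic ∧ Irreducible q ∧ q.natDegree = k ∧ q ∣ f}
    have h1 : (∏ q : {q : (ZMod p)[X] // q.Monic ∧ Irreducible q ∧ q.natDegree = k ∧ q ∣ f}, (q : (ZMod p)[X])) ∣ f := by
      apply Finset.prod_dvd_of_coprime
      · intro q _ q' _ hne
        show IsCoprime (q : (ZMod p)[X]) (q' : (ZMod p)[X])
        rw [Irreducible.coprime_iff_not_dvd q.2.2.1]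
        intro hd
        have h2 := q.2.2.1.associated_of_dvd q'.2.2.1 hd
        exact hne (Subtype.ext (Polynomial.eq_of_monic_of_associated q.2.1 q'.2.1 h2))
      · intro q _
        exact q.2.2.2.2
    have h2 := Polynomial.natDegree_le_of_dvd h1 h0
    rw [Polynomial.natDegree_prod_of_monic _ _ (fun q _ => q.2.1), sum_congr rfl (fun q _ => q.2.2.2.1), sum_const, card_univ, smul_eq_mul, mul_comm] at h2
    unfold nk
    rw [Nat.card_eq_fintype_card]
    exact h2
  · unfold nk
    rw [Nat.card_eq_zero.2 (Or.inr (not_finite_iff_infinite.1 hfin)), mul_zero]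
    exact Nat.zero_le _

lemma nk_one (f : (ZMod p)[X]) : (nk p 1 f : ℝ) = ∑ x : ZMod p, if f.eval x = 0 then (1 : ℝ) else 0 := by
  classical
  have h1 : nk p 1 f = Nat.card {x : ZMod p // f.eval x = 0} := by
    unfold nk
    symm
    apply Nat.card_congr
    refine Equiv.ofBijective (fun x => ⟨X - C (x : ZMod p), monic_X_sub_C _, irreducible_X_sub_C _, natDegree_X_sub_C _, dvd_iff_isRoot.2 x.2⟩) ⟨?_, ?_⟩
    · intro x y hxy
      have h2 : (X - C (x : ZMod p)) = X - C (y : ZMod p) := congrArg Subtype.val hxy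
      have h3 := congrArg (fun q : (ZMod p)[X] => q.coeff 0) h2
      simp only [coeff_sub, coeff_X_zero, coeff_C_zero, zero_sub, neg_inj] at h3
      exact Subtype.ext h3
    · rintro ⟨q, hq1, hq2, hq3, hq4⟩
      have h2 : q = X - C (-q.coeff 0) := by
        rw [C_neg, sub_neg_eq_add]
        exact hq1.eq_X_add_C hq3
      refine ⟨⟨-q.coeff 0, ?_⟩, Subtype.ext h2.symm⟩
      have h3 := hq4
      rw [h2] at h3
      exact dvd_iff_isRoot.1 h3
  rw [h1, Nat.card_eq_fintype_card, Fintype.card_subtype, sum_boole]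

/-- the family -/
noncomputable def fam (h : (ZMod p)[X]) (z : ZMod p × ZMod p) : (ZMod p)[X] := h + C z.1 * X + C z.2

lemma fam_eval (h : (ZMod p)[X]) (z : ZMod p × ZMod p) (x : ZMod p) : (fam h z).eval x = h.eval x + z.1 * x + z.2 := by
  unfold fam
  simp

lemma sum_one (c x : ZMod p) : ∑ z : ZMod p × ZMod p, (if c + z.1 * x + z.2 = 0 then (1 : ℝ) else 0) = p := by
  rw [Fintype.sum_prod_type]
  have h1 : ∀ a : ZMod p, ∑ b : ZMod p, (if c + a * x + b = 0 then (1 : ℝ) else 0) = 1 := by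
    intro a
    have h2 : ∀ b : ZMod p, (if c + a * x + b = 0 then (1 : ℝ) else 0) = if b = -(c + a * x) then 1 else 0 := by
      intro b
      by_cases h : b = -(c + a * x)
      · rw [if_pos h, if_pos (by rw [h]; ring)]
      · rw [if_neg h, if_neg (fun h' => h (by linear_combination h'))]
    rw [sum_congr rfl fun b _ => h2 b, sum_ite_eq' univ, if_pos (mem_univ _)]
  rw [sum_congr rfl fun a _ => h1 a, sum_const, card_univ, ZMod.card, nsmul_eq_mul, mul_one]

lemma sum_both (c d x y : ZMod p) (hxy : x ≠ y) :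
    ∑ z : ZMod p × ZMod p, ((if c + z.1 * x + z.2 = 0 then (1 : ℝ) else 0) * (if d + z.1 * y + z.2 = 0 then (1 : ℝ) else 0)) = 1 := by
  have hne : x - y ≠ 0 := sub_ne_zero.2 hxy
  obtain ⟨a, ha⟩ : ∃ a : ZMod p, a = (d - c) / (x - y) := ⟨_, rfl⟩
  obtain ⟨z₀, hz₀⟩ : ∃ z₀ : ZMod p × ZMod p, z₀ = (a, -(c + a * x)) := ⟨_, rfl⟩
  have hax : a * (x - y) = d - c := by rw [ha]; field_simp
  have h2 : ∀ z : ZMod p × ZMod p, ((if c + z.1 * x + z.2 = 0 then (1 : ℝ) else 0) * (if d + z.1 * y + z.2 = 0 then (1 : ℝ) else 0)) =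
      if z = z₀ then 1 else 0 := by
    intro z
    by_cases h : z = z₀
    · rw [if_pos h, h, hz₀, if_pos (by show c + a * x + -(c + a * x) = 0; ring),
        if_pos (by show d + a * y + -(c + a * x) = 0; linear_combination -hax), one_mul]
    · rw [if_neg h]
      by_cases h3 : c + z.1 * x + z.2 = 0
      · rw [if_pos h3, if_neg, mul_zero]
        intro h4
        apply h
        have h5 : z.1 * (x - y) = a * (x - y) := by rw [hax]; linear_combination h3 - h4
        have h6 : z.1 = a := mul_right_cancel₀ hne h5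
        rw [hz₀]
        refine Prod.ext h6 ?_
        show z.2 = -(c + a * x)
        rw [← h6]
        linear_combination h3
      · rw [if_neg h3, zero_mul]
  rw [sum_congr rfl fun z _ => h2 z, sum_ite_eq' univ, if_pos (mem_univ _)]

lemma mom_one (h : (ZMod p)[X]) : ∑ z : ZMod p × ZMod p, (nk p 1 (fam h z) : ℝ) = (p : ℝ) ^ 2 := by
  rw [sum_congr rfl fun z _ => nk_one (fam h z), sum_comm]
  rw [sum_congr rfl fun x _ => (sum_congr rfl fun z _ => by rw [fam_eval])]
  rw [sum_congr rfl fun x _ => sum_one (h.eval x) x, sum_const, card_univ, ZMod.card, nsmul_eq_mul]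
  ring

lemma mom_two (h : (ZMod p)[X]) : ∑ z : ZMod p × ZMod p, (nk p 1 (fam h z) : ℝ) ^ 2 = 2 * (p : ℝ) ^ 2 - p := by
  have h1 : ∀ z : ZMod p × ZMod p, (nk p 1 (fam h z) : ℝ) ^ 2 = ∑ x : ZMod p, ∑ y : ZMod p,
      ((if h.eval x + z.1 * x + z.2 = 0 then (1 : ℝ) else 0) * (if h.eval y + z.1 * y + z.2 = 0 then (1 : ℝ) else 0)) := by
    intro z
    rw [nk_one, sq, sum_mul_sum]
    refine sum_congr rfl fun x _ => sum_congr rfl fun y _ => ?_
    rw [fam_eval, fam_eval]
  rw [sum_congr rfl fun z _ => h1 z, sum_comm]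
  have h2 : ∀ x : ZMod p, ∑ z : ZMod p × ZMod p, ∑ y : ZMod p,
      ((if h.eval x + z.1 * x + z.2 = 0 then (1 : ℝ) else 0) * (if h.eval y + z.1 * y + z.2 = 0 then (1 : ℝ) else 0)) = 2 * (p : ℝ) - 1 := by
    intro x
    rw [sum_comm]
    have h3 : ∀ y : ZMod p, ∑ z : ZMod p × ZMod p,
      ((if h.eval x + z.1 * x + z.2 = 0 then (1 : ℝ) else 0) * (if h.eval y + z.1 * y + z.2 = 0 then (1 : ℝ) else 0)) =
        1 + if y = x then ((p : ℝ) - 1) else 0 := by
      intro y
      by_cases hxy : y = x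
      · rw [if_pos hxy, hxy]
        have h4 : ∀ z : ZMod p × ZMod p, ((if h.eval x + z.1 * x + z.2 = 0 then (1 : ℝ) else 0) * (if h.eval x + z.1 * x + z.2 = 0 then (1 : ℝ) else 0)) =
            if h.eval x + z.1 * x + z.2 = 0 then (1 : ℝ) else 0 := by
          intro z
          split_ifs <;> norm_num
        rw [sum_congr rfl fun z _ => h4 z, sum_one]
        ring
      · rw [if_neg hxy, sum_both _ _ _ _ (Ne.symm hxy), add_zero]
    rw [sum_congr rfl fun y _ => h3 y, sum_add_distrib, sum_ite_eq' univ, if_pos (mem_univ _), sum_const, card_univ, ZMod.card, nsmul_eq_mul]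
    ring
  rw [sum_congr rfl fun x _ => h2 x, sum_const, card_univ, ZMod.card, nsmul_eq_mul]
  ring

/-- the quadratic polynomials -/
lemma quad_monic (z : ZMod p × ZMod p) : (fam (X ^ 2) z).Monic ∧ (fam (X ^ 2) z).natDegree = 2 := by
  have h1 : fam (X ^ 2) z = C 1 * X ^ 2 + C z.1 * X + C z.2 := by
    unfold fam
    rw [C_1, one_mul]
  constructor
  · rw [h1, Polynomial.Monic, leadingCoeff_quadratic one_ne_zero]
  · rw [h1, natDegree_quadratic one_ne_zero]

open Classical in
lemma quad_irr (z : ZMod p × ZMod p) : (if Irreducible (fam (X ^ 2) z) then (1 : ℝ) else 0) =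
    1 - (nk p 1 (fam (X ^ 2) z) : ℝ) + ((nk p 1 (fam (X ^ 2) z) : ℝ) ^ 2 - (nk p 1 (fam (X ^ 2) z) : ℝ)) / 2 := by
  obtain ⟨hm, hd⟩ := quad_monic z
  have h2 : nk p 1 (fam (X ^ 2) z) ≤ 2 := by
    have := nk_le 1 (fam (X ^ 2) z) hm.ne_zero
    rw [hd, one_mul] at this
    exact this
  have h3 : Irreducible (fam (X ^ 2) z) ↔ nk p 1 (fam (X ^ 2) z) = 0 := by
    rw [hm.irreducible_iff_roots_eq_zero_of_degree_le_three (by omega) (by omega)]
    have h4 : (nk p 1 (fam (X ^ 2) z) : ℝ) = 0 ↔ ∀ x : ZMod p, (fam (X ^ 2) z).eval x ≠ 0 := by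
      rw [nk_one, sum_eq_zero_iff_of_nonneg (fun x _ => by split_ifs <;> norm_num)]
      constructor
      · intro h x hx
        have := h x (mem_univ x)
        rw [if_pos hx] at this
        exact one_ne_zero this
      · intro h x _
        rw [if_neg (h x)]
    rw [← Nat.cast_eq_zero (R := ℝ), h4]
    constructor
    · intro h x hx
      have : x ∈ (fam (X ^ 2) z).roots := (mem_roots hm.ne_zero).2 hx
      rw [h] at this
      exact absurd this (Multiset.notMem_zero x)
    · intro h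
      rw [Multiset.eq_zero_iff_forall_notMem]
      intro x hx
      exact h x ((mem_roots hm.ne_zero).1 hx)
  by_cases h : Irreducible (fam (X ^ 2) z)
  · rw [if_pos h, h3.1 h]
    norm_num
  · rw [if_neg h]
    have h4 : nk p 1 (fam (X ^ 2) z) ≠ 0 := fun h' => h (h3.2 h')
    have h5 : nk p 1 (fam (X ^ 2) z) = 1 ∨ nk p 1 (fam (X ^ 2) z) = 2 := by omega
    rcases h5 with h5 | h5 <;> rw [h5] <;> norm_num

open Classical in
lemma quad_count : ∑ z : ZMod p × ZMod p, (if Irreducible (fam (X ^ 2) z) then (1 : ℝ) else 0) = ((p : ℝ) ^ 2 - p) / 2 := by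
  rw [sum_congr rfl fun z _ => quad_irr z, sum_add_distrib, sum_sub_distrib, ← sum_div, sum_sub_distrib, mom_one, mom_two, sum_const, card_univ,
    Fintype.card_prod, ZMod.card, nsmul_eq_mul]
  push_cast
  ring

open Classical in
lemma nk_two (f : (ZMod p)[X]) : (nk p 2 f : ℝ) = ∑ u : ZMod p × ZMod p, (if Irreducible (fam (X ^ 2) u) then (1 : ℝ) else 0) * (if fam (X ^ 2) u ∣ f then (1 : ℝ) else 0) := by
  have h1 : nk p 2 f = Nat.card {u : ZMod p × ZMod p // Irreducible (fam (X ^ 2) u) ∧ fam (X ^ 2) u ∣ f} := by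
    unfold nk
    symm
    apply Nat.card_congr
    refine Equiv.ofBijective (fun u => ⟨fam (X ^ 2) u.1, (quad_monic u.1).1, u.2.1, (quad_monic u.1).2, u.2.2⟩) ⟨?_, ?_⟩
    · intro u v huv
      have h2 : fam (X ^ 2) u.1 = fam (X ^ 2) v.1 := congrArg Subtype.val huv
      have h3 := congrArg (fun q : (ZMod p)[X] => q.coeff 0) h2
      have h4 := congrArg (fun q : (ZMod p)[X] => q.coeff 1) h2
      unfold fam at h3 h4
      simp [coeff_X] at h3 h4
      exact Subtype.ext (Prod.ext h4 h3)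
    · rintro ⟨q, hq1, hq2, hq3, hq4⟩
      have h2 : fam (X ^ 2) (q.coeff 1, q.coeff 0) = q := by
        have h5 : q = C (q.coeff 2) * X ^ 2 + C (q.coeff 1) * X + C (q.coeff 0) := by
          conv_lhs => rw [q.as_sum_range_C_mul_X_pow, hq3]
          rw [sum_range_succ, sum_range_succ, sum_range_one, pow_zero, pow_one, mul_one]
          ring
        have h6 : q.coeff 2 = 1 := by
          have := hq1.coeff_natDegree
          rwa [hq3] at this
        rw [h6, C_1, one_mul] at h5
        unfold fam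
        exact h5.symm
      exact ⟨⟨(q.coeff 1, q.coeff 0), by rw [h2]; exact hq2, by rw [h2]; exact hq4⟩, Subtype.ext h2⟩
  have h7 : ∀ u : ZMod p × ZMod p, (if Irreducible (fam (X ^ 2) u) then (1 : ℝ) else 0) * (if fam (X ^ 2) u ∣ f then (1 : ℝ) else 0) =
      if Irreducible (fam (X ^ 2) u) ∧ fam (X ^ 2) u ∣ f then 1 else 0 := by
    intro u
    by_cases h8 : Irreducible (fam (X ^ 2) u) <;> by_cases h9 : fam (X ^ 2) u ∣ f <;> simp [h8, h9]
  rw [h1, Nat.card_eq_fintype_card, Fintype.card_subtype, sum_congr rfl fun u _ => h7 u, sum_boole]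

open Classical in
lemma quad_dvd (h : (ZMod p)[X]) (u : ZMod p × ZMod p) : ∑ z : ZMod p × ZMod p, (if fam (X ^ 2) u ∣ fam h z then (1 : ℝ) else 0) = 1 := by
  obtain ⟨hm, hd⟩ := quad_monic u
  obtain ⟨q, hq⟩ : ∃ q : (ZMod p)[X], q = fam (X ^ 2) u := ⟨_, rfl⟩
  rw [← hq] at hm hd ⊢
  have hdeg : q.degree = 2 := by
    rw [degree_eq_natDegree hm.ne_zero, hd]
    rfl
  obtain ⟨r, hr⟩ : ∃ r : (ZMod p)[X], r = h %ₘ q := ⟨_, rfl⟩
  have hrd : r.degree < 2 := by
    rw [hr, ← hdeg]
    exact degree_modByMonic_lt h hm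
  have hr2 : r = C (r.coeff 1) * X + C (r.coeff 0) := by
    apply eq_X_add_C_of_degree_le_one
    have := Order.le_of_lt_succ (show r.degree < Order.succ 1 from by
      convert hrd using 1
      rfl)
    exact this
  have h1 : ∀ z : ZMod p × ZMod p, q ∣ fam h z ↔ z = (-r.coeff 1, -r.coeff 0) := by
    intro z
    have h2 : fam h z %ₘ q = C (r.coeff 1 + z.1) * X + C (r.coeff 0 + z.2) := by
      have h3 : fam h z = h + (C z.1 * X + C z.2) := by
        unfold fam
        ring
      have h4 : (C z.1 * X + C z.2) %ₘ q = C z.1 * X + C z.2 := by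
        rw [modByMonic_eq_self_iff hm, hdeg]
        exact lt_of_le_of_lt degree_linear_le (by decide)
      rw [h3, add_modByMonic, h4, ← hr]
      conv_lhs => rw [hr2]
      rw [C_add, C_add]
      ring
    rw [← modByMonic_eq_zero_iff_dvd hm, h2]
    constructor
    · intro h3
      have h4 := congrArg (fun q : (ZMod p)[X] => q.coeff 0) h3
      have h5 := congrArg (fun q : (ZMod p)[X] => q.coeff 1) h3
      simp only [coeff_add, coeff_C_mul, coeff_X_zero, coeff_C_zero, mul_zero, zero_add, coeff_zero, coeff_X_one, mul_one, coeff_C_succ, add_zero] at h4 h5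
      refine Prod.ext ?_ ?_
      · show z.1 = -r.coeff 1
        linear_combination h5
      · show z.2 = -r.coeff 0
        linear_combination h4
    · intro h3
      rw [h3]
      simp
  have h6 : ∀ z : ZMod p × ZMod p, (if q ∣ fam h z then (1 : ℝ) else 0) = if z = (-r.coeff 1, -r.coeff 0) then 1 else 0 := by
    intro z
    by_cases h7 : z = (-r.coeff 1, -r.coeff 0)
    · rw [if_pos h7, if_pos ((h1 z).2 h7)]
    · rw [if_neg h7, if_neg fun h8 => h7 ((h1 z).1 h8)]
  rw [sum_congr rfl fun z _ => h6 z, sum_ite_eq' univ, if_pos (mem_univ _)]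

lemma mom_quad (h : (ZMod p)[X]) : ∑ z : ZMod p × ZMod p, (nk p 2 (fam h z) : ℝ) = ((p : ℝ) ^ 2 - p) / 2 := by
  classical
  rw [sum_congr rfl fun z _ => nk_two (fam h z), sum_comm, ← quad_count]
  refine sum_congr rfl fun u _ => ?_
  rw [← mul_sum, quad_dvd, mul_one]

end

end Pool.Agent.X22.EQ
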