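import Pool.Agent.X22.EQ2

set_option autoImplicit false

/-! Maxima of partial sums: a chaining inequality. -/

namespace Pool.Agent.X22.EQ
open Finset Filter

/-- the constant -/
lemma kap_pos (p : ℝ) (hp : 2 < p) : 0 < 1 - (2 : ℝ) ^ (1 / p - 1 / 2) := by
  have h1 : 1 / p - 1 / 2 < 0 := by
    have : 1 / p < 1 / 2 := one_div_lt_one_div_of_lt (by norm_num) hp
    linarith
  have h2 : (2 : ℝ) ^ (1 / p - 1 / 2) < 1 := Real.rpow_lt_one_of_one_lt_of_neg (by norm_num) h1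
  linarith

/-- **Maxima of partial sums.** -/
theorem chain {Ω : Type} (O : Finset Ω) (p : ℝ) (hp : 2 < p) (g : ℕ → Ω → ℝ) (μ : ℕ → ℝ) (hμ : ∀ n, 0 ≤ μ n) (C : ℝ) (hC : 0 ≤ C) (N : ℕ)
    (h : ∀ a b : ℕ, a ≤ b → b ≤ N → (∑ ω ∈ O, |∑ n ∈ Ico a b, g n ω| ^ p) ^ (1 / p) ≤ C * Real.sqrt (∑ n ∈ Ico a b, μ n)) :
    ∀ (t a b : ℕ), b - a ≤ t → a ≤ b → b ≤ N → ∃ M : Ω → ℝ, (∀ ω, 0 ≤ M ω) ∧
      (∀ v, a ≤ v → v ≤ b → ∀ ω, |∑ n ∈ Ico a v, g n ω| ≤ M ω) ∧
      (∑ ω ∈ O, M ω ^ p) ^ (1 / p) ≤ (C / (1 - (2 : ℝ) ^ (1 / p - 1 / 2))) * Real.sqrt (∑ n ∈ Ico a b, μ n) := by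
  have hk := kap_pos p hp
  obtain ⟨κ, hκ⟩ : ∃ κ : ℝ, κ = 1 - (2 : ℝ) ^ (1 / p - 1 / 2) := ⟨_, rfl⟩
  rw [← hκ] at hk ⊢
  have hp0 : 0 < p := by linarith
  intro t
  induction t with
  | zero =>
      intro a b hab hab' _
      have hab2 : a = b := by omega
      subst hab2
      refine ⟨fun _ => 0, fun _ => le_rfl, fun v hv1 hv2 ω => ?_, ?_⟩
      · have : v = a := by omega
        rw [this, Ico_self, sum_empty, abs_zero]
      · rw [sum_eq_zero (fun ω _ => Real.zero_rpow hp0.ne'), Real.zero_rpow (by positivity)]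
        positivity
  | succ t ih =>
      intro a b hab hab' hbN
      rcases Nat.eq_or_lt_of_le hab' with hab2 | hab2
      · subst hab2
        exact ih a a (by omega) le_rfl hbN
      classical
      obtain ⟨W, hW⟩ : ∃ W : ℝ, W = ∑ n ∈ Ico a b, μ n := ⟨_, rfl⟩
      have hW0 : 0 ≤ W := by rw [hW]; exact sum_nonneg fun n _ => hμ n
      have hex : ∃ m, a ≤ m ∧ W / 2 ≤ ∑ n ∈ Ico a (m + 1), μ n := by
        refine ⟨b - 1, by omega, ?_⟩
        rw [Nat.sub_add_cancel (by omega), ← hW]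
        linarith
      obtain ⟨m, hm⟩ : ∃ m, m = Nat.find hex := ⟨_, rfl⟩
      have hm1 : a ≤ m ∧ W / 2 ≤ ∑ n ∈ Ico a (m + 1), μ n := by rw [hm]; exact Nat.find_spec hex
      have hmb : m < b := by
        have h1 : m ≤ b - 1 := by
          rw [hm]
          apply Nat.find_min' hex
          refine ⟨by omega, ?_⟩
          rw [Nat.sub_add_cancel (by omega), ← hW]
          linarith
        omega
      have hm2 : ∑ n ∈ Ico a m, μ n ≤ W / 2 := by
        rcases Nat.eq_or_lt_of_le hm1.1 with h1 | h1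
        · rw [← h1, Ico_self, sum_empty]
          linarith
        · have h2 : ¬ (a ≤ m - 1 ∧ W / 2 ≤ ∑ n ∈ Ico a (m - 1 + 1), μ n) := by
            apply Nat.find_min hex
            rw [← hm]
            omega
          rw [Nat.sub_add_cancel (by omega)] at h2
          by_contra h3
          exact h2 ⟨by omega, by linarith⟩
      have hm3 : ∑ n ∈ Ico (m + 1) b, μ n ≤ W / 2 := by
        have h1 := sum_Ico_consecutive μ (show a ≤ m + 1 by omega) (show m + 1 ≤ b by omega)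
        rw [← hW] at h1
        linarith [hm1.2]
      obtain ⟨M1, h11, h12, h13⟩ := ih a m (by omega) hm1.1 (by omega)
      obtain ⟨M2, h21, h22, h23⟩ := ih (m + 1) b (by omega) (by omega) hbN
      obtain ⟨R, hR⟩ : ∃ R : Ω → ℝ, R = fun ω => (M1 ω ^ p + M2 ω ^ p) ^ (1 / p) := ⟨_, rfl⟩
      have hpow : ∀ u : ℝ, 0 ≤ u → (u ^ p) ^ (1 / p) = u := by
        intro u hu
        rw [← Real.rpow_mul hu, mul_one_div_cancel hp0.ne', Real.rpow_one]
      have hpow' : ∀ u : ℝ, 0 ≤ u → (u ^ (1 / p)) ^ p = u := by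
        intro u hu
        rw [← Real.rpow_mul hu, one_div_mul_cancel hp0.ne', Real.rpow_one]
      have hR0 : ∀ ω, 0 ≤ R ω := by
        intro ω
        rw [hR]
        exact Real.rpow_nonneg (add_nonneg (Real.rpow_nonneg (h11 ω) _) (Real.rpow_nonneg (h21 ω) _)) _
      have hR1 : ∀ ω, M1 ω ≤ R ω := by
        intro ω
        rw [hR]
        calc M1 ω = (M1 ω ^ p) ^ (1 / p) := (hpow _ (h11 ω)).symm
          _ ≤ (M1 ω ^ p + M2 ω ^ p) ^ (1 / p) := by
              apply Real.rpow_le_rpow (Real.rpow_nonneg (h11 ω) _) _ (by positivity)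
              have := Real.rpow_nonneg (h21 ω) p
              linarith
      have hR2 : ∀ ω, M2 ω ≤ R ω := by
        intro ω
        rw [hR]
        calc M2 ω = (M2 ω ^ p) ^ (1 / p) := (hpow _ (h21 ω)).symm
          _ ≤ (M1 ω ^ p + M2 ω ^ p) ^ (1 / p) := by
              apply Real.rpow_le_rpow (Real.rpow_nonneg (h21 ω) _) _ (by positivity)
              have := Real.rpow_nonneg (h11 ω) p
              linarith
      refine ⟨fun ω => |∑ n ∈ Ico a (m + 1), g n ω| + R ω, fun ω => add_nonneg (abs_nonneg _) (hR0 ω), ?_, ?_⟩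
      · intro v hv1 hv2 ω
        rcases Nat.lt_or_ge m v with h1 | h1
        · rw [← sum_Ico_consecutive (fun n => g n ω) (show a ≤ m + 1 by omega) (show m + 1 ≤ v by omega)]
          refine (abs_add_le _ _).trans (add_le_add le_rfl ?_)
          exact (h22 v (by omega) hv2 ω).trans (hR2 ω)
        · have := (h12 v hv1 h1 ω).trans (hR1 ω)
          have h2 := abs_nonneg (∑ n ∈ Ico a (m + 1), g n ω)
          show _ ≤ |∑ n ∈ Ico a (m + 1), g n ω| + R ω
          linarith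
      · have hmink := Real.Lp_add_le_of_nonneg O (f := fun ω => |∑ n ∈ Ico a (m + 1), g n ω|) (g := R) (p := p) (by linarith)
          (fun ω _ => abs_nonneg _) (fun ω _ => hR0 ω)
        refine hmink.trans ?_
        obtain ⟨B, hB⟩ : ∃ B : ℝ, B = (C / κ) * Real.sqrt (W / 2) := ⟨_, rfl⟩
        have hB0 : 0 ≤ B := by rw [hB]; positivity
        have hA : ∀ (M : Ω → ℝ) (w : ℝ), (∀ ω, 0 ≤ M ω) → w ≤ W / 2 → (∑ ω ∈ O, M ω ^ p) ^ (1 / p) ≤ (C / κ) * Real.sqrt w →
            ∑ ω ∈ O, M ω ^ p ≤ B ^ p := by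
          intro M w hM hw h3
          have h4 : (∑ ω ∈ O, M ω ^ p) ^ (1 / p) ≤ B := by
            rw [hB]
            exact h3.trans (mul_le_mul_of_nonneg_left (Real.sqrt_le_sqrt hw) (by positivity))
          have h5 : 0 ≤ ∑ ω ∈ O, M ω ^ p := sum_nonneg fun ω _ => Real.rpow_nonneg (hM ω) _
          calc ∑ ω ∈ O, M ω ^ p = ((∑ ω ∈ O, M ω ^ p) ^ (1 / p)) ^ p := (hpow' _ h5).symm
            _ ≤ B ^ p := Real.rpow_le_rpow (Real.rpow_nonneg h5 _) h4 hp0.le
        have hA1 := hA M1 _ h11 hm2 h13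
        have hA2 := hA M2 _ h21 hm3 h23
        have hRp : ∑ ω ∈ O, R ω ^ p = ∑ ω ∈ O, M1 ω ^ p + ∑ ω ∈ O, M2 ω ^ p := by
          rw [← sum_add_distrib]
          refine sum_congr rfl fun ω _ => ?_
          rw [hR]
          exact hpow' _ (add_nonneg (Real.rpow_nonneg (h11 ω) _) (Real.rpow_nonneg (h21 ω) _))
        have h6 : (∑ ω ∈ O, R ω ^ p) ^ (1 / p) ≤ (2 : ℝ) ^ (1 / p) * B := by
          rw [hRp]
          have h7 : ∑ ω ∈ O, M1 ω ^ p + ∑ ω ∈ O, M2 ω ^ p ≤ 2 * B ^ p := by linarith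
          have h8 : 0 ≤ ∑ ω ∈ O, M1 ω ^ p + ∑ ω ∈ O, M2 ω ^ p :=
            add_nonneg (sum_nonneg fun ω _ => Real.rpow_nonneg (h11 ω) _) (sum_nonneg fun ω _ => Real.rpow_nonneg (h21 ω) _)
          refine (Real.rpow_le_rpow h8 h7 (by positivity)).trans (le_of_eq ?_)
          rw [Real.mul_rpow (by norm_num) (Real.rpow_nonneg hB0 _), hpow _ hB0]
        have h9 : (∑ ω ∈ O, |∑ n ∈ Ico a (m + 1), g n ω| ^ p) ^ (1 / p) ≤ C * Real.sqrt W := by
          refine (h a (m + 1) (by omega) (by omega)).trans (mul_le_mul_of_nonneg_left (Real.sqrt_le_sqrt ?_) hC)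
          rw [hW]
          exact sum_le_sum_of_subset_of_nonneg (Ico_subset_Ico_right (by omega)) (fun n _ _ => hμ n)
        rw [← hW]
        have h10 : (2 : ℝ) ^ (1 / p) * B = (1 - κ) * (C / κ) * Real.sqrt W := by
          have e1 : 1 - κ = (2 : ℝ) ^ (1 / p) * ((2 : ℝ) ^ (1 / 2 : ℝ))⁻¹ := by
            rw [hκ, Real.rpow_sub (by norm_num)]
            ring
          have e2 : Real.sqrt (W / 2) = Real.sqrt W * ((2 : ℝ) ^ (1 / 2 : ℝ))⁻¹ := by
            rw [Real.sqrt_div hW0, ← Real.sqrt_eq_rpow]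
            ring
          rw [e1, hB, e2]
          ring
        have h11' : C * Real.sqrt W + (1 - κ) * (C / κ) * Real.sqrt W = (C / κ) * Real.sqrt W := by
          field_simp
          ring
        linarith [h6, h9, h10, h11']

end Pool.Agent.X22.EQ
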