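import Pool.Agent.X22.EQ3

set_option autoImplicit false

/-! Sums over primes of local functions of size `p^(-1/2)` with mean zero, for few-digit changes of several integers. -/

namespace Pool.Agent.X22.EQ
open Finset Filter
open Pool.Agent.TH894.ND Pool.Agent.TH894.NE
open Pool.Agent.TH894.SM (change change_eq)

/-- the primes in `(y, x]` -/
def pin (y x : ℕ) : Finset ℕ := (Ioc y x).filter Nat.Prime

lemma mem_pin {y x p : ℕ} : p ∈ pin y x ↔ (y < p ∧ p ≤ x) ∧ p.Prime := by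
  unfold pin
  rw [mem_filter, mem_Ioc]

/-- the sum of `1/p` over the primes in `(y, x]` -/
noncomputable def hs (y x : ℕ) : ℝ := ∑ p ∈ pin y x, 1 / (p : ℝ)

lemma hs_nonneg (y x : ℕ) : 0 ≤ hs y x := sum_nonneg fun _ _ => by positivity

lemma hs_mono (y : ℕ) {x x' : ℕ} (h : x ≤ x') : hs y x ≤ hs y x' := by
  unfold hs
  apply sum_le_sum_of_subset_of_nonneg
  · intro p hp
    rw [mem_pin] at hp ⊢
    exact ⟨⟨hp.1.1, hp.1.2.trans h⟩, hp.2⟩
  · intro p _ _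
    positivity

open Classical in
/-- **Sums over primes at the central point.** -/
theorem central_law (b d A : ℕ) (hb : 2 ≤ b) (hd : 1 ≤ d) (δ : ℝ) (hδ : 0 < δ) : ∃ c : ℝ, 0 < c ∧ ∃ C : ℝ, 0 < C ∧ ∃ y₀ : ℕ,
    ∀ (K r : Fin d → ℕ) (y : ℕ), (∀ l, 2 * r l ≤ K l) → y₀ ≤ y →
    ∀ N : Fin d → ℕ, (∀ l, N l < b ^ K l) → ∀ f : Fin d → ℕ → ℕ, (∀ l j, f l j < b ∧ f l j ≠ N l / b ^ j % b) →
    ∀ F : ℕ → (Fin d → ℕ) → ℝ, (∀ p, p.Prime → y < p → Per p (F p) ∧ mean d p (F p) = 0) →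
    ∀ M : ℝ, 0 ≤ M → (∀ p, p.Prime → y < p → ∀ n, |F p n| ≤ M / Real.sqrt p) →
    ∀ T : ℝ, 1 ≤ T → ∀ E : (Fin d → ℕ) → Prop,
    (∀ m, (∀ x : ℕ, y ≤ x → (∀ l, Real.log x ^ 2 ≤ c * r l) →
      |∑ p ∈ pin y x, F p m| ≤ T * M * (1 + hs y x) ^ (1 / 2 + δ)) → E m) →
      ((((Fintype.piFinset (fun l => powersetCard (r l) (range (K l)))).filter
        (fun S => ¬ E (fun l => change b (K l) (N l) (f l) (S l)))).card : ℕ) : ℝ) ≤ C / T ^ A * ∏ l, ((K l).choose (r l) : ℝ) := by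
  obtain ⟨j, hj⟩ : ∃ j, j = A + 2 := ⟨_, rfl⟩
  obtain ⟨c, hc, x₀, hmom⟩ := moment_few b d j hb hd (by omega)
  obtain ⟨p, hp⟩ : ∃ p : ℝ, p = ((2 * j : ℕ) : ℝ) := ⟨_, rfl⟩
  have hjr : (2 : ℝ) ≤ j := by rw [hj]; push_cast; have : (0 : ℝ) ≤ A := Nat.cast_nonneg _; linarith
  have hp2 : 2 < p := by rw [hp]; push_cast; linarith
  have hp0 : 0 < p := by linarith
  have hk := kap_pos p hp2
  obtain ⟨κ, hκ⟩ : ∃ κ : ℝ, κ = 1 - (2 : ℝ) ^ (1 / p - 1 / 2) := ⟨_, rfl⟩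
  rw [← hκ] at hk
  obtain ⟨qq, hqq⟩ : ∃ qq : ℝ, qq = (2 : ℝ) ^ (-(2 * δ * j)) := ⟨_, rfl⟩
  have hqq0 : 0 < qq := by rw [hqq]; positivity
  have hqq1 : qq < 1 := by
    rw [hqq]
    apply Real.rpow_lt_one_of_one_lt_of_neg (by norm_num)
    have : 0 < 2 * δ * j := by positivity
    linarith
  obtain ⟨D, hD⟩ : ∃ D : ℝ, D = (1 / κ) ^ (2 * j) * (12 * (2 * j).factorial) * (2 : ℝ) ^ ((1 + 2 * δ) * j) / (1 - qq) := ⟨_, rfl⟩
  have hfac : (0 : ℝ) < (2 * j).factorial := by exact_mod_cast Nat.factorial_pos _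
  have h1qq : 0 < 1 - qq := by linarith
  have hD0 : 0 < D := by rw [hD]; positivity
  refine ⟨c, hc, D, hD0, x₀ + b * b + 1, fun K r y hrK hy N hN f hf F hF M hM0 hM T hT E hE => ?_⟩
  obtain ⟨O, hO⟩ : ∃ O, O = Fintype.piFinset (fun l => powersetCard (r l) (range (K l))) := ⟨_, rfl⟩
  obtain ⟨P, hP⟩ : ∃ P : ℝ, P = ∏ l, ((K l).choose (r l) : ℝ) := ⟨_, rfl⟩
  have hP0 : 0 ≤ P := by rw [hP]; exact prod_nonneg fun i _ => Nat.cast_nonneg _
  rw [← hO, ← hP]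
  obtain ⟨cg, hcg⟩ : ∃ cg : (Fin d → Finset ℕ) → Fin d → ℕ, cg = fun S l => change b (K l) (N l) (f l) (S l) := ⟨_, rfl⟩
  obtain ⟨Bad, hBad⟩ : ∃ Bad, Bad = O.filter (fun S => ¬ E (cg S)) := ⟨_, rfl⟩
  have hgoal : O.filter (fun S => ¬ E (fun l => change b (K l) (N l) (f l) (S l))) = Bad := by rw [hBad, hcg]
  rw [hgoal]
  have hT0 : 0 < T := by linarith
  have hbound0 : 0 ≤ D / T ^ A * P := by positivity
  -- the admissible lengths
  obtain ⟨Ad, hAd⟩ : ∃ Ad : ℕ → Prop, Ad = fun x : ℕ => ∀ l, Real.log (x : ℝ) ^ 2 ≤ c * r l := ⟨_, rfl⟩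
  have hbadE : ∀ S ∈ Bad, ∃ x, y ≤ x ∧ Ad x ∧ T * M * (1 + hs y x) ^ (1 / 2 + δ) < |∑ p ∈ pin y x, F p (cg S)| := by
    intro S hS
    rw [hBad, mem_filter] at hS
    by_contra hcon
    push Not at hcon
    apply hS.2
    apply hE
    intro x hx1 hx2
    exact hcon x hx1 (by rw [hAd]; exact hx2)
  by_cases hnon : ∃ x, y ≤ x ∧ Ad x
  swap
  · have : Bad = ∅ := by
      rw [eq_empty_iff_forall_notMem]
      intro S hS
      obtain ⟨x, h1, h2, _⟩ := hbadE S hS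
      exact hnon ⟨x, h1, h2⟩
    rw [this, card_empty, Nat.cast_zero]
    exact hbound0
  have hy1 : 1 ≤ y := by omega
  have hAdmono : ∀ x x' : ℕ, 1 ≤ x → x ≤ x' → Ad x' → Ad x := by
    intro x x' h1 h2 h3
    rw [hAd] at h3 ⊢
    intro l
    refine le_trans ?_ (h3 l)
    have hxr : (1 : ℝ) ≤ x := by exact_mod_cast h1
    have e1 : Real.log x ≤ Real.log x' := Real.log_le_log (by linarith) (by exact_mod_cast h2)
    exact pow_le_pow_left₀ (Real.log_nonneg hxr) e1 2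
  obtain ⟨B, hB⟩ : ∃ B : ℕ, ∀ x : ℕ, Ad x → x ≤ B := by
    obtain ⟨B, hB⟩ := exists_nat_ge (Real.exp (Real.sqrt (c * r ⟨0, by omega⟩)))
    refine ⟨B, fun x hx => ?_⟩
    rcases Nat.eq_zero_or_pos x with h0 | h0
    · omega
    rw [hAd] at hx
    have h1 : Real.log x ≤ Real.sqrt (c * r ⟨0, by omega⟩) := Real.le_sqrt_of_sq_le (hx ⟨0, by omega⟩)
    have h2 : (x : ℝ) ≤ Real.exp (Real.sqrt (c * r ⟨0, by omega⟩)) := by
      rwa [Real.log_le_iff_le_exp (by exact_mod_cast h0)] at h1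
    exact_mod_cast h2.trans hB
  obtain ⟨X, hX⟩ : ∃ X, X = ((Icc y B).filter Ad).sup id := ⟨_, rfl⟩
  have hXle : ∀ x, y ≤ x → Ad x → x ≤ X := by
    intro x h1 h2
    rw [hX]
    exact le_sup (f := id) (mem_filter.2 ⟨mem_Icc.2 ⟨h1, hB x h2⟩, h2⟩)
  have hXAd : y ≤ X ∧ Ad X := by
    obtain ⟨x, h1, h2⟩ := hnon
    have hne : ((Icc y B).filter Ad).Nonempty := ⟨x, mem_filter.2 ⟨mem_Icc.2 ⟨h1, hB x h2⟩, h2⟩⟩
    obtain ⟨z, hz1, hz2⟩ := exists_mem_eq_sup _ hne id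
    rw [← hX] at hz2
    rw [mem_filter, mem_Icc] at hz1
    have hz3 : X = z := hz2
    rw [hz3]
    exact ⟨hz1.1.1, hz1.2⟩
  -- the chaining
  obtain ⟨g, hg⟩ : ∃ g : ℕ → (Fin d → Finset ℕ) → ℝ, g = fun n S => if n.Prime ∧ y < n then F n (cg S) else 0 := ⟨_, rfl⟩
  obtain ⟨μ, hμ⟩ : ∃ μ : ℕ → ℝ, μ = fun n => if n.Prime ∧ y < n then 1 / (n : ℝ) else 0 := ⟨_, rfl⟩
  have hμ0 : ∀ n, 0 ≤ μ n := by
    intro n
    rw [hμ]
    show 0 ≤ if n.Prime ∧ y < n then 1 / (n : ℝ) else 0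
    split_ifs <;> positivity
  have hgsum : ∀ (x : ℕ) (S), ∑ n ∈ Ico (y + 1) (x + 1), g n S = ∑ p ∈ pin y x, F p (cg S) := by
    intro x S
    unfold pin
    rw [sum_filter]
    refine sum_congr ?_ fun n hn => ?_
    · ext n
      rw [mem_Ico, mem_Ioc]
      omega
    · rw [mem_Ioc] at hn
      rw [hg]
      show (if n.Prime ∧ y < n then F n (cg S) else 0) = _
      by_cases h1 : n.Prime
      · rw [if_pos ⟨h1, by omega⟩, if_pos h1]
      · rw [if_neg (fun h => h1 h.1), if_neg h1]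
  have hμsum : ∀ x : ℕ, ∑ n ∈ Ico (y + 1) (x + 1), μ n = hs y x := by
    intro x
    unfold hs pin
    rw [sum_filter]
    refine sum_congr ?_ fun n hn => ?_
    · ext n
      rw [mem_Ico, mem_Ioc]
      omega
    · rw [mem_Ioc] at hn
      rw [hμ]
      show (if n.Prime ∧ y < n then 1 / (n : ℝ) else 0) = _
      by_cases h1 : n.Prime
      · rw [if_pos ⟨h1, by omega⟩, if_pos h1]
      · rw [if_neg (fun h => h1 h.1), if_neg h1]
  obtain ⟨C₁, hC₁⟩ : ∃ C₁ : ℝ, C₁ = (12 * (2 * j).factorial * P) ^ (1 / p) * M := ⟨_, rfl⟩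
  have hC₁0 : 0 ≤ C₁ := by rw [hC₁]; positivity
  have hnorm : ∀ a e : ℕ, a ≤ e → e ≤ X + 1 → (∑ S ∈ O, |∑ n ∈ Ico a e, g n S| ^ p) ^ (1 / p) ≤ C₁ * Real.sqrt (∑ n ∈ Ico a e, μ n) := by
    intro a e hae heX
    obtain ⟨I, hI⟩ : ∃ I : Finset ℕ, I = (Ico a e).filter (fun n => n.Prime ∧ y < n) := ⟨_, rfl⟩
    have hImem : ∀ n ∈ I, n.Prime ∧ y < n ∧ n ≤ X := by
      intro n hn
      rw [hI, mem_filter, mem_Ico] at hn
      exact ⟨hn.2.1, hn.2.2, by omega⟩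
    have hgI : ∀ S, ∑ n ∈ Ico a e, g n S = ∑ n ∈ I, F n (cg S) := by
      intro S
      rw [hI, sum_filter, hg]
    have hμI : ∑ n ∈ Ico a e, μ n = ∑ n ∈ I, 1 / (n : ℝ) := by
      rw [hI, sum_filter, hμ]
    have hbound := hmom r K X hrK (by omega) (by
      have := hXAd.2
      rw [hAd] at this
      exact this) N hN f hf I (fun n => n) (by
        intro n hn
        obtain ⟨h1, h2, h3⟩ := hImem n hn
        refine ⟨h1.one_lt.le, h3, ?_⟩
        rw [Nat.Prime.coprime_iff_not_dvd h1, h1.dvd_factorial]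
        omega) (by
        intro n hn n' hn' hne
        exact (Nat.coprime_primes (hImem n hn).1 (hImem n' hn').1).2 hne) F (by
        intro n hn
        obtain ⟨h1, h2, h3⟩ := hImem n hn
        exact hF n h1 h2) (fun n => M / Real.sqrt n) (by
        intro n hn m
        obtain ⟨h1, h2, h3⟩ := hImem n hn
        exact hM n h1 h2 m)
    have hsq : ∑ n ∈ I, (M / Real.sqrt n) ^ 2 = M ^ 2 * ∑ n ∈ Ico a e, μ n := by
      rw [hμI, mul_sum]
      refine sum_congr rfl fun n _ => ?_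
      rw [div_pow, Real.sq_sqrt (Nat.cast_nonneg _)]
      ring
    rw [hsq, ← hO, ← hP] at hbound
    have hle : ∑ S ∈ O, |∑ n ∈ Ico a e, g n S| ^ p ≤ 12 * (2 * j).factorial * (M ^ 2 * ∑ n ∈ Ico a e, μ n) ^ j * P := by
      refine le_trans (le_of_eq (sum_congr rfl fun S _ => ?_)) hbound
      rw [hgI, hp, Real.rpow_natCast, (even_two_mul j).pow_abs, hcg]
    have hμs : 0 ≤ ∑ n ∈ Ico a e, μ n := sum_nonneg fun n _ => hμ0 n
    refine (Real.rpow_le_rpow (sum_nonneg fun S _ => Real.rpow_nonneg (abs_nonneg _) _) hle (by positivity)).trans (le_of_eq ?_)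
    have e1 : 12 * ((2 * j).factorial : ℝ) * (M ^ 2 * ∑ n ∈ Ico a e, μ n) ^ j * P =
        (12 * (2 * j).factorial * P) * (M * Real.sqrt (∑ n ∈ Ico a e, μ n)) ^ p := by
      rw [hp, Real.rpow_natCast, pow_mul, mul_pow M, Real.sq_sqrt hμs]
      ring
    rw [e1, Real.mul_rpow (by positivity) (Real.rpow_nonneg (by positivity) _), ← Real.rpow_mul (by positivity),
      mul_one_div_cancel hp0.ne', Real.rpow_one, hC₁]
    ring
  have hchain := chain O p hp2 g μ hμ0 C₁ hC₁0 (X + 1) hnorm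
  -- the levels
  obtain ⟨n₀, hn₀⟩ : ∃ n₀ : ℕ, hs y X ≤ 2 ^ n₀ := by
    obtain ⟨n₀, hn₀⟩ := pow_unbounded_of_one_lt (hs y X) (by norm_num : (1 : ℝ) < 2)
    exact ⟨n₀, hn₀.le⟩
  have hlev : ∀ i : ℕ, ∃ xi, y ≤ xi ∧ xi ≤ X ∧ hs y xi ≤ 2 ^ i ∧ ∀ x, y ≤ x → x ≤ X → hs y x ≤ 2 ^ i → x ≤ xi := by
    intro i
    have hne : ((Icc y X).filter (fun x => hs y x ≤ 2 ^ i)).Nonempty := by
      refine ⟨y, mem_filter.2 ⟨mem_Icc.2 ⟨le_rfl, hXAd.1⟩, ?_⟩⟩
      have : hs y y = 0 := by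
        unfold hs pin
        rw [Ioc_self, filter_empty, sum_empty]
      rw [this]
      positivity
    obtain ⟨z, hz1, hz2⟩ := exists_mem_eq_sup _ hne id
    rw [mem_filter, mem_Icc] at hz1
    refine ⟨z, hz1.1.1, hz1.1.2, hz1.2, fun x h1 h2 h3 => ?_⟩
    have h4 : x ≤ ((Icc y X).filter (fun x => hs y x ≤ 2 ^ i)).sup id :=
      le_sup (f := id) (mem_filter.2 ⟨mem_Icc.2 ⟨h1, h2⟩, h3⟩)
    rw [hz2] at h4
    exact h4
  choose xi hxi1 hxi2 hxi3 hxi4 using hlev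
  have hmaj : ∀ i : ℕ, ∃ Mj : (Fin d → Finset ℕ) → ℝ, (∀ S, 0 ≤ Mj S) ∧
      (∀ x, y ≤ x → x ≤ xi i → ∀ S, |∑ p ∈ pin y x, F p (cg S)| ≤ Mj S) ∧
      ∑ S ∈ O, Mj S ^ (2 * j) ≤ (1 / κ) ^ (2 * j) * (12 * (2 * j).factorial) * P * M ^ (2 * j) * ((2 : ℝ) ^ i) ^ j := by
    intro i
    obtain ⟨Mj, h1, h2, h3⟩ := hchain (xi i + 1 - (y + 1)) (y + 1) (xi i + 1) le_rfl (by have := hxi1 i; omega) (by have := hxi2 i; omega)
    refine ⟨Mj, h1, fun x hx1 hx2 S => ?_, ?_⟩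
    · have := h2 (x + 1) (by omega) (by omega) S
      rwa [hgsum] at this
    · rw [hμsum, ← hκ] at h3
      have h4 : (∑ S ∈ O, Mj S ^ p) ^ (1 / p) ≤ C₁ / κ * Real.sqrt (2 ^ i) :=
        h3.trans (mul_le_mul_of_nonneg_left (Real.sqrt_le_sqrt (hxi3 i)) (by positivity))
      have h5 : 0 ≤ ∑ S ∈ O, Mj S ^ p := sum_nonneg fun S _ => Real.rpow_nonneg (h1 S) _
      have h6 := Real.rpow_le_rpow (Real.rpow_nonneg h5 _) h4 hp0.le
      rw [← Real.rpow_mul h5, one_div_mul_cancel hp0.ne', Real.rpow_one] at h6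
      have h7 : ∑ S ∈ O, Mj S ^ (2 * j) = ∑ S ∈ O, Mj S ^ p := by
        refine sum_congr rfl fun S _ => ?_
        rw [hp, Real.rpow_natCast]
      rw [h7]
      refine h6.trans (le_of_eq ?_)
      have e2 : (Real.sqrt ((2 : ℝ) ^ i)) ^ (2 * j) = ((2 : ℝ) ^ i) ^ j := by
        rw [pow_mul, Real.sq_sqrt (by positivity)]
      have e3 : C₁ ^ (2 * j) = (12 * (2 * j).factorial * P) * M ^ (2 * j) := by
        rw [hC₁, mul_pow, ← Real.rpow_natCast _ (2 * j), ← hp, ← Real.rpow_mul (by positivity), one_div_mul_cancel hp0.ne', Real.rpow_one]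
      rw [hp, Real.rpow_natCast, mul_pow, div_pow, e2, e3]
      ring
  choose Mj hMj0 hMj1 hMj2 using hmaj
  -- the case M = 0
  rcases hM0.eq_or_lt with hMz | hMp
  · have : Bad = ∅ := by
      rw [eq_empty_iff_forall_notMem]
      intro S hS
      obtain ⟨x, h1, h2, h3⟩ := hbadE S hS
      have h4 : ∑ p ∈ pin y x, F p (cg S) = 0 := by
        refine sum_eq_zero fun n hn => ?_
        rw [mem_pin] at hn
        have := hM n hn.2 hn.1.1 (cg S)
        rw [← hMz, zero_div] at this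
        exact abs_nonpos_iff.1 this
      rw [h4, ← hMz, mul_zero, zero_mul, abs_zero] at h3
      exact lt_irrefl _ h3
    rw [this, card_empty, Nat.cast_zero]
    exact hbound0
  -- the thresholds
  obtain ⟨th, hth⟩ : ∃ th : ℕ → ℝ, th = fun i => T * M * ((2 : ℝ) ^ i / 2) ^ (1 / 2 + δ) := ⟨_, rfl⟩
  have hth0 : ∀ i, 0 < th i := by
    intro i
    rw [hth]
    positivity
  have hBadsub : Bad ⊆ (range (n₀ + 1)).biUnion (fun i => O.filter (fun S => th i < Mj i S)) := by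
    intro S hS
    obtain ⟨x, hx1, hx2, hx3⟩ := hbadE S hS
    have hxX := hXle x hx1 hx2
    have hex : ∃ i, hs y x ≤ 2 ^ i := ⟨n₀, (hs_mono y hxX).trans hn₀⟩
    obtain ⟨i, hi⟩ : ∃ i, i = Nat.find hex := ⟨_, rfl⟩
    have hi1 : hs y x ≤ 2 ^ i := by rw [hi]; exact Nat.find_spec hex
    have hi2 : i ≤ n₀ := by rw [hi]; exact Nat.find_min' hex ((hs_mono y hxX).trans hn₀)
    have hi3 : (2 : ℝ) ^ i / 2 ≤ 1 + hs y x := by
      rcases Nat.eq_zero_or_pos i with h0 | h0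
      · rw [h0, pow_zero]
        have := hs_nonneg y x
        linarith
      · have h1 : ¬ hs y x ≤ 2 ^ (i - 1) := by
          apply Nat.find_min hex
          rw [← hi]
          omega
        push Not at h1
        have h2 : (2 : ℝ) ^ i = 2 * 2 ^ (i - 1) := by
          rw [← pow_succ']
          congr 1
          omega
        rw [h2]
        linarith
    rw [mem_biUnion]
    refine ⟨i, mem_range.2 (by omega), mem_filter.2 ⟨?_, ?_⟩⟩
    · rw [hBad] at hS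
      exact (mem_filter.1 hS).1
    · have h1 := hMj1 i x hx1 (hxi4 i x hx1 hxX hi1) S
      refine lt_of_lt_of_le (lt_of_le_of_lt ?_ hx3) h1
      rw [hth]
      show T * M * ((2 : ℝ) ^ i / 2) ^ (1 / 2 + δ) ≤ T * M * (1 + hs y x) ^ (1 / 2 + δ)
      exact mul_le_mul_of_nonneg_left (Real.rpow_le_rpow (by positivity) hi3 (by positivity)) (by positivity)
  have hcheb : ∀ i, (((O.filter (fun S => th i < Mj i S)).card : ℕ) : ℝ) ≤
      ((1 / κ) ^ (2 * j) * (12 * (2 * j).factorial) * (2 : ℝ) ^ ((1 + 2 * δ) * j)) / T ^ (2 * j) * P * qq ^ i := by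
    intro i
    have h1 : (((O.filter (fun S => th i < Mj i S)).card : ℕ) : ℝ) * th i ^ (2 * j) ≤ ∑ S ∈ O, Mj i S ^ (2 * j) := by
      calc (((O.filter (fun S => th i < Mj i S)).card : ℕ) : ℝ) * th i ^ (2 * j) =
            ∑ _S ∈ O.filter (fun S => th i < Mj i S), th i ^ (2 * j) := by rw [sum_const, nsmul_eq_mul]
        _ ≤ ∑ S ∈ O.filter (fun S => th i < Mj i S), Mj i S ^ (2 * j) := by
            refine sum_le_sum fun S hS => ?_
            exact pow_le_pow_left₀ (hth0 i).le (mem_filter.1 hS).2.le _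
        _ ≤ _ := sum_le_sum_of_subset_of_nonneg (filter_subset _ _) (fun S _ _ => pow_nonneg (hMj0 i S) _)
    have h2 := h1.trans (hMj2 i)
    have h3 : th i ^ (2 * j) = T ^ (2 * j) * M ^ (2 * j) * (((2 : ℝ) ^ i) ^ j / ((2 : ℝ) ^ ((1 + 2 * δ) * j) * qq ^ i)) := by
      rw [hth]
      show (T * M * ((2 : ℝ) ^ i / 2) ^ (1 / 2 + δ)) ^ (2 * j) = _
      rw [mul_pow, mul_pow]
      congr 1
      have e1 : (2 : ℝ) ^ i / 2 = (2 : ℝ) ^ ((i : ℝ) - 1) := by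
        rw [Real.rpow_sub (by norm_num), Real.rpow_one, Real.rpow_natCast]
      rw [e1, ← Real.rpow_mul (by norm_num), ← Real.rpow_natCast _ (2 * j), ← Real.rpow_mul (by norm_num), hqq,
        ← Real.rpow_natCast ((2 : ℝ) ^ (-(2 * δ * j))) i, ← Real.rpow_mul (by norm_num), ← Real.rpow_add (by norm_num),
        ← Real.rpow_natCast 2 i, ← Real.rpow_natCast _ j, ← Real.rpow_mul (by norm_num), ← Real.rpow_sub (by norm_num)]
      congr 1
      push_cast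
      ring
    have h4 : 0 < th i ^ (2 * j) := pow_pos (hth0 i) _
    rw [← le_div_iff₀ h4] at h2
    refine h2.trans (le_of_eq ?_)
    rw [h3]
    have e5 : (0 : ℝ) < ((2 : ℝ) ^ i) ^ j := by positivity
    have e6 : (0 : ℝ) < (2 : ℝ) ^ ((1 + 2 * δ) * j) := by positivity
    have e7 : 0 < M ^ (2 * j) := by positivity
    have e8 : 0 < T ^ (2 * j) := by positivity
    have e9 : 0 < qq ^ i := by positivity
    field_simp
  have hcardBad : (Bad.card : ℝ) ≤ ∑ i ∈ range (n₀ + 1), (((O.filter (fun S => th i < Mj i S)).card : ℕ) : ℝ) := by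
    have := (card_le_card hBadsub).trans card_biUnion_le
    exact_mod_cast this
  refine hcardBad.trans ((sum_le_sum fun i _ => hcheb i).trans ?_)
  rw [← mul_sum]
  have hgeo : ∑ i ∈ range (n₀ + 1), qq ^ i ≤ 1 / (1 - qq) := by
    rw [le_div_iff₀ h1qq, geom_sum_mul_neg]
    have : 0 < qq ^ (n₀ + 1) := by positivity
    linarith
  have hTT : T ^ A ≤ T ^ (2 * j) := pow_le_pow_right₀ hT (by omega)
  calc ((1 / κ) ^ (2 * j) * (12 * (2 * j).factorial) * (2 : ℝ) ^ ((1 + 2 * δ) * j)) / T ^ (2 * j) * P * ∑ i ∈ range (n₀ + 1), qq ^ i ≤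
        ((1 / κ) ^ (2 * j) * (12 * (2 * j).factorial) * (2 : ℝ) ^ ((1 + 2 * δ) * j)) / T ^ (2 * j) * P * (1 / (1 - qq)) :=
        mul_le_mul_of_nonneg_left hgeo (by positivity)
    _ = D / T ^ (2 * j) * P := by rw [hD]; ring
    _ ≤ D / T ^ A * P := by
        apply mul_le_mul_of_nonneg_right _ hP0
        exact div_le_div_of_nonneg_left hD0.le (by positivity) hTT

end Pool.Agent.X22.EQ
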