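import Pool.Agent.X22.EQ6

set_option autoImplicit false

/-! Averages over few-digit changes: asymptotic formulas. -/

namespace Pool.Agent.X22.EQ
open Finset Filter
open Pool.Agent.TH894.ND Pool.Agent.TH894.NE
open Pool.Agent.TH894.SM (change change_eq)

/-- averages over product sets -/
lemma avgd_eq {d : ℕ} {ι : Type*} (s : Fin d → Finset ι) (m : Fin d → ι → ℕ) (Q : ℕ) (hQ : 1 ≤ Q) (H : (Fin d → ℕ) → ℝ)
    (hH : Per Q H) (Fs : Finset ℕ)
    (hFs : ∀ k ∈ box d Q, (∃ i, k i ∉ Fs) → cfd Q H k = 0)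
    (ε : ℝ) (hε : 0 ≤ ε) (hgood : ∀ i, ∀ k ∈ Fs, k ≠ 0 → ‖∑ t ∈ s i, ee ((k : ℝ) * m i t / Q)‖ ≤ ε * (s i).card) :
    |∑ S ∈ Fintype.piFinset s, H (fun i => m i (S i)) - mean d Q H * ∏ i, ((s i).card : ℝ)| ≤
      mean d Q (fun n => |H n|) * ((Fs.card : ℝ) ^ d * ε * ∏ i, ((s i).card : ℝ)) := by
  classical
  obtain ⟨c0, hc0⟩ : ∃ c0 : ℝ, c0 = mean d Q (fun n => |H n|) := ⟨_, rfl⟩
  have hQr : (0 : ℝ) < Q := by exact_mod_cast (by omega : 0 < Q)
  have hcf : ∀ k, ‖cfd Q H k‖ ≤ c0 := by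
    intro k
    unfold cfd
    rw [norm_mul, norm_div, norm_one, norm_pow, Complex.norm_natCast, hc0]
    unfold mean
    apply mul_le_mul_of_nonneg_left _ (by positivity)
    refine (norm_sum_le _ _).trans (sum_le_sum fun n _ => ?_)
    rw [norm_mul, ch'_norm, mul_one, Complex.norm_real, Real.norm_eq_abs]
  have hc00 : 0 ≤ c0 := (norm_nonneg _).trans (hcf (fun _ => 0))
  rw [← hc0]
  obtain ⟨M, hM⟩ : ∃ M : ℝ, M = ∏ i, ((s i).card : ℝ) := ⟨_, rfl⟩
  have hM0 : 0 ≤ M := by rw [hM]; exact prod_nonneg fun i _ => Nat.cast_nonneg _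
  rw [← hM]
  have h1 : ((∑ S ∈ Fintype.piFinset s, H (fun i => m i (S i)) : ℝ) : ℂ) =
      ∑ k ∈ box d Q, cfd Q H k * ∏ i, ∑ t ∈ s i, ee ((k i : ℝ) * m i t / Q) := by
    rw [Complex.ofReal_sum, sum_congr rfl fun S _ => expandd Q hQ H hH (fun i => m i (S i)), sum_comm]
    refine sum_congr rfl fun k _ => ?_
    rw [← mul_sum]
    congr 1
    rw [Finset.prod_univ_sum]
    rfl
  obtain ⟨z, hz⟩ : ∃ z : Fin d → ℕ, z = fun _ => 0 := ⟨_, rfl⟩
  have hz0 : z ∈ box d Q := by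
    rw [mem_box, hz]
    exact fun _ => (by omega : 0 < Q)
  have h2 : cfd Q H z * ∏ i, ∑ t ∈ s i, ee ((z i : ℝ) * m i t / Q) = ((mean d Q H * M : ℝ) : ℂ) := by
    have e1 : cfd Q H z = ((mean d Q H : ℝ) : ℂ) := by
      unfold cfd mean
      push_cast
      congr 1
      refine sum_congr rfl fun n _ => ?_
      have e2 : ch' Q z n = 1 := by
        unfold ch'
        refine prod_eq_one fun i _ => ?_
        rw [hz]
        simp [ee_zero]
      rw [e2, mul_one]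
    have e3 : ∏ i, ∑ t ∈ s i, ee ((z i : ℝ) * m i t / Q) = ((M : ℝ) : ℂ) := by
      rw [hM, Complex.ofReal_prod]
      refine prod_congr rfl fun i _ => ?_
      have e4 : ∀ t ∈ s i, ee ((z i : ℝ) * m i t / Q) = 1 := by
        intro t _
        rw [hz]
        simp [ee_zero]
      rw [sum_congr rfl e4, sum_const, nsmul_eq_mul, mul_one, Complex.ofReal_natCast]
    rw [e1, e3]
    push_cast
    ring
  have h3 : ((∑ S ∈ Fintype.piFinset s, H (fun i => m i (S i)) - mean d Q H * M : ℝ) : ℂ) =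
      ∑ k ∈ (box d Q).erase z, cfd Q H k * ∏ i, ∑ t ∈ s i, ee ((k i : ℝ) * m i t / Q) := by
    rw [Complex.ofReal_sub, h1, ← h2, ← sum_erase_add _ _ hz0]
    ring
  have h4 : |∑ S ∈ Fintype.piFinset s, H (fun i => m i (S i)) - mean d Q H * M| =
      ‖∑ k ∈ (box d Q).erase z, cfd Q H k * ∏ i, ∑ t ∈ s i, ee ((k i : ℝ) * m i t / Q)‖ := by
    rw [← h3, Complex.norm_real, Real.norm_eq_abs]
  rw [h4]
  refine (norm_sum_le _ _).trans ?_
  have htriv : ∀ (i : Fin d) (k : ℕ), ‖∑ t ∈ s i, ee ((k : ℝ) * m i t / Q)‖ ≤ (s i).card := by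
    intro i k
    refine (norm_sum_le _ _).trans ?_
    rw [sum_congr rfl fun t _ => ee_norm _, sum_const, nsmul_eq_mul, mul_one]
  have h5 : ∀ k ∈ (box d Q).erase z, ‖cfd Q H k * ∏ i, ∑ t ∈ s i, ee ((k i : ℝ) * m i t / Q)‖ ≤
      c0 * M * (if k ∈ Fintype.piFinset (fun _ : Fin d => Fs) then ε else 0) := by
    intro k hk
    rw [mem_erase] at hk
    rw [norm_mul, mul_assoc]
    by_cases hF : k ∈ Fintype.piFinset (fun _ : Fin d => Fs)
    · rw [if_pos hF]
      rw [Fintype.mem_piFinset] at hF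
      apply mul_le_mul (hcf k) _ (norm_nonneg _) hc00
      obtain ⟨i₀, hi₀⟩ : ∃ i₀, k i₀ ≠ 0 := by
        by_contra hcon
        push Not at hcon
        apply hk.1
        rw [hz]
        funext i
        exact hcon i
      rw [norm_prod, hM]
      have e1 : ∏ i, ‖∑ t ∈ s i, ee ((k i : ℝ) * m i t / Q)‖ ≤ ∏ i, ((if i = i₀ then ε else 1) * ((s i).card : ℝ)) := by
        apply prod_le_prod (fun _ _ => norm_nonneg _)
        intro i _
        split_ifs with h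
        · subst h
          exact hgood i (k i) (hF i) hi₀
        · rw [one_mul]
          exact htriv i (k i)
      refine e1.trans (le_of_eq ?_)
      rw [prod_mul_distrib, prod_ite_eq' univ i₀ (fun _ => ε), if_pos (mem_univ _)]
      ring
    · have h6 : ∃ i, k i ∉ Fs := by
        rw [Fintype.mem_piFinset] at hF
        push Not at hF
        exact hF
      rw [hFs k hk.2 h6, norm_zero, zero_mul, if_neg hF]
      simp
  refine (sum_le_sum h5).trans ?_
  rw [← mul_sum]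
  have e2 : ∑ k ∈ (box d Q).erase z, (if k ∈ Fintype.piFinset (fun _ : Fin d => Fs) then ε else 0) ≤ (Fs.card : ℝ) ^ d * ε := by
    rw [← sum_filter, sum_const, nsmul_eq_mul]
    apply mul_le_mul_of_nonneg_right _ hε
    have : ((((box d Q).erase z).filter (fun k => k ∈ Fintype.piFinset (fun _ : Fin d => Fs))).card : ℝ) ≤ ((Fintype.piFinset (fun _ : Fin d => Fs)).card : ℝ) := by
      exact_mod_cast card_le_card (fun k hk => (mem_filter.1 hk).2)
    refine this.trans ?_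
    rw [Fintype.card_piFinset_const]
    push_cast
    exact le_refl _
  calc c0 * M * ∑ k ∈ (box d Q).erase z, (if k ∈ Fintype.piFinset (fun _ : Fin d => Fs) then ε else 0) ≤ c0 * M * ((Fs.card : ℝ) ^ d * ε) :=
        mul_le_mul_of_nonneg_left e2 (by positivity)
    _ = _ := by ring

/-- **Averages over few-digit changes of functions with small denominators.** -/
theorem few_avg (b d : ℕ) (hb : 2 ≤ b) : ∃ η : ℝ, 0 < η ∧ ∀ (r K : Fin d → ℕ) (W Q D : ℕ), (∀ i, 1 ≤ r i) → (∀ i, 2 * r i ≤ K i) → 1 ≤ W →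
    (∀ i, 4 * W ≤ K i) → 1 ≤ Q → Nat.Coprime (b * b).factorial Q → D ≤ (b ^ 2) ^ W →
    ∀ N : Fin d → ℕ, (∀ i, N i < b ^ K i) → ∀ f : Fin d → ℕ → ℕ, (∀ i j, f i j < b ∧ f i j ≠ N i / b ^ j % b) →
    ∀ ε : ℝ, (∀ i, (4 * (r i : ℝ) + 2) * Real.exp (-(η * r i / W)) ≤ ε) → 0 ≤ ε →
    ∀ H : (Fin d → ℕ) → ℝ, Per Q H → (∀ k ∈ box d Q, (∃ i, k i ∉ Fr Q D) → cfd Q H k = 0) →
    |∑ S ∈ Fintype.piFinset (fun i => powersetCard (r i) (range (K i))), H (fun i => change b (K i) (N i) (f i) (S i)) -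
      mean d Q H * ∏ i, ((K i).choose (r i) : ℝ)| ≤
      mean d Q (fun n => |H n|) * (((Fr Q D).card : ℝ) ^ d * ε) * ∏ i, ((K i).choose (r i) : ℝ) := by
  obtain ⟨η, hη, hexp⟩ := few_exp b hb
  refine ⟨η, hη, fun r K W Q D hr1 hrK hW hWK hQ hLQ hDW N hN f hf ε hε hε0 H hH hFs => ?_⟩
  have h := avgd_eq (fun i => powersetCard (r i) (range (K i))) (fun i S => change b (K i) (N i) (f i) S) Q hQ H hH (Fr Q D) hFs ε hε0
    (fun i k hk hk0 => (hexp (K i) (r i) W Q D k (hr1 i) (hrK i) hW (hWK i) hQ hLQ hDW hk hk0 (N i) (hN i) (f i) (hf i)).trans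
      (mul_le_mul_of_nonneg_right (hε i) (Nat.cast_nonneg _)))
  have hcard : ∏ i, (((powersetCard (r i) (range (K i))).card : ℕ) : ℝ) = ∏ i, ((K i).choose (r i) : ℝ) :=
    prod_congr rfl fun i _ => by rw [card_powersetCard, card_range]
  rw [hcard] at h
  refine h.trans (le_of_eq (by ring))

end Pool.Agent.X22.EQ
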