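import Pool.Agent.X22.EQ7
import Mathlib.NumberTheory.Primorial

set_option autoImplicit false

/-! Averages of products of local functions over few-digit changes. -/

namespace Pool.Agent.X22.EQ
open Finset Filter
open Pool.Agent.TH894.ND Pool.Agent.TH894.NE
open Pool.Agent.TH894.SM (change change_eq)

lemma Per.prod' {d : ℕ} (I : Finset ℕ) (Q : ℕ) (h : ℕ → (Fin d → ℕ) → ℝ) (hd : ∀ p ∈ I, p ∣ Q) (hh : ∀ p ∈ I, Per p (h p)) :
    Per Q (fun n => ∏ p ∈ I, h p n) := by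
  intro n
  refine prod_congr rfl fun p hp => ?_
  exact ((hh p hp).of_dvd (hd p hp)) n

/-- **Averages of products of local functions.** -/
theorem prod_avg (b d : ℕ) (hb : 2 ≤ b) (hd : 1 ≤ d) : ∃ c : ℝ, 0 < c ∧ ∀ (r K : Fin d → ℕ) (y z : ℕ), (∀ i, 2 * r i ≤ K i) → b * b ≤ y → y ≤ z →
    (∀ i, (z : ℝ) ≤ c * Real.sqrt (r i)) →
    ∀ N : Fin d → ℕ, (∀ i, N i < b ^ K i) → ∀ f : Fin d → ℕ → ℕ, (∀ i j, f i j < b ∧ f i j ≠ N i / b ^ j % b) →
    ∀ h : ℕ → (Fin d → ℕ) → ℝ, (∀ p, p.Prime → y < p → Per p (h p)) →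
    |∑ S ∈ Fintype.piFinset (fun i => powersetCard (r i) (range (K i))), ∏ p ∈ pin y z, h p (fun i => change b (K i) (N i) (f i) (S i)) -
      (∏ p ∈ pin y z, mean d p (h p)) * ∏ i, ((K i).choose (r i) : ℝ)| ≤
      Real.exp (-(z : ℝ)) * (∏ p ∈ pin y z, mean d p (fun n => |h p n|)) * ∏ i, ((K i).choose (r i) : ℝ) := by
  classical
  obtain ⟨η, hη, havg⟩ := few_avg b d hb
  have hdr : (1 : ℝ) ≤ d := by exact_mod_cast hd
  obtain ⟨c, hc⟩ : ∃ c : ℝ, c = min (1 / 2) (min (Real.sqrt (η / (4 * d + 2))) (η / 7)) := ⟨_, rfl⟩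
  have hc0 : 0 < c := by rw [hc]; exact lt_min (by norm_num) (lt_min (Real.sqrt_pos.2 (by positivity)) (by positivity))
  have hc1 : c ≤ 1 / 2 := by rw [hc]; exact min_le_left _ _
  have hc2 : c ^ 2 ≤ η / (4 * d + 2) := by
    have h1 : c ≤ Real.sqrt (η / (4 * d + 2)) := by rw [hc]; exact (min_le_right _ _).trans (min_le_left _ _)
    calc c ^ 2 ≤ Real.sqrt (η / (4 * d + 2)) ^ 2 := pow_le_pow_left₀ hc0.le h1 2
      _ = _ := Real.sq_sqrt (by positivity)
  have hc3 : c ≤ η / 7 := by rw [hc]; exact (min_le_right _ _).trans (min_le_right _ _)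
  refine ⟨c, hc0, fun r K y z hrK hby hyz hzr N hN f hf h hh => ?_⟩
  have hz1 : 1 ≤ z := by nlinarith
  have hzr1 : (1 : ℝ) ≤ z := by exact_mod_cast hz1
  have hsr : ∀ i, 2 ≤ Real.sqrt (r i) := by
    intro i
    have h1 := hzr i
    have h2 : (0 : ℝ) ≤ Real.sqrt (r i) := Real.sqrt_nonneg _
    nlinarith
  have hrs : ∀ i, Real.sqrt (r i) ^ 2 = r i := fun i => Real.sq_sqrt (Nat.cast_nonneg _)
  have hr1 : ∀ i, 1 ≤ r i := by
    intro i
    have h1 := hsr i
    have h2 := hrs i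
    have h3 : (1 : ℝ) ≤ r i := by nlinarith
    exact_mod_cast h3
  have hWK : ∀ i, 4 * z ≤ K i := by
    intro i
    have h1 : (2 : ℝ) * r i ≤ K i := by exact_mod_cast hrK i
    have h2 := hzr i
    have h3 := hsr i
    have h4 := hrs i
    have h5 : (4 : ℝ) * z ≤ K i := by nlinarith
    exact_mod_cast h5
  obtain ⟨I, hI⟩ : ∃ I, I = pin y z := ⟨_, rfl⟩
  have hIm : ∀ p ∈ I, p.Prime ∧ y < p ∧ p ≤ z := by
    intro p hp
    rw [hI, mem_pin] at hp
    exact ⟨hp.2, hp.1.1, hp.1.2⟩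
  obtain ⟨Q, hQ⟩ : ∃ Q, Q = ∏ p ∈ I, p := ⟨_, rfl⟩
  have hQ1 : 1 ≤ Q := by
    rw [hQ]
    exact Nat.one_le_iff_ne_zero.2 (prod_ne_zero_iff.2 fun p hp => (hIm p hp).1.ne_zero)
  have hLQ : Nat.Coprime (b * b).factorial Q := by
    rw [hQ]
    apply Nat.Coprime.prod_right
    intro p hp
    obtain ⟨h1, h2, h3⟩ := hIm p hp
    apply Nat.Coprime.symm
    rw [Nat.Prime.coprime_iff_not_dvd h1, h1.dvd_factorial]
    omega
  have hQ4 : Q ≤ 4 ^ z := by
    refine le_trans ?_ (primorial_le_four_pow z)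
    rw [hQ]
    unfold primorial
    apply prod_le_prod_of_subset_of_one_le' 
    · intro p hp
      obtain ⟨h1, h2, h3⟩ := hIm p hp
      rw [mem_filter, mem_range]
      exact ⟨by omega, h1⟩
    · intro p hp _
      exact (mem_filter.1 hp).2.one_lt.le
  have hQW : Q ≤ (b ^ 2) ^ z := hQ4.trans (Nat.pow_le_pow_left (by nlinarith) z)
  obtain ⟨ε, hε⟩ : ∃ ε : ℝ, ε = Real.exp (-((2 * d + 1) * (z : ℝ))) := ⟨_, rfl⟩
  have hε0 : 0 ≤ ε := by rw [hε]; exact (Real.exp_pos _).le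
  have hbound : ∀ i, (4 * (r i : ℝ) + 2) * Real.exp (-(η * r i / z)) ≤ ε := by
    intro i
    obtain ⟨σ, hσ⟩ : ∃ σ : ℝ, σ = Real.sqrt (r i) := ⟨_, rfl⟩
    have h1 := hsr i
    have h2 := hrs i
    have h3 := hzr i
    rw [← hσ] at h1 h2 h3
    have hz0 : (0 : ℝ) < z := by linarith
    have hσ0 : 0 < σ := by linarith
    -- r / z ≥ z / c², r / z ≥ σ / c
    have h4 : (z : ℝ) / c ^ 2 ≤ r i / z := by
      rw [div_le_div_iff₀ (by positivity) hz0, ← h2]
      have : (z : ℝ) * z ≤ (c * σ) * (c * σ) := mul_le_mul h3 h3 hz0.le (by positivity)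
      nlinarith
    have h5 : σ / c ≤ r i / z := by
      rw [div_le_div_iff₀ hc0 hz0, ← h2]
      nlinarith
    have h6 : (2 * (d : ℝ) + 1) * z ≤ η / 2 * ((z : ℝ) / c ^ 2) := by
      have h7 : (2 * (d : ℝ) + 1) * c ^ 2 ≤ η / 2 := by
        calc (2 * (d : ℝ) + 1) * c ^ 2 ≤ (2 * d + 1) * (η / (4 * d + 2)) := mul_le_mul_of_nonneg_left hc2 (by positivity)
          _ = η / 2 := by field_simp; ring
      have h8 : η / 2 * ((z : ℝ) / c ^ 2) = (η / 2) / c ^ 2 * z := by ring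
      rw [h8]
      apply mul_le_mul_of_nonneg_right _ hz0.le
      rw [le_div_iff₀ (by positivity)]
      exact h7
    have h9 : 4 * (r i : ℝ) + 2 ≤ Real.exp (η / 2 * (σ / c)) := by
      have h10 := Real.pow_div_factorial_le_exp (x := η / 2 * (σ / c)) (by positivity) 2
      have h11 : ((2 : ℕ).factorial : ℝ) = 2 := by norm_num [Nat.factorial]
      rw [h11] at h10
      have h12 : 7 / 2 * σ ≤ η / 2 * (σ / c) := by
        have : 7 ≤ η / c := by rw [le_div_iff₀ hc0]; linarith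
        have e1 : η / 2 * (σ / c) = (η / c) / 2 * σ := by ring
        rw [e1]
        nlinarith
      have h13 : (7 / 2 * σ) ^ 2 ≤ (η / 2 * (σ / c)) ^ 2 := pow_le_pow_left₀ (by positivity) h12 2
      nlinarith
    have h14 : η / 2 * ((z : ℝ) / c ^ 2) + η / 2 * (σ / c) ≤ η * r i / z := by
      have e1 : η * r i / z = η / 2 * (r i / z) + η / 2 * (r i / z) := by ring
      rw [e1]
      exact add_le_add (mul_le_mul_of_nonneg_left h4 (by positivity)) (mul_le_mul_of_nonneg_left h5 (by positivity))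
    rw [hε]
    calc (4 * (r i : ℝ) + 2) * Real.exp (-(η * r i / z)) ≤ Real.exp (η / 2 * (σ / c)) * Real.exp (-(η / 2 * ((z : ℝ) / c ^ 2) + η / 2 * (σ / c))) :=
          mul_le_mul h9 (Real.exp_le_exp.2 (by linarith)) (Real.exp_pos _).le (Real.exp_pos _).le
      _ = Real.exp (-(η / 2 * ((z : ℝ) / c ^ 2))) := by
          rw [← Real.exp_add]
          congr 1
          ring
      _ ≤ _ := Real.exp_le_exp.2 (by linarith)
  have hper : Per Q (fun n => ∏ p ∈ I, h p n) := Per.prod' I Q h (fun p hp => by rw [hQ]; exact dvd_prod_of_mem (fun p => p) hp)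
    (fun p hp => hh p (hIm p hp).1 (hIm p hp).2.1)
  have hall : ∀ k ∈ box d Q, (∃ i, k i ∉ Fr Q Q) → cfd Q (fun n => ∏ p ∈ I, h p n) k = 0 := by
    intro k hk hki
    exfalso
    obtain ⟨i, hi⟩ := hki
    apply hi
    unfold Fr
    simp only [mem_filter, mem_range]
    exact ⟨mem_box.1 hk i, Q, hQ1, le_rfl, Dvd.intro_left (k i) rfl⟩
  have key := havg r K z Q Q hr1 hrK hz1 hWK hQ1 hLQ hQW N hN f hf ε hbound hε0 _ hper hall
  have hcop : ∀ p ∈ I, ∀ p' ∈ I, p ≠ p' → Nat.Coprime p p' := fun p hp p' hp' hne => (Nat.coprime_primes (hIm p hp).1 (hIm p' hp').1).2 hne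
  have hm1 : mean d Q (fun n => ∏ p ∈ I, h p n) = ∏ p ∈ I, mean d p (h p) := by
    rw [hQ]
    exact mean_prod I (fun p => p) (fun p hp => (hIm p hp).1.one_lt.le) hcop h (fun p hp => hh p (hIm p hp).1 (hIm p hp).2.1)
  have hm2 : mean d Q (fun n => |∏ p ∈ I, h p n|) = ∏ p ∈ I, mean d p (fun n => |h p n|) := by
    have e1 : (fun n : Fin d → ℕ => |∏ p ∈ I, h p n|) = fun n => ∏ p ∈ I, |h p n| := by
      funext n
      exact abs_prod _ _
    rw [e1, hQ]
    exact mean_prod I (fun p => p) (fun p hp => (hIm p hp).1.one_lt.le) hcop (fun p n => |h p n|) (fun p hp n => by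
      show |h p n| = |h p (fun i => n i % p)|
      rw [hh p (hIm p hp).1 (hIm p hp).2.1 n])
  rw [hm1, hm2] at key
  rw [← hI]
  refine key.trans ?_
  obtain ⟨C, hC⟩ : ∃ C : ℝ, C = ∏ i, ((K i).choose (r i) : ℝ) := ⟨_, rfl⟩
  have hC0 : 0 ≤ C := by rw [hC]; exact prod_nonneg fun i _ => Nat.cast_nonneg _
  have hM0 : 0 ≤ ∏ p ∈ I, mean d p (fun n => |h p n|) := by
    refine prod_nonneg fun p _ => ?_
    unfold mean
    exact mul_nonneg (by positivity) (sum_nonneg fun _ _ => abs_nonneg _)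
  rw [← hC]
  have hfin : ((Fr Q Q).card : ℝ) ^ d * ε ≤ Real.exp (-(z : ℝ)) := by
    have h1 : ((Fr Q Q).card : ℝ) ≤ Real.exp (2 * z) := by
      have h2 : (Fr Q Q).card ≤ Q := by
        unfold Fr
        refine (card_filter_le _ _).trans (le_of_eq (card_range _))
      have h3 : ((Fr Q Q).card : ℝ) ≤ (4 : ℝ) ^ z := by exact_mod_cast h2.trans hQ4
      refine h3.trans ?_
      have h4 : (4 : ℝ) ≤ Real.exp 2 := by
        have h5 := Real.exp_one_gt_d9
        have h6 : Real.exp 2 = Real.exp 1 * Real.exp 1 := by rw [← Real.exp_add]; norm_num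
        rw [h6]
        nlinarith
      calc (4 : ℝ) ^ z ≤ (Real.exp 2) ^ z := pow_le_pow_left₀ (by norm_num) h4 z
        _ = Real.exp (2 * z) := by rw [← Real.exp_nat_mul]; congr 1; ring
    calc ((Fr Q Q).card : ℝ) ^ d * ε ≤ (Real.exp (2 * z)) ^ d * ε := by gcongr
      _ = Real.exp (-(z : ℝ)) := by
          rw [hε, ← Real.exp_nat_mul, ← Real.exp_add]
          congr 1
          ring
  calc (∏ p ∈ I, mean d p (fun n => |h p n|)) * (((Fr Q Q).card : ℝ) ^ d * ε) * C ≤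
        (∏ p ∈ I, mean d p (fun n => |h p n|)) * Real.exp (-(z : ℝ)) * C :=
        mul_le_mul_of_nonneg_right (mul_le_mul_of_nonneg_left hfin hM0) hC0
    _ = _ := by ring

end Pool.Agent.X22.EQ
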