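import Pool.Agent.X22.ND6

/-!
# Sums over primes of quantities with mean zero, for few-digit changes of one integer
-/

set_option autoImplicit false

namespace Pool.Agent.X22.ND

open Finset Pool.Agent.TH894.NE
open Pool.Agent.TH894.SM (change)

open Classical in
lemma card_one (b K r N : ℕ) (f : ℕ → ℕ) (E : ℕ → Prop) :
    ((powersetCard r (range K)).filter (fun S => ¬ E (change b K N f S))).card =
      ((Fintype.piFinset (fun _ : Fin 1 => powersetCard r (range K))).filter (fun T => ¬ E (change b K N f (T 0)))).card := by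
  refine card_nbij' (fun S => fun _ => S) (fun T => T 0) ?_ ?_ ?_ ?_
  · intro S hS
    rw [mem_coe, mem_filter] at hS ⊢
    exact ⟨Fintype.mem_piFinset.2 (fun _ => hS.1), hS.2⟩
  · intro T hT
    rw [mem_coe, mem_filter] at hT ⊢
    exact ⟨Fintype.mem_piFinset.1 hT.1 0, hT.2⟩
  · intro S _
    rfl
  · intro T _
    funext i
    rw [Subsingleton.elim i 0]

open Classical in
/-- **Quantities with mean zero**, one integer. -/
theorem mz_law_one (b : ℕ) (hb : 2 ≤ b) (δ : ℝ) (hδ : 0 < δ) (A B : ℕ) : ∃ c : ℝ, 0 < c ∧ ∃ y₀ : ℕ,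
    ∀ (K r : ℕ) (y : ℕ), 2 * r ≤ K → y₀ ≤ y →
    ∀ N : ℕ, N < b ^ K → ∀ f : ℕ → ℕ, (∀ j, f j < b ∧ f j ≠ N / b ^ j % b) →
    ∀ (κ : Type) (Λ : ℕ → Finset κ), (∀ x, 2 ≤ x → (Λ x).card ≤ x ^ B) →
    ∀ (Z : ℕ → κ → ℕ → ℕ → ℝ), (∀ x l p m, p.Prime → Z x l p m = Z x l p (m % p)) →
    ∀ (M : ℕ → κ → ℝ), (∀ x, 2 ≤ x → ∀ l ∈ Λ x, 0 ≤ M x l) →
    (∀ x, 2 ≤ x → ∀ l ∈ Λ x, ∀ p ∈ op x, ∀ m, |Z x l p m| ≤ M x l) →
    (∀ x, 2 ≤ x → ∀ l ∈ Λ x, ∀ p ∈ op x, ∑ m ∈ range p, Z x l p m = 0) →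
    (∀ x, 2 ≤ x → ∀ l ∈ Λ x, ∑ p ∈ op x, (∑ m ∈ range p, Z x l p m ^ 2) / p ≤ M x l ^ 2) →
    ∀ E : ℕ → Prop,
    (∀ m, (∀ x : ℕ, y ≤ x → (x : ℝ) ≤ Real.exp (c * r) → ∀ l ∈ Λ x, |∑ p ∈ op x, Z x l p m| ≤ M x l * (x : ℝ) ^ δ) → E m) →
      ((((powersetCard r (range K)).filter (fun S => ¬ E (change b K N f S))).card : ℕ) : ℝ) ≤ 1 / (y : ℝ) ^ A * (K.choose r : ℝ) := by
  obtain ⟨c, hc, y₀, h⟩ := mz_law b 1 hb le_rfl δ hδ A B
  refine ⟨c, hc, y₀, fun K r y hrK hy N hN f hf κ Λ hΛ Z hZ M hM0 hM hmz hvar E hE => ?_⟩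
  have h1 := h (fun _ => K) (fun _ => r) y (fun _ => hrK) hy (fun _ => N) (fun _ => hN) (fun _ => f) (fun _ => hf) κ Λ hΛ
    (fun x l p m => Z x l p (m 0)) (fun x l p m hp => hZ x l p (m 0) hp) M hM0 (fun x hx l hl p hp m => hM x hx l hl p hp (m 0))
    (fun x hx l hl p hp => by
      have e : mean 1 p (fun m => Z x l p (m 0)) = mean1 p (Z x l p) := mean_one p (Z x l p)
      show mean 1 p (fun m => Z x l p (m 0)) = 0
      rw [e]
      unfold mean1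
      rw [hmz x hx l hl p hp, zero_div])
    (fun x hx l hl => by
      have e : ∀ p, mean 1 p (fun m => Z x l p (m 0) ^ 2) = mean1 p (fun m => Z x l p m ^ 2) := fun p => mean_one p (fun m => Z x l p m ^ 2)
      simp only [e]
      exact hvar x hx l hl)
    (fun m => E (m 0)) (fun m hm => hE (m 0) (fun x hyx hxr l hl => hm x hyx (fun _ => hxr) l hl))
  rw [Fin.prod_univ_one] at h1
  rw [card_one]
  exact h1

end Pool.Agent.X22.ND
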