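import Pool.Agent.X22.EQ8
import Pool.Agent.X22.ND9

set_option autoImplicit false

/-! The quadratic characters at the central point: local computations. -/

namespace Pool.Agent.X22.EQ
open Finset Filter
open Pool.Agent.TH894.ND Pool.Agent.TH894.NE
open Pool.Agent.X22.ND (chi chi_abs chi_mod sum_chi mean1 mean_one)

lemma chi_three (p n : ℕ) : chi p n = 0 ∨ chi p n = 1 ∨ chi p n = -1 := by
  unfold chi
  by_cases hp : p.Prime
  · rw [dif_pos hp]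
    have hf : Fact p.Prime := ⟨hp⟩
    by_cases h0 : (n : ZMod p) = 0
    · left
      rw [h0, quadraticChar_zero]
      simp
    · rcases quadraticChar_dichotomy h0 with h | h <;> rw [h] <;> simp
  · rw [dif_neg hp]
    simp

lemma sum_chi_sq (p : ℕ) (hp : p.Prime) : ∑ n ∈ range p, chi p n ^ 2 = p - 1 := by
  have hf : Fact p.Prime := ⟨hp⟩
  have h1 : ∀ n, chi p n ^ 2 = 1 - if (n : ZMod p) = 0 then 1 else 0 := by
    intro n
    unfold chi
    rw [dif_pos hp]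
    by_cases h0 : (n : ZMod p) = 0
    · rw [h0, quadraticChar_zero, if_pos rfl]
      simp
    · rw [if_neg h0]
      rcases quadraticChar_dichotomy h0 with h | h <;> rw [h] <;> simp
  rw [sum_congr rfl (fun n _ => h1 n), Pool.Agent.X22.ND.sum_range_zmod p hp (fun z => (1 : ℝ) - if z = 0 then 1 else 0), sum_sub_distrib,
    sum_ite_eq' univ, if_pos (mem_univ _), sum_const, card_univ, ZMod.card, nsmul_eq_mul, mul_one]

/-- the mean of a function of the character -/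
lemma mean_chi (p : ℕ) (hp : p.Prime) (h2 : p ≠ 2) (Φ : ℝ → ℝ) :
    mean 1 p (fun m => Φ (chi p (m 0))) = ((p - 1) / 2 * (Φ 1 + Φ (-1)) + Φ 0) / p := by
  have h0 : mean 1 p (fun m => Φ (chi p (m 0))) = mean1 p (fun n => Φ (chi p n)) := mean_one p (fun n => Φ (chi p n))
  rw [h0]
  unfold mean1
  congr 1
  have h1 : ∀ n, Φ (chi p n) = Φ 0 + chi p n * ((Φ 1 - Φ (-1)) / 2) + chi p n ^ 2 * ((Φ 1 + Φ (-1)) / 2 - Φ 0) := by
    intro n
    rcases chi_three p n with h | h | h <;> rw [h] <;> ring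
  rw [sum_congr rfl (fun n _ => h1 n), sum_add_distrib, sum_add_distrib, ← sum_mul, ← sum_mul, sum_chi p hp h2, sum_chi_sq p hp, sum_const, card_range,
    nsmul_eq_mul]
  ring

/-- powers near 1 -/
lemma pow_near (B κ t : ℝ) (hB : 0 ≤ B) (hκ : |κ| ≤ B) (ht : |t| ≤ 1 / 2) (ht2 : 2 * B * |t| ≤ 1) :
    |(1 - t) ^ (-κ) - (1 + κ * t + κ * (κ + 1) * t ^ 2 / 2)| ≤ (8 * B ^ 3 + 3 * B ^ 2 + 2 * B) * |t| ^ 3 := by
  have h1t : 0 < 1 - t := by have := (abs_le.1 ht).2; linarith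
  obtain ⟨L, hL⟩ : ∃ L : ℝ, L = Real.log (1 - t) := ⟨_, rfl⟩
  obtain ⟨ρ, hρ⟩ : ∃ ρ : ℝ, ρ = L + t + t ^ 2 / 2 := ⟨_, rfl⟩
  have hρ1 : |ρ| ≤ 2 * |t| ^ 3 := by rw [hρ, hL]; exact log_exp t ht
  obtain ⟨v, hv⟩ : ∃ v : ℝ, v = -κ * L := ⟨_, rfl⟩
  have hv1 : v = κ * t + κ * t ^ 2 / 2 - κ * ρ := by rw [hv, hρ]; ring
  have ht0 : 0 ≤ |t| := abs_nonneg t
  have hts : t ^ 2 = |t| ^ 2 := (sq_abs t).symm
  have e1 : |v - κ * t| ≤ B * (3 / 2 * |t| ^ 2) := by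
    have : v - κ * t = κ * (t ^ 2 / 2 - ρ) := by rw [hv1]; ring
    rw [this, abs_mul]
    apply mul_le_mul hκ _ (abs_nonneg _) hB
    refine (abs_sub _ _).trans ?_
    rw [abs_of_nonneg (by positivity : (0 : ℝ) ≤ t ^ 2 / 2), hts]
    have : 2 * |t| ^ 3 ≤ |t| ^ 2 := by nlinarith [mul_nonneg ht0 ht0]
    linarith
  have e2 : |κ * t| ≤ B * |t| := by rw [abs_mul]; exact mul_le_mul_of_nonneg_right hκ ht0
  have e3 : |v| ≤ 2 * B * |t| := by
    have : v = κ * t + (v - κ * t) := by ring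
    rw [this]
    refine (abs_add_le _ _).trans ?_
    have h4 : B * (3 / 2 * |t| ^ 2) ≤ B * |t| := by
      apply mul_le_mul_of_nonneg_left _ hB
      nlinarith
    linarith
  have e4 : |v| ≤ 1 := e3.trans ht2
  have e5 : |Real.exp v - (1 + v + v ^ 2 / 2)| ≤ |v| ^ 3 := by
    have h5 := Real.exp_bound e4 (by norm_num : 0 < 3)
    rw [sum_range_succ, sum_range_succ, sum_range_one] at h5
    norm_num [Nat.factorial] at h5
    refine h5.trans ?_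
    have : 0 ≤ |v| ^ 3 := by positivity
    nlinarith
  have e6 : |v ^ 2 - (κ * t) ^ 2| ≤ B * (3 / 2 * |t| ^ 2) * (3 * B * |t|) := by
    have : v ^ 2 - (κ * t) ^ 2 = (v - κ * t) * (v + κ * t) := by ring
    rw [this, abs_mul]
    apply mul_le_mul e1 _ (abs_nonneg _) (by positivity)
    refine (abs_add_le _ _).trans ?_
    linarith
  have e7 : |v - κ * t - κ * t ^ 2 / 2| ≤ 2 * B * |t| ^ 3 := by
    have : v - κ * t - κ * t ^ 2 / 2 = -(κ * ρ) := by rw [hv1]; ring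
    rw [this, abs_neg, abs_mul]
    calc |κ| * |ρ| ≤ B * (2 * |t| ^ 3) := mul_le_mul hκ hρ1 (abs_nonneg _) hB
      _ = _ := by ring
  have e8 : |v| ^ 3 ≤ 8 * B ^ 3 * |t| ^ 3 := by
    calc |v| ^ 3 ≤ (2 * B * |t|) ^ 3 := pow_le_pow_left₀ (abs_nonneg _) e3 3
      _ = _ := by ring
  have e9 : (1 - t) ^ (-κ) = Real.exp v := by
    rw [Real.rpow_def_of_pos h1t, hv, hL]
    congr 1
    ring
  have e10 : Real.exp v - (1 + κ * t + κ * (κ + 1) * t ^ 2 / 2) =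
      (Real.exp v - (1 + v + v ^ 2 / 2)) + (v ^ 2 - (κ * t) ^ 2) / 2 + (v - κ * t - κ * t ^ 2 / 2) := by ring
  rw [e9, e10]
  refine (abs_add_le _ _).trans ((add_le_add (abs_add_le _ _) le_rfl).trans ?_)
  rw [abs_div, abs_of_pos (by norm_num : (0 : ℝ) < 2)]
  have e11 : B * (3 / 2 * |t| ^ 2) * (3 * B * |t|) / 2 ≤ 3 * B ^ 2 * |t| ^ 3 := by
    have : 0 ≤ B ^ 2 * |t| ^ 3 := by positivity
    nlinarith
  have e12 : |v ^ 2 - (κ * t) ^ 2| / 2 ≤ B * (3 / 2 * |t| ^ 2) * (3 * B * |t|) / 2 := by linarith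
  nlinarith [e5, e8, e7, e11, e12]

/-- the local factor of the moment with exponent `κ` -/
noncomputable def loc (κ : ℝ) (p : ℕ) : ℝ :=
  (((p : ℝ) - 1) / 2 * ((1 - 1 / Real.sqrt p) ^ (-κ) + (1 + 1 / Real.sqrt p) ^ (-κ)) + 1) / p

/-- the local factors near 1 -/
lemma loc_near (B : ℝ) (hB : 0 ≤ B) : ∃ C : ℝ, 0 ≤ C ∧ ∃ p₀ : ℕ, ∀ κ : ℝ, |κ| ≤ B → ∀ p : ℕ, p₀ ≤ p →
    0 < loc κ p ∧ |Real.log (loc κ p) - κ * (κ + 1) / 2 / p| ≤ C / (p : ℝ) ^ (3 / 2 : ℝ) := by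
  obtain ⟨D, hD⟩ : ∃ D : ℝ, D = 8 * B ^ 3 + 3 * B ^ 2 + 2 * B := ⟨_, rfl⟩
  have hD0 : 0 ≤ D := by rw [hD]; positivity
  obtain ⟨G, hG⟩ : ∃ G : ℝ, G = D + B * (B + 1) + 1 := ⟨_, rfl⟩
  have hG1 : 1 ≤ G := by rw [hG]; have : 0 ≤ D + B * (B + 1) := by positivity
                         linarith
  obtain ⟨p₀, hp₀⟩ := exists_nat_ge (16 * (G + B + 1) ^ 2)
  refine ⟨D + B * (B + 1) + 2 * (G ^ 2), by positivity, p₀ + 4, fun κ hκ p hp => ?_⟩
  have hpr : 16 * (G + B + 1) ^ 2 ≤ p := hp₀.trans (by exact_mod_cast (by omega : p₀ ≤ p))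
  have hp0 : (0 : ℝ) < p := by nlinarith
  obtain ⟨s, hs⟩ : ∃ s : ℝ, s = Real.sqrt p := ⟨_, rfl⟩
  have hss : s ^ 2 = p := by rw [hs]; exact Real.sq_sqrt hp0.le
  have hs1 : 4 * (G + B + 1) ≤ s := by
    rw [hs]
    apply Real.le_sqrt_of_sq_le
    nlinarith
  have hs4 : 4 ≤ s := by nlinarith
  have hs0 : 0 < s := by linarith
  obtain ⟨t, ht⟩ : ∃ t : ℝ, t = 1 / s := ⟨_, rfl⟩
  have ht0 : 0 < t := by rw [ht]; positivity
  have hts : t * s = 1 := by rw [ht]; field_simp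
  have htp : 1 / (p : ℝ) = t ^ 2 := by rw [ht, ← hss]; field_simp
  have ht4 : t ≤ 1 / 4 := by rw [ht]; exact one_div_le_one_div_of_le (by norm_num) hs4
  have hGt : 4 * (G + B + 1) * t ≤ 1 := by
    calc 4 * (G + B + 1) * t ≤ s * t := mul_le_mul_of_nonneg_right hs1 ht0.le
      _ = 1 := by linarith
  have habs : |t| = t := abs_of_pos ht0
  have hBt : 2 * B * t ≤ 1 := by nlinarith
  have h1 := pow_near B κ t hB hκ (by rw [habs]; linarith) (by rw [habs]; exact hBt)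
  have h2 := pow_near B κ (-t) hB hκ (by rw [abs_neg, habs]; linarith) (by rw [abs_neg, habs]; exact hBt)
  rw [← hD, habs] at h1
  rw [← hD, abs_neg, habs, sub_neg_eq_add] at h2
  obtain ⟨g, hg⟩ : ∃ g : ℝ, g = ((1 - t) ^ (-κ) + (1 + t) ^ (-κ)) / 2 := ⟨_, rfl⟩
  have hg1 : |g - (1 + κ * (κ + 1) * t ^ 2 / 2)| ≤ D * t ^ 3 := by
    have e1 : g - (1 + κ * (κ + 1) * t ^ 2 / 2) = (((1 - t) ^ (-κ) - (1 + κ * t + κ * (κ + 1) * t ^ 2 / 2)) +
        ((1 + t) ^ (-κ) - (1 + κ * -t + κ * (κ + 1) * (-t) ^ 2 / 2))) / 2 := by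
      rw [hg]
      ring
    rw [e1, abs_div, abs_of_pos (by norm_num : (0 : ℝ) < 2)]
    have := abs_add_le ((1 - t) ^ (-κ) - (1 + κ * t + κ * (κ + 1) * t ^ 2 / 2)) ((1 + t) ^ (-κ) - (1 + κ * -t + κ * (κ + 1) * (-t) ^ 2 / 2))
    linarith
  have hkk : |κ * (κ + 1) / 2| ≤ B * (B + 1) / 2 := by
    rw [abs_div, abs_of_pos (by norm_num : (0 : ℝ) < 2), abs_mul]
    apply div_le_div_of_nonneg_right _ (by norm_num)
    apply mul_le_mul hκ _ (abs_nonneg _) hB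
    refine (abs_add_le _ _).trans ?_
    rw [abs_one]
    linarith
  obtain ⟨a, ha⟩ : ∃ a : ℝ, a = κ * (κ + 1) / 2 := ⟨_, rfl⟩
  rw [← ha] at hkk
  have hloc : loc κ p = (1 - t ^ 2) * g + t ^ 2 := by
    unfold loc
    rw [← hs, ← ht, hg]
    have : ((p : ℝ) - 1) / 2 = (1 - t ^ 2) / (2 * t ^ 2) := by
      rw [← htp]
      field_simp
    rw [div_eq_mul_one_div _ (p : ℝ), htp, this]
    field_simp
  obtain ⟨u, hu⟩ : ∃ u : ℝ, u = loc κ p - 1 := ⟨_, rfl⟩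
  have hu1 : |u - a * t ^ 2| ≤ (D + B * (B + 1)) * t ^ 3 := by
    have e1 : u - a * t ^ 2 = (1 - t ^ 2) * (g - (1 + κ * (κ + 1) * t ^ 2 / 2)) - a * t ^ 4 := by
      rw [hu, hloc, ha]
      ring
    rw [e1]
    refine (abs_sub _ _).trans ?_
    rw [abs_mul, abs_mul, abs_of_nonneg (by nlinarith : (0 : ℝ) ≤ 1 - t ^ 2), abs_of_pos (by positivity : (0 : ℝ) < t ^ 4)]
    have h3 : (1 - t ^ 2) * |g - (1 + κ * (κ + 1) * t ^ 2 / 2)| ≤ 1 * (D * t ^ 3) := by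
      apply mul_le_mul _ hg1 (abs_nonneg _) (by norm_num)
      have : 0 ≤ t ^ 2 := sq_nonneg _
      linarith
    have h4 : |a| * t ^ 4 ≤ (B * (B + 1)) * t ^ 3 := by
      have h5 : t ^ 4 ≤ t ^ 3 := by
        have : t ^ 4 = t * t ^ 3 := by ring
        rw [this]
        have h6 : 0 < t ^ 3 := by positivity
        nlinarith
      have h7 : |a| ≤ B * (B + 1) := by
        have : 0 ≤ B * (B + 1) := by positivity
        linarith
      exact mul_le_mul h7 h5 (by positivity) (by positivity)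
    linarith
  have hu2 : |u| ≤ G * t ^ 2 := by
    have e1 : u = (u - a * t ^ 2) + a * t ^ 2 := by ring
    rw [e1]
    refine (abs_add_le _ _).trans ?_
    have e0 : |a * t ^ 2| = |a| * t ^ 2 := by rw [abs_mul, abs_of_nonneg (sq_nonneg t)]
    rw [e0]
    have h3 : (D + B * (B + 1)) * t ^ 3 ≤ (D + B * (B + 1) / 2) * t ^ 2 := by
      have h8 : t ^ 3 = t * t ^ 2 := by ring
      rw [h8]
      have h9 : (0 : ℝ) < t ^ 2 := by positivity
      have h10 : (D + B * (B + 1)) * t ≤ D + B * (B + 1) / 2 := by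
        have h11 : 0 ≤ B * (B + 1) := by positivity
        nlinarith
      calc (D + B * (B + 1)) * (t * t ^ 2) = ((D + B * (B + 1)) * t) * t ^ 2 := by ring
        _ ≤ _ := mul_le_mul_of_nonneg_right h10 h9.le
    have h4 : |a| * t ^ 2 ≤ B * (B + 1) / 2 * t ^ 2 := mul_le_mul_of_nonneg_right hkk (sq_nonneg _)
    rw [hG]
    nlinarith [sq_nonneg t]
  have hu3 : |u| ≤ 1 / 2 := by
    refine hu2.trans ?_
    have : G * t ≤ 1 / 4 := by nlinarith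
    nlinarith
  have hlog : |Real.log (1 + u) - u| ≤ 2 * u ^ 2 := by
    have h3 := log_exp (-u) (by rw [abs_neg]; exact hu3)
    rw [sub_neg_eq_add, abs_neg] at h3
    have e1 : Real.log (1 + u) - u = (Real.log (1 + u) + -u + (-u) ^ 2 / 2) - u ^ 2 / 2 := by ring
    rw [e1]
    refine (abs_sub _ _).trans ?_
    rw [abs_of_nonneg (by positivity : (0 : ℝ) ≤ u ^ 2 / 2)]
    have h4 : |u| ^ 3 = |u| * u ^ 2 := by rw [← sq_abs u]; ring
    rw [h4] at h3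
    nlinarith [sq_nonneg u]
  have h1u : loc κ p = 1 + u := by rw [hu]; ring
  refine ⟨by rw [h1u]; have := (abs_le.1 hu3).1; linarith, ?_⟩
  rw [h1u, rpow_three_half, ← hs, ← ha]
  have e2 : a / (p : ℝ) = a * t ^ 2 := by rw [← htp]; ring
  rw [e2]
  have e3 : Real.log (1 + u) - a * t ^ 2 = (Real.log (1 + u) - u) + (u - a * t ^ 2) := by ring
  rw [e3]
  refine (abs_add_le _ _).trans ?_
  have e4 : (D + B * (B + 1) + 2 * G ^ 2) / s ^ 3 = (D + B * (B + 1) + 2 * G ^ 2) * t ^ 3 := by rw [ht]; field_simp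
  rw [e4]
  have e5 : 2 * u ^ 2 ≤ 2 * G ^ 2 * t ^ 3 := by
    have h5 : u ^ 2 ≤ (G * t ^ 2) ^ 2 := by
      rw [← sq_abs u]
      exact pow_le_pow_left₀ (abs_nonneg _) hu2 2
    have h6 : t ^ 4 ≤ t ^ 3 := by
      have : t ^ 4 = t * t ^ 3 := by ring
      rw [this]
      have h7 : 0 < t ^ 3 := by positivity
      nlinarith
    have h8 : (G * t ^ 2) ^ 2 = G ^ 2 * t ^ 4 := by ring
    have h9 : G ^ 2 * t ^ 4 ≤ G ^ 2 * t ^ 3 := mul_le_mul_of_nonneg_left h6 (sq_nonneg _)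
    linarith
  linarith

end Pool.Agent.X22.EQ
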