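import Pool.Agent.X22.EC
import Pool.Agent.W529.ST.Hyp

/-!
# The family of all hyperelliptic curves `Y ^ 2 = X ^ (2 g + 1) + ∑ v_j X ^ j` over a finite field and the involution given by the quadratic twist
-/

set_option autoImplicit false

namespace Pool.Agent.X22.HE

open Finset Polynomial

/-- the number of the points of the smooth projective curve `Y ^ 2 = h (X)`, `deg h` odd, over the extension of degree `j` -/
noncomputable def pc (k : Type) [Field k] (h : k[X]) (j : ℕ) : ℕ :=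
  Nat.card {P : AlgebraicClosure k × AlgebraicClosure k //
    P.1 ^ (Nat.card k ^ j) = P.1 ∧ P.2 ^ (Nat.card k ^ j) = P.2 ∧ P.2 ^ 2 = aeval P.1 h} + 1

/-- `X ^ n + ∑ v_j X ^ j` -/
noncomputable def F (R : Type) [CommRing R] {n : ℕ} (v : Fin n → R) : R[X] := X ^ n + ∑ j, C (v j) * X ^ (j : ℕ)

/-- The coefficients `c i` of `exp (∑ t j T ^ j / j)` -/
noncomputable def cL (t : ℕ → ℝ) : ℕ → ℝ
  | 0 => 1
  | i + 1 => (∑ j : Fin (i + 1), t (j + 1) * cL t (i - j)) / (i + 1)

lemma cL_twist (ε : ℝ) (t s : ℕ → ℝ) (h : ∀ j, j ≠ 0 → s j = ε ^ j * t j) (i : ℕ) :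
    cL s i = ε ^ i * cL t i := by
  induction i using Nat.strong_induction_on with
  | _ i ih =>
    cases i with
    | zero => rw [cL, cL, pow_zero, one_mul]
    | succ i =>
      rw [cL, cL, ← mul_div_assoc, Finset.mul_sum]
      congr 1
      refine Finset.sum_congr rfl fun j _ => ?_
      rw [h _ (Nat.succ_ne_zero _), ih (i - j) (by omega)]
      have h2 : ε ^ (i + 1) = ε ^ ((j : ℕ) + 1) * ε ^ (i - (j : ℕ)) := by
        rw [← pow_add]
        congr 1
        omega
      rw [h2, Nat.succ_eq_add_one]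
      ring

lemma F_coeff_top (R : Type) [CommRing R] {n : ℕ} (v : Fin n → R) : (F R v).coeff n = 1 := by
  unfold F
  rw [coeff_add, coeff_X_pow_self, finset_sum_coeff, sum_eq_zero, add_zero]
  intro j _
  rw [coeff_C_mul, coeff_X_pow, if_neg (by have := j.2; omega), mul_zero]

lemma F_coeff_lt (R : Type) [CommRing R] {n : ℕ} (v : Fin n → R) (j : Fin n) : (F R v).coeff j = v j := by
  unfold F
  have hj := j.2
  rw [coeff_add, coeff_X_pow, if_neg (by omega), zero_add, finset_sum_coeff, sum_eq_single j]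
  · rw [coeff_C_mul, coeff_X_pow, if_pos rfl, mul_one]
  · intro i _ hi
    rw [coeff_C_mul, coeff_X_pow, if_neg (fun h => hi (Fin.ext h.symm)), mul_zero]
  · intro h
    exact absurd (mem_univ _) h

lemma F_natDegree (R : Type) [CommRing R] [Nontrivial R] {n : ℕ} (v : Fin n → R) : (F R v).natDegree = n := by
  unfold F
  have h1 : (∑ j : Fin n, C (v j) * X ^ (j : ℕ)).degree < (n : WithBot ℕ) := by
    refine (degree_sum_le _ _).trans_lt ?_
    rw [Finset.sup_lt_iff (by exact WithBot.bot_lt_coe n)]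
    intro j _
    refine (degree_C_mul_X_pow_le _ _).trans_lt ?_
    exact_mod_cast j.2
  rw [natDegree_add_eq_left_of_degree_lt (by rw [degree_X_pow]; exact h1), natDegree_X_pow]

lemma F_scale (k : Type) [Field k] {n : ℕ} (v : Fin n → k) (D : k) : scaleRoots (F k v) D = F k (fun j => D ^ (n - (j : ℕ)) * v j) := by
  ext i
  rw [coeff_scaleRoots, F_natDegree]
  by_cases h1 : i < n
  · have e1 := F_coeff_lt k v ⟨i, h1⟩
    have e2 := F_coeff_lt k (fun j : Fin n => D ^ (n - (j : ℕ)) * v j) ⟨i, h1⟩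
    simp only at e1 e2
    rw [e1, e2, mul_comm]
  · by_cases h2 : i = n
    · subst h2
      rw [F_coeff_top, F_coeff_top, Nat.sub_self, pow_zero, mul_one]
    · rw [coeff_eq_zero_of_natDegree_lt (by rw [F_natDegree]; omega), coeff_eq_zero_of_natDegree_lt (by rw [F_natDegree]; omega), zero_mul]

lemma separable_scale (k : Type) [Field k] (f : k[X]) (hf : f ≠ 0) {D : k} (hD : D ≠ 0) : (scaleRoots f D).Separable ↔ f.Separable := by
  obtain ⟨Ω, i1, i2, i3⟩ : ∃ (Ω : Type) (_ : Field Ω) (_ : Algebra k Ω), IsAlgClosed Ω := ⟨AlgebraicClosure k, inferInstance, inferInstance, inferInstance⟩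
  have h0 : scaleRoots f D ≠ 0 := scaleRoots_ne_zero hf D
  have h1 : ∀ g : k[X], g ≠ 0 → (g.Separable ↔ (g.map (algebraMap k Ω)).roots.Nodup) := by
    intro g hg
    rw [nodup_roots_iff_of_splits (by rwa [Ne, Polynomial.map_eq_zero]) (IsAlgClosed.splits _), separable_map]
  rw [h1 _ h0, h1 _ hf, map_scaleRoots _ _ _ (by
    rw [Ne, FaithfulSMul.algebraMap_eq_zero_iff]
    exact leadingCoeff_ne_zero.2 hf)]
  have hD' : algebraMap k Ω D ≠ 0 := by
    rwa [Ne, FaithfulSMul.algebraMap_eq_zero_iff]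
  rw [roots_scaleRoots _ (isUnit_iff_ne_zero.2 hD')]
  rw [Multiset.nodup_map_iff_of_injective (mul_right_injective₀ hD')]

section
variable {k : Type} [Field k] [Fintype k] [DecidableEq k]

lemma pc_eq (h : k[X]) (ho : Odd h.natDegree) (j : ℕ) :
    (pc k h j : ℝ) - 1 - (Nat.card k : ℝ) ^ j = -(Pool.Agent.W529.ST.trG k h 1 j : ℝ) := by
  unfold Pool.Agent.W529.ST.trG Pool.Agent.W529.ST.infPts Pool.Agent.H126T.affPts pc
  rw [if_pos ho]
  simp only [map_one, one_mul]
  push_cast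
  ring

/-- the curve of the scaled polynomial is the quadratic twist -/
lemma pc_scale (h : k[X]) (g : ℕ) (hg : h.natDegree = 2 * g + 1) {D : k} (hD : D ≠ 0) (j : ℕ) :
    (pc k (scaleRoots h D) j : ℝ) - 1 - (Nat.card k : ℝ) ^ j = -(Pool.Agent.W529.ST.trG k h D j : ℝ) := by
  have ho : Odd h.natDegree := by
    rw [hg]
    exact ⟨g, rfl⟩
  unfold Pool.Agent.W529.ST.trG Pool.Agent.W529.ST.infPts Pool.Agent.H126T.affPts pc
  rw [if_pos ho]
  have hD' : algebraMap k (AlgebraicClosure k) D ≠ 0 := by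
    rwa [Ne, FaithfulSMul.algebraMap_eq_zero_iff]
  have hfr : D ^ (Nat.card k ^ j) = D := by
    rw [Nat.card_eq_fintype_card]
    exact FiniteField.pow_card_pow j D
  have hfr' : (algebraMap k (AlgebraicClosure k) D) ^ (Nat.card k ^ j) = algebraMap k (AlgebraicClosure k) D := by
    rw [← map_pow, hfr]
  have key : ∀ x : AlgebraicClosure k, aeval (algebraMap k (AlgebraicClosure k) D * x) (scaleRoots h D) =
      (algebraMap k (AlgebraicClosure k) D) ^ (2 * g + 1) * aeval x h := by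
    intro x
    have := scaleRoots_eval₂_mul (p := h) (algebraMap k (AlgebraicClosure k)) x D
    rw [hg] at this
    rw [aeval_def, aeval_def, this]
  have e : Nat.card {P : AlgebraicClosure k × AlgebraicClosure k //
      P.1 ^ (Nat.card k ^ j) = P.1 ∧ P.2 ^ (Nat.card k ^ j) = P.2 ∧ algebraMap k (AlgebraicClosure k) D * P.2 ^ 2 = aeval P.1 h} =
      Nat.card {P : AlgebraicClosure k × AlgebraicClosure k //
      P.1 ^ (Nat.card k ^ j) = P.1 ∧ P.2 ^ (Nat.card k ^ j) = P.2 ∧ P.2 ^ 2 = aeval P.1 (scaleRoots h D)} := by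
    refine Nat.card_congr (Equiv.subtypeEquiv (Equiv.prodCongr (Equiv.mulLeft₀ _ hD') (Equiv.mulLeft₀ _ (pow_ne_zero (g + 1) hD'))) ?_)
    rintro ⟨x, y⟩
    show x ^ (Nat.card k ^ j) = x ∧ y ^ (Nat.card k ^ j) = y ∧ algebraMap k (AlgebraicClosure k) D * y ^ 2 = aeval x h ↔
      (algebraMap k (AlgebraicClosure k) D * x) ^ (Nat.card k ^ j) = algebraMap k (AlgebraicClosure k) D * x ∧
      (algebraMap k (AlgebraicClosure k) D ^ (g + 1) * y) ^ (Nat.card k ^ j) = algebraMap k (AlgebraicClosure k) D ^ (g + 1) * y ∧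
      (algebraMap k (AlgebraicClosure k) D ^ (g + 1) * y) ^ 2 = aeval (algebraMap k (AlgebraicClosure k) D * x) (scaleRoots h D)
    rw [key x, mul_pow, hfr', mul_right_inj' hD', mul_pow, ← pow_mul, mul_comm (g + 1) (Nat.card k ^ j), pow_mul, hfr',
      mul_right_inj' (pow_ne_zero (g + 1) hD')]
    refine and_congr Iff.rfl (and_congr Iff.rfl ?_)
    rw [mul_pow, ← pow_mul]
    have e1 : (algebraMap k (AlgebraicClosure k) D) ^ ((g + 1) * 2) * y ^ 2 =
        (algebraMap k (AlgebraicClosure k) D) ^ (2 * g + 1) * (algebraMap k (AlgebraicClosure k) D * y ^ 2) := by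
      rw [← mul_assoc, ← pow_succ]
      congr 2
      ring
    rw [e1, mul_right_inj' (pow_ne_zero _ hD')]
  rw [e]
  push_cast
  ring

end

/-- the `i`-th normalised coefficient over `ZMod p` -/
noncomputable def az (p : ℕ) [Fact p.Prime] {n : ℕ} (v : Fin n → ZMod p) (i : ℕ) : ℝ :=
  cL (fun j => (pc (ZMod p) (F (ZMod p) v) j : ℝ) - 1 - (p : ℝ) ^ j) i / Real.sqrt p ^ i

lemma az_twist (p : ℕ) [Fact p.Prime] (h2 : p ≠ 2) {g : ℕ} (v : Fin (2 * g + 1) → ZMod p) (D : ZMod p) (hD : quadraticChar (ZMod p) D = -1) (i : ℕ) :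
    az p (fun j => D ^ (2 * g + 1 - (j : ℕ)) * v j) i = (-1) ^ i * az p v i := by
  have hD0 : D ≠ 0 := by
    rintro rfl
    rw [quadraticChar_zero] at hD
    omega
  have h3 : ringChar (ZMod p) ≠ 2 := by
    rw [ZMod.ringChar_zmod_n]
    exact h2
  unfold az
  rw [← mul_div_assoc]
  congr 1
  refine cL_twist _ _ _ (fun j hj => ?_) i
  have e1 := pc_scale (F (ZMod p) v) g (F_natDegree _ v) hD0 j
  have e2 := pc_eq (F (ZMod p) v) (by rw [F_natDegree]; exact ⟨g, rfl⟩) j
  have e3 := Pool.Agent.W529.ST.trG_twist h3 (F (ZMod p) v) hD0 hj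
  rw [Nat.card_zmod] at e1 e2
  rw [F_scale] at e1
  rw [e1, e2, e3, hD]
  push_cast
  ring

end Pool.Agent.X22.HE
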