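import Pool.Agent.X22.ND5

/-!
# Quantities with small means; truncation; numbers of points of sections
-/

set_option autoImplicit false

namespace Pool.Agent.X22.ND

open Finset Pool.Agent.TH894.NE
open Pool.Agent.TH894.SM (change)

lemma abs_mean_le (d p : ℕ) (F G : (Fin d → ℕ) → ℝ) (h : ∀ m, |F m| ≤ G m) : |mean d p F| ≤ mean d p G := by
  rw [abs_le]
  constructor
  · have h1 := mean_mono d p (fun m => (-1) * G m) F (fun m => by have := (abs_le.1 (h m)).1; linarith)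
    rw [mean_mul] at h1
    have e : mean d p (fun m => G m) = mean d p G := rfl
    rw [e] at h1
    linarith
  · exact mean_mono d p F G (fun m => (abs_le.1 (h m)).2)

open Classical in
/-- **Complex quantities with small means at all heights.** -/
theorem mzd_law (b d : ℕ) (hb : 2 ≤ b) (hd : 1 ≤ d) (δ : ℝ) (hδ : 0 < δ) (A B C : ℕ) : ∃ c : ℝ, 0 < c ∧ ∃ y₀ : ℕ,
    ∀ (K r : Fin d → ℕ) (y : ℕ), (∀ l, 2 * r l ≤ K l) → y₀ ≤ y →
    ∀ N : Fin d → ℕ, (∀ l, N l < b ^ K l) → ∀ f : Fin d → ℕ → ℕ, (∀ l j, f l j < b ∧ f l j ≠ N l / b ^ j % b) →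
    ∀ (κ : Type) (Λ : ℕ → Finset κ), (∀ x, 2 ≤ x → (Λ x).card ≤ x ^ B) →
    ∀ (Z : ℕ → κ → ℕ → (Fin d → ℕ) → ℂ), (∀ x l p m, p.Prime → Z x l p m = Z x l p (fun i => m i % p)) →
    ∀ (M : ℕ → κ → ℝ), (∀ x, 2 ≤ x → ∀ l ∈ Λ x, 0 ≤ M x l) →
    (∀ x, 2 ≤ x → ∀ l ∈ Λ x, ∀ p ∈ op x, ∀ m, ‖Z x l p m‖ ≤ M x l) →
    (∀ x, 2 ≤ x → ∀ l ∈ Λ x, ∑ p ∈ op x, (|mean d p (fun m => (Z x l p m).re)| + |mean d p (fun m => (Z x l p m).im)|) ≤ M x l) →
    (∀ x, 2 ≤ x → ∀ l ∈ Λ x, ∑ p ∈ op x, mean d p (fun m => ‖Z x l p m‖ ^ 2) ≤ M x l ^ 2) →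
    ∀ E : (Fin d → ℕ) → Prop,
    (∀ m, (∀ x : ℕ, y ≤ x → (∀ l, (x : ℝ) ≤ Real.exp (c * r l)) → ∀ l ∈ Λ x, ∀ τ : ℝ, |τ| ≤ (x : ℝ) ^ C →
      ‖∑ p ∈ op x, Z x l p m * hp τ p‖ ≤ M x l * (x : ℝ) ^ δ) → E m) →
      ((((Fintype.piFinset (fun l => powersetCard (r l) (range (K l)))).filter
        (fun T => ¬ E (fun l => change b (K l) (N l) (f l) (T l)))).card : ℕ) : ℝ) ≤ 1 / (y : ℝ) ^ A * ∏ l, ((K l).choose (r l) : ℝ) := by
  obtain ⟨c, hc, y₀, h⟩ := mzc_law b d hb hd (δ / 2) (by positivity) A B C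
  obtain ⟨x₁, hx₁⟩ := absorb 3 (δ / 2) (by positivity) (by positivity)
  refine ⟨c, hc, y₀ + x₁ + 2, fun K r y hrK hy N hN f hf κ Λ hΛ Z hZ M hM0 hM hmu hvar E hE => ?_⟩
  obtain ⟨μ, hμ⟩ : ∃ μ : ℕ → κ → ℕ → ℂ, μ = fun x l p => ⟨mean d p (fun m => (Z x l p m).re), mean d p (fun m => (Z x l p m).im)⟩ := ⟨_, rfl⟩
  have hμn : ∀ x l p, ‖μ x l p‖ ≤ |mean d p (fun m => (Z x l p m).re)| + |mean d p (fun m => (Z x l p m).im)| := by
    intro x l p
    rw [hμ]
    exact Complex.norm_le_abs_re_add_abs_im _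
  have hμs : ∀ x, 2 ≤ x → ∀ l ∈ Λ x, ∑ p ∈ op x, ‖μ x l p‖ ≤ M x l := by
    intro x hx l hl
    exact (sum_le_sum (fun p _ => hμn x l p)).trans (hmu x hx l hl)
  have hμ1 : ∀ x, 2 ≤ x → ∀ l ∈ Λ x, ∀ p ∈ op x, ‖μ x l p‖ ≤ M x l := by
    intro x hx l hl p hp'
    exact (single_le_sum (f := fun p => ‖μ x l p‖) (fun _ _ => norm_nonneg _) hp').trans (hμs x hx l hl)
  refine h K r y hrK (by omega) N hN f hf κ Λ hΛ (fun x l p m => Z x l p m - μ x l p) ?_ (fun x l => 2 * M x l) ?_ ?_ ?_ ?_ ?_ E ?_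
  · intro x l p m hp'
    show Z x l p m - μ x l p = Z x l p (fun i => m i % p) - μ x l p
    rw [← hZ x l p m hp']
  · intro x hx l hl
    have := hM0 x hx l hl
    positivity
  · intro x hx l hl p hp' m
    refine (norm_sub_le _ _).trans ?_
    have h1 := hM x hx l hl p hp' m
    have h2 := hμ1 x hx l hl p hp'
    linarith
  · intro x hx l hl p hp'
    have hp1 : 1 ≤ p := by
      rw [mem_op] at hp'
      exact hp'.2.1.one_lt.le
    have e : (fun m : Fin d → ℕ => (Z x l p m - μ x l p).re) = fun m => (Z x l p m).re + (-mean d p (fun m => (Z x l p m).re)) := by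
      funext m
      rw [Complex.sub_re, hμ]
      ring
    rw [e, mean_add', mean_const d p hp1]
    ring
  · intro x hx l hl p hp'
    have hp1 : 1 ≤ p := by
      rw [mem_op] at hp'
      exact hp'.2.1.one_lt.le
    have e : (fun m : Fin d → ℕ => (Z x l p m - μ x l p).im) = fun m => (Z x l p m).im + (-mean d p (fun m => (Z x l p m).im)) := by
      funext m
      rw [Complex.sub_im, hμ]
      ring
    rw [e, mean_add', mean_const d p hp1]
    ring
  · intro x hx l hl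
    have h1 : ∀ p ∈ op x, mean d p (fun m => ‖Z x l p m - μ x l p‖ ^ 2) ≤ 2 * mean d p (fun m => ‖Z x l p m‖ ^ 2) + 2 * ‖μ x l p‖ ^ 2 := by
      intro p hp'
      have hp1 : 1 ≤ p := by
        rw [mem_op] at hp'
        exact hp'.2.1.one_lt.le
      have h2 := mean_mono d p (fun m => ‖Z x l p m - μ x l p‖ ^ 2) (fun m => 2 * ‖Z x l p m‖ ^ 2 + 2 * ‖μ x l p‖ ^ 2) (fun m => by
        have h3 : ‖Z x l p m - μ x l p‖ ≤ ‖Z x l p m‖ + ‖μ x l p‖ := norm_sub_le _ _
        have h4 : ‖Z x l p m - μ x l p‖ ^ 2 ≤ (‖Z x l p m‖ + ‖μ x l p‖) ^ 2 := pow_le_pow_left₀ (norm_nonneg _) h3 2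
        have h5 := sq_nonneg (‖Z x l p m‖ - ‖μ x l p‖)
        show ‖Z x l p m - μ x l p‖ ^ 2 ≤ 2 * ‖Z x l p m‖ ^ 2 + 2 * ‖μ x l p‖ ^ 2
        nlinarith)
      rw [mean_add', mean_mul, mean_const d p hp1] at h2
      exact h2
    refine (sum_le_sum h1).trans ?_
    rw [sum_add_distrib, ← mul_sum, ← mul_sum]
    have h2 := hvar x hx l hl
    have h3 : ∑ p ∈ op x, ‖μ x l p‖ ^ 2 ≤ M x l ^ 2 := by
      calc ∑ p ∈ op x, ‖μ x l p‖ ^ 2 ≤ ∑ p ∈ op x, M x l * ‖μ x l p‖ := by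
            apply sum_le_sum
            intro p hp'
            rw [sq]
            exact mul_le_mul_of_nonneg_right (hμ1 x hx l hl p hp') (norm_nonneg _)
        _ = M x l * ∑ p ∈ op x, ‖μ x l p‖ := by rw [mul_sum]
        _ ≤ M x l * M x l := mul_le_mul_of_nonneg_left (hμs x hx l hl) (hM0 x hx l hl)
        _ = _ := by ring
    calc 2 * ∑ p ∈ op x, mean d p (fun m => ‖Z x l p m‖ ^ 2) + 2 * ∑ p ∈ op x, ‖μ x l p‖ ^ 2 ≤ 2 * M x l ^ 2 + 2 * M x l ^ 2 := by linarith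
      _ = (2 * M x l) ^ 2 := by ring
  · intro m hm
    apply hE
    intro x hyx hxr l hl τ hτ
    have hx2 : 2 ≤ x := by omega
    have hx0 : (0 : ℝ) < x := by exact_mod_cast (by omega : 0 < x)
    have hx1 : (1 : ℝ) ≤ x := by exact_mod_cast (by omega : 1 ≤ x)
    have hM0' := hM0 x hx2 l hl
    have h1 := hm x hyx hxr l hl τ hτ
    have h2 : ∑ p ∈ op x, Z x l p m * hp τ p = ∑ p ∈ op x, (Z x l p m - μ x l p) * hp τ p + ∑ p ∈ op x, μ x l p * hp τ p := by
      rw [← sum_add_distrib]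
      apply sum_congr rfl
      intro p _
      ring
    have h3 : ‖∑ p ∈ op x, μ x l p * hp τ p‖ ≤ M x l := by
      refine (norm_sum_le _ _).trans ?_
      refine le_trans (le_of_eq ?_) (hμs x hx2 l hl)
      apply sum_congr rfl
      intro p _
      rw [norm_mul, norm_hp, mul_one]
    have h4 := hx₁ x (by omega)
    have hlx0 : 0 ≤ Real.log x := Real.log_natCast_nonneg x
    have hpow : (x : ℝ) ^ δ = (x : ℝ) ^ (δ / 2) * (x : ℝ) ^ (δ / 2) := by
      rw [← Real.rpow_add hx0]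
      congr 1
      ring
    have hge1 : (1 : ℝ) ≤ (x : ℝ) ^ (δ / 2) := Real.one_le_rpow hx1 (by positivity)
    have h33 : (3 : ℝ) ≤ (x : ℝ) ^ (δ / 2) := by nlinarith
    rw [h2]
    calc ‖∑ p ∈ op x, (Z x l p m - μ x l p) * hp τ p + ∑ p ∈ op x, μ x l p * hp τ p‖ ≤ 2 * M x l * (x : ℝ) ^ (δ / 2) + M x l :=
          (norm_add_le _ _).trans (add_le_add h1 h3)
      _ ≤ 2 * M x l * (x : ℝ) ^ (δ / 2) + M x l * (x : ℝ) ^ (δ / 2) := by
          have := mul_le_mul_of_nonneg_left hge1 hM0'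
          linarith
      _ = M x l * (3 * (x : ℝ) ^ (δ / 2)) := by ring
      _ ≤ M x l * ((x : ℝ) ^ (δ / 2) * (x : ℝ) ^ (δ / 2)) := by gcongr
      _ = M x l * (x : ℝ) ^ δ := by rw [hpow]

/-- truncation -/
noncomputable def trunc (T X : ℝ) : ℝ := if |X| ≤ T then X else 0

lemma trunc_le (T X : ℝ) (hT : 0 ≤ T) : |trunc T X| ≤ T := by
  unfold trunc
  split_ifs with h
  · exact h
  · rwa [abs_zero]

lemma trunc_sq (T X : ℝ) : trunc T X ^ 2 ≤ X ^ 2 := by
  unfold trunc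
  split_ifs with h
  · exact le_rfl
  · rw [zero_pow two_ne_zero]
    exact sq_nonneg _

lemma mean_trunc (d p : ℕ) (X : (Fin d → ℕ) → ℝ) (T B : ℝ) (hT : 0 < T) (h0 : mean d p X = 0) (h2 : mean d p (fun m => X m ^ 2) ≤ B) :
    |mean d p (fun m => trunc T (X m))| ≤ B / T := by
  have e1 : mean d p (fun m => trunc T (X m)) = -mean d p (fun m => X m - trunc T (X m)) := by
    have e2 : mean d p (fun m => X m - trunc T (X m)) = mean d p X + (-1) * mean d p (fun m => trunc T (X m)) := by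
      rw [← mean_mul, ← mean_add']
      congr 1
      funext m
      ring
    rw [e2, h0]
    ring
  rw [e1, abs_neg]
  refine (abs_mean_le d p _ (fun m => T⁻¹ * X m ^ 2) (fun m => ?_)).trans ?_
  · unfold trunc
    split_ifs with h
    · rw [sub_self, abs_zero]
      positivity
    · rw [sub_zero]
      push Not at h
      rw [← div_eq_inv_mul, le_div_iff₀ hT, ← sq_abs, sq]
      exact mul_le_mul_of_nonneg_left h.le (abs_nonneg _)
  · rw [mean_mul, ← div_eq_inv_mul]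
    exact div_le_div_of_nonneg_right h2 hT.le

lemma sum_inv_sqrt (x : ℕ) : ∑ p ∈ op x, 1 / Real.sqrt p ≤ 2 * Real.sqrt x := by
  have h1 : ∑ p ∈ op x, 1 / Real.sqrt p ≤ ∑ p ∈ Icc 1 x, 1 / Real.sqrt p := by
    apply sum_le_sum_of_subset_of_nonneg
    · intro p hp'
      rw [mem_op] at hp'
      rw [mem_Icc]
      exact ⟨hp'.2.1.one_lt.le, hp'.1⟩
    · intro p _ _
      positivity
  refine h1.trans ?_
  clear h1
  induction x with
  | zero => simp
  | succ x ih =>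
    rw [sum_Icc_succ_top (by omega)]
    have h2 : 1 / Real.sqrt ((x + 1 : ℕ) : ℝ) ≤ 2 * Real.sqrt ((x + 1 : ℕ) : ℝ) - 2 * Real.sqrt x := by
      have hx1 : (0 : ℝ) < ((x + 1 : ℕ) : ℝ) := by positivity
      have hs : 0 < Real.sqrt ((x + 1 : ℕ) : ℝ) := Real.sqrt_pos.2 hx1
      rw [div_le_iff₀ hs]
      have e1 : Real.sqrt ((x + 1 : ℕ) : ℝ) * Real.sqrt ((x + 1 : ℕ) : ℝ) = x + 1 := by
        rw [Real.mul_self_sqrt hx1.le]
        push_cast
        ring
      have e2 : Real.sqrt (x : ℝ) * Real.sqrt (x : ℝ) = x := Real.mul_self_sqrt (Nat.cast_nonneg x)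
      nlinarith [sq_nonneg (Real.sqrt ((x + 1 : ℕ) : ℝ) - Real.sqrt x)]
    linarith

/-- the centred indicator function of zero -/
noncomputable def phi (p : ℕ) (t : ZMod p) : ℝ := (if t = 0 then 1 else 0) - 1 / p

section
variable {p : ℕ} [hf : Fact p.Prime] {V : Type} [AddCommGroup V] [Fintype V] [Module (ZMod p) V]

lemma sum_phi : ∑ t : ZMod p, phi p t = 0 := by
  unfold phi
  rw [sum_sub_distrib, sum_ite_eq' univ (0 : ZMod p) (fun _ => (1 : ℝ)), sum_const, card_univ, ZMod.card, nsmul_eq_mul]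
  have : (p : ℝ) ≠ 0 := by exact_mod_cast hf.out.ne_zero
  simp [this]

lemma phi_shift (L : V →ₗ[ZMod p] ZMod p) (a : ZMod p) (Y : V → ℝ) (w : V) (hw : L w = 1) (hY : ∀ v (s : ZMod p), Y (v + s • w) = Y v) :
    ∑ v, phi p (L v + a) * Y v = 0 := by
  have h1 : ∀ s : ZMod p, ∑ v, phi p (L v + a) * Y v = ∑ v, phi p (L v + a + s) * Y v := by
    intro s
    rw [← Equiv.sum_comp (Equiv.addRight (s • w)) (fun v => phi p (L v + a) * Y v)]
    apply sum_congr rfl
    intro v _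
    have e1 : L (v + s • w) = L v + s := by rw [map_add, map_smul, hw, smul_eq_mul, mul_one]
    show phi p (L (v + s • w) + a) * Y (v + s • w) = _
    rw [hY, e1, add_right_comm]
  have h3 : (Fintype.card (ZMod p) : ℝ) * ∑ v, phi p (L v + a) * Y v = 0 := by
    have h4 : (Fintype.card (ZMod p) : ℝ) * ∑ v, phi p (L v + a) * Y v = ∑ s : ZMod p, ∑ v, phi p (L v + a + s) * Y v := by
      rw [← sum_congr rfl (fun s _ => h1 s), sum_const, nsmul_eq_mul, card_univ]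
    rw [h4, sum_comm]
    apply sum_eq_zero
    intro v _
    rw [← sum_mul]
    have h5 : ∑ s : ZMod p, phi p (L v + a + s) = ∑ s : ZMod p, phi p s := Equiv.sum_comp (Equiv.addLeft (L v + a)) (fun s => phi p s)
    rw [h5, sum_phi, zero_mul]
  have h6 : (Fintype.card (ZMod p) : ℝ) ≠ 0 := by
    rw [ZMod.card]
    exact_mod_cast hf.out.ne_zero
  exact (mul_eq_zero.1 h3).resolve_left h6

lemma phi_sq (t : ZMod p) : phi p t ^ 2 = (1 - 2 / p) * phi p t + (1 / p - 1 / p ^ 2) := by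
  have hp1 : (p : ℝ) ≠ 0 := by exact_mod_cast hf.out.ne_zero
  unfold phi
  split_ifs
  · field_simp
    ring
  · field_simp
    ring

lemma sum_phi_sq (L : V →ₗ[ZMod p] ZMod p) (a : ZMod p) (w : V) (hw : L w = 1) : ∑ v, phi p (L v + a) ^ 2 ≤ Fintype.card V / p := by
  rw [sum_congr rfl (fun v _ => phi_sq (L v + a)), sum_add_distrib, ← mul_sum, sum_const, card_univ, nsmul_eq_mul]
  have h1 := phi_shift L a (fun _ => 1) w hw (fun _ _ => rfl)
  simp only [mul_one] at h1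
  rw [h1, mul_zero, zero_add]
  have h2 : 0 ≤ (Fintype.card V : ℝ) * (1 / (p : ℝ) ^ 2) := by positivity
  have h3 : (Fintype.card V : ℝ) * (1 / p - 1 / (p : ℝ) ^ 2) = Fintype.card V / p - (Fintype.card V : ℝ) * (1 / (p : ℝ) ^ 2) := by ring
  rw [h3]
  linarith

/-- the second moment of the number of the points of a section -/
lemma pair_var {U : Type} [Fintype U] (L : U → V →ₗ[ZMod p] ZMod p) (a : U → ZMod p) (dep : U → U → Prop) [DecidableRel dep] (D : ℝ)
    (hdep : ∀ u, ((univ.filter (fun u' => dep u u')).card : ℝ) ≤ D) 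
    (hind : ∀ u u', ¬ dep u u' → ∃ w : V, L u w = 1 ∧ L u' w = 0) (hne : ∀ u, ∃ w : V, L u w = 1) :
    ∑ v, (∑ u, phi p (L u v + a u)) ^ 2 ≤ D * Fintype.card U * (Fintype.card V / p) := by
  have h1 : ∀ v, (∑ u, phi p (L u v + a u)) ^ 2 = ∑ u, ∑ u', phi p (L u v + a u) * phi p (L u' v + a u') := by
    intro v
    rw [sq, sum_mul_sum]
  rw [sum_congr rfl (fun v _ => h1 v), sum_comm]
  have hC : (0 : ℝ) ≤ Fintype.card V / p := by positivity
  have h3 : ∀ u, ∑ v, ∑ u', phi p (L u v + a u) * phi p (L u' v + a u') ≤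
      ∑ u' ∈ univ.filter (fun u' => dep u u'), (Fintype.card V / p : ℝ) := by
    intro u
    rw [sum_comm, ← sum_filter_add_sum_filter_not univ (fun u' => dep u u')]
    have h4 : ∑ u' ∈ univ.filter (fun u' => ¬ dep u u'), ∑ v, phi p (L u v + a u) * phi p (L u' v + a u') = 0 := by
      apply sum_eq_zero
      intro u' hu'
      rw [mem_filter] at hu'
      obtain ⟨w, hw1, hw2⟩ := hind u u' hu'.2
      apply phi_shift (L u) (a u) (fun v => phi p (L u' v + a u')) w hw1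
      intro v s
      have e1 : L u' (v + s • w) = L u' v := by rw [map_add, map_smul, hw2, smul_zero, add_zero]
      show phi p (L u' (v + s • w) + a u') = _
      rw [e1]
    rw [h4, add_zero]
    apply sum_le_sum
    intro u' _
    obtain ⟨w, hw⟩ := hne u
    obtain ⟨w', hw'⟩ := hne u'
    have h5 := sum_phi_sq (L u) (a u) w hw
    have h6 := sum_phi_sq (L u') (a u') w' hw'
    have h7 : ∑ v, phi p (L u v + a u) * phi p (L u' v + a u') ≤ ∑ v, (phi p (L u v + a u) ^ 2 + phi p (L u' v + a u') ^ 2) / 2 := by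
      apply sum_le_sum
      intro v _
      nlinarith [sq_nonneg (phi p (L u v + a u) - phi p (L u' v + a u'))]
    rw [← sum_div, sum_add_distrib] at h7
    linarith
  refine (sum_le_sum (fun u _ => h3 u)).trans ?_
  have h8 : ∀ u ∈ (univ : Finset U), ∑ u' ∈ univ.filter (fun u' => dep u u'), (Fintype.card V / p : ℝ) ≤ D * (Fintype.card V / p) := by
    intro u _
    rw [sum_const, nsmul_eq_mul]
    exact mul_le_mul_of_nonneg_right (hdep u) hC
  refine (sum_le_sum h8).trans ?_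
  rw [sum_const, card_univ, nsmul_eq_mul]
  apply le_of_eq
  ring

end

end Pool.Agent.X22.ND
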