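import Pool.Agent.X22.HE
import Pool.Agent.X22.ND6

/-!
# The proportion of the polynomials with multiple roots; exact second moments
-/

set_option autoImplicit false

namespace Pool.Agent.X22.HE

open Finset Polynomial

lemma monic_eq_F (R : Type) [CommRing R] [Nontrivial R] (P : R[X]) (k : ℕ) (hP : P.Monic) (hk : P.natDegree = k) :
    P = F R (fun j : Fin k => P.coeff j) := by
  ext i
  by_cases h1 : i < k
  · have e1 := F_coeff_lt R (fun j : Fin k => P.coeff j) ⟨i, h1⟩
    simp only at e1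
    rw [e1]
  · by_cases h2 : i = k
    · subst h2
      rw [F_coeff_top, ← hk]
      exact hP
    · rw [coeff_eq_zero_of_natDegree_lt (by omega), coeff_eq_zero_of_natDegree_lt (by rw [F_natDegree]; omega)]

/-- the number of the monic polynomials of degree `n` which are not separable -/
lemma nonsep_card (p : ℕ) [hf : Fact p.Prime] (n : ℕ) (hn : 1 ≤ n) [DecidablePred fun v : Fin n → ZMod p => ¬ (F (ZMod p) v).Separable] :
    ((univ : Finset (Fin n → ZMod p)).filter (fun v => ¬ (F (ZMod p) v).Separable)).card ≤ n * p ^ (n - 1) := by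
  classical
  have hp1 : 1 ≤ p := hf.out.one_lt.le
  obtain ⟨ψ, hψ⟩ : ∃ ψ : (k : ℕ) → (Fin k → ZMod p) × (Fin (n - 2 * k) → ZMod p) → (Fin n → ZMod p), ∀ k q j, ψ k q j =
      ((F (ZMod p) q.1) ^ 2 * F (ZMod p) q.2).coeff j := ⟨fun k q j => ((F (ZMod p) q.1) ^ 2 * F (ZMod p) q.2).coeff j, fun _ _ _ => rfl⟩
  have hsub : (univ : Finset (Fin n → ZMod p)).filter (fun v => ¬ (F (ZMod p) v).Separable) ⊆
      ((Icc 1 n).filter (fun k => 2 * k ≤ n)).biUnion (fun k => univ.image (ψ k)) := by
    intro v hv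
    rw [mem_filter] at hv
    have h1 := hv.2
    rw [PerfectField.separable_iff_squarefree] at h1
    unfold Squarefree at h1
    push Not at h1
    obtain ⟨x, ⟨h, hx⟩, hu⟩ := h1
    have hF0 : F (ZMod p) v ≠ 0 := by
      intro h0
      have := F_natDegree (ZMod p) v
      rw [h0, natDegree_zero] at this
      omega
    have hFm : (F (ZMod p) v).Monic := by
      show (F (ZMod p) v).coeff (F (ZMod p) v).natDegree = 1
      rw [F_natDegree, F_coeff_top]
    have hx0 : x ≠ 0 := by
      rintro rfl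
      rw [mul_zero, zero_mul] at hx
      exact hF0 hx
    have hh0 : h ≠ 0 := by
      rintro rfl
      rw [mul_zero] at hx
      exact hF0 hx
    obtain ⟨c, hc⟩ : ∃ c, c = x.leadingCoeff := ⟨_, rfl⟩
    have hc0 : c ≠ 0 := by
      rw [hc]
      exact leadingCoeff_ne_zero.2 hx0
    obtain ⟨g, hg⟩ : ∃ g, g = C c⁻¹ * x := ⟨_, rfl⟩
    obtain ⟨h', hh'⟩ : ∃ h', h' = C (c ^ 2) * h := ⟨_, rfl⟩
    have hgm : g.Monic := by
      rw [hg]
      exact monic_C_mul_of_mul_leadingCoeff_eq_one (by rw [← hc, inv_mul_cancel₀ hc0])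
    have hcc : C c⁻¹ * C c = (1 : (ZMod p)[X]) := by
      rw [← C_mul, inv_mul_cancel₀ hc0, C_1]
    have hprod : F (ZMod p) v = g ^ 2 * h' := by
      rw [hx, hg, hh', C_pow]
      calc x * x * h = (1 * 1) * (x * x * h) := by ring
        _ = ((C c⁻¹ * C c) * (C c⁻¹ * C c)) * (x * x * h) := by rw [hcc]
        _ = _ := by ring
    have hgm2 : (g ^ 2).Monic := hgm.pow 2
    have hhm : h'.Monic := by
      have := hFm
      rw [hprod] at this
      exact hgm2.of_mul_monic_left this
    have hdeg : n = 2 * g.natDegree + h'.natDegree := by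
      have e1 := F_natDegree (ZMod p) v
      rw [hprod, hgm2.natDegree_mul hhm, hgm.natDegree_pow] at e1
      omega
    have hk1 : 1 ≤ g.natDegree := by
      by_contra h0
      have h2 : g.natDegree = 0 := by omega
      have h3 : g = 1 := hgm.natDegree_eq_zero.1 h2
      apply hu
      have h4 : C c * g = x := by
        rw [hg, ← mul_assoc, ← C_mul, mul_inv_cancel₀ hc0, C_1, one_mul]
      rw [← h4, h3, mul_one]
      exact isUnit_C.2 (isUnit_iff_ne_zero.2 hc0)
    rw [mem_biUnion]
    refine ⟨g.natDegree, ?_, ?_⟩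
    · rw [mem_filter, mem_Icc]
      omega
    · rw [mem_image]
      refine ⟨(fun j => g.coeff j, fun j => h'.coeff j), mem_univ _, ?_⟩
      funext j
      rw [hψ]
      simp only
      rw [← monic_eq_F (ZMod p) g g.natDegree hgm rfl, ← monic_eq_F (ZMod p) h' (n - 2 * g.natDegree) hhm (by omega), ← hprod, F_coeff_lt]
  refine (card_le_card hsub).trans (card_biUnion_le.trans ?_)
  have h2 : ∀ k ∈ (Icc 1 n).filter (fun k => 2 * k ≤ n), (univ.image (ψ k)).card ≤ p ^ (n - 1) := by
    intro k hk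
    rw [mem_filter, mem_Icc] at hk
    refine card_image_le.trans ?_
    rw [card_univ, Fintype.card_prod, Fintype.card_fun, Fintype.card_fun, Fintype.card_fin, Fintype.card_fin, ZMod.card, ← pow_add]
    exact Nat.pow_le_pow_right hp1 (by omega)
  refine (sum_le_sum h2).trans ?_
  rw [sum_const, smul_eq_mul]
  apply Nat.mul_le_mul_right
  refine (card_filter_le _ _).trans ?_
  rw [Nat.card_Icc]
  omega

/-- the sum of a function of some of the coordinates -/
lemma sum_block {T : Type} [Fintype T] {n d : ℕ} (ι : Fin n → Fin d) (hι : Function.Injective ι) (G : (Fin n → T) → ℝ) :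
    ∑ v : Fin d → T, G (fun j => v (ι j)) = (Fintype.card T : ℝ) ^ (d - n) * ∑ u, G u := by
  classical
  rw [← Equiv.sum_comp (Equiv.piEquivPiSubtypeProd (fun x => x ∈ Set.range ι) (fun _ => T)).symm, Fintype.sum_prod_type]
  have h1 : ∀ (a : {x // x ∈ Set.range ι} → T) (c : {x // ¬ x ∈ Set.range ι} → T),
      G (fun j => (Equiv.piEquivPiSubtypeProd (fun x => x ∈ Set.range ι) (fun _ => T)).symm (a, c) (ι j)) =
      G (fun j => a ⟨ι j, Set.mem_range_self j⟩) := by
    intro a c
    congr 1
    funext j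
    simp [Equiv.piEquivPiSubtypeProd]
  have h2 : ∀ (a : {x // x ∈ Set.range ι} → T), (∑ c : {x // ¬ x ∈ Set.range ι} → T,
      G (fun j => (Equiv.piEquivPiSubtypeProd (fun x => x ∈ Set.range ι) (fun _ => T)).symm (a, c) (ι j))) =
      (Fintype.card T : ℝ) ^ (d - n) * G (fun j => a ⟨ι j, Set.mem_range_self j⟩) := by
    intro a
    rw [sum_congr rfl (fun c _ => h1 a c), sum_const, nsmul_eq_mul, card_univ, Fintype.card_fun]
    have h3 : Fintype.card {x // ¬ x ∈ Set.range ι} = d - n := by
      rw [Fintype.card_subtype_compl, Fintype.card_fin]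
      congr 1
      have e5 := Fintype.card_congr (Equiv.ofInjective ι hι)
      rw [Fintype.card_fin] at e5
      exact (Fintype.card_congr (Equiv.refl _)).trans e5.symm
    rw [h3]
    push_cast
    rfl
  rw [sum_congr rfl (fun a _ => h2 a), ← mul_sum]
  congr 1
  obtain ⟨ε, hε⟩ : ∃ ε : (Fin n → T) ≃ ({x // x ∈ Set.range ι} → T), ∀ u j, ε u ⟨ι j, Set.mem_range_self j⟩ = u j := by
    refine ⟨Equiv.arrowCongr (Equiv.ofInjective ι hι) (Equiv.refl T), fun u j => ?_⟩
    simp only [Equiv.arrowCongr_apply, Equiv.coe_refl, Function.comp_apply, id]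
    congr 1
    exact (Equiv.ofInjective ι hι).symm_apply_apply j
  rw [← Equiv.sum_comp ε]
  apply sum_congr rfl
  intro u _
  congr 1
  funext j
  exact hε u j

/-- the exact second moment of a sum of characters of pairwise independent affine functions -/
lemma second_exact {p : ℕ} [hf : Fact p.Prime] (h2 : p ≠ 2) {V : Type} [AddCommGroup V] [Fintype V] [Module (ZMod p) V]
    {Z : Type} [Fintype Z] [DecidableEq Z] (L : Z → V →ₗ[ZMod p] ZMod p) (a : Z → ZMod p)
    (hone : ∀ z, ∃ w : V, L z w = 1) (hind : ∀ z z', z ≠ z' → ∃ w : V, L z w = 1 ∧ L z' w = 0) :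
    ∑ v, (∑ z, (quadraticChar (ZMod p) (L z v + a z) : ℝ)) ^ 2 = Fintype.card Z * (Fintype.card V * (1 - 1 / p)) := by
  classical
  have h1 : ∀ v, (∑ z, (quadraticChar (ZMod p) (L z v + a z) : ℝ)) ^ 2 =
      ∑ z, ∑ z', ((quadraticChar (ZMod p) (L z v + a z) : ℝ) * (quadraticChar (ZMod p) (L z' v + a z') : ℝ)) := by
    intro v
    rw [sq, sum_mul_sum]
  rw [sum_congr rfl (fun v _ => h1 v), sum_comm]
  have h3 : ∀ z, ∑ v, ∑ z', ((quadraticChar (ZMod p) (L z v + a z) : ℝ) * (quadraticChar (ZMod p) (L z' v + a z') : ℝ)) =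
      Fintype.card V * (1 - 1 / p) := by
    intro z
    rw [sum_comm]
    have h4 : ∀ z' ∈ univ, z' ≠ z → ∑ v, ((quadraticChar (ZMod p) (L z v + a z) : ℝ) * (quadraticChar (ZMod p) (L z' v + a z') : ℝ)) = 0 := by
      intro z' _ hz
      obtain ⟨w, hw1, hw2⟩ := hind z z' (Ne.symm hz)
      rw [Pool.Agent.X22.ND.shift_zero h2 (L z) (a z) (fun v => (quadraticChar (ZMod p) (L z' v + a z') : ℝ)) w hw1 (by
        intro v s
        have e1 : L z' (v + s • w) = L z' v := by rw [map_add, map_smul, hw2, smul_zero, add_zero]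
        show (quadraticChar (ZMod p) (L z' (v + s • w) + a z') : ℝ) = _
        rw [e1])]
    rw [sum_eq_single z h4 (fun h => absurd (mem_univ z) h)]
    have h5 : ∀ v, ((quadraticChar (ZMod p) (L z v + a z) : ℝ) * (quadraticChar (ZMod p) (L z v + a z) : ℝ)) =
        (1 - 1 / p) - Pool.Agent.X22.ND.phi p (L z v + a z) * 1 := by
      intro v
      unfold Pool.Agent.X22.ND.phi
      by_cases h0 : L z v + a z = 0
      · rw [h0, quadraticChar_zero, if_pos rfl]
        push_cast
        ring
      · rw [if_neg h0]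
        rcases quadraticChar_dichotomy h0 with h | h <;> rw [h] <;> push_cast <;> ring
    obtain ⟨w, hw⟩ := hone z
    rw [sum_congr rfl (fun v _ => h5 v), sum_sub_distrib, Pool.Agent.X22.ND.phi_shift (L z) (a z) (fun _ => 1) w hw (fun _ _ => rfl), sum_const,
      card_univ, nsmul_eq_mul, sub_zero]
  rw [sum_congr rfl (fun z _ => h3 z), sum_const, card_univ, nsmul_eq_mul]

end Pool.Agent.X22.HE
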