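import Pool.Agent.X22.ND9

/-!
# Few-digit changes: a positive proportion of the primes of a sparse set is good
-/

set_option autoImplicit false

namespace Pool.Agent.X22.HL

open Finset Pool.Agent.TH894.NE
open Pool.Agent.TH894.SM (change)
open Pool.Agent.X22.ND (op mem_op mz_law mean_zmod absorb mean_mono mean_add')

open Classical in
/-- **Good primes.** -/
theorem hit_law (b D : ℕ) (hb : 2 ≤ b) (hD : 1 ≤ D) (κ θ : ℝ) (hκ : 0 < κ) (hθ : 0 < θ) (A B : ℕ) : ∃ c : ℝ, 0 < c ∧ ∃ y₀ : ℕ,
    ∀ (K r : Fin D → ℕ) (y : ℕ), (∀ l, 2 * r l ≤ K l) → y₀ ≤ y →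
    ∀ N : Fin D → ℕ, (∀ l, N l < b ^ K l) → ∀ f : Fin D → ℕ → ℕ, (∀ l j, f l j < b ∧ f l j ≠ N l / b ^ j % b) →
    ∀ (ι : Type) (Λ : ℕ → Finset ι), (∀ x, y ≤ x → (Λ x).card ≤ x ^ B) →
    ∀ (I : ℕ → ι → Finset ℕ), (∀ x, y ≤ x → ∀ l ∈ Λ x, I x l ⊆ op x ∧ (x : ℝ) ^ θ ≤ (I x l).card) →
    ∀ (G : ι → ∀ p : ℕ, Set (Fin D → ZMod p)), (∀ x, y ≤ x → ∀ l ∈ Λ x, ∀ p ∈ I x l, κ * (p : ℝ) ^ D ≤ Nat.card (G l p)) →
    ∀ E : (Fin D → ℕ) → Prop,
    (∀ m, (∀ x : ℕ, y ≤ x → (∀ l, (x : ℝ) ≤ Real.exp (c * r l)) → ∀ l ∈ Λ x,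
      κ / 2 * (I x l).card ≤ (((I x l).filter (fun p => (fun i => (m i : ZMod p)) ∈ G l p)).card : ℝ)) → E m) →
      ((((Fintype.piFinset (fun l => powersetCard (r l) (range (K l)))).filter
        (fun T => ¬ E (fun l => change b (K l) (N l) (f l) (T l)))).card : ℕ) : ℝ) ≤ 1 / (y : ℝ) ^ A * ∏ l, ((K l).choose (r l) : ℝ) := by
  obtain ⟨c, hc, y₀, h⟩ := mz_law b D hb hD (θ / 4) (by positivity) A B
  obtain ⟨x₁, hx₁⟩ := absorb (2 / κ) (θ / 4) (by positivity) (by positivity)
  refine ⟨c, hc, y₀ + x₁ + 2, fun K r y hrK hy N hN f hf ι Λ hΛ I hI G hG E hE => ?_⟩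
  obtain ⟨e, he⟩ : ∃ e : ι → ℕ → ℝ, e = fun l p => mean D p (fun m => if (fun i => (m i : ZMod p)) ∈ G l p then 1 else 0) := ⟨_, rfl⟩
  obtain ⟨Z, hZ⟩ : ∃ Z : ℕ → ι → ℕ → (Fin D → ℕ) → ℝ, Z = fun x l p m =>
      if p ∈ I x l then (if (fun i => (m i : ZMod p)) ∈ G l p then 1 else 0) - e l p else 0 := ⟨_, rfl⟩
  have he0 : ∀ l p, p.Prime → 0 ≤ e l p ∧ e l p ≤ 1 := by
    intro l p hp
    rw [he]
    simp only
    constructor
    · have := mean_mono D p (fun _ => (0 : ℝ)) (fun m => if (fun i => (m i : ZMod p)) ∈ G l p then 1 else 0) (fun m => by split_ifs <;> norm_num)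
      rwa [mean_const D p hp.one_lt.le] at this
    · have := mean_mono D p (fun m => if (fun i => (m i : ZMod p)) ∈ G l p then (1 : ℝ) else 0) (fun _ => (1 : ℝ)) (fun m => by split_ifs <;> norm_num)
      rwa [mean_const D p hp.one_lt.le] at this
  have hZ1 : ∀ x l p m, p.Prime → |Z x l p m| ≤ 1 := by
    intro x l p m hp
    have h1 := he0 l p hp
    rw [hZ]
    simp only
    split_ifs
    · rw [abs_le]
      constructor <;> linarith
    · rw [abs_le]
      constructor <;> linarith
    · simp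
  refine h K r y hrK (by omega) N hN f hf ι (fun x => if y ≤ x then Λ x else ∅) ?_ Z ?_ (fun x l => Real.sqrt (I x l).card) ?_ ?_ ?_ ?_ E ?_
  · intro x hx
    by_cases hyx : y ≤ x
    · rw [if_pos hyx]
      exact hΛ x hyx
    · rw [if_neg hyx, card_empty]
      exact Nat.zero_le _
  · intro x l p m hp
    rw [hZ]
    simp only
    have e1 : (fun i => ((m i % p : ℕ) : ZMod p)) = fun i => (m i : ZMod p) := by
      funext i
      rw [ZMod.natCast_mod]
    rw [e1]
  · intro x _ l _
    exact Real.sqrt_nonneg _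
  · intro x hx l hl p hp m
    by_cases hyx : y ≤ x
    · simp only [if_pos hyx] at hl
      rw [mem_op] at hp
      refine (hZ1 x l p m hp.2.1).trans ?_
      rw [Real.one_le_sqrt]
      have hx1 : (1 : ℝ) ≤ x := by exact_mod_cast (by omega : 1 ≤ x)
      exact (Real.one_le_rpow hx1 hθ.le).trans (hI x hyx l hl).2
    · simp only [if_neg hyx] at hl
      exact absurd hl (notMem_empty l)
  · intro x hx l hl p hp
    rw [mem_op] at hp
    by_cases hpI : p ∈ I x l
    · have e1 : Z x l p = fun m => (if (fun i => (m i : ZMod p)) ∈ G l p then (1 : ℝ) else 0) + (-e l p) := by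
        funext m
        rw [hZ]
        simp only [if_pos hpI]
        ring
      rw [e1, mean_add', mean_const D p hp.2.1.one_lt.le, he]
      simp
    · have e1 : Z x l p = fun _ => (0 : ℝ) := by
        funext m
        rw [hZ]
        simp only [if_neg hpI]
      rw [e1, mean_const D p hp.2.1.one_lt.le]
  · intro x hx l hl
    by_cases hyx : y ≤ x
    · simp only [if_pos hyx] at hl
      have h1 : ∀ p ∈ op x, mean D p (fun m => Z x l p m ^ 2) ≤ if p ∈ I x l then 1 else 0 := by
        intro p hp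
        rw [mem_op] at hp
        by_cases hpI : p ∈ I x l
        · rw [if_pos hpI]
          have := mean_mono D p (fun m => Z x l p m ^ 2) (fun _ => (1 : ℝ)) (fun m => by
            rw [sq_le_one_iff_abs_le_one]
            exact hZ1 x l p m hp.2.1)
          rwa [mean_const D p hp.2.1.one_lt.le] at this
        · rw [if_neg hpI]
          have e1 : (fun m => Z x l p m ^ 2) = fun _ => (0 : ℝ) := by
            funext m
            rw [hZ]
            simp only [if_neg hpI]
            norm_num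
          rw [e1, mean_const D p hp.2.1.one_lt.le]
      refine (sum_le_sum h1).trans ?_
      rw [Real.sq_sqrt (Nat.cast_nonneg _), ← sum_filter, sum_const, nsmul_eq_mul, mul_one]
      exact_mod_cast card_le_card (fun p hp => (mem_filter.1 hp).2)
    · simp only [if_neg hyx] at hl
      exact absurd hl (notMem_empty l)
  · intro m hm
    apply hE
    intro x hyx hxr l hl
    have hx0 : (0 : ℝ) < x := by exact_mod_cast (by omega : 0 < x)
    have hx1 : (1 : ℝ) ≤ x := by exact_mod_cast (by omega : 1 ≤ x)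
    have h1 := hm x hyx hxr l (by simp only [if_pos hyx]; exact hl)
    obtain ⟨hIx, hIc⟩ := hI x hyx l hl
    have e1 : ∑ p ∈ op x, Z x l p m = (((I x l).filter (fun p => (fun i => (m i : ZMod p)) ∈ G l p)).card : ℝ) - ∑ p ∈ I x l, e l p := by
      have e2 : ∑ p ∈ op x, Z x l p m = ∑ p ∈ I x l, ((if (fun i => (m i : ZMod p)) ∈ G l p then 1 else 0) - e l p) := by
        rw [← sum_subset hIx]
        · apply sum_congr rfl
          intro p hp
          rw [hZ]
          simp only [if_pos hp]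
        · intro p _ hp
          rw [hZ]
          simp only [if_neg hp]
      rw [e2, sum_sub_distrib, card_filter]
      push_cast
      rfl
    rw [e1] at h1
    have h2 : κ * (I x l).card ≤ ∑ p ∈ I x l, e l p := by
      have h3 : ∀ p ∈ I x l, κ ≤ e l p := by
        intro p hp
        have hp' := hIx hp
        rw [mem_op] at hp'
        have hpp := hp'.2.1
        haveI : Fact p.Prime := ⟨hpp⟩
        have hp0 : (0 : ℝ) < p := by exact_mod_cast hpp.pos
        have h4 := hG x hyx l hl p hp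
        have h5 := mean_zmod D p hpp (fun v => if v ∈ G l p then (1 : ℝ) else 0)
        rw [he]
        simp only
        rw [h5, le_div_iff₀ (by positivity), sum_boole]
        refine h4.trans (le_of_eq ?_)
        rw [Nat.card_eq_fintype_card, ← Set.toFinset_card]
        congr 2
        ext v
        simp
      have h4 := card_nsmul_le_sum _ _ _ h3
      rw [nsmul_eq_mul] at h4
      linarith
    obtain ⟨n, hn⟩ : ∃ n : ℝ, n = (I x l).card := ⟨_, rfl⟩
    obtain ⟨s, hs⟩ : ∃ s : ℝ, s = Real.sqrt n := ⟨_, rfl⟩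
    rw [← hn] at h1 h2 hIc ⊢
    have hn0 : 0 ≤ n := by rw [hn]; exact Nat.cast_nonneg _
    have hss : s * s = n := by rw [hs]; exact Real.mul_self_sqrt hn0
    have hs0 : 0 ≤ s := by rw [hs]; exact Real.sqrt_nonneg _
    rw [← hs] at h1
    obtain ⟨t, ht⟩ : ∃ t : ℝ, t = (x : ℝ) ^ (θ / 4) := ⟨_, rfl⟩
    have ht0 : 0 ≤ t := by rw [ht]; positivity
    rw [← ht] at h1
    have h6 := hx₁ x (by omega)
    rw [← ht] at h6
    have hlx0 : 0 ≤ Real.log x := Real.log_natCast_nonneg x
    have h7 : 2 / κ ≤ t := by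
      have h8 : 0 ≤ 2 / κ * Real.log x := by positivity
      linarith
    have h8 : t * t ≤ s := by
      rw [hs]
      apply Real.le_sqrt_of_sq_le
      refine le_trans (le_of_eq ?_) hIc
      rw [ht, ← Real.rpow_add hx0, ← Real.rpow_natCast, ← Real.rpow_mul hx0.le]
      congr 1
      push_cast
      ring
    have h9 : 2 ≤ κ * t := by
      rw [div_le_iff₀ hκ] at h7
      linarith
    have h10 : s * t ≤ κ / 2 * n := by
      have h11 : t ≤ κ / 2 * s := by nlinarith
      calc s * t ≤ s * (κ / 2 * s) := mul_le_mul_of_nonneg_left h11 hs0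
        _ = κ / 2 * (s * s) := by ring
        _ = κ / 2 * n := by rw [hss]
    have h12 := (abs_le.1 h1).1
    linarith

end Pool.Agent.X22.HL
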