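import Pool.Agent.X22.HE2

/-!
# Blocks of coordinates: traces of several hyperelliptic curves
-/

set_option autoImplicit false

namespace Pool.Agent.X22.HE

open Finset Polynomial

section
variable {p : ℕ} [hf : Fact p.Prime]

/-- the trace of the curve `Y ^ 2 = F_v (X)` -/
noncomputable def tz {n : ℕ} (v : Fin n → ZMod p) : ℤ := p - Nat.card {P : ZMod p × ZMod p // P.2 ^ 2 = (F (ZMod p) v).eval P.1}

lemma tz_eq (h2 : p ≠ 2) {n : ℕ} (v : Fin n → ZMod p) : tz v = -∑ x : ZMod p, quadraticChar (ZMod p) ((F (ZMod p) v).eval x) := by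
  have h3 : ringChar (ZMod p) ≠ 2 := by
    rw [ZMod.ringChar_zmod_n]
    exact h2
  have h1 := Pool.Agent.H126T.card_aff h3 (F (ZMod p) v) (1 : ZMod p) one_ne_zero
  simp only [one_mul, map_one] at h1
  unfold tz
  rw [h1, ZMod.card]
  ring

lemma tz_bound (h2 : p ≠ 2) {g : ℕ} (v : Fin (2 * g + 1) → ZMod p) : |(tz v : ℝ)| ≤ 2 * g * Real.sqrt p := by
  have h3 : ringChar (ZMod p) ≠ 2 := by
    rw [ZMod.ringChar_zmod_n]
    exact h2
  have hgd := F_natDegree (ZMod p) v
  have h5 := Pool.Agent.H341R2.Sharp.weil_sharp h3 (F (ZMod p) v) (by rw [hgd]; omega) (by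
    intro c h' hgh
    by_cases hc : c = 0
    · rw [hc] at hgh
      simp at hgh
      rw [hgh, natDegree_zero] at hgd
      omega
    · have h6 : (F (ZMod p) v).natDegree = 2 * h'.natDegree := by
        rw [hgh, natDegree_C_mul hc, natDegree_pow]
      omega)
  rw [hgd, ZMod.card] at h5
  rw [tz_eq h2]
  push_cast at h5 ⊢
  rw [abs_neg]
  refine h5.trans (le_of_eq ?_)
  ring

lemma tz_twist (h2 : p ≠ 2) {g : ℕ} (v : Fin (2 * g + 1) → ZMod p) (D : ZMod p) (hD : quadraticChar (ZMod p) D = -1) :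
    tz (fun j : Fin (2 * g + 1) => D ^ (2 * g + 1 - (j : ℕ)) * v j) = -tz v := by
  have hD0 : D ≠ 0 := by
    rintro rfl
    rw [quadraticChar_zero] at hD
    omega
  rw [tz_eq h2, tz_eq h2, neg_neg, ← F_scale]
  rw [← Equiv.sum_comp (Equiv.mulLeft₀ D hD0)]
  have h1 : ∀ x : ZMod p, quadraticChar (ZMod p) ((scaleRoots (F (ZMod p) v) D).eval (Equiv.mulLeft₀ D hD0 x)) =
      -quadraticChar (ZMod p) ((F (ZMod p) v).eval x) := by
    intro x
    show quadraticChar (ZMod p) ((scaleRoots (F (ZMod p) v) D).eval (D * x)) = _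
    have e1 := scaleRoots_eval₂_mul (p := F (ZMod p) v) (RingHom.id (ZMod p)) x D
    rw [F_natDegree, RingHom.id_apply] at e1
    rw [eval, e1, map_mul, map_pow, hD, pow_succ, pow_mul]
    rw [eval]
    norm_num
  rw [sum_congr rfl (fun x _ => h1 x), sum_neg_distrib, neg_neg]

lemma sep_twist {g : ℕ} (v : Fin (2 * g + 1) → ZMod p) (D : ZMod p) (hD0 : D ≠ 0) :
    (F (ZMod p) (fun j : Fin (2 * g + 1) => D ^ (2 * g + 1 - (j : ℕ)) * v j)).Separable ↔ (F (ZMod p) v).Separable := by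
  rw [← F_scale]
  refine separable_scale (ZMod p) _ ?_ hD0
  intro h0
  have := F_natDegree (ZMod p) v
  rw [h0, natDegree_zero] at this
  omega

lemma F_eval {n : ℕ} (v : Fin n → ZMod p) (x : ZMod p) : (F (ZMod p) v).eval x = ∑ j, v j * x ^ (j : ℕ) + x ^ n := by
  unfold F
  rw [eval_add, eval_finset_sum]
  simp [add_comm]

/-- the exact second moment -/
lemma tz_second (h2 : p ≠ 2) {n d : ℕ} (hn : 2 ≤ n) (ι : Fin n → Fin d) (hι : Function.Injective ι) :
    ∑ v : Fin d → ZMod p, ((tz (fun j => v (ι j)) : ℤ) : ℝ) ^ 2 = p * ((p : ℝ) ^ d * (1 - 1 / p)) := by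
  obtain ⟨L, hL⟩ : ∃ L : ZMod p → (Fin d → ZMod p) →ₗ[ZMod p] ZMod p, ∀ z v, L z v = ∑ j : Fin n, v (ι j) * z ^ (j : ℕ) := by
    refine ⟨fun z => ∑ j : Fin n, (z ^ (j : ℕ)) • LinearMap.proj (ι j), fun z v => ?_⟩
    rw [LinearMap.sum_apply]
    apply sum_congr rfl
    intro j _
    rw [LinearMap.smul_apply, LinearMap.proj_apply, smul_eq_mul, mul_comm]
  have hsingle : ∀ z (k : Fin n) (c : ZMod p), L z (Pi.single (ι k) c) = c * z ^ (k : ℕ) := by
    intro z k c
    rw [hL, sum_eq_single k]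
    · rw [Pi.single_eq_same]
    · intro j _ hj
      rw [Pi.single_eq_of_ne (fun h => hj (hι h)), zero_mul]
    · intro h
      exact absurd (mem_univ _) h
  have h1 : ∀ v : Fin d → ZMod p, ((tz (fun j => v (ι j)) : ℤ) : ℝ) ^ 2 = (∑ z : ZMod p, (quadraticChar (ZMod p) (L z v + z ^ n) : ℝ)) ^ 2 := by
    intro v
    rw [tz_eq h2]
    push_cast
    rw [neg_sq]
    congr 1
    apply sum_congr rfl
    intro z _
    rw [F_eval, hL]
  rw [sum_congr rfl (fun v _ => h1 v)]
  have hn0 : 0 < n := by omega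
  have e := second_exact h2 L (fun z => z ^ n) (fun z => ⟨Pi.single (ι ⟨0, hn0⟩) 1, by rw [hsingle]; simp⟩) (fun z z' hzz => by
    have hne : z - z' ≠ 0 := sub_ne_zero.2 hzz
    refine ⟨Pi.single (ι ⟨0, hn0⟩) (-z' / (z - z')) + Pi.single (ι ⟨1, by omega⟩) (1 / (z - z')), ?_, ?_⟩
    · rw [map_add, hsingle, hsingle]
      simp only [pow_zero, mul_one, pow_one]
      field_simp
      ring
    · rw [map_add, hsingle, hsingle]
      simp only [pow_zero, mul_one, pow_one]
      field_simp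
      ring)
  rw [e, ZMod.card, Fintype.card_fun, Fintype.card_fin, ZMod.card]
  push_cast
  rfl

open Classical in
/-- the proportion of the bad polynomials -/
lemma bad_sum {n d : ℕ} (hn : 1 ≤ n) (ι : Fin n → Fin d) (hι : Function.Injective ι) :
    ∑ v : Fin d → ZMod p, (if (F (ZMod p) (fun j => v (ι j))).Separable then (0 : ℝ) else 1) ≤ n * ((p : ℝ) ^ d / p) := by
  have hp0 : (0 : ℝ) < p := by exact_mod_cast hf.out.pos
  have hnd : n ≤ d := by
    have := Fintype.card_le_of_injective ι hι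
    rwa [Fintype.card_fin, Fintype.card_fin] at this
  rw [sum_block ι hι (fun u => if (F (ZMod p) u).Separable then (0 : ℝ) else 1)]
  have h1 : ∑ u : Fin n → ZMod p, (if (F (ZMod p) u).Separable then (0 : ℝ) else 1) =
      (((univ : Finset (Fin n → ZMod p)).filter (fun v => ¬ (F (ZMod p) v).Separable)).card : ℝ) := by
    rw [card_filter]
    push_cast
    apply sum_congr rfl
    intro u _
    by_cases h : (F (ZMod p) u).Separable
    · rw [if_pos h, if_neg (not_not.2 h)]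
    · rw [if_neg h, if_pos h]
  rw [h1, ZMod.card]
  have h3 : ((((univ : Finset (Fin n → ZMod p)).filter (fun v => ¬ (F (ZMod p) v).Separable)).card : ℕ) : ℝ) ≤ n * (p : ℝ) ^ (n - 1) := by
    exact_mod_cast nonsep_card p n hn
  calc (p : ℝ) ^ (d - n) * ((((univ : Finset (Fin n → ZMod p)).filter (fun v => ¬ (F (ZMod p) v).Separable)).card : ℕ) : ℝ)
      ≤ (p : ℝ) ^ (d - n) * (n * (p : ℝ) ^ (n - 1)) := mul_le_mul_of_nonneg_left h3 (by positivity)
    _ = n * ((p : ℝ) ^ d / p) := by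
      rw [mul_left_comm, ← pow_add]
      congr 1
      rw [eq_div_iff hp0.ne', ← pow_succ]
      congr 1
      omega

end

end Pool.Agent.X22.HE
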