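import Pool.Agent.X22.SP
import Pool.Agent.X22.NF

/-!
# Euler products over number fields at few-digit vectors
-/

set_option autoImplicit false

namespace Pool.Agent.X22.KE

open Finset NumberField IsDedekindDomain Module
open Pool.Agent.X22.MT Pool.Agent.X22.SP
open Pool.Agent.TH894.NE (box)

/-- `1 / (1 - α T ^ f)` -/
noncomputable def gf (α : ℂ) (f : ℕ) : PowerSeries ℂ := PowerSeries.mk (fun j => if f ∣ j then α ^ (j / f) else 0)

lemma gf_zero (α : ℂ) (f : ℕ) : PowerSeries.coeff 0 (gf α f) = 1 := by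
  unfold gf
  rw [PowerSeries.coeff_mk, if_pos (dvd_zero f), Nat.zero_div, pow_zero]

lemma gf_one (α : ℂ) (f : ℕ) : PowerSeries.coeff 1 (gf α f) = if f = 1 then α else 0 := by
  unfold gf
  rw [PowerSeries.coeff_mk]
  by_cases h : f = 1
  · rw [if_pos h, h, if_pos (dvd_refl 1), Nat.div_one, pow_one]
  · rw [if_neg h, if_neg]
    intro h1
    exact h (Nat.dvd_one.1 h1)

lemma gf_bound (α : ℂ) (hα : ‖α‖ ≤ 1) (f j : ℕ) : ‖PowerSeries.coeff j (gf α f)‖ ≤ ((j : ℝ) + 1) ^ 0 := by
  unfold gf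
  rw [PowerSeries.coeff_mk, pow_zero]
  split_ifs
  · rw [norm_pow]
    exact pow_le_one₀ (norm_nonneg _) hα
  · rw [norm_zero]
    exact zero_le_one

section
variable {K : Type} [Field K] [NumberField K] {ι : Type} [Fintype ι] {d : ℕ}

lemma above_finite (p : ℕ) (hp : p ≠ 0) : {v : HeightOneSpectrum (𝓞 K) | (p : 𝓞 K) ∈ v.asIdeal}.Finite := by
  have h1 : (Ideal.span {(p : 𝓞 K)}) ≠ ⊥ := by
    rw [Ne, Ideal.span_singleton_eq_bot]
    exact_mod_cast hp
  refine (Ideal.finite_factors h1).subset ?_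
  intro v hv
  show v.asIdeal ∣ Ideal.span {(p : 𝓞 K)}
  rw [Ideal.dvd_iff_le, Ideal.span_singleton_le_iff_mem]
  exact hv

/-- the degree of the prime `v` above `p` -/
noncomputable def dg (v : HeightOneSpectrum (𝓞 K)) (p : ℕ) : ℕ := (Ideal.absNorm v.asIdeal).factorization p

lemma norm_eq (p : ℕ) (hp : p.Prime) (v : HeightOneSpectrum (𝓞 K)) (hv : (p : 𝓞 K) ∈ v.asIdeal) :
    Ideal.absNorm v.asIdeal = p ^ dg v p ∧ 1 ≤ dg v p := by
  obtain ⟨q, f, hq, hf, hqv, hN⟩ := Pool.Agent.X22.NF.exists_char v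
  have hpq : q = p := by
    by_contra hne
    have hcop : Nat.Coprime q p := (Nat.coprime_primes hq hp).2 hne
    have h1 : IsCoprime (q : ℤ) (p : ℤ) := Nat.isCoprime_iff_coprime.2 hcop
    obtain ⟨a, b, hab⟩ := h1
    apply v.isPrime.ne_top
    rw [Ideal.eq_top_iff_one]
    have h2 : (1 : 𝓞 K) = (a : 𝓞 K) * (q : 𝓞 K) + (b : 𝓞 K) * (p : 𝓞 K) := by
      have := congrArg (fun z : ℤ => (z : 𝓞 K)) hab
      push_cast at this
      exact this.symm
    rw [h2]
    exact Ideal.add_mem _ (Ideal.mul_mem_left _ _ hqv) (Ideal.mul_mem_left _ _ hv)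
  subst hpq
  have e : dg v q = f := by
    unfold dg
    rw [hN, hq.factorization_pow, Finsupp.single_eq_same]
  rw [e]
  exact ⟨hN, hf⟩

/-- the Euler factor at `p` -/
noncomputable def kfac (par : ℕ → HeightOneSpectrum (𝓞 K) → (Fin d → ℕ) → ι → ℂ) (p : ℕ) (m : Fin d → ℕ) : PowerSeries ℂ :=
  ∏ᶠ v ∈ {v : HeightOneSpectrum (𝓞 K) | (p : 𝓞 K) ∈ v.asIdeal}, ∏ i, gf (par p v m i) (dg v p)

lemma kfac_loc (n R L : ℕ) (hn : finrank ℚ K ≤ n) (hR : Fintype.card ι ≤ R) (par : ℕ → HeightOneSpectrum (𝓞 K) → (Fin d → ℕ) → ι → ℂ)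
    (hb : ∀ p : ℕ, p.Prime → ∀ v m i, ‖par p v m i‖ ≤ 1)
    (hper : ∀ p : ℕ, p.Prime → ∀ v, (p : 𝓞 K) ∈ v.asIdeal → ∀ m, par p v m = par p v (fun l => m l % p))
    (hmean : ∀ p : ℕ, p.Prime → ¬ p ∣ L → ∀ v : HeightOneSpectrum (𝓞 K), Ideal.absNorm v.asIdeal = p → ∑ m ∈ box d p, ∑ i, par p v m i = 0) :
    Loc d L (R * n) (kfac par) where
  per p hp m := by
    unfold kfac
    apply finprod_mem_congr rfl
    intro v hv
    rw [hper p hp v hv m]
  one p hp m := by
    unfold kfac
    rw [finprod_mem_eq_finite_toFinset_prod _ (above_finite p hp.ne_zero)]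
    apply coeff_zero_prod
    intro v _
    apply coeff_zero_prod
    intro i _
    exact gf_zero _ _
  bnd p hp m j := by
    unfold kfac
    rw [finprod_mem_eq_finite_toFinset_prod _ (above_finite p hp.ne_zero), ← Finset.prod_product']
    refine (coeff_prod_bound _ _ 0 (fun z _ j => gf_bound _ (hb p hp _ _ _) _ j) j).trans ?_
    rw [zero_add, one_mul, Finset.card_product, Finset.card_univ]
    apply pow_le_pow_right₀
    · have : (0 : ℝ) ≤ j := Nat.cast_nonneg j
      linarith
    · rw [mul_comm]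
      apply Nat.mul_le_mul hR
      refine le_trans ?_ hn
      apply Pool.Agent.X22.NF.card_above p hp
      intro v hv
      rw [Set.Finite.mem_toFinset] at hv
      exact hv
  mean p hp hpL := by
    unfold kfac
    have e1 : ∀ m ∈ box d p, PowerSeries.coeff 1 (∏ᶠ v ∈ {v : HeightOneSpectrum (𝓞 K) | (p : 𝓞 K) ∈ v.asIdeal}, ∏ i, gf (par p v m i) (dg v p)) =
        ∑ v ∈ (above_finite (K := K) p hp.ne_zero).toFinset, if dg v p = 1 then ∑ i, par p v m i else 0 := by
      intro m _
      rw [finprod_mem_eq_finite_toFinset_prod _ (above_finite p hp.ne_zero), coeff_one_prod]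
      · apply sum_congr rfl
        intro v _
        rw [coeff_one_prod _ _ (fun i _ => gf_zero _ _)]
        split_ifs with h
        · apply sum_congr rfl
          intro i _
          rw [gf_one, if_pos h]
        · apply sum_eq_zero
          intro i _
          rw [gf_one, if_neg h]
      · intro v _
        apply coeff_zero_prod
        intro i _
        exact gf_zero _ _
    rw [sum_congr rfl e1, sum_comm]
    apply sum_eq_zero
    intro v hv
    rw [Set.Finite.mem_toFinset] at hv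
    by_cases h : dg v p = 1
    · simp only [h, if_true]
      apply hmean p hp hpL v
      have := (norm_eq p hp v hv).1
      rw [this, h, pow_one]
    · simp only [h, if_false]
      exact sum_const_zero

end

end Pool.Agent.X22.KE
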