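import Pool.Agent.X22.KE

/-!
# Elliptic curves over number fields, and quadratic twists
-/

set_option autoImplicit false

namespace Pool.Agent.X22.KE

open Finset NumberField IsDedekindDomain Module
open Pool.Agent.X22.MT Pool.Agent.X22.SP
open Pool.Agent.X22.EC
open Pool.Agent.TH894.NE (box)

section
variable {K : Type} [Field K] [NumberField K] {d R : ℕ}

/-- the parameters at `v` of the twisted `L`-function of the curve over `K` -/
noncomputable def epar (a b : Fin d → ℤ) (u : HeightOneSpectrum (𝓞 K) → Fin R → ℂ) (p : ℕ) (v : HeightOneSpectrum (𝓞 K)) (m : Fin d → ℕ) (z : Fin R × Bool) : ℂ :=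
  u v z.1 * (if z.2 then ev (cosf p (lin a p m) (lin b p m)) else (starRingEnd ℂ) (ev (cosf p (lin a p m) (lin b p m)))) ^ dg v p

lemma epar_loc (a b : Fin d → ℤ) (u : HeightOneSpectrum (𝓞 K) → Fin R → ℂ) (hu : ∀ v j, ‖u v j‖ ≤ 1) (n : ℕ) (hn : finrank ℚ K ≤ n) (l₀ l₁ : Fin d) (ha0 : a l₀ = 1) (hb0 : b l₀ = 0)
    (ha1 : a l₁ = 0) (hb1 : b l₁ = 1) (L : ℕ) (hL : 2 ∣ L) : Loc d L (2 * R * n) (kfac (epar a b u)) := by
  apply kfac_loc n (2 * R) L hn
  · rw [Fintype.card_prod, Fintype.card_fin, Fintype.card_bool, mul_comm]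
  · intro p hp v m z
    unfold epar
    rw [norm_mul, norm_pow]
    have h1 : ‖(if z.2 then ev (cosf p (lin a p m) (lin b p m)) else (starRingEnd ℂ) (ev (cosf p (lin a p m) (lin b p m))))‖ = 1 := by
      split_ifs
      · exact ev_norm _ (cosf_le p hp _ _)
      · rw [RCLike.norm_conj]
        exact ev_norm _ (cosf_le p hp _ _)
    rw [h1, one_pow, mul_one]
    exact hu v z.1
  · intro p _ v _ m
    funext z
    unfold epar
    rw [← lin_mod, ← lin_mod]
  · intro p hp hpL v hv
    have hf : Fact p.Prime := ⟨hp⟩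
    have h2 : p ≠ 2 := by
      rintro rfl
      exact hpL hL
    have hdg : dg v p = 1 := by
      unfold dg
      rw [hv, hp.factorization_self]
    have e1 : ∀ m ∈ box d p, ∑ z, epar a b u p v m z =
        (fun w : Fin d → ZMod p => (fun _ => ∑ j, u v j) w * sy 1 (cosf p (lf (fun l => (a l : ZMod p)) w) (lf (fun l => (b l : ZMod p)) w))) (fun i => (m i : ZMod p)) := by
      intro m _
      rw [Fintype.sum_prod_type]
      show _ = (∑ j, u v j) * sy 1 _
      rw [sum_mul]
      apply sum_congr rfl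
      intro j _
      rw [Fintype.sum_bool]
      unfold epar sy
      rw [hdg, sum_range_succ, sum_range_one]
      simp only [pow_one, pow_zero, if_true, Bool.false_eq_true, if_false, Nat.sub_zero, Nat.sub_self, one_mul, mul_one]
      rw [mul_add]
      rfl
    rw [sum_congr rfl e1, box_zmod d (fun w : Fin d → ZMod p => (fun _ => ∑ j, u v j) w * sy 1 (cosf p (lf (fun l => (a l : ZMod p)) w) (lf (fun l => (b l : ZMod p)) w)))]
    have hΨ : ∑ z : ZMod p × ZMod p, sy 1 (cosf p z.1 z.2) = 0 := by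
      have e3 : ∀ z : ZMod p × ZMod p, sy 1 (cosf p z.1 z.2) = (fun n : ℤ => sy 1 ((n : ℝ) / (2 * Real.sqrt p))) (tq z.1 z.2) := by
        intro z
        rw [cosf_eq]
      rw [sum_congr rfl (fun z _ => e3 z)]
      exact sum_odd' h2 (fun n : ℤ => sy 1 ((n : ℝ) / (2 * Real.sqrt p))) (fun n => by
        show sy 1 (((-n : ℤ) : ℝ) / (2 * Real.sqrt p)) = -sy 1 ((n : ℝ) / (2 * Real.sqrt p))
        rw [Int.cast_neg, neg_div, sy_odd _ odd_one])
    refine sum_twoG (lf (fun l => (a l : ZMod p))) (lf (fun l => (b l : ZMod p))) (Pi.single l₀ 1) (Pi.single l₁ 1) ?_ ?_ ?_ ?_ (fun _ => ∑ j, u v j) ?_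
      (fun x y => sy 1 (cosf p x y)) hΨ
    · rw [lf_single, ha0, Int.cast_one]
    · rw [lf_single, hb0, Int.cast_zero]
    · rw [lf_single, ha1, Int.cast_zero]
    · rw [lf_single, hb1, Int.cast_one]
    · intro m x y
      rfl

end

end Pool.Agent.X22.KE
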