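import Pool.Agent.X22.ND9
import Pool.Agent.X22.NF

/-!
# Linear forms in a few-digit integer are not squares in number fields
-/

set_option autoImplicit false

namespace Pool.Agent.X22.NS

open Finset NumberField IsDedekindDomain Module
open Pool.Agent.X22.ND
open Pool.Agent.X22.NF

section
variable {F : Type} [Field F] [NumberField F]

/-- reduction modulo a place of degree one -/
noncomputable def red (v : HeightOneSpectrum (𝓞 F)) (p : ℕ) (hp' : p.Prime) (h : Ideal.absNorm v.asIdeal = p) : 𝓞 F →+* ZMod p :=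
  ((resEquiv v p hp' h).symm : (𝓞 F ⧸ v.asIdeal) →+* ZMod p).comp (Ideal.Quotient.mk v.asIdeal)

lemma red_eq_zero (v : HeightOneSpectrum (𝓞 F)) (p : ℕ) (hp' : p.Prime) (h : Ideal.absNorm v.asIdeal = p) (a : 𝓞 F) :
    red v p hp' h a = 0 ↔ a ∈ v.asIdeal := by
  rw [← Ideal.Quotient.eq_zero_iff_mem]
  show (resEquiv v p hp' h).symm (Ideal.Quotient.mk v.asIdeal a) = 0 ↔ _
  exact EmbeddingLike.map_eq_zero_iff

open Classical in
/-- the quadratic character at a place of degree one -/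
noncomputable def chw (v : HeightOneSpectrum (𝓞 F)) (a : 𝓞 F) : ℝ :=
  if h : (Ideal.absNorm v.asIdeal).Prime then
    (haveI : Fact (Ideal.absNorm v.asIdeal).Prime := ⟨h⟩
    (quadraticChar (ZMod (Ideal.absNorm v.asIdeal)) (red v _ h rfl a) : ℝ)) else 0

lemma chw_le (v : HeightOneSpectrum (𝓞 F)) (a : 𝓞 F) : |chw v a| ≤ 1 := by
  unfold chw
  split_ifs with h
  · haveI : Fact (Ideal.absNorm v.asIdeal).Prime := ⟨h⟩
    by_cases h0 : red v _ h rfl a = 0
    · rw [h0, quadraticChar_zero]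
      norm_num
    · rcases quadraticChar_dichotomy h0 with h1 | h1 <;> rw [h1] <;> norm_num
  · norm_num

open Classical in
lemma chw_sq (v : HeightOneSpectrum (𝓞 F)) (hv : (Ideal.absNorm v.asIdeal).Prime) (z : 𝓞 F) :
    chw v (z ^ 2) = 1 - (if z ^ 2 ∈ v.asIdeal then 1 else 0 : ℝ) := by
  haveI : Fact (Ideal.absNorm v.asIdeal).Prime := ⟨hv⟩
  unfold chw
  rw [dif_pos hv]
  by_cases h0 : z ^ 2 ∈ v.asIdeal
  · rw [if_pos h0, (red_eq_zero v _ hv rfl _).2 h0, quadraticChar_zero]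
    norm_num
  · rw [if_neg h0, map_pow]
    have h1 : red v _ hv rfl z ≠ 0 := by
      intro h2
      apply h0
      rw [← red_eq_zero v _ hv rfl, map_pow, h2]
      norm_num
    rw [quadraticChar_sq_one' h1]
    norm_num

lemma sum_range_zm (p : ℕ) (hp' : p.Prime) (f : ZMod p → ℝ) : haveI : Fact p.Prime := ⟨hp'⟩
    ∑ m ∈ range p, f (m : ZMod p) = ∑ t : ZMod p, f t := by
  haveI : Fact p.Prime := ⟨hp'⟩
  refine sum_nbij' (i := fun m : ℕ => (m : ZMod p)) (j := fun t : ZMod p => t.val) ?_ ?_ ?_ ?_ ?_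
  · intro m _
    exact mem_univ _
  · intro t _
    exact mem_range.2 (ZMod.val_lt t)
  · intro m hm
    exact ZMod.val_cast_of_lt (mem_range.1 hm)
  · intro t _
    exact ZMod.natCast_zmod_val t
  · intro m _
    rfl

lemma sum_affine (p : ℕ) (hp' : p.Prime) (α β : ZMod p) (hβ : β ≠ 0) (f : ZMod p → ℝ) : haveI : Fact p.Prime := ⟨hp'⟩
    ∑ m ∈ range p, f (α + β * (m : ZMod p)) = ∑ t : ZMod p, f t := by
  haveI : Fact p.Prime := ⟨hp'⟩
  rw [sum_range_zm p hp' (fun t => f (α + β * t))]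
  exact Equiv.sum_comp ((Equiv.mulLeft₀ β hβ).trans (Equiv.addLeft α)) f

lemma sum_chw (v : HeightOneSpectrum (𝓞 F)) (p : ℕ) (hp' : p.Prime) (h2 : p ≠ 2) (h : Ideal.absNorm v.asIdeal = p) (α β : 𝓞 F) (hβ : β ∉ v.asIdeal) :
    ∑ m ∈ range p, chw v (α + β * (m : 𝓞 F)) = 0 := by
  subst h
  haveI : Fact (Ideal.absNorm v.asIdeal).Prime := ⟨hp'⟩
  have h1 : ∀ m : ℕ, chw v (α + β * (m : 𝓞 F)) =
      (quadraticChar (ZMod (Ideal.absNorm v.asIdeal)) (red v _ hp' rfl α + red v _ hp' rfl β * (m : ZMod (Ideal.absNorm v.asIdeal))) : ℝ) := by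
    intro m
    unfold chw
    rw [dif_pos hp', map_add, map_mul, map_natCast]
  rw [sum_congr rfl (fun m _ => h1 m)]
  have h3 := sum_affine _ hp' (red v _ hp' rfl α) (red v _ hp' rfl β) (by rwa [Ne, red_eq_zero]) (fun t => (quadraticChar (ZMod (Ideal.absNorm v.asIdeal)) t : ℝ))
  refine h3.trans ?_
  rw [← Int.cast_sum, quadraticChar_sum_zero (by rw [ZMod.ringChar_zmod_n]; exact h2), Int.cast_zero]

open Classical in
lemma sum_ind (v : HeightOneSpectrum (𝓞 F)) (p : ℕ) (hp' : p.Prime) (h : Ideal.absNorm v.asIdeal = p) (α β : 𝓞 F) (hβ : β ∉ v.asIdeal) :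
    ∑ m ∈ range p, ((if α + β * (m : 𝓞 F) ∈ v.asIdeal then 1 else 0 : ℝ) - 1 / p) = 0 := by
  subst h
  haveI : Fact (Ideal.absNorm v.asIdeal).Prime := ⟨hp'⟩
  have h1 : ∀ m : ℕ, ((if α + β * (m : 𝓞 F) ∈ v.asIdeal then 1 else 0 : ℝ) - 1 / (Ideal.absNorm v.asIdeal : ℝ)) =
      phi (Ideal.absNorm v.asIdeal) (red v _ hp' rfl α + red v _ hp' rfl β * (m : ZMod (Ideal.absNorm v.asIdeal))) := by
    intro m
    unfold phi
    congr 1
    rw [← map_natCast (red v _ hp' rfl) m, ← map_mul, ← map_add]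
    simp only [red_eq_zero]
  rw [sum_congr rfl (fun m _ => h1 m)]
  have h3 := sum_affine _ hp' (red v _ hp' rfl α) (red v _ hp' rfl β) (by rwa [Ne, red_eq_zero]) (phi (Ideal.absNorm v.asIdeal))
  refine h3.trans ?_
  exact sum_phi

lemma chw_mod (v : HeightOneSpectrum (𝓞 F)) (p : ℕ) (h : Ideal.absNorm v.asIdeal = p) (α β : 𝓞 F) (m : ℕ) :
    chw v (α + β * (m : 𝓞 F)) = chw v (α + β * ((m % p : ℕ) : 𝓞 F)) := by
  subst h
  unfold chw
  split_ifs with hp'
  · haveI : Fact (Ideal.absNorm v.asIdeal).Prime := ⟨hp'⟩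
    simp only [map_add, map_mul, map_natCast, ZMod.natCast_mod]
  · rfl

lemma mem_mod (v : HeightOneSpectrum (𝓞 F)) (p : ℕ) (hp' : p.Prime) (h : Ideal.absNorm v.asIdeal = p) (α β : 𝓞 F) (m : ℕ) :
    α + β * (m : 𝓞 F) ∈ v.asIdeal ↔ α + β * ((m % p : ℕ) : 𝓞 F) ∈ v.asIdeal := by
  subst h
  rw [← red_eq_zero v _ hp' rfl, ← red_eq_zero v _ hp' rfl]
  simp only [map_add, map_mul, map_natCast, ZMod.natCast_mod]

end

lemma sum_inv_le (x : ℕ) : ∑ p ∈ op x, 1 / (p : ℝ) ≤ 1 + Real.log x := by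
  have h1 : ∑ p ∈ op x, 1 / (p : ℝ) ≤ ∑ p ∈ Icc 1 x, 1 / (p : ℝ) := by
    apply sum_le_sum_of_subset_of_nonneg
    · intro p hp'
      rw [mem_op] at hp'
      rw [mem_Icc]
      exact ⟨hp'.2.1.one_lt.le, hp'.1⟩
    · intro p _ _
      positivity
  refine h1.trans ?_
  have h2 := harmonic_le_one_add_log x
  rw [harmonic_eq_sum_Icc] at h2
  push_cast at h2
  simpa only [one_div] using h2

open Classical in
/-- **Linear forms in a few-digit integer are not squares.** -/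
theorem nonsquare_law (b : ℕ) (hb : 2 ≤ b) (n₀ : ℕ) (η : ℝ) (hη : 0 < η) (A B : ℕ) : ∃ c : ℝ, 0 < c ∧ ∃ y₀ : ℕ,
    ∀ (K r : ℕ) (y : ℕ), 2 * r ≤ K → y₀ ≤ y →
    ∀ N : ℕ, N < b ^ K → ∀ f : ℕ → ℕ, (∀ j, f j < b ∧ f j ≠ N / b ^ j % b) →
    ∀ (κ : Type) (F : κ → Type) [∀ i, Field (F i)] [∀ i, NumberField (F i)] (α β : ∀ i, 𝓞 (F i))
      (S : ∀ i, ℕ → Finset (HeightOneSpectrum (𝓞 (F i)))) (Λ : ℕ → Finset κ),
      (∀ i x, ∀ v ∈ S i x, (Ideal.absNorm v.asIdeal ≤ x ∧ (2 : 𝓞 (F i)) ∉ v.asIdeal) ∧ (Ideal.absNorm v.asIdeal).Prime ∧ β i ∉ v.asIdeal) →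
      (∀ x, (Λ x).card ≤ x ^ B) → (∀ x, ∀ i ∈ Λ x, finrank ℚ (F i) ≤ n₀) →
      (∀ x, ∀ i ∈ Λ x, (x : ℝ) ^ η ≤ (S i x).card) → ∀ E : ℕ → Prop,
    (∀ m : ℕ, (∀ x : ℕ, y ≤ x → (x : ℝ) ≤ Real.exp (c * r) → ∀ i ∈ Λ x, ∀ z : 𝓞 (F i), α i + β i * (m : 𝓞 (F i)) ≠ z ^ 2) → E m) →
      ((((powersetCard r (range K)).filter (fun T => ¬ E (Pool.Agent.TH894.SM.change b K N f T))).card : ℕ) : ℝ) ≤ 1 / (y : ℝ) ^ A * (K.choose r : ℝ) := by
  obtain ⟨c, hc, y₀, h⟩ := mz_law_one b hb (η / 4) (by positivity) A (B + 1)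
  obtain ⟨x₁, hx₁⟩ := absorb (2 * n₀ + 2) (η / 4) (by positivity) (by positivity)
  refine ⟨c, hc, y₀ + x₁ + 2, fun K r y hrK hy N hN f hf κ F iF iN α β S Λ hS hΛ hn hG E hE => ?_⟩
  have hcard : ∀ i, ∀ x, i ∈ Λ x → ∀ p, p.Prime → ((S i x).filter (fun v => Ideal.absNorm v.asIdeal = p)).card ≤ n₀ := by
    intro i x hi p hp'
    refine le_trans (card_le_card ?_) ((card_fiber_le (F := F i) x p hp').trans (hn x i hi))
    intro v hv
    rw [mem_filter] at hv ⊢
    exact ⟨(mem_pr (F i) x v).2 (hS i x v hv.1).1, hv.2⟩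
  obtain ⟨Z, hZ⟩ : ∃ Z : ℕ → κ × Bool → ℕ → ℕ → ℝ, Z = fun x q p m =>
      if q.2 then ∑ v ∈ (S q.1 x).filter (fun v => Ideal.absNorm v.asIdeal = p), chw v (α q.1 + β q.1 * (m : 𝓞 (F q.1)))
      else ∑ v ∈ (S q.1 x).filter (fun v => Ideal.absNorm v.asIdeal = p),
        ((if α q.1 + β q.1 * (m : 𝓞 (F q.1)) ∈ v.asIdeal then 1 else 0 : ℝ) - 1 / p) := ⟨_, rfl⟩
  have hZb : ∀ x, ∀ q : κ × Bool, q.1 ∈ Λ x → ∀ p ∈ op x, ∀ m, |Z x q p m| ≤ ((S q.1 x).filter (fun v => Ideal.absNorm v.asIdeal = p)).card := by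
    intro x q hq p hp' m
    rw [mem_op] at hp'
    have hp1 : (1 : ℝ) ≤ p := by exact_mod_cast hp'.2.1.one_lt.le
    have hp2 : 1 / (p : ℝ) ≤ 1 := by
      rw [div_le_one (by linarith)]
      exact hp1
    have hp3 : 0 ≤ 1 / (p : ℝ) := by positivity
    rw [hZ]
    simp only
    split_ifs
    · refine (abs_sum_le_sum_abs _ _).trans ?_
      refine (sum_le_sum (fun v _ => chw_le v _)).trans ?_
      rw [sum_const, nsmul_eq_mul, mul_one]
    · refine (abs_sum_le_sum_abs _ _).trans ?_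
      refine (sum_le_sum (g := fun _ => (1 : ℝ)) (fun v _ => ?_)).trans ?_
      · rw [abs_le]
        split_ifs
        · constructor <;> linarith
        · constructor <;> linarith
      · rw [sum_const, nsmul_eq_mul, mul_one]
  have hn1 : ∀ x, ∀ i ∈ Λ x, (1 : ℝ) ≤ n₀ := by
    intro x i hi
    exact_mod_cast (Nat.one_le_iff_ne_zero.2 (finrank_pos (R := ℚ) (M := F i)).ne').trans (hn x i hi)
  refine h K r y hrK (by omega) N hN f hf (κ × Bool) (fun x => (Λ x) ×ˢ (univ : Finset Bool)) ?_ Z ?_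
    (fun x q => n₀ * Real.sqrt (S q.1 x).card) ?_ ?_ ?_ ?_ E ?_
  · intro x hx
    rw [card_product, card_univ, Fintype.card_bool, pow_succ]
    exact Nat.mul_le_mul (hΛ x) hx
  · intro x q p m hp'
    rw [hZ]
    simp only
    split_ifs
    · apply sum_congr rfl
      intro v hv
      rw [mem_filter] at hv
      exact chw_mod v p hv.2 _ _ m
    · apply sum_congr rfl
      intro v hv
      rw [mem_filter] at hv
      simp only [mem_mod v p hp' hv.2 (α q.1) (β q.1) m]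
  · intro x _ q _
    positivity
  · intro x hx q hq p hp' m
    rw [mem_product] at hq
    refine (hZb x q hq.1 p hp' m).trans ?_
    rw [mem_op] at hp'
    have h1 : (((S q.1 x).filter (fun v => Ideal.absNorm v.asIdeal = p)).card : ℝ) ≤ n₀ := by
      exact_mod_cast hcard q.1 x hq.1 p hp'.2.1
    have hx1 : (1 : ℝ) ≤ x := by exact_mod_cast (by omega : 1 ≤ x)
    have h2 : (1 : ℝ) ≤ Real.sqrt (S q.1 x).card := by
      rw [Real.one_le_sqrt]
      exact (Real.one_le_rpow hx1 hη.le).trans (hG x q.1 hq.1)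
    have h3 : (0 : ℝ) ≤ n₀ := Nat.cast_nonneg _
    nlinarith
  · intro x hx q hq p hp'
    rw [mem_op] at hp'
    rw [hZ]
    simp only
    split_ifs
    · rw [sum_comm]
      apply sum_eq_zero
      intro v hv
      rw [mem_filter] at hv
      exact sum_chw v p hp'.2.1 hp'.2.2 hv.2 _ _ (hS q.1 x v hv.1).2.2
    · rw [sum_comm]
      apply sum_eq_zero
      intro v hv
      rw [mem_filter] at hv
      exact sum_ind v p hp'.2.1 hv.2 _ _ (hS q.1 x v hv.1).2.2
  · intro x hx q hq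
    rw [mem_product] at hq
    have hone : ∀ p ∈ op x, (∑ m ∈ range p, Z x q p m ^ 2) / p ≤ n₀ * ((S q.1 x).filter (fun v => Ideal.absNorm v.asIdeal = p)).card := by
      intro p hp'
      have hp'' := hp'
      rw [mem_op] at hp'
      have hp0 : (0 : ℝ) < p := by exact_mod_cast hp'.2.1.pos
      have h1 : (((S q.1 x).filter (fun v => Ideal.absNorm v.asIdeal = p)).card : ℝ) ≤ n₀ := by
        exact_mod_cast hcard q.1 x hq.1 p hp'.2.1
      rw [div_le_iff₀ hp0]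
      have h2 : ∀ m ∈ range p, Z x q p m ^ 2 ≤ n₀ * ((S q.1 x).filter (fun v => Ideal.absNorm v.asIdeal = p)).card := by
        intro m _
        have h3 := hZb x q hq.1 p hp'' m
        rw [← sq_abs]
        have h4 := abs_nonneg (Z x q p m)
        nlinarith
      refine (sum_le_sum h2).trans ?_
      rw [sum_const, card_range, nsmul_eq_mul]
      apply le_of_eq
      ring
    refine (sum_le_sum hone).trans ?_
    rw [← mul_sum, mul_pow, Real.sq_sqrt (Nat.cast_nonneg _)]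
    have h5 : ∑ p ∈ op x, (((S q.1 x).filter (fun v => Ideal.absNorm v.asIdeal = p)).card : ℝ) = (S q.1 x).card := by
      rw [← Nat.cast_sum, ← card_eq_sum_card_fiberwise]
      intro v hv
      have := hS q.1 x v hv
      rw [mem_coe, mem_op]
      exact ⟨this.1.1, this.2.1, two_notMem this.1.2 (Ideal.absNorm_mem v.asIdeal)⟩
    rw [h5]
    have h6 := hn1 x q.1 hq.1
    have h7 : (0 : ℝ) ≤ (S q.1 x).card := Nat.cast_nonneg _
    apply mul_le_mul_of_nonneg_right _ h7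
    nlinarith
  · intro m hm
    apply hE
    intro x hyx hxr i hi z hz
    have hx2 : 2 ≤ x := by omega
    have hx0 : (0 : ℝ) < x := by exact_mod_cast (by omega : 0 < x)
    have hx1 : (1 : ℝ) ≤ x := by exact_mod_cast (by omega : 1 ≤ x)
    have hlx0 : 0 ≤ Real.log x := Real.log_natCast_nonneg x
    obtain ⟨G, hGd⟩ : ∃ G : ℝ, G = (S i x).card := ⟨_, rfl⟩
    obtain ⟨R, hR⟩ : ∃ R : ℝ, R = ∑ v ∈ S i x, (if z ^ 2 ∈ v.asIdeal then 1 else 0 : ℝ) := ⟨_, rfl⟩
    have hfib : ∀ f : HeightOneSpectrum (𝓞 (F i)) → ℝ, ∑ p ∈ op x, ∑ v ∈ (S i x).filter (fun v => Ideal.absNorm v.asIdeal = p), f v = ∑ v ∈ S i x, f v := by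
      intro f
      apply sum_fiberwise_of_maps_to
      intro v hv
      have := hS i x v hv
      rw [mem_op]
      exact ⟨this.1.1, this.2.1, two_notMem this.1.2 (Ideal.absNorm_mem v.asIdeal)⟩
    have h1 : ∑ p ∈ op x, Z x (i, true) p m = G - R := by
      have e1 : ∀ p ∈ op x, Z x (i, true) p m = ∑ v ∈ (S i x).filter (fun v => Ideal.absNorm v.asIdeal = p), chw v (z ^ 2) := by
        intro p _
        rw [hZ]
        simp only [if_true]
        rw [hz]
      rw [sum_congr rfl e1, hfib, hGd, hR, card_eq_sum_ones, Nat.cast_sum, ← sum_sub_distrib]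
      apply sum_congr rfl
      intro v hv
      rw [chw_sq v (hS i x v hv).2.1, Nat.cast_one]
    have h2 : R - n₀ * (1 + Real.log x) ≤ ∑ p ∈ op x, Z x (i, false) p m := by
      have e1 : ∀ p ∈ op x, Z x (i, false) p m = ∑ v ∈ (S i x).filter (fun v => Ideal.absNorm v.asIdeal = p),
          (if z ^ 2 ∈ v.asIdeal then 1 else 0 : ℝ) - ((S i x).filter (fun v => Ideal.absNorm v.asIdeal = p)).card * (1 / (p : ℝ)) := by
        intro p _
        rw [hZ]
        simp only [Bool.false_eq_true, if_false]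
        rw [sum_sub_distrib, sum_const, nsmul_eq_mul, hz]
      rw [sum_congr rfl e1, sum_sub_distrib, hfib, hR]
      have e2 : ∑ p ∈ op x, (((S i x).filter (fun v => Ideal.absNorm v.asIdeal = p)).card * (1 / (p : ℝ))) ≤ n₀ * (1 + Real.log x) := by
        calc ∑ p ∈ op x, (((S i x).filter (fun v => Ideal.absNorm v.asIdeal = p)).card * (1 / (p : ℝ))) ≤ ∑ p ∈ op x, n₀ * (1 / (p : ℝ)) := by
              apply sum_le_sum
              intro p hp'
              rw [mem_op] at hp'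
              apply mul_le_mul_of_nonneg_right _ (by positivity)
              exact_mod_cast hcard i x hi p hp'.2.1
          _ = n₀ * ∑ p ∈ op x, 1 / (p : ℝ) := by rw [mul_sum]
          _ ≤ _ := mul_le_mul_of_nonneg_left (sum_inv_le x) (Nat.cast_nonneg _)
      linarith
    have h3 := hm x hyx hxr (i, true) (mem_product.2 ⟨hi, mem_univ _⟩)
    have h4 := hm x hyx hxr (i, false) (mem_product.2 ⟨hi, mem_univ _⟩)
    rw [h1] at h3
    simp only [← hGd] at h3 h4
    have h5 := (abs_le.1 h3).2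
    have h6 := (abs_le.1 h4).2
    obtain ⟨s, hs⟩ : ∃ s : ℝ, s = (x : ℝ) ^ (η / 4) := ⟨_, rfl⟩
    have hs4 : s ^ 4 ≤ G := by
      rw [hs, hGd, ← Real.rpow_natCast, ← Real.rpow_mul hx0.le]
      have : η / 4 * ((4 : ℕ) : ℝ) = η := by
        push_cast
        ring
      rw [this]
      exact hG x i hi
    have hsb := hx₁ x (by omega)
    rw [← hs] at hsb h5 h6
    have hn1' := hn1 x i hi
    have hs1 : 2 * (n₀ : ℝ) + 2 ≤ s := by nlinarith
    have hs0 : 0 ≤ s := by linarith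
    obtain ⟨t, ht⟩ : ∃ t : ℝ, t = Real.sqrt G := ⟨_, rfl⟩
    have hG0 : 0 ≤ G := le_trans (by positivity) hs4
    have htt : t * t = G := by
      rw [ht]
      exact Real.mul_self_sqrt hG0
    have ht0 : 0 ≤ t := by
      rw [ht]
      exact Real.sqrt_nonneg _
    have hts : s ^ 2 ≤ t := by
      rw [ht]
      apply Real.le_sqrt_of_sq_le
      calc (s ^ 2) ^ 2 = s ^ 4 := by ring
        _ ≤ G := hs4
    rw [← ht] at h5 h6
    have h7 : t * t ≤ 2 * n₀ * t * s + n₀ * (1 + Real.log x) := by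
      rw [htt]
      linarith
    have h8 : 0 ≤ t * (t - 2 * n₀ * s - s) := by
      apply mul_nonneg ht0
      nlinarith
    have h9 : n₀ * (1 + Real.log x) < s := by nlinarith
    have h10 : s ≤ t * s := by nlinarith
    nlinarith

end Pool.Agent.X22.NS
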