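import Pool.Agent.X22.KE
import Pool.Agent.X22.NS

/-!
# Quadratic twists over number fields
-/

set_option autoImplicit false

namespace Pool.Agent.X22.KE

open Finset NumberField IsDedekindDomain Module
open Pool.Agent.X22.MT Pool.Agent.X22.SP
open Pool.Agent.X22.EC
open Pool.Agent.X22.NF
open Pool.Agent.X22.NS (red red_eq_zero)
open Pool.Agent.TH894.NE (box)

section
variable {K : Type} [Field K] [NumberField K] {d R : ℕ}

open Classical in
/-- the quadratic residue symbol -/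
noncomputable def sb (v : HeightOneSpectrum (𝓞 K)) (D : 𝓞 K) : ℤ :=
  if 2 * D ∈ v.asIdeal then 0 else if ∃ z : 𝓞 K, z ^ 2 - D ∈ v.asIdeal then 1 else -1

lemma sb_congr (v : HeightOneSpectrum (𝓞 K)) (D D' : 𝓞 K) (h : D - D' ∈ v.asIdeal) : sb v D = sb v D' := by
  have h1 : 2 * D ∈ v.asIdeal ↔ 2 * D' ∈ v.asIdeal := by
    have h2 : 2 * D - 2 * D' ∈ v.asIdeal := by
      rw [← mul_sub]
      exact v.asIdeal.mul_mem_left 2 h
    constructor
    · intro h3
      have := v.asIdeal.sub_mem h3 h2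
      simpa using this
    · intro h3
      have := v.asIdeal.add_mem h3 h2
      simpa using this
  have h2 : (∃ z : 𝓞 K, z ^ 2 - D ∈ v.asIdeal) ↔ (∃ z : 𝓞 K, z ^ 2 - D' ∈ v.asIdeal) := by
    constructor
    · rintro ⟨z, hz⟩
      refine ⟨z, ?_⟩
      have := v.asIdeal.add_mem hz h
      simpa using this
    · rintro ⟨z, hz⟩
      refine ⟨z, ?_⟩
      have := v.asIdeal.sub_mem hz h
      have e : z ^ 2 - D' - (D - D') = z ^ 2 - D := by ring
      rwa [e] at this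
  unfold sb
  by_cases h3 : 2 * D ∈ v.asIdeal
  · rw [if_pos h3, if_pos (h1.1 h3)]
  · rw [if_neg h3, if_neg (fun h4 => h3 (h1.2 h4))]
    by_cases h4 : ∃ z : 𝓞 K, z ^ 2 - D ∈ v.asIdeal
    · rw [if_pos h4, if_pos (h2.1 h4)]
    · rw [if_neg h4, if_neg (fun h5 => h4 (h2.2 h5))]

lemma sb_norm (v : HeightOneSpectrum (𝓞 K)) (D : 𝓞 K) : ‖((sb v D : ℤ) : ℂ)‖ ≤ 1 := by
  unfold sb
  split_ifs <;> simp

lemma red_surj (v : HeightOneSpectrum (𝓞 K)) (p : ℕ) (hp : p.Prime) (h : Ideal.absNorm v.asIdeal = p) : Function.Surjective (red v p hp h) := by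
  intro t
  obtain ⟨z, hz⟩ := Ideal.Quotient.mk_surjective ((resEquiv v p hp h) t)
  refine ⟨z, ?_⟩
  show (resEquiv v p hp h).symm (Ideal.Quotient.mk v.asIdeal z) = t
  rw [hz, RingEquiv.symm_apply_apply]

lemma sb_eq (v : HeightOneSpectrum (𝓞 K)) (p : ℕ) [Fact p.Prime] (h2 : p ≠ 2) (h : Ideal.absNorm v.asIdeal = p) (D : 𝓞 K) :
    sb v D = quadraticChar (ZMod p) (red v p Fact.out h D) := by
  have hp : p.Prime := Fact.out
  have h20 : (2 : ZMod p) ≠ 0 := by
    have : ((2 : ℕ) : ZMod p) ≠ 0 := by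
      rw [Ne, ZMod.natCast_eq_zero_iff]
      intro h3
      exact h2 ((Nat.prime_dvd_prime_iff_eq hp Nat.prime_two).1 h3)
    exact_mod_cast this
  have h1 : 2 * D ∈ v.asIdeal ↔ red v p Fact.out h D = 0 := by
    rw [← red_eq_zero v p hp h, map_mul, map_ofNat, mul_eq_zero]
    simp [h20]
  have h3 : (∃ z : 𝓞 K, z ^ 2 - D ∈ v.asIdeal) ↔ IsSquare (red v p Fact.out h D) := by
    constructor
    · rintro ⟨z, hz⟩
      rw [← red_eq_zero v p hp h, map_sub, map_pow, sub_eq_zero] at hz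
      exact ⟨red v p hp h z, by rw [← hz, sq]⟩
    · rintro ⟨t, ht⟩
      obtain ⟨z, rfl⟩ := red_surj v p hp h t
      refine ⟨z, ?_⟩
      rw [← red_eq_zero v p hp h, map_sub, map_pow, sub_eq_zero, ht, sq]
  unfold sb
  by_cases h4 : red v p Fact.out h D = 0
  · rw [if_pos (h1.2 h4), h4, quadraticChar_zero]
  · rw [if_neg (fun h5 => h4 (h1.1 h5))]
    by_cases h5 : IsSquare (red v p Fact.out h D)
    · rw [if_pos (h3.2 h5), (quadraticChar_one_iff_isSquare h4).2 h5]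
    · rw [if_neg (fun h6 => h5 (h3.1 h6)), quadraticChar_neg_one_iff_not_isSquare.2 h5]

/-- sums of functions of one linear form -/
lemma sum_oneG {p : ℕ} [Fact p.Prime] {V : Type} [AddCommGroup V] [Fintype V] [Module (ZMod p) V] (La : V →ₗ[ZMod p] ZMod p)
    (w : V) (hw : La w = 1) (Ψ : ZMod p → ℂ) (hΨ : ∑ t, Ψ t = 0) : ∑ v, Ψ (La v) = 0 := by
  have h1 : ∀ t : ZMod p, ∑ v, Ψ (La v) = ∑ v, Ψ (La v + t) := by
    intro t
    rw [← Equiv.sum_comp (Equiv.addRight (t • w)) (fun v => Ψ (La v))]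
    apply sum_congr rfl
    intro v _
    rw [Equiv.coe_addRight, map_add, map_smul, hw, smul_eq_mul, mul_one]
  have h2 : (p : ℂ) * ∑ v, Ψ (La v) = 0 := by
    have h3 : (p : ℂ) * ∑ v, Ψ (La v) = ∑ t : ZMod p, ∑ v, Ψ (La v) := by
      rw [sum_const, card_univ, ZMod.card, nsmul_eq_mul]
    rw [h3, sum_congr rfl (fun t _ => h1 t), sum_comm]
    apply sum_eq_zero
    intro v _
    rw [← hΨ]
    exact Equiv.sum_comp (Equiv.addLeft (La v)) Ψ
  have hp0 : (p : ℂ) ≠ 0 := by exact_mod_cast (Fact.out : p.Prime).ne_zero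
  exact (mul_eq_zero.1 h2).resolve_left hp0

/-- the parameters of the twist by the quadratic character of `D = ∑ m_l e_l` -/
noncomputable def qpar (e : Fin d → 𝓞 K) (u : HeightOneSpectrum (𝓞 K) → Fin R → ℂ) (_p : ℕ) (v : HeightOneSpectrum (𝓞 K)) (m : Fin d → ℕ) (j : Fin R) : ℂ :=
  u v j * ((sb v (∑ l, (m l : 𝓞 K) * e l) : ℤ) : ℂ)

lemma qpar_loc (e : Fin d → 𝓞 K) (u : HeightOneSpectrum (𝓞 K) → Fin R → ℂ) (hu : ∀ v j, ‖u v j‖ ≤ 1) (n : ℕ) (hn : finrank ℚ K ≤ n) (l₀ : Fin d) (he : e l₀ = 1)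
    (L : ℕ) (hL : 2 ∣ L) : Loc d L (R * n) (kfac (qpar e u)) := by
  apply kfac_loc n R L hn
  · rw [Fintype.card_fin]
  · intro p hp v m j
    unfold qpar
    rw [norm_mul]
    exact mul_le_one₀ (hu v j) (norm_nonneg _) (sb_norm v _)
  · intro p _ v hv m
    funext j
    unfold qpar
    rw [sb_congr v (∑ l, (m l : 𝓞 K) * e l) (∑ l, ((m l % p : ℕ) : 𝓞 K) * e l)]
    rw [← sum_sub_distrib]
    apply Ideal.sum_mem
    intro l _
    rw [← sub_mul]
    apply Ideal.mul_mem_right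
    have h1 : ((m l : ℕ) : 𝓞 K) - ((m l % p : ℕ) : 𝓞 K) = (p : 𝓞 K) * ((m l / p : ℕ) : 𝓞 K) := by
      have := Nat.div_add_mod (m l) p
      have h2 : ((m l : ℕ) : 𝓞 K) = (p : 𝓞 K) * ((m l / p : ℕ) : 𝓞 K) + ((m l % p : ℕ) : 𝓞 K) := by
        exact_mod_cast this.symm
      rw [h2]
      ring
    rw [h1]
    exact v.asIdeal.mul_mem_right _ hv
  · intro p hp hpL v hv
    have hf : Fact p.Prime := ⟨hp⟩
    have h2 : p ≠ 2 := by
      rintro rfl
      exact hpL hL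
    have e1 : ∀ m ∈ box d p, ∑ j, qpar e u p v m j =
        (fun w : Fin d → ZMod p => (∑ j, u v j) * ((quadraticChar (ZMod p) (lf (fun l => red v p hp hv (e l)) w) : ℤ) : ℂ)) (fun i => (m i : ZMod p)) := by
      intro m _
      unfold qpar
      rw [← sum_mul, sb_eq v p h2 hv]
      have e2 : red v p hp hv (∑ l, (m l : 𝓞 K) * e l) = lf (fun l => red v p hp hv (e l)) (fun i => (m i : ZMod p)) := by
        rw [map_sum]
        show _ = ∑ l, (m l : ZMod p) * red v p hp hv (e l)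
        apply sum_congr rfl
        intro l _
        rw [map_mul, map_natCast]
      show _ = (∑ j, u v j) * _
      rw [← e2]
    rw [sum_congr rfl e1, box_zmod d (fun w : Fin d → ZMod p => (∑ j, u v j) * ((quadraticChar (ZMod p) (lf (fun l => red v p hp hv (e l)) w) : ℤ) : ℂ)), ← mul_sum]
    rw [sum_oneG (lf (fun l => red v p hp hv (e l))) (Pi.single l₀ 1) (by rw [lf_single, he, map_one]) (fun t => ((quadraticChar (ZMod p) t : ℤ) : ℂ)), mul_zero]
    rw [← Int.cast_sum, quadraticChar_sum_zero (by rw [ZMod.ringChar_zmod_n]; exact h2), Int.cast_zero]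

end

end Pool.Agent.X22.KE
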