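import Pool.Agent.X22.KE3

/-!
# Elliptic curves over number fields: symmetric powers twisted by Euler products
-/

set_option autoImplicit false

namespace Pool.Agent.X22.KE

open Finset NumberField IsDedekindDomain Module
open Pool.Agent.X22.MT Pool.Agent.X22.SP
open Pool.Agent.X22.EC
open Pool.Agent.X22.NF
open Pool.Agent.X22.NS (red red_eq_zero)
open Pool.Agent.TH894.NE (box)

section
variable {K : Type} [Field K] [NumberField K] {d R : ℕ}

/-- the trace at `v` by counting points -/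
noncomputable def trv (α β : 𝓞 K) (v : HeightOneSpectrum (𝓞 K)) : ℤ :=
  (Ideal.absNorm v.asIdeal : ℤ) - Nat.card {P : (𝓞 K ⧸ v.asIdeal) × (𝓞 K ⧸ v.asIdeal) //
    P.2 ^ 2 = P.1 ^ 3 + Ideal.Quotient.mk v.asIdeal α * P.1 + Ideal.Quotient.mk v.asIdeal β}

/-- the cosine of the Frobenius angle -/
noncomputable def cosv (α β : 𝓞 K) (v : HeightOneSpectrum (𝓞 K)) : ℝ := (trv α β v : ℝ) / (2 * Real.sqrt (Ideal.absNorm v.asIdeal))

lemma trv_eq (α β : 𝓞 K) (v : HeightOneSpectrum (𝓞 K)) (k : Type) [Field k] (e : k ≃+* (𝓞 K ⧸ v.asIdeal)) (s t : k)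
    (hs : e s = Ideal.Quotient.mk v.asIdeal α) (ht : e t = Ideal.Quotient.mk v.asIdeal β) : trv α β v = tq s t := by
  unfold trv tq
  have h1 : Nat.card k = Ideal.absNorm v.asIdeal := Nat.card_congr e.toEquiv
  rw [h1]
  congr 2
  refine (Nat.card_congr ((e.toEquiv.prodCongr e.toEquiv).subtypeEquiv ?_)).symm
  rintro ⟨X, Y⟩
  show Y ^ 2 = X ^ 3 + s * X + t ↔ (e Y) ^ 2 = (e X) ^ 3 + Ideal.Quotient.mk v.asIdeal α * e X + Ideal.Quotient.mk v.asIdeal β
  rw [← hs, ← ht, ← map_pow, ← map_pow, ← map_mul, ← map_add, ← map_add]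
  exact e.injective.eq_iff.symm

lemma cosv_le (α β : 𝓞 K) (v : HeightOneSpectrum (𝓞 K)) : |cosv α β v| ≤ 1 := by
  classical
  have hmax : v.asIdeal.IsMaximal := v.isMaximal
  obtain ⟨k, hk, hkc, hcard, hres⟩ : ∃ (k : Type) (_ : Field k) (_ : Fintype k), Nat.card k = Ideal.absNorm v.asIdeal ∧
      Nonempty (k ≃+* (𝓞 K ⧸ v.asIdeal)) := by
    let i1 : Field (𝓞 K ⧸ v.asIdeal) := Ideal.Quotient.field v.asIdeal
    have hfin : Finite (𝓞 K ⧸ v.asIdeal) := Ideal.finiteQuotientOfFreeOfNeBot v.asIdeal v.ne_bot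
    exact ⟨𝓞 K ⧸ v.asIdeal, i1, Fintype.ofFinite _, rfl, ⟨RingEquiv.refl _⟩⟩
  obtain ⟨e⟩ := hres
  have h1 := trv_eq α β v k e (e.symm (Ideal.Quotient.mk v.asIdeal α)) (e.symm (Ideal.Quotient.mk v.asIdeal β))
    (e.apply_symm_apply _) (e.apply_symm_apply _)
  unfold cosv
  rw [h1]
  by_cases hchar : ringChar k = 2
  · rw [tq_char2 hchar, Int.cast_zero, zero_div, abs_zero]
    exact zero_le_one
  · rw [abs_div, abs_of_nonneg (by positivity : (0 : ℝ) ≤ 2 * Real.sqrt (Ideal.absNorm v.asIdeal)), ← hcard]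
    exact div_le_one_of_le₀ (tq_bound hchar _ _) (by positivity)

lemma cosv_red (α β : 𝓞 K) (v : HeightOneSpectrum (𝓞 K)) (p : ℕ) [Fact p.Prime] (h : Ideal.absNorm v.asIdeal = p) :
    cosv α β v = cosf p (red v p Fact.out h α) (red v p Fact.out h β) := by
  unfold cosv
  rw [trv_eq α β v (ZMod p) (resEquiv v p Fact.out h) (red v p Fact.out h α) (red v p Fact.out h β)
    ((resEquiv v p Fact.out h).apply_symm_apply _) ((resEquiv v p Fact.out h).apply_symm_apply _), h, cosf_eq]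

lemma cosv_congr (α β α' β' : 𝓞 K) (v : HeightOneSpectrum (𝓞 K)) (hα : α - α' ∈ v.asIdeal) (hβ : β - β' ∈ v.asIdeal) :
    cosv α β v = cosv α' β' v := by
  unfold cosv trv
  rw [Ideal.Quotient.eq.2 hα, Ideal.Quotient.eq.2 hβ]

/-- the linear form -/
def cmb (a : Fin d → 𝓞 K) (m : Fin d → ℕ) : 𝓞 K := ∑ l, (m l : 𝓞 K) * a l

lemma cmb_mod (a : Fin d → 𝓞 K) (m : Fin d → ℕ) (p : ℕ) (v : HeightOneSpectrum (𝓞 K)) (hv : (p : 𝓞 K) ∈ v.asIdeal) :
    cmb a m - cmb a (fun l => m l % p) ∈ v.asIdeal := by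
  unfold cmb
  rw [← sum_sub_distrib]
  apply Ideal.sum_mem
  intro l _
  rw [← sub_mul]
  apply Ideal.mul_mem_right
  have h1 : ((m l : ℕ) : 𝓞 K) - ((m l % p : ℕ) : 𝓞 K) = (p : 𝓞 K) * ((m l / p : ℕ) : 𝓞 K) := by
    have := Nat.div_add_mod (m l) p
    have h2 : ((m l : ℕ) : 𝓞 K) = (p : 𝓞 K) * ((m l / p : ℕ) : 𝓞 K) + ((m l % p : ℕ) : 𝓞 K) := by
      exact_mod_cast this.symm
    rw [h2]
    ring
  rw [h1]
  exact v.asIdeal.mul_mem_right _ hv

lemma red_cmb (a : Fin d → 𝓞 K) (m : Fin d → ℕ) (v : HeightOneSpectrum (𝓞 K)) (p : ℕ) (hp : p.Prime) (h : Ideal.absNorm v.asIdeal = p) :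
    red v p hp h (cmb a m) = lf (fun l => red v p hp h (a l)) (fun i => (m i : ZMod p)) := by
  unfold cmb
  rw [map_sum]
  show _ = ∑ l, (m l : ZMod p) * red v p hp h (a l)
  apply sum_congr rfl
  intro l _
  rw [map_mul, map_natCast]

/-- the parameters at `v` of the `k`-th symmetric power, twisted -/
noncomputable def fpar (k : ℕ) (a b : Fin d → 𝓞 K) (u : HeightOneSpectrum (𝓞 K) → Fin R → ℂ) (_p : ℕ) (v : HeightOneSpectrum (𝓞 K)) (m : Fin d → ℕ) (z : Fin R × Fin (k + 1)) : ℂ :=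
  u v z.1 * (ev (cosv (cmb a m) (cmb b m) v) ^ (k - (z.2 : ℕ)) * (starRingEnd ℂ) (ev (cosv (cmb a m) (cmb b m) v)) ^ (z.2 : ℕ))

lemma fpar_loc (k : ℕ) (hk : Odd k) (a b : Fin d → 𝓞 K) (u : HeightOneSpectrum (𝓞 K) → Fin R → ℂ) (hu : ∀ v j, ‖u v j‖ ≤ 1) (n D : ℕ) (hn : finrank ℚ K ≤ n)
    (hD : R * (k + 1) ≤ D) (l₀ l₁ : Fin d) (ha0 : a l₀ = 1) (hb0 : b l₀ = 0) (ha1 : a l₁ = 0) (hb1 : b l₁ = 1) (L : ℕ) (hL : 2 ∣ L) :
    Loc d L (D * n) (kfac (fpar k a b u)) := by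
  apply kfac_loc n D L hn
  · rw [Fintype.card_prod, Fintype.card_fin, Fintype.card_fin]
    exact hD
  · intro p _ v m z
    unfold fpar
    rw [norm_mul, norm_mul, norm_pow, norm_pow, RCLike.norm_conj, ev_norm _ (cosv_le _ _ _), one_pow, one_pow, one_mul, mul_one]
    exact hu v z.1
  · intro p _ v hv m
    funext z
    unfold fpar
    rw [cosv_congr _ _ _ _ v (cmb_mod a m p v hv) (cmb_mod b m p v hv)]
  · intro p hp hpL v hv
    have hf : Fact p.Prime := ⟨hp⟩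
    have h2 : p ≠ 2 := by
      rintro rfl
      exact hpL hL
    have e1 : ∀ m ∈ box d p, ∑ z, fpar k a b u p v m z =
        (fun w : Fin d → ZMod p => (fun _ => ∑ j, u v j) w * sy k (cosf p (lf (fun l => red v p hp hv (a l)) w) (lf (fun l => red v p hp hv (b l)) w))) (fun i => (m i : ZMod p)) := by
      intro m _
      rw [Fintype.sum_prod_type]
      show _ = (∑ j, u v j) * sy k _
      rw [sum_mul]
      apply sum_congr rfl
      intro j _
      unfold fpar sy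
      show ∑ y : Fin (k + 1), u v j * (ev (cosv (cmb a m) (cmb b m) v) ^ (k - (y : ℕ)) * (starRingEnd ℂ) (ev (cosv (cmb a m) (cmb b m) v)) ^ (y : ℕ)) = _
      rw [← mul_sum, cosv_red _ _ v p hv, red_cmb, red_cmb]
      congr 1
      exact Fin.sum_univ_eq_sum_range (fun i => ev (cosf p (lf (fun l => red v p hp hv (a l)) (fun i => (m i : ZMod p))) (lf (fun l => red v p hp hv (b l)) (fun i => (m i : ZMod p)))) ^ (k - i) *
        (starRingEnd ℂ) (ev (cosf p (lf (fun l => red v p hp hv (a l)) (fun i => (m i : ZMod p))) (lf (fun l => red v p hp hv (b l)) (fun i => (m i : ZMod p))))) ^ i) (k + 1)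
    rw [sum_congr rfl e1, box_zmod d (fun w : Fin d → ZMod p => (fun _ => ∑ j, u v j) w * sy k (cosf p (lf (fun l => red v p hp hv (a l)) w) (lf (fun l => red v p hp hv (b l)) w)))]
    have hΨ : ∑ z : ZMod p × ZMod p, sy k (cosf p z.1 z.2) = 0 := by
      have e3 : ∀ z : ZMod p × ZMod p, sy k (cosf p z.1 z.2) = (fun n : ℤ => sy k ((n : ℝ) / (2 * Real.sqrt p))) (tq z.1 z.2) := by
        intro z
        rw [cosf_eq]
      rw [sum_congr rfl (fun z _ => e3 z)]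
      exact sum_odd' h2 (fun n : ℤ => sy k ((n : ℝ) / (2 * Real.sqrt p))) (fun n => by
        show sy k (((-n : ℤ) : ℝ) / (2 * Real.sqrt p)) = -sy k ((n : ℝ) / (2 * Real.sqrt p))
        rw [Int.cast_neg, neg_div, sy_odd _ hk])
    refine sum_twoG (lf (fun l => red v p hp hv (a l))) (lf (fun l => red v p hp hv (b l))) (Pi.single l₀ 1) (Pi.single l₁ 1) ?_ ?_ ?_ ?_ (fun _ => ∑ j, u v j) ?_
      (fun x y => sy k (cosf p x y)) hΨ
    · rw [lf_single, ha0, map_one]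
    · rw [lf_single, hb0, map_zero]
    · rw [lf_single, ha1, map_zero]
    · rw [lf_single, hb1, map_one]
    · intro m x y
      rfl

end

end Pool.Agent.X22.KE
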