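import Pool.Agent.X22.HP
import Pool.Agent.X22.ND6

/-!
# The moments of order at most `2 g + 1` of the traces of the hyperelliptic curves of genus `g`
-/

set_option autoImplicit false

namespace Pool.Agent.X22.MO

open Finset Polynomial

/-- averages over surjective homomorphisms -/
lemma avg {V W : Type} [AddCommGroup V] [Fintype V] [AddCommGroup W] [Fintype W] (L : V →+ W) (hL : Function.Surjective L) (c : W) (Ψ : W → ℝ) :
    (Fintype.card W : ℝ) * ∑ v, Ψ (L v + c) = Fintype.card V * ∑ u, Ψ u := by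
  choose σ hσ using hL
  have h1 : ∀ u : W, ∑ v, Ψ (L v + c) = ∑ v, Ψ (u + (L v + c)) := by
    intro u
    rw [← Equiv.sum_comp (Equiv.addLeft (σ u))]
    apply sum_congr rfl
    intro v _
    rw [Equiv.coe_addLeft, map_add, hσ, add_assoc]
  have h2 : (Fintype.card W : ℝ) * ∑ v, Ψ (L v + c) = ∑ u : W, ∑ v, Ψ (u + (L v + c)) := by
    rw [← sum_congr rfl (fun u _ => h1 u), sum_const, card_univ, nsmul_eq_mul]
  rw [h2, sum_comm]
  have h3 : ∀ v : V, ∑ u : W, Ψ (u + (L v + c)) = ∑ u, Ψ u := fun v => Equiv.sum_comp (Equiv.addRight (L v + c)) Ψ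
  rw [sum_congr rfl (fun v _ => h3 v), sum_const, card_univ, nsmul_eq_mul]

section
variable {p : ℕ} [hf : Fact p.Prime]

/-- the values of the polynomials at at most `n` points are independent -/
lemma lag_surj {n : ℕ} (I : Finset (ZMod p)) (hI : I.card ≤ n) (L : (Fin n → ZMod p) →+ ({t // t ∈ I} → ZMod p))
    (hL : ∀ v t, L v t = ∑ j : Fin n, v j * (t : ZMod p) ^ (j : ℕ)) : Function.Surjective L := by
  classical
  intro u
  obtain ⟨r, hr⟩ : ∃ r : ZMod p → ZMod p, ∀ t : {t // t ∈ I}, r t = u t := by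
    refine ⟨fun t => if h : t ∈ I then u ⟨t, h⟩ else 0, fun t => ?_⟩
    simp only [dif_pos t.2]
  obtain ⟨Q, hQ⟩ : ∃ Q, Q = Lagrange.interpolate I id r := ⟨_, rfl⟩
  have hd : Q.degree < I.card := by
    rw [hQ]
    exact Lagrange.degree_interpolate_lt r (Set.injOn_id _)
  refine ⟨fun j => Q.coeff j, ?_⟩
  funext t
  rw [hL]
  have h1 : Q.eval (t : ZMod p) = u t := by
    rw [hQ, ← hr t]
    exact Lagrange.eval_interpolate_at_node r (Set.injOn_id _) t.2
  rw [← h1]
  have h2 : Q.natDegree < n ∨ Q = 0 := by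
    by_cases h0 : Q = 0
    · right
      exact h0
    · left
      rw [degree_eq_natDegree h0] at hd
      have : Q.natDegree < I.card := by exact_mod_cast hd
      omega
  rcases h2 with h2 | h2
  · rw [eval_eq_sum_range' h2, Finset.sum_range]
  · rw [h2]
    simp

/-- comparison with independent random variables -/
lemma compare (h2 : p ≠ 2) {n k : ℕ} (hk : k ≤ n) :
    (p : ℝ) ^ p * ∑ v : Fin n → ZMod p, ((HE.tz v : ℤ) : ℝ) ^ k =
      (-1) ^ k * ((p : ℝ) ^ n * ∑ ω : ZMod p → ZMod p, (∑ t, (quadraticChar (ZMod p) (ω t) : ℝ)) ^ k) := by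
  classical
  have hp0 : (0 : ℝ) < p := by exact_mod_cast hf.out.pos
  have e1 : ∀ v : Fin n → ZMod p, ((HE.tz v : ℤ) : ℝ) ^ k = (-1) ^ k * ∑ x : Fin k → ZMod p, ∏ i, (quadraticChar (ZMod p) ((HE.F (ZMod p) v).eval (x i)) : ℝ) := by
    intro v
    rw [HE.tz_eq h2, Int.cast_neg, Int.cast_sum, neg_pow, Fintype.sum_pow]
  rw [sum_congr rfl (fun v _ => e1 v), ← mul_sum, sum_comm]
  have e2 : ∀ ω : ZMod p → ZMod p, (∑ t, (quadraticChar (ZMod p) (ω t) : ℝ)) ^ k = ∑ x : Fin k → ZMod p, ∏ i, (quadraticChar (ZMod p) (ω (x i)) : ℝ) :=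
    fun ω => Fintype.sum_pow _ _
  rw [sum_congr rfl (fun ω _ => e2 ω), sum_comm (s := (univ : Finset (ZMod p → ZMod p)))]
  rw [mul_left_comm]
  congr 1
  rw [mul_sum, mul_sum]
  apply sum_congr rfl
  intro x _
  obtain ⟨I, hI⟩ : ∃ I, I = univ.image x := ⟨_, rfl⟩
  have hIc : I.card ≤ n := by
    rw [hI]
    refine card_image_le.trans ?_
    rw [card_univ, Fintype.card_fin]
    exact hk
  have hx : ∀ i, x i ∈ I := by
    intro i
    rw [hI]
    exact mem_image_of_mem _ (mem_univ _)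
  obtain ⟨Ψ, hΨ⟩ : ∃ Ψ : ({t // t ∈ I} → ZMod p) → ℝ, ∀ u, Ψ u = ∏ i, (quadraticChar (ZMod p) (u ⟨x i, hx i⟩) : ℝ) := ⟨_, fun _ => rfl⟩
  -- the polynomials
  obtain ⟨L, hL⟩ : ∃ L : (Fin n → ZMod p) →+ ({t // t ∈ I} → ZMod p), ∀ v t, L v t = ∑ j : Fin n, v j * (t : ZMod p) ^ (j : ℕ) := by
    refine ⟨⟨⟨fun v t => ∑ j : Fin n, v j * (t : ZMod p) ^ (j : ℕ), ?_⟩, ?_⟩, fun v t => rfl⟩
    · funext t
      simp
    · intro v v'
      funext t
      simp only [Pi.add_apply, add_mul, sum_add_distrib]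
  have h3 := avg L (lag_surj I hIc L hL) (fun t : {t // t ∈ I} => (t : ZMod p) ^ n) Ψ
  have h4 : ∀ v, Ψ (L v + fun t : {t // t ∈ I} => (t : ZMod p) ^ n) = ∏ i, (quadraticChar (ZMod p) ((HE.F (ZMod p) v).eval (x i)) : ℝ) := by
    intro v
    rw [hΨ]
    apply prod_congr rfl
    intro i _
    rw [Pi.add_apply, hL, HE.F_eval]
  rw [sum_congr rfl (fun v _ => h4 v)] at h3
  -- the functions
  obtain ⟨L', hL'⟩ : ∃ L' : (ZMod p → ZMod p) →+ ({t // t ∈ I} → ZMod p), ∀ v t, L' v t = v t := by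
    refine ⟨⟨⟨fun v t => v t, ?_⟩, ?_⟩, fun v t => rfl⟩
    · funext t
      rfl
    · intro v v'
      funext t
      rfl
  have hs' : Function.Surjective L' := by
    intro u
    refine ⟨fun t => if h : t ∈ I then u ⟨t, h⟩ else 0, ?_⟩
    funext t
    rw [hL']
    simp only [dif_pos t.2]
  have h5 := avg L' hs' 0 Ψ
  have h6 : ∀ v, Ψ (L' v + 0) = ∏ i, (quadraticChar (ZMod p) (v (x i)) : ℝ) := by
    intro v
    rw [hΨ]
    apply prod_congr rfl
    intro i _
    rw [add_zero, hL']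
  rw [sum_congr rfl (fun v _ => h6 v)] at h5
  have hc : (Fintype.card ({t // t ∈ I} → ZMod p) : ℝ) ≠ 0 := by
    exact_mod_cast Fintype.card_ne_zero
  have c1 : (Fintype.card (Fin n → ZMod p) : ℝ) = (p : ℝ) ^ n := by
    rw [Fintype.card_fun, Fintype.card_fin, ZMod.card]
    push_cast
    rfl
  have c2 : (Fintype.card (ZMod p → ZMod p) : ℝ) = (p : ℝ) ^ p := by
    rw [Fintype.card_fun, ZMod.card]
    push_cast
    rfl
  rw [c1] at h3
  rw [c2] at h5
  apply mul_left_cancel₀ hc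
  rw [mul_left_comm, h3, mul_left_comm, ← h5]
  ring

/-- the sums of powers of the character -/
lemma char_pow (h2 : p ≠ 2) (m : ℕ) : ∑ u : ZMod p, (quadraticChar (ZMod p) u : ℝ) ^ m = if m = 0 then (p : ℝ) else if Even m then (p : ℝ) - 1 else 0 := by
  classical
  have h3 : ringChar (ZMod p) ≠ 2 := by
    rw [ZMod.ringChar_zmod_n]
    exact h2
  have hz : ∀ u : ZMod p, u ≠ 0 → (quadraticChar (ZMod p) u : ℝ) ^ 2 = 1 := by
    intro u hu
    have := quadraticChar_sq_one (F := ZMod p) hu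
    exact_mod_cast this
  split_ifs with h0 he
  · subst h0
    simp [ZMod.card]
  · obtain ⟨j, hj⟩ := he
    have hj' : m = 2 * j := by omega
    have hj0 : j ≠ 0 := by omega
    rw [← add_sum_erase univ _ (mem_univ (0 : ZMod p)), quadraticChar_zero]
    have h4 : ∀ u ∈ univ.erase (0 : ZMod p), (quadraticChar (ZMod p) u : ℝ) ^ m = 1 := by
      intro u hu
      rw [hj', pow_mul, hz u (ne_of_mem_erase hu), one_pow]
    rw [sum_congr rfl h4, sum_const, card_erase_of_mem (mem_univ _), card_univ, ZMod.card, nsmul_eq_mul, mul_one, Nat.cast_sub hf.out.one_lt.le,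
      Int.cast_zero, zero_pow h0, zero_add, Nat.cast_one]
  · rw [Nat.not_even_iff_odd] at he
    obtain ⟨j, hj⟩ := he
    have h4 : ∀ u : ZMod p, (quadraticChar (ZMod p) u : ℝ) ^ m = (quadraticChar (ZMod p) u : ℝ) := by
      intro u
      by_cases hu : u = 0
      · rw [hu, quadraticChar_zero, Int.cast_zero, zero_pow h0]
      · rw [hj, pow_succ, pow_mul, hz u hu, one_pow, one_mul]
    rw [sum_congr rfl (fun u _ => h4 u)]
    have := quadraticChar_sum_zero (F := ZMod p) h3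
    exact_mod_cast this

/-- the moments of the sums of `N` independent random variables -/
noncomputable def S (p : ℕ) [Fact p.Prime] (N k : ℕ) : ℝ := ∑ ω : Fin N → ZMod p, (∑ i, (quadraticChar (ZMod p) (ω i) : ℝ)) ^ k

lemma S_succ (N k : ℕ) : S p (N + 1) k = ∑ m ∈ range (k + 1), (∑ u : ZMod p, (quadraticChar (ZMod p) u : ℝ) ^ m) * S p N (k - m) * (k.choose m : ℝ) := by
  unfold S
  rw [← Equiv.sum_comp (Fin.consEquiv (fun _ : Fin (N + 1) => ZMod p)), Fintype.sum_prod_type]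
  have h1 : ∀ (u : ZMod p) (ω : Fin N → ZMod p), (∑ i, (quadraticChar (ZMod p) ((Fin.consEquiv (fun _ : Fin (N + 1) => ZMod p)) (u, ω) i) : ℝ)) ^ k =
      ∑ m ∈ range (k + 1), (quadraticChar (ZMod p) u : ℝ) ^ m * (∑ i, (quadraticChar (ZMod p) (ω i) : ℝ)) ^ (k - m) * (k.choose m : ℝ) := by
    intro u ω
    rw [← add_pow, Fin.sum_univ_succ]
    rfl
  rw [sum_congr rfl (fun u _ => sum_congr rfl (fun ω _ => h1 u ω))]
  simp only [sum_comm (s := (univ : Finset (Fin N → ZMod p)))]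
  rw [sum_comm]
  apply sum_congr rfl
  intro m _
  rw [sum_mul, sum_mul]
  apply sum_congr rfl
  intro u _
  rw [mul_sum, sum_mul]

end

/-- the normalised even moments -/
noncomputable def Me (θ : ℝ) : ℕ → ℕ → ℝ
  | 0, j => if j = 0 then 1 else 0
  | N + 1, j => Me θ N j + θ * ∑ i ∈ range j, ((2 * j).choose (2 * i + 2) : ℝ) * Me θ N (j - 1 - i)

/-- the double factorials -/
noncomputable def df : ℕ → ℝ
  | 0 => 1
  | j + 1 => (2 * j + 1) * df j

lemma df_pos (j : ℕ) : 0 < df j := by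
  induction j with
  | zero => exact one_pos
  | succ j ih =>
    rw [df]
    positivity

lemma sum_even_odd (f : ℕ → ℝ) (j : ℕ) : ∑ m ∈ range (2 * j + 1), f m = f 0 + ∑ i ∈ range j, (f (2 * i + 1) + f (2 * i + 2)) := by
  induction j with
  | zero => simp
  | succ j ih =>
    have e : 2 * (j + 1) + 1 = (2 * j + 1) + 1 + 1 := by ring
    rw [e, sum_range_succ, sum_range_succ, ih, sum_range_succ (f := fun i => f (2 * i + 1) + f (2 * i + 2))]
    have e2 : 2 * j + 1 + 1 = 2 * j + 2 := by ring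
    rw [e2]
    ring

section
variable {p : ℕ} [hf : Fact p.Prime]

lemma S_eq (h2 : p ≠ 2) (N : ℕ) : (∀ j, S p N (2 * j) = (p : ℝ) ^ N * Me (1 - 1 / p) N j) ∧ ∀ j, S p N (2 * j + 1) = 0 := by
  have hp0 : (0 : ℝ) < p := by exact_mod_cast hf.out.pos
  induction N with
  | zero =>
    constructor
    · intro j
      unfold S
      rw [Fintype.sum_unique]
      simp only [univ_eq_empty, sum_empty, pow_zero, one_mul]
      rw [Me]
      by_cases hj : j = 0
      · rw [if_pos hj, hj]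
        simp
      · rw [if_neg hj, zero_pow (by omega)]
    · intro j
      unfold S
      rw [Fintype.sum_unique]
      simp
  | succ N ih =>
    constructor
    · intro j
      rw [S_succ, sum_even_odd]
      have h3 : ∀ i ∈ range j, ((∑ u : ZMod p, (quadraticChar (ZMod p) u : ℝ) ^ (2 * i + 1)) * S p N (2 * j - (2 * i + 1)) * ((2 * j).choose (2 * i + 1) : ℝ) +
          (∑ u : ZMod p, (quadraticChar (ZMod p) u : ℝ) ^ (2 * i + 2)) * S p N (2 * j - (2 * i + 2)) * ((2 * j).choose (2 * i + 2) : ℝ)) =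
          (p : ℝ) ^ (N + 1) * ((1 - 1 / p) * (((2 * j).choose (2 * i + 2) : ℝ) * Me (1 - 1 / p) N (j - 1 - i))) := by
        intro i hi
        rw [mem_range] at hi
        rw [char_pow h2, char_pow h2, if_neg (by omega), if_neg (by rw [Nat.not_even_iff_odd]; exact ⟨i, rfl⟩), zero_mul, zero_mul, zero_add,
          if_neg (by omega), if_pos ⟨i + 1, by ring⟩]
        have e : 2 * j - (2 * i + 2) = 2 * (j - 1 - i) := by omega
        rw [e, ih.1]
        field_simp
        ring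
      rw [sum_congr rfl h3, ← mul_sum, ← mul_sum, char_pow h2, if_pos rfl, Nat.sub_zero, Nat.choose_zero_right, ih.1, Me]
      push_cast
      ring
    · intro j
      rw [S_succ]
      apply sum_eq_zero
      intro m hm
      rw [mem_range] at hm
      rcases Nat.even_or_odd m with he | ho
      · obtain ⟨i, hi⟩ := he
        have e : 2 * j + 1 - m = 2 * (j - i) + 1 := by omega
        rw [e, ih.2]
        ring
      · rw [char_pow h2, if_neg (by rintro rfl; simp at ho), if_neg (Nat.not_even_iff_odd.2 ho)]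
        ring

end

/-- the differences of powers -/
lemma pow_diff (j : ℕ) : ∃ c : ℝ, 0 ≤ c ∧ ∀ (P N : ℝ), 1 ≤ P → 0 ≤ N → N ≤ P → |(N + 1) ^ (j + 1) - N ^ (j + 1) - (j + 1) * N ^ j| ≤ c * (P ^ j / P) := by
  induction j with
  | zero =>
    refine ⟨0, le_rfl, fun P N _ _ _ => ?_⟩
    simp
  | succ j ih =>
    obtain ⟨c, hc, h⟩ := ih
    refine ⟨2 * c + (j + 1), by positivity, fun P N hP hN hNP => ?_⟩
    have h1 := h P N hP hN hNP
    have hP0 : 0 < P := by linarith
    obtain ⟨R, hR⟩ : ∃ R : ℝ, R = (N + 1) ^ (j + 1) - N ^ (j + 1) - (j + 1) * N ^ j := ⟨_, rfl⟩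
    rw [← hR] at h1
    have e : (N + 1) ^ (j + 1 + 1) - N ^ (j + 1 + 1) - ((j + 1 : ℕ) + 1) * N ^ (j + 1) = (N + 1) * R + (j + 1) * N ^ j := by
      rw [hR]
      push_cast
      ring
    rw [e]
    have h2 : |(N + 1) * R| ≤ (2 * P) * (c * (P ^ j / P)) := by
      rw [abs_mul, abs_of_nonneg (by linarith : 0 ≤ N + 1)]
      have : N + 1 ≤ 2 * P := by linarith
      gcongr
    have h3 : |((j : ℝ) + 1) * N ^ j| ≤ (j + 1) * P ^ j := by
      rw [abs_of_nonneg (by positivity)]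
      gcongr
    calc |(N + 1) * R + (j + 1) * N ^ j| ≤ |(N + 1) * R| + |((j : ℝ) + 1) * N ^ j| := abs_add_le _ _
      _ ≤ (2 * P) * (c * (P ^ j / P)) + (j + 1) * P ^ j := add_le_add h2 h3
      _ = (2 * c + (j + 1)) * (P ^ (j + 1) / P) := by
          rw [pow_succ, mul_div_assoc, div_self hP0.ne', mul_one]
          field_simp

set_option maxHeartbeats 4000000 in
/-- the asymptotic formula for the moments -/
lemma Me_asymp (j : ℕ) : ∃ C : ℝ, 0 ≤ C ∧ ∀ (P : ℕ), 1 ≤ P → ∀ i ≤ j, ∀ N : ℕ, N ≤ P →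
    |Me (1 - 1 / (P : ℝ)) N i - df i * (N : ℝ) ^ i| ≤ C * ((P : ℝ) ^ i / P) := by
  induction j with
  | zero =>
    refine ⟨0, le_rfl, fun P hP i hi N hN => ?_⟩
    obtain rfl : i = 0 := by omega
    have h1 : ∀ N : ℕ, Me (1 - 1 / (P : ℝ)) N 0 = 1 := by
      intro N
      induction N with
      | zero => rw [Me, if_pos rfl]
      | succ N ih => rw [Me, ih, range_zero, sum_empty, mul_zero, add_zero]
    rw [h1, df, pow_zero, mul_one, sub_self, abs_zero, zero_mul]
  | succ j ih =>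
    obtain ⟨C, hC, h⟩ := ih
    obtain ⟨c, hc, hpd⟩ := pow_diff j
    obtain ⟨B, hB⟩ : ∃ B : ℝ, B = ∑ i ∈ range (j + 1), df i + C := ⟨_, rfl⟩
    have hdB : ∀ i ≤ j, df i + C ≤ B := by
      intro i hi
      rw [hB]
      have := single_le_sum (f := df) (s := range (j + 1)) (fun a _ => (df_pos a).le) (mem_range.2 (by omega : i < j + 1))
      linarith
    have hB0 : 0 ≤ B := by
      have := hdB 0 (Nat.zero_le _)
      have := df_pos 0
      linarith
    obtain ⟨Q, hQ⟩ : ∃ Q : ℝ, Q = ∑ i ∈ range (j + 1), ((2 * (j + 1)).choose (2 * i + 2) : ℝ) := ⟨_, rfl⟩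
    have hQ0 : 0 ≤ Q := by
      rw [hQ]
      positivity
    refine ⟨C + (((2 * (j + 1)).choose 2 : ℝ) * (C + B) + Q * B + df (j + 1) * c), by
      have := df_pos (j + 1)
      positivity, fun P hP i hi N hN => ?_⟩
    have hP1 : (1 : ℝ) ≤ P := by exact_mod_cast hP
    have hP0 : (0 : ℝ) < P := by linarith
    rcases Nat.lt_or_ge j i with hji | hji
    swap
    · refine (h P hP i hji N hN).trans ?_
      have h1 : 0 ≤ ((2 * (j + 1)).choose 2 : ℝ) * (C + B) + Q * B + df (j + 1) * c := by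
        have := df_pos (j + 1)
        positivity
      have h2 : 0 ≤ (P : ℝ) ^ i / P := by positivity
      nlinarith
    obtain rfl : i = j + 1 := by omega
    -- the sizes
    have hsize : ∀ i ≤ j, ∀ N : ℕ, N ≤ P → |Me (1 - 1 / (P : ℝ)) N i| ≤ B * (P : ℝ) ^ i := by
      intro i hi N hN
      have h1 := h P hP i hi N hN
      have h2 : |df i * (N : ℝ) ^ i| ≤ df i * (P : ℝ) ^ i := by
        have hNP : (N : ℝ) ≤ P := by exact_mod_cast hN
        have := df_pos i
        rw [abs_of_nonneg (by positivity)]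
        gcongr
      have h3 : (P : ℝ) ^ i / P ≤ (P : ℝ) ^ i := div_le_self (by positivity) hP1
      have h4 := abs_sub_abs_le_abs_sub (Me (1 - 1 / (P : ℝ)) N i) (df i * (N : ℝ) ^ i)
      have h5 := hdB i hi
      have h6 : 0 ≤ (P : ℝ) ^ i := by positivity
      nlinarith
    obtain ⟨Δ, hΔ⟩ : ∃ Δ : ℕ → ℝ, ∀ N, Δ N = Me (1 - 1 / (P : ℝ)) N (j + 1) - df (j + 1) * (N : ℝ) ^ (j + 1) := ⟨_, fun _ => rfl⟩
    obtain ⟨C', hC'⟩ : ∃ C' : ℝ, C' = ((2 * (j + 1)).choose 2 : ℝ) * (C + B) + Q * B + df (j + 1) * c := ⟨_, rfl⟩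
    have hC'0 : 0 ≤ C' := by
      rw [hC']
      have := df_pos (j + 1)
      positivity
    have hinc : ∀ N : ℕ, N < P → |Δ (N + 1) - Δ N| ≤ C' * ((P : ℝ) ^ j / P) := by
      intro N hN
      have hNP : (N : ℝ) ≤ P := by exact_mod_cast hN.le
      have hθ0 : 0 ≤ 1 - 1 / (P : ℝ) := by
        rw [sub_nonneg, div_le_one hP0]
        exact hP1
      have hθ1 : 1 - 1 / (P : ℝ) ≤ 1 := by
        have : 0 ≤ 1 / (P : ℝ) := by positivity
        linarith
      have hch : ((2 * (j + 1)).choose 2 : ℝ) * df j = (j + 1) * df (j + 1) := by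
        have e : ((2 * (j + 1)).choose 2 : ℝ) = (j + 1) * (2 * j + 1) := by
          rw [Nat.cast_choose_two]
          push_cast
          ring
        rw [e, df]
        ring
      have e1 : Δ (N + 1) - Δ N = ((2 * (j + 1)).choose 2 : ℝ) * (Me (1 - 1 / (P : ℝ)) N j - df j * (N : ℝ) ^ j) -
          ((2 * (j + 1)).choose 2 : ℝ) * (1 / (P : ℝ) * Me (1 - 1 / (P : ℝ)) N j) +
          (1 - 1 / (P : ℝ)) * ∑ i ∈ range j, ((2 * (j + 1)).choose (2 * (i + 1) + 2) : ℝ) * Me (1 - 1 / (P : ℝ)) N (j + 1 - 1 - (i + 1)) -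
          df (j + 1) * (((N : ℝ) + 1) ^ (j + 1) - (N : ℝ) ^ (j + 1) - (j + 1) * (N : ℝ) ^ j) := by
        rw [hΔ, hΔ, Me, sum_range_succ']
        have e2 : ((2 * (j + 1)).choose 2 : ℝ) * (df j * (N : ℝ) ^ j) = df (j + 1) * ((j + 1) * (N : ℝ) ^ j) := by
          rw [← mul_assoc, hch]
          ring
        simp only [Nat.mul_zero, Nat.zero_add, Nat.add_sub_cancel, Nat.sub_zero]
        push_cast
        linear_combination e2
      have b1 : |((2 * (j + 1)).choose 2 : ℝ) * (Me (1 - 1 / (P : ℝ)) N j - df j * (N : ℝ) ^ j)| ≤ ((2 * (j + 1)).choose 2 : ℝ) * (C * ((P : ℝ) ^ j / P)) := by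
        rw [abs_mul, abs_of_nonneg (Nat.cast_nonneg _)]
        exact mul_le_mul_of_nonneg_left (h P hP j le_rfl N hN.le) (Nat.cast_nonneg _)
      have b2 : |((2 * (j + 1)).choose 2 : ℝ) * (1 / (P : ℝ) * Me (1 - 1 / (P : ℝ)) N j)| ≤ ((2 * (j + 1)).choose 2 : ℝ) * (B * ((P : ℝ) ^ j / P)) := by
        rw [abs_mul, abs_of_nonneg (Nat.cast_nonneg _), abs_mul, abs_of_nonneg (by positivity : 0 ≤ 1 / (P : ℝ))]
        apply mul_le_mul_of_nonneg_left _ (Nat.cast_nonneg _)
        have := hsize j le_rfl N hN.le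
        calc 1 / (P : ℝ) * |Me (1 - 1 / (P : ℝ)) N j| ≤ 1 / (P : ℝ) * (B * (P : ℝ) ^ j) := by gcongr
          _ = _ := by ring
      have b3 : |(1 - 1 / (P : ℝ)) * ∑ i ∈ range j, ((2 * (j + 1)).choose (2 * (i + 1) + 2) : ℝ) * Me (1 - 1 / (P : ℝ)) N (j + 1 - 1 - (i + 1))| ≤
          Q * (B * ((P : ℝ) ^ j / P)) := by
        rw [abs_mul, abs_of_nonneg hθ0]
        have h5 : |∑ i ∈ range j, ((2 * (j + 1)).choose (2 * (i + 1) + 2) : ℝ) * Me (1 - 1 / (P : ℝ)) N (j + 1 - 1 - (i + 1))| ≤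
            ∑ i ∈ range j, ((2 * (j + 1)).choose (2 * (i + 1) + 2) : ℝ) * (B * ((P : ℝ) ^ j / P)) := by
          refine (abs_sum_le_sum_abs _ _).trans (sum_le_sum (fun i hi => ?_))
          rw [mem_range] at hi
          rw [abs_mul, abs_of_nonneg (Nat.cast_nonneg _)]
          apply mul_le_mul_of_nonneg_left _ (Nat.cast_nonneg _)
          refine (hsize (j + 1 - 1 - (i + 1)) (by omega) N hN.le).trans ?_
          apply mul_le_mul_of_nonneg_left _ hB0
          rw [le_div_iff₀ hP0, ← pow_succ]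
          exact pow_le_pow_right₀ hP1 (by omega)
        have h6 : ∑ i ∈ range j, ((2 * (j + 1)).choose (2 * (i + 1) + 2) : ℝ) ≤ Q := by
          rw [hQ, sum_range_succ']
          have : (0 : ℝ) ≤ ((2 * (j + 1)).choose (2 * 0 + 2) : ℝ) := Nat.cast_nonneg _
          linarith
        calc (1 - 1 / (P : ℝ)) * |∑ i ∈ range j, ((2 * (j + 1)).choose (2 * (i + 1) + 2) : ℝ) * Me (1 - 1 / (P : ℝ)) N (j + 1 - 1 - (i + 1))|
            ≤ 1 * (∑ i ∈ range j, ((2 * (j + 1)).choose (2 * (i + 1) + 2) : ℝ) * (B * ((P : ℝ) ^ j / P))) := by gcongr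
          _ = (∑ i ∈ range j, ((2 * (j + 1)).choose (2 * (i + 1) + 2) : ℝ)) * (B * ((P : ℝ) ^ j / P)) := by
              rw [one_mul, sum_mul]
          _ ≤ _ := by
              apply mul_le_mul_of_nonneg_right h6
              positivity
      have b4 : |df (j + 1) * (((N : ℝ) + 1) ^ (j + 1) - (N : ℝ) ^ (j + 1) - (j + 1) * (N : ℝ) ^ j)| ≤ df (j + 1) * (c * ((P : ℝ) ^ j / P)) := by
        rw [abs_mul, abs_of_pos (df_pos _)]
        exact mul_le_mul_of_nonneg_left (hpd P N hP1 (Nat.cast_nonneg _) hNP) (df_pos _).le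
      rw [e1]
      refine (abs_sub _ _).trans ?_
      refine (add_le_add ((abs_add_le _ _).trans (add_le_add (abs_sub _ _) le_rfl)) le_rfl).trans ?_
      rw [hC']
      linarith
    have hfin : ∀ N : ℕ, N ≤ P → |Δ N| ≤ N * (C' * ((P : ℝ) ^ j / P)) := by
      intro N
      induction N with
      | zero =>
        intro _
        rw [hΔ, Me, if_neg (by omega)]
        simp
      | succ N ihN =>
        intro hN
        have h5 := ihN (by omega)
        have h6 := hinc N (by omega)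
        have h7 : |Δ (N + 1)| ≤ |Δ N| + |Δ (N + 1) - Δ N| := by
          have := abs_add_le (Δ N) (Δ (N + 1) - Δ N)
          rwa [add_sub_cancel] at this
        push_cast
        linarith
    have h8 := hfin N hN
    rw [hΔ] at h8
    rw [← hC']
    have hNP : (N : ℝ) ≤ P := by exact_mod_cast hN
    calc |Me (1 - 1 / (P : ℝ)) N (j + 1) - df (j + 1) * (N : ℝ) ^ (j + 1)| ≤ N * (C' * ((P : ℝ) ^ j / P)) := h8
      _ ≤ P * (C' * ((P : ℝ) ^ j / P)) := by gcongr
      _ = C' * ((P : ℝ) ^ (j + 1) / P) := by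
          rw [pow_succ]
          ring
      _ ≤ (C + C') * ((P : ℝ) ^ (j + 1) / P) := by
          apply mul_le_mul_of_nonneg_right _ (by positivity)
          linarith

end Pool.Agent.X22.MO
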