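import Pool.Agent.X22.MO

/-!
# The joint moments of the traces of several hyperelliptic curves
-/

set_option autoImplicit false

namespace Pool.Agent.X22.MO

open Finset Polynomial
open scoped Nat
open Pool.Agent.X22.ND (mean_zmod)
open Pool.Agent.TH894.NE (mean)

/-- the moments of the normal distribution -/
noncomputable def mu (k : ℕ) : ℝ := if Even k then ((k - 1)‼ : ℕ) else 0

lemma df_eq (j : ℕ) : df j = (((2 * j - 1)‼ : ℕ) : ℝ) := by
  induction j with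
  | zero => simp [df]
  | succ j ih =>
    rw [df, ih]
    have e : 2 * (j + 1) - 1 = 2 * j + 1 := by omega
    rw [e, Nat.doubleFactorial_add_one]
    push_cast
    rfl

lemma mu_even (j : ℕ) : mu (2 * j) = df j := by
  rw [mu, if_pos ⟨j, by ring⟩, df_eq]

lemma mu_odd (j : ℕ) : mu (2 * j + 1) = 0 := by
  rw [mu, if_neg (by rw [Nat.not_even_iff_odd]; exact ⟨j, rfl⟩)]

lemma fun_S {p : ℕ} [hf : Fact p.Prime] (k : ℕ) : ∑ ω : ZMod p → ZMod p, (∑ t, (quadraticChar (ZMod p) (ω t) : ℝ)) ^ k = S p p k := by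
  classical
  obtain ⟨e, -⟩ : ∃ e : ZMod p ≃ Fin p, True := ⟨Fintype.equivFinOfCardEq (ZMod.card p), trivial⟩
  unfold S
  rw [← Equiv.sum_comp (Equiv.arrowCongr e (Equiv.refl (ZMod p)))]
  apply sum_congr rfl
  intro ω _
  congr 1
  rw [← Equiv.sum_comp e]
  apply sum_congr rfl
  intro t _
  simp [Equiv.arrowCongr]

/-- the moments of the normalised trace -/
lemma moment (k : ℕ) : ∃ C : ℝ, 0 ≤ C ∧ ∀ (p : ℕ) (hp : p.Prime), p ≠ 2 → ∀ n : ℕ, k ≤ n → haveI : Fact p.Prime := ⟨hp⟩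
    |(∑ v : Fin n → ZMod p, (((HE.tz v : ℤ) : ℝ) / √p) ^ k) / (p : ℝ) ^ n - mu k| ≤ C / p := by
  obtain ⟨C, hC, h⟩ := Me_asymp k
  refine ⟨C, hC, fun p hp' h2 n hkn => ?_⟩
  have hf : Fact p.Prime := ⟨hp'⟩
  have hp0 : (0 : ℝ) < p := by exact_mod_cast hp'.pos
  have hs0 : 0 < √(p : ℝ) := Real.sqrt_pos.2 hp0
  have h3 := compare h2 hkn
  rw [fun_S] at h3
  have h4 : (∑ v : Fin n → ZMod p, (((HE.tz v : ℤ) : ℝ) / √p) ^ k) / (p : ℝ) ^ n = (-1) ^ k * S p p k / ((p : ℝ) ^ p * √p ^ k) := by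
    rw [div_eq_div_iff (pow_pos hp0 n).ne' (by positivity)]
    have e1 : ∑ v : Fin n → ZMod p, (((HE.tz v : ℤ) : ℝ) / √p) ^ k = (∑ v : Fin n → ZMod p, ((HE.tz v : ℤ) : ℝ) ^ k) / √p ^ k := by
      rw [sum_div]
      apply sum_congr rfl
      intro v _
      rw [div_pow]
    rw [e1]
    have e2 : (∑ v : Fin n → ZMod p, ((HE.tz v : ℤ) : ℝ) ^ k) / √(p : ℝ) ^ k * ((p : ℝ) ^ p * √p ^ k) = (p : ℝ) ^ p * ∑ v : Fin n → ZMod p, ((HE.tz v : ℤ) : ℝ) ^ k := by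
      field_simp
    rw [e2, h3]
    ring
  rw [h4]
  rcases Nat.even_or_odd k with he | ho
  · obtain ⟨j, hj⟩ := he
    obtain rfl : k = 2 * j := by omega
    rw [(S_eq h2 p).1 j, mu_even, pow_mul (√(p : ℝ)), Real.sq_sqrt hp0.le, pow_mul (-1 : ℝ), neg_one_sq, one_pow, one_mul]
    have e3 : (p : ℝ) ^ p * Me (1 - 1 / p) p j / ((p : ℝ) ^ p * (p : ℝ) ^ j) - df j = (Me (1 - 1 / p) p j - df j * (p : ℝ) ^ j) / (p : ℝ) ^ j := by
      field_simp
    rw [e3, abs_div, abs_of_pos (pow_pos hp0 j), div_le_iff₀ (pow_pos hp0 j)]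
    refine (h p hp'.one_lt.le j (by omega) p le_rfl).trans (le_of_eq ?_)
    ring
  · obtain ⟨j, rfl⟩ := ho
    rw [(S_eq h2 p).2 j, mul_zero, zero_div, mu_odd, sub_zero, abs_zero]
    positivity

/-- products over blocks of coordinates -/
lemma blocks {R : Type} [Fintype R] {r d : ℕ} {n : Fin r → ℕ} (e : (Σ i, Fin (n i)) ≃ Fin d) (Φ : ∀ i, (Fin (n i) → R) → ℝ) :
    ∑ v : Fin d → R, ∏ i, Φ i (fun j => v (e ⟨i, j⟩)) = ∏ i, ∑ u : Fin (n i) → R, Φ i u := by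
  classical
  obtain ⟨ε, hε⟩ : ∃ ε : (Fin d → R) ≃ (∀ i, Fin (n i) → R), ∀ v i j, ε v i j = v (e ⟨i, j⟩) := by
    refine ⟨⟨fun v i j => v (e ⟨i, j⟩), fun u l => u (e.symm l).1 (e.symm l).2, ?_, ?_⟩, fun v i j => rfl⟩
    · intro v
      funext l
      show v (e ⟨(e.symm l).1, (e.symm l).2⟩) = v l
      rw [Sigma.eta, Equiv.apply_symm_apply]
    · intro u
      funext i j
      show u (e.symm (e ⟨i, j⟩)).1 (e.symm (e ⟨i, j⟩)).2 = u i j
      rw [Equiv.symm_apply_apply]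
  rw [prod_univ_sum, Fintype.piFinset_univ, ← Equiv.sum_comp ε]
  apply sum_congr rfl
  intro v _
  apply prod_congr rfl
  intro i _
  congr 1
  funext j
  rw [hε]

/-- products of close numbers -/
lemma prod_close {ι : Type} (s : Finset ι) (m μ : ι → ℝ) (B η : ℝ) (hB : 1 ≤ B) (hη : 0 ≤ η) (h1 : ∀ i ∈ s, |m i| ≤ B) (h2 : ∀ i ∈ s, |μ i| ≤ B)
    (h3 : ∀ i ∈ s, |m i - μ i| ≤ η) : |∏ i ∈ s, m i - ∏ i ∈ s, μ i| ≤ s.card * B ^ s.card * η := by
  classical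
  induction s using Finset.induction_on with
  | empty => simp
  | insert a s ha ih =>
    rw [prod_insert ha, prod_insert ha, card_insert_of_notMem ha]
    have ih' := ih (fun i hi => h1 i (mem_insert_of_mem hi)) (fun i hi => h2 i (mem_insert_of_mem hi)) (fun i hi => h3 i (mem_insert_of_mem hi))
    have hprod : |∏ i ∈ s, μ i| ≤ B ^ s.card := by
      rw [abs_prod]
      refine (prod_le_prod (fun i _ => abs_nonneg _) (fun i hi => h2 i (mem_insert_of_mem hi))).trans ?_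
      rw [prod_const]
    have e : m a * ∏ i ∈ s, m i - μ a * ∏ i ∈ s, μ i = m a * (∏ i ∈ s, m i - ∏ i ∈ s, μ i) + (m a - μ a) * ∏ i ∈ s, μ i := by ring
    rw [e]
    refine (abs_add_le _ _).trans ?_
    rw [abs_mul, abs_mul]
    have h4 := h1 a (mem_insert_self a s)
    have h5 := h3 a (mem_insert_self a s)
    have hBs : (1 : ℝ) ≤ B ^ s.card := one_le_pow₀ hB
    calc |m a| * |∏ i ∈ s, m i - ∏ i ∈ s, μ i| + |m a - μ a| * |∏ i ∈ s, μ i| ≤ B * (s.card * B ^ s.card * η) + η * B ^ s.card := by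
          gcongr
      _ ≤ B * (s.card * B ^ s.card * η) + η * (B ^ s.card * B) := by
          have : B ^ s.card ≤ B ^ s.card * B := le_mul_of_one_le_right (by positivity) hB
          gcongr
      _ = _ := by
          push_cast
          rw [pow_succ]
          ring

/-- the joint moments -/
lemma joint {r : ℕ} (g : Fin r → ℕ) (k : Fin r → ℕ) (hk : ∀ i, k i ≤ 2 * g i + 1) : ∃ C : ℝ, 0 ≤ C ∧ ∀ (p : ℕ) (hp : p.Prime), p ≠ 2 → ∀ (d : ℕ)
    (e : (Σ i, Fin (2 * g i + 1)) ≃ Fin d), haveI : Fact p.Prime := ⟨hp⟩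
    |mean d p (fun m => ∏ i, (((HE.tz (fun j : Fin (2 * g i + 1) => (m (e ⟨i, j⟩) : ZMod p)) : ℤ) : ℝ) / √p) ^ k i) - ∏ i, mu (k i)| ≤ C / p := by
  classical
  choose C hC h using fun i => moment (k i)
  obtain ⟨C₁, hC₁⟩ : ∃ C₁, C₁ = ∑ i, C i := ⟨_, rfl⟩
  have hC₁0 : 0 ≤ C₁ := by
    rw [hC₁]
    exact sum_nonneg (fun i _ => hC i)
  have hCi : ∀ i, C i ≤ C₁ := by
    intro i
    rw [hC₁]
    exact single_le_sum (fun i _ => hC i) (mem_univ i)
  obtain ⟨B, hB⟩ : ∃ B, B = 1 + ∑ i, |mu (k i)| + C₁ := ⟨_, rfl⟩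
  have hs0 : 0 ≤ ∑ i, |mu (k i)| := sum_nonneg (fun i _ => abs_nonneg _)
  have hB1 : 1 ≤ B := by
    rw [hB]
    linarith
  have hmu : ∀ i, |mu (k i)| ≤ ∑ i, |mu (k i)| := fun i => single_le_sum (f := fun i => |mu (k i)|) (fun i _ => abs_nonneg _) (mem_univ i)
  refine ⟨r * B ^ r * C₁, by positivity, fun p hp' h2 d e => ?_⟩
  have hf : Fact p.Prime := ⟨hp'⟩
  have hp0 : (0 : ℝ) < p := by exact_mod_cast hp'.pos
  have hp1 : (1 : ℝ) ≤ p := by exact_mod_cast hp'.one_lt.le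
  have h3 := mean_zmod d p hp' (fun v => ∏ i, (((HE.tz (fun j : Fin (2 * g i + 1) => v (e ⟨i, j⟩)) : ℤ) : ℝ) / √p) ^ k i)
  rw [blocks e (fun i u => (((HE.tz u : ℤ) : ℝ) / √p) ^ k i)] at h3
  have hd : d = ∑ i, (2 * g i + 1) := by
    have := Fintype.card_congr e
    rw [Fintype.card_sigma, Fintype.card_fin] at this
    rw [← this]
    simp
  have h4 : (∏ i, ∑ u : Fin (2 * g i + 1) → ZMod p, (((HE.tz u : ℤ) : ℝ) / √p) ^ k i) / (p : ℝ) ^ d =
      ∏ i, ((∑ u : Fin (2 * g i + 1) → ZMod p, (((HE.tz u : ℤ) : ℝ) / √p) ^ k i) / (p : ℝ) ^ (2 * g i + 1)) := by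
    rw [prod_div_distrib, prod_pow_eq_pow_sum, ← hd]
  rw [h4] at h3
  have h5 := prod_close univ (fun i => (∑ u : Fin (2 * g i + 1) → ZMod p, (((HE.tz u : ℤ) : ℝ) / √p) ^ k i) / (p : ℝ) ^ (2 * g i + 1)) (fun i => mu (k i))
    B (C₁ / p) hB1 (by positivity) (by
      intro i _
      have h6 := h i p hp' h2 (2 * g i + 1) (hk i)
      have h7 : C i / p ≤ C₁ := (div_le_self (hC i) hp1).trans (hCi i)
      have h8 := abs_sub_abs_le_abs_sub ((∑ u : Fin (2 * g i + 1) → ZMod p, (((HE.tz u : ℤ) : ℝ) / √p) ^ k i) / (p : ℝ) ^ (2 * g i + 1)) (mu (k i))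
      have h9 := hmu i
      rw [hB]
      linarith) (by
      intro i _
      have h9 := hmu i
      rw [hB]
      linarith) (by
      intro i _
      refine (h i p hp' h2 (2 * g i + 1) (hk i)).trans ?_
      have := hCi i
      gcongr)
  rw [card_univ, Fintype.card_fin] at h5
  rw [← h3] at h5
  refine h5.trans (le_of_eq ?_)
  ring

end Pool.Agent.X22.MO
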