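import Pool.Agent.TH894.NE3

set_option autoImplicit false

/-! Averages of nonnegative functions with few frequencies over the vectors of numbers obtained by few changes of digits. -/

namespace Pool.Agent.X22.MT
open Finset Filter
open Pool.Agent.TH894.ND Pool.Agent.TH894.NE
open Pool.Agent.TH894.SM (change change_eq)

/-- **Averages over few-digit changes.** -/
theorem avg_engine (b d j : ℕ) (hb : 2 ≤ b) (hd : 1 ≤ d) (hj1 : 1 ≤ j) (δ : ℝ) (hδ : 0 < δ) : ∃ c : ℝ, 0 < c ∧ ∃ x₀ : ℕ,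
    ∀ (r K : Fin d → ℕ) (x : ℕ), (∀ i, 2 * r i ≤ K i) → x₀ ≤ x → (∀ i, Real.log x ≤ c * r i) →
    ∀ N : Fin d → ℕ, (∀ i, N i < b ^ K i) → ∀ f : Fin d → ℕ → ℕ, (∀ i j, f i j < b ∧ f i j ≠ N i / b ^ j % b) →
    ∀ Q : ℕ, 1 ≤ Q → Nat.Coprime (b * b).factorial Q → ∀ H : (Fin d → ℕ) → ℝ, Per Q H → (∀ n, 0 ≤ H n) →
    (∀ k ∈ box d Q, ∀ i₀, k i₀ ∉ Fr Q (x ^ (2 * j)) → cfd Q H k = 0) →
    ∑ S ∈ Fintype.piFinset (fun i => powersetCard (r i) (range (K i))), H (fun i => change b (K i) (N i) (f i) (S i)) ≤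
      2 * (x : ℝ) ^ δ * mean d Q H * ∏ i, ((K i).choose (r i) : ℝ) := by
  classical
  have hjr : (1 : ℝ) ≤ j := by exact_mod_cast hj1
  have hdr : (1 : ℝ) ≤ d := by exact_mod_cast hd
  obtain ⟨s, E, hs, hE, x₁, hx₁⟩ := par_bad b j hb hj1 (δ / d) (by positivity)
  obtain ⟨Z, hZ⟩ : ∃ Z, Z = b ^ (2 * s) := ⟨_, rfl⟩
  obtain ⟨L, hL⟩ : ∃ L, L = (b * b).factorial := ⟨_, rfl⟩
  have hsr : (1 : ℝ) ≤ s := by exact_mod_cast hs
  have hEr : (1 : ℝ) ≤ E := by exact_mod_cast hE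
  obtain ⟨d₀, hd₀⟩ : ∃ d₀ : ℝ, d₀ = 1 / (((b * b).factorial : ℝ) * ((b ^ (2 * s) : ℕ) : ℝ)) ^ 2 := ⟨_, rfl⟩
  have hd₀0 : 0 < d₀ := by
    rw [hd₀]
    have h1 : (0 : ℝ) < ((b * b).factorial : ℝ) := by exact_mod_cast Nat.factorial_pos _
    have h2 : (0 : ℝ) < ((b ^ (2 * s) : ℕ) : ℝ) := by exact_mod_cast Nat.pow_pos (by omega)
    positivity
  obtain ⟨c₁, hc₁⟩ : ∃ c₁ : ℝ, c₁ = d₀ / (16 * s * E) := ⟨_, rfl⟩
  have hc₁0 : 0 < c₁ := by rw [hc₁]; positivity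
  obtain ⟨c, hc⟩ : ∃ c : ℝ, c = min (c₁ / (16 * j * d)) (1 / (16 * s * j)) := ⟨_, rfl⟩
  have hc0 : 0 < c := by rw [hc]; exact lt_min (by positivity) (by positivity)
  have hcc1 : c ≤ c₁ / (16 * j * d) := by rw [hc]; exact min_le_left _ _
  have hcc2 : c ≤ 1 / (16 * s * j) := by rw [hc]; exact min_le_right _ _
  have hev : ∀ᶠ r : ℕ in atTop, (4 * (r : ℝ) + 2) ≤ Real.exp (c₁ / 2 * r) := by
    have h1 : Tendsto (fun y : ℝ => Real.exp (c₁ / 2 * y) / y ^ 1) atTop atTop :=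
      tendsto_exp_mul_div_rpow_atTop 1 (c₁ / 2) (by positivity) |>.congr' (by
        filter_upwards [eventually_gt_atTop 0] with y hy
        rw [Real.rpow_one, pow_one])
    have h2 := (h1.comp tendsto_natCast_atTop_atTop).eventually (eventually_ge_atTop (6 : ℝ))
    filter_upwards [h2, eventually_ge_atTop 1] with r hr hr1
    have h3 : (1 : ℝ) ≤ r := by exact_mod_cast hr1
    simp only [Function.comp_apply, pow_one] at hr
    rw [le_div_iff₀ (by linarith)] at hr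
    linarith
  obtain ⟨r₀, hr₀⟩ := eventually_atTop.1 hev
  obtain ⟨r₁, hr₁⟩ : ∃ r₁, r₁ = r₀ + 8 * s + 8 := ⟨_, rfl⟩
  obtain ⟨x₂, hx₂⟩ := exists_nat_ge (Real.exp (c * r₁))
  refine ⟨c, hc0, x₁ + x₂ + 2, fun r K x hrK hx hxr N hN f hf Q hQ1 hLQ' H hHQ hH0 hcf => ?_⟩
  have hLQ : Nat.Coprime L Q := by rw [hL]; exact hLQ'
  have hx2r : (2 : ℝ) ≤ x := by exact_mod_cast (by omega : 2 ≤ x)
  have hx0 : (0 : ℝ) < x := by linarith
  have hx1' : (1 : ℝ) ≤ x := by linarith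
  obtain ⟨n, hn1, hn2, hn3, hn4⟩ := hx₁ x (by omega)
  rw [← hZ] at hn3 hn4
  -- the numbers r i
  have hrn : ∀ i, r₁ ≤ r i := by
    intro i
    have h1 : Real.exp (c * r₁) ≤ x := by
      refine hx₂.trans ?_
      exact_mod_cast (by omega : x₂ ≤ x)
    have h2 : c * r₁ ≤ Real.log x := by
      rw [Real.le_log_iff_exp_le hx0]
      exact h1
    have h3 : c * r₁ ≤ c * r i := h2.trans (hxr i)
    exact_mod_cast le_of_mul_le_mul_left h3 hc0
  have hT : ∀ i, n ≤ K i / (2 * s) := by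
    intro i
    have hrr : (r₁ : ℝ) ≤ r i := by exact_mod_cast hrn i
    have hKr : (2 : ℝ) * r i ≤ K i := by exact_mod_cast hrK i
    have hTr : (K i : ℝ) ≤ 4 * s * (K i / (2 * s) : ℕ) := by
      have h1 : K i < 2 * s * (K i / (2 * s) + 1) := Nat.lt_mul_div_succ (K i) (by omega)
      have h2 : (K i : ℝ) < 2 * s * ((K i / (2 * s) : ℕ) + 1) := by exact_mod_cast h1
      have h3 : (r₁ : ℝ) = r₀ + 8 * s + 8 := by rw [hr₁]; push_cast; ring
      have h4 : (0 : ℝ) ≤ r₀ := Nat.cast_nonneg _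
      nlinarith
    have h1 : 4 * (j : ℝ) * Real.log x ≤ r i / (4 * s) := by
      calc 4 * (j : ℝ) * Real.log x ≤ 4 * j * (c * r i) := mul_le_mul_of_nonneg_left (hxr i) (by positivity)
        _ ≤ 4 * j * ((1 / (16 * s * j)) * r i) := by gcongr
        _ = r i / (4 * s) := by field_simp; ring
    have h2 : (r i : ℝ) / (2 * s) ≤ (K i / (2 * s) : ℕ) := by
      rw [div_le_iff₀ (by positivity)]
      nlinarith
    have h3 : (r₁ : ℝ) = r₀ + 8 * s + 8 := by rw [hr₁]; push_cast; ring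
    have h4 : (0 : ℝ) ≤ r₀ := Nat.cast_nonneg _
    have h5 : (2 : ℝ) ≤ r i / (4 * s) := by
      rw [le_div_iff₀ (by positivity)]
      linarith
    have h6 : (r i : ℝ) / (2 * s) = r i / (4 * s) + r i / (4 * s) := by
      field_simp
      ring
    have h7 : (n : ℝ) ≤ (K i / (2 * s) : ℕ) := by linarith
    exact_mod_cast h7
  have hbQ : Nat.Coprime b Q := by
    apply Nat.Coprime.coprime_dvd_left _ hLQ
    rw [hL]
    exact Nat.dvd_factorial (by omega) (by nlinarith)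
  have hZQ : Nat.Coprime Z Q := by rw [hZ]; exact hbQ.pow_left _
  obtain ⟨D, hD⟩ : ∃ D, D = x ^ (2 * j) := ⟨_, rfl⟩
  rw [← hD] at hn3
  obtain ⟨Bs, hBs⟩ : ∃ Bs : Fin d → Finset ℕ, Bs = fun i => (Fr Q D).filter (fun k => 4 * (E * (Ig L Z Q (K i / (2 * s)) k).card) < K i / (2 * s)) := ⟨_, rfl⟩
  have hZ2 : 2 ≤ Z := by
    rw [hZ]
    calc 2 ≤ b := hb
      _ = b ^ 1 := (pow_one b).symm
      _ ≤ b ^ (2 * s) := Nat.pow_le_pow_right (by omega) (by omega)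
  have hBc : ∀ i, ((Bs i).card : ℝ) ≤ (x : ℝ) ^ (δ / d) := by
    intro i
    rw [hBs]
    exact (bad_count L Z E n Q D (K i / (2 * s)) hZ2 hE hQ1 hn1 (hT i) hn3 hLQ hZQ).trans hn4
  obtain ⟨ε, hε⟩ : ∃ ε : ℝ, ε = (x : ℝ) ^ (-(4 * (j : ℝ) * d)) := ⟨_, rfl⟩
  have hε0 : 0 ≤ ε := by rw [hε]; positivity
  have hε1 : ε ≤ 1 := by
    rw [hε]
    apply Real.rpow_le_one_of_one_le_of_nonpos hx1'
    have : 0 ≤ 4 * (j : ℝ) * d := by positivity
    linarith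
  have hgood : ∀ i, ∀ k ∈ Fr Q D, k ∉ Bs i → ‖∑ S ∈ powersetCard (r i) (range (K i)), ee ((k : ℝ) * (change b (K i) (N i) (f i) S : ℕ) / Q)‖ ≤
      ε * ((powersetCard (r i) (range (K i))).card : ℝ) := by
    intro i k hk hkB
    have hrr : r₁ ≤ r i := hrn i
    have hk2 : K i / (2 * s) ≤ 4 * (E * (Ig (b * b).factorial (b ^ (2 * s)) Q (K i / (2 * s)) k).card) := by
      rw [← hL, ← hZ]
      by_contra hcon
      push Not at hcon
      apply hkB
      rw [hBs, mem_filter]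
      exact ⟨hk, hcon⟩
    refine (good_sum b s E hb hs hE d₀ c₁ hd₀ hc₁ (r i) (K i) (by omega) (hrK i) (by omega) (hr₀ (r i) (by omega)) (N i) (hN i) (f i) (hf i)
      Q hQ1 k hk2).trans ?_
    apply mul_le_mul_of_nonneg_right _ (Nat.cast_nonneg _)
    rw [hε, Real.rpow_def_of_pos hx0]
    apply Real.exp_le_exp.2
    have h1 : 4 * (j : ℝ) * d * Real.log x ≤ c₁ / 2 * r i := by
      calc 4 * (j : ℝ) * d * Real.log x ≤ 4 * j * d * (c * r i) := mul_le_mul_of_nonneg_left (hxr i) (by positivity)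
        _ ≤ 4 * j * d * ((c₁ / (16 * j * d)) * r i) := by gcongr
        _ = c₁ / 4 * r i := by field_simp; ring
        _ ≤ c₁ / 2 * r i := by
            apply mul_le_mul_of_nonneg_right _ (Nat.cast_nonneg _)
            linarith
    linarith
  have havg := avgd_le (fun i => powersetCard (r i) (range (K i))) (fun i S => change b (K i) (N i) (f i) S) Q hQ1 H hHQ hH0 (Fr Q D) Bs
    (by
      intro k hk hkF
      obtain ⟨i₀, hi₀⟩ := hkF
      rw [hD] at hi₀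
      exact hcf k hk i₀ hi₀)
    ε hε0 hε1 hgood ((x : ℝ) ^ (δ / d)) hBc
  obtain ⟨C, hC⟩ : ∃ C : ℝ, C = ∏ i, ((K i).choose (r i) : ℝ) := ⟨_, rfl⟩
  have hC0 : 0 ≤ C := by rw [hC]; exact prod_nonneg fun i _ => Nat.cast_nonneg _
  have hcard : ∏ i, (((powersetCard (r i) (range (K i))).card : ℕ) : ℝ) = C := by
    rw [hC]
    exact prod_congr rfl fun i _ => by rw [card_powersetCard, card_range]
  rw [hcard] at havg
  rw [← hC]
  have hBd : ((x : ℝ) ^ (δ / d)) ^ d = (x : ℝ) ^ δ := by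
    rw [← Real.rpow_natCast, ← Real.rpow_mul hx0.le]
    congr 1
    field_simp
  have hFrd : ((Fr Q D).card : ℝ) ^ d * ε ≤ 1 := by
    have h2 : ((Fr Q D).card : ℝ) ≤ ((D * D : ℕ) : ℝ) := by exact_mod_cast Fr_card Q D hQ1
    have h3 : ((D * D : ℕ) : ℝ) = (x : ℝ) ^ (4 * (j : ℝ)) := by
      rw [hD]
      push_cast
      rw [← pow_add, ← Real.rpow_natCast]
      congr 1
      push_cast
      ring
    rw [h3] at h2
    calc ((Fr Q D).card : ℝ) ^ d * ε ≤ ((x : ℝ) ^ (4 * (j : ℝ))) ^ d * ε := by gcongr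
      _ = 1 := by
          rw [hε, ← Real.rpow_natCast ((x : ℝ) ^ (4 * (j : ℝ))), ← Real.rpow_mul hx0.le, ← Real.rpow_add hx0]
          have : 4 * (j : ℝ) * d + -(4 * (j : ℝ) * d) = 0 := by ring
          rw [this, Real.rpow_zero]
  have hxδ1 : (1 : ℝ) ≤ (x : ℝ) ^ δ := Real.one_le_rpow hx1' hδ.le
  have hm0 : 0 ≤ mean d Q H := by
    unfold mean
    exact mul_nonneg (by positivity) (sum_nonneg fun n _ => hH0 n)
  refine havg.trans ?_
  calc (1 / (Q : ℝ) ^ d * ∑ n ∈ box d Q, H n) * ((((x : ℝ) ^ (δ / d)) ^ d + ((Fr Q D).card : ℝ) ^ d * ε) * C) ≤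
        mean d Q H * ((2 * (x : ℝ) ^ δ) * C) := by
        apply mul_le_mul_of_nonneg_left _ hm0
        apply mul_le_mul_of_nonneg_right _ hC0
        rw [hBd]
        linarith
    _ = _ := by ring

end Pool.Agent.X22.MT
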