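import Pool.Agent.X22.MT1
import Pool.Agent.H353R2.Z2

set_option autoImplicit false

/-! Tuples with squarefull product; orthogonality of complex local functions. -/

namespace Pool.Agent.X22.MT
open Finset
open Pool.Agent.TH894.ND Pool.Agent.TH894.NE

/-- every prime factor occurs at least twice -/
def SF (n : ℕ) : Prop := ∀ p : ℕ, p.Prime → p ∣ n → p ^ 2 ∣ n

lemma sf_form {n : ℕ} (hn : n ≠ 0) (h : SF n) : ∃ a c : ℕ, n = c ^ 2 * a ^ 3 := by
  obtain ⟨a, b, hab, ha⟩ := Nat.sq_mul_squarefree n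
  have hb0 : b ≠ 0 := by
    rintro rfl
    simp at hab
    exact hn hab.symm
  have ha0 : a ≠ 0 := by
    rintro rfl
    simp at hab
    exact hn hab.symm
  have hdvd : a ∣ b := by
    have h1 : ∀ p ∈ a.primeFactors, p ∈ b.primeFactors := by
      intro p hp
      rw [Nat.mem_primeFactors] at hp ⊢
      refine ⟨hp.1, ?_, hb0⟩
      by_contra hcon
      have h2 : p ^ 2 ∣ b ^ 2 * a := by
        rw [hab]
        apply h p hp.1
        rw [← hab]
        exact Dvd.dvd.mul_left hp.2.1 _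
      have h3 : Nat.Coprime (p ^ 2) (b ^ 2) := Nat.Coprime.pow 2 2 ((Nat.Prime.coprime_iff_not_dvd hp.1).2 hcon)
      have h4 : p ^ 2 ∣ a := h3.dvd_of_dvd_mul_left h2
      have h5 := ha p (by rw [← sq]; exact h4)
      exact hp.1.one_lt.ne' (Nat.isUnit_iff.1 h5)
    rw [← Nat.prod_primeFactors_of_squarefree ha]
    exact (prod_dvd_prod_of_subset _ _ _ h1).trans (Nat.prod_primeFactors_dvd b)
  obtain ⟨c, hc⟩ := hdvd
  refine ⟨a, c, ?_⟩
  rw [← hab, hc]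
  ring

lemma harm (Y : ℕ) (hY : 1 ≤ Y) : ∑ a ∈ Icc 1 Y, 1 / (a : ℝ) ≤ 1 + Real.log Y := by
  have h := harmonic_le_one_add_log Y
  have h1 : ((harmonic Y : ℚ) : ℝ) = ∑ a ∈ Icc 1 Y, 1 / (a : ℝ) := by
    rw [harmonic_eq_sum_Icc]
    push_cast
    exact sum_congr rfl fun a _ => by rw [one_div]
  rw [← h1]
  exact h

open Classical in
lemma sf_count (Y : ℕ) (hY : 1 ≤ Y) : (((Icc 1 Y).filter SF).card : ℝ) ≤ Real.sqrt Y * (1 + Real.log Y) := by
  have hY0 : (0 : ℝ) < Y := by exact_mod_cast hY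
  have h1 : (Icc 1 Y).filter SF ⊆ (Icc 1 Y).biUnion (fun a => (Icc 1 (Nat.sqrt (Y / a ^ 3))).image (fun c => c ^ 2 * a ^ 3)) := by
    intro n hn
    rw [mem_filter, mem_Icc] at hn
    obtain ⟨a, c, hac⟩ := sf_form (by omega) hn.2
    have ha0 : a ≠ 0 := by
      rintro rfl
      simp at hac
      omega
    have hc0 : c ≠ 0 := by
      rintro rfl
      simp at hac
      omega
    rw [mem_biUnion]
    refine ⟨a, ?_, ?_⟩
    · rw [mem_Icc]
      refine ⟨by omega, ?_⟩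
      calc a ≤ a ^ 3 := Nat.le_self_pow (by norm_num) a
        _ ≤ c ^ 2 * a ^ 3 := Nat.le_mul_of_pos_left _ (by positivity)
        _ ≤ Y := by rw [← hac]; exact hn.1.2
    · rw [mem_image]
      refine ⟨c, ?_, hac.symm⟩
      rw [mem_Icc]
      refine ⟨by omega, ?_⟩
      rw [Nat.le_sqrt, Nat.le_div_iff_mul_le (by positivity), ← sq, ← hac]
      exact hn.1.2
  have h2 : (((Icc 1 Y).filter SF).card : ℝ) ≤ ∑ a ∈ Icc 1 Y, ((Nat.sqrt (Y / a ^ 3) : ℕ) : ℝ) := by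
    have h3 := (card_le_card h1).trans card_biUnion_le
    have h4 : ∀ a ∈ Icc 1 Y, ((Icc 1 (Nat.sqrt (Y / a ^ 3))).image (fun c => c ^ 2 * a ^ 3)).card ≤ Nat.sqrt (Y / a ^ 3) := by
      intro a _
      refine card_image_le.trans ?_
      rw [Nat.card_Icc, Nat.add_sub_cancel]
    exact_mod_cast h3.trans (sum_le_sum h4)
  refine h2.trans ?_
  calc ∑ a ∈ Icc 1 Y, ((Nat.sqrt (Y / a ^ 3) : ℕ) : ℝ) ≤ ∑ a ∈ Icc 1 Y, Real.sqrt Y * (1 / (a : ℝ)) := by
        refine sum_le_sum fun a ha => ?_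
        rw [mem_Icc] at ha
        have ha0 : (0 : ℝ) < a := by exact_mod_cast (by omega : 0 < a)
        have ha1 : (1 : ℝ) ≤ a := by exact_mod_cast ha.1
        have h5 : ((Nat.sqrt (Y / a ^ 3) : ℕ) : ℝ) ≤ Real.sqrt ((Y / a ^ 3 : ℕ) : ℝ) := Real.nat_sqrt_le_real_sqrt
        have h6 : ((Y / a ^ 3 : ℕ) : ℝ) ≤ (Y : ℝ) / a ^ 3 := by
          have := Nat.cast_div_le (α := ℝ) (m := Y) (n := a ^ 3)
          push_cast at this
          exact this
        have h7 : (Y : ℝ) / a ^ 3 ≤ Y * (1 / (a : ℝ)) ^ 2 := by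
          rw [div_eq_mul_one_div, one_div_pow]
          apply mul_le_mul_of_nonneg_left _ hY0.le
          apply one_div_le_one_div_of_le (by positivity)
          calc (a : ℝ) ^ 2 = (a : ℝ) ^ 2 * 1 := by ring
            _ ≤ (a : ℝ) ^ 2 * a := by gcongr
            _ = (a : ℝ) ^ 3 := by ring
        calc ((Nat.sqrt (Y / a ^ 3) : ℕ) : ℝ) ≤ Real.sqrt (Y * (1 / (a : ℝ)) ^ 2) := h5.trans (Real.sqrt_le_sqrt (h6.trans h7))
          _ = Real.sqrt Y * (1 / (a : ℝ)) := by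
              rw [Real.sqrt_mul hY0.le, Real.sqrt_sq (by positivity)]
    _ = Real.sqrt Y * ∑ a ∈ Icc 1 Y, 1 / (a : ℝ) := by rw [mul_sum]
    _ ≤ _ := mul_le_mul_of_nonneg_left (harm Y hY) (Real.sqrt_nonneg _)

open Classical in
/-- the number of the tuples with squarefull product -/
lemma count (k : ℕ) (hk : 1 ≤ k) (ε : ℝ) (hε : 0 < ε) : ∃ C : ℝ, 0 < C ∧ ∀ x : ℕ, 1 ≤ x →
    (((Fintype.piFinset (fun _ : Fin k => Icc 1 x ×ˢ Icc 1 x)).filter (fun g => SF (∏ i, (g i).1 * (g i).2))).card : ℝ) ≤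
      C * (x : ℝ) ^ ((k : ℝ) + ε) := by
  have hkr : (1 : ℝ) ≤ k := by exact_mod_cast hk
  obtain ⟨D, hD0, hD⟩ := H353.divisor_bound_real (ε / (8 * k ^ 2)) (by positivity)
  obtain ⟨E, hE⟩ : ∃ E : ℝ, E = (1 + 2 * k) * (1 + 2 / ε) := ⟨_, rfl⟩
  have hE0 : 0 < E := by rw [hE]; positivity
  refine ⟨D ^ (2 * k) * E, by positivity, fun x hx => ?_⟩
  have hxr : (1 : ℝ) ≤ x := by exact_mod_cast hx
  have hx0 : (0 : ℝ) < x := by linarith
  obtain ⟨T, hT⟩ : ∃ T, T = (Fintype.piFinset (fun _ : Fin k => Icc 1 x ×ˢ Icc 1 x)).filter (fun g => SF (∏ i, (g i).1 * (g i).2)) := ⟨_, rfl⟩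
  rw [← hT]
  obtain ⟨Y, hY⟩ : ∃ Y, Y = x ^ (2 * k) := ⟨_, rfl⟩
  have hY1 : 1 ≤ Y := by rw [hY]; exact Nat.one_le_pow _ _ (by omega)
  have hmaps : ∀ g ∈ T, (∏ i, (g i).1 * (g i).2) ∈ (Icc 1 Y).filter SF := by
    intro g hg
    rw [hT, mem_filter, Fintype.mem_piFinset] at hg
    rw [mem_filter, mem_Icc]
    have h1 : ∀ i, 1 ≤ (g i).1 ∧ (g i).1 ≤ x ∧ 1 ≤ (g i).2 ∧ (g i).2 ≤ x := by
      intro i
      have := hg.1 i
      rw [mem_product, mem_Icc, mem_Icc] at this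
      exact ⟨this.1.1, this.1.2, this.2.1, this.2.2⟩
    refine ⟨⟨?_, ?_⟩, hg.2⟩
    · apply Nat.one_le_iff_ne_zero.2
      rw [prod_ne_zero_iff]
      intro i _
      have := h1 i
      exact Nat.mul_ne_zero (by omega) (by omega)
    · calc ∏ i, (g i).1 * (g i).2 ≤ ∏ _i : Fin k, x * x := prod_le_prod' fun i _ => Nat.mul_le_mul (h1 i).2.1 (h1 i).2.2.2
        _ = Y := by
            rw [prod_const, card_univ, Fintype.card_fin, hY, ← sq, ← pow_mul]
  rw [card_eq_sum_card_fiberwise hmaps]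
  push_cast
  have hfib : ∀ n ∈ (Icc 1 Y).filter SF, ((T.filter (fun g => (∏ i, (g i).1 * (g i).2) = n)).card : ℝ) ≤ D ^ (2 * k) * (x : ℝ) ^ (ε / 2) := by
    intro n hn
    rw [mem_filter, mem_Icc] at hn
    have hn0 : n ≠ 0 := by omega
    have h1 : T.filter (fun g => (∏ i, (g i).1 * (g i).2) = n) ⊆ Fintype.piFinset (fun _ : Fin k => n.divisors ×ˢ n.divisors) := by
      intro g hg
      rw [mem_filter] at hg
      rw [Fintype.mem_piFinset]
      intro i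
      have h2 : (g i).1 * (g i).2 ∣ n := by
        rw [← hg.2]
        exact dvd_prod_of_mem (fun i => (g i).1 * (g i).2) (mem_univ i)
      rw [mem_product, Nat.mem_divisors, Nat.mem_divisors]
      exact ⟨⟨(dvd_mul_right _ _).trans h2, hn0⟩, ⟨(dvd_mul_left _ _).trans h2, hn0⟩⟩
    have h2 := card_le_card h1
    rw [Fintype.card_piFinset_const, card_product, ← sq, ← pow_mul] at h2
    have h3 := hD n hn0
    have h4 : ((T.filter (fun g => (∏ i, (g i).1 * (g i).2) = n)).card : ℝ) ≤ (n.divisors.card : ℝ) ^ (2 * k) := by exact_mod_cast h2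
    refine h4.trans ?_
    have hn1 : (n : ℝ) ≤ (x : ℝ) ^ (2 * k) := by
      have := hn.1.2
      rw [hY] at this
      exact_mod_cast this
    calc (n.divisors.card : ℝ) ^ (2 * k) ≤ (D * (n : ℝ) ^ (ε / (8 * k ^ 2))) ^ (2 * k) := pow_le_pow_left₀ (Nat.cast_nonneg _) h3 _
      _ ≤ (D * ((x : ℝ) ^ (2 * k)) ^ (ε / (8 * k ^ 2))) ^ (2 * k) := by
          gcongr
      _ = D ^ (2 * k) * (x : ℝ) ^ (ε / 2) := by
          rw [mul_pow, ← Real.rpow_natCast (x : ℝ) (2 * k), ← Real.rpow_mul hx0.le, ← Real.rpow_natCast ((x : ℝ) ^ _) (2 * k), ← Real.rpow_mul hx0.le]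
          congr 2
          push_cast
          field_simp
          ring
  refine (sum_le_sum hfib).trans ?_
  rw [sum_const, nsmul_eq_mul]
  have h5 := sf_count Y hY1
  have h6 : Real.sqrt Y = (x : ℝ) ^ (k : ℝ) := by
    rw [hY]
    push_cast
    rw [mul_comm 2 k, pow_mul, Real.sqrt_sq (by positivity), Real.rpow_natCast]
  have h7 : 1 + Real.log Y ≤ E * (x : ℝ) ^ (ε / 2) := by
    rw [hY]
    push_cast
    rw [Real.log_pow]
    have h8 := Real.log_le_rpow_div (Nat.cast_nonneg x) (show (0 : ℝ) < ε / 2 by positivity)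
    have h9 : (1 : ℝ) ≤ (x : ℝ) ^ (ε / 2) := Real.one_le_rpow hxr (by positivity)
    have h10 : (x : ℝ) ^ (ε / 2) / (ε / 2) = 2 / ε * (x : ℝ) ^ (ε / 2) := by
      field_simp
    rw [h10] at h8
    push_cast
    have hl0 : 0 ≤ Real.log x := Real.log_nonneg hxr
    have h11 : 0 < 2 / ε := by positivity
    calc 1 + 2 * (k : ℝ) * Real.log x ≤ (x : ℝ) ^ (ε / 2) + 2 * k * (2 / ε * (x : ℝ) ^ (ε / 2)) := by gcongr
      _ ≤ (1 + 2 * k) * (1 + 2 / ε) * (x : ℝ) ^ (ε / 2) := by nlinarith [mul_nonneg (mul_nonneg (by norm_num : (0:ℝ) ≤ 2) (Nat.cast_nonneg k : (0:ℝ) ≤ k)) (by linarith : (0:ℝ) ≤ (x : ℝ) ^ (ε / 2)), mul_nonneg h11.le (by linarith : (0:ℝ) ≤ (x : ℝ) ^ (ε / 2))]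
      _ = E * (x : ℝ) ^ (ε / 2) := by rw [hE]
  rw [h6] at h5
  have hpk : 0 < (x : ℝ) ^ (k : ℝ) := by positivity
  calc (((Icc 1 Y).filter SF).card : ℝ) * (D ^ (2 * k) * (x : ℝ) ^ (ε / 2)) ≤ ((x : ℝ) ^ (k : ℝ) * (E * (x : ℝ) ^ (ε / 2))) * (D ^ (2 * k) * (x : ℝ) ^ (ε / 2)) := by
        apply mul_le_mul_of_nonneg_right _ (by positivity)
        exact h5.trans (mul_le_mul_of_nonneg_left h7 hpk.le)
    _ = D ^ (2 * k) * E * ((x : ℝ) ^ (k : ℝ) * ((x : ℝ) ^ (ε / 2) * (x : ℝ) ^ (ε / 2))) := by ring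
    _ = _ := by
        rw [← Real.rpow_add hx0, ← Real.rpow_add hx0]
        congr 2
        ring

/-- the complex function depends on the residues modulo `q` only -/
def PerC {d : ℕ} (q : ℕ) (H : (Fin d → ℕ) → ℂ) : Prop := ∀ n, H n = H (fun i => n i % q)

lemma PerC.congr {d q : ℕ} {H : (Fin d → ℕ) → ℂ} (h : PerC q H) {n m : Fin d → ℕ} (hnm : ∀ i, n i % q = m i % q) : H n = H m := by
  rw [h n, h m]
  congr 1
  funext i
  exact hnm i

lemma PerC.of_dvd {d q Q : ℕ} (hq : q ∣ Q) {H : (Fin d → ℕ) → ℂ} (h : PerC q H) : PerC Q H := by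
  intro n
  apply h.congr
  intro i
  exact (Nat.mod_mod_of_dvd (n i) hq).symm

lemma two_modC {d : ℕ} (u v : ℕ) (hu : 1 ≤ u) (hv : 1 ≤ v) (huv : Nat.Coprime u v) (A B : (Fin d → ℕ) → ℂ) (hA : PerC u A) (hB : PerC v B) :
    ∑ n ∈ box d (u * v), A n * B n = (∑ n ∈ box d u, A n) * ∑ n ∈ box d v, B n := by
  classical
  rw [sum_mul_sum, ← sum_product']
  obtain ⟨φ, hφ⟩ : ∃ φ : (Fin d → ℕ) → (Fin d → ℕ) × (Fin d → ℕ), φ = fun n => (fun i => n i % u, fun i => n i % v) := ⟨_, rfl⟩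
  have hmaps : ∀ n ∈ box d (u * v), φ n ∈ box d u ×ˢ box d v := by
    intro n _
    rw [hφ, mem_product, mem_box, mem_box]
    exact ⟨fun i => Nat.mod_lt _ (by omega), fun i => Nat.mod_lt _ (by omega)⟩
  have hinj : Set.InjOn φ (box d (u * v) : Set (Fin d → ℕ)) := by
    intro n hn n' hn' h
    rw [mem_coe, mem_box] at hn hn'
    rw [hφ] at h
    have h1 := (Prod.mk.injEq _ _ _ _ ▸ h : (fun i => n i % u) = (fun i => n' i % u) ∧ (fun i => n i % v) = (fun i => n' i % v))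
    funext i
    have h2 : n i ≡ n' i [MOD u] := congrFun h1.1 i
    have h3 : n i ≡ n' i [MOD v] := congrFun h1.2 i
    have h4 : n i ≡ n' i [MOD (u * v)] := (Nat.modEq_and_modEq_iff_modEq_mul huv).1 ⟨h2, h3⟩
    exact Nat.ModEq.eq_of_lt_of_lt h4 (hn i) (hn' i)
  have hsurj : Set.SurjOn φ (box d (u * v) : Set (Fin d → ℕ)) ((box d u ×ˢ box d v : Finset _) : Set ((Fin d → ℕ) × (Fin d → ℕ))) := by
    apply surjOn_of_injOn_of_card_le φ (fun n hn => hmaps n hn) hinj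
    rw [card_product, card_box, card_box, card_box, mul_pow]
  refine sum_nbij φ hmaps hinj hsurj ?_
  intro n _
  rw [hφ]
  show A n * B n = A (fun i => n i % u) * B (fun i => n i % v)
  rw [← hA n, ← hB n]

lemma box_mul {d : ℕ} (q t : ℕ) (hq : 1 ≤ q) (ht : 1 ≤ t) (H : (Fin d → ℕ) → ℂ) (hH : PerC q H) :
    ∑ n ∈ box d (q * t), H n = (t : ℂ) ^ d * ∑ n ∈ box d q, H n := by
  classical
  obtain ⟨φ, hφ⟩ : ∃ φ : (Fin d → ℕ) → (Fin d → ℕ) × (Fin d → ℕ), φ = fun n => (fun i => n i / q, fun i => n i % q) := ⟨_, rfl⟩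
  have hmaps : ∀ n ∈ box d (q * t), φ n ∈ box d t ×ˢ box d q := by
    intro n hn
    rw [mem_box] at hn
    rw [hφ, mem_product, mem_box, mem_box]
    exact ⟨fun i => Nat.div_lt_of_lt_mul (hn i), fun i => Nat.mod_lt _ (by omega)⟩
  have hinj : Set.InjOn φ (box d (q * t) : Set (Fin d → ℕ)) := by
    intro n _ n' _ h
    rw [hφ] at h
    have h1 := (Prod.mk.injEq _ _ _ _ ▸ h : (fun i => n i / q) = (fun i => n' i / q) ∧ (fun i => n i % q) = (fun i => n' i % q))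
    funext i
    rw [← Nat.div_add_mod (n i) q, ← Nat.div_add_mod (n' i) q, congrFun h1.1 i, congrFun h1.2 i]
  have hsurj : Set.SurjOn φ (box d (q * t) : Set (Fin d → ℕ)) ((box d t ×ˢ box d q : Finset _) : Set ((Fin d → ℕ) × (Fin d → ℕ))) := by
    apply surjOn_of_injOn_of_card_le φ (fun n hn => hmaps n hn) hinj
    rw [card_product, card_box, card_box, card_box, mul_pow, mul_comm]
  have h1 : ∑ n ∈ box d (q * t), H n = ∑ z ∈ box d t ×ˢ box d q, H z.2 := by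
    refine sum_nbij φ hmaps hinj hsurj ?_
    intro n _
    rw [hφ]
    exact hH n
  rw [h1, sum_product]
  simp only
  rw [sum_const, card_box, nsmul_eq_mul]
  push_cast
  rfl

/-- orthogonality -/
lemma vanish {d : ℕ} (Q p : ℕ) (hQ : 1 ≤ Q) (hp : p.Prime) (hpQ : p ∣ Q) (A B : (Fin d → ℕ) → ℂ) (hA : PerC p A) (hA0 : ∑ n ∈ box d p, A n = 0)
    (hB : ∀ Q', (∀ e, e ∣ Q → e.Coprime p → e ∣ Q') → PerC Q' B) : ∑ n ∈ box d Q, A n * B n = 0 := by
  obtain ⟨a, Q', hQ', hQe⟩ := Nat.exists_eq_pow_mul_and_not_dvd (by omega : Q ≠ 0) p hp.ne_one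
  have ha : a ≠ 0 := by
    rintro rfl
    rw [pow_zero, one_mul] at hQe
    exact hQ' (hQe ▸ hpQ)
  have hp1 := hp.one_lt
  have hcop : Nat.Coprime (p ^ a) Q' := Nat.Coprime.pow_left a ((Nat.Prime.coprime_iff_not_dvd hp).2 hQ')
  have hQ'1 : 1 ≤ Q' := by
    apply Nat.one_le_iff_ne_zero.2
    rintro rfl
    exact hQ' (dvd_zero p)
  rw [hQe, two_modC (p ^ a) Q' (Nat.one_le_pow _ _ (by omega)) hQ'1 hcop A B (hA.of_dvd (dvd_pow_self p ha)) (hB Q' ?_)]
  · obtain ⟨a', rfl⟩ := Nat.exists_eq_succ_of_ne_zero ha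
    rw [pow_succ', box_mul p (p ^ a') (by omega) (Nat.one_le_pow _ _ (by omega)) A hA, hA0, mul_zero, zero_mul]
  · intro e he hep
    rw [hQe] at he
    exact (hep.pow_right a).dvd_of_dvd_mul_left he

/-- the Fourier coefficients at large denominators -/
lemma fourier_zero {d : ℕ} (Q M D : ℕ) (hQ : 1 ≤ Q) (hM1 : 1 ≤ M) (hMD : M ≤ D) (i₀ : Fin d) (G : (Fin d → ℕ) → ℂ)
    (hG : ∀ n, G (Function.update n i₀ ((n i₀ + M) % Q)) = G n) (k : Fin d → ℕ) (hk : k ∈ box d Q) (hkF : k i₀ ∉ Fr Q D) :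
    ∑ n ∈ box d Q, G n * ch' Q k n = 0 := by
  classical
  have hQr : (Q : ℝ) ≠ 0 := by exact_mod_cast (by omega : Q ≠ 0)
  have hnd : ¬ Q ∣ k i₀ * M := by
    intro h
    apply hkF
    unfold Fr
    rw [mem_filter, mem_range]
    exact ⟨mem_box.1 hk i₀, M, hM1, hMD, h⟩
  have h5 := shift_box Q M hQ i₀ (fun n => G n * ch' Q k n)
  have h6 : ∀ n ∈ box d Q, G (Function.update n i₀ ((n i₀ + M) % Q)) * ch' Q k (Function.update n i₀ ((n i₀ + M) % Q)) =
      ee (-((k i₀ : ℝ) * M / Q)) * (G n * ch' Q k n) := by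
    intro n _
    have e2 : ch' Q k (Function.update n i₀ ((n i₀ + M) % Q)) = ee (-((k i₀ : ℝ) * M / Q)) * ch' Q k n := by
      unfold ch'
      rw [← mul_prod_erase univ _ (mem_univ i₀), ← mul_prod_erase univ (fun i => ee (-((k i : ℝ) * n i / Q))) (mem_univ i₀), ← mul_assoc]
      congr 1
      · rw [Function.update_self, ← ee_add]
        obtain ⟨v, hv⟩ : ∃ v, n i₀ + M = (n i₀ + M) % Q + Q * v := ⟨_, (Nat.mod_add_div (n i₀ + M) Q).symm⟩
        have hvr : (n i₀ : ℝ) + M = (((n i₀ + M) % Q : ℕ) : ℝ) + Q * v := by exact_mod_cast hv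
        have e3 : -((k i₀ : ℝ) * (((n i₀ + M) % Q : ℕ) : ℝ) / Q) =
            (-((k i₀ : ℝ) * M / Q) + -((k i₀ : ℝ) * n i₀ / Q)) + (((k i₀ : ℤ) * (v : ℤ) : ℤ) : ℝ) := by
          have e4 : (((n i₀ + M) % Q : ℕ) : ℝ) = (n i₀ : ℝ) + M - Q * v := by linarith
          rw [e4]
          push_cast
          field_simp
          ring
        rw [e3, ee_add, ee_int, mul_one]
      · refine prod_congr rfl fun i hi => ?_
        rw [mem_erase] at hi
        rw [Function.update_of_ne hi.1]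
    rw [hG, e2]
    ring
  rw [sum_congr rfl h6, ← mul_sum] at h5
  have h7 : ee (-((k i₀ : ℝ) * M / Q)) ≠ 1 := by
    intro h
    apply hnd
    have h8 := orth Q hQ (-((k i₀ * M : ℕ) : ℤ))
    have h9 : ∀ l ∈ range Q, ee ((l : ℝ) * ((-((k i₀ * M : ℕ) : ℤ) : ℤ) : ℝ) / Q) = 1 := by
      intro l _
      have e1 : (l : ℝ) * ((-((k i₀ * M : ℕ) : ℤ) : ℤ) : ℝ) / Q = (l : ℝ) * (-((k i₀ : ℝ) * M / Q)) := by
        push_cast
        ring
      rw [e1]
      have : ∀ m : ℕ, ee ((m : ℝ) * (-((k i₀ : ℝ) * M / Q))) = 1 := by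
        intro m
        induction m with
        | zero => simp [ee_zero]
        | succ m ih =>
            have e2 : (((m + 1 : ℕ) : ℝ)) * (-((k i₀ : ℝ) * M / Q)) = (m : ℝ) * (-((k i₀ : ℝ) * M / Q)) + -((k i₀ : ℝ) * M / Q) := by
              push_cast
              ring
            rw [e2, ee_add, ih, h, mul_one]
      exact this l
    rw [sum_congr rfl h9, sum_const, card_range, nsmul_eq_mul, mul_one] at h8
    by_contra hcon
    have h10 : ¬ ((Q : ℤ) ∣ -((k i₀ * M : ℕ) : ℤ)) := by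
      rw [Int.dvd_neg, Int.natCast_dvd_natCast]
      exact hcon
    rw [if_neg h10] at h8
    have : (Q : ℂ) ≠ 0 := by exact_mod_cast (by omega : Q ≠ 0)
    exact this h8
  have h11 : (ee (-((k i₀ : ℝ) * M / Q)) - 1) * ∑ n ∈ box d Q, G n * ch' Q k n = 0 := by
    rw [sub_mul, one_mul, h5, sub_self]
  rcases mul_eq_zero.1 h11 with h12 | h12
  · exact absurd (sub_eq_zero.1 h12) h7
  · exact h12

end Pool.Agent.X22.MT
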