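import Pool.Agent.X22.MT2

set_option autoImplicit false

/-! Sums of multiplicative functions at few-digit vectors: one length. -/

namespace Pool.Agent.X22.MT
open Finset
open Pool.Agent.TH894.ND Pool.Agent.TH894.NE
open Pool.Agent.TH894.SM (change)

/-- the numbers up to `x` coprime to `L` -/
def nn (L x : ℕ) : Finset ℕ := (Icc 1 x).filter (fun n => n.Coprime L)

lemma mem_nn {L x n : ℕ} : n ∈ nn L x ↔ (1 ≤ n ∧ n ≤ x) ∧ n.Coprime L := by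
  unfold nn
  rw [mem_filter, mem_Icc]

lemma nn_dvd {L x n e : ℕ} (hn : n ∈ nn L x) (he : e ∣ n) : e ∈ nn L x := by
  rw [mem_nn] at hn ⊢
  have h1 : 1 ≤ e := Nat.pos_of_dvd_of_pos he (by omega)
  have h2 := Nat.le_of_dvd (by omega) he
  exact ⟨⟨h1, by omega⟩, Nat.Coprime.coprime_dvd_left he hn.2⟩

/-- a multiplicative family of local functions with mean zero at the primes -/
structure Fam (d L x : ℕ) (B : ℝ) (F : ℕ → (Fin d → ℕ) → ℂ) : Prop where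
  per : ∀ n ∈ nn L x, PerC n (F n)
  mul : ∀ p n : ℕ, p.Prime → ¬ p ∣ n → p * n ∈ nn L x → ∀ m, F (p * n) m = F p m * F n m
  bnd : ∀ n ∈ nn L x, ∀ m, ‖F n m‖ ≤ B
  mean : ∀ p ∈ nn L x, p.Prime → ∑ m ∈ box d p, F p m = 0

lemma PerC.mul {d q : ℕ} {G H : (Fin d → ℕ) → ℂ} (hG : PerC q G) (hH : PerC q H) : PerC q (fun n => G n * H n) := by
  intro n
  show G n * H n = G (fun i => n i % q) * H (fun i => n i % q)
  rw [← hG n, ← hH n]

lemma PerC.const {d q : ℕ} (c : ℂ) : PerC (d := d) q (fun _ => c) := fun _ => rfl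

lemma PerC.conj {d q : ℕ} {G : (Fin d → ℕ) → ℂ} (hG : PerC q G) : PerC q (fun n => (starRingEnd ℂ) (G n)) := by
  intro n
  show (starRingEnd ℂ) (G n) = (starRingEnd ℂ) (G (fun i => n i % q))
  rw [← hG n]

lemma PerC.prod {d q : ℕ} {ι : Type*} (S : Finset ι) {G : ι → (Fin d → ℕ) → ℂ} (hG : ∀ i ∈ S, PerC q (G i)) : PerC q (fun n => ∏ i ∈ S, G i n) := by
  intro n
  exact prod_congr rfl fun i hi => hG i hi n

section
variable {d L x : ℕ} {B : ℝ} {F : ℕ → (Fin d → ℕ) → ℂ} (w : ℕ → ℂ)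

/-- the product for a pair -/
noncomputable def TT (F : ℕ → (Fin d → ℕ) → ℂ) (w : ℕ → ℂ) (a : ℕ × ℕ) (m : Fin d → ℕ) : ℂ :=
  (w a.1 * F a.1 m) * (starRingEnd ℂ) (w a.2 * F a.2 m)

lemma TT_per (a : ℕ × ℕ) (e : ℕ) (h1 : PerC e (F a.1)) (h2 : PerC e (F a.2)) : PerC e (TT F w a) :=
  ((PerC.const (w a.1)).mul h1).mul ((PerC.const (w a.2)).mul h2).conj

lemma TT_norm (a : ℕ × ℕ) (m : Fin d → ℕ) (hw : ∀ n, ‖w n‖ ≤ 1) (hB : 0 ≤ B) (h1 : ‖F a.1 m‖ ≤ B) (h2 : ‖F a.2 m‖ ≤ B) : ‖TT F w a m‖ ≤ B ^ 2 := by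
  unfold TT
  rw [norm_mul, RCLike.norm_conj, norm_mul, norm_mul]
  have h3 : ‖w a.1‖ * ‖F a.1 m‖ ≤ B := by
    calc ‖w a.1‖ * ‖F a.1 m‖ ≤ 1 * B := mul_le_mul (hw _) h1 (norm_nonneg _) zero_le_one
      _ = B := one_mul B
  have h4 : ‖w a.2‖ * ‖F a.2 m‖ ≤ B := by
    calc ‖w a.2‖ * ‖F a.2 m‖ ≤ 1 * B := mul_le_mul (hw _) h2 (norm_nonneg _) zero_le_one
      _ = B := one_mul B
  calc ‖w a.1‖ * ‖F a.1 m‖ * (‖w a.2‖ * ‖F a.2 m‖) ≤ B * B := mul_le_mul h3 h4 (by positivity) hB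
    _ = B ^ 2 := by ring

lemma pow_expand (I : Finset ℕ) (k : ℕ) (m : Fin d → ℕ) :
    ((‖∑ n ∈ I, w n * F n m‖ ^ (2 * k) : ℝ) : ℂ) = ∑ g ∈ Fintype.piFinset (fun _ : Fin k => I ×ˢ I), ∏ i, TT F w (g i) m := by
  have h1 : ((‖∑ n ∈ I, w n * F n m‖ ^ (2 * k) : ℝ) : ℂ) = (∑ a ∈ I ×ˢ I, TT F w a m) ^ k := by
    rw [pow_mul]
    push_cast
    congr 1
    rw [← Complex.mul_conj', map_sum, sum_mul_sum, ← sum_product']
    rfl
  rw [h1, ← Finset.prod_univ_sum (fun _ : Fin k => I ×ˢ I) (fun _ a => TT F w a m), prod_const, card_univ, Fintype.card_fin]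

/-- the vanishing of the mean of a product -/
lemma term_zero (hF : Fam d L x B F) (Q : ℕ) (hQ : 1 ≤ Q) (hQd : ∀ n ∈ nn L x, n ∣ Q) (k : ℕ) (g : Fin k → ℕ × ℕ)
    (hg : ∀ i, (g i).1 ∈ nn L x ∧ (g i).2 ∈ nn L x) (hSF : ¬ SF (∏ i, (g i).1 * (g i).2)) :
    ∑ n ∈ box d Q, ∏ i, TT F w (g i) n = 0 := by
  classical
  unfold SF at hSF
  push Not at hSF
  obtain ⟨p, hp, hpM, hp2⟩ := hSF
  obtain ⟨i₀, -, hi₀⟩ := (Nat.Prime.prime hp).dvd_finset_prod_iff _ |>.1 hpM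
  obtain ⟨P, hP⟩ : ∃ P, P = ∏ i ∈ univ.erase i₀, (g i).1 * (g i).2 := ⟨_, rfl⟩
  have hPe : ∏ i, (g i).1 * (g i).2 = ((g i₀).1 * (g i₀).2) * P := by
    rw [hP, mul_prod_erase univ (fun i => (g i).1 * (g i).2) (mem_univ i₀)]
  rw [hPe] at hp2
  have hpP : ¬ p ∣ P := by
    intro h
    apply hp2
    rw [sq]
    exact mul_dvd_mul hi₀ h
  have hothers : ∀ i ∈ univ.erase i₀, ¬ p ∣ (g i).1 ∧ ¬ p ∣ (g i).2 := by
    intro i hi
    have h1 : (g i).1 * (g i).2 ∣ P := by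
      rw [hP]
      exact dvd_prod_of_mem (fun i => (g i).1 * (g i).2) hi
    exact ⟨fun h => hpP ((h.trans (dvd_mul_right _ _)).trans h1), fun h => hpP ((h.trans (dvd_mul_left _ _)).trans h1)⟩
  have hcop : ∀ {e : ℕ}, ¬ p ∣ e → e.Coprime p := fun h => ((Nat.Prime.coprime_iff_not_dvd hp).2 h).symm
  have hrest : ∀ Q', (∀ e, e ∣ Q → e.Coprime p → e ∣ Q') → PerC Q' (fun n => ∏ i ∈ univ.erase i₀, TT F w (g i) n) := by
    intro Q' hQ'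
    apply PerC.prod
    intro i hi
    have h1 := hothers i hi
    apply TT_per
    · exact (hF.per _ (hg i).1).of_dvd (hQ' _ (hQd _ (hg i).1) (hcop h1.1))
    · exact (hF.per _ (hg i).2).of_dvd (hQ' _ (hQd _ (hg i).2) (hcop h1.2))
  have hsplit : ∀ n, ∏ i, TT F w (g i) n = TT F w (g i₀) n * ∏ i ∈ univ.erase i₀, TT F w (g i) n := by
    intro n
    rw [mul_prod_erase univ (fun i => TT F w (g i) n) (mem_univ i₀)]
  rcases (Nat.Prime.dvd_mul hp).1 hi₀ with h1 | h1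
  · obtain ⟨n', hn'⟩ := h1
    have h2 : ¬ p ∣ n' := by
      rintro ⟨t, ht⟩
      apply hp2
      rw [hn', ht]
      exact ⟨t * (g i₀).2 * P, by ring⟩
    have h3 : ¬ p ∣ (g i₀).2 := by
      rintro ⟨t, ht⟩
      apply hp2
      rw [hn', ht]
      exact ⟨n' * t * P, by ring⟩
    have hmem : p * n' ∈ nn L x := hn' ▸ (hg i₀).1
    have hpm : p ∈ nn L x := nn_dvd hmem (dvd_mul_right _ _)
    have hnm : n' ∈ nn L x := nn_dvd hmem (dvd_mul_left _ _)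
    have key := vanish Q p hQ hp (hQd p hpm) (F p)
      (fun n => (w (g i₀).1 * F n' n) * (starRingEnd ℂ) (w (g i₀).2 * F (g i₀).2 n) * ∏ i ∈ univ.erase i₀, TT F w (g i) n)
      (hF.per p hpm) (hF.mean p hpm hp) (by
        intro Q' hQ'
        refine PerC.mul (PerC.mul ((PerC.const _).mul ?_) ((PerC.const _).mul ?_).conj) (hrest Q' hQ')
        · exact (hF.per _ hnm).of_dvd (hQ' _ (hQd _ hnm) (hcop h2))
        · exact (hF.per _ (hg i₀).2).of_dvd (hQ' _ (hQd _ (hg i₀).2) (hcop h3)))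
    rw [← key]
    apply sum_congr rfl
    intro n _
    rw [hsplit n]
    unfold TT
    rw [hn', hF.mul p n' hp h2 hmem n]
    ring
  · obtain ⟨n', hn'⟩ := h1
    have h2 : ¬ p ∣ n' := by
      rintro ⟨t, ht⟩
      apply hp2
      rw [hn', ht]
      exact ⟨(g i₀).1 * t * P, by ring⟩
    have h3 : ¬ p ∣ (g i₀).1 := by
      rintro ⟨t, ht⟩
      apply hp2
      rw [hn', ht]
      exact ⟨n' * t * P, by ring⟩
    have hmem : p * n' ∈ nn L x := hn' ▸ (hg i₀).2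
    have hpm : p ∈ nn L x := nn_dvd hmem (dvd_mul_right _ _)
    have hnm : n' ∈ nn L x := nn_dvd hmem (dvd_mul_left _ _)
    have key := vanish Q p hQ hp (hQd p hpm) (fun n => (starRingEnd ℂ) (F p n))
      (fun n => (w (g i₀).1 * F (g i₀).1 n) * (starRingEnd ℂ) (w (g i₀).2 * F n' n) * ∏ i ∈ univ.erase i₀, TT F w (g i) n)
      (hF.per p hpm).conj (by
        rw [← map_sum, hF.mean p hpm hp, map_zero]) (by
        intro Q' hQ'
        refine PerC.mul (PerC.mul ((PerC.const _).mul ?_) ((PerC.const _).mul ?_).conj) (hrest Q' hQ')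
        · exact (hF.per _ (hg i₀).1).of_dvd (hQ' _ (hQd _ (hg i₀).1) (hcop h3))
        · exact (hF.per _ hnm).of_dvd (hQ' _ (hQd _ hnm) (hcop h2)))
    rw [← key]
    apply sum_congr rfl
    intro n _
    rw [hsplit n]
    unfold TT
    rw [hn', hF.mul p n' hp h2 hmem n]
    simp only [map_mul]
    ring

/-- the moments over the full period -/
lemma full_moment (hF : Fam d L x B F) (hB : 0 ≤ B) (hw : ∀ n, ‖w n‖ ≤ 1) (Q : ℕ) (hQ : 1 ≤ Q) (hQd : ∀ n ∈ nn L x, n ∣ Q) (k : ℕ) (C : ℝ)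
    (hC : ∀ S ⊆ Fintype.piFinset (fun _ : Fin k => Icc 1 x ×ˢ Icc 1 x), (∀ g ∈ S, SF (∏ i, (g i).1 * (g i).2)) → (S.card : ℝ) ≤ C) :
    Pool.Agent.TH894.NE.mean d Q (fun m => ‖∑ n ∈ nn L x, w n * F n m‖ ^ (2 * k)) ≤ C * B ^ (2 * k) := by
  classical
  have hQ0 : (0 : ℝ) < Q := by exact_mod_cast hQ
  obtain ⟨S, hS⟩ : ∃ S, S = (Fintype.piFinset (fun _ : Fin k => nn L x ×ˢ nn L x)).filter (fun g => SF (∏ i, (g i).1 * (g i).2)) := ⟨_, rfl⟩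
  have hSc : (S.card : ℝ) ≤ C := by
    apply hC S
    · intro g hg
      rw [hS, mem_filter, Fintype.mem_piFinset] at hg
      rw [Fintype.mem_piFinset]
      intro i
      have := hg.1 i
      rw [mem_product, mem_nn, mem_nn] at this
      rw [mem_product, mem_Icc, mem_Icc]
      exact ⟨this.1.1, this.2.1⟩
    · intro g hg
      rw [hS, mem_filter] at hg
      exact hg.2
  have hmem : ∀ g ∈ Fintype.piFinset (fun _ : Fin k => nn L x ×ˢ nn L x), ∀ i, (g i).1 ∈ nn L x ∧ (g i).2 ∈ nn L x := by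
    intro g hg i
    rw [Fintype.mem_piFinset] at hg
    exact mem_product.1 (hg i)
  have h1 : ((∑ m ∈ box d Q, ‖∑ n ∈ nn L x, w n * F n m‖ ^ (2 * k) : ℝ) : ℂ) = ∑ g ∈ S, ∑ m ∈ box d Q, ∏ i, TT F w (g i) m := by
    rw [Complex.ofReal_sum, sum_congr rfl (fun m _ => pow_expand w (nn L x) k m), sum_comm, hS, sum_filter]
    apply sum_congr rfl
    intro g hg
    split_ifs with h
    · rfl
    · exact term_zero w hF Q hQ hQd k g (hmem g hg) h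
  have h2 : ‖∑ g ∈ S, ∑ m ∈ box d Q, ∏ i, TT F w (g i) m‖ ≤ S.card * ((Q : ℝ) ^ d * B ^ (2 * k)) := by
    refine (norm_sum_le _ _).trans ?_
    rw [← nsmul_eq_mul]
    apply sum_le_card_nsmul
    intro g hg
    rw [hS, mem_filter] at hg
    refine (norm_sum_le _ _).trans ?_
    have h3 : ((box d Q).card : ℝ) = (Q : ℝ) ^ d := by
      rw [card_box]
      push_cast
      rfl
    rw [← h3, ← nsmul_eq_mul]
    apply sum_le_card_nsmul
    intro m _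
    rw [norm_prod, pow_mul]
    calc ∏ i, ‖TT F w (g i) m‖ ≤ ∏ _i : Fin k, B ^ 2 := prod_le_prod (fun _ _ => norm_nonneg _) fun i _ =>
          TT_norm w (g i) m hw hB (hF.bnd _ (hmem g hg.1 i).1 m) (hF.bnd _ (hmem g hg.1 i).2 m)
      _ = (B ^ 2) ^ k := by rw [prod_const, card_univ, Fintype.card_fin]
  rw [← h1, Complex.norm_real, Real.norm_eq_abs] at h2
  have h3 := (le_abs_self _).trans h2
  unfold Pool.Agent.TH894.NE.mean
  have hB2 : 0 ≤ B ^ (2 * k) := by positivity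
  calc 1 / (Q : ℝ) ^ d * ∑ m ∈ box d Q, ‖∑ n ∈ nn L x, w n * F n m‖ ^ (2 * k) ≤ 1 / (Q : ℝ) ^ d * (S.card * ((Q : ℝ) ^ d * B ^ (2 * k))) :=
        mul_le_mul_of_nonneg_left h3 (by positivity)
    _ = S.card * B ^ (2 * k) := by
        field_simp
    _ ≤ C * B ^ (2 * k) := mul_le_mul_of_nonneg_right hSc hB2

/-- the frequencies -/
lemma freq (hF : Fam d L x B F) (Q : ℕ) (hQ : 1 ≤ Q) (hQd : ∀ n ∈ nn L x, n ∣ Q) (k : ℕ) (kk : Fin d → ℕ) (hkk : kk ∈ box d Q) (i₀ : Fin d)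
    (hi₀ : kk i₀ ∉ Fr Q (x ^ (2 * k))) : cfd Q (fun m => ‖∑ n ∈ nn L x, w n * F n m‖ ^ (2 * k)) kk = 0 := by
  classical
  unfold cfd
  have h1 : ∑ n ∈ box d Q, ((‖∑ ν ∈ nn L x, w ν * F ν n‖ ^ (2 * k) : ℝ) : ℂ) * ch' Q kk n =
      ∑ g ∈ Fintype.piFinset (fun _ : Fin k => nn L x ×ˢ nn L x), ∑ n ∈ box d Q, (∏ i, TT F w (g i) n) * ch' Q kk n := by
    rw [sum_comm]
    apply sum_congr rfl
    intro n _
    rw [pow_expand, sum_mul]
  rw [h1, sum_eq_zero, mul_zero]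
  intro g hg
  rw [Fintype.mem_piFinset] at hg
  have hmem : ∀ i, (g i).1 ∈ nn L x ∧ (g i).2 ∈ nn L x := fun i => mem_product.1 (hg i)
  obtain ⟨M, hM⟩ : ∃ M, M = ∏ i, (g i).1 * (g i).2 := ⟨_, rfl⟩
  have hM1 : 1 ≤ M := by
    rw [hM]
    apply Nat.one_le_iff_ne_zero.2
    rw [prod_ne_zero_iff]
    intro i _
    have h2 := mem_nn.1 (hmem i).1
    have h3 := mem_nn.1 (hmem i).2
    exact Nat.mul_ne_zero (by omega) (by omega)
  have hMx : M ≤ x ^ (2 * k) := by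
    rw [hM]
    calc ∏ i, (g i).1 * (g i).2 ≤ ∏ _i : Fin k, x * x := prod_le_prod' fun i _ =>
          Nat.mul_le_mul (mem_nn.1 (hmem i).1).1.2 (mem_nn.1 (hmem i).2).1.2
      _ = x ^ (2 * k) := by
          rw [prod_const, card_univ, Fintype.card_fin, ← sq, ← pow_mul]
  refine fourier_zero Q M (x ^ (2 * k)) hQ hM1 hMx i₀ _ ?_ kk hkk hi₀
  intro n
  apply prod_congr rfl
  intro i _
  have hupd : ∀ e, e ∣ Q → e ∣ M → ∀ j, (Function.update n i₀ ((n i₀ + M) % Q)) j % e = n j % e := by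
    intro e he heM j
    by_cases hj : j = i₀
    · subst hj
      rw [Function.update_self, Nat.mod_mod_of_dvd _ he]
      obtain ⟨v, hv⟩ := heM
      rw [hv, Nat.add_mul_mod_self_left]
    · rw [Function.update_of_ne hj]
  have hdM : (g i).1 * (g i).2 ∣ M := by
    rw [hM]
    exact dvd_prod_of_mem (fun i => (g i).1 * (g i).2) (mem_univ i)
  unfold TT
  rw [(hF.per _ (hmem i).1).congr (hupd _ (hQd _ (hmem i).1) ((dvd_mul_right _ _).trans hdM)),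
    (hF.per _ (hmem i).2).congr (hupd _ (hQd _ (hmem i).2) ((dvd_mul_left _ _).trans hdM))]

end

/-- **Sums of multiplicative functions at few-digit vectors**, one length. -/
theorem mt_one (b d : ℕ) (hb : 2 ≤ b) (hd : 1 ≤ d) (δ : ℝ) (hδ : 0 < δ) (A : ℕ) : ∃ c : ℝ, 0 < c ∧ ∃ x₀ : ℕ,
    ∀ (r K : Fin d → ℕ) (x : ℕ), (∀ i, 2 * r i ≤ K i) → x₀ ≤ x → (∀ i, Real.log x ≤ c * r i) →
    ∀ N : Fin d → ℕ, (∀ i, N i < b ^ K i) → ∀ f : Fin d → ℕ → ℕ, (∀ i j, f i j < b ∧ f i j ≠ N i / b ^ j % b) →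
    ∀ F : ℕ → (Fin d → ℕ) → ℂ, Fam d (b * b).factorial x ((x : ℝ) ^ (δ / 4)) F → ∀ w : ℕ → ℂ, (∀ n, ‖w n‖ ≤ 1) →
    ∀ Ex ⊆ Fintype.piFinset (fun i => powersetCard (r i) (range (K i))),
    (∀ S ∈ Ex, (x : ℝ) ^ (1 / 2 + δ) < ‖∑ n ∈ nn (b * b).factorial x, w n * F n (fun i => change b (K i) (N i) (f i) (S i))‖) →
    (Ex.card : ℝ) ≤ (x : ℝ) ^ (-(A : ℝ)) * ∏ i, ((K i).choose (r i) : ℝ) := by
  classical
  obtain ⟨k, hk⟩ : ∃ k, k = ⌈(2 * δ + A + 1) / δ⌉₊ + 1 := ⟨_, rfl⟩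
  have hk1 : 1 ≤ k := by omega
  have hkr : (1 : ℝ) ≤ k := by exact_mod_cast hk1
  have hkA : 2 * δ + A + 1 ≤ k * δ := by
    have h1 : (2 * δ + A + 1) / δ ≤ k := by
      rw [hk]
      push_cast
      have := Nat.le_ceil ((2 * δ + A + 1) / δ)
      linarith
    rw [div_le_iff₀ hδ] at h1
    linarith
  obtain ⟨c, hc, x₀, h⟩ := avg_engine b d k hb hd hk1 δ hδ
  obtain ⟨C, hC0, hC⟩ := count k hk1 δ hδ
  obtain ⟨x₁, hx₁⟩ := exists_nat_ge (2 * C)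
  refine ⟨c, hc, x₀ + x₁ + 1, fun r K x hrK hx hxr N hN f hf F hF w hw Ex hEx hExb => ?_⟩
  have hx1 : (1 : ℝ) ≤ x := by exact_mod_cast (by omega : 1 ≤ x)
  have hx0 : (0 : ℝ) < x := by linarith
  obtain ⟨L, hL⟩ : ∃ L, L = (b * b).factorial := ⟨_, rfl⟩
  rw [← hL] at hF hExb h
  obtain ⟨Q, hQ⟩ : ∃ Q, Q = ∏ n ∈ nn L x, n := ⟨_, rfl⟩
  have hQ1 : 1 ≤ Q := by
    rw [hQ]
    apply Nat.one_le_iff_ne_zero.2
    rw [prod_ne_zero_iff]
    intro n hn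
    rw [mem_nn] at hn
    omega
  have hQd : ∀ n ∈ nn L x, n ∣ Q := by
    intro n hn
    rw [hQ]
    exact dvd_prod_of_mem (fun n => n) hn
  have hLQ : Nat.Coprime L Q := by
    rw [hQ]
    apply Nat.Coprime.prod_right
    intro n hn
    exact (mem_nn.1 hn).2.symm
  have hPer : Per Q (fun m => ‖∑ n ∈ nn L x, w n * F n m‖ ^ (2 * k)) := by
    intro m
    show ‖∑ n ∈ nn L x, w n * F n m‖ ^ (2 * k) = ‖∑ n ∈ nn L x, w n * F n (fun i => m i % Q)‖ ^ (2 * k)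
    congr 2
    apply sum_congr rfl
    intro n hn
    congr 1
    exact ((hF.per n hn).of_dvd (hQd n hn)) m
  have h1 := h r K x hrK (by omega) hxr N hN f hf Q hQ1 hLQ (fun m => ‖∑ n ∈ nn L x, w n * F n m‖ ^ (2 * k)) hPer
    (fun m => by positivity) (fun kk hkk i₀ hi₀ => freq w hF Q hQ1 hQd k kk hkk i₀ hi₀)
  have h2 := full_moment w hF (by positivity) hw Q hQ1 hQd k (C * (x : ℝ) ^ ((k : ℝ) + δ)) (by
    intro S hS hSF
    refine le_trans ?_ (hC x (by omega))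
    have : S ⊆ (Fintype.piFinset (fun _ : Fin k => Icc 1 x ×ˢ Icc 1 x)).filter (fun g => SF (∏ i, (g i).1 * (g i).2)) := by
      intro g hg
      rw [mem_filter]
      exact ⟨hS hg, hSF g hg⟩
    exact_mod_cast card_le_card this)
  obtain ⟨P, hP⟩ : ∃ P : ℝ, P = ∏ i, ((K i).choose (r i) : ℝ) := ⟨_, rfl⟩
  have hP0 : 0 ≤ P := by rw [hP]; exact prod_nonneg fun i _ => Nat.cast_nonneg _
  rw [← hP] at h1 ⊢
  have h3 : (Ex.card : ℝ) * ((x : ℝ) ^ (1 / 2 + δ)) ^ (2 * k) ≤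
      ∑ S ∈ Fintype.piFinset (fun i => powersetCard (r i) (range (K i))), ‖∑ n ∈ nn L x, w n * F n (fun i => change b (K i) (N i) (f i) (S i))‖ ^ (2 * k) := by
    calc (Ex.card : ℝ) * ((x : ℝ) ^ (1 / 2 + δ)) ^ (2 * k) = ∑ _S ∈ Ex, ((x : ℝ) ^ (1 / 2 + δ)) ^ (2 * k) := by rw [sum_const, nsmul_eq_mul]
      _ ≤ ∑ S ∈ Ex, ‖∑ n ∈ nn L x, w n * F n (fun i => change b (K i) (N i) (f i) (S i))‖ ^ (2 * k) :=
          sum_le_sum fun S hS => pow_le_pow_left₀ (by positivity) (hExb S hS).le _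
      _ ≤ _ := sum_le_sum_of_subset_of_nonneg hEx fun S _ _ => by positivity
  have h4 : (Ex.card : ℝ) * ((x : ℝ) ^ (1 / 2 + δ)) ^ (2 * k) ≤
      2 * (x : ℝ) ^ δ * (C * (x : ℝ) ^ ((k : ℝ) + δ) * ((x : ℝ) ^ (δ / 4)) ^ (2 * k)) * P := by
    refine (h3.trans h1).trans ?_
    gcongr
  have h5 : 2 * (x : ℝ) ^ δ * (C * (x : ℝ) ^ ((k : ℝ) + δ) * ((x : ℝ) ^ (δ / 4)) ^ (2 * k)) ≤
      (x : ℝ) ^ (-(A : ℝ)) * ((x : ℝ) ^ (1 / 2 + δ)) ^ (2 * k) := by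
    have e1 : 2 * C ≤ (x : ℝ) ^ (1 : ℝ) := by
      rw [Real.rpow_one]
      refine hx₁.trans ?_
      exact_mod_cast (by omega : x₁ ≤ x)
    calc 2 * (x : ℝ) ^ δ * (C * (x : ℝ) ^ ((k : ℝ) + δ) * ((x : ℝ) ^ (δ / 4)) ^ (2 * k)) =
          (2 * C) * ((x : ℝ) ^ δ * (x : ℝ) ^ ((k : ℝ) + δ) * ((x : ℝ) ^ (δ / 4)) ^ (2 * k)) := by ring
      _ ≤ (x : ℝ) ^ (1 : ℝ) * ((x : ℝ) ^ δ * (x : ℝ) ^ ((k : ℝ) + δ) * ((x : ℝ) ^ (δ / 4)) ^ (2 * k)) := by gcongr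
      _ = (x : ℝ) ^ (1 + (δ + ((k : ℝ) + δ)) + δ / 4 * (2 * k : ℕ)) := by
          rw [← Real.rpow_natCast ((x : ℝ) ^ (δ / 4)), ← Real.rpow_mul hx0.le, ← Real.rpow_add hx0, ← Real.rpow_add hx0, ← Real.rpow_add hx0]
          congr 1
          ring
      _ ≤ (x : ℝ) ^ (-(A : ℝ) + (1 / 2 + δ) * (2 * k : ℕ)) := by
          apply Real.rpow_le_rpow_of_exponent_le hx1
          push_cast
          have : 0 < (k : ℝ) * δ := by positivity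
          nlinarith
      _ = (x : ℝ) ^ (-(A : ℝ)) * ((x : ℝ) ^ (1 / 2 + δ)) ^ (2 * k) := by
          rw [← Real.rpow_natCast ((x : ℝ) ^ (1 / 2 + δ)), ← Real.rpow_mul hx0.le, Real.rpow_add hx0]
  have h6 : (Ex.card : ℝ) * ((x : ℝ) ^ (1 / 2 + δ)) ^ (2 * k) ≤ ((x : ℝ) ^ (-(A : ℝ)) * P) * ((x : ℝ) ^ (1 / 2 + δ)) ^ (2 * k) := by
    refine h4.trans ?_
    calc _ ≤ ((x : ℝ) ^ (-(A : ℝ)) * ((x : ℝ) ^ (1 / 2 + δ)) ^ (2 * k)) * P := mul_le_mul_of_nonneg_right h5 hP0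
      _ = _ := by ring
  exact le_of_mul_le_mul_right h6 (by positivity)

end Pool.Agent.X22.MT
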