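import Pool.Agent.X22.MT4

set_option autoImplicit false

/-! Splitting off the factors composed of given primes. -/

namespace Pool.Agent.X22.MT
open Finset
open Pool.Agent.TH894.ND Pool.Agent.TH894.NE
open Pool.Agent.TH894.SM (change)
open Pool.Agent.X22.ND (hp norm_hp hp_sub absorb)

open Classical in
/-- the numbers up to `x` all of whose prime factors divide `L` -/
noncomputable def sm (L x : ℕ) : Finset ℕ := (Icc 1 x).filter (fun n => ∀ p : ℕ, p.Prime → p ∣ n → p ∣ L)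

open Classical in
lemma mem_sm {L x n : ℕ} : n ∈ sm L x ↔ (1 ≤ n ∧ n ≤ x) ∧ ∀ p : ℕ, p.Prime → p ∣ n → p ∣ L := by
  unfold sm
  rw [mem_filter, mem_Icc]

lemma exists_split (L : ℕ) (n : ℕ) (hn : n ≠ 0) : ∃ a c : ℕ, n = a * c ∧ (∀ p : ℕ, p.Prime → p ∣ a → p ∣ L) ∧ c.Coprime L := by
  induction n using Nat.strong_induction_on with
  | _ n ih =>
    by_cases h : n.Coprime L
    · refine ⟨1, n, by rw [one_mul], ?_, h⟩
      intro p hp hp1
      exact absurd (Nat.le_of_dvd one_pos hp1) (by have := hp.one_lt; omega)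
    · obtain ⟨p, hp, hpn, hpL⟩ := Nat.Prime.not_coprime_iff_dvd.1 h
      obtain ⟨m, hm⟩ := hpn
      have hm0 : m ≠ 0 := by
        rintro rfl
        exact hn (by rw [hm, mul_zero])
      have hlt : m < n := by
        rw [hm]
        have := hp.one_lt
        nlinarith [Nat.pos_of_ne_zero hm0]
      obtain ⟨a, c, hac, ha, hc⟩ := ih m hlt hm0
      refine ⟨p * a, c, by rw [hm, hac, mul_assoc], ?_, hc⟩
      intro q hq hqd
      rcases (Nat.Prime.dvd_mul hq).1 hqd with h1 | h1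
      · rw [(Nat.prime_dvd_prime_iff_eq hq hp).1 h1]
        exact hpL
      · exact ha q hq h1

lemma smooth_coprime {L a c : ℕ} (ha : ∀ p : ℕ, p.Prime → p ∣ a → p ∣ L) (hc : c.Coprime L) : a.Coprime c := by
  by_contra h
  obtain ⟨p, hp, hpa, hpc⟩ := Nat.Prime.not_coprime_iff_dvd.1 h
  exact Nat.not_coprime_of_dvd_of_dvd hp.one_lt hpc (ha p hp hpa) hc

lemma split_unique {L a c a' c' : ℕ} (h : a * c = a' * c') (ha : ∀ p : ℕ, p.Prime → p ∣ a → p ∣ L) (hc : c.Coprime L)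
    (ha' : ∀ p : ℕ, p.Prime → p ∣ a' → p ∣ L) (hc' : c'.Coprime L) (ha0 : 0 < a) : a = a' ∧ c = c' := by
  have h1 : a ∣ a' := (smooth_coprime ha hc').dvd_of_dvd_mul_right (h ▸ dvd_mul_right a c)
  have h2 : a' ∣ a := (smooth_coprime ha' hc).dvd_of_dvd_mul_right (h.symm ▸ dvd_mul_right a' c')
  have h3 := Nat.dvd_antisymm h1 h2
  refine ⟨h3, ?_⟩
  subst h3
  exact Nat.eq_of_mul_eq_mul_left ha0 h

/-- splitting a sum -/
lemma smooth_sum (L x : ℕ) (G : ℕ → ℂ) : ∑ n ∈ Icc 1 x, G n = ∑ a ∈ sm L x, ∑ c ∈ nn L x, if a * c ≤ x then G (a * c) else 0 := by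
  classical
  rw [← sum_product', ← sum_filter]
  symm
  refine sum_bij (fun z _ => z.1 * z.2) ?_ ?_ ?_ ?_
  · intro z hz
    rw [mem_filter, mem_product, mem_sm, mem_nn] at hz
    rw [mem_Icc]
    exact ⟨Nat.mul_pos (by omega) (by omega), hz.2⟩
  · intro z hz z' hz' h
    rw [mem_filter, mem_product, mem_sm, mem_nn] at hz hz'
    have := split_unique h hz.1.1.2 hz.1.2.2 hz'.1.1.2 hz'.1.2.2 (by omega)
    exact Prod.ext this.1 this.2
  · intro n hn
    rw [mem_Icc] at hn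
    obtain ⟨a, c, hac, ha, hc⟩ := exists_split L n (by omega)
    have ha0 : 1 ≤ a := by
      apply Nat.one_le_iff_ne_zero.2
      rintro rfl
      rw [zero_mul] at hac
      omega
    have hc0 : 1 ≤ c := by
      apply Nat.one_le_iff_ne_zero.2
      rintro rfl
      rw [mul_zero] at hac
      omega
    have h1 : a ≤ a * c := Nat.le_mul_of_pos_right a hc0
    have h2 : c ≤ a * c := Nat.le_mul_of_pos_left c ha0
    refine ⟨(a, c), ?_, hac.symm⟩
    rw [mem_filter, mem_product, mem_sm, mem_nn]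
    exact ⟨⟨⟨⟨ha0, by show a ≤ x; omega⟩, ha⟩, ⟨⟨hc0, by show c ≤ x; omega⟩, hc⟩⟩, by show a * c ≤ x; omega⟩
  · intro z _
    rfl

/-- the number of the smooth numbers -/
lemma sm_card (L : ℕ) (hL : L ≠ 0) (ε : ℝ) (hε : 0 < ε) : ∃ C : ℝ, 0 < C ∧ ∀ x : ℕ, 1 ≤ x → ((sm L x).card : ℝ) ≤ C * (x : ℝ) ^ ε := by
  classical
  obtain ⟨k, hk⟩ : ∃ k, k = L.primeFactors.card := ⟨_, rfl⟩
  obtain ⟨η, hη⟩ : ∃ η : ℝ, η = ε / (k + 1) := ⟨_, rfl⟩
  have hη0 : 0 < η := by rw [hη]; positivity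
  obtain ⟨E, hE⟩ : ∃ E : ℝ, E = 2 / η + 1 := ⟨_, rfl⟩
  have hE0 : 0 < E := by rw [hE]; positivity
  refine ⟨E ^ k, by positivity, fun x hx => ?_⟩
  have hx1 : (1 : ℝ) ≤ x := by exact_mod_cast hx
  have hx0 : (0 : ℝ) < x := by linarith
  have h1 : (sm L x).card ≤ (Nat.log 2 x + 1) ^ k := by
    have h2 : (Fintype.piFinset (fun _ : {p // p ∈ L.primeFactors} => range (Nat.log 2 x + 1))).card = (Nat.log 2 x + 1) ^ k := by
      rw [Fintype.card_piFinset, prod_const, card_range, hk, card_univ, Fintype.card_coe]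
    rw [← h2]
    refine card_le_card_of_injOn (fun n => fun p => n.factorization p.1) ?_ ?_
    · intro n hn
      rw [mem_coe, mem_sm] at hn
      rw [mem_coe, Fintype.mem_piFinset]
      intro p
      rw [mem_range]
      show n.factorization p.1 < Nat.log 2 x + 1
      have h3 : n.factorization p.1 ≤ Nat.log 2 x := by
        have h4 := Nat.ordProj_le (n := n) p.1 (by omega)
        have hp := Nat.prime_of_mem_primeFactors p.2
        apply Nat.le_log_of_pow_le (by norm_num)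
        calc 2 ^ n.factorization p.1 ≤ p.1 ^ n.factorization p.1 := Nat.pow_le_pow_left hp.two_le _
          _ ≤ n := h4
          _ ≤ x := hn.1.2
      omega
    · intro n hn n' hn' h
      rw [mem_coe, mem_sm] at hn hn'
      apply Nat.eq_of_factorization_eq (by omega) (by omega)
      intro p
      by_cases hp : p ∈ L.primeFactors
      · exact congrFun h ⟨p, hp⟩
      · have key : ∀ n : ℕ, (1 ≤ n ∧ n ≤ x) ∧ (∀ p : ℕ, p.Prime → p ∣ n → p ∣ L) → n.factorization p = 0 := by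
          intro n hn
          rw [Nat.factorization_eq_zero_iff]
          by_contra hcon
          push Not at hcon
          exact hp (Nat.mem_primeFactors.2 ⟨hcon.1, hn.2 p hcon.1 hcon.2.1, hL⟩)
        rw [key n hn, key n' hn']
  have h2 : ((Nat.log 2 x + 1 : ℕ) : ℝ) ≤ E * (x : ℝ) ^ η := by
    have h3 : (Nat.log 2 x : ℝ) ≤ 2 * Real.log x := by
      have h4 : (Nat.log 2 x : ℝ) * Real.log 2 ≤ Real.log x := by
        rw [← Real.log_pow]
        apply Real.log_le_log (by positivity)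
        exact_mod_cast Nat.pow_log_le_self 2 (by omega : x ≠ 0)
      have h5 := Real.log_two_gt_d9
      have h6 : (0 : ℝ) ≤ Nat.log 2 x := Nat.cast_nonneg _
      nlinarith
    have h4 := Real.log_le_rpow_div (Nat.cast_nonneg x) hη0
    have h5 : (1 : ℝ) ≤ (x : ℝ) ^ η := Real.one_le_rpow hx1 hη0.le
    have h6 : (x : ℝ) ^ η / η = 1 / η * (x : ℝ) ^ η := by ring
    rw [h6] at h4
    push_cast
    rw [hE]
    calc (Nat.log 2 x : ℝ) + 1 ≤ 2 * (1 / η * (x : ℝ) ^ η) + (x : ℝ) ^ η := by linarith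
      _ = (2 / η + 1) * (x : ℝ) ^ η := by ring
  calc ((sm L x).card : ℝ) ≤ (((Nat.log 2 x + 1) ^ k : ℕ) : ℝ) := by exact_mod_cast h1
    _ = ((Nat.log 2 x + 1 : ℕ) : ℝ) ^ k := by push_cast; rfl
    _ ≤ (E * (x : ℝ) ^ η) ^ k := pow_le_pow_left₀ (by positivity) h2 k
    _ = E ^ k * (x : ℝ) ^ (η * k) := by
        rw [mul_pow, ← Real.rpow_natCast ((x : ℝ) ^ η), ← Real.rpow_mul hx0.le]
    _ ≤ E ^ k * (x : ℝ) ^ ε := by
        apply mul_le_mul_of_nonneg_left _ (by positivity)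
        apply Real.rpow_le_rpow_of_exponent_le hx1
        rw [hη, div_mul_eq_mul_div, div_le_iff₀ (by positivity)]
        nlinarith

lemma Fam.mono {d L x : ℕ} {B B' : ℝ} {F : ℕ → (Fin d → ℕ) → ℂ} (h : Fam d L x B F) (hB : B ≤ B') : Fam d L x B' F :=
  ⟨h.per, h.mul, fun n hn m => (h.bnd n hn m).trans hB, h.mean⟩

lemma hp_mul (τ : ℝ) (a c : ℕ) (ha : 1 ≤ a) (hc : 1 ≤ c) : hp τ (a * c) = hp τ a * hp τ c := by
  unfold hp
  rw [← Complex.exp_add]
  congr 1
  have ha0 : (a : ℝ) ≠ 0 := by exact_mod_cast (by omega : a ≠ 0)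
  have hc0 : (c : ℝ) ≠ 0 := by exact_mod_cast (by omega : c ≠ 0)
  rw [Nat.cast_mul, Real.log_mul ha0 hc0]
  push_cast
  ring

open Classical in
/-- **Sums over intervals**, with the factors composed of small primes split off. -/
theorem mt_law2 (b d : ℕ) (hb : 2 ≤ b) (hd : 1 ≤ d) (δ : ℝ) (hδ : 0 < δ) (A B C : ℕ) : ∃ c : ℝ, 0 < c ∧ ∃ y₀ : ℕ,
    ∀ (K r : Fin d → ℕ) (y : ℕ), (∀ l, 2 * r l ≤ K l) → y₀ ≤ y →
    ∀ N : Fin d → ℕ, (∀ l, N l < b ^ K l) → ∀ f : Fin d → ℕ → ℕ, (∀ l j, f l j < b ∧ f l j ≠ N l / b ^ j % b) →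
    ∀ (κ : Type) (Λ : ℕ → Finset κ), (∀ x, y ≤ x → (Λ x).card ≤ x ^ B) →
    ∀ (F : ℕ → κ → ℕ → (Fin d → ℕ) → ℂ), (∀ x, y ≤ x → ∀ l ∈ Λ x, Fam d (b * b).factorial x ((x : ℝ) ^ (δ / 16)) (F x l)) →
    ∀ (v w : ℕ → κ → ℕ → ℂ), (∀ x l n, ‖v x l n‖ ≤ 1) → (∀ x l n, ‖w x l n‖ ≤ 1) →
    ∀ E : (Fin d → ℕ) → Prop,
    (∀ m, (∀ x : ℕ, y ≤ x → (∀ l, (x : ℝ) ≤ Real.exp (c * r l)) → ∀ l ∈ Λ x, ∀ τ : ℝ, |τ| ≤ (x : ℝ) ^ C → ∀ χ : ℕ → ℂ,
      (∀ n, ‖χ n‖ ≤ 1) → (∀ n n' : ℕ, 1 ≤ n → 1 ≤ n' → χ (n * n') = χ n * χ n') →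
      (∀ n ∈ nn (b * b).factorial x, χ n = w x l n * F x l n m) → ∀ M M' : ℕ, M' ≤ x →
      ‖∑ n ∈ Ioc M M', v x l n * χ n * hp τ n‖ ≤ (x : ℝ) ^ (1 / 2 + δ)) → E m) →
      ((((Fintype.piFinset (fun l => powersetCard (r l) (range (K l)))).filter
        (fun T => ¬ E (fun l => change b (K l) (N l) (f l) (T l)))).card : ℕ) : ℝ) ≤ 1 / (y : ℝ) ^ A * ∏ l, ((K l).choose (r l) : ℝ) := by
  obtain ⟨c, hc, y₀, h⟩ := mt_law b d hb hd (δ / 2) (by positivity) A (B + 6) C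
  obtain ⟨L, hL⟩ : ∃ L, L = (b * b).factorial := ⟨_, rfl⟩
  have hL0 : L ≠ 0 := by rw [hL]; exact Nat.factorial_ne_zero _
  obtain ⟨D, hD0, hD⟩ := sm_card L hL0 (δ / 4) (by positivity)
  obtain ⟨x₁, hx₁⟩ := absorb D (δ / 4) hD0.le (by positivity)
  refine ⟨c, hc, y₀ + x₁ + 3, fun K r y hrK hy N hN f hf κ Λ hΛ F hF v w hv hw E hE => ?_⟩
  refine h K r y hrK (by omega) N hN f hf (κ × ℕ × ℕ × ℕ) (fun x => (Λ x) ×ˢ ((range (x + 1)) ×ˢ ((range (x + 1)) ×ˢ (range (x + 1))))) ?_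
    (fun x q => F x q.1) ?_ (fun x q n => if q.2.2.1 < q.2.1 * n ∧ q.2.1 * n ≤ q.2.2.2 then v x q.1 (q.2.1 * n) * w x q.1 n else 0) ?_ E ?_
  · intro x hx
    rw [card_product, card_product, card_product, card_range]
    have h1 := hΛ x hx
    have h2 : (x + 1) * ((x + 1) * (x + 1)) ≤ x ^ 6 := by
      have h3 : x + 1 ≤ x ^ 2 := by nlinarith
      calc (x + 1) * ((x + 1) * (x + 1)) ≤ x ^ 2 * (x ^ 2 * x ^ 2) := Nat.mul_le_mul h3 (Nat.mul_le_mul h3 h3)
        _ = x ^ 6 := by ring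
    calc (Λ x).card * ((x + 1) * ((x + 1) * (x + 1))) ≤ x ^ B * x ^ 6 := Nat.mul_le_mul h1 h2
      _ = x ^ (B + 6) := by rw [pow_add]
  · intro x hx q hq
    rw [mem_product] at hq
    have := hF x hx q.1 hq.1
    have e : δ / 2 / 8 = δ / 16 := by ring
    rw [e]
    exact this
  · intro x q n
    split_ifs
    · rw [norm_mul]
      calc ‖v x q.1 (q.2.1 * n)‖ * ‖w x q.1 n‖ ≤ 1 * 1 := mul_le_mul (hv _ _ _) (hw _ _ _) (norm_nonneg _) zero_le_one
        _ = 1 := one_mul 1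
    · rw [norm_zero]
      exact zero_le_one
  · intro m hm
    apply hE
    intro x hyx hxr l hl τ hτ χ hχ1 hχm hχF M M' hM'
    have hx0 : (0 : ℝ) < x := by exact_mod_cast (by omega : 0 < x)
    have hx1 : (1 : ℝ) ≤ x := by exact_mod_cast (by omega : 1 ≤ x)
    rw [← hL] at hχF hm
    obtain ⟨G, hG⟩ : ∃ G : ℕ → ℂ, G = fun n => if M < n ∧ n ≤ M' then v x l n * χ n * hp τ n else 0 := ⟨_, rfl⟩
    have e1 : ∑ n ∈ Ioc M M', v x l n * χ n * hp τ n = ∑ n ∈ Icc 1 x, G n := by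
      rw [hG, ← sum_filter]
      apply sum_congr _ (fun _ _ => rfl)
      ext n
      rw [mem_Ioc, mem_filter, mem_Icc]
      constructor
      · intro h1
        exact ⟨⟨by omega, by omega⟩, h1⟩
      · intro h1
        exact h1.2
    rw [e1, smooth_sum L x G]
    have h2 : ∀ a ∈ sm L x, ‖∑ c ∈ nn L x, if a * c ≤ x then G (a * c) else 0‖ ≤ (x : ℝ) ^ (1 / 2 + δ / 2) := by
      intro a ha
      rw [mem_sm] at ha
      by_cases hMM : M ≤ x
      · have h3 := hm x hyx hxr (l, a, M, M') (by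
          rw [mem_product, mem_product, mem_product, mem_range, mem_range, mem_range]
          exact ⟨hl, by show a < x + 1; omega, by show M < x + 1; omega, by show M' < x + 1; omega⟩) τ hτ
        have h4 : (∑ c ∈ nn L x, if a * c ≤ x then G (a * c) else 0) = (χ a * hp τ a) *
            ∑ n ∈ nn L x, (if M < a * n ∧ a * n ≤ M' then v x l (a * n) * w x l n else 0) * F x l n m * hp τ n := by
          rw [mul_sum]
          apply sum_congr rfl
          intro c hc'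
          have hc1 := mem_nn.1 hc'
          rw [hG]
          by_cases h5 : M < a * c ∧ a * c ≤ M'
          · rw [if_pos (by omega)]
            simp only [h5, and_self, if_true]
            rw [hχm a c ha.1.1 hc1.1.1, hχF c hc', hp_mul τ a c ha.1.1 hc1.1.1]
            ring
          · simp only [if_neg h5]
            rw [zero_mul, zero_mul, mul_zero]
            split_ifs <;> rfl
        rw [h4, norm_mul, norm_mul, norm_hp, mul_one]
        calc ‖χ a‖ * ‖∑ n ∈ nn L x, (if M < a * n ∧ a * n ≤ M' then v x l (a * n) * w x l n else 0) * F x l n m * hp τ n‖ ≤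
              1 * (x : ℝ) ^ (1 / 2 + δ / 2) := mul_le_mul (hχ1 a) h3 (norm_nonneg _) zero_le_one
          _ = _ := one_mul _
      · have h4 : (∑ c ∈ nn L x, if a * c ≤ x then G (a * c) else 0) = 0 := by
          apply sum_eq_zero
          intro c _
          rw [hG]
          have h5 : ¬ (M < a * c ∧ a * c ≤ M') := by omega
          simp only [if_neg h5]
          split_ifs <;> rfl
        rw [h4, norm_zero]
        positivity
    refine (norm_sum_le _ _).trans ((sum_le_sum h2).trans ?_)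
    rw [sum_const, nsmul_eq_mul]
    have h5 := hD x (by omega)
    have h6 := hx₁ x (by omega)
    have h7 : 0 ≤ Real.log x := Real.log_natCast_nonneg x
    have h8 : D ≤ (x : ℝ) ^ (δ / 4) := by
      have : 0 ≤ D * Real.log x := mul_nonneg hD0.le h7
      linarith
    calc ((sm L x).card : ℝ) * (x : ℝ) ^ (1 / 2 + δ / 2) ≤ (D * (x : ℝ) ^ (δ / 4)) * (x : ℝ) ^ (1 / 2 + δ / 2) :=
          mul_le_mul_of_nonneg_right h5 (by positivity)
      _ ≤ ((x : ℝ) ^ (δ / 4) * (x : ℝ) ^ (δ / 4)) * (x : ℝ) ^ (1 / 2 + δ / 2) := by gcongr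
      _ = (x : ℝ) ^ (1 / 2 + δ) := by
          rw [← Real.rpow_add hx0, ← Real.rpow_add hx0]
          congr 1
          ring

end Pool.Agent.X22.MT
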