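import Pool.Agent.X22.MT5

set_option autoImplicit false

/-! Coefficients of Euler products at few-digit vectors. -/

namespace Pool.Agent.X22.MT
open Finset
open Pool.Agent.TH894.ND Pool.Agent.TH894.NE
open Pool.Agent.TH894.SM (change)
open Pool.Agent.X22.ND (hp norm_hp hp_sub absorb)

open Classical in
/-- **Sums over intervals**, with the factors composed of small primes split off. -/
theorem mt_law3 (b d : ℕ) (hb : 2 ≤ b) (hd : 1 ≤ d) (δ : ℝ) (hδ : 0 < δ) (A B C : ℕ) : ∃ c : ℝ, 0 < c ∧ ∃ y₀ : ℕ,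
    ∀ (K r : Fin d → ℕ) (y : ℕ), (∀ l, 2 * r l ≤ K l) → y₀ ≤ y →
    ∀ N : Fin d → ℕ, (∀ l, N l < b ^ K l) → ∀ f : Fin d → ℕ → ℕ, (∀ l j, f l j < b ∧ f l j ≠ N l / b ^ j % b) →
    ∀ (κ : Type) (Λ : ℕ → Finset κ), (∀ x, y ≤ x → (Λ x).card ≤ x ^ B) →
    ∀ (F : ℕ → κ → ℕ → (Fin d → ℕ) → ℂ), (∀ x, y ≤ x → ∀ l ∈ Λ x, Fam d (b * b).factorial x ((x : ℝ) ^ (δ / 16)) (F x l)) →
    ∀ (v w : ℕ → κ → ℕ → ℂ), (∀ x l n, ‖v x l n‖ ≤ 1) → (∀ x l n, ‖w x l n‖ ≤ 1) →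
    ∀ E : (Fin d → ℕ) → Prop,
    (∀ m, (∀ x : ℕ, y ≤ x → (∀ l, (x : ℝ) ≤ Real.exp (c * r l)) → ∀ l ∈ Λ x, ∀ τ : ℝ, |τ| ≤ (x : ℝ) ^ C → ∀ χ : ℕ → ℂ,
      (∀ n, 1 ≤ n → n ≤ x → ‖χ n‖ ≤ (x : ℝ) ^ (δ / 16)) → (∀ n n' : ℕ, n.Coprime n' → χ (n * n') = χ n * χ n') →
      (∀ n ∈ nn (b * b).factorial x, χ n = w x l n * F x l n m) → ∀ M M' : ℕ, M' ≤ x →
      ‖∑ n ∈ Ioc M M', v x l n * χ n * hp τ n‖ ≤ (x : ℝ) ^ (1 / 2 + δ)) → E m) →
      ((((Fintype.piFinset (fun l => powersetCard (r l) (range (K l)))).filter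
        (fun T => ¬ E (fun l => change b (K l) (N l) (f l) (T l)))).card : ℕ) : ℝ) ≤ 1 / (y : ℝ) ^ A * ∏ l, ((K l).choose (r l) : ℝ) := by
  obtain ⟨c, hc, y₀, h⟩ := mt_law b d hb hd (δ / 2) (by positivity) A (B + 6) C
  obtain ⟨L, hL⟩ : ∃ L, L = (b * b).factorial := ⟨_, rfl⟩
  have hL0 : L ≠ 0 := by rw [hL]; exact Nat.factorial_ne_zero _
  obtain ⟨D, hD0, hD⟩ := sm_card L hL0 (δ / 8) (by positivity)
  obtain ⟨x₁, hx₁⟩ := absorb D (δ / 8) hD0.le (by positivity)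
  refine ⟨c, hc, y₀ + x₁ + 3, fun K r y hrK hy N hN f hf κ Λ hΛ F hF v w hv hw E hE => ?_⟩
  refine h K r y hrK (by omega) N hN f hf (κ × ℕ × ℕ × ℕ) (fun x => (Λ x) ×ˢ ((range (x + 1)) ×ˢ ((range (x + 1)) ×ˢ (range (x + 1))))) ?_
    (fun x q => F x q.1) ?_ (fun x q n => if q.2.2.1 < q.2.1 * n ∧ q.2.1 * n ≤ q.2.2.2 then v x q.1 (q.2.1 * n) * w x q.1 n else 0) ?_ E ?_
  · intro x hx
    rw [card_product, card_product, card_product, card_range]
    have h1 := hΛ x hx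
    have h2 : (x + 1) * ((x + 1) * (x + 1)) ≤ x ^ 6 := by
      have h3 : x + 1 ≤ x ^ 2 := by nlinarith
      calc (x + 1) * ((x + 1) * (x + 1)) ≤ x ^ 2 * (x ^ 2 * x ^ 2) := Nat.mul_le_mul h3 (Nat.mul_le_mul h3 h3)
        _ = x ^ 6 := by ring
    calc (Λ x).card * ((x + 1) * ((x + 1) * (x + 1))) ≤ x ^ B * x ^ 6 := Nat.mul_le_mul h1 h2
      _ = x ^ (B + 6) := by rw [pow_add]
  · intro x hx q hq
    rw [mem_product] at hq
    have := hF x hx q.1 hq.1
    have e : δ / 2 / 8 = δ / 16 := by ring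
    rw [e]
    exact this
  · intro x q n
    split_ifs
    · rw [norm_mul]
      calc ‖v x q.1 (q.2.1 * n)‖ * ‖w x q.1 n‖ ≤ 1 * 1 := mul_le_mul (hv _ _ _) (hw _ _ _) (norm_nonneg _) zero_le_one
        _ = 1 := one_mul 1
    · rw [norm_zero]
      exact zero_le_one
  · intro m hm
    apply hE
    intro x hyx hxr l hl τ hτ χ hχ1 hχm hχF M M' hM'
    have hx0 : (0 : ℝ) < x := by exact_mod_cast (by omega : 0 < x)
    have hx1 : (1 : ℝ) ≤ x := by exact_mod_cast (by omega : 1 ≤ x)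
    rw [← hL] at hχF hm
    obtain ⟨G, hG⟩ : ∃ G : ℕ → ℂ, G = fun n => if M < n ∧ n ≤ M' then v x l n * χ n * hp τ n else 0 := ⟨_, rfl⟩
    have e1 : ∑ n ∈ Ioc M M', v x l n * χ n * hp τ n = ∑ n ∈ Icc 1 x, G n := by
      rw [hG, ← sum_filter]
      apply sum_congr _ (fun _ _ => rfl)
      ext n
      rw [mem_Ioc, mem_filter, mem_Icc]
      constructor
      · intro h1
        exact ⟨⟨by omega, by omega⟩, h1⟩
      · intro h1
        exact h1.2
    rw [e1, smooth_sum L x G]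
    have h2 : ∀ a ∈ sm L x, ‖∑ c ∈ nn L x, if a * c ≤ x then G (a * c) else 0‖ ≤ (x : ℝ) ^ (δ / 16) * (x : ℝ) ^ (1 / 2 + δ / 2) := by
      intro a ha
      rw [mem_sm] at ha
      by_cases hMM : M ≤ x
      · have h3 := hm x hyx hxr (l, a, M, M') (by
          rw [mem_product, mem_product, mem_product, mem_range, mem_range, mem_range]
          exact ⟨hl, by show a < x + 1; omega, by show M < x + 1; omega, by show M' < x + 1; omega⟩) τ hτ
        have h4 : (∑ c ∈ nn L x, if a * c ≤ x then G (a * c) else 0) = (χ a * hp τ a) *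
            ∑ n ∈ nn L x, (if M < a * n ∧ a * n ≤ M' then v x l (a * n) * w x l n else 0) * F x l n m * hp τ n := by
          rw [mul_sum]
          apply sum_congr rfl
          intro c hc'
          have hc1 := mem_nn.1 hc'
          rw [hG]
          by_cases h5 : M < a * c ∧ a * c ≤ M'
          · rw [if_pos (by omega)]
            simp only [h5, and_self, if_true]
            rw [hχm a c (smooth_coprime ha.2 hc1.2), hχF c hc', hp_mul τ a c ha.1.1 hc1.1.1]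
            ring
          · simp only [if_neg h5]
            rw [zero_mul, zero_mul, mul_zero]
            split_ifs <;> rfl
        rw [h4, norm_mul, norm_mul, norm_hp, mul_one]
        exact mul_le_mul (hχ1 a ha.1.1 ha.1.2) h3 (norm_nonneg _) (by positivity)
      · have h4 : (∑ c ∈ nn L x, if a * c ≤ x then G (a * c) else 0) = 0 := by
          apply sum_eq_zero
          intro c _
          rw [hG]
          have h5 : ¬ (M < a * c ∧ a * c ≤ M') := by omega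
          simp only [if_neg h5]
          split_ifs <;> rfl
        rw [h4, norm_zero]
        positivity
    refine (norm_sum_le _ _).trans ((sum_le_sum h2).trans ?_)
    rw [sum_const, nsmul_eq_mul]
    have h5 := hD x (by omega)
    have h6 := hx₁ x (by omega)
    have h7 : 0 ≤ Real.log x := Real.log_natCast_nonneg x
    have h8 : D ≤ (x : ℝ) ^ (δ / 8) := by
      have : 0 ≤ D * Real.log x := mul_nonneg hD0.le h7
      linarith
    calc ((sm L x).card : ℝ) * ((x : ℝ) ^ (δ / 16) * (x : ℝ) ^ (1 / 2 + δ / 2)) ≤ (D * (x : ℝ) ^ (δ / 8)) * ((x : ℝ) ^ (δ / 16) * (x : ℝ) ^ (1 / 2 + δ / 2)) :=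
          mul_le_mul_of_nonneg_right h5 (by positivity)
      _ ≤ ((x : ℝ) ^ (δ / 8) * (x : ℝ) ^ (δ / 8)) * ((x : ℝ) ^ (δ / 16) * (x : ℝ) ^ (1 / 2 + δ / 2)) := by gcongr
      _ = (x : ℝ) ^ (δ / 8 + δ / 8 + (δ / 16 + (1 / 2 + δ / 2))) := by
          rw [← Real.rpow_add hx0, ← Real.rpow_add hx0, ← Real.rpow_add hx0]
      _ ≤ (x : ℝ) ^ (1 / 2 + δ) := Real.rpow_le_rpow_of_exponent_le hx1 (by linarith)

/-- local factors of Euler products -/
structure Loc (d L R : ℕ) (P : ℕ → (Fin d → ℕ) → PowerSeries ℂ) : Prop where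
  per : ∀ p : ℕ, p.Prime → ∀ m, P p m = P p (fun i => m i % p)
  one : ∀ p : ℕ, p.Prime → ∀ m, PowerSeries.coeff 0 (P p m) = 1
  bnd : ∀ p : ℕ, p.Prime → ∀ (m : Fin d → ℕ) (k : ℕ), ‖PowerSeries.coeff k (P p m)‖ ≤ ((k : ℝ) + 1) ^ R
  mean : ∀ p : ℕ, p.Prime → ¬ p ∣ L → ∑ m ∈ box d p, PowerSeries.coeff 1 (P p m) = 0

/-- the coefficients of the Euler product -/
noncomputable def co {d : ℕ} (P : ℕ → (Fin d → ℕ) → PowerSeries ℂ) (n : ℕ) (m : Fin d → ℕ) : ℂ :=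
  ∏ p ∈ n.primeFactors, PowerSeries.coeff (n.factorization p) (P p m)

section
variable {d L R : ℕ} {P : ℕ → (Fin d → ℕ) → PowerSeries ℂ}

lemma co_mul (a c : ℕ) (h : a.Coprime c) (m : Fin d → ℕ) : co P (a * c) m = co P a m * co P c m := by
  unfold co
  rw [Nat.Coprime.primeFactors_mul h, prod_union h.disjoint_primeFactors]
  congr 1
  · apply prod_congr rfl
    intro p hp
    rw [Nat.factorization_eq_of_coprime_left h (by
      rw [Nat.mem_primeFactorsList (Nat.mem_primeFactors.1 hp).2.2]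
      exact ⟨(Nat.mem_primeFactors.1 hp).1, (Nat.mem_primeFactors.1 hp).2.1⟩)]
  · apply prod_congr rfl
    intro p hp
    rw [Nat.factorization_eq_of_coprime_right h (by
      rw [Nat.mem_primeFactorsList (Nat.mem_primeFactors.1 hp).2.2]
      exact ⟨(Nat.mem_primeFactors.1 hp).1, (Nat.mem_primeFactors.1 hp).2.1⟩)]

lemma co_prime (p : ℕ) (hp : p.Prime) (m : Fin d → ℕ) : co P p m = PowerSeries.coeff 1 (P p m) := by
  unfold co
  rw [hp.primeFactors, prod_singleton, hp.factorization_self]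

lemma co_bound (h : Loc d L R P) (n : ℕ) (hn : n ≠ 0) (m : Fin d → ℕ) : ‖co P n m‖ ≤ (n.divisors.card : ℝ) ^ R := by
  unfold co
  rw [norm_prod, Nat.card_divisors hn]
  push_cast
  rw [← prod_pow]
  apply prod_le_prod (fun _ _ => norm_nonneg _)
  intro p hp
  exact h.bnd p (Nat.prime_of_mem_primeFactors hp) m _

lemma co_per (h : Loc d L R P) (n : ℕ) : PerC n (co P n) := by
  intro m
  unfold co
  apply prod_congr rfl
  intro p hp
  have hpp := Nat.prime_of_mem_primeFactors hp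
  rw [h.per p hpp m, h.per p hpp (fun i => m i % n)]
  congr 2
  funext i
  exact (Nat.mod_mod_of_dvd _ (Nat.dvd_of_mem_primeFactors hp)).symm

lemma co_fam (h : Loc d L R P) (x : ℕ) (B : ℝ) (hB : ∀ n : ℕ, 1 ≤ n → n ≤ x → (n.divisors.card : ℝ) ^ R ≤ B) : Fam d L x B (co P) where
  per n _ := co_per h n
  mul p n hp hpn _ m := co_mul p n ((Nat.Prime.coprime_iff_not_dvd hp).2 hpn) m
  bnd n hn m := by
    rw [mem_nn] at hn
    exact (co_bound h n (by omega) m).trans (hB n hn.1.1 hn.1.2)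
  mean p hp hp' := by
    rw [sum_congr rfl (fun m _ => co_prime p hp' m)]
    apply h.mean p hp'
    rw [mem_nn] at hp
    exact (Nat.Prime.coprime_iff_not_dvd hp').1 hp.2

end

open Classical in
/-- **Coefficients of Euler products.** -/
theorem euler_law (b d R : ℕ) (hb : 2 ≤ b) (hd : 1 ≤ d) (δ : ℝ) (hδ : 0 < δ) (A B C : ℕ) : ∃ c : ℝ, 0 < c ∧ ∃ y₀ : ℕ,
    ∀ (K r : Fin d → ℕ) (y : ℕ), (∀ l, 2 * r l ≤ K l) → y₀ ≤ y →
    ∀ N : Fin d → ℕ, (∀ l, N l < b ^ K l) → ∀ f : Fin d → ℕ → ℕ, (∀ l j, f l j < b ∧ f l j ≠ N l / b ^ j % b) →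
    ∀ (κ : Type) (Λ : ℕ → Finset κ), (∀ x, y ≤ x → (Λ x).card ≤ x ^ B) →
    ∀ (P : κ → ℕ → (Fin d → ℕ) → PowerSeries ℂ), (∀ i, Loc d (b * b).factorial R (P i)) →
    ∀ (w : κ → ℕ → ℂ), (∀ i n, ‖w i n‖ ≤ 1) →
    ∀ E : (Fin d → ℕ) → Prop,
    (∀ m, (∀ x : ℕ, y ≤ x → (∀ l, (x : ℝ) ≤ Real.exp (c * r l)) → ∀ i ∈ Λ x, ∀ τ : ℝ, |τ| ≤ (x : ℝ) ^ C → ∀ M M' : ℕ, M' ≤ x →
      ‖∑ n ∈ Ioc M M', w i n * co (P i) n m * hp τ n‖ ≤ (x : ℝ) ^ (1 / 2 + δ)) → E m) →
      ((((Fintype.piFinset (fun l => powersetCard (r l) (range (K l)))).filter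
        (fun T => ¬ E (fun l => change b (K l) (N l) (f l) (T l)))).card : ℕ) : ℝ) ≤ 1 / (y : ℝ) ^ A * ∏ l, ((K l).choose (r l) : ℝ) := by
  obtain ⟨c, hc, y₀, h⟩ := mt_law3 b d hb hd δ hδ A B C
  obtain ⟨D, hD0, hD⟩ := H353.divisor_bound_real (δ / (32 * (R + 1))) (by positivity)
  obtain ⟨x₁, hx₁⟩ := absorb (D ^ R) (δ / 32) (by positivity) (by positivity)
  refine ⟨c, hc, y₀ + x₁ + 2, fun K r y hrK hy N hN f hf κ Λ hΛ P hP w hw E hE => ?_⟩
  have hdiv : ∀ x, y ≤ x → ∀ n : ℕ, 1 ≤ n → n ≤ x → (n.divisors.card : ℝ) ^ R ≤ (x : ℝ) ^ (δ / 16) := by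
    intro x hyx n hn1 hnx
    have hx0 : (0 : ℝ) < x := by exact_mod_cast (by omega : 0 < x)
    have hx1 : (1 : ℝ) ≤ x := by exact_mod_cast (by omega : 1 ≤ x)
    have h1 := hD n (by omega)
    have h2 := hx₁ x (by omega)
    have h3 : 0 ≤ Real.log x := Real.log_natCast_nonneg x
    have h4 : D ^ R ≤ (x : ℝ) ^ (δ / 32) := by
      have : 0 ≤ D ^ R * Real.log x := by positivity
      linarith
    have hnx' : (n : ℝ) ≤ x := by exact_mod_cast hnx
    calc (n.divisors.card : ℝ) ^ R ≤ (D * (n : ℝ) ^ (δ / (32 * (R + 1)))) ^ R := pow_le_pow_left₀ (Nat.cast_nonneg _) h1 _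
      _ ≤ (D * (x : ℝ) ^ (δ / (32 * (R + 1)))) ^ R := by gcongr
      _ = D ^ R * (x : ℝ) ^ (δ / (32 * (R + 1)) * R) := by
          rw [mul_pow, ← Real.rpow_natCast ((x : ℝ) ^ _), ← Real.rpow_mul hx0.le]
      _ ≤ (x : ℝ) ^ (δ / 32) * (x : ℝ) ^ (δ / 32) := by
          apply mul_le_mul h4 _ (by positivity) (by positivity)
          apply Real.rpow_le_rpow_of_exponent_le hx1
          rw [div_mul_eq_mul_div, div_le_div_iff₀ (by positivity) (by norm_num)]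
          nlinarith
      _ = (x : ℝ) ^ (δ / 16) := by
          rw [← Real.rpow_add hx0]
          congr 1
          ring
  refine h K r y hrK (by omega) N hN f hf κ Λ hΛ (fun x i => co (P i)) ?_ (fun x i n => w i n) (fun x i n => 1) (fun x i n => hw i n)
    (fun x i n => by rw [norm_one]) E ?_
  · intro x hx i _
    exact co_fam (hP i) x _ (hdiv x hx)
  · intro m hm
    apply hE
    intro x hyx hxr i hi τ hτ M M' hM'
    refine hm x hyx hxr i hi τ hτ (fun n => co (P i) n m) ?_ (fun n n' hnn => co_mul n n' hnn m) (fun n _ => (one_mul _).symm) M M' hM'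
    intro n hn1 hnx
    exact (co_bound (hP i) n (by omega) m).trans (hdiv x hyx n hn1 hnx)

/-- products of power series with bounded coefficients -/
lemma coeff_mul_bound (f g : PowerSeries ℂ) (R S : ℕ) (hf : ∀ k : ℕ, ‖PowerSeries.coeff k f‖ ≤ ((k : ℝ) + 1) ^ R)
    (hg : ∀ k : ℕ, ‖PowerSeries.coeff k g‖ ≤ ((k : ℝ) + 1) ^ S) (k : ℕ) : ‖PowerSeries.coeff k (f * g)‖ ≤ ((k : ℝ) + 1) ^ (R + S + 1) := by
  rw [PowerSeries.coeff_mul]
  refine (norm_sum_le _ _).trans ?_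
  have h1 : ∀ z ∈ antidiagonal k, ‖PowerSeries.coeff z.1 f * PowerSeries.coeff z.2 g‖ ≤ ((k : ℝ) + 1) ^ (R + S) := by
    intro z hz
    rw [HasAntidiagonal.mem_antidiagonal] at hz
    have e1 : (z.1 : ℝ) + 1 ≤ k + 1 := by
      have : z.1 ≤ k := by omega
      have : (z.1 : ℝ) ≤ k := by exact_mod_cast this
      linarith
    have e2 : (z.2 : ℝ) + 1 ≤ k + 1 := by
      have : z.2 ≤ k := by omega
      have : (z.2 : ℝ) ≤ k := by exact_mod_cast this
      linarith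
    rw [norm_mul, pow_add]
    apply mul_le_mul ((hf z.1).trans (pow_le_pow_left₀ (by positivity) e1 R)) ((hg z.2).trans (pow_le_pow_left₀ (by positivity) e2 S)) (norm_nonneg _) (by positivity)
  refine (sum_le_card_nsmul _ _ _ h1).trans ?_
  rw [Nat.card_antidiagonal, nsmul_eq_mul, pow_succ]
  push_cast
  rw [mul_comm]

lemma coeff_prod_bound {ι : Type*} (S : Finset ι) (f : ι → PowerSeries ℂ) (R : ℕ) (hf : ∀ i ∈ S, ∀ k : ℕ, ‖PowerSeries.coeff k (f i)‖ ≤ ((k : ℝ) + 1) ^ R)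
    (k : ℕ) : ‖PowerSeries.coeff k (∏ i ∈ S, f i)‖ ≤ ((k : ℝ) + 1) ^ ((R + 1) * S.card) := by
  classical
  induction S using Finset.induction_on generalizing k with
  | empty =>
    rw [prod_empty, card_empty, mul_zero, pow_zero, PowerSeries.coeff_one]
    split_ifs <;> simp
  | insert a S ha ih =>
    rw [prod_insert ha, card_insert_of_notMem ha]
    have h1 := coeff_mul_bound (f a) (∏ i ∈ S, f i) R ((R + 1) * S.card) (hf a (mem_insert_self a S))
      (fun k => ih (fun i hi => hf i (mem_insert_of_mem hi)) k) k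
    refine h1.trans (le_of_eq ?_)
    congr 1
    ring

end Pool.Agent.X22.MT
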