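import Pool.Agent.TH892.RT.RT6

/-!
Library X22.MuRT (helper22): one function with small exponential sums in short windows at a random polynomial,
multiplied by an arbitrary function of the other random polynomials; the Moebius function.
-/

set_option autoImplicit false

namespace Pool.Agent.X22.MuRT

open Finset Pool.Agent.TH892.RT
open Pool.Agent.TH823.MRS (ExpoSmall)

/-- one function of the other polynomials, one length -/
lemma one_gen (h : ℕ → ℂ) (hb : ∀ n, ‖h n‖ ≤ 1) (hE : ExpoSmall h) (k d : ℕ) (hd : 1 ≤ d) (C ε η : ℝ) (hε : 0 < ε)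
    (hη : 0 < η) : ∃ x₀ : ℕ, ∃ δ : ℝ, 0 < δ ∧ δ ≤ 1 ∧ ∀ H x : ℕ, x₀ ≤ x → (x : ℝ) ≤ δ * H →
    ∀ g : Fin k → ℕ → ℤ, (∀ i n, 1 ≤ n → n ≤ x → |(g i n : ℝ)| ≤ C * H * n ^ d) →
    ∀ (i0 : Fin k) (Φ : (Fin k → Fin (d + 1) → ℤ) → ℕ → ℂ), (∀ a n, ‖Φ a n‖ ≤ 1) →
    (∀ a v n, Φ (Function.update a i0 v) n = Φ a n) →
      ((((Bk k d H).filter (fun a => η * x < ‖∑ n ∈ Icc 1 x, Φ a n * hz h (pv (a i0) n + g i0 n)‖)).card : ℕ) : ℝ) ≤
        ε * (Bk k d H).card := by
  obtain ⟨x₀, δ, hδ0, hδ1, hS⟩ := second_moment h hb hE d hd C (ε * η ^ 2) (by positivity)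
  refine ⟨max x₀ 1, δ, hδ0, hδ1, fun H x hx0 hxH g hg i0 Φ hΦ hΦu => ?_⟩
  have hx1 : x₀ ≤ x := (le_max_left _ _).trans hx0
  have hx2 : 1 ≤ x := (le_max_right _ _).trans hx0
  have hxr : (0 : ℝ) < x := by exact_mod_cast hx2
  apply fibre k d H i0 _ ε hε.le
  intro a
  have h1 := hS H x hx1 hxH (g i0) (hg i0) (Φ a) (hΦ a)
  have h2 := cheb (Bx d H) (fun v => ‖∑ n ∈ Icc 1 x, Φ a n * hz h (pv v n + g i0 n)‖) (fun _ _ => norm_nonneg _)
    (η * x) _ (by positivity) h1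
  have e2 : (Bx d H).filter (fun v => η * x < ‖∑ n ∈ Icc 1 x, Φ (Function.update a i0 v) n *
      hz h (pv (Function.update a i0 v i0) n + g i0 n)‖) =
      (Bx d H).filter (fun v => η * x < ‖∑ n ∈ Icc 1 x, Φ a n * hz h (pv v n + g i0 n)‖) := by
    apply filter_congr
    intro v _
    simp only [hΦu, Function.update_self]
  rw [e2]
  refine h2.trans (le_of_eq ?_)
  field_simp

/-- finitely many functions of the other polynomials, all lengths -/
theorem all_gen {ι : Type} [Fintype ι] (h : ℕ → ℂ) (hb : ∀ n, ‖h n‖ ≤ 1) (hE : ExpoSmall h) (k d : ℕ) (hd : 1 ≤ d)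
    (C ε : ℝ) (hε : 0 < ε) :
    ∃ x₀ : ℕ, ∃ δ : ℝ, 0 < δ ∧ δ ≤ 1 ∧ ∀ H x : ℕ, x₀ ≤ x → (x : ℝ) ≤ δ * H →
    ∀ g : Fin k → ℕ → ℤ, (∀ i n, 1 ≤ n → n ≤ x → |(g i n : ℝ)| ≤ C * H * n ^ d) →
    ∀ (i0 : ι → Fin k) (Φ : ι → (Fin k → Fin (d + 1) → ℤ) → ℕ → ℂ), (∀ l a n, ‖Φ l a n‖ ≤ 1) →
    (∀ l a v n, Φ l (Function.update a (i0 l) v) n = Φ l a n) →
      ∃ E ⊆ Bk k d H, (E.card : ℝ) ≤ ε * (Bk k d H).card ∧ ∀ a ∈ Bk k d H, a ∉ E → ∀ y ≤ x, ∀ l,
        ‖∑ n ∈ Icc 1 y, Φ l a n * hz h (pv (a (i0 l)) n + g (i0 l) n)‖ ≤ ε * x := by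
  classical
  set J : ℕ := ⌈4 / ε⌉₊ + 1 with hJ
  have hJ1 : 1 ≤ J := by omega
  have hJr : (0 : ℝ) < J := by exact_mod_cast hJ1
  have hJε : 4 / ε ≤ J := (Nat.le_ceil _).trans (by exact_mod_cast (by omega : ⌈4 / ε⌉₊ ≤ J))
  set m : ℕ := (Fintype.card ι + 1) * (J + 1) with hm
  have hm0 : (0 : ℝ) < m := by rw [hm]; positivity
  obtain ⟨x₀, δ, hδ0, hδ1, hS⟩ := one_gen h hb hE k d hd C (ε / m) (ε / 2) (by positivity) (by positivity)
  refine ⟨max x₀ ⌈4 / ε⌉₊, δ, hδ0, hδ1, fun H x hx0 hxH g hg i0 Φ hΦ hΦu => ?_⟩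
  have hx1 : x₀ ≤ x := (le_max_left _ _).trans hx0
  have hx2 : 4 / ε ≤ x := (Nat.le_ceil _).trans (by exact_mod_cast (le_max_right _ _).trans hx0)
  have hx3 : (0 : ℝ) < x := lt_of_lt_of_le (by positivity) hx2
  -- the weights
  set Φj : ℕ → ι → (Fin k → Fin (d + 1) → ℤ) → ℕ → ℂ := fun j l a n => if n * J ≤ j * x then Φ l a n else 0 with hΦj
  have hΦj1 : ∀ j l a n, ‖Φj j l a n‖ ≤ 1 := by
    intro j l a n
    rw [hΦj]
    simp only
    split_ifs
    · exact hΦ l a n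
    · simp
  have hΦju : ∀ j l a v n, Φj j l (Function.update a (i0 l) v) n = Φj j l a n := by
    intro j l a v n
    rw [hΦj]
    simp only [hΦu]
  set Ej : ℕ → ι → Finset (Fin k → Fin (d + 1) → ℤ) := fun j l => (Bk k d H).filter
    (fun a => ε / 2 * x < ‖∑ n ∈ Icc 1 x, Φj j l a n * hz h (pv (a (i0 l)) n + g (i0 l) n)‖) with hEj
  refine ⟨(range (J + 1)).biUnion fun j => (univ : Finset ι).biUnion (Ej j), ?_, ?_, ?_⟩
  · intro a ha
    rw [mem_biUnion] at ha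
    obtain ⟨j, _, ha⟩ := ha
    rw [mem_biUnion] at ha
    obtain ⟨I, _, ha⟩ := ha
    exact (mem_filter.1 ha).1
  · have c1 : ∀ j, (((univ : Finset ι).biUnion (Ej j)).card : ℝ) ≤
        (Fintype.card ι + 1) * (ε / m * (Bk k d H).card) := by
      intro j
      calc (((univ : Finset ι).biUnion (Ej j)).card : ℝ) ≤ ∑ l : ι, ((Ej j l).card : ℝ) := by
            exact_mod_cast card_biUnion_le
        _ ≤ ∑ l : ι, ε / m * (Bk k d H).card := by
            apply sum_le_sum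
            intro l _
            exact hS H x hx1 hxH g hg (i0 l) (Φj j l) (hΦj1 j l) (hΦju j l)
        _ = Fintype.card ι * (ε / m * (Bk k d H).card) := by
            rw [sum_const, nsmul_eq_mul, card_univ]
        _ ≤ _ := by
            apply mul_le_mul_of_nonneg_right _ (by positivity)
            linarith
    calc _ ≤ ∑ j ∈ range (J + 1), (((univ : Finset ι).biUnion (Ej j)).card : ℝ) := by
          exact_mod_cast card_biUnion_le
      _ ≤ ∑ j ∈ range (J + 1), (Fintype.card ι + 1) * (ε / m * (Bk k d H).card) := sum_le_sum fun j _ => c1 j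
      _ = ε * (Bk k d H).card := by
          rw [sum_const, card_range, nsmul_eq_mul, hm]
          push_cast
          field_simp
  · intro a ha haE y hy l
    -- choose `j`
    set j : ℕ := y * J / x with hj
    have hxn : 0 < x := by exact_mod_cast hx3
    have hjJ : j ≤ J := by
      rw [hj]
      calc y * J / x ≤ x * J / x := Nat.div_le_div_right (Nat.mul_le_mul_right _ hy)
        _ = J := Nat.mul_div_cancel_left _ hxn
    have hj1 : j * x ≤ y * J := Nat.div_mul_le_self _ _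
    have hj2 : y * J < (j + 1) * x := by
      rw [hj]
      have := Nat.lt_div_mul_add (a := y * J) hxn
      linarith
    have hgood : ‖∑ n ∈ Icc 1 x, Φj j l a n * hz h (pv (a (i0 l)) n + g (i0 l) n)‖ ≤ ε / 2 * x := by
      by_contra hcon
      push Not at hcon
      apply haE
      rw [mem_biUnion]
      refine ⟨j, mem_range.2 (by omega), ?_⟩
      rw [mem_biUnion]
      refine ⟨l, mem_univ _, ?_⟩
      rw [hEj, mem_filter]
      exact ⟨ha, hcon⟩
    set P : ℕ → ℂ := fun n => hz h (pv (a (i0 l)) n + g (i0 l) n) with hP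
    have hP1 : ∀ n, ‖P n‖ ≤ 1 := fun n => hz_norm h hb _
    have e1 : ∑ n ∈ Icc 1 y, Φ l a n * P n = ∑ n ∈ Icc 1 x, Φj j l a n * P n +
        ∑ n ∈ (Icc 1 y).filter (fun n => ¬ n * J ≤ j * x), Φ l a n * P n := by
      rw [← sum_filter_add_sum_filter_not (Icc 1 y) (fun n => n * J ≤ j * x)]
      congr 1
      rw [hΦj]
      simp only [ite_mul, zero_mul]
      rw [← sum_filter]
      apply sum_congr _ (fun _ _ => rfl)
      ext n
      rw [mem_filter, mem_filter, mem_Icc, mem_Icc]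
      constructor
      · rintro ⟨⟨h1, h2⟩, h3⟩
        exact ⟨⟨h1, h2.trans hy⟩, h3⟩
      · rintro ⟨⟨h1, _⟩, h3⟩
        refine ⟨⟨h1, ?_⟩, h3⟩
        exact Nat.le_of_mul_le_mul_right (h3.trans hj1) hJ1
    have c1 : ((((Icc 1 y).filter (fun n => ¬ n * J ≤ j * x)).card : ℕ) : ℝ) ≤ (x : ℝ) / J + 1 := by
      have h1 : ((Icc 1 y).filter (fun n => ¬ n * J ≤ j * x)).card ≤ (Ioc (j * x / J) y).card := by
        apply card_le_card
        intro n hn
        rw [mem_filter, mem_Icc] at hn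
        rw [mem_Ioc]
        refine ⟨?_, hn.1.2⟩
        rw [Nat.div_lt_iff_lt_mul hJ1]
        omega
      rw [Nat.card_Ioc] at h1
      have h2 : (y : ℝ) ≤ ((j : ℝ) + 1) * x / J := by
        rw [le_div_iff₀ hJr]
        exact_mod_cast hj2.le
      have h3 : (j : ℝ) * x / J < ((j * x / J : ℕ) : ℝ) + 1 := by
        rw [div_lt_iff₀ hJr]
        have := Nat.lt_div_mul_add (a := j * x) hJ1
        have h4 : (j * x : ℕ) < (j * x / J + 1) * J := by linarith
        exact_mod_cast h4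
      rcases Nat.le_total (j * x / J) y with h | h
      · calc ((((Icc 1 y).filter (fun n => ¬ n * J ≤ j * x)).card : ℕ) : ℝ) ≤ ((y - j * x / J : ℕ) : ℝ) := by exact_mod_cast h1
          _ = (y : ℝ) - ((j * x / J : ℕ) : ℝ) := by rw [Nat.cast_sub h]
          _ ≤ _ := by
            have : ((j : ℝ) + 1) * x / J = (j : ℝ) * x / J + x / J := by ring
            linarith
      · have : y - j * x / J = 0 := Nat.sub_eq_zero_of_le h
        rw [this] at h1
        have h5 : ((((Icc 1 y).filter (fun n => ¬ n * J ≤ j * x)).card : ℕ) : ℝ) ≤ 0 := by exact_mod_cast h1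
        refine h5.trans (by positivity)
    have c2 : (x : ℝ) / J + 1 ≤ ε / 2 * x := by
      have h1 : (x : ℝ) / J ≤ ε / 4 * x := by
        rw [div_le_iff₀ hJr]
        rw [div_le_iff₀ hε] at hJε
        have : (1 : ℝ) * x ≤ (ε * J / 4) * x := mul_le_mul_of_nonneg_right (by linarith) hx3.le
        linarith
      have h2 : 1 ≤ ε / 4 * x := by
        rw [div_le_iff₀ hε] at hx2
        linarith
      linarith
    change ‖∑ n ∈ Icc 1 y, Φ l a n * P n‖ ≤ _
    rw [e1]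
    refine (norm_add_le _ _).trans ?_
    have c3 : ‖∑ n ∈ (Icc 1 y).filter (fun n => ¬ n * J ≤ j * x), Φ l a n * P n‖ ≤ ε / 2 * x := by
      refine (norm_sum_le _ _).trans ?_
      refine le_trans ?_ (c1.trans c2)
      calc ∑ n ∈ (Icc 1 y).filter (fun n => ¬ n * J ≤ j * x), ‖Φ l a n * P n‖ ≤
            ∑ n ∈ (Icc 1 y).filter (fun n => ¬ n * J ≤ j * x), (1 : ℝ) := by
            apply sum_le_sum
            intro n _
            rw [norm_mul]
            exact mul_le_one₀ (hΦ l a n) (norm_nonneg _) (hP1 n)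
        _ = _ := by simp
    linarith

/-- the Moebius function of the absolute value of an integer -/
def mob (u : ℤ) : ℤ := ArithmeticFunction.moebius u.natAbs

lemma mob_cases (u : ℤ) : mob u = -1 ∨ mob u = 0 ∨ mob u = 1 := by
  have h := abs_le.1 (ArithmeticFunction.abs_moebius_le_one (n := u.natAbs))
  unfold mob
  omega

/-- the power `μ ^ c`, `c = 0, 1, 2` -/
def mp (c : Fin 3) (u : ℤ) : ℤ := mob u ^ (c : ℕ)

lemma mp_norm (c : Fin 3) (u : ℤ) : ‖((mp c u : ℤ) : ℂ)‖ ≤ 1 := by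
  rw [Complex.norm_intCast]
  unfold mp
  rcases mob_cases u with h | h | h <;> rw [h]
  · simp
  · push_cast
    rcases Nat.eq_zero_or_pos (c : ℕ) with h0 | h0
    · rw [h0]; simp
    · rw [zero_pow (by omega)]; simp
  · simp

lemma hz_mob (u : ℤ) : hz (fun n => ((ArithmeticFunction.moebius n : ℤ) : ℂ)) u = ((mob u : ℤ) : ℂ) := rfl

lemma mu_le (n : ℕ) : ‖((ArithmeticFunction.moebius n : ℤ) : ℂ)‖ ≤ 1 := by
  have h1 : |ArithmeticFunction.moebius n| ≤ 1 := ArithmeticFunction.abs_moebius_le_one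
  rw [Complex.norm_intCast]
  exact_mod_cast h1

/-- products of Moebius values and of their squares at random polynomials -/
theorem mob_all (k d : ℕ) (hd : 1 ≤ d) (C ε : ℝ) (hε : 0 < ε) :
    ∃ x₀ : ℕ, ∃ δ : ℝ, 0 < δ ∧ δ ≤ 1 ∧ ∀ H x : ℕ, x₀ ≤ x → (x : ℝ) ≤ δ * H →
    ∀ g : Fin k → ℕ → ℤ, (∀ i n, 1 ≤ n → n ≤ x → |(g i n : ℝ)| ≤ C * H * n ^ d) → ∀ w : ℕ → ℂ, (∀ n, ‖w n‖ ≤ 1) →
      ∃ E ⊆ Bk k d H, (E.card : ℝ) ≤ ε * (Bk k d H).card ∧ ∀ a ∈ Bk k d H, a ∉ E → ∀ y ≤ x,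
        ∀ c : Fin k → Fin 3, (∃ i, c i = 1) →
          ‖∑ n ∈ Icc 1 y, w n * ∏ i, ((mp (c i) (pv (a i) n + g i n) : ℤ) : ℂ)‖ ≤ ε * x := by
  classical
  obtain ⟨x₀, δ, hδ0, hδ1, hS⟩ := all_gen (ι := {c : Fin k → Fin 3 // ∃ i, c i = 1})
    (fun n => ((ArithmeticFunction.moebius n : ℤ) : ℂ)) mu_le Pool.Agent.TH823.MRS.expo_mob k d hd C ε hε
  refine ⟨x₀, δ, hδ0, hδ1, fun H x hx0 hxH g hg w hw => ?_⟩
  obtain ⟨E, hE, hEc, hEg⟩ := hS H x hx0 hxH g hg (fun c => c.2.choose)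
    (fun c a n => w n * ∏ i ∈ univ.erase c.2.choose, ((mp (c.1 i) (pv (a i) n + g i n) : ℤ) : ℂ)) (by
      intro c a n
      rw [norm_mul, norm_prod]
      apply mul_le_one₀ (hw n) (prod_nonneg fun _ _ => norm_nonneg _)
      exact prod_le_one (fun _ _ => norm_nonneg _) (fun _ _ => mp_norm _ _)) (by
      intro c a v n
      congr 1
      apply prod_congr rfl
      intro i hi
      rw [Function.update_of_ne (ne_of_mem_erase hi)])
  refine ⟨E, hE, hEc, fun a ha haE y hy c hc => ?_⟩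
  refine le_trans (le_of_eq ?_) (hEg a ha haE y hy ⟨c, hc⟩)
  congr 1
  apply sum_congr rfl
  intro n _
  rw [mul_assoc]
  congr 1
  rw [hz_mob, mul_comm]
  have h1 : ((mob (pv (a hc.choose) n + g hc.choose n) : ℤ) : ℂ) =
      ((mp (c hc.choose) (pv (a hc.choose) n + g hc.choose n) : ℤ) : ℂ) := by
    rw [hc.choose_spec]
    unfold mp
    simp
  rw [h1, mul_prod_erase univ (fun i => ((mp (c i) (pv (a i) n + g i n) : ℤ) : ℂ)) (mem_univ _)]

/-- the coefficients of the indicator functions of the values -/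
def kap (v : ℤ) (c : Fin 3) : ℤ := if c = 0 then (if v = 0 then 1 else 0) else if c = 1 then v else (if v = 0 then -1 else 1)

lemma kap_le (v : ℤ) (hv : v = -1 ∨ v = 0 ∨ v = 1) (c : Fin 3) : |kap v c| ≤ 1 := by
  rcases hv with rfl | rfl | rfl <;> fin_cases c <;> simp [kap]

lemma kap_one (v s : ℤ) (hv : v = -1 ∨ v = 0 ∨ v = 1) (hs : s = -1 ∨ s = 0 ∨ s = 1) :
    (if s = v then (1 : ℤ) else 0) * (if v ≠ 0 then 2 else 1) = ∑ c : Fin 3, kap v c * s ^ (c : ℕ) := by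
  rcases hv with rfl | rfl | rfl <;> rcases hs with rfl | rfl | rfl <;> simp [kap, Fin.sum_univ_three]

lemma kap_two (v s : ℤ) (hv : v = -1 ∨ v = 0 ∨ v = 1) (hs : s = -1 ∨ s = 0 ∨ s = 1) :
    (if |s| = |v| then (1 : ℤ) else 0) = ∑ c ∈ ({0, 2} : Finset (Fin 3)), kap v c * s ^ (c : ℕ) := by
  rcases hv with rfl | rfl | rfl <;> rcases hs with rfl | rfl | rfl <;> simp [kap]

lemma patterns3 (k : ℕ) (T : Finset ℕ) (s : Fin k → ℕ → ℤ) (hs : ∀ i n, s i n = -1 ∨ s i n = 0 ∨ s i n = 1) (B : ℝ)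
    (hB0 : 0 ≤ B) (hB : ∀ c : Fin k → Fin 3, (∃ i, c i = 1) → |((∑ n ∈ T, ∏ i, s i n ^ (c i : ℕ) : ℤ) : ℝ)| ≤ B)
    (v : Fin k → ℤ) (hv : ∀ i, v i = -1 ∨ v i = 0 ∨ v i = 1) :
    |((((T.filter (fun n => ∀ i, s i n = v i)).card : ℕ) : ℝ)) -
      ((T.filter (fun n => ∀ i, |s i n| = |v i|)).card : ℝ) / 2 ^ (univ.filter (fun i => v i ≠ 0)).card| ≤ 3 ^ k * B := by
  classical
  set m : ℕ := (univ.filter (fun i => v i ≠ 0)).card with hm
  set F : (Fin k → Fin 3) → ℕ → ℤ := fun c n => (∏ i, kap (v i) (c i)) * ∏ i, s i n ^ (c i : ℕ) with hF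
  have e2m : ((2 : ℤ) ^ m) = ∏ i, (if v i ≠ 0 then (2 : ℤ) else 1) := by
    rw [prod_ite, prod_const, prod_const_one, mul_one]
  have e1 : ∀ n, (if ∀ i, s i n = v i then (1 : ℤ) else 0) * 2 ^ m = ∑ c : Fin k → Fin 3, F c n := by
    intro n
    have h1 : (if ∀ i, s i n = v i then (1 : ℤ) else 0) = ∏ i, (if s i n = v i then (1 : ℤ) else 0) := by
      rw [prod_boole]
      simp
    rw [h1, e2m, ← prod_mul_distrib, prod_congr rfl (fun i _ => kap_one (v i) (s i n) (hv i) (hs i n)),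
      prod_univ_sum]
    rw [Fintype.piFinset_univ]
    refine sum_congr rfl fun c _ => ?_
    rw [hF]
    simp only
    rw [← prod_mul_distrib]
  have e2 : ∀ n, (if ∀ i, |s i n| = |v i| then (1 : ℤ) else 0) =
      ∑ c ∈ (univ : Finset (Fin k → Fin 3)).filter (fun c => ¬ ∃ i, c i = 1), F c n := by
    intro n
    have h1 : (if ∀ i, |s i n| = |v i| then (1 : ℤ) else 0) = ∏ i, (if |s i n| = |v i| then (1 : ℤ) else 0) := by
      rw [prod_boole]
      simp
    rw [h1, prod_congr rfl (fun i _ => kap_two (v i) (s i n) (hv i) (hs i n)), prod_univ_sum]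
    have h2 : Fintype.piFinset (fun _ : Fin k => ({0, 2} : Finset (Fin 3))) =
        (univ : Finset (Fin k → Fin 3)).filter (fun c => ¬ ∃ i, c i = 1) := by
      ext c
      rw [Fintype.mem_piFinset, mem_filter]
      push Not
      have h3 : ∀ a : Fin 3, a ∈ ({0, 2} : Finset (Fin 3)) ↔ a ≠ 1 := by decide
      simp only [h3, mem_univ, true_and]
    rw [h2]
    refine sum_congr rfl fun c _ => ?_
    rw [hF]
    simp only
    rw [← prod_mul_distrib]
  have e3 : (((T.filter (fun n => ∀ i, s i n = v i)).card : ℕ) : ℤ) * 2 ^ m -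
      (((T.filter (fun n => ∀ i, |s i n| = |v i|)).card : ℕ) : ℤ) =
      ∑ c ∈ (univ : Finset (Fin k → Fin 3)).filter (fun c => ∃ i, c i = 1),
        (∏ i, kap (v i) (c i)) * ∑ n ∈ T, ∏ i, s i n ^ (c i : ℕ) := by
    rw [card_filter, card_filter]
    push_cast
    rw [sum_mul, sum_congr rfl (fun n _ => e1 n), sum_congr rfl (fun n _ => e2 n), ← sum_sub_distrib]
    have h4 : ∀ n, ∑ c : Fin k → Fin 3, F c n -
        ∑ c ∈ (univ : Finset (Fin k → Fin 3)).filter (fun c => ¬ ∃ i, c i = 1), F c n =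
        ∑ c ∈ (univ : Finset (Fin k → Fin 3)).filter (fun c => ∃ i, c i = 1), F c n := by
      intro n
      rw [← sum_filter_add_sum_filter_not univ (fun c : Fin k → Fin 3 => ∃ i, c i = 1) (fun c => F c n)]
      ring
    rw [sum_congr rfl (fun n _ => h4 n), sum_comm]
    refine sum_congr rfl fun c _ => ?_
    rw [mul_sum]
  have e4 : |(((((T.filter (fun n => ∀ i, s i n = v i)).card : ℕ) : ℤ) * 2 ^ m -
      (((T.filter (fun n => ∀ i, |s i n| = |v i|)).card : ℕ) : ℤ) : ℤ) : ℝ)| ≤ 3 ^ k * B := by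
    rw [e3]
    push_cast
    refine (abs_sum_le_sum_abs _ _).trans ?_
    calc ∑ c ∈ (univ : Finset (Fin k → Fin 3)).filter (fun c => ∃ i, c i = 1),
          |(∏ i, (kap (v i) (c i) : ℝ)) * ∑ n ∈ T, ∏ i, (s i n : ℝ) ^ (c i : ℕ)| ≤
          ∑ c ∈ (univ : Finset (Fin k → Fin 3)).filter (fun c => ∃ i, c i = 1), B := by
          apply sum_le_sum
          intro c hc
          rw [abs_mul, abs_prod]
          have h1 : ∏ i, |(kap (v i) (c i) : ℝ)| ≤ 1 := by
            apply prod_le_one (fun _ _ => abs_nonneg _)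
            intro i _
            exact_mod_cast kap_le (v i) (hv i) (c i)
          have h2 := hB c (mem_filter.1 hc).2
          push_cast at h2
          calc _ ≤ 1 * B := mul_le_mul h1 h2 (abs_nonneg _) zero_le_one
            _ = B := one_mul _
      _ ≤ ∑ c : Fin k → Fin 3, B := sum_le_sum_of_subset_of_nonneg (filter_subset _ _) (fun _ _ _ => hB0)
      _ = 3 ^ k * B := by
          rw [sum_const, card_univ, Fintype.card_fun, Fintype.card_fin, Fintype.card_fin, nsmul_eq_mul]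
          push_cast
          rfl
  have h2m : (0 : ℝ) < 2 ^ m := by positivity
  have e5 : ((((T.filter (fun n => ∀ i, s i n = v i)).card : ℕ) : ℝ)) -
      ((T.filter (fun n => ∀ i, |s i n| = |v i|)).card : ℝ) / 2 ^ m =
      (((((T.filter (fun n => ∀ i, s i n = v i)).card : ℕ) : ℤ) * 2 ^ m -
      (((T.filter (fun n => ∀ i, |s i n| = |v i|)).card : ℕ) : ℤ) : ℤ) : ℝ) / 2 ^ m := by
    push_cast
    field_simp
  rw [e5, abs_div, abs_of_pos h2m]
  refine (div_le_self (abs_nonneg _) (one_le_pow₀ (by norm_num))).trans e4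

/-- **Moebius values at several random polynomials.** -/
theorem final (k d : ℕ) (hd : 1 ≤ d) (C ε : ℝ) (hε : 0 < ε) :
    ∃ x₀ : ℕ, ∃ δ : ℝ, 0 < δ ∧ ∀ H x : ℕ, x₀ ≤ x → (x : ℝ) ≤ δ * H →
    ∀ g : Fin k → ℕ → ℤ, (∀ i n, 1 ≤ n → n ≤ x → |(g i n : ℝ)| ≤ C * H * n ^ d) →
    ∀ w : ℕ → ℂ, (∀ n, ‖w n‖ ≤ 1) → ∀ T : Finset ℕ,
      ∃ E ⊆ Bk k d H, (E.card : ℝ) ≤ ε * (Bk k d H).card ∧ ∀ a ∈ Bk k d H, a ∉ E → ∀ y ≤ x,
        (∀ c : Fin k → Fin 3, (∃ i, c i = 1) →
          ‖∑ n ∈ Icc 1 y, w n * ∏ i, ((mob (pv (a i) n + g i n) : ℤ) : ℂ) ^ (c i : ℕ)‖ ≤ ε * x) ∧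
        (∀ v : Fin k → ℤ, (∀ i, v i = -1 ∨ v i = 0 ∨ v i = 1) →
          |(((((Icc 1 y ∩ T)).filter (fun n => ∀ i, mob (pv (a i) n + g i n) = v i)).card : ℕ) : ℝ) -
            (((((Icc 1 y ∩ T)).filter (fun n => ∀ i, |mob (pv (a i) n + g i n)| = |v i|)).card : ℕ) : ℝ) /
              2 ^ (univ.filter (fun i => v i ≠ 0)).card| ≤ ε * x) := by
  classical
  obtain ⟨x₀, δ, hδ0, hδ1, hS⟩ := mob_all k d hd C (ε / 2 / 3 ^ k) (by positivity)
  have h3k : (1 : ℝ) ≤ 3 ^ k := one_le_pow₀ (by norm_num)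
  have hle : ε / 2 / 3 ^ k ≤ ε / 2 := div_le_self (by positivity) h3k
  refine ⟨x₀, δ, hδ0, fun H x hx0 hxH g hg w hw T => ?_⟩
  obtain ⟨E1, hE1, hE1c, hE1g⟩ := hS H x hx0 hxH g hg w hw
  obtain ⟨E2, hE2, hE2c, hE2g⟩ := hS H x hx0 hxH g hg (fun n => if n ∈ T then 1 else 0) (by
    intro n
    split_ifs <;> simp)
  have hx : (0 : ℝ) ≤ x := by positivity
  have hBk : (0 : ℝ) ≤ (Bk k d H).card := by positivity
  refine ⟨E1 ∪ E2, union_subset hE1 hE2, ?_, fun a ha haE y hy => ⟨fun c hc => ?_, fun v hv => ?_⟩⟩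
  · calc ((E1 ∪ E2).card : ℝ) ≤ (E1.card : ℝ) + E2.card := by exact_mod_cast card_union_le _ _
      _ ≤ ε / 2 * (Bk k d H).card + ε / 2 * (Bk k d H).card :=
          add_le_add (hE1c.trans (mul_le_mul_of_nonneg_right hle hBk)) (hE2c.trans (mul_le_mul_of_nonneg_right hle hBk))
      _ = _ := by ring
  · have := hE1g a ha (fun h => haE (mem_union_left _ h)) y hy c hc
    have h2 : ε / 2 / 3 ^ k * (x : ℝ) ≤ ε * x := mul_le_mul_of_nonneg_right (by linarith) hx
    refine le_trans (le_of_eq ?_) (this.trans h2)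
    congr 1
    apply sum_congr rfl
    intro n _
    congr 1
    apply prod_congr rfl
    intro i _
    unfold mp
    push_cast
    rfl
  · have h1 := patterns3 k (Icc 1 y ∩ T) (fun i n => mob (pv (a i) n + g i n)) (fun i n => mob_cases _)
      (ε / 2 / 3 ^ k * x) (by positivity) (by
        intro c hc
        have := hE2g a ha (fun h => haE (mem_union_right _ h)) y hy c hc
        simp only [ite_mul, one_mul, zero_mul] at this
        rw [← sum_filter, filter_mem_eq_inter] at this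
        refine le_trans (le_of_eq ?_) this
        rw [← Complex.norm_intCast]
        unfold mp
        push_cast
        rfl) v hv
    refine h1.trans ?_
    calc (3 : ℝ) ^ k * (ε / 2 / 3 ^ k * x) = ε / 2 * x := by field_simp
      _ ≤ ε * x := mul_le_mul_of_nonneg_right (by linarith) hx

/-- **Moebius values at several random linear forms.** -/
theorem linear (k : ℕ) (ε : ℝ) (hε : 0 < ε) :
    ∃ x₀ : ℕ, ∃ δ : ℝ, 0 < δ ∧ ∀ N x : ℕ, x₀ ≤ x → (x : ℝ) ≤ δ * N →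
    ∀ w : ℕ → ℂ, (∀ n, ‖w n‖ ≤ 1) → ∀ T : Finset ℕ,
      ∃ E ⊆ pairs k N, (E.card : ℝ) ≤ ε * (pairs k N).card ∧ ∀ p ∈ pairs k N, p ∉ E → ∀ y ≤ x,
        (∀ c : Fin k → Fin 3, (∃ i, c i = 1) →
          ‖∑ n ∈ Icc 1 y, w n * ∏ i, ((mob ((p i).1 * n + (p i).2) : ℤ) : ℂ) ^ (c i : ℕ)‖ ≤ ε * x) ∧
        (∀ v : Fin k → ℤ, (∀ i, v i = -1 ∨ v i = 0 ∨ v i = 1) →
          |(((((Icc 1 y ∩ T)).filter (fun n : ℕ => ∀ i, mob ((p i).1 * n + (p i).2) = v i)).card : ℕ) : ℝ) -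
            (((((Icc 1 y ∩ T)).filter (fun n : ℕ => ∀ i, |mob ((p i).1 * n + (p i).2)| = |v i|)).card : ℕ) : ℝ) /
              2 ^ (univ.filter (fun i => v i ≠ 0)).card| ≤ ε * x) := by
  classical
  obtain ⟨x₀, δ, hδ0, hS⟩ := final k 1 le_rfl 3 (min ε (ε / 9 ^ k)) (by positivity)
  refine ⟨max x₀ 1, min (δ / 2) 1, by positivity, fun N x hx0 hxN w hw T => ?_⟩
  have hx1 : x₀ ≤ x := (le_max_left _ _).trans hx0
  have hx2 : 1 ≤ x := (le_max_right _ _).trans hx0
  have hN0 : (0 : ℝ) ≤ N := by positivity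
  have hxN1 : (x : ℝ) ≤ N := hxN.trans (by
    have := min_le_right (δ / 2) 1
    nlinarith)
  have hN1 : 1 ≤ N := hx2.trans (by exact_mod_cast hxN1)
  set H : ℕ := (N + 1) / 2 with hH
  have hH1 : N ≤ 2 * H := by omega
  have hH2 : 2 * H ≤ N + 1 := by omega
  have hHr : (N : ℝ) ≤ 2 * H := by exact_mod_cast hH1
  have hHr1 : (1 : ℝ) ≤ H := by
    have : 1 ≤ H := by omega
    exact_mod_cast this
  have hxH : (x : ℝ) ≤ δ * H := by
    refine hxN.trans ?_
    calc min (δ / 2) 1 * (N : ℝ) ≤ δ / 2 * (2 * H) := by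
          have := min_le_left (δ / 2) 1
          gcongr
      _ = _ := by ring
  obtain ⟨E, hE, hEc, hEg⟩ := hS H x hx1 hxH (fun _ n => ((H : ℤ) + 1) * n + H) (by
    intro i n hn _
    have hn' : (1 : ℝ) ≤ n := by exact_mod_cast hn
    push_cast
    rw [abs_of_nonneg (by positivity), pow_one]
    nlinarith) w hw T
  set φ : (Fin k → ℕ × ℕ) → (Fin k → Fin (1 + 1) → ℤ) := fun p i j =>
    if j = 0 then ((p i).2 : ℤ) - H else ((p i).1 : ℤ) - (H + 1) with hφ
  have hφi : ∀ p q, φ p = φ q → p = q := by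
    intro p q hpq
    funext i
    have h0 := congrFun (congrFun hpq i) 0
    have h1 := congrFun (congrFun hpq i) 1
    rw [hφ] at h0 h1
    simp only [if_true, Fin.isValue, one_ne_zero, if_false] at h0 h1
    ext <;> omega
  have hφB : ∀ p ∈ pairs k N, φ p ∈ Bk k 1 H := by
    intro p hp
    unfold pairs at hp
    rw [Fintype.mem_piFinset] at hp
    unfold Bk Bx
    rw [Fintype.mem_piFinset]
    intro i
    rw [Fintype.mem_piFinset]
    intro j
    have := hp i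
    rw [mem_product, mem_Icc, mem_range] at this
    rw [hφ, mem_Icc]
    simp only
    split_ifs <;> omega
  have hval : ∀ (p : Fin k → ℕ × ℕ) (i : Fin k) (n : ℕ), pv (φ p i) n + (((H : ℤ) + 1) * n + H) =
      ((p i).1 * n + (p i).2 : ℤ) := by
    intro p i n
    unfold pv
    rw [hφ]
    rw [Fin.sum_univ_two]
    simp only [Fin.isValue, if_true, Fin.val_zero, pow_zero, mul_one, one_ne_zero, if_false, Fin.val_one, pow_one]
    push_cast
    ring
  refine ⟨(pairs k N).filter (fun p => φ p ∈ E), filter_subset _ _, ?_, ?_⟩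
  · have h1 : ((pairs k N).filter (fun p => φ p ∈ E)).card ≤ E.card := by
      apply card_le_card_of_injOn φ
      · intro p hp
        rw [mem_coe, mem_filter] at hp
        exact hp.2
      · intro p _ q _ hpq
        exact hφi p q hpq
    have h2 : ((Bk k 1 H).card : ℝ) ≤ 9 ^ k * (pairs k N).card := by
      rw [card_Bk, card_pairs]
      push_cast
      rw [card_Bx, ← mul_pow]
      apply pow_le_pow_left₀ (by positivity)
      have h3 : (2 * (H : ℝ) + 1) ≤ N + 2 := by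
        have : (2 * (H : ℝ)) ≤ N + 1 := by exact_mod_cast hH2
        linarith
      have h4 : (1 : ℝ) ≤ N := by exact_mod_cast hN1
      have h5 : (0 : ℝ) ≤ 2 * (H : ℝ) + 1 := by positivity
      have h6 : (2 * (H : ℝ) + 1) ≤ 3 * N := by linarith
      calc (2 * (H : ℝ) + 1) ^ (1 + 1) ≤ (3 * (N : ℝ)) ^ (1 + 1) := pow_le_pow_left₀ h5 h6 _
        _ = 9 * (N * N) := by ring
        _ ≤ 9 * ((N : ℝ) * (N + 1)) := by
            have : (N : ℝ) ≤ N + 1 := by linarith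
            gcongr
    calc ((((pairs k N).filter (fun p => φ p ∈ E)).card : ℕ) : ℝ) ≤ E.card := by exact_mod_cast h1
      _ ≤ min ε (ε / 9 ^ k) * (Bk k 1 H).card := hEc
      _ ≤ ε / 9 ^ k * (9 ^ k * (pairs k N).card) := by
          have := min_le_right ε (ε / 9 ^ k)
          gcongr
      _ = _ := by field_simp
  · intro p hp hpE y hy
    have hpE' : φ p ∉ E := fun h => hpE (mem_filter.2 ⟨hp, h⟩)
    obtain ⟨g1, g2⟩ := hEg (φ p) (hφB p hp) hpE' y hy
    have hle : min ε (ε / 9 ^ k) * (x : ℝ) ≤ ε * x := by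
      have := min_le_left ε (ε / 9 ^ k)
      gcongr
    refine ⟨fun c hc => ?_, fun v hv => ?_⟩
    · have := g1 c hc
      simp only [hval] at this
      exact this.trans hle
    · have := g2 v hv
      simp only [hval] at this
      exact this.trans hle

end Pool.Agent.X22.MuRT
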