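import Pool.Agent.TH894.NE5

/-!
# The weighted law for few-digit changes of one integer
-/

set_option autoImplicit false

namespace Pool.Agent.X22.ND

open Finset Pool.Agent.TH894.NE
open Pool.Agent.TH894.SM (change)

/-- the mean over the residues modulo `q` -/
noncomputable def mean1 (q : ℕ) (F : ℕ → ℝ) : ℝ := (∑ n ∈ range q, F n) / q

lemma mean_one (q : ℕ) (F : ℕ → ℝ) : mean 1 q (fun n => F (n 0)) = mean1 q F := by
  classical
  unfold mean mean1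
  have h1 : ∑ n ∈ TH894.NE.box 1 q, F (n 0) = ∑ n ∈ range q, F n := by
    apply sum_nbij' (fun n => n 0) (fun a => fun _ => a)
    · intro n hn
      exact mem_range.2 (mem_box.1 hn 0)
    · intro a ha
      exact mem_box.2 (fun _ => mem_range.1 ha)
    · intro n _
      funext i
      rw [Subsingleton.elim i 0]
    · intro a _
      rfl
    · intro n _
      rfl
  rw [h1, pow_one]
  ring

/-- **The weighted law for one integer.** -/
theorem law3_one (b : ℕ) (hb : 2 ≤ b) (δ A A₂ : ℝ) (hδ : 0 < δ) : ∃ c : ℝ, 0 < c ∧ ∃ x₀ : ℕ,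
    ∀ (r K y : ℕ), 2 * r ≤ K → x₀ ≤ y → ∀ N : ℕ, N < b ^ K → ∀ f : ℕ → ℕ, (∀ j, f j < b ∧ f j ≠ N / b ^ j % b) →
    ∀ (κ : Type) (Λ : ℕ → Finset κ), (∀ x, x₀ ≤ x → ((Λ x).card : ℝ) ≤ (x : ℝ) ^ A₂) →
    ∀ (ι : Type) (I : ℕ → κ → Finset ι) (q : κ → ι → ℕ), (∀ x, ∀ l ∈ Λ x, ∀ a ∈ I x l, 1 ≤ q l a ∧ q l a ≤ x) →
    (∀ x, ∀ l ∈ Λ x, ∀ a ∈ I x l, ∀ a' ∈ I x l, a ≠ a' → Nat.Coprime (q l a) (q l a')) → ∀ G : κ → ι → ℕ → ℝ,
    (∀ x, ∀ l ∈ Λ x, ∀ a ∈ I x l, ∀ n, G l a n = G l a (n % q l a)) → (∀ x, ∀ l ∈ Λ x, ∀ a ∈ I x l, ∀ n, |G l a n| ≤ 1) →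
    ∀ Ex ⊆ powersetCard r (range K),
    (∀ S ∈ Ex, ∃ x : ℕ, y ≤ x ∧ Real.log x ≤ c * r ∧ ∃ l ∈ Λ x,
      Real.sqrt (max 1 (∑ a ∈ I x l, mean1 (q l a) (fun n => G l a n ^ 2))) * (x : ℝ) ^ δ <
      |∑ a ∈ I x l, G l a (change b K N f S) - ∑ a ∈ I x l, mean1 (q l a) (G l a)|) →
    (Ex.card : ℝ) ≤ (y : ℝ) ^ (-A) * (K.choose r : ℝ) := by
  classical
  obtain ⟨c, hc, x₀, h⟩ := law3 b 1 hb le_rfl δ A A₂ hδ
  refine ⟨c, hc, x₀, fun r K y hrK hy N hN f hf κ Λ hΛ ι I q hq hcop G hG hG1 Ex hEx hExb => ?_⟩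
  have h1 := h (fun _ => r) (fun _ => K) y (fun _ => hrK) hy (fun _ => N) (fun _ => hN) (fun _ => f) (fun _ => hf) κ Λ hΛ ι I q hq hcop
    (fun l a n => G l a (n 0)) (fun x l hl a ha n => hG x l hl a ha (n 0)) (fun x l hl a ha n => hG1 x l hl a ha (n 0))
    (Ex.image (fun S => fun _ : Fin 1 => S)) (by
      intro T hT
      rw [mem_image] at hT
      obtain ⟨S, hS, rfl⟩ := hT
      rw [Fintype.mem_piFinset]
      intro _
      exact hEx hS) (by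
      intro T hT
      rw [mem_image] at hT
      obtain ⟨S, hS, rfl⟩ := hT
      obtain ⟨x, hyx, hxr, l, hl, hlt⟩ := hExb S hS
      refine ⟨x, hyx, fun _ => hxr, l, hl, ?_⟩
      have e1 : ∀ a, mean 1 (q l a) (fun n => G l a (n 0)) = mean1 (q l a) (G l a) := fun a => mean_one _ _
      have e2 : ∀ a, mean 1 (q l a) (fun n => G l a (n 0) ^ 2) = mean1 (q l a) (fun n => G l a n ^ 2) :=
        fun a => mean_one (q l a) (fun n => G l a n ^ 2)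
      simp only [e1, e2]
      exact hlt)
  have h2 : ∏ i : Fin 1, (((fun _ => K) i : ℕ).choose ((fun _ => r) i) : ℝ) = (K.choose r : ℝ) := by
    rw [Fin.prod_univ_one]
  rw [h2, card_image_of_injective _ (fun S S' hSS => congrFun hSS 0)] at h1
  exact h1

end Pool.Agent.X22.ND
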