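import Pool.Agent.X22.ND9

/-!
# Few-digit changes: the number of the primes in a set with a property modulo `p`
-/

set_option autoImplicit false

namespace Pool.Agent.X22.ND

open Finset Pool.Agent.TH894.NE
open Pool.Agent.TH894.SM (change)

open Classical in
/-- **The number of the bad primes.** -/
theorem density_law (b d : ℕ) (hb : 2 ≤ b) (hd : 1 ≤ d) (δ : ℝ) (hδ : 0 < δ) (A B : ℕ) (C : ℝ) (hC : 0 ≤ C) : ∃ c : ℝ, 0 < c ∧ ∃ y₀ : ℕ,
    ∀ (K r : Fin d → ℕ) (y : ℕ), (∀ l, 2 * r l ≤ K l) → y₀ ≤ y →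
    ∀ N : Fin d → ℕ, (∀ l, N l < b ^ K l) → ∀ f : Fin d → ℕ → ℕ, (∀ l j, f l j < b ∧ f l j ≠ N l / b ^ j % b) →
    ∀ (κ : Type) (Λ : ℕ → Finset κ), (∀ x, 2 ≤ x → (Λ x).card ≤ x ^ B) →
    ∀ (I : ℕ → κ → Finset ℕ), (∀ x l, I x l ⊆ op x) →
    ∀ (Bad : κ → ℕ → (Fin d → ℕ) → Prop), (∀ l p m, p.Prime → (Bad l p m ↔ Bad l p (fun i => m i % p))) →
    ∀ (θ : κ → ℝ), (∀ l, 0 ≤ θ l) →
    (∀ x, 2 ≤ x → ∀ l ∈ Λ x, ∀ p ∈ I x l, mean d p (fun m => if Bad l p m then 1 else 0) ≤ θ l + C / p) →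
    ∀ E : (Fin d → ℕ) → Prop,
    (∀ m, (∀ x : ℕ, y ≤ x → (∀ l, (x : ℝ) ≤ Real.exp (c * r l)) → ∀ l ∈ Λ x,
      (((I x l).filter (fun p => Bad l p m)).card : ℝ) ≤ θ l * (I x l).card + (x : ℝ) ^ (1 / 2 + δ)) → E m) →
      ((((Fintype.piFinset (fun l => powersetCard (r l) (range (K l)))).filter
        (fun T => ¬ E (fun l => change b (K l) (N l) (f l) (T l)))).card : ℕ) : ℝ) ≤ 1 / (y : ℝ) ^ A * ∏ l, ((K l).choose (r l) : ℝ) := by
  obtain ⟨c, hc, y₀, h⟩ := mz_law b d hb hd (δ / 2) (by positivity) A B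
  obtain ⟨x₁, hx₁⟩ := absorb (2 * C + 1) (δ / 2) (by positivity) (by positivity)
  refine ⟨c, hc, y₀ + x₁ + 2, fun K r y hrK hy N hN f hf κ Λ hΛ I hI Bad hBad θ hθ hmean E hE => ?_⟩
  obtain ⟨e, he⟩ : ∃ e : κ → ℕ → ℝ, e = fun l p => mean d p (fun m => if Bad l p m then 1 else 0) := ⟨_, rfl⟩
  obtain ⟨Z, hZ⟩ : ∃ Z : ℕ → κ → ℕ → (Fin d → ℕ) → ℝ, Z = fun x l p m =>
      if p ∈ I x l then (if Bad l p m then 1 else 0) - e l p else 0 := ⟨_, rfl⟩
  have he0 : ∀ l p, p.Prime → 0 ≤ e l p ∧ e l p ≤ 1 := by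
    intro l p hp
    rw [he]
    simp only
    constructor
    · have := mean_mono d p (fun _ => (0 : ℝ)) (fun m => if Bad l p m then 1 else 0) (fun m => by split_ifs <;> norm_num)
      rwa [mean_const d p hp.one_lt.le] at this
    · have := mean_mono d p (fun m => if Bad l p m then (1 : ℝ) else 0) (fun _ => (1 : ℝ)) (fun m => by split_ifs <;> norm_num)
      rwa [mean_const d p hp.one_lt.le] at this
  have hZ1 : ∀ x l p m, p.Prime → |Z x l p m| ≤ 1 := by
    intro x l p m hp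
    have h1 := he0 l p hp
    rw [hZ]
    simp only
    split_ifs
    · rw [abs_le]
      constructor <;> linarith
    · rw [abs_le]
      constructor <;> linarith
    · simp
  refine h K r y hrK (by omega) N hN f hf κ Λ hΛ Z ?_ (fun x _ => Real.sqrt x) ?_ ?_ ?_ ?_ E ?_
  · intro x l p m hp
    rw [hZ]
    simp only
    rw [if_congr (hBad l p m hp) rfl rfl]
  · intro x _ l _
    exact Real.sqrt_nonneg _
  · intro x hx l _ p hp m
    rw [mem_op] at hp
    refine (hZ1 x l p m hp.2.1).trans ?_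
    rw [Real.one_le_sqrt]
    exact_mod_cast (by omega : 1 ≤ x)
  · intro x hx l hl p hp
    rw [mem_op] at hp
    by_cases hpI : p ∈ I x l
    · have e1 : Z x l p = fun m => (if Bad l p m then (1 : ℝ) else 0) + (-e l p) := by
        funext m
        rw [hZ]
        simp only [if_pos hpI]
        ring
      rw [e1, mean_add', mean_const d p hp.2.1.one_lt.le, he]
      simp
    · have e1 : Z x l p = fun _ => (0 : ℝ) := by
        funext m
        rw [hZ]
        simp only [if_neg hpI]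
      rw [e1, mean_const d p hp.2.1.one_lt.le]
  · intro x hx l hl
    have h1 : ∀ p ∈ op x, mean d p (fun m => Z x l p m ^ 2) ≤ 1 := by
      intro p hp
      rw [mem_op] at hp
      have := mean_mono d p (fun m => Z x l p m ^ 2) (fun _ => (1 : ℝ)) (fun m => by
        rw [sq_le_one_iff_abs_le_one]
        exact hZ1 x l p m hp.2.1)
      rwa [mean_const d p hp.2.1.one_lt.le] at this
    refine (sum_le_sum h1).trans ?_
    rw [sum_const, nsmul_eq_mul, mul_one, Real.sq_sqrt (Nat.cast_nonneg x)]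
    exact cardop_le x
  · intro m hm
    apply hE
    intro x hyx hxr l hl
    have hx0 : (0 : ℝ) < x := by exact_mod_cast (by omega : 0 < x)
    have h1 := hm x hyx hxr l hl
    have e1 : ∑ p ∈ op x, Z x l p m = (((I x l).filter (fun p => Bad l p m)).card : ℝ) - ∑ p ∈ I x l, e l p := by
      have e2 : ∑ p ∈ op x, Z x l p m = ∑ p ∈ I x l, ((if Bad l p m then 1 else 0) - e l p) := by
        rw [← sum_subset (hI x l)]
        · apply sum_congr rfl
          intro p hp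
          rw [hZ]
          simp only [if_pos hp]
        · intro p _ hp
          rw [hZ]
          simp only [if_neg hp]
      rw [e2, sum_sub_distrib, card_filter]
      push_cast
      rfl
    rw [e1] at h1
    have h2 : ∑ p ∈ I x l, e l p ≤ θ l * (I x l).card + C * (2 * Real.sqrt x) := by
      have h3 : ∀ p ∈ I x l, e l p ≤ θ l + C * (1 / Real.sqrt p) := by
        intro p hp
        have hp' := hI x l hp
        rw [mem_op] at hp'
        have hp1 : (1 : ℝ) ≤ p := by exact_mod_cast hp'.2.1.one_lt.le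
        have h4 := hmean x (by omega) l hl p hp
        rw [he]
        simp only
        refine h4.trans (add_le_add_right ?_ _)
        rw [div_eq_mul_one_div]
        have hsq : Real.sqrt p ≤ p := by
          rw [Real.sqrt_le_left (by linarith)]
          nlinarith
        have hsp : 0 < Real.sqrt p := Real.sqrt_pos.2 (by linarith)
        gcongr
      refine (sum_le_sum h3).trans ?_
      rw [sum_add_distrib, sum_const, nsmul_eq_mul, ← mul_sum, mul_comm]
      have h5 : ∑ p ∈ I x l, 1 / Real.sqrt p ≤ ∑ p ∈ op x, 1 / Real.sqrt p :=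
        sum_le_sum_of_subset_of_nonneg (hI x l) (fun p _ _ => by positivity)
      have h6 := h5.trans (sum_inv_sqrt x)
      gcongr
    have h7 := (abs_le.1 h1).2
    have h8 := hx₁ x (by omega)
    have hlx0 : 0 ≤ Real.log x := Real.log_natCast_nonneg x
    have hs0 : 0 ≤ Real.sqrt x := Real.sqrt_nonneg _
    have hxd : (1 : ℝ) ≤ (x : ℝ) ^ (δ / 2) := Real.one_le_rpow (by exact_mod_cast (by omega : 1 ≤ x)) (by positivity)
    have hpow : (x : ℝ) ^ (1 / 2 + δ) = Real.sqrt x * ((x : ℝ) ^ (δ / 2) * (x : ℝ) ^ (δ / 2)) := by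
      rw [← Real.rpow_add hx0, Real.sqrt_eq_rpow, ← Real.rpow_add hx0]
      congr 1
      ring
    have h9 : C * (2 * Real.sqrt x) + Real.sqrt x * (x : ℝ) ^ (δ / 2) ≤ (x : ℝ) ^ (1 / 2 + δ) := by
      rw [hpow]
      have h10 : (2 * C + 1) ≤ (x : ℝ) ^ (δ / 2) := by nlinarith
      have h11 : C * (2 * Real.sqrt x) ≤ (2 * C) * (Real.sqrt x * (x : ℝ) ^ (δ / 2)) := by
        have : Real.sqrt x * 1 ≤ Real.sqrt x * (x : ℝ) ^ (δ / 2) := mul_le_mul_of_nonneg_left hxd hs0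
        nlinarith
      calc C * (2 * Real.sqrt x) + Real.sqrt x * (x : ℝ) ^ (δ / 2) ≤ (2 * C + 1) * (Real.sqrt x * (x : ℝ) ^ (δ / 2)) := by linarith
        _ ≤ (x : ℝ) ^ (δ / 2) * (Real.sqrt x * (x : ℝ) ^ (δ / 2)) := mul_le_mul_of_nonneg_right h10 (by positivity)
        _ = _ := by ring
    linarith

open Classical in
/-- **The number of the bad primes**, one integer. -/
theorem density_one (b : ℕ) (hb : 2 ≤ b) (δ : ℝ) (hδ : 0 < δ) (A B : ℕ) (C : ℝ) (hC : 0 ≤ C) : ∃ c : ℝ, 0 < c ∧ ∃ y₀ : ℕ,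
    ∀ (K r : ℕ) (y : ℕ), 2 * r ≤ K → y₀ ≤ y →
    ∀ N : ℕ, N < b ^ K → ∀ f : ℕ → ℕ, (∀ j, f j < b ∧ f j ≠ N / b ^ j % b) →
    ∀ (κ : Type) (Λ : ℕ → Finset κ), (∀ x, 2 ≤ x → (Λ x).card ≤ x ^ B) →
    ∀ (I : ℕ → κ → Finset ℕ), (∀ x l, I x l ⊆ op x) →
    ∀ (Bad : κ → ℕ → ℕ → Prop), (∀ l p m, p.Prime → (Bad l p m ↔ Bad l p (m % p))) →
    ∀ (θ : κ → ℝ), (∀ l, 0 ≤ θ l) →
    (∀ x, 2 ≤ x → ∀ l ∈ Λ x, ∀ p ∈ I x l, (((range p).filter (fun m => Bad l p m)).card : ℝ) ≤ θ l * p + C) →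
    ∀ E : ℕ → Prop,
    (∀ m, (∀ x : ℕ, y ≤ x → (x : ℝ) ≤ Real.exp (c * r) → ∀ l ∈ Λ x,
      (((I x l).filter (fun p => Bad l p m)).card : ℝ) ≤ θ l * (I x l).card + (x : ℝ) ^ (1 / 2 + δ)) → E m) →
      ((((powersetCard r (range K)).filter (fun S => ¬ E (change b K N f S))).card : ℕ) : ℝ) ≤ 1 / (y : ℝ) ^ A * (K.choose r : ℝ) := by
  obtain ⟨c, hc, y₀, h⟩ := density_law b 1 hb le_rfl δ hδ A B C hC
  refine ⟨c, hc, y₀, fun K r y hrK hy N hN f hf κ Λ hΛ I hI Bad hBad θ hθ hmean E hE => ?_⟩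
  have h1 := h (fun _ => K) (fun _ => r) y (fun _ => hrK) hy (fun _ => N) (fun _ => hN) (fun _ => f) (fun _ => hf) κ Λ hΛ I hI
    (fun l p m => Bad l p (m 0)) (fun l p m hp => hBad l p (m 0) hp) θ hθ
    (fun x hx l hl p hp => by
      have e : mean 1 p (fun m => if Bad l p (m 0) then (1 : ℝ) else 0) = mean1 p (fun m => if Bad l p m then 1 else 0) :=
        mean_one p (fun m => if Bad l p m then (1 : ℝ) else 0)
      have hp' := hI x l hp
      rw [mem_op] at hp'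
      have hp0 : (0 : ℝ) < p := by exact_mod_cast hp'.2.1.pos
      show mean 1 p (fun m => if Bad l p (m 0) then (1 : ℝ) else 0) ≤ θ l + C / p
      rw [e]
      unfold mean1
      rw [div_le_iff₀ hp0, add_mul, div_mul_cancel₀ _ hp0.ne', sum_boole]
      exact hmean x hx l hl p hp)
    (fun m => E (m 0)) (fun m hm => hE (m 0) (fun x hyx hxr l hl => hm x hyx (fun _ => hxr) l hl))
  rw [Fin.prod_univ_one] at h1
  rw [card_one]
  exact h1

end Pool.Agent.X22.ND
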