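import Pool.Agent.X22.ND1

/-!
# Weighted sums of quadratic characters for few-digit changes of one integer
-/

set_option autoImplicit false

namespace Pool.Agent.X22.ND

open Finset

/-- the quadratic character -/
noncomputable def chi (p D : ℕ) : ℝ := if hp : p.Prime then
    haveI : Fact p.Prime := ⟨hp⟩
    (quadraticChar (ZMod p) (D : ZMod p) : ℝ) else 0

lemma chi_abs (p D : ℕ) : |chi p D| ≤ 1 := by
  unfold chi
  by_cases hp : p.Prime
  · rw [dif_pos hp]
    have hf : Fact p.Prime := ⟨hp⟩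
    by_cases h0 : (D : ZMod p) = 0
    · rw [h0, quadraticChar_zero]
      simp
    · rcases quadraticChar_dichotomy h0 with h | h <;> rw [h] <;> simp
  · rw [dif_neg hp]
    simp

lemma chi_mod (p D : ℕ) : chi p D = chi p (D % p) := by
  unfold chi
  by_cases hp : p.Prime
  · rw [dif_pos hp, dif_pos hp, ZMod.natCast_mod]
  · rw [dif_neg hp, dif_neg hp]

lemma chi_zero (p D : ℕ) (h : p ∣ D) : chi p D = 0 := by
  unfold chi
  by_cases hp : p.Prime
  · rw [dif_pos hp]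
    have hf : Fact p.Prime := ⟨hp⟩
    rw [(ZMod.natCast_eq_zero_iff D p).2 h, quadraticChar_zero, Int.cast_zero]
  · rw [dif_neg hp]

lemma sum_range_zmod (p : ℕ) (hp : p.Prime) (F : ZMod p → ℝ) : haveI : Fact p.Prime := ⟨hp⟩
    ∑ n ∈ range p, F (n : ZMod p) = ∑ z : ZMod p, F z := by
  have hf : Fact p.Prime := ⟨hp⟩
  apply sum_nbij' (fun n : ℕ => (n : ZMod p)) (fun z : ZMod p => z.val)
  · intro n _
    exact mem_univ _
  · intro z _
    exact mem_range.2 (ZMod.val_lt z)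
  · intro n hn
    exact ZMod.val_cast_of_lt (mem_range.1 hn)
  · intro z _
    exact ZMod.natCast_zmod_val z
  · intro n _
    rfl

lemma sum_chi (p : ℕ) (hp : p.Prime) (h2 : p ≠ 2) : ∑ n ∈ range p, chi p n = 0 := by
  have hf : Fact p.Prime := ⟨hp⟩
  have h1 : ∀ n, chi p n = (quadraticChar (ZMod p) (n : ZMod p) : ℝ) := by
    intro n
    unfold chi
    rw [dif_pos hp]
  rw [sum_congr rfl (fun n _ => h1 n), sum_range_zmod p hp (fun z => (quadraticChar (ZMod p) z : ℝ)), ← Int.cast_sum,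
    quadraticChar_sum_zero (by rw [ZMod.ringChar_zmod_n]; exact h2), Int.cast_zero]

/-- the odd primes up to `x` -/
def op (x : ℕ) : Finset ℕ := (range (x + 1)).filter (fun p => p.Prime ∧ p ≠ 2)

lemma mem_op {x p : ℕ} : p ∈ op x ↔ p ≤ x ∧ p.Prime ∧ p ≠ 2 := by
  unfold op
  rw [mem_filter, mem_range, Nat.lt_succ_iff]

open Classical in
/-- **Weighted character sums.** -/
theorem char_law (b : ℕ) (hb : 2 ≤ b) (δ : ℝ) (hδ : 0 < δ) (A B : ℕ) : ∃ c : ℝ, 0 < c ∧ ∃ y₀ : ℕ,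
    ∀ K r y : ℕ, 2 * r ≤ K → y₀ ≤ y → ∀ N : ℕ, N < b ^ K → ∀ f : ℕ → ℕ, (∀ i, f i < b ∧ f i ≠ N / b ^ i % b) →
    ∀ W : ℕ → Finset (ℕ → ℝ), (∀ x, 2 ≤ x → (W x).card ≤ x ^ B) → ∀ E : ℕ → Prop,
      (∀ D, (∀ x : ℕ, y ≤ x → (x : ℝ) ≤ Real.exp (c * r) → ∀ w ∈ W x,
        |∑ p ∈ op x, chi p D * w p| ≤ Real.sqrt (∑ p ∈ op x, w p ^ 2) * (x : ℝ) ^ δ) → E D) →
      ((((powersetCard r (range K)).filter (fun S => ¬ E (Pool.Agent.TH894.SM.change b K N f S))).card : ℕ) : ℝ) ≤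
        1 / (y : ℝ) ^ A * (K.choose r : ℝ) := by
  obtain ⟨c, hc, x₀, h⟩ := Pool.Agent.X22.ND.law3_one b hb δ A B hδ
  refine ⟨c, hc, x₀ + 3, fun K r y hrK hy N hN f hf W hW E hE => ?_⟩
  have hy0 : (0 : ℝ) < y := by exact_mod_cast (by omega : 0 < y)
  have h1 : 1 / (y : ℝ) ^ A = (y : ℝ) ^ (-(A : ℝ)) := by
    rw [Real.rpow_neg hy0.le, Real.rpow_natCast, one_div]
  rw [h1]
  obtain ⟨M, hM⟩ : ∃ M : ℕ × (ℕ → ℝ) → ℝ, M = fun l => Real.sqrt (∑ p ∈ op l.1, l.2 p ^ 2) := ⟨_, rfl⟩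
  obtain ⟨G, hG⟩ : ∃ G : ℕ × (ℕ → ℝ) → ℕ → ℕ → ℝ, G = fun l p n => chi p n * (l.2 p / M l) := ⟨_, rfl⟩
  have hMsq : ∀ l, M l ^ 2 = ∑ p ∈ op l.1, l.2 p ^ 2 := by
    intro l
    rw [hM]
    show Real.sqrt (∑ p ∈ op l.1, l.2 p ^ 2) ^ 2 = _
    rw [Real.sq_sqrt (sum_nonneg fun p _ => sq_nonneg _)]
  have hM0 : ∀ l, 0 ≤ M l := fun l => by rw [hM]; exact Real.sqrt_nonneg _
  have hwM : ∀ l, ∀ p ∈ op l.1, |l.2 p| ≤ M l := by
    intro l p hp
    apply abs_le_of_sq_le_sq _ (hM0 l)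
    rw [hMsq]
    exact single_le_sum (f := fun p => l.2 p ^ 2) (fun p _ => sq_nonneg _) hp
  have hwM1 : ∀ l, ∀ p ∈ op l.1, |l.2 p / M l| ≤ 1 := by
    intro l p hp
    rw [abs_div, abs_of_nonneg (hM0 l)]
    exact div_le_one_of_le₀ (hwM l p hp) (hM0 l)
  refine h r K y hrK (by omega) N hN f hf (ℕ × (ℕ → ℝ))
    (fun x => if x < 2 then ∅ else ({x} : Finset ℕ) ×ˢ (W x)) ?_ ℕ
    (fun x l => if x = l.1 then op l.1 else ∅) (fun _ p => p) ?_ ?_ G ?_ ?_ _ (filter_subset _ _) ?_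
  · intro x _
    show (((if x < 2 then ∅ else ({x} : Finset ℕ) ×ˢ (W x)) : Finset (ℕ × (ℕ → ℝ))).card : ℝ) ≤ _
    split_ifs with hx
    · rw [card_empty, Nat.cast_zero]
      positivity
    · push Not at hx
      rw [card_product, card_singleton, one_mul, Real.rpow_natCast]
      exact_mod_cast hW x hx
  · intro x l _ p hp
    by_cases hxl : x = l.1
    · rw [if_pos hxl, mem_op] at hp
      exact ⟨hp.2.1.one_lt.le, by rw [hxl]; exact hp.1⟩
    · rw [if_neg hxl] at hp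
      exact absurd hp (notMem_empty _)
  · intro x l _ p hp p' hp' hne
    by_cases hxl : x = l.1
    · rw [if_pos hxl, mem_op] at hp hp'
      exact (Nat.coprime_primes hp.2.1 hp'.2.1).2 hne
    · rw [if_neg hxl] at hp
      exact absurd hp (notMem_empty _)
  · intro x l _ p hp n
    rw [hG]
    show chi p n * _ = chi p (n % p) * _
    rw [← chi_mod]
  · intro x l _ p hp n
    by_cases hxl : x = l.1
    · rw [if_pos hxl] at hp
      rw [hG]
      show |chi p n * (l.2 p / M l)| ≤ 1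
      rw [abs_mul]
      have g1 := chi_abs p n
      have g2 := hwM1 l p hp
      calc |chi p n| * |l.2 p / M l| ≤ 1 * 1 := mul_le_mul g1 g2 (abs_nonneg _) zero_le_one
        _ = 1 := one_mul 1
    · rw [if_neg hxl] at hp
      exact absurd hp (notMem_empty _)
  · intro S hS
    rw [mem_filter] at hS
    obtain ⟨hS1, hS2⟩ := hS
    by_contra hcon
    push Not at hcon
    apply hS2
    apply hE
    intro x hyx hxr w hw
    have hx0 : (0 : ℝ) < x := by exact_mod_cast (by omega : 0 < x)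
    obtain ⟨l, hl⟩ : ∃ l : ℕ × (ℕ → ℝ), l = (x, w) := ⟨_, rfl⟩
    have hmeanG : ∀ p ∈ op l.1, mean1 p (G l p) = 0 := by
      intro p hp
      rw [mem_op] at hp
      unfold mean1
      rw [hG]
      show (∑ n ∈ range p, chi p n * (l.2 p / M l)) / p = 0
      rw [← sum_mul, sum_chi p hp.2.1 hp.2.2, zero_mul, zero_div]
    have hV : ∑ p ∈ op l.1, mean1 p (fun n => G l p n ^ 2) ≤ 1 := by
      have h2 : ∀ p ∈ op l.1, mean1 p (fun n => G l p n ^ 2) ≤ l.2 p ^ 2 / M l ^ 2 := by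
        intro p hp
        rw [mem_op] at hp
        have hp0 : (0 : ℝ) < p := by exact_mod_cast hp.2.1.pos
        unfold mean1
        rw [div_le_iff₀ hp0]
        refine (sum_le_sum (g := fun _ => l.2 p ^ 2 / M l ^ 2) (fun n _ => ?_)).trans ?_
        · rw [hG]
          show (chi p n * (l.2 p / M l)) ^ 2 ≤ _
          rw [mul_pow, div_pow]
          have g1 : chi p n ^ 2 ≤ 1 := by
            rw [sq_le_one_iff_abs_le_one]
            exact chi_abs p n
          exact mul_le_of_le_one_left (by positivity) g1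
        · rw [sum_const, card_range, nsmul_eq_mul, mul_comm]
      refine (sum_le_sum h2).trans ?_
      rw [← sum_div, ← hMsq l]
      exact div_self_le_one _
    have h3 := hcon x hyx ((Real.log_le_iff_le_exp hx0).2 hxr) l (by
      rw [if_neg (by omega), hl, mem_product]
      exact ⟨mem_singleton_self _, hw⟩)
    have hxl : x = l.1 := by rw [hl]
    simp only [if_pos hxl] at h3
    rw [sum_eq_zero hmeanG, sub_zero, max_eq_left hV, Real.sqrt_one, one_mul] at h3
    obtain ⟨D, hD⟩ : ∃ D, D = Pool.Agent.TH894.SM.change b K N f S := ⟨_, rfl⟩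
    rw [← hD] at h3 ⊢
    have hpow : ∑ p ∈ op x, chi p D * w p = M l * ∑ p ∈ op l.1, G l p D := by
      rw [mul_sum, ← hxl]
      apply sum_congr rfl
      intro p hp
      rw [hG]
      show chi p D * w p = M l * (chi p D * (l.2 p / M l))
      have e2 : l.2 p = w p := by rw [hl]
      rw [e2]
      by_cases hM00 : M l = 0
      · have := hwM l p (by rw [← hxl]; exact hp)
        rw [hM00, e2] at this
        have h0 : w p = 0 := abs_nonpos_iff.1 this
        rw [h0, hM00]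
        simp
      · field_simp
    have hMl : M l = Real.sqrt (∑ p ∈ op x, w p ^ 2) := by rw [hM, hl]
    rw [hpow, abs_mul, abs_of_nonneg (hM0 l), ← hMl]
    exact mul_le_mul_of_nonneg_left h3 (hM0 l)

end Pool.Agent.X22.ND
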