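import Pool.Agent.X22.ND2

/-!
# Sums over primes of quantities with mean zero, for few-digit changes of several integers; averages of characters
-/

set_option autoImplicit false

namespace Pool.Agent.X22.ND

open Finset Pool.Agent.TH894.NE
open Pool.Agent.TH894.SM (change)

open Classical in
/-- **Quantities with mean zero.** -/
theorem mz_law (b d : ℕ) (hb : 2 ≤ b) (hd : 1 ≤ d) (δ : ℝ) (hδ : 0 < δ) (A B : ℕ) : ∃ c : ℝ, 0 < c ∧ ∃ y₀ : ℕ,
    ∀ (K r : Fin d → ℕ) (y : ℕ), (∀ l, 2 * r l ≤ K l) → y₀ ≤ y →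
    ∀ N : Fin d → ℕ, (∀ l, N l < b ^ K l) → ∀ f : Fin d → ℕ → ℕ, (∀ l j, f l j < b ∧ f l j ≠ N l / b ^ j % b) →
    ∀ (κ : Type) (Λ : ℕ → Finset κ), (∀ x, 2 ≤ x → (Λ x).card ≤ x ^ B) →
    ∀ (Z : ℕ → κ → ℕ → (Fin d → ℕ) → ℝ), (∀ x l p m, p.Prime → Z x l p m = Z x l p (fun i => m i % p)) →
    ∀ (M : ℕ → κ → ℝ), (∀ x, 2 ≤ x → ∀ l ∈ Λ x, 0 ≤ M x l) →
    (∀ x, 2 ≤ x → ∀ l ∈ Λ x, ∀ p ∈ op x, ∀ m, |Z x l p m| ≤ M x l) →
    (∀ x, 2 ≤ x → ∀ l ∈ Λ x, ∀ p ∈ op x, mean d p (Z x l p) = 0) →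
    (∀ x, 2 ≤ x → ∀ l ∈ Λ x, ∑ p ∈ op x, mean d p (fun m => Z x l p m ^ 2) ≤ M x l ^ 2) →
    ∀ E : (Fin d → ℕ) → Prop,
    (∀ m, (∀ x : ℕ, y ≤ x → (∀ l, (x : ℝ) ≤ Real.exp (c * r l)) → ∀ l ∈ Λ x, |∑ p ∈ op x, Z x l p m| ≤ M x l * (x : ℝ) ^ δ) → E m) →
      ((((Fintype.piFinset (fun l => powersetCard (r l) (range (K l)))).filter
        (fun T => ¬ E (fun l => change b (K l) (N l) (f l) (T l)))).card : ℕ) : ℝ) ≤ 1 / (y : ℝ) ^ A * ∏ l, ((K l).choose (r l) : ℝ) := by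
  obtain ⟨c, hc, x₀, h⟩ := law3 b d hb hd δ A B hδ
  refine ⟨c, hc, x₀ + 3, fun K r y hrK hy N hN f hf κ Λ hΛ Z hZ M hM0 hM hmz hvar E hE => ?_⟩
  have hy0 : (0 : ℝ) < y := by exact_mod_cast (by omega : 0 < y)
  have h1 : 1 / (y : ℝ) ^ A = (y : ℝ) ^ (-(A : ℝ)) := by
    rw [Real.rpow_neg hy0.le, Real.rpow_natCast, one_div]
  rw [h1]
  obtain ⟨G, hG⟩ : ∃ G : ℕ × κ → ℕ → (Fin d → ℕ) → ℝ, G = fun l p m => if p.Prime then Z l.1 l.2 p m / M l.1 l.2 else 0 := ⟨_, rfl⟩
  refine h r K y hrK (by omega) N hN f hf (ℕ × κ)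
    (fun x => if x < 2 then ∅ else ({x} : Finset ℕ) ×ˢ (Λ x)) ?_ ℕ
    (fun x l => if 2 ≤ x ∧ x = l.1 ∧ l.2 ∈ Λ x then op x else ∅) (fun _ p => p) ?_ ?_ G ?_ ?_ _ (filter_subset _ _) ?_
  · intro x _
    show (((if x < 2 then ∅ else ({x} : Finset ℕ) ×ˢ (Λ x)) : Finset (ℕ × κ)).card : ℝ) ≤ _
    split_ifs with hx
    · rw [card_empty, Nat.cast_zero]
      positivity
    · push Not at hx
      rw [card_product, card_singleton, one_mul, Real.rpow_natCast]
      exact_mod_cast hΛ x hx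
  · intro x l _ p hp
    split_ifs at hp
    · rw [mem_op] at hp
      exact ⟨hp.2.1.one_lt.le, hp.1⟩
    · exact absurd hp (notMem_empty _)
  · intro x l _ p hp p' hp' hne
    split_ifs at hp hp'
    · rw [mem_op] at hp hp'
      exact (Nat.coprime_primes hp.2.1 hp'.2.1).2 hne
    · exact absurd hp (notMem_empty _)
  · intro x l _ p hp n
    split_ifs at hp
    · rw [mem_op] at hp
      rw [hG]
      show (if p.Prime then Z l.1 l.2 p n / M l.1 l.2 else 0) = if p.Prime then Z l.1 l.2 p (fun i => n i % p) / M l.1 l.2 else 0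
      rw [if_pos hp.2.1, if_pos hp.2.1, ← hZ l.1 l.2 p n hp.2.1]
    · exact absurd hp (notMem_empty _)
  · intro x l _ p hp n
    split_ifs at hp with hx
    · have hp' := hp
      rw [mem_op] at hp
      rw [hG]
      show |if p.Prime then Z l.1 l.2 p n / M l.1 l.2 else 0| ≤ 1
      rw [if_pos hp.2.1, ← hx.2.1, abs_div, abs_of_nonneg (hM0 x hx.1 l.2 hx.2.2)]
      exact div_le_one_of_le₀ (hM x hx.1 l.2 hx.2.2 p hp' n) (hM0 x hx.1 l.2 hx.2.2)
    · exact absurd hp (notMem_empty _)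
  · intro S hS
    rw [mem_filter] at hS
    obtain ⟨hS1, hS2⟩ := hS
    by_contra hcon
    push Not at hcon
    apply hS2
    apply hE
    intro x hyx hxr l hl
    have hx2 : 2 ≤ x := by omega
    have hx0 : (0 : ℝ) < x := by exact_mod_cast (by omega : 0 < x)
    have h3 := hcon x hyx (fun i => (Real.log_le_iff_le_exp hx0).2 (hxr i)) (x, l) (by
      rw [if_neg (by omega), mem_product]
      exact ⟨mem_singleton_self _, hl⟩)
    simp only [hx2, hl, and_self, if_true] at h3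
    obtain ⟨m, hm⟩ : ∃ m : Fin d → ℕ, m = fun i => change b (K i) (N i) (f i) (S i) := ⟨_, rfl⟩
    rw [← hm] at h3 ⊢
    have hMx := hM0 x hx2 l hl
    have hGe : ∀ p ∈ op x, ∀ n, G (x, l) p n = (M x l)⁻¹ * Z x l p n := by
      intro p hp n
      rw [mem_op] at hp
      rw [hG]
      show (if p.Prime then Z x l p n / M x l else 0) = _
      rw [if_pos hp.2.1, div_eq_inv_mul]
    have hmeanG : ∀ p ∈ op x, mean d p (G (x, l) p) = 0 := by
      intro p hp
      have e1 : G (x, l) p = fun n => (M x l)⁻¹ * Z x l p n := by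
        funext n
        exact hGe p hp n
      rw [e1, mean_mul]
      have := hmz x hx2 l hl p hp
      have e2 : mean d p (fun n => Z x l p n) = 0 := this
      rw [e2, mul_zero]
    have hV : ∑ p ∈ op x, mean d p (fun n => G (x, l) p n ^ 2) ≤ 1 := by
      have e1 : ∀ p ∈ op x, mean d p (fun n => G (x, l) p n ^ 2) = (M x l)⁻¹ ^ 2 * mean d p (fun n => Z x l p n ^ 2) := by
        intro p hp
        rw [← mean_mul]
        congr 1
        funext n
        rw [hGe p hp n, mul_pow]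
      rw [sum_congr rfl e1, ← mul_sum]
      by_cases hM00 : M x l = 0
      · rw [hM00]
        simp
      · have hMpos : 0 < M x l := lt_of_le_of_ne hMx (Ne.symm hM00)
        calc (M x l)⁻¹ ^ 2 * ∑ p ∈ op x, mean d p (fun n => Z x l p n ^ 2) ≤ (M x l)⁻¹ ^ 2 * M x l ^ 2 :=
              mul_le_mul_of_nonneg_left (hvar x hx2 l hl) (by positivity)
          _ = 1 := by
              rw [← mul_pow, inv_mul_cancel₀ hM00, one_pow]
    rw [sum_eq_zero hmeanG, sub_zero, max_eq_left hV, Real.sqrt_one, one_mul] at h3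
    have hpow : ∑ p ∈ op x, Z x l p m = M x l * ∑ p ∈ op x, G (x, l) p m := by
      rw [mul_sum]
      apply sum_congr rfl
      intro p hp
      rw [hGe p hp m]
      by_cases hM00 : M x l = 0
      · have := hM x hx2 l hl p hp m
        rw [hM00] at this
        rw [abs_nonpos_iff.1 this, hM00]
        simp
      · field_simp
    rw [hpow, abs_mul, abs_of_nonneg hMx]
    exact mul_le_mul_of_nonneg_left h3 hMx

lemma mean_zmod (d p : ℕ) (hp : p.Prime) (Φ : (Fin d → ZMod p) → ℝ) : haveI : Fact p.Prime := ⟨hp⟩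
    mean d p (fun m => Φ (fun i => (m i : ZMod p))) = (∑ v : Fin d → ZMod p, Φ v) / (p : ℝ) ^ d := by
  have hf : Fact p.Prime := ⟨hp⟩
  unfold mean
  rw [one_div, inv_mul_eq_div]
  congr 1
  apply sum_nbij' (fun n : Fin d → ℕ => (fun i => (n i : ZMod p))) (fun v : Fin d → ZMod p => (fun i => (v i).val))
  · intro n _
    exact mem_univ _
  · intro v _
    exact mem_box.2 (fun i => ZMod.val_lt (v i))
  · intro n hn
    funext i
    exact ZMod.val_cast_of_lt (mem_box.1 hn i)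
  · intro v _
    funext i
    exact ZMod.natCast_zmod_val (v i)
  · intro n _
    rfl

/-- the average of the character over the values of an affine function, against a function which is invariant under the
translations by `w` -/
lemma shift_zero {p : ℕ} [hf : Fact p.Prime] (h2 : p ≠ 2) {V : Type} [AddCommGroup V] [Fintype V] [Module (ZMod p) V]
    (L : V →ₗ[ZMod p] ZMod p) (a : ZMod p) (Y : V → ℝ) (w : V) (hw : L w = 1) (hY : ∀ v (s : ZMod p), Y (v + s • w) = Y v) :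
    ∑ v, (quadraticChar (ZMod p) (L v + a) : ℝ) * Y v = 0 := by
  have h1 : ∀ s : ZMod p, ∑ v, (quadraticChar (ZMod p) (L v + a) : ℝ) * Y v =
      ∑ v, (quadraticChar (ZMod p) (L v + a + s) : ℝ) * Y v := by
    intro s
    rw [← Equiv.sum_comp (Equiv.addRight (s • w)) (fun v => (quadraticChar (ZMod p) (L v + a) : ℝ) * Y v)]
    apply sum_congr rfl
    intro v _
    have e1 : L (v + s • w) = L v + s := by rw [map_add, map_smul, hw, smul_eq_mul, mul_one]
    show (quadraticChar (ZMod p) (L (v + s • w) + a) : ℝ) * Y (v + s • w) = _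
    rw [hY, e1, add_right_comm]
  have h3 : (Fintype.card (ZMod p) : ℝ) * ∑ v, (quadraticChar (ZMod p) (L v + a) : ℝ) * Y v = 0 := by
    have h4 : (Fintype.card (ZMod p) : ℝ) * ∑ v, (quadraticChar (ZMod p) (L v + a) : ℝ) * Y v =
        ∑ s : ZMod p, ∑ v, (quadraticChar (ZMod p) (L v + a + s) : ℝ) * Y v := by
      rw [← sum_congr rfl (fun s _ => h1 s), sum_const, nsmul_eq_mul, card_univ]
    rw [h4, sum_comm]
    apply sum_eq_zero
    intro v _
    rw [← sum_mul]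
    have h5 : ∑ s : ZMod p, (quadraticChar (ZMod p) (L v + a + s) : ℝ) = ∑ s : ZMod p, (quadraticChar (ZMod p) s : ℝ) :=
      Equiv.sum_comp (Equiv.addLeft (L v + a)) (fun s => (quadraticChar (ZMod p) s : ℝ))
    rw [h5, ← Int.cast_sum, quadraticChar_sum_zero (by rw [ZMod.ringChar_zmod_n]; exact h2), Int.cast_zero, zero_mul]
  have h6 : (Fintype.card (ZMod p) : ℝ) ≠ 0 := by
    rw [ZMod.card]
    exact_mod_cast hf.out.ne_zero
  exact (mul_eq_zero.1 h3).resolve_left h6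

/-- the second moment of a sum of characters of pairwise independent affine functions -/
lemma second_moment {p : ℕ} [hf : Fact p.Prime] (h2 : p ≠ 2) {V : Type} [AddCommGroup V] [Fintype V] [Module (ZMod p) V]
    {Z : Type} [Fintype Z] [DecidableEq Z] (L : Z → V →ₗ[ZMod p] ZMod p) (a : Z → ZMod p)
    (hind : ∀ z z', z ≠ z' → ∃ w : V, L z w = 1 ∧ L z' w = 0) (α : Z → ℝ) :
    ∑ v, (∑ z, α z * (quadraticChar (ZMod p) (L z v + a z) : ℝ)) ^ 2 ≤ (∑ z, α z ^ 2) * Fintype.card V := by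
  have h1 : ∀ v, (∑ z, α z * (quadraticChar (ZMod p) (L z v + a z) : ℝ)) ^ 2 =
      ∑ z, ∑ z', α z * α z' * ((quadraticChar (ZMod p) (L z v + a z) : ℝ) * (quadraticChar (ZMod p) (L z' v + a z') : ℝ)) := by
    intro v
    rw [sq, sum_mul_sum]
    apply sum_congr rfl
    intro z _
    apply sum_congr rfl
    intro z' _
    ring
  rw [sum_congr rfl (fun v _ => h1 v), sum_comm]
  have h3 : ∀ z, ∑ v, ∑ z', α z * α z' * ((quadraticChar (ZMod p) (L z v + a z) : ℝ) * (quadraticChar (ZMod p) (L z' v + a z') : ℝ)) ≤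
      α z ^ 2 * Fintype.card V := by
    intro z
    rw [sum_comm]
    have h4 : ∀ z' ∈ univ, z' ≠ z → ∑ v, α z * α z' * ((quadraticChar (ZMod p) (L z v + a z) : ℝ) * (quadraticChar (ZMod p) (L z' v + a z') : ℝ)) = 0 := by
      intro z' _ hz
      obtain ⟨w, hw1, hw2⟩ := hind z z' (Ne.symm hz)
      rw [← mul_sum, shift_zero h2 (L z) (a z) (fun v => (quadraticChar (ZMod p) (L z' v + a z') : ℝ)) w hw1 (by
        intro v s
        have e1 : L z' (v + s • w) = L z' v := by rw [map_add, map_smul, hw2, smul_zero, add_zero]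
        show (quadraticChar (ZMod p) (L z' (v + s • w) + a z') : ℝ) = _
        rw [e1]), mul_zero]
    rw [sum_eq_single z h4 (fun h => absurd (mem_univ z) h)]
    have h5 : ∀ v ∈ (univ : Finset V), α z * α z * ((quadraticChar (ZMod p) (L z v + a z) : ℝ) * (quadraticChar (ZMod p) (L z v + a z) : ℝ)) ≤ α z ^ 2 := by
      intro v _
      have h6 : (quadraticChar (ZMod p) (L z v + a z) : ℝ) * (quadraticChar (ZMod p) (L z v + a z) : ℝ) ≤ 1 := by
        by_cases h0 : L z v + a z = 0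
        · rw [h0, quadraticChar_zero]
          norm_num
        · rcases quadraticChar_dichotomy h0 with h | h <;> rw [h] <;> norm_num
      have h7 : α z * α z * ((quadraticChar (ZMod p) (L z v + a z) : ℝ) * (quadraticChar (ZMod p) (L z v + a z) : ℝ)) ≤ α z * α z * 1 :=
        mul_le_mul_of_nonneg_left h6 (mul_self_nonneg _)
      rw [sq]
      linarith
    refine (sum_le_sum h5).trans ?_
    rw [sum_const, nsmul_eq_mul, card_univ, mul_comm]
  refine (sum_le_sum (fun z _ => h3 z)).trans ?_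
  rw [← sum_mul]

lemma absorb (C δ : ℝ) (hC : 0 ≤ C) (hδ : 0 < δ) : ∃ x₁ : ℕ, ∀ x : ℕ, x₁ ≤ x → C * (Real.log x + 1) ≤ (x : ℝ) ^ δ := by
  obtain ⟨x₁, hx₁⟩ : ∃ x₁ : ℕ, ∀ x : ℕ, x₁ ≤ x → C * (2 / δ + 1) ≤ (x : ℝ) ^ (δ / 2) := by
    have h1 : Filter.Tendsto (fun x : ℝ => x ^ (δ / 2)) Filter.atTop Filter.atTop := tendsto_rpow_atTop (by positivity)
    exact Filter.eventually_atTop.1 ((h1.comp tendsto_natCast_atTop_atTop).eventually (Filter.eventually_ge_atTop _))
  refine ⟨x₁ + 1, fun x hx => ?_⟩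
  have hx1 : (1 : ℝ) ≤ x := by exact_mod_cast (by omega : 1 ≤ x)
  have hx0 : (0 : ℝ) < x := by linarith
  have h2 := Real.log_le_rpow_div hx0.le (by positivity : (0 : ℝ) < δ / 2)
  have h3 : (1 : ℝ) ≤ (x : ℝ) ^ (δ / 2) := Real.one_le_rpow hx1 (by positivity)
  have h4 := hx₁ x (by omega)
  have h5 : (x : ℝ) ^ δ = (x : ℝ) ^ (δ / 2) * (x : ℝ) ^ (δ / 2) := by
    rw [← Real.rpow_add hx0]
    congr 1
    ring
  rw [h5]
  calc C * (Real.log x + 1) ≤ C * ((x : ℝ) ^ (δ / 2) / (δ / 2) + (x : ℝ) ^ (δ / 2)) :=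
        mul_le_mul_of_nonneg_left (add_le_add h2 h3) hC
    _ = C * (2 / δ + 1) * (x : ℝ) ^ (δ / 2) := by
        field_simp
    _ ≤ _ := mul_le_mul_of_nonneg_right h4 (by linarith)

end Pool.Agent.X22.ND
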