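import Pool.Agent.X22.ND3
import Pool.Agent.H126T.Field
import Pool.Agent.H341R2.WeilSharp

/-!
# Families of hyperelliptic curves over affine space: weighted fibre averages of the traces over all coefficients modulo `p`
-/

set_option autoImplicit false

namespace Pool.Agent.X22.ND

open Finset
open Pool.Agent.TH894.NE (mean mean_mul)

/-- The value modulo `p` of `f (x, t) = x ^ n + ∑ m l x ^ i t ^ J`, `E l = (i, J)`, where `t = (t 1, ..., t k)` and `l` runs through the `d`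
monomials. -/
def fiber (p n : ℕ) {k d : ℕ} (E : Fin d → ℕ × (Fin k → ℕ)) (m : Fin d → ℕ) (x : ZMod p) (t : Fin k → ZMod p) : ZMod p :=
  x ^ n + ∑ l, (m l : ZMod p) * (x ^ (E l).1 * ∏ j, t j ^ (E l).2 j)

/-- The trace of Frobenius of the fibre `Y ^ 2 = f (X, t)` at `t` modulo `p`: `p` minus the number of its affine points (for `n` odd there is
one point at infinity). -/
noncomputable def trace (p n : ℕ) {k d : ℕ} (E : Fin d → ℕ × (Fin k → ℕ)) (m : Fin d → ℕ) (t : Fin k → ZMod p) : ℤ :=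
  p - Nat.card {P : ZMod p × ZMod p // P.2 ^ 2 = fiber p n E m P.1 t}

/-- the linear form -/
def lin (p : ℕ) {k d : ℕ} (E : Fin d → ℕ × (Fin k → ℕ)) (z : ZMod p × (Fin k → ZMod p)) : (Fin d → ZMod p) →ₗ[ZMod p] ZMod p where
  toFun v := ∑ l, v l * (z.1 ^ (E l).1 * ∏ j, z.2 j ^ (E l).2 j)
  map_add' v w := by
    rw [← sum_add_distrib]
    apply sum_congr rfl
    intro l _
    rw [Pi.add_apply]
    ring
  map_smul' c v := by
    rw [RingHom.id_apply, smul_eq_mul, mul_sum]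
    apply sum_congr rfl
    intro l _
    rw [Pi.smul_apply, smul_eq_mul]
    ring

lemma trace_eq (p n : ℕ) (hp : p.Prime) (h2 : p ≠ 2) {k d : ℕ} (E : Fin d → ℕ × (Fin k → ℕ)) (m : Fin d → ℕ) (t : Fin k → ZMod p) :
    haveI : Fact p.Prime := ⟨hp⟩
    (trace p n E m t : ℝ) = -∑ x : ZMod p, (quadraticChar (ZMod p) (fiber p n E m x t) : ℝ) := by
  have hf : Fact p.Prime := ⟨hp⟩
  have h3 : ringChar (ZMod p) ≠ 2 := by
    rw [ZMod.ringChar_zmod_n]
    exact h2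
  obtain ⟨g, hg⟩ : ∃ g : Polynomial (ZMod p), g = Polynomial.X ^ n + ∑ l, Polynomial.C ((m l : ZMod p) * ∏ j, t j ^ (E l).2 j) * Polynomial.X ^ (E l).1 := ⟨_, rfl⟩
  have hev : ∀ x : ZMod p, g.eval x = fiber p n E m x t := by
    intro x
    rw [hg]
    unfold fiber
    rw [Polynomial.eval_add, Polynomial.eval_pow, Polynomial.eval_X, Polynomial.eval_finsetSum]
    congr 1
    apply sum_congr rfl
    intro l _
    rw [Polynomial.eval_mul, Polynomial.eval_C, Polynomial.eval_pow, Polynomial.eval_X]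
    ring
  have h4 := Pool.Agent.H126T.card_aff h3 g (1 : ZMod p) one_ne_zero
  have e1 : {P : ZMod p × ZMod p // 1 * P.2 ^ 2 = g.eval P.1} = {P : ZMod p × ZMod p // P.2 ^ 2 = fiber p n E m P.1 t} := by
    congr 1
    funext P
    rw [hev, one_mul]
  rw [e1, ZMod.card, map_one, one_mul] at h4
  unfold trace
  rw [h4]
  push_cast
  rw [sub_add_cancel_left]
  congr 1
  apply sum_congr rfl
  intro x _
  rw [hev]

lemma trace_bound (p n : ℕ) (hp : p.Prime) (h2 : p ≠ 2) (hn : Odd n) {k d : ℕ} (E : Fin d → ℕ × (Fin k → ℕ)) (hE : ∀ l, (E l).1 < n)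
    (m : Fin d → ℕ) (t : Fin k → ZMod p) : |(trace p n E m t : ℝ)| ≤ n * Real.sqrt p := by
  have hf : Fact p.Prime := ⟨hp⟩
  have h3 : ringChar (ZMod p) ≠ 2 := by
    rw [ZMod.ringChar_zmod_n]
    exact h2
  obtain ⟨s, hs⟩ : ∃ s : Polynomial (ZMod p), s = ∑ l, Polynomial.C ((m l : ZMod p) * ∏ j, t j ^ (E l).2 j) * Polynomial.X ^ (E l).1 := ⟨_, rfl⟩
  obtain ⟨g, hg⟩ : ∃ g : Polynomial (ZMod p), g = Polynomial.X ^ n + s := ⟨_, rfl⟩
  have hn1 : 1 ≤ n := hn.pos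
  have hsd : s.degree < n := by
    rw [hs]
    refine (Polynomial.degree_sum_le _ _).trans_lt ?_
    rw [Finset.sup_lt_iff (by exact WithBot.bot_lt_coe n)]
    intro l _
    refine (Polynomial.degree_C_mul_X_pow_le _ _).trans_lt ?_
    exact_mod_cast hE l
  have hgd : g.natDegree = n := by
    rw [hg, add_comm]
    rw [Polynomial.natDegree_add_eq_right_of_degree_lt (by rwa [Polynomial.degree_X_pow]), Polynomial.natDegree_X_pow]
  have hev : ∀ x : ZMod p, g.eval x = fiber p n E m x t := by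
    intro x
    rw [hg, hs]
    unfold fiber
    rw [Polynomial.eval_add, Polynomial.eval_pow, Polynomial.eval_X, Polynomial.eval_finsetSum]
    congr 1
    apply sum_congr rfl
    intro l _
    rw [Polynomial.eval_mul, Polynomial.eval_C, Polynomial.eval_pow, Polynomial.eval_X]
    ring
  have h4 := Pool.Agent.H341R2.Sharp.weil_sharp h3 g (by rw [hgd]; exact hn1) (by
    intro c h hgh
    by_cases hc : c = 0
    · rw [hc] at hgh
      simp at hgh
      rw [hgh, Polynomial.natDegree_zero] at hgd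
      omega
    · have h5 : g.natDegree = 2 * h.natDegree := by
        rw [hgh, Polynomial.natDegree_C_mul hc, Polynomial.natDegree_pow]
      rw [hgd] at h5
      rw [h5] at hn
      exact (Nat.not_odd_iff_even.2 (even_two_mul _)) hn)
  rw [hgd, ZMod.card] at h4
  rw [trace_eq p n hp h2, abs_neg]
  simp only [hev] at h4
  refine h4.trans ?_
  have h5 : 0 ≤ Real.sqrt (p : ℝ) := Real.sqrt_nonneg _
  nlinarith

section
variable {p n k d : ℕ} [hf : Fact p.Prime] (E : Fin d → ℕ × (Fin k → ℕ))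

lemma lin_single (z : ZMod p × (Fin k → ZMod p)) (l : Fin d) (c : ZMod p) :
    lin p E z (Pi.single l c) = c * (z.1 ^ (E l).1 * ∏ j, z.2 j ^ (E l).2 j) := by
  unfold lin
  simp only [LinearMap.coe_mk, AddHom.coe_mk]
  rw [sum_eq_single l]
  · rw [Pi.single_eq_same]
  · intro l' _ hne
    rw [Pi.single_eq_of_ne hne, zero_mul]
  · intro h
    exact absurd (mem_univ l) h

lemma indep (h0 : ∃ l, E l = (0, 0)) (h1 : ∃ l, E l = (1, 0)) (ht : ∀ j, ∃ l, E l = (0, Pi.single j 1))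
    (z z' : ZMod p × (Fin k → ZMod p)) (hz : z ≠ z') : ∃ w : Fin d → ZMod p, lin p E z w = 1 ∧ lin p E z' w = 0 := by
  obtain ⟨l0, hl0⟩ := h0
  have hc : ∀ z : ZMod p × (Fin k → ZMod p), ∀ c, lin p E z (Pi.single l0 c) = c := by
    intro z c
    rw [lin_single, hl0]
    simp
  -- a separating monomial
  obtain ⟨l, hl⟩ : ∃ l, z.1 ^ (E l).1 * ∏ j, z.2 j ^ (E l).2 j ≠ z'.1 ^ (E l).1 * ∏ j, z'.2 j ^ (E l).2 j := by
    by_cases hx : z.1 = z'.1
    · obtain ⟨j, hj⟩ : ∃ j, z.2 j ≠ z'.2 j := by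
        by_contra hcon
        push Not at hcon
        exact hz (Prod.ext hx (funext hcon))
      obtain ⟨l, hl⟩ := ht j
      refine ⟨l, ?_⟩
      have e : ∀ u : Fin k → ZMod p, ∏ i, u i ^ (Pi.single j 1 : Fin k → ℕ) i = u j := by
        intro u
        rw [prod_eq_single j]
        · rw [Pi.single_eq_same, pow_one]
        · intro i _ hi
          rw [Pi.single_eq_of_ne hi, pow_zero]
        · intro h
          exact absurd (mem_univ j) h
      rw [hl]
      show z.1 ^ 0 * ∏ i, z.2 i ^ (Pi.single j 1 : Fin k → ℕ) i ≠ z'.1 ^ 0 * ∏ i, z'.2 i ^ (Pi.single j 1 : Fin k → ℕ) i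
      rw [e, e, pow_zero, pow_zero, one_mul, one_mul]
      exact hj
    · obtain ⟨l, hl⟩ := h1
      refine ⟨l, ?_⟩
      rw [hl]
      simpa using hx
  obtain ⟨α, hα⟩ : ∃ α, α = z.1 ^ (E l).1 * ∏ j, z.2 j ^ (E l).2 j := ⟨_, rfl⟩
  obtain ⟨α', hα'⟩ : ∃ α', α' = z'.1 ^ (E l).1 * ∏ j, z'.2 j ^ (E l).2 j := ⟨_, rfl⟩
  rw [← hα, ← hα'] at hl
  have hne : α - α' ≠ 0 := sub_ne_zero.2 hl
  refine ⟨Pi.single l0 (-((α - α')⁻¹ * α')) + Pi.single l ((α - α')⁻¹), ?_, ?_⟩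
  · rw [map_add, hc, lin_single, ← hα]
    field_simp
    ring
  · rw [map_add, hc, lin_single, ← hα']
    ring

end

lemma fiber_mod (p n : ℕ) {k d : ℕ} (E : Fin d → ℕ × (Fin k → ℕ)) (m : Fin d → ℕ) (x : ZMod p) (t : Fin k → ZMod p) :
    fiber p n E m x t = fiber p n E (fun i => m i % p) x t := by
  unfold fiber
  congr 1
  apply sum_congr rfl
  intro l _
  rw [ZMod.natCast_mod]


lemma trace_mod (p n : ℕ) {k d : ℕ} (E : Fin d → ℕ × (Fin k → ℕ)) (m : Fin d → ℕ) (t : Fin k → ZMod p) :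
    trace p n E m t = trace p n E (fun i => m i % p) t := by
  unfold trace
  simp only [← fiber_mod]

/-- the weighted sum of characters -/
noncomputable def csw (p n : ℕ) (hp : p.Prime) {k d : ℕ} (E : Fin d → ℕ × (Fin k → ℕ)) (α : (Fin k → ZMod p) → ℝ) (v : Fin d → ZMod p) : ℝ :=
  haveI : Fact p.Prime := ⟨hp⟩
  ∑ z : ZMod p × (Fin k → ZMod p), α z.2 * (quadraticChar (ZMod p) (lin p E z v + z.1 ^ n) : ℝ)

lemma wt_eq (p n : ℕ) (hp : p.Prime) (h2 : p ≠ 2) {k d : ℕ} (E : Fin d → ℕ × (Fin k → ℕ)) (α : (Fin k → ZMod p) → ℝ) (m : Fin d → ℕ) :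
    haveI : Fact p.Prime := ⟨hp⟩
    ∑ t : Fin k → ZMod p, α t * (trace p n E m t : ℝ) = -(csw p n hp E α (fun i => (m i : ZMod p))) := by
  have hf : Fact p.Prime := ⟨hp⟩
  rw [sum_congr rfl (fun t _ => by rw [trace_eq p n hp h2 E m t, mul_neg])]
  rw [sum_neg_distrib]
  congr 1
  unfold csw
  rw [Fintype.sum_prod_type_right]
  apply sum_congr rfl
  intro t _
  rw [mul_sum]
  apply sum_congr rfl
  intro x _
  unfold fiber lin
  simp only [LinearMap.coe_mk, AddHom.coe_mk]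
  rw [add_comm]

lemma mean_wt (p n : ℕ) (hp : p.Prime) (h2 : p ≠ 2) {k d : ℕ} (E : Fin d → ℕ × (Fin k → ℕ)) (h0 : ∃ l, E l = (0, 0))
    (α : (Fin k → ZMod p) → ℝ) (c : ℝ) : haveI : Fact p.Prime := ⟨hp⟩
    mean d p (fun m => c * ∑ t : Fin k → ZMod p, α t * (trace p n E m t : ℝ)) = 0 := by
  have hf : Fact p.Prime := ⟨hp⟩
  have h3 : (fun m : Fin d → ℕ => c * ∑ t : Fin k → ZMod p, α t * (trace p n E m t : ℝ)) =
      fun m : Fin d → ℕ => (fun v : Fin d → ZMod p => c * (-(csw p n hp E α v))) (fun i => (m i : ZMod p)) := by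
    funext m
    rw [wt_eq p n hp h2]
  have h33 : mean d p (fun m => c * ∑ t : Fin k → ZMod p, α t * (trace p n E m t : ℝ)) =
      (∑ v : Fin d → ZMod p, c * (-(csw p n hp E α v))) / (p : ℝ) ^ d := by
    rw [h3]
    exact mean_zmod d p hp (fun v => c * (-(csw p n hp E α v)))
  rw [h33, ← mul_sum, sum_neg_distrib]
  have h4 : ∑ v : Fin d → ZMod p, csw p n hp E α v = 0 := by
    unfold csw
    rw [sum_comm]
    apply sum_eq_zero
    intro z _
    obtain ⟨l0, hl0⟩ := h0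
    have h5 := shift_zero h2 (lin p E z) (z.1 ^ n) (fun _ => α z.2) (Pi.single l0 1) (by
      rw [lin_single, hl0]
      simp) (fun _ _ => rfl)
    rw [← h5]
    apply sum_congr rfl
    intro v _
    ring
  rw [h4]
  simp

lemma mean_wt_sq (p n : ℕ) (hp : p.Prime) (h2 : p ≠ 2) {k d : ℕ} (E : Fin d → ℕ × (Fin k → ℕ)) (h0 : ∃ l, E l = (0, 0))
    (h1 : ∃ l, E l = (1, 0)) (ht : ∀ j, ∃ l, E l = (0, Pi.single j 1)) (α : (Fin k → ZMod p) → ℝ) (c : ℝ) :
    haveI : Fact p.Prime := ⟨hp⟩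
    mean d p (fun m => (c * ∑ t : Fin k → ZMod p, α t * (trace p n E m t : ℝ)) ^ 2) ≤ c ^ 2 * (p * ∑ t : Fin k → ZMod p, α t ^ 2) := by
  have hf : Fact p.Prime := ⟨hp⟩
  have hp0 : (0 : ℝ) < p := by exact_mod_cast hp.pos
  have h3 : (fun m : Fin d → ℕ => (c * ∑ t : Fin k → ZMod p, α t * (trace p n E m t : ℝ)) ^ 2) =
      fun m : Fin d → ℕ => (fun v : Fin d → ZMod p => c ^ 2 * (csw p n hp E α v) ^ 2) (fun i => (m i : ZMod p)) := by
    funext m
    rw [wt_eq p n hp h2]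
    ring
  have h33 : mean d p (fun m => (c * ∑ t : Fin k → ZMod p, α t * (trace p n E m t : ℝ)) ^ 2) =
      (∑ v : Fin d → ZMod p, c ^ 2 * (csw p n hp E α v) ^ 2) / (p : ℝ) ^ d := by
    rw [h3]
    exact mean_zmod d p hp (fun v => c ^ 2 * (csw p n hp E α v) ^ 2)
  rw [h33, ← mul_sum]
  have h4 := second_moment h2 (lin p E) (fun z => z.1 ^ n) (indep E h0 h1 ht) (fun z => α z.2)
  have h5 : ∑ v : Fin d → ZMod p, (csw p n hp E α v) ^ 2 ≤ (p * ∑ t : Fin k → ZMod p, α t ^ 2) * (p : ℝ) ^ d := by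
    refine h4.trans (le_of_eq ?_)
    have e1 : ∑ z : ZMod p × (Fin k → ZMod p), α z.2 ^ 2 = p * ∑ t : Fin k → ZMod p, α t ^ 2 := by
      rw [Fintype.sum_prod_type]
      show ∑ _x : ZMod p, ∑ t : Fin k → ZMod p, α t ^ 2 = _
      rw [sum_const, card_univ, ZMod.card, nsmul_eq_mul]
    rw [e1, Fintype.card_fun, Fintype.card_fin, ZMod.card]
    push_cast
    ring
  rw [div_le_iff₀ (pow_pos hp0 d)]
  calc c ^ 2 * ∑ v : Fin d → ZMod p, (csw p n hp E α v) ^ 2
      ≤ c ^ 2 * ((p * ∑ t : Fin k → ZMod p, α t ^ 2) * (p : ℝ) ^ d) := mul_le_mul_of_nonneg_left h5 (sq_nonneg _)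
    _ = _ := by ring

lemma wt_bound (p n : ℕ) (hp : p.Prime) (h2 : p ≠ 2) (hn : Odd n) {k d : ℕ} (E : Fin d → ℕ × (Fin k → ℕ)) (hE : ∀ l, (E l).1 < n)
    (α : (Fin k → ZMod p) → ℝ) (a : ℝ) (ha : ∀ t, |α t| ≤ a) (m : Fin d → ℕ) : haveI : Fact p.Prime := ⟨hp⟩
    |∑ t : Fin k → ZMod p, α t * (trace p n E m t : ℝ)| ≤ (p : ℝ) ^ k * (a * (n * Real.sqrt p)) := by
  have hf : Fact p.Prime := ⟨hp⟩
  refine (abs_sum_le_sum_abs _ _).trans ?_
  have h1 : ∀ t ∈ (univ : Finset (Fin k → ZMod p)), |α t * (trace p n E m t : ℝ)| ≤ a * (n * Real.sqrt p) := by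
    intro t _
    rw [abs_mul]
    have h3 : 0 ≤ a := (abs_nonneg _).trans (ha t)
    exact mul_le_mul (ha t) (trace_bound p n hp h2 hn E hE m t) (abs_nonneg _) h3
  refine (sum_le_sum h1).trans ?_
  rw [sum_const, card_univ, Fintype.card_fun, Fintype.card_fin, ZMod.card, nsmul_eq_mul]
  push_cast
  exact le_rfl

end Pool.Agent.X22.ND
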