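import Pool.Agent.X22.ND6

/-!
# Numbers of points of sections of arbitrary sets of points by several random forms
-/

set_option autoImplicit false

namespace Pool.Agent.X22.SEC

open Finset Pool.Agent.TH894.NE
open Pool.Agent.X22.ND

section general
variable {V T : Type} [AddGroup V] [Fintype V] [AddGroup T] [Fintype T]

lemma gshift (L : V → T) (φ : T → ℝ) (hφ : ∑ t, φ t = 0) (Y : V → ℝ) (σ : T → V) (h1 : ∀ v t, L (v + σ t) = L v + t)
    (h2 : ∀ v t, Y (v + σ t) = Y v) : ∑ v, φ (L v) * Y v = 0 := by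
  have h3 : ∀ t : T, ∑ v, φ (L v) * Y v = ∑ v, φ (L v + t) * Y v := by
    intro t
    rw [← Equiv.sum_comp (Equiv.addRight (σ t)) (fun v => φ (L v) * Y v)]
    apply sum_congr rfl
    intro v _
    show φ (L (v + σ t)) * Y (v + σ t) = _
    rw [h1, h2]
  have h4 : (Fintype.card T : ℝ) * ∑ v, φ (L v) * Y v = 0 := by
    have h5 : (Fintype.card T : ℝ) * ∑ v, φ (L v) * Y v = ∑ t : T, ∑ v, φ (L v + t) * Y v := by
      rw [← sum_congr rfl (fun t _ => h3 t), sum_const, nsmul_eq_mul, card_univ]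
    rw [h5, sum_comm]
    apply sum_eq_zero
    intro v _
    rw [← sum_mul]
    have h6 : ∑ t : T, φ (L v + t) = ∑ t : T, φ t := Equiv.sum_comp (Equiv.addLeft (L v)) φ
    rw [h6, hφ, zero_mul]
  have h7 : (Fintype.card T : ℝ) ≠ 0 := by
    exact_mod_cast Fintype.card_ne_zero
  exact (mul_eq_zero.1 h4).resolve_left h7

open Classical in
lemma gsecond {U : Type} (S : Finset U) (L : U → V → T) (φ : T → ℝ) (hφ : ∑ t, φ t = 0) (dep : U → U → Prop) (D C : ℝ) (hC : 0 ≤ C)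
    (hdep : ∀ u ∈ S, ((S.filter (fun u' => dep u u')).card : ℝ) ≤ D)
    (hind : ∀ u ∈ S, ∀ u' ∈ S, ¬ dep u u' → ∃ σ : T → V, (∀ v t, L u (v + σ t) = L u v + t) ∧ ∀ v t, L u' (v + σ t) = L u' v)
    (hsq : ∀ u ∈ S, ∑ v, φ (L u v) ^ 2 ≤ C) : ∑ v, (∑ u ∈ S, φ (L u v)) ^ 2 ≤ D * S.card * C := by
  have h1 : ∀ v, (∑ u ∈ S, φ (L u v)) ^ 2 = ∑ u ∈ S, ∑ u' ∈ S, φ (L u v) * φ (L u' v) := by
    intro v
    rw [sq, sum_mul_sum]
  rw [sum_congr rfl (fun v _ => h1 v), sum_comm]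
  have h3 : ∀ u ∈ S, ∑ v, ∑ u' ∈ S, φ (L u v) * φ (L u' v) ≤ ∑ u' ∈ S.filter (fun u' => dep u u'), C := by
    intro u hu
    rw [sum_comm, ← sum_filter_add_sum_filter_not S (fun u' => dep u u')]
    have h4 : ∑ u' ∈ S.filter (fun u' => ¬ dep u u'), ∑ v, φ (L u v) * φ (L u' v) = 0 := by
      apply sum_eq_zero
      intro u' hu'
      rw [mem_filter] at hu'
      obtain ⟨σ, hσ1, hσ2⟩ := hind u hu u' hu'.1 hu'.2
      exact gshift (L u) φ hφ (fun v => φ (L u' v)) σ hσ1 (fun v t => by rw [hσ2])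
    rw [h4, add_zero]
    apply sum_le_sum
    intro u' hu'
    rw [mem_filter] at hu'
    have h5 := hsq u hu
    have h6 := hsq u' hu'.1
    have h7 : ∑ v, φ (L u v) * φ (L u' v) ≤ ∑ v, (φ (L u v) ^ 2 + φ (L u' v) ^ 2) / 2 := by
      apply sum_le_sum
      intro v _
      nlinarith [sq_nonneg (φ (L u v) - φ (L u' v))]
    rw [← sum_div, sum_add_distrib] at h7
    linarith
  refine (sum_le_sum h3).trans ?_
  have h8 : ∀ u ∈ S, ∑ u' ∈ S.filter (fun u' => dep u u'), C ≤ D * C := by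
    intro u hu
    rw [sum_const, nsmul_eq_mul]
    exact mul_le_mul_of_nonneg_right (hdep u hu) hC
  refine (sum_le_sum h8).trans ?_
  rw [sum_const, nsmul_eq_mul]
  apply le_of_eq
  ring

end general

section
variable {p s d : ℕ}

/-- the linear map given by the values `a l` of the monomials; `c l` is the number of the form in which the monomial occurs -/
def LF (c : Fin d → Fin s) (a : Fin d → ZMod p) (m : Fin d → ZMod p) : Fin s → ZMod p :=
  fun i => ∑ l ∈ univ.filter (fun l => c l = i), m l * a l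

lemma LF_add (c : Fin d → Fin s) (a m m' : Fin d → ZMod p) : LF c a (m + m') = LF c a m + LF c a m' := by
  funext i
  unfold LF
  rw [Pi.add_apply, ← sum_add_distrib]
  apply sum_congr rfl
  intro l _
  rw [Pi.add_apply]
  ring

/-- the values of the monomials -/
def mv {n : ℕ} (E : Fin d → (Fin n → ℕ)) (u : Fin n → ZMod p) (l : Fin d) : ZMod p := ∏ j, u j ^ E l j

lemma mv_single {n : ℕ} (E : Fin d → (Fin n → ℕ)) (u : Fin n → ZMod p) (l : Fin d) (i : Fin n) (e : ℕ) (h : E l = Pi.single i e) :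
    mv E u l = u i ^ e := by
  unfold mv
  rw [h, prod_eq_single i]
  · rw [Pi.single_eq_same]
  · intro j _ hj
    rw [Pi.single_eq_of_ne hj, pow_zero]
  · intro h
    exact absurd (mem_univ i) h

lemma mv_two {n : ℕ} (E : Fin d → (Fin n → ℕ)) (u : Fin n → ZMod p) (l : Fin d) (i j : Fin n) (e : ℕ) (h : E l = Pi.single i e + Pi.single j 1) :
    mv E u l = u i ^ e * u j := by
  unfold mv
  rw [h]
  simp only [Pi.add_apply, pow_add]
  rw [prod_mul_distrib, prod_eq_single i, prod_eq_single j]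
  · rw [Pi.single_eq_same, Pi.single_eq_same, pow_one]
  · intro k _ hk
    rw [Pi.single_eq_of_ne hk, pow_zero]
  · intro h
    exact absurd (mem_univ j) h
  · intro k _ hk
    rw [Pi.single_eq_of_ne hk, pow_zero]
  · intro h
    exact absurd (mem_univ i) h

end

section
variable {p s d : ℕ} [hf : Fact p.Prime]

/-- the centred indicator function of zero -/
noncomputable def phs (p s : ℕ) (t : Fin s → ZMod p) : ℝ := (if t = 0 then 1 else 0) - 1 / (p : ℝ) ^ s

lemma sum_phs : ∑ t : Fin s → ZMod p, phs p s t = 0 := by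
  unfold phs
  rw [sum_sub_distrib, sum_ite_eq' univ (0 : Fin s → ZMod p) (fun _ => (1 : ℝ)), sum_const, card_univ, Fintype.card_fun, Fintype.card_fin, ZMod.card, nsmul_eq_mul]
  have : (p : ℝ) ≠ 0 := by exact_mod_cast hf.out.ne_zero
  simp [this]

omit hf in
lemma phs_sq (hp0 : (p : ℝ) ≠ 0) (t : Fin s → ZMod p) : phs p s t ^ 2 = (1 - 2 / (p : ℝ) ^ s) * phs p s t + (1 / (p : ℝ) ^ s - 1 / ((p : ℝ) ^ s) ^ 2) := by
  have hp1 : (p : ℝ) ^ s ≠ 0 := pow_ne_zero s hp0
  unfold phs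
  split_ifs
  · field_simp
    ring
  · field_simp
    ring

/-- a section, from two vectors of values `a`, `a'` -/
lemma exists_sec (c : Fin d → Fin s) (a a' : Fin d → ZMod p)
    (h : ∀ i : Fin s, ∃ l l', c l = i ∧ c l' = i ∧ a l * a' l' - a' l * a l' ≠ 0) :
    ∃ σ : (Fin s → ZMod p) → (Fin d → ZMod p), (∀ v t, LF c a (v + σ t) = LF c a v + t) ∧ ∀ v t, LF c a' (v + σ t) = LF c a' v := by
  choose l l' h1 h2 h3 using h
  have hll : ∀ i, l i ≠ l' i := by
    intro i hi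
    apply h3 i
    rw [hi]
    ring
  obtain ⟨σ, hσ⟩ : ∃ σ : (Fin s → ZMod p) → (Fin d → ZMod p), σ = fun t j =>
      if j = l (c j) then t (c j) * (a' (l' (c j)) / (a (l (c j)) * a' (l' (c j)) - a' (l (c j)) * a (l' (c j))))
      else if j = l' (c j) then t (c j) * (-(a' (l (c j))) / (a (l (c j)) * a' (l' (c j)) - a' (l (c j)) * a (l' (c j)))) else 0 := ⟨_, rfl⟩
  have key : ∀ (e : Fin d → ZMod p) (t : Fin s → ZMod p) (i : Fin s), LF c e (σ t) i =
      t i * (a' (l' i) / (a (l i) * a' (l' i) - a' (l i) * a (l' i))) * e (l i) +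
      t i * (-(a' (l i)) / (a (l i) * a' (l' i) - a' (l i) * a (l' i))) * e (l' i) := by
    intro e t i
    unfold LF
    have hs : ({l i, l' i} : Finset (Fin d)) ⊆ univ.filter (fun j => c j = i) := by
      intro j hj
      rw [mem_insert, mem_singleton] at hj
      rw [mem_filter]
      refine ⟨mem_univ _, ?_⟩
      rcases hj with hj | hj
      · rw [hj]; exact h1 i
      · rw [hj]; exact h2 i
    rw [← sum_subset hs, sum_pair (hll i)]
    · congr 1
      · rw [hσ]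
        simp only [h1, if_true]
      · rw [hσ]
        simp only [h2]
        rw [if_neg (hll i).symm]
        simp only [if_true]
    · intro j hj hj'
      rw [mem_filter] at hj
      rw [mem_insert, mem_singleton] at hj'
      push Not at hj'
      rw [hσ]
      simp only [hj.2]
      rw [if_neg hj'.1, if_neg hj'.2, zero_mul]
  refine ⟨σ, fun v t => ?_, fun v t => ?_⟩
  · rw [LF_add]
    congr 1
    funext i
    rw [key]
    obtain ⟨D, hD⟩ : ∃ D, D = a (l i) * a' (l' i) - a' (l i) * a (l' i) := ⟨_, rfl⟩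
    have h4 := h3 i
    rw [← hD] at h4 ⊢
    have e1 : t i * (a' (l' i) / D) * a (l i) + t i * (-a' (l i) / D) * a (l' i) = t i * ((a (l i) * a' (l' i) - a' (l i) * a (l' i)) / D) := by ring
    rw [e1, ← hD, div_self h4, mul_one]
  · rw [LF_add]
    have : LF c a' (σ t) = 0 := by
      funext i
      rw [key, Pi.zero_apply]
      ring
    rw [this, add_zero]

/-- a section, from one vector of values -/
lemma exists_sec_one (c : Fin d → Fin s) (a : Fin d → ZMod p) (h : ∀ i : Fin s, ∃ l, c l = i ∧ a l ≠ 0) :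
    ∃ σ : (Fin s → ZMod p) → (Fin d → ZMod p), ∀ v t, LF c a (v + σ t) = LF c a v + t := by
  choose l h1 h2 using h
  obtain ⟨σ, hσ⟩ : ∃ σ : (Fin s → ZMod p) → (Fin d → ZMod p), σ = fun t j => if j = l (c j) then t (c j) * (a j)⁻¹ else 0 := ⟨_, rfl⟩
  refine ⟨σ, fun v t => ?_⟩
  rw [LF_add]
  congr 1
  funext i
  unfold LF
  rw [sum_eq_single (l i)]
  · rw [hσ]
    simp only [h1, if_true]
    rw [mul_assoc, inv_mul_cancel₀ (h2 i), mul_one]
  · intro j hj hne
    rw [mem_filter] at hj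
    rw [hσ]
    simp only [hj.2]
    rw [if_neg hne, zero_mul]
  · intro h
    exact (h (mem_filter.2 ⟨mem_univ _, h1 i⟩)).elim

/-- non-proportional vectors give independent values -/
lemma det_ne {n : ℕ} (E : Fin d → (Fin n → ℕ)) (c : Fin d → Fin s) (e : Fin s → ℕ) (he : ∀ i, 1 ≤ e i)
    (hE : ∀ i j j', ∃ l, c l = i ∧ E l = Pi.single j (e i - 1) + Pi.single j' 1) (u u' : Fin n → ZMod p) (hu : u ≠ 0) (hu' : u' ≠ 0)
    (hnp : ¬ ∃ t : ZMod p, u' = t • u) (i : Fin s) : ∃ l l', c l = i ∧ c l' = i ∧ mv E u l * mv E u' l' - mv E u' l * mv E u l' ≠ 0 := by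
  obtain ⟨j, hj⟩ : ∃ j, u j ≠ 0 := by
    by_contra hcon
    push Not at hcon
    exact hu (funext hcon)
  obtain ⟨l, hl1, hl2⟩ := hE i j j
  have hcan : ∀ t : ZMod p, t ^ (e i - 1) * t = t ^ e i := by
    intro t
    rw [← pow_succ]
    congr 1
    have := he i
    omega
  by_cases h0 : u' j = 0
  · obtain ⟨j', hj'⟩ : ∃ j', u' j' ≠ 0 := by
      by_contra hcon
      push Not at hcon
      exact hu' (funext hcon)
    obtain ⟨l', hl1', hl2'⟩ := hE i j' j'
    refine ⟨l, l', hl1, hl1', ?_⟩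
    rw [mv_two E u l j j _ hl2, mv_two E u' l j j _ hl2, mv_two E u' l' j' j' _ hl2', hcan, hcan, hcan, h0,
      zero_pow (by have := he i; omega), zero_mul, sub_zero]
    exact mul_ne_zero (pow_ne_zero _ hj) (pow_ne_zero _ hj')
  · obtain ⟨j', hj'⟩ : ∃ j', u' j' * u j ≠ u' j * u j' := by
      by_contra hcon
      push Not at hcon
      apply hnp
      refine ⟨u' j / u j, ?_⟩
      funext j'
      rw [Pi.smul_apply, smul_eq_mul]
      field_simp
      exact hcon j'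
    obtain ⟨l', hl1', hl2'⟩ := hE i j j'
    refine ⟨l, l', hl1, hl1', ?_⟩
    rw [mv_two E u l j j _ hl2, mv_two E u' l j j _ hl2, mv_two E u' l' j j' _ hl2', mv_two E u l' j j' _ hl2']
    have e1 : u j ^ (e i - 1) * u j * (u' j ^ (e i - 1) * u' j') - u' j ^ (e i - 1) * u' j * (u j ^ (e i - 1) * u j') =
        (u j ^ (e i - 1) * u' j ^ (e i - 1)) * (u' j' * u j - u' j * u j') := by ring
    rw [e1]
    exact mul_ne_zero (mul_ne_zero (pow_ne_zero _ hj) (pow_ne_zero _ h0)) (sub_ne_zero.2 hj')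

lemma val_ne {n : ℕ} (E : Fin d → (Fin n → ℕ)) (c : Fin d → Fin s) (e : Fin s → ℕ) (he : ∀ i, 1 ≤ e i)
    (hE : ∀ i j j', ∃ l, c l = i ∧ E l = Pi.single j (e i - 1) + Pi.single j' 1) (u : Fin n → ZMod p) (hu : u ≠ 0) (i : Fin s) :
    ∃ l, c l = i ∧ mv E u l ≠ 0 := by
  obtain ⟨j, hj⟩ : ∃ j, u j ≠ 0 := by
    by_contra hcon
    push Not at hcon
    exact hu (funext hcon)
  obtain ⟨l, hl1, hl2⟩ := hE i j j
  refine ⟨l, hl1, ?_⟩
  rw [mv_two E u l j j _ hl2]
  exact mul_ne_zero (pow_ne_zero _ hj) hj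

lemma sum_phs_sq (c : Fin d → Fin s) (a : Fin d → ZMod p) (h : ∀ i : Fin s, ∃ l, c l = i ∧ a l ≠ 0) :
    ∑ m : Fin d → ZMod p, phs p s (LF c a m) ^ 2 ≤ (p : ℝ) ^ d / (p : ℝ) ^ s := by
  have hp0 : (p : ℝ) ≠ 0 := by exact_mod_cast hf.out.ne_zero
  obtain ⟨σ, hσ⟩ := exists_sec_one c a h
  have h1 := gshift (LF c a) (phs p s) sum_phs (fun _ => 1) σ hσ (fun _ _ => rfl)
  simp only [mul_one] at h1
  rw [sum_congr rfl (fun m _ => phs_sq hp0 (LF c a m)), sum_add_distrib, ← mul_sum, sum_const, card_univ, nsmul_eq_mul, h1, mul_zero, zero_add,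
    Fintype.card_fun, Fintype.card_fin, ZMod.card]
  push_cast
  have h2 : 0 ≤ (p : ℝ) ^ d * (1 / ((p : ℝ) ^ s) ^ 2) := by positivity
  have h3 : (p : ℝ) ^ d * (1 / (p : ℝ) ^ s - 1 / ((p : ℝ) ^ s) ^ 2) = (p : ℝ) ^ d / (p : ℝ) ^ s - (p : ℝ) ^ d * (1 / ((p : ℝ) ^ s) ^ 2) := by ring
  rw [h3]
  linarith

open Classical in
/-- the second moment for sections of an arbitrary set of nonzero vectors by forms -/
lemma sec_second {n : ℕ} (E : Fin d → (Fin n → ℕ)) (c : Fin d → Fin s) (e : Fin s → ℕ) (he : ∀ i, 1 ≤ e i)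
    (hE : ∀ i j j', ∃ l, c l = i ∧ E l = Pi.single j (e i - 1) + Pi.single j' 1) (S : Finset (Fin n → ZMod p)) (hS : ∀ u ∈ S, u ≠ 0) :
    ∑ m : Fin d → ZMod p, (∑ u ∈ S, phs p s (LF c (mv E u) m)) ^ 2 ≤ (p - 1) * S.card * ((p : ℝ) ^ d / (p : ℝ) ^ s) := by
  have hp1 : 1 ≤ p := hf.out.one_lt.le
  apply gsecond S (fun u => LF c (mv E u)) (phs p s) sum_phs (fun u u' => ∃ t : ZMod p, u' = t • u) (p - 1) _ (by positivity)
  · intro u hu
    have h1 : (S.filter (fun u' => ∃ t : ZMod p, u' = t • u)).card ≤ ((univ.erase (0 : ZMod p)).image (fun t => t • u)).card := by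
      apply card_le_card
      intro u' hu'
      rw [mem_filter] at hu'
      obtain ⟨hu1, t, ht⟩ := hu'
      rw [mem_image]
      refine ⟨t, ?_, ht.symm⟩
      rw [mem_erase]
      refine ⟨?_, mem_univ _⟩
      rintro rfl
      rw [zero_smul] at ht
      exact hS u' hu1 ht
    have h2 := h1.trans card_image_le
    rw [card_erase_of_mem (mem_univ _), card_univ, ZMod.card] at h2
    have h3 : ((p - 1 : ℕ) : ℝ) = (p : ℝ) - 1 := by
      rw [Nat.cast_sub hp1, Nat.cast_one]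
    rw [← h3]
    refine Nat.cast_le.2 (le_trans (le_of_eq ?_) h2)
    congr!
  · intro u hu u' hu' hnp
    exact exists_sec c (mv E u) (mv E u') (det_ne E c e he hE u u' (hS u hu) (hS u' hu') hnp)
  · intro u hu
    exact sum_phs_sq c (mv E u) (val_ne E c e he hE u (hS u hu))

/-- the mean for sections -/
lemma sec_mean {n : ℕ} (E : Fin d → (Fin n → ℕ)) (c : Fin d → Fin s) (e : Fin s → ℕ) (he : ∀ i, 1 ≤ e i)
    (hE : ∀ i j j', ∃ l, c l = i ∧ E l = Pi.single j (e i - 1) + Pi.single j' 1) (S : Finset (Fin n → ZMod p)) (hS : ∀ u ∈ S, u ≠ 0) :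
    ∑ m : Fin d → ZMod p, ∑ u ∈ S, phs p s (LF c (mv E u) m) = 0 := by
  rw [sum_comm]
  apply sum_eq_zero
  intro u hu
  obtain ⟨σ, hσ⟩ := exists_sec_one c (mv E u) (val_ne E c e he hE u (hS u hu))
  have h1 := gshift (LF c (mv E u)) (phs p s) sum_phs (fun _ => 1) σ hσ (fun _ _ => rfl)
  simpa using h1

end

end Pool.Agent.X22.SEC
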