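import Pool.Agent.X22.NF
import Pool.Agent.X22.HS
import Pool.Agent.X22.ND6

/-!
# The number of the zeros modulo the primes of a number field of the members of a linear system of polynomials
-/

set_option autoImplicit false

namespace Pool.Agent.X22.RC

open Finset NumberField IsDedekindDomain Module Polynomial
open Pool.Agent.X22.NF (resEquiv)
open Pool.Agent.X22.ND (mean_zmod)
open Pool.Agent.TH894.NE (mean)

section
variable {p : ℕ} [hf : Fact p.Prime] {d : ℕ}

/-- the number of the points of a hyperplane -/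
lemma hyper (a : Fin d → ZMod p) (c : ZMod p) (l₀ : Fin d) (h : a l₀ ≠ 0) (D : DecidablePred fun u : Fin d → ZMod p => c + ∑ l, u l * a l = 0) :
    p * (@Finset.filter (Fin d → ZMod p) (fun u => c + ∑ l, u l * a l = 0) D univ).card = p ^ d := by
  classical
  rw [card_filter, ← Pool.Agent.X22.HS.sum_update (fun u : Fin d → ZMod p => if c + ∑ l, u l * a l = 0 then 1 else 0) l₀]
  have h1 : ∀ m : Fin d → ZMod p, ∑ s : ZMod p, (if c + ∑ l, (Function.update m l₀ s) l * a l = 0 then 1 else 0) = 1 := by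
    intro m
    have h2 : ∀ s : ZMod p, ∑ l, (Function.update m l₀ s) l * a l = s * a l₀ + ∑ l ∈ univ.erase l₀, m l * a l := by
      intro s
      rw [← add_sum_erase univ _ (mem_univ l₀), Function.update_self]
      congr 1
      apply sum_congr rfl
      intro l hl
      rw [Function.update_of_ne (ne_of_mem_erase hl)]
    rw [sum_eq_single (-(c + ∑ l ∈ univ.erase l₀, m l * a l) / a l₀)]
    · rw [if_pos]
      rw [h2, div_mul_cancel₀ _ h]
      ring
    · intro s _ hs
      rw [if_neg]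
      rw [h2]
      intro h3
      apply hs
      rw [eq_div_iff h]
      linear_combination h3
    · intro h3
      exact absurd (mem_univ _) h3
  rw [sum_congr rfl (fun m _ => h1 m), sum_const, card_univ, Fintype.card_fun, ZMod.card, Fintype.card_fin, smul_eq_mul, mul_one]

/-- the number of the zeros -/
noncomputable def nz (f : (ZMod p)[X]) (g : Fin d → (ZMod p)[X]) (u : Fin d → ZMod p) : ℕ :=
  Nat.card {t : ZMod p // f.eval t + ∑ l, u l * (g l).eval t = 0}

open Classical in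
lemma sum_nz (f : (ZMod p)[X]) (g : Fin d → (ZMod p)[X]) (hgood : ∀ t, f.eval t = 0 → ∃ l, (g l).eval t ≠ 0) :
    p * ∑ u, nz f g u = p ^ d * (univ.filter (fun t : ZMod p => ∃ l, (g l).eval t ≠ 0)).card := by
  have h1 : ∀ u, nz f g u = ∑ t : ZMod p, if f.eval t + ∑ l, u l * (g l).eval t = 0 then 1 else 0 := by
    intro u
    unfold nz
    rw [Nat.card_eq_fintype_card, Fintype.card_subtype, card_filter]
  rw [sum_congr rfl (fun u _ => h1 u), sum_comm, mul_sum, card_filter, mul_sum]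
  apply sum_congr rfl
  intro t _
  by_cases ht : ∃ l, (g l).eval t ≠ 0
  · obtain ⟨l₀, hl₀⟩ := ht
    rw [if_pos ⟨l₀, hl₀⟩, mul_one, ← hyper (fun l => (g l).eval t) (f.eval t) l₀ hl₀ (fun u => inferInstance), card_filter]
  · rw [if_neg ht, mul_zero]
    push Not at ht
    rw [sum_eq_zero, mul_zero]
    intro u _
    rw [if_neg]
    intro h2
    rw [sum_eq_zero (fun l _ => by rw [ht l, mul_zero]), add_zero] at h2
    obtain ⟨l, hl⟩ := hgood t h2
    exact hl (ht l)

/-- the mean of the number of the zeros -/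
lemma mean_nz (n : ℕ) (f : (ZMod p)[X]) (g : Fin d → (ZMod p)[X]) (hgood : ∀ t, f.eval t = 0 → ∃ l, (g l).eval t ≠ 0) (l₀ : Fin d) (h0 : g l₀ ≠ 0)
    (hn : (g l₀).natDegree ≤ n) : |(∑ u, (nz f g u : ℝ)) / (p : ℝ) ^ d - 1| ≤ n / p := by
  classical
  have hp0 : (0 : ℝ) < p := by exact_mod_cast hf.out.pos
  obtain ⟨T, hT⟩ : ∃ T, T = univ.filter (fun t : ZMod p => ∃ l, (g l).eval t ≠ 0) := ⟨_, rfl⟩
  have h1 := sum_nz f g hgood
  rw [← hT] at h1
  have h2 : (p : ℝ) * ∑ u, (nz f g u : ℝ) = (p : ℝ) ^ d * T.card := by exact_mod_cast h1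
  have h3 : (∑ u, (nz f g u : ℝ)) / (p : ℝ) ^ d = T.card / p := by
    rw [div_eq_div_iff (pow_pos hp0 d).ne' hp0.ne']
    linarith
  have h4 : T.card ≤ p := by
    have := card_le_univ T
    rwa [ZMod.card] at this
  have h5 : p ≤ T.card + n := by
    have h6 : (univ : Finset (ZMod p)) ⊆ T ∪ (g l₀).roots.toFinset := by
      intro t _
      rw [mem_union, hT, mem_filter, Multiset.mem_toFinset, mem_roots h0, IsRoot.def]
      by_cases h7 : (g l₀).eval t = 0
      · right
        exact h7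
      · left
        exact ⟨mem_univ _, l₀, h7⟩
    have h7 := (card_le_card h6).trans (card_union_le _ _)
    rw [card_univ, ZMod.card] at h7
    have h8 := (Multiset.toFinset_card_le (g l₀).roots).trans (card_roots' (g l₀))
    omega
  have h4' : (T.card : ℝ) ≤ p := by exact_mod_cast h4
  have h5' : (p : ℝ) ≤ T.card + n := by exact_mod_cast h5
  rw [h3, div_sub_one hp0.ne', abs_div, abs_of_pos hp0]
  apply div_le_div_of_nonneg_right _ hp0.le
  rw [abs_le]
  constructor <;> linarith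

end

section
variable {F : Type} [Field F] [NumberField F] {d : ℕ}

/-- the number of the zeros modulo a prime ideal -/
noncomputable def rootCount (f : (𝓞 F)[X]) (g : Fin d → (𝓞 F)[X]) (m : Fin d → ℕ) (v : HeightOneSpectrum (𝓞 F)) : ℕ :=
  Nat.card {t : 𝓞 F ⧸ v.asIdeal // (f + ∑ l, (m l : (𝓞 F)[X]) * g l).eval₂ (Ideal.Quotient.mk v.asIdeal) t = 0}

/-- the good primes -/
def Good (f : (𝓞 F)[X]) (g : Fin d → (𝓞 F)[X]) (v : HeightOneSpectrum (𝓞 F)) : Prop :=
  (∀ t : 𝓞 F ⧸ v.asIdeal, f.eval₂ (Ideal.Quotient.mk v.asIdeal) t = 0 → ∃ l, (g l).eval₂ (Ideal.Quotient.mk v.asIdeal) t ≠ 0) ∧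
    ∃ l, (g l).map (Ideal.Quotient.mk v.asIdeal) ≠ 0

lemma monic_sum (f : (𝓞 F)[X]) (g : Fin d → (𝓞 F)[X]) (m : Fin d → ℕ) (hf : f.Monic) (hg : ∀ l, (g l).natDegree < f.natDegree) :
    (f + ∑ l, (m l : (𝓞 F)[X]) * g l).Monic ∧ (f + ∑ l, (m l : (𝓞 F)[X]) * g l).natDegree = f.natDegree := by
  rcases Nat.eq_zero_or_pos d with hd | hd
  · subst hd
    simp [hf]
  · have h1 : (∑ l, (m l : (𝓞 F)[X]) * g l).natDegree < f.natDegree := by
      have hpos : 0 < f.natDegree := lt_of_le_of_lt (Nat.zero_le _) (hg ⟨0, hd⟩)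
      have h2 : (∑ l, (m l : (𝓞 F)[X]) * g l).natDegree ≤ f.natDegree - 1 := by
        apply natDegree_sum_le_of_forall_le
        intro l _
        refine natDegree_mul_le.trans ?_
        rw [natDegree_natCast, zero_add]
        have := hg l
        omega
      omega
    have h2 : (∑ l, (m l : (𝓞 F)[X]) * g l).degree < f.degree := degree_lt_degree h1
    exact ⟨hf.add_of_left h2, natDegree_add_eq_left_of_degree_lt h2⟩

lemma rootCount_le (n : ℕ) (f : (𝓞 F)[X]) (g : Fin d → (𝓞 F)[X]) (m : Fin d → ℕ) (hf : f.Monic) (hn : f.natDegree ≤ n)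
    (hg : ∀ l, (g l).natDegree < f.natDegree) (v : HeightOneSpectrum (𝓞 F)) : rootCount f g m v ≤ n := by
  classical
  have hP := monic_sum f g m hf hg
  obtain ⟨P, hPd⟩ : ∃ P, P = f + ∑ l, (m l : (𝓞 F)[X]) * g l := ⟨_, rfl⟩
  have hprime := v.isPrime
  obtain ⟨Q, hQ⟩ : ∃ Q, Q = P.map (Ideal.Quotient.mk v.asIdeal) := ⟨_, rfl⟩
  rw [← hPd] at hP
  have hQm : Q.Monic := by
    rw [hQ]
    exact hP.1.map _
  have hQd : Q.natDegree ≤ n := by
    rw [hQ]
    exact natDegree_map_le.trans (hP.2.le.trans hn)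
  unfold rootCount
  rw [← hPd]
  have h1 : {t : 𝓞 F ⧸ v.asIdeal | P.eval₂ (Ideal.Quotient.mk v.asIdeal) t = 0} ⊆ (Q.roots.toFinset : Set (𝓞 F ⧸ v.asIdeal)) := by
    intro t ht
    rw [Finset.mem_coe, Multiset.mem_toFinset, mem_roots hQm.ne_zero, IsRoot.def, hQ, eval_map]
    exact ht
  have h2 := Set.ncard_le_ncard h1 (Finset.finite_toSet _)
  rw [Set.ncard_coe_finset] at h2
  refine le_trans (le_of_eq ?_) (h2.trans ((Multiset.toFinset_card_le _).trans ((card_roots' Q).trans hQd)))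
  rfl

section
variable (v : HeightOneSpectrum (𝓞 F)) (p : ℕ) (hp' : p.Prime) (h : Ideal.absNorm v.asIdeal = p)

/-- the reduction modulo a prime of degree one -/
noncomputable def ρ : 𝓞 F →+* ZMod p := ((resEquiv v p hp' h).symm : (𝓞 F ⧸ v.asIdeal) →+* ZMod p).comp (Ideal.Quotient.mk v.asIdeal)

lemma ρ_eval (P : (𝓞 F)[X]) (t : ZMod p) : (resEquiv v p hp' h) ((P.map (ρ v p hp' h)).eval t) = P.eval₂ (Ideal.Quotient.mk v.asIdeal) ((resEquiv v p hp' h) t) := by
  rw [eval_map]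
  have h1 := hom_eval₂ P (ρ v p hp' h) ((resEquiv v p hp' h) : ZMod p →+* (𝓞 F ⧸ v.asIdeal)) t
  have h2 : ((resEquiv v p hp' h) : ZMod p →+* (𝓞 F ⧸ v.asIdeal)).comp (ρ v p hp' h) = Ideal.Quotient.mk v.asIdeal := by
    ext a
    show (resEquiv v p hp' h) ((resEquiv v p hp' h).symm (Ideal.Quotient.mk v.asIdeal a)) = _
    rw [RingEquiv.apply_symm_apply]
  rw [h2] at h1
  exact h1

lemma rootCount_eq (f : (𝓞 F)[X]) (g : Fin d → (𝓞 F)[X]) (m : Fin d → ℕ) : haveI : Fact p.Prime := ⟨hp'⟩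
    rootCount f g m v = nz (f.map (ρ v p hp' h)) (fun l => (g l).map (ρ v p hp' h)) (fun l => (m l : ZMod p)) := by
  have hfp : Fact p.Prime := ⟨hp'⟩
  unfold rootCount nz
  symm
  refine Nat.card_congr ((resEquiv v p hp' h).toEquiv.subtypeEquiv ?_)
  intro t
  show _ ↔ (f + ∑ l, (m l : (𝓞 F)[X]) * g l).eval₂ (Ideal.Quotient.mk v.asIdeal) ((resEquiv v p hp' h) t) = 0
  rw [← ρ_eval, EmbeddingLike.map_eq_zero_iff, Polynomial.map_add, Polynomial.map_sum, eval_add, eval_finset_sum]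
  simp only [Polynomial.map_mul, Polynomial.map_natCast, eval_mul, eval_natCast]

lemma good_iff (f : (𝓞 F)[X]) (g : Fin d → (𝓞 F)[X]) (hG : Good f g v) :
    (∀ t, (f.map (ρ v p hp' h)).eval t = 0 → ∃ l, ((g l).map (ρ v p hp' h)).eval t ≠ 0) ∧ ∃ l, (g l).map (ρ v p hp' h) ≠ 0 := by
  constructor
  · intro t ht
    obtain ⟨l, hl⟩ := hG.1 (resEquiv v p hp' h t) (by rw [← ρ_eval, ht, map_zero])
    refine ⟨l, fun h0 => hl ?_⟩
    rw [← ρ_eval, h0, map_zero]
  · obtain ⟨l, hl⟩ := hG.2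
    refine ⟨l, fun h0 => hl ?_⟩
    have e : (g l).map (Ideal.Quotient.mk v.asIdeal) = ((g l).map (ρ v p hp' h)).map ((resEquiv v p hp' h) : ZMod p →+* (𝓞 F ⧸ v.asIdeal)) := by
      rw [Polynomial.map_map]
      congr 1
      ext a
      show _ = (resEquiv v p hp' h) ((resEquiv v p hp' h).symm (Ideal.Quotient.mk v.asIdeal a))
      rw [RingEquiv.apply_symm_apply]
    rw [e, h0, Polynomial.map_zero]

include hp' h in
lemma rootCount_mod (f : (𝓞 F)[X]) (g : Fin d → (𝓞 F)[X]) (m : Fin d → ℕ) : rootCount f g m v = rootCount f g (fun l => m l % p) v := by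
  rw [rootCount_eq v p hp' h, rootCount_eq v p hp' h]
  simp only [ZMod.natCast_mod]

include hp' h in
/-- the mean of the number of the zeros -/
lemma mean_root (n : ℕ) (f : (𝓞 F)[X]) (g : Fin d → (𝓞 F)[X]) (hg : ∀ l, (g l).natDegree ≤ n) (hG : Good f g v) :
    |mean d p (fun m => (rootCount f g m v : ℝ)) - 1| ≤ n / p := by
  have hfp : Fact p.Prime := ⟨hp'⟩
  obtain ⟨h1, l₀, hl₀⟩ := good_iff v p hp' h f g hG
  have h2 := mean_nz n (f.map (ρ v p hp' h)) (fun l => (g l).map (ρ v p hp' h)) h1 l₀ hl₀ (natDegree_map_le.trans (hg l₀))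
  have h3 := mean_zmod d p hp' (fun u => (nz (f.map (ρ v p hp' h)) (fun l => (g l).map (ρ v p hp' h)) u : ℝ))
  rw [← h3] at h2
  have e : (fun m : Fin d → ℕ => (rootCount f g m v : ℝ)) =
      fun m => (nz (f.map (ρ v p hp' h)) (fun l => (g l).map (ρ v p hp' h)) (fun l => (m l : ZMod p)) : ℝ) := by
    funext m
    rw [rootCount_eq v p hp' h]
  rw [e]
  exact h2

end

end

end Pool.Agent.X22.RC
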