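import Pool.Agent.X22.MO
import Mathlib.NumberTheory.JacobiSum.Basic

/-!
# Convolutions of arbitrary functions with the quadratic character: means over linear forms; the coefficients which come from characters of tori
-/

set_option autoImplicit false

namespace Pool.Agent.X22.RM

open Finset
open scoped ComplexConjugate
open Pool.Agent.X22.MO (avg)
open Pool.Agent.X22.ND (mean_zmod)
open Pool.Agent.TH894.NE (mean)

section
variable {p : ℕ} [hf : Fact p.Prime]

/-- the sum of `χ(x) χ(x + c)` -/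
theorem sum_shift (hp : p ≠ 2) {c : ZMod p} (hc : c ≠ 0) :
    ∑ x : ZMod p, quadraticChar (ZMod p) x * quadraticChar (ZMod p) (x + c) = -1 := by
  set χ := quadraticChar (ZMod p) with hχ
  have hchar : ringChar (ZMod p) ≠ 2 := by rwa [ZMod.ringChar_zmod_n]
  have hne : χ ≠ 1 := quadraticChar_ne_one hchar
  have hJ := jacobiSum_nontrivial_inv hne
  have hinv : χ⁻¹ = χ := (quadraticChar_isQuadratic (ZMod p)).inv
  rw [hinv, jacobiSum] at hJ
  have hsq : χ (-1) * χ (-1) = 1 := by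
    rw [← map_mul]; simp
  have hcc : χ c * χ c = 1 := by
    have := quadraticChar_sq_one hc
    rw [← hχ] at this
    rw [← sq]; exact this
  have h1 : ∑ x : ZMod p, χ x * χ (x + c) = ∑ y : ZMod p, χ (-c * y) * χ (-c * y + c) := by
    have hb : Function.Bijective (fun y : ZMod p => -c * y) := mulLeft_bijective₀ _ (neg_ne_zero.2 hc)
    exact (hb.sum_comp (fun x => χ x * χ (x + c))).symm
  rw [h1]
  have h2 : ∀ y : ZMod p, χ (-c * y) * χ (-c * y + c) = χ (-1) * (χ y * χ (1 - y)) := by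
    intro y
    have e1 : -c * y + c = c * (1 - y) := by ring
    have e2 : -c * y = (-1) * (c * y) := by ring
    rw [e1, e2, map_mul, map_mul, map_mul]
    calc χ (-1) * (χ c * χ y) * (χ c * χ (1 - y)) = χ (-1) * (χ c * χ c) * (χ y * χ (1 - y)) := by ring
      _ = _ := by rw [hcc, mul_one]
  rw [sum_congr rfl (fun y _ => h2 y), ← mul_sum, hJ]
  rw [mul_neg, hsq]

/-- the convolution -/
noncomputable def cv (c : ZMod p → ℂ) (t : ZMod p) : ℂ := ∑ y, c y * (quadraticChar (ZMod p) (y + t) : ℂ)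

lemma cv_sum (h2 : p ≠ 2) (c : ZMod p → ℂ) : ∑ t, cv c t = 0 := by
  have h3 : ringChar (ZMod p) ≠ 2 := by
    rw [ZMod.ringChar_zmod_n]
    exact h2
  unfold cv
  rw [sum_comm]
  apply sum_eq_zero
  intro y _
  rw [← mul_sum]
  have h4 : ∑ t : ZMod p, (quadraticChar (ZMod p) (y + t) : ℂ) = 0 := by
    have h5 : ∑ t : ZMod p, (quadraticChar (ZMod p) (y + t) : ℂ) = ∑ t : ZMod p, (quadraticChar (ZMod p) t : ℂ) :=
      Equiv.sum_comp (Equiv.addLeft y) (fun t => (quadraticChar (ZMod p) t : ℂ))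
    rw [h5]
    exact_mod_cast quadraticChar_sum_zero (F := ZMod p) h3
  rw [h4, mul_zero]

lemma pair (h2 : p ≠ 2) (y y' : ZMod p) : ∑ t : ZMod p, (quadraticChar (ZMod p) (y + t) : ℂ) * (quadraticChar (ZMod p) (y' + t) : ℂ) = (if y = y' then (p : ℂ) else 0) - 1 := by
  classical
  by_cases h : y = y'
  · subst h
    rw [if_pos rfl]
    have h5 : ∑ t : ZMod p, (quadraticChar (ZMod p) (y + t) : ℂ) * (quadraticChar (ZMod p) (y + t) : ℂ) =
        ∑ t : ZMod p, (quadraticChar (ZMod p) t : ℂ) * (quadraticChar (ZMod p) t : ℂ) :=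
      Equiv.sum_comp (Equiv.addLeft y) (fun t => (quadraticChar (ZMod p) t : ℂ) * (quadraticChar (ZMod p) t : ℂ))
    rw [h5, ← add_sum_erase univ _ (mem_univ (0 : ZMod p)), quadraticChar_zero]
    have h4 : ∀ u ∈ univ.erase (0 : ZMod p), (quadraticChar (ZMod p) u : ℂ) * (quadraticChar (ZMod p) u : ℂ) = 1 := by
      intro u hu
      have := quadraticChar_sq_one (F := ZMod p) (ne_of_mem_erase hu)
      rw [← sq]
      exact_mod_cast this
    rw [sum_congr rfl h4, sum_const, card_erase_of_mem (mem_univ _), card_univ, ZMod.card, nsmul_eq_mul, mul_one, Nat.cast_sub hf.out.one_lt.le]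
    simp
  · rw [if_neg h, zero_sub]
    have h5 : ∑ t : ZMod p, (quadraticChar (ZMod p) (y + t) : ℂ) * (quadraticChar (ZMod p) (y' + t) : ℂ) =
        ∑ t : ZMod p, (quadraticChar (ZMod p) t : ℂ) * (quadraticChar (ZMod p) (t + (y' - y)) : ℂ) := by
      rw [← Equiv.sum_comp (Equiv.addLeft y) (fun t => (quadraticChar (ZMod p) t : ℂ) * (quadraticChar (ZMod p) (t + (y' - y)) : ℂ))]
      apply sum_congr rfl
      intro t _
      rw [Equiv.coe_addLeft]
      congr 3
      ring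
    rw [h5]
    exact_mod_cast sum_shift h2 (sub_ne_zero.2 (Ne.symm h))

lemma cv_sq (h2 : p ≠ 2) (c : ZMod p → ℂ) (B : ℝ) (hc : ∀ y, ‖c y‖ ≤ B) : ∑ t, ‖cv c t‖ ^ 2 ≤ (p : ℝ) ^ 2 * B ^ 2 := by
  classical
  have e1 : ((∑ t, ‖cv c t‖ ^ 2 : ℝ) : ℂ) = (((p : ℝ) * ∑ y, ‖c y‖ ^ 2 - ‖∑ y, c y‖ ^ 2 : ℝ) : ℂ) := by
    push_cast
    have h3 : ∀ t : ZMod p, ((‖cv c t‖ : ℂ)) ^ 2 = ∑ y, ∑ y', c y * conj (c y') * ((quadraticChar (ZMod p) (y + t) : ℂ) * (quadraticChar (ZMod p) (y' + t) : ℂ)) := by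
      intro t
      rw [← Complex.mul_conj', cv, map_sum, sum_mul_sum]
      apply sum_congr rfl
      intro y _
      apply sum_congr rfl
      intro y' _
      rw [map_mul, map_intCast]
      ring
    rw [sum_congr rfl (fun t _ => h3 t), sum_comm]
    have h4 : ∀ y : ZMod p, ∑ t : ZMod p, ∑ y', c y * conj (c y') * ((quadraticChar (ZMod p) (y + t) : ℂ) * (quadraticChar (ZMod p) (y' + t) : ℂ)) =
        (p : ℂ) * (‖c y‖ : ℂ) ^ 2 - c y * conj (∑ y', c y') := by
      intro y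
      rw [sum_comm]
      have h5 : ∀ y' : ZMod p, ∑ t : ZMod p, c y * conj (c y') * ((quadraticChar (ZMod p) (y + t) : ℂ) * (quadraticChar (ZMod p) (y' + t) : ℂ)) =
          (if y = y' then (p : ℂ) * (c y * conj (c y)) else 0) - c y * conj (c y') := by
        intro y'
        rw [← mul_sum, pair h2]
        split_ifs with h
        · subst h
          ring
        · ring
      rw [sum_congr rfl (fun y' _ => h5 y'), sum_sub_distrib, sum_ite_eq, if_pos (mem_univ _), ← mul_sum, ← map_sum, Complex.mul_conj']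
    rw [sum_congr rfl (fun y _ => h4 y), sum_sub_distrib, ← mul_sum, ← sum_mul, Complex.mul_conj']
  have e2 : ∑ t, ‖cv c t‖ ^ 2 = (p : ℝ) * ∑ y, ‖c y‖ ^ 2 - ‖∑ y, c y‖ ^ 2 := by exact_mod_cast e1
  have hB : 0 ≤ B := (norm_nonneg _).trans (hc 0)
  have h6 : ∑ y : ZMod p, ‖c y‖ ^ 2 ≤ (p : ℝ) * B ^ 2 := by
    calc ∑ y : ZMod p, ‖c y‖ ^ 2 ≤ ∑ _y : ZMod p, B ^ 2 := sum_le_sum (fun y _ => pow_le_pow_left₀ (norm_nonneg _) (hc y) 2)
      _ = (p : ℝ) * B ^ 2 := by simp [ZMod.card]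
  have h7 : 0 ≤ ‖∑ y, c y‖ ^ 2 := by positivity
  have hp0 : (0 : ℝ) ≤ p := Nat.cast_nonneg p
  rw [e2]
  have h8 : (p : ℝ) * ∑ y : ZMod p, ‖c y‖ ^ 2 ≤ p * (p * B ^ 2) := mul_le_mul_of_nonneg_left h6 hp0
  have h9 : (p : ℝ) * (p * B ^ 2) = (p : ℝ) ^ 2 * B ^ 2 := by ring
  linarith

lemma cv_le (c : ZMod p → ℂ) (B : ℝ) (hc : ∀ y, ‖c y‖ ≤ B) (t : ZMod p) : ‖cv c t‖ ≤ p * B := by
  unfold cv
  refine (norm_sum_le _ _).trans ?_
  calc ∑ y : ZMod p, ‖c y * (quadraticChar (ZMod p) (y + t) : ℂ)‖ ≤ ∑ _y : ZMod p, B := by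
        apply sum_le_sum
        intro y _
        rw [norm_mul]
        have h1 : ‖(quadraticChar (ZMod p) (y + t) : ℂ)‖ ≤ 1 := by
          rcases quadraticChar_isQuadratic (ZMod p) (y + t) with h | h | h <;> rw [h] <;> simp
        have hB : 0 ≤ B := (norm_nonneg _).trans (hc 0)
        calc ‖c y‖ * ‖(quadraticChar (ZMod p) (y + t) : ℂ)‖ ≤ B * 1 := by
              have := hc y
              gcongr
          _ = B := mul_one B
    _ = p * B := by simp [ZMod.card]

/-- averages over linear forms -/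
lemma mean_form {d : ℕ} (a : Fin d → ℤ) (a0 : ℤ) (l₀ : Fin d) (hl : a l₀ = 1) (F : ZMod p → ℝ) :
    mean d p (fun m => F ((∑ l, (a l : ZMod p) * (m l : ZMod p)) + a0)) = (∑ t, F t) / p := by
  classical
  have hp0 : (0 : ℝ) < p := by exact_mod_cast hf.out.pos
  have h1 := mean_zmod d p hf.out (fun v => F ((∑ l, (a l : ZMod p) * v l) + a0))
  rw [h1]
  obtain ⟨L, hL⟩ : ∃ L : (Fin d → ZMod p) →+ ZMod p, ∀ v, L v = ∑ l, (a l : ZMod p) * v l := by
    refine ⟨⟨⟨fun v => ∑ l, (a l : ZMod p) * v l, ?_⟩, ?_⟩, fun v => rfl⟩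
    · simp
    · intro v v'
      simp only [Pi.add_apply, mul_add, sum_add_distrib]
  have hs : Function.Surjective L := by
    intro u
    refine ⟨Pi.single l₀ u, ?_⟩
    rw [hL, sum_eq_single l₀]
    · rw [Pi.single_eq_same, hl]
      simp
    · intro l _ hne
      rw [Pi.single_eq_of_ne hne, mul_zero]
    · intro h
      exact absurd (mem_univ _) h
  have h2 := avg L hs (a0 : ZMod p) F
  simp only [hL] at h2
  rw [ZMod.card, Fintype.card_fun, Fintype.card_fin, ZMod.card] at h2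
  push_cast at h2
  rw [div_eq_div_iff (by positivity) hp0.ne']
  linarith

/-- the coefficients which come from the characters of a torus: `∑ ψ (z)` over the `z ≠ 0` with `z ^ e = 1` and `z + 1 / z = y` -/
noncomputable def co (e : ℕ) (ψ : MulChar (GaloisField p 2) ℂ) (y : ZMod p) : ℂ :=
  ∑ᶠ z ∈ {z : GaloisField p 2 | z ≠ 0 ∧ z ^ e = 1 ∧ z + z⁻¹ = algebraMap (ZMod p) (GaloisField p 2) y}, ψ z

lemma psi_norm (ψ : MulChar (GaloisField p 2) ℂ) (z : GaloisField p 2) : ‖ψ z‖ ≤ 1 := by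
  classical
  have := Fintype.ofFinite (GaloisField p 2)
  by_cases hz : z = 0
  · rw [hz, MulChar.map_zero, norm_zero]
    exact zero_le_one
  · have h1 : ψ z ^ (Fintype.card (GaloisField p 2) - 1) = 1 := by
      rw [← map_pow, FiniteField.pow_card_sub_one_eq_one z hz, map_one]
    have h2 : Fintype.card (GaloisField p 2) - 1 ≠ 0 := by
      have := Fintype.one_lt_card (α := GaloisField p 2)
      omega
    exact (Complex.norm_eq_one_of_pow_eq_one h1 h2).le

lemma co_le (e : ℕ) (ψ : MulChar (GaloisField p 2) ℂ) (y : ZMod p) : ‖co e ψ y‖ ≤ 2 := by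
  classical
  obtain ⟨Q, hQ⟩ : ∃ Q : Polynomial (GaloisField p 2), Q = Polynomial.X ^ 2 - Polynomial.C (algebraMap (ZMod p) (GaloisField p 2) y) * Polynomial.X + 1 := ⟨_, rfl⟩
  have hQd : Q.natDegree = 2 := by
    rw [hQ]
    compute_degree!
  have hQ0 : Q ≠ 0 := by
    intro h
    rw [h, Polynomial.natDegree_zero] at hQd
    omega
  obtain ⟨S, hS⟩ : ∃ S : Set (GaloisField p 2), S = {z : GaloisField p 2 | z ≠ 0 ∧ z ^ e = 1 ∧ z + z⁻¹ = algebraMap (ZMod p) (GaloisField p 2) y} := ⟨_, rfl⟩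
  have hfin : S.Finite := Set.toFinite S
  have hsub : hfin.toFinset ⊆ Q.roots.toFinset := by
    intro z hz
    rw [Set.Finite.mem_toFinset, hS] at hz
    obtain ⟨hz0, _, hz2⟩ := hz
    rw [Multiset.mem_toFinset, Polynomial.mem_roots hQ0, Polynomial.IsRoot, hQ]
    simp only [Polynomial.eval_add, Polynomial.eval_sub, Polynomial.eval_mul, Polynomial.eval_pow, Polynomial.eval_X, Polynomial.eval_C, Polynomial.eval_one]
    rw [← hz2]
    field_simp
    ring
  have hcard : hfin.toFinset.card ≤ 2 := by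
    refine (card_le_card hsub).trans ((Multiset.toFinset_card_le _).trans ((Polynomial.card_roots' Q).trans ?_))
    omega
  unfold co
  rw [← hS, finsum_mem_eq_finite_toFinset_sum _ hfin]
  refine (norm_sum_le _ _).trans ?_
  calc ∑ z ∈ hfin.toFinset, ‖ψ z‖ ≤ ∑ _z ∈ hfin.toFinset, (1 : ℝ) := sum_le_sum (fun z _ => psi_norm ψ z)
    _ = hfin.toFinset.card := by simp
    _ ≤ 2 := by exact_mod_cast hcard

end

end Pool.Agent.X22.RM
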