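import Pool.Agent.X22.MO2

/-!
# The moments of sums of independent bounded random variables with small variance
-/

set_option autoImplicit false

namespace Pool.Agent.X22.SE

open Finset
open Pool.Agent.X22.MO (pow_diff df df_pos mu mu_even mu_odd)

section
variable {Ω : Type} [Fintype Ω] [Nonempty Ω]

/-- the moments of one variable -/
noncomputable def ee (ξ : Ω → ℝ) (i : ℕ) : ℝ := (∑ u, ξ u ^ i) / Fintype.card Ω

/-- the moments of the sum of `N` independent variables -/
noncomputable def AA (ξ : Ω → ℝ) (N k : ℕ) : ℝ := (∑ ω : Fin N → Ω, (∑ i, ξ (ω i)) ^ k) / (Fintype.card Ω : ℝ) ^ N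

omit [Nonempty Ω] in
lemma AA_zero (ξ : Ω → ℝ) (k : ℕ) : AA ξ 0 k = if k = 0 then 1 else 0 := by
  unfold AA
  rw [Fintype.sum_unique]
  simp only [univ_eq_empty, sum_empty, pow_zero, div_one]
  by_cases hk : k = 0
  · simp [hk]
  · simp [hk]

lemma card_ne : (Fintype.card Ω : ℝ) ≠ 0 := by
  exact_mod_cast Fintype.card_ne_zero

lemma AA_0 (ξ : Ω → ℝ) (N : ℕ) : AA ξ N 0 = 1 := by
  unfold AA
  simp only [pow_zero, sum_const, card_univ, Fintype.card_fun, Fintype.card_fin, nsmul_eq_mul, mul_one]
  push_cast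
  exact div_self (pow_ne_zero _ card_ne)

lemma ee_0 (ξ : Ω → ℝ) : ee ξ 0 = 1 := by
  unfold ee
  simp only [pow_zero, sum_const, card_univ, nsmul_eq_mul, mul_one]
  exact div_self card_ne

omit [Nonempty Ω] in
lemma AA_succ (ξ : Ω → ℝ) (N k : ℕ) : AA ξ (N + 1) k = ∑ i ∈ range (k + 1), (k.choose i : ℝ) * ee ξ i * AA ξ N (k - i) := by
  have h0 : ∑ ω : Fin (N + 1) → Ω, (∑ i, ξ (ω i)) ^ k = ∑ i ∈ range (k + 1), (k.choose i : ℝ) * (∑ u, ξ u ^ i) * ∑ ω : Fin N → Ω, (∑ i, ξ (ω i)) ^ (k - i) := by
    rw [← Equiv.sum_comp (Fin.consEquiv (fun _ : Fin (N + 1) => Ω)), Fintype.sum_prod_type]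
    have h1 : ∀ (u : Ω) (ω : Fin N → Ω), (∑ i, ξ ((Fin.consEquiv (fun _ : Fin (N + 1) => Ω)) (u, ω) i)) ^ k =
        ∑ i ∈ range (k + 1), (k.choose i : ℝ) * (ξ u ^ i * (∑ i, ξ (ω i)) ^ (k - i)) := by
      intro u ω
      have e1 : (∑ i, ξ ((Fin.consEquiv (fun _ : Fin (N + 1) => Ω)) (u, ω) i)) ^ k = ∑ i ∈ range (k + 1), ξ u ^ i * (∑ i, ξ (ω i)) ^ (k - i) * (k.choose i : ℝ) := by
        rw [← add_pow, Fin.sum_univ_succ]
        rfl
      rw [e1]
      apply sum_congr rfl
      intro i _
      ring
    rw [sum_congr rfl (fun u _ => sum_congr rfl (fun ω _ => h1 u ω))]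
    simp only [sum_comm (s := (univ : Finset (Fin N → Ω)))]
    rw [sum_comm]
    apply sum_congr rfl
    intro z _
    rw [mul_assoc, sum_mul_sum, mul_sum]
    apply sum_congr rfl
    intro u _
    rw [mul_sum]
  unfold AA
  rw [h0, sum_div]
  apply sum_congr rfl
  intro z _
  unfold ee
  rw [pow_succ]
  by_cases hc : (Fintype.card Ω : ℝ) = 0
  · rw [hc]
    simp
  · field_simp

end

/-- the main term -/
noncomputable def mt (k : ℕ) (y : ℝ) : ℝ := if Even k then df (k / 2) * y ^ (k / 2) else 0

lemma choose_df (j : ℕ) : ((2 * (j + 1)).choose 2 : ℝ) * df j = (j + 1) * df (j + 1) := by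
  have e : ((2 * (j + 1)).choose 2 : ℝ) = (j + 1) * (2 * j + 1) := by
    rw [Nat.cast_choose_two]
    push_cast
    ring
  rw [e, df]
  ring

set_option maxHeartbeats 4000000 in
/-- the asymptotic formula -/
lemma AA_asymp (k : ℕ) : ∃ C : ℝ, 0 ≤ C ∧ ∀ (Ω : Type) [Fintype Ω] [Nonempty Ω] (ξ : Ω → ℝ) (θ q s η : ℝ),
    ee ξ 1 = 0 → ee ξ 2 = θ * q → (∀ i, 3 ≤ i → |ee ξ i| ≤ q) → 0 ≤ θ → θ ≤ 1 → 0 < q → q ≤ 1 → 1 ≤ s → 1 / s ≤ η → 1 - θ ≤ η → η ≤ 2 →
    ∀ a, a ≤ k → ∀ N : ℕ, (N : ℝ) * q ≤ s ^ 2 → |AA ξ N a - mt a (N * q)| ≤ C * (s ^ a * η) := by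
  induction k with
  | zero =>
    refine ⟨0, le_rfl, ?_⟩
    intro Ω _ _ ξ θ q s η _ _ _ _ _ _ _ _ _ _ _ a ha N _
    obtain rfl : a = 0 := by omega
    rw [AA_0]
    simp [mt, df]
  | succ k ih =>
    obtain ⟨C, hC, h⟩ := ih
    choose cc hcc hpd using pow_diff
    obtain ⟨c, hc⟩ : ∃ c, c = ∑ j ∈ range (k + 2), cc j := ⟨_, rfl⟩
    have hc0 : 0 ≤ c := by
      rw [hc]
      exact sum_nonneg (fun j _ => hcc j)
    have hcj : ∀ j ≤ k + 1, cc j ≤ c := by
      intro j hj
      rw [hc]
      exact single_le_sum (fun j _ => hcc j) (mem_range.2 (by omega))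
    obtain ⟨M, hM⟩ : ∃ M : ℝ, M = ∑ j ∈ range (k + 2), df j := ⟨_, rfl⟩
    have hMj : ∀ j ≤ k + 1, df j ≤ M := by
      intro j hj
      rw [hM]
      exact single_le_sum (fun j _ => (df_pos j).le) (mem_range.2 (by omega))
    have hM0 : 0 ≤ M := (df_pos 0).le.trans (hMj 0 (by omega))
    obtain ⟨B, hB⟩ : ∃ B : ℝ, B = M + 2 * C := ⟨_, rfl⟩
    have hB0 : 0 ≤ B := by
      rw [hB]
      positivity
    obtain ⟨C', hC'⟩ : ∃ C' : ℝ, C' = ((k + 1).choose 2 : ℝ) * C + ((k : ℝ) + 1) * M + M * c + 2 ^ (k + 1) * B := ⟨_, rfl⟩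
    have hC'0 : 0 ≤ C' := by
      rw [hC']
      positivity
    refine ⟨C + C', by positivity, ?_⟩
    intro Ω _ _ ξ θ q s η e1 e2 e3 hθ0 hθ1 hq0 hq1 hs hη1 hη2 hη3 a ha N hN
    have hs0 : 0 < s := by linarith
    have hη0 : 0 < η := lt_of_lt_of_le (by positivity) hη1
    have hk := h Ω ξ θ q s η e1 e2 e3 hθ0 hθ1 hq0 hq1 hs hη1 hη2 hη3
    rcases Nat.lt_or_ge k a with hlt | hge
    swap
    · refine (hk a hge N hN).trans ?_
      apply mul_le_mul_of_nonneg_right _ (by positivity)
      linarith
    obtain rfl : a = k + 1 := by omega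
    -- the sizes
    have hsize : ∀ a' : ℕ, a' ≤ k → ∀ N : ℕ, (N : ℝ) * q ≤ s ^ 2 → |AA ξ N a'| ≤ B * s ^ a' := by
      intro a' ha' N hN
      have h1 := hk a' ha' N hN
      have h2 : |mt a' (N * q)| ≤ M * s ^ a' := by
        unfold mt
        split_ifs with he
        · obtain ⟨j, rfl⟩ := he
          have e5 : (j + j) / 2 = j := by omega
          rw [e5, abs_of_nonneg (by
            have := df_pos j
            positivity)]
          have h3 := hMj j (by omega)
          have h4 : ((N : ℝ) * q) ^ j ≤ s ^ (j + j) := by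
            rw [← two_mul, pow_mul]
            exact pow_le_pow_left₀ (by positivity) hN _
          have := df_pos j
          gcongr
        · rw [abs_zero]
          positivity
      have h3 : C * (s ^ a' * η) ≤ C * (s ^ a' * 2) := by gcongr
      have h4 := abs_sub_abs_le_abs_sub (AA ξ N a') (mt a' (N * q))
      rw [hB]
      nlinarith
    obtain ⟨Δ, hΔ⟩ : ∃ Δ : ℕ → ℝ, ∀ N, Δ N = AA ξ N (k + 1) - mt (k + 1) (N * q) := ⟨_, fun _ => rfl⟩
    obtain ⟨Y, hY⟩ : ∃ Y : ℝ, Y = s ^ (k + 1) / s ^ 2 * η := ⟨_, rfl⟩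
    have hY0 : 0 ≤ Y := by
      rw [hY]
      positivity
    have hinc : ∀ N : ℕ, ((N : ℝ) + 1) * q ≤ s ^ 2 → |Δ (N + 1) - Δ N| ≤ C' * (q * Y) := by
      intro N hN
      have hNn : (0 : ℝ) ≤ N := Nat.cast_nonneg N
      have hN' : (N : ℝ) * q ≤ s ^ 2 := by nlinarith
      obtain ⟨T, hT⟩ : ∃ T : ℕ → ℝ, ∀ z, T z = ((k + 1).choose z : ℝ) * ee ξ z * AA ξ N (k + 1 - z) := ⟨_, fun _ => rfl⟩
      -- the expansion
      have hexp : AA ξ (N + 1) (k + 1) = AA ξ N (k + 1) + (if 1 ≤ k then ((k + 1).choose 2 : ℝ) * (θ * q) * AA ξ N (k - 1) else 0) + ∑ z ∈ range (k + 2), (if z < 3 then 0 else T z) := by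
        rw [AA_succ]
        have e5 : ∀ z ∈ range (k + 1 + 1), ((k + 1).choose z : ℝ) * ee ξ z * AA ξ N (k + 1 - z) =
            ((if z = 0 then T 0 else 0) + ((if z = 1 then T 1 else 0) + (if z = 2 then T 2 else 0))) + (if z < 3 then 0 else T z) := by
          intro z _
          rw [← hT]
          rcases Nat.lt_or_ge z 3 with h3 | h3
          · interval_cases z <;> simp
          · have h30 : ¬ z = 0 := by omega
            have h31 : ¬ z = 1 := by omega
            have h32 : ¬ z = 2 := by omega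
            have h33 : ¬ z < 3 := by omega
            simp only [h30, h31, h32, h33, if_false, zero_add, add_zero]
        rw [sum_congr rfl e5, sum_add_distrib, sum_add_distrib, sum_add_distrib, sum_ite_eq', sum_ite_eq', sum_ite_eq']
        have h0 : (0 : ℕ) ∈ range (k + 1 + 1) := by simp
        have h1 : (1 : ℕ) ∈ range (k + 1 + 1) := by simp
        rw [if_pos h0, if_pos h1]
        have t0 : T 0 = AA ξ N (k + 1) := by
          rw [hT, ee_0, Nat.choose_zero_right, Nat.sub_zero]
          push_cast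
          ring
        have t1 : T 1 = 0 := by
          rw [hT, e1]
          ring
        rw [t0, t1]
        by_cases hk1 : 1 ≤ k
        · have h2 : (2 : ℕ) ∈ range (k + 1 + 1) := by
            rw [mem_range]
            omega
          have t2 : T 2 = ((k + 1).choose 2 : ℝ) * (θ * q) * AA ξ N (k - 1) := by
            rw [hT, e2]
            congr 2
          rw [if_pos h2, if_pos hk1, t2]
          ring
        · have h2 : (2 : ℕ) ∉ range (k + 1 + 1) := by
            rw [mem_range]
            omega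
          rw [if_neg h2, if_neg hk1]
          ring
      have htail : |∑ z ∈ range (k + 2), (if z < 3 then 0 else T z)| ≤ 2 ^ (k + 1) * B * (q * Y) := by
        refine (abs_sum_le_sum_abs _ _).trans ?_
        have h1 : ∀ z ∈ range (k + 2), |(if z < 3 then 0 else T z)| ≤ ((k + 1).choose z : ℝ) * (B * (q * Y)) := by
          intro z hz
          rw [mem_range] at hz
          split_ifs with h3
          · rw [abs_zero]
            positivity
          · have h3' : 3 ≤ z := not_lt.1 h3
            rw [hT, abs_mul, abs_mul, Nat.abs_cast]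
            have h4 := e3 z h3'
            have h5 := hsize (k + 1 - z) (by omega) N hN'
            have h6 : s ^ (k + 1 - z) ≤ Y := by
              have h7 : s ^ (k + 1 - z) * s ^ 3 ≤ s ^ (k + 1) := by
                rw [← pow_add]
                exact pow_le_pow_right₀ hs (by omega)
              have h8 : s ^ (k + 1 - z) ≤ s ^ (k + 1) / s ^ 2 * (1 / s) := by
                rw [div_mul_div_comm, mul_one, le_div_iff₀ (by positivity)]
                calc s ^ (k + 1 - z) * (s ^ 2 * s) = s ^ (k + 1 - z) * s ^ 3 := by ring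
                  _ ≤ _ := h7
              refine h8.trans ?_
              rw [hY]
              gcongr
            calc ((k + 1).choose z : ℝ) * |ee ξ z| * |AA ξ N (k + 1 - z)| ≤ ((k + 1).choose z : ℝ) * q * (B * Y) := by
                  have h9 : |AA ξ N (k + 1 - z)| ≤ B * Y := h5.trans (mul_le_mul_of_nonneg_left h6 hB0)
                  gcongr
              _ = _ := by ring
        refine (sum_le_sum h1).trans ?_
        rw [← sum_mul]
        have h10 : ∑ x ∈ range (k + 2), ((k + 1).choose x : ℝ) = 2 ^ (k + 1) := by exact_mod_cast Nat.sum_range_choose (k + 1)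
        rw [h10, mul_assoc]
      have hmain : |(if 1 ≤ k then ((k + 1).choose 2 : ℝ) * (θ * q) * AA ξ N (k - 1) else 0) - (mt (k + 1) (((N + 1 : ℕ) : ℝ) * q) - mt (k + 1) (N * q))| ≤
          (((k + 1).choose 2 : ℝ) * C + ((k : ℝ) + 1) * M + M * c) * (q * Y) := by
        by_cases hk1 : 1 ≤ k
        · rw [if_pos hk1]
          obtain ⟨R, hR⟩ : ∃ R : ℝ, R = AA ξ N (k - 1) - mt (k - 1) (N * q) := ⟨_, rfl⟩
          have hRb : |R| ≤ C * Y := by
            rw [hR]
            refine (hk (k - 1) (by omega) N hN').trans (le_of_eq ?_)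
            rw [hY]
            congr 2
            rw [eq_div_iff (by positivity), ← pow_add]
            congr 1
            omega
          have hAA : AA ξ N (k - 1) = R + mt (k - 1) (N * q) := by
            rw [hR]
            ring
          rw [hAA]
          have hfirst : |((k + 1).choose 2 : ℝ) * (θ * q) * R| ≤ ((k + 1).choose 2 : ℝ) * C * (q * Y) := by
            rw [abs_mul, abs_mul, Nat.abs_cast, abs_of_nonneg (by positivity : 0 ≤ θ * q)]
            calc ((k + 1).choose 2 : ℝ) * (θ * q) * |R| ≤ ((k + 1).choose 2 : ℝ) * (1 * q) * (C * Y) := by gcongr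
              _ = _ := by ring
          by_cases he : Even (k + 1)
          · obtain ⟨i, hi⟩ := he
            obtain ⟨j, rfl⟩ : ∃ j, i = j + 1 := ⟨i - 1, by omega⟩
            have hkj : k = 2 * j + 1 := by omega
            subst hkj
            have e5 : mt (2 * j + 1 + 1) = fun y => df (j + 1) * y ^ (j + 1) := by
              funext y
              unfold mt
              rw [if_pos ⟨j + 1, by ring⟩]
              have : (2 * j + 1 + 1) / 2 = j + 1 := by omega
              rw [this]
            have e6 : mt (2 * j + 1 - 1) = fun y => df j * y ^ j := by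
              funext y
              unfold mt
              have h0 : 2 * j + 1 - 1 = 2 * j := by omega
              rw [h0, if_pos ⟨j, by ring⟩]
              have : (2 * j) / 2 = j := by omega
              rw [this]
            rw [e5, e6]
            simp only
            obtain ⟨W, hW⟩ : ∃ W : ℝ, W = ((N : ℝ) + 1) ^ (j + 1) - (N : ℝ) ^ (j + 1) - (j + 1) * (N : ℝ) ^ j := ⟨_, rfl⟩
            have hs2 : (1 : ℝ) ≤ s ^ 2 := one_le_pow₀ hs
            have hP1 : 1 ≤ s ^ 2 / q := by
              rw [le_div_iff₀ hq0]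
              linarith
            have hYj : Y = (s ^ 2) ^ j * η := by
              rw [hY]
              congr 1
              rw [div_eq_iff (by positivity)]
              ring
            have hWb : q ^ (j + 1) * |W| ≤ c * (q * Y) := by
              have h1 := hpd j (s ^ 2 / q) N hP1 hNn (by
                rw [le_div_iff₀ hq0]
                exact hN')
              rw [← hW] at h1
              have h2 := hcj j (by omega)
              have h3 : (s ^ 2 / q) ^ j / (s ^ 2 / q) * q ^ (j + 1) ≤ q * Y := by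
                rw [hYj, div_pow]
                have h4 : (s ^ 2) ^ j / q ^ j / (s ^ 2 / q) * q ^ (j + 1) = (s ^ 2) ^ j * (q * (q / s ^ 2)) := by
                  rw [pow_succ q j]
                  field_simp
                rw [h4]
                have h5 : q / s ^ 2 ≤ η := by
                  refine le_trans ?_ hη1
                  rw [div_le_div_iff₀ (by positivity) hs0]
                  nlinarith
                calc (s ^ 2) ^ j * (q * (q / s ^ 2)) ≤ (s ^ 2) ^ j * (q * η) := by gcongr
                  _ = _ := by ring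
              calc q ^ (j + 1) * |W| ≤ q ^ (j + 1) * (cc j * ((s ^ 2 / q) ^ j / (s ^ 2 / q))) := by gcongr
                _ = cc j * ((s ^ 2 / q) ^ j / (s ^ 2 / q) * q ^ (j + 1)) := by ring
                _ ≤ c * (q * Y) := by
                    have := hcc j
                    gcongr
            have e7 : (((2 * j + 1 + 1).choose 2 : ℕ) : ℝ) * (θ * q) * (R + df j * ((N : ℝ) * q) ^ j) - (df (j + 1) * (((N + 1 : ℕ) : ℝ) * q) ^ (j + 1) - df (j + 1) * ((N : ℝ) * q) ^ (j + 1)) =
                (((2 * j + 1 + 1).choose 2 : ℕ) : ℝ) * (θ * q) * R - (1 - θ) * (q * ((j + 1) * df (j + 1) * ((N : ℝ) * q) ^ j)) - df (j + 1) * (q ^ (j + 1) * W) := by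
              have e8 := choose_df j
              have e9 : 2 * (j + 1) = 2 * j + 1 + 1 := by ring
              rw [e9] at e8
              rw [hW]
              push_cast
              rw [mul_pow, mul_pow]
              linear_combination (θ * q * ((N : ℝ) ^ j * q ^ j)) * e8
            rw [e7]
            have h7 : |(1 - θ) * (q * ((j + 1) * df (j + 1) * ((N : ℝ) * q) ^ j))| ≤ (((2 * j + 1 : ℕ) : ℝ) + 1) * M * (q * Y) := by
              have hd := df_pos (j + 1)
              have hθ' : 0 ≤ 1 - θ := by linarith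
              rw [abs_of_nonneg (by positivity)]
              have h8 : (j : ℝ) + 1 ≤ ((2 * j + 1 : ℕ) : ℝ) + 1 := by
                push_cast
                have : (0 : ℝ) ≤ j := Nat.cast_nonneg j
                linarith
              have h9 := hMj (j + 1) (by omega)
              have h10 : ((N : ℝ) * q) ^ j ≤ (s ^ 2) ^ j := pow_le_pow_left₀ (by positivity) hN' j
              calc (1 - θ) * (q * (((j : ℝ) + 1) * df (j + 1) * ((N : ℝ) * q) ^ j)) ≤ η * (q * ((((2 * j + 1 : ℕ) : ℝ) + 1) * M * (s ^ 2) ^ j)) := by gcongr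
                _ = _ := by
                    rw [hYj]
                    ring
            have h12 : |df (j + 1) * (q ^ (j + 1) * W)| ≤ M * c * (q * Y) := by
              have hd := df_pos (j + 1)
              have h9 := hMj (j + 1) (by omega)
              rw [abs_mul, abs_mul, abs_of_pos hd, abs_of_pos (pow_pos hq0 _)]
              calc df (j + 1) * (q ^ (j + 1) * |W|) ≤ M * (c * (q * Y)) := by gcongr
                _ = _ := by ring
            refine (abs_sub _ _).trans ((add_le_add ((abs_sub _ _).trans (add_le_add hfirst h7)) h12).trans (le_of_eq ?_))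
            ring
          · have e5 : ∀ y, mt (k + 1) y = 0 := by
              intro y
              unfold mt
              rw [if_neg he]
            have e6 : ∀ y, mt (k - 1) y = 0 := by
              intro y
              unfold mt
              rw [if_neg]
              intro h'
              apply he
              obtain ⟨i, hi⟩ := h'
              exact ⟨i + 1, by omega⟩
            rw [e5, e5, e6, add_zero, sub_zero, sub_zero]
            refine hfirst.trans ?_
            have h13 : 0 ≤ (((k : ℝ) + 1) * M + M * c) * (q * Y) := by positivity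
            linarith
        · have hk0 : k = 0 := by omega
          rw [if_neg hk1]
          have e5 : ∀ y, mt (k + 1) y = 0 := by
            intro y
            unfold mt
            rw [hk0, if_neg (by decide)]
          rw [e5, e5, sub_zero, sub_zero, abs_zero]
          positivity
      have e7 : Δ (N + 1) - Δ N = ((if 1 ≤ k then ((k + 1).choose 2 : ℝ) * (θ * q) * AA ξ N (k - 1) else 0) - (mt (k + 1) (((N + 1 : ℕ) : ℝ) * q) - mt (k + 1) (N * q))) +
          ∑ z ∈ range (k + 2), (if z < 3 then 0 else T z) := by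
        rw [hΔ, hΔ, hexp]
        ring
      rw [e7]
      refine (abs_add_le _ _).trans ((add_le_add hmain htail).trans (le_of_eq ?_))
      rw [hC']
      ring
    have hfin : ∀ N : ℕ, (N : ℝ) * q ≤ s ^ 2 → |Δ N| ≤ N * (C' * (q * Y)) := by
      intro N
      induction N with
      | zero =>
        intro _
        rw [hΔ, AA_zero, if_neg (by omega)]
        have : mt (k + 1) (((0 : ℕ) : ℝ) * q) = 0 := by
          unfold mt
          split_ifs with he
          · obtain ⟨i, hi⟩ := he
            rw [Nat.cast_zero, zero_mul, zero_pow (by omega), mul_zero]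
          · rfl
        rw [this]
        simp
      | succ N ihN =>
        intro hN
        push_cast at hN
        have hNn : (0 : ℝ) ≤ N := Nat.cast_nonneg N
        have h5 := ihN (by nlinarith)
        have h6 := hinc N hN
        have h7 : |Δ (N + 1)| ≤ |Δ N| + |Δ (N + 1) - Δ N| := by
          have := abs_add_le (Δ N) (Δ (N + 1) - Δ N)
          rwa [add_sub_cancel] at this
        push_cast
        linarith
    have h8 := hfin N hN
    rw [hΔ] at h8
    calc |AA ξ N (k + 1) - mt (k + 1) (N * q)| ≤ N * (C' * (q * Y)) := h8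
      _ = (N * q) * (C' * Y) := by ring
      _ ≤ s ^ 2 * (C' * Y) := by gcongr
      _ = C' * (s ^ (k + 1) * η) := by
          rw [hY]
          field_simp
      _ ≤ (C + C') * (s ^ (k + 1) * η) := by
          apply mul_le_mul_of_nonneg_right _ (by positivity)
          linarith

/-- the normalised moments -/
lemma AA_norm (k : ℕ) : ∃ C : ℝ, 0 ≤ C ∧ ∀ (Ω : Type) [Fintype Ω] [Nonempty Ω] (ξ : Ω → ℝ) (θ q η : ℝ),
    ee ξ 1 = 0 → ee ξ 2 = θ * q → (∀ i, 3 ≤ i → |ee ξ i| ≤ q) → 0 ≤ θ → θ ≤ 1 → 0 < q → q ≤ 1 → 1 - θ ≤ η → η ≤ 2 →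
    ∀ N : ℕ, 1 ≤ (N : ℝ) * q → 1 / √((N : ℝ) * q) ≤ η → |AA ξ N k / √((N : ℝ) * q) ^ k - mu k| ≤ C * η := by
  obtain ⟨C, hC, h⟩ := AA_asymp k
  refine ⟨C, hC, ?_⟩
  intro Ω _ _ ξ θ q η e1 e2 e3 hθ0 hθ1 hq0 hq1 hη2 hη3 N hN hη1
  have hN0 : 0 < (N : ℝ) * q := by linarith
  have hs0 : 0 < √((N : ℝ) * q) := Real.sqrt_pos.2 hN0
  have hs2 : √((N : ℝ) * q) ^ 2 = N * q := Real.sq_sqrt hN0.le
  have h1 := h Ω ξ θ q (√((N : ℝ) * q)) η e1 e2 e3 hθ0 hθ1 hq0 hq1 (Real.one_le_sqrt.2 hN) hη1 hη2 hη3 k le_rfl N (by rw [hs2])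
  have h2 : mt k (N * q) = mu k * √((N : ℝ) * q) ^ k := by
    rcases Nat.even_or_odd k with he | ho
    · obtain ⟨j, hj⟩ := he
      obtain rfl : k = 2 * j := by omega
      unfold mt
      rw [if_pos ⟨j, by ring⟩, mu_even, pow_mul, hs2]
      have : 2 * j / 2 = j := by omega
      rw [this]
    · obtain ⟨j, rfl⟩ := ho
      unfold mt
      rw [if_neg (by rw [Nat.not_even_iff_odd]; exact ⟨j, rfl⟩), mu_odd, zero_mul]
  rw [h2] at h1
  have h3 : AA ξ N k / √((N : ℝ) * q) ^ k - mu k = (AA ξ N k - mu k * √((N : ℝ) * q) ^ k) / √((N : ℝ) * q) ^ k := by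
    field_simp
  rw [h3, abs_div, abs_of_pos (pow_pos hs0 k), div_le_iff₀ (pow_pos hs0 k)]
  refine h1.trans (le_of_eq ?_)
  ring

end Pool.Agent.X22.SE
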