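import Pool.Agent.X22.SE1
import Pool.Agent.X22.DP4

/-!
# Sections of sets of projective points by random forms
-/

set_option autoImplicit false

namespace Pool.Agent.X22.SE

open Finset
open Pool.Agent.X22.MO (avg mu blocks prod_close)
open Pool.Agent.X22.DP (ev ev_scale ev_surj Pt cone_set points_eq rep_sep)
open Pool.Agent.X22.ND (mean_zmod)
open Pool.Agent.TH894.NE (mean)

section
variable {p : ℕ} [hf : Fact p.Prime]

/-- comparison with independent random variables -/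
lemma compare_gen {n D d : ℕ} (E : Fin d ≃ {μ : Fin (n + 1) → ℕ // ∑ i, μ i = D}) (φ : ZMod p → ℝ) {T : Type} [Fintype T] [DecidableEq T] (ρ : T → Fin (n + 1) → ZMod p) (hρ : ∀ t, ρ t ≠ 0)
    (hne : ∀ t t', t ≠ t' → ∃ a b, ρ t a * ρ t' b ≠ ρ t b * ρ t' a) {k : ℕ} (hk : k ≤ D + 1) :
    (p : ℝ) ^ Fintype.card T * ∑ v : Fin d → ZMod p, (∑ t, φ (ev E v (ρ t))) ^ k =
      (p : ℝ) ^ d * ∑ ω : T → ZMod p, (∑ t, φ (ω t)) ^ k := by
  have e1 : ∀ v : Fin d → ZMod p, (∑ t, φ (ev E v (ρ t))) ^ k = ∑ x : Fin k → T, ∏ i, φ (ev E v (ρ (x i))) :=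
    fun v => Fintype.sum_pow _ _
  rw [sum_congr rfl (fun v _ => e1 v), sum_comm]
  have e2 : ∀ ω : T → ZMod p, (∑ t, φ (ω t)) ^ k = ∑ x : Fin k → T, ∏ i, φ (ω (x i)) :=
    fun ω => Fintype.sum_pow _ _
  rw [sum_congr rfl (fun ω _ => e2 ω), sum_comm (s := (univ : Finset (T → ZMod p)))]
  rw [mul_sum, mul_sum]
  apply sum_congr rfl
  intro x _
  obtain ⟨I, hI⟩ : ∃ I, I = univ.image x := ⟨_, rfl⟩
  have hIc : I.card ≤ D + 1 := by
    rw [hI]
    refine card_image_le.trans ?_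
    rw [card_univ, Fintype.card_fin]
    exact hk
  have hx : ∀ i, x i ∈ I := by
    intro i
    rw [hI]
    exact mem_image_of_mem _ (mem_univ _)
  obtain ⟨Ψ, hΨ⟩ : ∃ Ψ : ({t // t ∈ I} → ZMod p) → ℝ, ∀ u, Ψ u = ∏ i, φ (u ⟨x i, hx i⟩) := ⟨_, fun _ => rfl⟩
  -- the forms
  obtain ⟨L, hL⟩ : ∃ L : (Fin d → ZMod p) →+ ({t // t ∈ I} → ZMod p), ∀ v t, L v t = ev E v (ρ t) := by
    refine ⟨⟨⟨fun v t => ev E v (ρ t), ?_⟩, ?_⟩, fun v t => rfl⟩
    · funext t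
      simp [ev]
    · intro v v'
      funext t
      simp only [ev, Pi.add_apply, add_mul, sum_add_distrib]
  have h3 := avg L (ev_surj E ρ hρ hne I hIc L hL) 0 Ψ
  have h4 : ∀ v, Ψ (L v + 0) = ∏ i, φ (ev E v (ρ (x i))) := by
    intro v
    rw [hΨ]
    apply prod_congr rfl
    intro i _
    rw [add_zero, hL]
  rw [sum_congr rfl (fun v _ => h4 v)] at h3
  -- the functions
  obtain ⟨L', hL'⟩ : ∃ L' : (T → ZMod p) →+ ({t // t ∈ I} → ZMod p), ∀ v t, L' v t = v t := by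
    refine ⟨⟨⟨fun v t => v t, ?_⟩, ?_⟩, fun v t => rfl⟩
    · funext t
      rfl
    · intro v v'
      funext t
      rfl
  have hs' : Function.Surjective L' := by
    intro u
    refine ⟨fun t => if h : t ∈ I then u ⟨t, h⟩ else 0, ?_⟩
    funext t
    rw [hL']
    simp only [dif_pos t.2]
  have h5 := avg L' hs' 0 Ψ
  have h6 : ∀ v, Ψ (L' v + 0) = ∏ i, φ (v (x i)) := by
    intro v
    rw [hΨ]
    apply prod_congr rfl
    intro i _
    rw [add_zero, hL']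
  rw [sum_congr rfl (fun v _ => h6 v)] at h5
  have hc : (Fintype.card ({t // t ∈ I} → ZMod p) : ℝ) ≠ 0 := by
    exact_mod_cast Fintype.card_ne_zero
  have c1 : (Fintype.card (Fin d → ZMod p) : ℝ) = (p : ℝ) ^ d := by
    rw [Fintype.card_fun, Fintype.card_fin, ZMod.card]
    push_cast
    rfl
  have c2 : (Fintype.card (T → ZMod p) : ℝ) = (p : ℝ) ^ Fintype.card T := by
    rw [Fintype.card_fun, ZMod.card]
    push_cast
    rfl
  rw [c1] at h3
  rw [c2] at h5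
  apply mul_left_cancel₀ hc
  rw [mul_left_comm, h3, mul_left_comm, ← h5]
  ring

lemma fun_AA (φ : ZMod p → ℝ) (T : Type) [Fintype T] [DecidableEq T] (k : ℕ) :
    ∑ ω : T → ZMod p, (∑ t, φ (ω t)) ^ k = (p : ℝ) ^ Fintype.card T * AA φ (Fintype.card T) k := by
  obtain ⟨e, -⟩ : ∃ e : T ≃ Fin (Fintype.card T), True := ⟨Fintype.equivFin T, trivial⟩
  have hp0 : (p : ℝ) ≠ 0 := by exact_mod_cast hf.out.ne_zero
  unfold AA
  rw [ZMod.card, mul_div_cancel₀ _ (pow_ne_zero _ hp0)]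
  rw [← Equiv.sum_comp (Equiv.arrowCongr e (Equiv.refl (ZMod p)))]
  apply sum_congr rfl
  intro ω _
  congr 1
  rw [← Equiv.sum_comp e]
  apply sum_congr rfl
  intro t _
  simp [Equiv.arrowCongr]

/-- the centred indicator of zero -/
noncomputable def phi (p : ℕ) (u : ZMod p) : ℝ := (if u = 0 then 1 else 0) - 1 / p

lemma phi_ee : ee (phi p) 1 = 0 ∧ ee (phi p) 2 = (1 - 1 / (p : ℝ)) * (1 / p) ∧ ∀ i, 3 ≤ i → |ee (phi p) i| ≤ 1 / p := by
  have hp0 : (0 : ℝ) < p := by exact_mod_cast hf.out.pos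
  have hp1 : (1 : ℝ) ≤ p := by exact_mod_cast hf.out.one_lt.le
  have hs : ∀ f : ZMod p → ℝ, (∀ u, u ≠ 0 → f u = f 1) → ∑ u, f u = f 0 + (p - 1) * f 1 := by
    intro f hf1
    rw [← add_sum_erase univ _ (mem_univ (0 : ZMod p))]
    have h3 : ∀ u ∈ univ.erase (0 : ZMod p), f u = f 1 := fun u hu => hf1 u (ne_of_mem_erase hu)
    rw [sum_congr rfl h3, sum_const, card_erase_of_mem (mem_univ _), card_univ, ZMod.card, nsmul_eq_mul, Nat.cast_sub hf.out.one_lt.le, Nat.cast_one]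
  have h10 : (1 : ZMod p) ≠ 0 := one_ne_zero
  have hval : ∀ i : ℕ, ∑ u, phi p u ^ i = (1 - 1 / (p : ℝ)) ^ i + (p - 1) * (-(1 / (p : ℝ))) ^ i := by
    intro i
    rw [hs (fun u => phi p u ^ i) (by
      intro u hu
      simp only [phi, if_neg hu, if_neg h10])]
    simp only [phi, if_neg h10, if_true]
    rw [zero_sub]
  have hpinv : 1 / (p : ℝ) ≤ 1 := (div_le_one hp0).2 hp1
  have hpinv0 : 0 < 1 / (p : ℝ) := by positivity
  refine ⟨?_, ?_, ?_⟩
  · unfold ee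
    rw [hval, ZMod.card]
    field_simp
    ring
  · unfold ee
    rw [hval, ZMod.card]
    field_simp
    ring
  · intro i hi
    unfold ee
    rw [ZMod.card, abs_div, abs_of_pos hp0]
    apply div_le_div_of_nonneg_right _ hp0.le
    have h2 : |∑ u, phi p u ^ i| ≤ ∑ u, phi p u ^ 2 := by
      refine (abs_sum_le_sum_abs _ _).trans (sum_le_sum (fun u _ => ?_))
      have h3 : |phi p u| ≤ 1 := by
        unfold phi
        split_ifs
        · rw [abs_of_nonneg (by linarith)]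
          linarith
        · rw [zero_sub, abs_neg, abs_of_pos hpinv0]
          exact hpinv
      rw [abs_pow, ← sq_abs]
      exact pow_le_pow_of_le_one (abs_nonneg _) h3 (by omega)
    refine h2.trans ?_
    rw [hval]
    have : (1 - 1 / (p : ℝ)) ^ 2 + (p - 1) * (-(1 / (p : ℝ))) ^ 2 = 1 - 1 / p := by
      field_simp
      ring
    rw [this]
    linarith

end

/-- the moments for a set of points -/
lemma momentS (k : ℕ) : ∃ C : ℝ, 0 ≤ C ∧ ∀ (p : ℕ) (hp : p.Prime), haveI : Fact p.Prime := ⟨hp⟩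
    ∀ (n D d : ℕ) (E : Fin d ≃ {μ : Fin (n + 1) → ℕ // ∑ i, μ i = D}) (T : Type) [Fintype T] (ρ : T → Fin (n + 1) → ZMod p),
    (∀ t, ρ t ≠ 0) → (∀ t t', t ≠ t' → ∃ a b, ρ t a * ρ t' b ≠ ρ t b * ρ t' a) → k ≤ D + 1 → (p : ℝ) ^ 2 ≤ Fintype.card T →
    |(∑ v : Fin d → ZMod p, ((∑ t, phi p (ev E v (ρ t))) / √((Fintype.card T : ℝ) / p)) ^ k) / (p : ℝ) ^ d - mu k| ≤ C / √(p : ℝ) := by
  classical
  obtain ⟨C, hC, h⟩ := AA_norm k
  refine ⟨2 * C, by positivity, fun p hp' => ?_⟩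
  have hf : Fact p.Prime := ⟨hp'⟩
  intro n D d E T _ ρ hρ hne hk hT
  have hp0 : (0 : ℝ) < p := by exact_mod_cast hp'.pos
  have hp1 : (1 : ℝ) ≤ p := by exact_mod_cast hp'.one_lt.le
  have hsp0 : 0 < √(p : ℝ) := Real.sqrt_pos.2 hp0
  have hsp1 : 1 ≤ √(p : ℝ) := Real.one_le_sqrt.2 hp1
  have hle : √(p : ℝ) ≤ p := by
    rw [Real.sqrt_le_left (by linarith)]
    nlinarith
  have hT1 : (p : ℝ) ≤ (Fintype.card T : ℝ) * (1 / p) := by
    rw [mul_one_div, le_div_iff₀ hp0]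
    calc (p : ℝ) * p = p ^ 2 := by ring
      _ ≤ _ := hT
  have hs1 : √(p : ℝ) ≤ √((Fintype.card T : ℝ) * (1 / p)) := Real.sqrt_le_sqrt hT1
  have hs0 : 0 < √((Fintype.card T : ℝ) * (1 / p)) := lt_of_lt_of_le hsp0 hs1
  have i1 : 1 / (p : ℝ) ≤ 1 / √(p : ℝ) := one_div_le_one_div_of_le hsp0 hle
  have i2 : 1 / √(p : ℝ) ≤ 1 := (div_le_one hsp0).2 hsp1
  have i3 : 0 < 1 / (p : ℝ) := by positivity
  have i4 : 1 / √((Fintype.card T : ℝ) * (1 / p)) ≤ 1 / √(p : ℝ) := one_div_le_one_div_of_le hsp0 hs1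
  obtain ⟨h1, h2, h3⟩ := phi_ee (p := p)
  have h4 := h (ZMod p) (phi p) (1 - 1 / p) (1 / p) (2 / √(p : ℝ)) h1 h2 h3 (by linarith) (by linarith) i3 (by linarith)
    (by
      have : 2 / √(p : ℝ) = 2 * (1 / √(p : ℝ)) := by ring
      rw [this]
      linarith) (by
      have : 2 / √(p : ℝ) = 2 * (1 / √(p : ℝ)) := by ring
      rw [this]
      linarith) (Fintype.card T) (by linarith) (by
      have : 2 / √(p : ℝ) = 2 * (1 / √(p : ℝ)) := by ring
      rw [this]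
      have : 0 < 1 / √(p : ℝ) := by positivity
      linarith)
  have h5 := compare_gen E (phi p) ρ hρ hne hk
  rw [fun_AA] at h5
  have h6 : ∑ v : Fin d → ZMod p, (∑ t, phi p (ev E v (ρ t))) ^ k = (p : ℝ) ^ d * AA (phi p) (Fintype.card T) k := by
    apply mul_left_cancel₀ (pow_pos hp0 (Fintype.card T)).ne'
    rw [h5]
    ring
  have h7 : (∑ v : Fin d → ZMod p, ((∑ t, phi p (ev E v (ρ t))) / √((Fintype.card T : ℝ) / p)) ^ k) / (p : ℝ) ^ d =
      AA (phi p) (Fintype.card T) k / √((Fintype.card T : ℝ) * (1 / p)) ^ k := by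
    have e1 : ∑ v : Fin d → ZMod p, ((∑ t, phi p (ev E v (ρ t))) / √((Fintype.card T : ℝ) / p)) ^ k =
        (∑ v : Fin d → ZMod p, (∑ t, phi p (ev E v (ρ t))) ^ k) / √((Fintype.card T : ℝ) / p) ^ k := by
      rw [sum_div]
      apply sum_congr rfl
      intro v _
      rw [div_pow]
    rw [e1, h6, mul_one_div]
    field_simp
  rw [h7]
  refine h4.trans (le_of_eq ?_)
  ring

/-- the normalised trace -/
noncomputable def tr (p : ℕ) {n D d : ℕ} (E : Fin d ≃ {μ : Fin (n + 1) → ℕ // ∑ i, μ i = D}) (V : Set (Fin (n + 1) → ZMod p)) (v : Fin d → ZMod p) : ℝ :=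
  ((Nat.card {x : Fin (n + 1) → ZMod p // (x ∈ V ∧ x ≠ 0) ∧ ev E v x = 0} : ℝ) / (p - 1) - (Nat.card {x : Fin (n + 1) → ZMod p // x ∈ V ∧ x ≠ 0} : ℝ) / (p - 1) / p) /
    √((Nat.card {x : Fin (n + 1) → ZMod p // x ∈ V ∧ x ≠ 0} : ℝ) / (p - 1) / p)

lemma section_eq {p : ℕ} [hf : Fact p.Prime] {n D d : ℕ} (E : Fin d ≃ {μ : Fin (n + 1) → ℕ // ∑ i, μ i = D}) (V : Set (Fin (n + 1) → ZMod p))
    (hV : ∀ x (c : ZMod p), x ∈ V → (fun i => c * x i) ∈ V) (v : Fin d → ZMod p) :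
    (Nat.card {x : Fin (n + 1) → ZMod p // (x ∈ V ∧ x ≠ 0) ∧ ev E v x = 0} : ℝ) / (p - 1) - (Fintype.card (Pt V) : ℝ) / p = ∑ t : Pt V, phi p (ev E v t.1.rep) := by
  classical
  have h1 := cone_set V hV (fun x => if ev E v x = 0 then (1 : ℝ) else 0) (by
    intro x c hc
    rw [ev_scale]
    have : c ^ D * ev E v x = 0 ↔ ev E v x = 0 := by
      rw [mul_eq_zero, or_iff_right (pow_ne_zero D hc)]
    simp only [this])
  have hp1 : (1 : ℝ) < p := by exact_mod_cast hf.out.one_lt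
  have hp0 : (p : ℝ) - 1 ≠ 0 := by linarith
  have h2 : (Nat.card {x : Fin (n + 1) → ZMod p // (x ∈ V ∧ x ≠ 0) ∧ ev E v x = 0} : ℝ) =
      ∑ x ∈ univ.filter (fun x : Fin (n + 1) → ZMod p => x ∈ V ∧ x ≠ 0), if ev E v x = 0 then (1 : ℝ) else 0 := by
    rw [Nat.card_eq_fintype_card, Fintype.card_subtype, ← filter_filter, sum_boole]
  rw [h2, h1, mul_div_cancel_left₀ _ hp0]
  unfold phi
  rw [sum_sub_distrib, sum_const, card_univ, nsmul_eq_mul]
  ring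

section
variable {r : ℕ} (n D d k : Fin r → ℕ) (hk : ∀ i, k i ≤ D i + 1) (E : ∀ i, Fin (d i) ≃ {μ : Fin (n i + 1) → ℕ // ∑ j, μ j = D i})
include hk

lemma single (i : Fin r) : ∃ C : ℝ, 0 ≤ C ∧ ∀ (p : ℕ) (hp : p.Prime), haveI : Fact p.Prime := ⟨hp⟩
    ∀ (V : Set (Fin (n i + 1) → ZMod p)), (∀ x (c : ZMod p), x ∈ V → (fun i => c * x i) ∈ V) →
    (p : ℝ) ^ 2 ≤ (Nat.card {x : Fin (n i + 1) → ZMod p // x ∈ V ∧ x ≠ 0} : ℝ) / (p - 1) →
    |(∑ v : Fin (d i) → ZMod p, tr p (E i) V v ^ k i) / (p : ℝ) ^ d i - mu (k i)| ≤ C / √(p : ℝ) := by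
  obtain ⟨C, hC, h⟩ := momentS (k i)
  refine ⟨C, hC, fun p hp' => ?_⟩
  have hf : Fact p.Prime := ⟨hp'⟩
  intro V hV hN
  rw [points_eq V hV] at hN
  have h1 := h p hp' (n i) (D i) (d i) (E i) (Pt V) (fun t => t.1.rep) (fun t => t.1.rep_nonzero) (rep_sep V) (hk i) hN
  have h2 : ∀ v : Fin (d i) → ZMod p, tr p (E i) V v = (∑ t : Pt V, phi p (ev (E i) v t.1.rep)) / √((Fintype.card (Pt V) : ℝ) / p) := by
    intro v
    unfold tr
    rw [points_eq V hV, section_eq (E i) V hV v]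
  simp only [h2]
  exact h1

/-- the joint moments -/
lemma joint_s : ∃ C : ℝ, 0 ≤ C ∧ ∀ (p : ℕ) (hp : p.Prime), haveI : Fact p.Prime := ⟨hp⟩
    ∀ (dd : ℕ) (e : (Σ i, Fin (d i)) ≃ Fin dd) (V : ∀ i, Set (Fin (n i + 1) → ZMod p)), (∀ i x (c : ZMod p), x ∈ V i → (fun j => c * x j) ∈ V i) →
    (∀ i, (p : ℝ) ^ 2 ≤ (Nat.card {x : Fin (n i + 1) → ZMod p // x ∈ V i ∧ x ≠ 0} : ℝ) / (p - 1)) →
    |mean dd p (fun m => ∏ i, tr p (E i) (V i) (fun j => (m (e ⟨i, j⟩) : ZMod p)) ^ k i) - ∏ i, mu (k i)| ≤ C / √(p : ℝ) := by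
  classical
  choose C hC h using single n D d k hk E
  obtain ⟨C₁, hC₁⟩ : ∃ C₁, C₁ = ∑ i, C i := ⟨_, rfl⟩
  have hC₁0 : 0 ≤ C₁ := by
    rw [hC₁]
    exact sum_nonneg (fun i _ => hC i)
  have hCi : ∀ i, C i ≤ C₁ := by
    intro i
    rw [hC₁]
    exact single_le_sum (fun i _ => hC i) (mem_univ i)
  obtain ⟨B, hB⟩ : ∃ B, B = 1 + ∑ i, |mu (k i)| + C₁ := ⟨_, rfl⟩
  have hs0 : 0 ≤ ∑ i, |mu (k i)| := sum_nonneg (fun i _ => abs_nonneg _)
  have hB1 : 1 ≤ B := by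
    rw [hB]
    linarith
  have hmu : ∀ i, |mu (k i)| ≤ ∑ i, |mu (k i)| := fun i => single_le_sum (f := fun i => |mu (k i)|) (fun i _ => abs_nonneg _) (mem_univ i)
  refine ⟨r * B ^ r * C₁, by positivity, fun p hp' => ?_⟩
  have hf : Fact p.Prime := ⟨hp'⟩
  intro dd e V hV hN
  have hp0 : (0 : ℝ) < p := by exact_mod_cast hp'.pos
  have hp1 : (1 : ℝ) ≤ p := by exact_mod_cast hp'.one_lt.le
  have hsp0 : 0 < √(p : ℝ) := Real.sqrt_pos.2 hp0
  have hsp1 : 1 ≤ √(p : ℝ) := Real.one_le_sqrt.2 hp1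
  have h3 := mean_zmod dd p hp' (fun v => ∏ i, tr p (E i) (V i) (fun j => v (e ⟨i, j⟩)) ^ k i)
  rw [blocks e (fun i u => tr p (E i) (V i) u ^ k i)] at h3
  have hd : dd = ∑ i, d i := by
    have := Fintype.card_congr e
    rw [Fintype.card_sigma, Fintype.card_fin] at this
    rw [← this]
    simp
  have h4 : (∏ i, ∑ u : Fin (d i) → ZMod p, tr p (E i) (V i) u ^ k i) / (p : ℝ) ^ dd =
      ∏ i, ((∑ u : Fin (d i) → ZMod p, tr p (E i) (V i) u ^ k i) / (p : ℝ) ^ d i) := by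
    rw [prod_div_distrib, prod_pow_eq_pow_sum, ← hd]
  rw [h4] at h3
  have h5 := prod_close univ (fun i => (∑ u : Fin (d i) → ZMod p, tr p (E i) (V i) u ^ k i) / (p : ℝ) ^ d i) (fun i => mu (k i))
    B (C₁ / √(p : ℝ)) hB1 (by positivity) (by
      intro i _
      have h6 := h i p hp' (V i) (hV i) (hN i)
      have h7 : C i / √(p : ℝ) ≤ C₁ := (div_le_self (hC i) hsp1).trans (hCi i)
      have h8 := abs_sub_abs_le_abs_sub ((∑ u : Fin (d i) → ZMod p, tr p (E i) (V i) u ^ k i) / (p : ℝ) ^ d i) (mu (k i))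
      have h9 := hmu i
      rw [hB]
      linarith) (by
      intro i _
      have h9 := hmu i
      rw [hB]
      linarith) (by
      intro i _
      refine (h i p hp' (V i) (hV i) (hN i)).trans ?_
      have := hCi i
      gcongr)
  rw [card_univ, Fintype.card_fin] at h5
  rw [← h3] at h5
  refine h5.trans (le_of_eq ?_)
  ring

end

/-- the high moments -/
lemma high_s {r : ℕ} (n D d : Fin r → ℕ) (E : ∀ i, Fin (d i) ≃ {μ : Fin (n i + 1) → ℕ // ∑ j, μ j = D i}) :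
    ∃ C : ℝ, 0 ≤ C ∧ ∀ (p : ℕ) (hp : p.Prime), haveI : Fact p.Prime := ⟨hp⟩
    ∀ (dd : ℕ) (e : (Σ i, Fin (d i)) ≃ Fin dd) (V : ∀ i, Set (Fin (n i + 1) → ZMod p)), (∀ i x (c : ZMod p), x ∈ V i → (fun j => c * x j) ∈ V i) →
    (∀ i, (p : ℝ) ^ 2 ≤ (Nat.card {x : Fin (n i + 1) → ZMod p // x ∈ V i ∧ x ≠ 0} : ℝ) / (p - 1)) →
    mean dd p (fun m => ∏ i, (1 + tr p (E i) (V i) (fun j => (m (e ⟨i, j⟩) : ZMod p)) ^ (2 * ((D i + 1) / 2)))) ≤ C := by
  classical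
  choose C hC h using single n D d (fun i => 2 * ((D i + 1) / 2)) (fun i => by omega) E
  refine ⟨∏ i, (1 + (|mu (2 * ((D i + 1) / 2))| + C i)), prod_nonneg (fun i _ => by
    have := hC i
    positivity), fun p hp' => ?_⟩
  have hf : Fact p.Prime := ⟨hp'⟩
  intro dd e V hV hN
  have hp0 : (0 : ℝ) < p := by exact_mod_cast hp'.pos
  have hp1 : (1 : ℝ) ≤ p := by exact_mod_cast hp'.one_lt.le
  have hsp0 : 0 < √(p : ℝ) := Real.sqrt_pos.2 hp0
  have hsp1 : 1 ≤ √(p : ℝ) := Real.one_le_sqrt.2 hp1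
  have h3 := mean_zmod dd p hp' (fun v => ∏ i, (1 + tr p (E i) (V i) (fun j => v (e ⟨i, j⟩)) ^ (2 * ((D i + 1) / 2))))
  rw [blocks e (fun i u => 1 + tr p (E i) (V i) u ^ (2 * ((D i + 1) / 2)))] at h3
  have hd : dd = ∑ i, d i := by
    have := Fintype.card_congr e
    rw [Fintype.card_sigma, Fintype.card_fin] at this
    rw [← this]
    simp
  have h4 : (∏ i, ∑ u : Fin (d i) → ZMod p, (1 + tr p (E i) (V i) u ^ (2 * ((D i + 1) / 2)))) / (p : ℝ) ^ dd =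
      ∏ i, (1 + (∑ u : Fin (d i) → ZMod p, tr p (E i) (V i) u ^ (2 * ((D i + 1) / 2))) / (p : ℝ) ^ d i) := by
    rw [hd, ← prod_pow_eq_pow_sum, ← prod_div_distrib]
    apply prod_congr rfl
    intro i _
    rw [sum_add_distrib, sum_const, card_univ, Fintype.card_fun, ZMod.card, Fintype.card_fin, nsmul_eq_mul, mul_one, add_div]
    push_cast
    rw [div_self (pow_pos hp0 _).ne']
  rw [h3, h4]
  apply prod_le_prod
  · intro i _
    have : 0 ≤ (∑ u : Fin (d i) → ZMod p, tr p (E i) (V i) u ^ (2 * ((D i + 1) / 2))) / (p : ℝ) ^ d i := by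
      apply div_nonneg _ (by positivity)
      exact sum_nonneg (fun u _ => by
        rw [pow_mul]
        positivity)
    linarith
  · intro i _
    have h6 := h i p hp' (V i) (hV i) (hN i)
    have h7 : C i / √(p : ℝ) ≤ C i := div_le_self (hC i) hsp1
    have h8 := (abs_le.1 h6).2
    have h9 := le_abs_self (mu (2 * ((D i + 1) / 2)))
    linarith

end Pool.Agent.X22.SE
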