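import Pool.Agent.X22.HL
import Pool.Agent.H684R3.Smo.Done

/-!
# Linear recurrence sequences with few-digit data
-/

set_option autoImplicit false

namespace Pool.Agent.X22.SKP

open Finset Polynomial
open Pool.Agent.H884R2.Sko (seq seq_sol seq_init eq_seq map_seq sum_rev chi charPoly charPoly_eq chi_coeff code isLRS_code splitField_one)
open Pool.Agent.H692R2.USS Pool.Agent.H684R3.Smo
open Pool.Agent.TH894.SM (change)
open Pool.Agent.X22.ND (op mem_op)

/-- the sequence with coefficients `c` and initial values `a` -/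
def SeqR {R : Type} [CommRing R] {k : ℕ} (c a : Fin k → R) (u : ℕ → R) : Prop :=
  (∀ i : Fin k, u i = a i) ∧ ∀ n, u (n + k) = ∑ i : Fin k, c i * u (n + k - 1 - i)

theorem seqR_iff {R : Type} [CommRing R] {k : ℕ} (c a : Fin k → R) (u : ℕ → R) :
    SeqR c a u ↔ ∀ n, u n = seq (fun i => c (Fin.rev i)) a n := by
  have hrec : ∀ (w : ℕ → R) (n : ℕ), ∑ i : Fin k, c i * w (n + k - 1 - i) =
      ∑ i : Fin k, c (Fin.rev i) * w (n + i) := by
    intro w n
    rw [← sum_rev]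
    refine Finset.sum_congr rfl fun i _ => ?_
    rw [Fin.val_rev]
    congr 2
    omega
  constructor
  · rintro ⟨h1, h2⟩ n
    exact eq_seq _ a u (fun n => by rw [h2, hrec]) h1 n
  · intro h
    have hu : u = seq (fun i => c (Fin.rev i)) a := funext h
    subst hu
    refine ⟨fun i => seq_init _ _ i, fun n => ?_⟩
    rw [hrec]
    exact seq_sol _ _ n

/-- the prime `p` divides no term, and the sequence has period `(p - 1) / 2` modulo `p` -/
def Cert {k : ℕ} (c a : Fin k → ℤ) (p : ℕ) : Prop :=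
  ∀ u, SeqR c a u → (∀ n, (p : ℤ) ∣ u (n + (p - 1) / 2) - u n) ∧ ∀ n, ¬ (p : ℤ) ∣ u n

theorem cert_of {k : ℕ} (c a : Fin k → ℤ) (p : ℕ)
    (h : GoodP (p := p) (fun i => ((c (Fin.rev i) : ℤ) : ZMod p)) (fun i => (a i : ZMod p))) : Cert c a p :=
  fun u hu => good_cert c a p h u hu

/-- the good initial values modulo `p` -/
def GoodI {k : ℕ} (c : Fin k → ℤ) (p : ℕ) : Set (Fin k → ZMod p) :=
  {a | ∀ u, SeqR (fun i => ((c i : ℤ) : ZMod p)) a u → (∀ n, u (n + (p - 1) / 2) = u n) ∧ ∀ n, u n ≠ 0}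

theorem goodI_iff {k : ℕ} (c : Fin k → ℤ) (p : ℕ) (a : Fin k → ZMod p) :
    a ∈ GoodI c p ↔ GoodP (p := p) (fun i => ((c (Fin.rev i) : ℤ) : ZMod p)) a := by
  unfold GoodI
  rw [Set.mem_setOf_eq]
  constructor
  · intro h
    exact h _ ((seqR_iff _ a _).2 (fun n => rfl))
  · intro h u hu
    have : u = seq (fun i => ((c (Fin.rev i) : ℤ) : ZMod p)) a := funext ((seqR_iff _ a u).1 hu)
    rw [this]
    exact h

open Classical in
/-- the odd primes `p ≤ x` modulo which at least half of the initial values are good -/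
noncomputable def helpful {k : ℕ} (c : Fin k → ℤ) (x : ℕ) : Finset ℕ :=
  (Icc 3 x).filter (fun p => p.Prime ∧ (1 / 2 : ℝ) * (p : ℝ) ^ k ≤ Nat.card (GoodI c p))

lemma helpful_sub {k : ℕ} (c : Fin k → ℤ) (x : ℕ) : helpful c x ⊆ op x := by
  intro p hp
  unfold helpful at hp
  rw [mem_filter, mem_Icc] at hp
  rw [mem_op]
  exact ⟨hp.1.2, hp.2.1, by omega⟩

/-- **many helpful primes** -/
theorem helpful_card {k : ℕ} (hk : 1 ≤ k) (c : Fin k → ℤ) (hc : c ⟨k - 1, by omega⟩ ≠ 0)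
    (hsq : Squarefree ((charPoly c).map (Int.castRingHom ℚ))) :
    ∃ θ : ℝ, 0 < θ ∧ ∃ x₀ : ℕ, ∀ x : ℕ, x₀ ≤ x → (x : ℝ) ^ θ ≤ (helpful c x).card := by
  classical
  rw [charPoly_eq] at hsq
  have h0 : (chi (fun i => c (Fin.rev i))).coeff 0 ≠ 0 := by
    have := chi_coeff (fun i => c (Fin.rev i)) ⟨0, by omega⟩
    simp only at this
    rw [this, neg_ne_zero]
    have e : Fin.rev (⟨0, by omega⟩ : Fin k) = ⟨k - 1, by omega⟩ := by
      apply Fin.ext
      rw [Fin.val_rev]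
    rw [e]
    exact hc
  obtain ⟨g, p₀, hg, hgood⟩ := t7 k _ hk h0 hsq
  obtain ⟨K, hF, hNF, hK⟩ := splitField_one g hg
  obtain ⟨θ, hθ, y₀, hsup⟩ := @t8 K hF hNF
  have hev : ∀ᶠ y : ℕ in Filter.atTop, ((p₀ + 3 : ℕ) : ℝ) + 1 ≤ (y : ℝ) ^ (θ / 2) := by
    have : Filter.Tendsto (fun y : ℕ => (y : ℝ) ^ (θ / 2)) Filter.atTop Filter.atTop :=
      (tendsto_rpow_atTop (by positivity)).comp tendsto_natCast_atTop_atTop
    exact this.eventually_ge_atTop _
  obtain ⟨y₂, hy₂⟩ := Filter.eventually_atTop.1 hev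
  refine ⟨θ / 2, by positivity, max y₀ y₂ + 1, fun y hy => ?_⟩
  have h1 := hsup y ((le_max_left y₀ y₂).trans (by omega))
  have h2 := hy₂ y ((le_max_right y₀ y₂).trans (by omega))
  have h3 : Nat.card {p : ℕ // (p.Prime ∧ @HasDegOne K hF hNF p) ∧ p ≤ y} ≤ (helpful c y).card + (p₀ + 3) := by
    have e : Nat.card ({p : ℕ // p ∈ helpful c y} ⊕ Fin (p₀ + 3)) = (helpful c y).card + (p₀ + 3) := by
      rw [Nat.card_sum, Nat.card_eq_fintype_card (α := Fin (p₀ + 3)), Fintype.card_fin, Nat.card_eq_fintype_card, Fintype.card_coe]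
    rw [← e]
    have hmem : ∀ p : {p : ℕ // (p.Prime ∧ @HasDegOne K hF hNF p) ∧ p ≤ y}, ¬ p.1 < p₀ + 3 → p.1 ∈ helpful c y := by
      intro p hp
      unfold helpful
      rw [mem_filter, mem_Icc]
      refine ⟨⟨by omega, p.2.2⟩, p.2.1.1, ?_⟩
      have h4 := hgood p.1 p.2.1.1 (by omega) (hK p.1 p.2.1.1 p.2.1.2)
      rw [Fintype.card_fin] at h4
      refine h4.trans (le_of_eq ?_)
      congr 1
      apply Nat.card_congr
      apply Equiv.subtypeEquivRight
      intro a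
      exact (goodI_iff c p.1 a).symm
    apply Nat.card_le_card_of_injective (fun p : {p : ℕ // (p.Prime ∧ @HasDegOne K hF hNF p) ∧
      p ≤ y} => if h : p.1 < p₀ + 3 then Sum.inr (⟨p.1, h⟩ : Fin (p₀ + 3)) else
        Sum.inl (⟨p.1, hmem p h⟩ : {p : ℕ // p ∈ helpful c y}))
    intro x x' h
    apply Subtype.ext
    simp only at h
    split_ifs at h with h4 h5 h5
    · simpa using h
    · simpa using h
  have h4 : ((Nat.card {p : ℕ // (p.Prime ∧ @HasDegOne K hF hNF p) ∧ p ≤ y} : ℕ) : ℝ) ≤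
      ((helpful c y).card : ℝ) + ((p₀ + 3 : ℕ) : ℝ) := by exact_mod_cast h3
  have h5 : (y : ℝ) ^ θ = (y : ℝ) ^ (θ / 2) * (y : ℝ) ^ (θ / 2) := by
    rw [← Real.rpow_add (by exact_mod_cast (by omega : 0 < y))]
    congr 1
    ring
  have h6 : (0 : ℝ) ≤ ((p₀ + 3 : ℕ) : ℝ) := Nat.cast_nonneg _
  nlinarith

/-- an affine map with integer matrix of determinant `± 1` -/
structure Aff (D : ℕ) where
  /-- the translation -/
  e : Fin D → ℤ
  /-- the matrix -/
  T : Matrix (Fin D) (Fin D) ℤ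
  /-- the determinant is a unit -/
  det : IsUnit T.det

/-- the image of a vector -/
def Aff.app {D : ℕ} (φ : Aff D) (m : Fin D → ℕ) : Fin D → ℤ := fun i => φ.e i + ∑ j, φ.T i j * (m j : ℤ)

/-- the induced map modulo `p` -/
def Aff.red {D : ℕ} (φ : Aff D) (p : ℕ) (v : Fin D → ZMod p) : Fin D → ZMod p := fun i => (φ.e i : ZMod p) + ∑ j, (φ.T i j : ZMod p) * v j

lemma Aff.app_red {D : ℕ} (φ : Aff D) (p : ℕ) (m : Fin D → ℕ) (i : Fin D) : ((φ.app m i : ℤ) : ZMod p) = φ.red p (fun j => (m j : ZMod p)) i := by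
  unfold Aff.app Aff.red
  push_cast
  rfl

lemma Aff.card {D : ℕ} (φ : Aff D) (p : ℕ) (hp : p.Prime) (S : Set (Fin D → ZMod p)) : Nat.card {v // φ.red p v ∈ S} = Nat.card S := by
  haveI : Fact p.Prime := ⟨hp⟩
  obtain ⟨M, hM⟩ : ∃ M : Matrix (Fin D) (Fin D) (ZMod p), M = φ.T.map (Int.castRingHom (ZMod p)) := ⟨_, rfl⟩
  have hdet : IsUnit M := by
    rw [Matrix.isUnit_iff_isUnit_det, hM]
    have := φ.det.map (Int.castRingHom (ZMod p))
    rwa [RingHom.map_det] at this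
  have hinj : Function.Injective (φ.red p) := by
    intro v w h
    apply Matrix.mulVec_injective_of_isUnit hdet
    funext i
    have h1 := congrFun h i
    unfold Aff.red at h1
    have h2 := add_left_cancel h1
    rw [hM]
    exact h2
  have hbij : Function.Bijective (φ.red p) := Finite.injective_iff_bijective.1 hinj
  exact Nat.card_congr ((Equiv.ofBijective _ hbij).subtypeEquiv (fun v => Iff.rfl))

open Classical in
/-- **Fixed recurrences, few-digit initial values.** -/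
theorem fixed_law (b k : ℕ) (hb : 2 ≤ b) (hk : 1 ≤ k) (θ : ℝ) (hθ : 0 < θ) (A : ℕ) : ∃ c : ℝ, 0 < c ∧ ∃ y₀ : ℕ,
    ∀ (K r : Fin k → ℕ) (y : ℕ), (∀ l, 2 * r l ≤ K l) → y₀ ≤ y →
    ∀ N : Fin k → ℕ, (∀ l, N l < b ^ K l) → ∀ f : Fin k → ℕ → ℕ, (∀ l j, f l j < b ∧ f l j ≠ N l / b ^ j % b) →
    ∀ (ι : Type) (C : ι → Fin k → ℤ) (φ : ι → Aff k) (Λ : ℕ → Finset ι), (∀ x, y ≤ x → (Λ x).card ≤ x ^ A) →
      (∀ x, y ≤ x → ∀ l ∈ Λ x, (x : ℝ) ^ θ ≤ (helpful (C l) x).card) →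
    ∀ E : (Fin k → ℕ) → Prop,
    (∀ m, (∀ x : ℕ, y ≤ x → (∀ l, (x : ℝ) ≤ Real.exp (c * r l)) → ∀ l ∈ Λ x,
      1 / 4 * ((helpful (C l) x).card : ℝ) ≤ (((helpful (C l) x).filter (fun p => Cert (C l) ((φ l).app m) p)).card : ℝ)) → E m) →
      ((((Fintype.piFinset (fun l => powersetCard (r l) (range (K l)))).filter
        (fun T => ¬ E (fun l => change b (K l) (N l) (f l) (T l)))).card : ℕ) : ℝ) ≤ 1 / (y : ℝ) ^ A * ∏ l, ((K l).choose (r l) : ℝ) := by
  obtain ⟨c, hc, y₀, h⟩ := HL.hit_law b k hb hk (1 / 2) θ (by norm_num) hθ A A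
  refine ⟨c, hc, y₀, fun K r y hrK hy N hN f hf ι C φ Λ hΛ hI E hE => ?_⟩
  refine h K r y hrK hy N hN f hf ι Λ hΛ (fun x l => helpful (C l) x) (fun x hx l hl => ⟨helpful_sub _ _, hI x hx l hl⟩)
    (fun l p => {v | (φ l).red p v ∈ GoodI (C l) p}) ?_ E ?_
  · intro x hx l hl p hp
    unfold helpful at hp
    rw [mem_filter] at hp
    refine hp.2.2.trans (le_of_eq ?_)
    congr 1
    exact ((φ l).card p hp.2.1 _).symm
  · intro m hm
    apply hE
    intro x hyx hxr l hl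
    refine le_trans (le_of_eq (by norm_num)) ((hm x hyx hxr l hl).trans ?_)
    norm_cast
    apply card_le_card
    intro p hp
    rw [mem_filter] at hp ⊢
    refine ⟨hp.1, cert_of _ _ p ?_⟩
    have h1 : (φ l).red p (fun j => (m j : ZMod p)) ∈ GoodI (C l) p := hp.2
    rw [goodI_iff] at h1
    have e : (fun i => (((φ l).app m i : ℤ) : ZMod p)) = (φ l).red p (fun j => (m j : ZMod p)) := funext (fun i => (φ l).app_red p m i)
    rw [e]
    exact h1

open Classical in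
/-- **Few-digit coefficients and initial values.** -/
theorem input_law (b k : ℕ) (hb : 2 ≤ b) (hk : 1 ≤ k) (A : ℕ) : ∃ κ : ℝ, 0 < κ ∧ ∃ c : ℝ, 0 < c ∧ ∃ y₀ : ℕ,
    ∀ (K r : Fin (k + k) → ℕ) (y : ℕ), (∀ l, 2 * r l ≤ K l) → y₀ ≤ y →
    ∀ N : Fin (k + k) → ℕ, (∀ l, N l < b ^ K l) → ∀ f : Fin (k + k) → ℕ → ℕ, (∀ l j, f l j < b ∧ f l j ≠ N l / b ^ j % b) →
    ∀ (ι : Type) (φ : ι → Aff (k + k)) (Λ : ℕ → Finset ι), (∀ x, y ≤ x → (Λ x).card ≤ x ^ A) →
    ∀ E : (Fin (k + k) → ℕ) → Prop,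
    (∀ m, (∀ x : ℕ, y ≤ x → (∀ l, (x : ℝ) ≤ Real.exp (c * r l)) → ∀ l ∈ Λ x,
      κ * (((Icc 1 x).filter Nat.Prime).card : ℝ) ≤ (((Icc 1 x).filter (fun p => p.Prime ∧
        Cert (fun i => (φ l).app m (Fin.castAdd k i)) (fun i => (φ l).app m (Fin.natAdd k i)) p)).card : ℝ)) → E m) →
      ((((Fintype.piFinset (fun l => powersetCard (r l) (range (K l)))).filter
        (fun T => ¬ E (fun l => change b (K l) (N l) (f l) (T l)))).card : ℕ) : ℝ) ≤ 1 / (y : ℝ) ^ A * ∏ l, ((K l).choose (r l) : ℝ) := by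
  obtain ⟨κ, hκ, hk6⟩ := t6 k hk
  obtain ⟨c, hc, y₀, h⟩ := HL.hit_law b (k + k) hb (by omega) κ (1 / 2) hκ (by norm_num) A A
  obtain ⟨y₁, hy₁⟩ := t9 (1 / 2) (4 * k) (by norm_num)
  refine ⟨κ / 4, by positivity, c, hc, y₀ + y₁ + (4 * k) ^ 2 + 2, fun K r y hrK hy N hN f hf ι φ Λ hΛ E hE => ?_⟩
  obtain ⟨I, hI⟩ : ∃ I : ℕ → Finset ℕ, I = fun x => (op x).filter (fun p => 4 * k ≤ p) := ⟨_, rfl⟩
  have hIc : ∀ x, y ≤ x → (x : ℝ) ^ (1 / 2 : ℝ) ≤ (I x).card := by
    intro x hx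
    refine (hy₁ x (by omega)).trans ?_
    norm_cast
    have hf' : Finite {p : ℕ // (p.Prime ∧ 4 * k ≤ p) ∧ p ≤ x} := Set.Finite.subset (Set.finite_Iic x) (fun p hp => hp.2)
    have e : Nat.card {p : ℕ // p ∈ I x} = (I x).card := by
      rw [Nat.card_eq_fintype_card, Fintype.card_coe]
    rw [← e]
    refine Nat.card_le_card_of_injective (fun p => (⟨p.1, ?_⟩ : {p : ℕ // p ∈ I x})) ?_
    · rw [hI, mem_filter, mem_op]
      exact ⟨⟨p.2.2, p.2.1.1, by have := p.2.1.2; omega⟩, p.2.1.2⟩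
    · intro p q hpq
      apply Subtype.ext
      simpa using hpq
  refine h K r y hrK (by omega) N hN f hf ι Λ hΛ (fun x _ => I x) ?_
    (fun l p => {v | GoodP (p := p) (fun i => (φ l).red p v (Fin.castAdd k (Fin.rev i))) (fun i => (φ l).red p v (Fin.natAdd k i))}) ?_ E ?_
  · intro x hx l _
    refine ⟨?_, hIc x hx⟩
    rw [hI]
    exact filter_subset _ _
  · intro x hx l hl p hp
    rw [hI, mem_filter, mem_op] at hp
    have h1 := hk6 p hp.1.2.1 hp.2
    have hcard : Fintype.card (Fin k ⊕ Fin k) = k + k := by simp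
    rw [hcard] at h1
    refine h1.trans (le_of_eq ?_)
    congr 1
    have h2 := (φ l).card p hp.1.2.1 {w : Fin (k + k) → ZMod p | GoodP (p := p) (fun i => w (Fin.castAdd k (Fin.rev i))) (fun i => w (Fin.natAdd k i))}
    refine Eq.trans ?_ h2.symm
    obtain ⟨g, hg⟩ : ∃ g : (Fin k ⊕ Fin k) ≃ Fin (k + k), g = (Equiv.sumCongr Fin.revPerm (Equiv.refl _)).trans finSumFinEquiv := ⟨_, rfl⟩
    have hg1 : ∀ i, g (Sum.inl i) = Fin.castAdd k (Fin.rev i) := by
      intro i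
      rw [hg]
      simp
    have hg2 : ∀ i, g (Sum.inr i) = Fin.natAdd k i := by
      intro i
      rw [hg]
      simp
    refine Nat.card_congr (((Equiv.arrowCongr g (Equiv.refl (ZMod p)))).subtypeEquiv ?_)
    intro v
    rw [Set.mem_setOf_eq]
    have e1 : (fun i => (Equiv.arrowCongr g (Equiv.refl (ZMod p))) v (Fin.castAdd k (Fin.rev i))) = fun i => v (Sum.inl i) := by
      funext i
      rw [Equiv.arrowCongr_apply, ← hg1]
      simp
    have e2 : (fun i => (Equiv.arrowCongr g (Equiv.refl (ZMod p))) v (Fin.natAdd k i)) = fun i => v (Sum.inr i) := by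
      funext i
      rw [Equiv.arrowCongr_apply, ← hg2]
      simp
    rw [e1, e2]
  · intro m hm
    apply hE
    intro x hyx hxr l hl
    have h1 := hm x hyx hxr l hl
    have h2 : (((I x).filter (fun p => (fun i => (m i : ZMod p)) ∈ {v : Fin (k + k) → ZMod p | GoodP (p := p) (fun i => (φ l).red p v (Fin.castAdd k (Fin.rev i))) (fun i => (φ l).red p v (Fin.natAdd k i))})).card : ℝ) ≤
        (((Icc 1 x).filter (fun p => p.Prime ∧
        Cert (fun i => (φ l).app m (Fin.castAdd k i)) (fun i => (φ l).app m (Fin.natAdd k i)) p)).card : ℝ) := by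
      norm_cast
      apply card_le_card
      intro p hp
      rw [mem_filter, hI, mem_filter, mem_op] at hp
      rw [mem_filter, mem_Icc]
      refine ⟨⟨hp.1.1.2.1.one_lt.le, hp.1.1.1⟩, hp.1.1.2.1, cert_of _ _ p ?_⟩
      have h3 := hp.2
      rw [Set.mem_setOf_eq] at h3
      simp only [(φ l).app_red p m]
      exact h3
    refine le_trans ?_ h2
    refine le_trans ?_ h1
    have h3 : (((Icc 1 x).filter Nat.Prime).card : ℝ) ≤ (I x).card + 4 * k := by
      have h4 : ((Icc 1 x).filter Nat.Prime) ⊆ I x ∪ range (4 * k) := by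
        intro p hp
        rw [mem_filter, mem_Icc] at hp
        rw [mem_union, mem_range]
        by_cases hpk : p < 4 * k
        · exact Or.inr hpk
        · left
          rw [hI, mem_filter, mem_op]
          exact ⟨⟨hp.1.2, hp.2, by omega⟩, by omega⟩
      have h5 := (card_le_card h4).trans (card_union_le _ _)
      rw [card_range] at h5
      exact_mod_cast h5
    have h4 : (4 * k : ℝ) ≤ (I x).card := by
      refine le_trans ?_ (hIc x hyx)
      rw [← Real.sqrt_eq_rpow]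
      apply Real.le_sqrt_of_sq_le
      have : (4 * k) ^ 2 ≤ x := by omega
      exact_mod_cast this
    have h6 : (κ / 4) * (((Icc 1 x).filter Nat.Prime).card : ℝ) ≤ (κ / 4) * (2 * (I x).card) := by
      apply mul_le_mul_of_nonneg_left _ (by positivity)
      linarith
    refine h6.trans (le_of_eq ?_)
    ring

end Pool.Agent.X22.SKP
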